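import Pool.Agent.H63.PU.C138.Cert

namespace Pool.Agent.H63.PU.C138

open Pool.Agent.H63.PU Pool.Agent.H63.PU.Short

set_option maxRecDepth 20000

theorem k10_0 : allFrom (checkOne W cert) 64 2560 = true := by decide +kernel

theorem k10_1 : allFrom (checkOne W cert) 64 2624 = true := by decide +kernel

theorem k10_2 : allFrom (checkOne W cert) 64 2688 = true := by decide +kernel

theorem k10_3 : allFrom (checkOne W cert) 64 2752 = true := by decide +kernel

end Pool.Agent.H63.PU.C138
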