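import Pool.Agent.H63.PU.C138.K00
import Pool.Agent.H63.PU.C138.K01
import Pool.Agent.H63.PU.C138.K02
import Pool.Agent.H63.PU.C138.K03
import Pool.Agent.H63.PU.C138.K04
import Pool.Agent.H63.PU.C138.K05
import Pool.Agent.H63.PU.C138.K06
import Pool.Agent.H63.PU.C138.K07
import Pool.Agent.H63.PU.C138.K08
import Pool.Agent.H63.PU.C138.K09
import Pool.Agent.H63.PU.C138.K10
import Pool.Agent.H63.PU.C138.K11
import Pool.Agent.H63.PU.C138.K12
import Pool.Agent.H63.PU.C138.K13
import Pool.Agent.H63.PU.C138.K14

namespace Pool.Agent.H63.PU.C138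

open Pool.Agent.H63.PU Pool.Agent.H63.PU.Short

theorem all : ∀ i < 3660, checkOne W cert i = true := by
  intro i hi
  by_cases h0 : i < 64
  · exact allFrom_spec k00_0 (by omega) h0
  by_cases h64 : i < 128
  · exact allFrom_spec k00_1 (by omega) h64
  by_cases h128 : i < 192
  · exact allFrom_spec k00_2 (by omega) h128
  by_cases h192 : i < 256
  · exact allFrom_spec k00_3 (by omega) h192
  by_cases h256 : i < 320
  · exact allFrom_spec k01_0 (by omega) h256
  by_cases h320 : i < 384
  · exact allFrom_spec k01_1 (by omega) h320
  by_cases h384 : i < 448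
  · exact allFrom_spec k01_2 (by omega) h384
  by_cases h448 : i < 512
  · exact allFrom_spec k01_3 (by omega) h448
  by_cases h512 : i < 576
  · exact allFrom_spec k02_0 (by omega) h512
  by_cases h576 : i < 640
  · exact allFrom_spec k02_1 (by omega) h576
  by_cases h640 : i < 704
  · exact allFrom_spec k02_2 (by omega) h640
  by_cases h704 : i < 768
  · exact allFrom_spec k02_3 (by omega) h704
  by_cases h768 : i < 832
  · exact allFrom_spec k03_0 (by omega) h768
  by_cases h832 : i < 896
  · exact allFrom_spec k03_1 (by omega) h832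
  by_cases h896 : i < 960
  · exact allFrom_spec k03_2 (by omega) h896
  by_cases h960 : i < 1024
  · exact allFrom_spec k03_3 (by omega) h960
  by_cases h1024 : i < 1088
  · exact allFrom_spec k04_0 (by omega) h1024
  by_cases h1088 : i < 1152
  · exact allFrom_spec k04_1 (by omega) h1088
  by_cases h1152 : i < 1216
  · exact allFrom_spec k04_2 (by omega) h1152
  by_cases h1216 : i < 1280
  · exact allFrom_spec k04_3 (by omega) h1216
  by_cases h1280 : i < 1344
  · exact allFrom_spec k05_0 (by omega) h1280
  by_cases h1344 : i < 1408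
  · exact allFrom_spec k05_1 (by omega) h1344
  by_cases h1408 : i < 1472
  · exact allFrom_spec k05_2 (by omega) h1408
  by_cases h1472 : i < 1536
  · exact allFrom_spec k05_3 (by omega) h1472
  by_cases h1536 : i < 1600
  · exact allFrom_spec k06_0 (by omega) h1536
  by_cases h1600 : i < 1664
  · exact allFrom_spec k06_1 (by omega) h1600
  by_cases h1664 : i < 1728
  · exact allFrom_spec k06_2 (by omega) h1664
  by_cases h1728 : i < 1792
  · exact allFrom_spec k06_3 (by omega) h1728
  by_cases h1792 : i < 1856
  · exact allFrom_spec k07_0 (by omega) h1792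
  by_cases h1856 : i < 1920
  · exact allFrom_spec k07_1 (by omega) h1856
  by_cases h1920 : i < 1984
  · exact allFrom_spec k07_2 (by omega) h1920
  by_cases h1984 : i < 2048
  · exact allFrom_spec k07_3 (by omega) h1984
  by_cases h2048 : i < 2112
  · exact allFrom_spec k08_0 (by omega) h2048
  by_cases h2112 : i < 2176
  · exact allFrom_spec k08_1 (by omega) h2112
  by_cases h2176 : i < 2240
  · exact allFrom_spec k08_2 (by omega) h2176
  by_cases h2240 : i < 2304
  · exact allFrom_spec k08_3 (by omega) h2240
  by_cases h2304 : i < 2368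
  · exact allFrom_spec k09_0 (by omega) h2304
  by_cases h2368 : i < 2432
  · exact allFrom_spec k09_1 (by omega) h2368
  by_cases h2432 : i < 2496
  · exact allFrom_spec k09_2 (by omega) h2432
  by_cases h2496 : i < 2560
  · exact allFrom_spec k09_3 (by omega) h2496
  by_cases h2560 : i < 2624
  · exact allFrom_spec k10_0 (by omega) h2560
  by_cases h2624 : i < 2688
  · exact allFrom_spec k10_1 (by omega) h2624
  by_cases h2688 : i < 2752
  · exact allFrom_spec k10_2 (by omega) h2688
  by_cases h2752 : i < 2816
  · exact allFrom_spec k10_3 (by omega) h2752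
  by_cases h2816 : i < 2880
  · exact allFrom_spec k11_0 (by omega) h2816
  by_cases h2880 : i < 2944
  · exact allFrom_spec k11_1 (by omega) h2880
  by_cases h2944 : i < 3008
  · exact allFrom_spec k11_2 (by omega) h2944
  by_cases h3008 : i < 3072
  · exact allFrom_spec k11_3 (by omega) h3008
  by_cases h3072 : i < 3136
  · exact allFrom_spec k12_0 (by omega) h3072
  by_cases h3136 : i < 3200
  · exact allFrom_spec k12_1 (by omega) h3136
  by_cases h3200 : i < 3264
  · exact allFrom_spec k12_2 (by omega) h3200
  by_cases h3264 : i < 3328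
  · exact allFrom_spec k12_3 (by omega) h3264
  by_cases h3328 : i < 3392
  · exact allFrom_spec k13_0 (by omega) h3328
  by_cases h3392 : i < 3456
  · exact allFrom_spec k13_1 (by omega) h3392
  by_cases h3456 : i < 3520
  · exact allFrom_spec k13_2 (by omega) h3456
  by_cases h3520 : i < 3584
  · exact allFrom_spec k13_3 (by omega) h3520
  by_cases h3584 : i < 3648
  · exact allFrom_spec k14_0 (by omega) h3584
  by_cases h3648 : i < 3660
  · exact allFrom_spec k14_1 (by omega) h3648
  omega

theorem root_s : (cert 1339).1 = [.tok .s 0 0, .gap] := rfl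
theorem root_p : (cert 2499).1 = [.tok .p 0 0, .gap] := rfl
theorem root_m : (cert 3659).1 = [.tok .m 0 0, .gap] := rfl

theorem solved (h : T_CHK) (k : Kd) : Solved W [.tok k 0 0, .gap] := by
  have key := h W cert 3660 ⟨by decide, by decide, by decide⟩ all
  cases k with
  | s => rw [← root_s]; exact key _ (by decide)
  | p => rw [← root_p]; exact key _ (by decide)
  | m => rw [← root_m]; exact key _ (by decide)

end Pool.Agent.H63.PU.C138
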