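import Pool.Agent.H63.PU.Short

/-! Certificate data, machine generated. -/

namespace Pool.Agent.H63.PU.C138

open Pool.Agent.H63.PU Pool.Agent.H63.PU.Short

set_option maxRecDepth 20000

def d01_0 : List (List Item × Pf) := [
([s 3 1, s 4 2, g, p 0 3, g, m 1 0, g, m 2 0, g, s 0 4, g], .leaf [7, 5, 6, 4, 1, 2, 3]),
([s 4 1, s 0 2, g, m 0 3, g, p 0 4, s 3 0, g, m 1 0, g, m 2 0, g], .inner (.lo 1) [.ref 251 [0, 1, 2, 5, 4] [1, 3, 2, 1, 1], .ref 252 [0, 2, 5, 3, 4] [1, 1, 1, 3, 1], .ref 27 [0, 5, 4] [1, 3, 6], .ref 251 [0, 1, 2, 5, 4] [3, 1, 2, 1, 1], .ref 253 [0, 1, 3, 5, 4] [1, 1, 1, 1, 3], .ref 27 [0, 5, 4] [3, 1, 6], .ref 254 [0, 1, 2, 4, 5] [3, 0, 1, 1, 1], .ref 254 [0, 1, 2, 4, 5] [3, 2, 1, 1, 1], .ref 56 [0, 2,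 4, 5] [3, 2, 3, 1], .ref 30 [0, 4, 5] [3, 2, 5], .ref 30 [0, 4, 5] [3, 2, 3], .ref 255 [0, 1, 2, 4, 5] [3, 2, 1, 1, 1], .ref 56 [0, 2, 4, 5] [3, 4, 1, 1], .ref 30 [0, 4, 5] [3, 4, 3], .cyc [1, 10], .ref 256 [0, 1, 2, 4, 5] [3, 2, 1, 1, 1], .ref 58 [0, 2, 4, 5] [3, 4, 1, 1], .ref 30 [0, 4, 5] [3, 6, 1]]),
([s 3 1, s 0 0, g, m 0 2, g, p 0 3, s 2 0, g, m 1 0, g], .inner (.hi 1) [.cyc [1], .ref 164 [0, 1, 4, 2, 3] [1, 1, 1, 1, 1], .ref 35 [0, 1, 4] [1, 6, 1], .ref 174 [0, 1, 4, 2, 3] [1, 1, 1, 1, 1], .ref 175 [0, 1, 4, 2, 3] [1, 1, 1, 1], .ref 176 [0, 1, 4, 2, 3] [1, 1, 1, 1, 1], .ref 35 [0, 1, 4] [3, 4, 1], .ref 177 [0, 1, 4, 2, 3] [1, 1, 1, 1, 1], .ref 49 [0, 4, 3] [3, 4], .ref 187 [0, 1, 4, 2, 3] [1, 1, 1, 1, 1], .ref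 35 [0, 1, 4] [6, 1, 1], .ref 188 [0, 1, 4, 2, 3] [0, 1, 1, 1, 1, 1], .ref 250 [0, 1, 4, 2, 3] [1, 1, 1, 1, 1], .ref 61 [0, 1, 4] [6, 1, 1], .ref 257 [0, 1, 4, 2, 3] [1, 1, 1, 1, 1]]),
([s 4 1, p 3 2, g, s 2 0, g, p 0 3, g, p 0 4, g, m 1 0, g], .leaf [3, 1, 6, 3, 6, 2, 3]),
([s 4 0, p 2 1, g, p 0 2, g, s 1 0, g, m 0 3, g, p 0 4, s 3 0, g], .leaf [5, 3, 6, 0, 7, 4, 1]),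
([s 4 1, p 3 2, g, p 0 3, g, s 2 0, g, p 0 4, g, m 1 0, g], .leaf [5, 3, 6, 1, 6, 4, 1]),
([s 4 0, g, p 2 1, g, p 0 2, g, m 0 3, g, p 0 4, s 3 0, g, s 1 0, g], .leaf [2, 10, 4, 2, 5, 1, 5]),
([s 4 1, p 2 0, g, p 0 2, g, m 0 3, g, p 0 4, s 3 0, g, m 1 0, g], .inner (.hi 1) [.ref 259 [0, 1, 5, 2, 4] [1, 1, 3, 2, 1], .ref 5 [0, 5] [0, 1, 10], .ref 98 [0, 5] [0, 1, 10], .cyc [1, 3], .ref 260 [0, 5, 2, 3, 4] [1, 1, 1, 1, 3], .ref 5 [0, 5] [0, 3, 8], .ref 98 [0, 5] [0, 3, 8], .ref 98 [0, 5] [0, 3, 6], .ref 261 [0, 1, 5, 2, 4] [1, 3, 1, 2, 1], .ref 5 [0, 5] [0, 5, 6], .ref 98 [0, 5] [0, 5, 6], .ref 5 [0, 5] [0, 5, 4], .ref 262 [0, 5, 2, 3, 4] [0, 1, 1, 1, 1, 3], .ref 5 [0, 5] [0, 8, 3], .ref 98 [0, 5] [0, 8, 3], .ref 262 [0,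 5, 2, 3, 4] [0, 1, 1, 1, 3, 1], .ref 5 [0, 5] [0, 10, 1], .ref 98 [0, 5] [0, 10, 1]]),
([s 4 1, p 3 0, g, m 0 2, g, p 0 3, g, p 0 4, s 2 0, g, m 1 0, g], .leaf [1, 10, 8, 3, 7, 2, 3]),
([s 2 0, p 3 0, g, m 0 1, g, p 0 2, s 1 0, g, p 0 3, g], .leaf [8, 5, 2, 6, 1]),
([s 3 1, p 0 0, g, m 0 2, g, p 0 3, s 2 0, g, m 1 0, g], .inner (.lo 1) [.cyc [1], .ref 64 [0, 4, 3] [1, 3, 4], .ref 263 [0, 1, 4, 2, 3] [1, 1, 1, 1, 1], .ref 66 [0, 4, 3] [1, 3, 4], .ref 64 [0, 4, 3] [3, 1, 4], .ref 264 [0, 1, 2, 4, 3] [1, 1, 1, 1, 1], .ref 66 [0, 4, 3] [3, 1, 4], .ref 68 [0, 3, 4] [3, 0, 3], .ref 68 [0, 3, 4] [3, 2, 3], .ref 265 [0, 2, 3, 4] [1, 1, 1, 3], .ref 70 [0, 3, 4] [3, 2, 3], .ref 70 [0, 3, 4] [3, 2, 1], .ref 68 [0, 3, 4] [3, 4,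 1], .ref 265 [0, 2, 3, 4] [1, 1, 3, 1], .ref 70 [0, 3, 4] [3, 4, 1]]),
([s 4 1, m 3 2, g, s 0 3, g, m 2 0, g, p 0 4, g, m 1 0, g], .leaf [3, 1, 6, 3, 6, 2, 3]),
([s 4 0, m 2 1, g, m 1 0, g, s 0 2, g, m 0 3, g, p 0 4, s 3 0, g], .leaf [5, 3, 6, 0, 7, 4, 1]),
([s 4 1, m 3 2, g, m 2 0, g, s 0 3, g, p 0 4, g, m 1 0, g], .leaf [5, 3, 6, 1, 6, 4, 1]),
([s 3 0, g, m 4 1, g, m 1 0, g, m 0 2, g, p 0 3, s 2 0, g, s 0 4, g], .leaf [2, 10, 4, 2, 5, 1, 5]),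
([s 4 1, m 0 2, g, m 2 0, g, m 0 3, g, p 0 4, s 3 0, g, m 1 0, g], .inner (.lo 1) [.ref 267 [0, 1, 2, 5, 4] [1, 1, 3, 2, 1], .ref 161 [0, 5] [0, 1, 10], .ref 13 [0, 5] [0, 1, 10], .cyc [1, 3], .ref 268 [0, 2, 5, 3, 4] [1, 1, 1, 1, 3], .ref 161 [0, 5] [0, 3, 8], .ref 13 [0, 5] [0, 3, 8], .ref 269 [0, 1, 2, 5, 4] [1, 3, 1, 2, 1], .ref 161 [0, 5] [0, 5, 6], .ref 13 [0, 5] [0, 5, 6], .ref 88 [0, 4, 5] [0, 5, 3], .ref 270 [0, 2, 3, 4, 5] [0, 1, 1, 1, 1, 3], .ref 161 [0, 5] [0, 8, 3], .ref 13 [0, 5] [0, 8, 3], .ref 13 [0, 5] [0, 8, 1], .ref 270 [0, 2, 3, 4, 5] [0, 1, 1, 1, 3, 1], .ref 161 [0, 5] [0, 10, 1], .ref 13 [0, 5] [0, 10, 1]]),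
([s 4 1, m 0 2, g, m 2 3, g, p 0 4, s 3 0, g, m 1 0, g], .leaf [1, 8, 6, 1, 5, 2, 3]),
([s 4 1, m 0 2, g, m 0 3, g, m 2 0, g, p 0 4, s 3 0, g, m 1 0, g], .leaf [1, 10, 8, 3, 7, 2, 3]),
([s 3 0, m 0 1, g, m 0 2, g, p 0 3, s 2 0, g, m 1 0, g], .leaf [8, 5, 2, 6, 1]),
([s 3 1, m 0 0, g, m 0 2, g, p 0 3, s 2 0, g, m 1 0, g], .inner (.hi 1) [.cyc [1], .ref 73 [0, 1, 4] [1, 6, 1], .ref 74 [0, 1, 4] [1, 6, 1], .ref 271 [0, 1, 4, 2, 3] [1, 1, 1, 1, 1], .ref 272 [0, 1, 4, 2, 3] [1, 1, 1, 1], .ref 73 [0, 1, 4] [3, 4, 1], .ref 74 [0, 1, 4] [3, 4, 1], .ref 273 [0, 1, 4, 2, 3] [1, 1, 1, 1, 1], .ref 77 [0, 4, 3] [3, 4], .ref 73 [0, 1, 4] [6, 1, 1], .ref 74 [0, 1, 4] [6, 1, 1], .ref 274 [0, 4, 2, 3] [1, 1, 1, 3], .ref 79 [0, 1, 4]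 [6, 1, 1], .ref 80 [0, 1, 4] [6, 1, 1], .ref 274 [0, 4, 2, 3] [1, 1, 3, 1]]),
([s 3 1, g, m 0 2, g, p 0 3, s 2 0, g, m 1 0, g], .inner (.top 1) [.ref 73 [0, 1, 2] [2, 1, 1], .ref 258 [0, 1, 2, 3] [1, 1, 1, 1], .ref 266 [0, 1, 2, 3] [1, 1, 1, 1], .ref 275 [0, 1, 2, 3] [1, 1, 1, 1]]),
([s 1 0, p 2 1, g, s 0 2, g], .leaf [1, 0, 1]),
([s 2 1, p 3 2, g, s 4 0, g, p 0 3, g, s 0 4, g, m 1 0, g], .leaf [7, 3, 8, 1, 2, 0, 3]),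
([s 1 0, p 2 1, g, m 0 2, g], .leaf [1, 0, 1]),
([s 2 1, p 4 2, s 3 0, g, s 0 3, g, p 0 4, g, m 1 0, g], .leaf [3, 8, 4, 5, 0, 1]),
([s 2 1, g, p 4 2, s 3 0, g, s 0 3, g, m 1 0, g, p 0 4, g], .leaf [2, 1, 6, 4, 1, 5, 1]),
([s 2 1, p 0 2, s 3 0, g, s 0 3, g, m 1 0, g], .inner (.lo 1) [.ref 277 [0, 2, 4] [0, 5], .ref 277 [0, 2, 4] [2, 5], .ref 278 [0, 1, 2, 4, 3] [0, 1, 1, 1, 1], .ref 279 [0, 2, 4] [2, 5], .ref 277 [0, 2, 4] [4, 3], .ref 280 [0, 1, 2, 3, 4] [1, 1, 1, 1], .ref 279 [0, 2, 4] [4, 3], .cyc [0, 6, 1], .ref 277 [0, 2, 4] [6, 1], .ref 281 [0, 1, 2, 3, 4] [0, 1, 1, 1, 1], .ref 279 [0, 2, 4] [6, 1]]),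
([s 3 1, s 0 2, g, s 2 0, g, p 0 3, s 4 0, g, s 0 4, g, m 1 0, g], .leaf [2, 10, 7, 7, 4, 1]),
([s 4 1, s 3 2, g, p 0 3, g, m 2 0, g, p 0 4, g, m 1 0, g], .leaf [3, 1, 6, 3, 6, 2, 3]),
([s 4 1, s 3 2, g, m 2 0, g, p 0 3, g, p 0 4, g, m 1 0, g], .leaf [3, 1, 6, 3, 6, 2, 3]),
([s 3 1, s 4 2, g, m 2 0, g, p 0 3, s 5 0, g, p 0 4, g, s 0 5, g, m 1 0, g], .leaf [8, 6, 7, 3, 6, 8, 4, 5]),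
([s 2 1, s 4 0, g, p 0 2, s 3 0, g, s 0 3, g, p 0 4, g, m 1 0, g], .leaf [5, 10, 4, 7, 2, 3]),
([s 3 1, s 4 2, g, m 2 0, g, p 0 3, g, m 1 0, g, p 0 4, g], .leaf [9, 7, 8, 4, 1, 2, 3]),
([s 3 1, s 0 2, g, m 2 0, g, p 0 3, s 4 0, g, s 0 4, g, m 1 0, g], .inner (.lo 1) [.ref 165 [0, 1, 2, 5, 3] [1, 1, 1, 4, 1], .ref 284 [0, 1, 2, 5, 3] [1, 1, 1, 4, 1], .ref 27 [0, 5, 3] [1, 3, 6], .cyc [1, 3], .ref 167 [0, 1, 2, 5, 3] [1, 1, 1, 4, 1], .ref 285 [0, 1, 2, 5, 3] [1, 1, 1, 4, 1], .ref 27 [0, 5, 3] [3, 1, 6], .ref 170 [0, 1, 2, 3, 5] [1, 1, 3, 1], .ref 171 [0, 1, 2, 3, 5] [1, 1, 2, 3, 1], .ref 286 [0, 1, 2, 3, 5, 4] [1, 1, 1, 1, 1, 1], .ref 30 [0, 3, 5] [3, 2, 5], .ref 171 [0, 1, 2, 3, 5] [1, 1, 4, 1, 1], .ref 287 [0, 1, 3,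 4, 5] [3, 1, 1, 1, 1], .ref 30 [0, 3, 5] [3, 4, 3], .ref 30 [0, 3, 5] [3, 4, 1], .ref 173 [0, 1, 2, 3, 5] [1, 1, 4, 1, 1], .ref 288 [0, 1, 2, 3, 5] [1, 1, 4, 1, 1], .ref 30 [0, 3, 5] [3, 6, 1]]),
([s 3 1, s 0 2, g, p 0 3, s 4 0, g, s 2 0, g, s 0 4, g, m 1 0, g], .leaf [7, 10, 2, 5, 2, 5]),
([s 3 1, s 2 0, g, s 0 2, g, p 0 3, s 4 0, g, s 0 4, g, m 1 0, g], .leaf [2, 10, 7, 7, 4, 1]),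
([s 4 1, s 3 2, g, p 0 3, g, p 0 4, s 5 0, g, m 2 0, g, s 0 5, g, m 1 0, g], .leaf [8, 6, 7, 3, 6, 8, 4, 5]),
([s 2 0, s 3 1, g, p 0 2, s 4 3, g, m 1 0, g, s 0 4, g], .leaf [4, 2, 5, 2, 2, 3]),
([s 2 0, s 3 1, g, p 0 2, s 4 0, g, s 0 3, g, m 1 0, g, s 0 4, g], .leaf [6, 4, 7, 2, 4, 5]),
([s 2 0, s 3 1, g, p 0 2, s 4 0, g, m 1 0, g, s 0 3, g, s 0 4, g], .leaf [6, 4, 7, 2, 4, 5]),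
([s 2 0, s 4 1, g, p 0 2, s 3 0, g, m 1 0, g, s 0 3, g, s 0 4, g], .leaf [6, 4, 9, 4, 6, 3]),
([s 3 1, s 0 2, g, p 0 3, s 4 0, g, m 2 0, g, s 0 4, g, m 1 0, g], .inner (.lo 1) [.ref 291 [0, 1, 5, 3, 4] [1, 1, 3, 1, 1], .ref 292 [0, 1, 2, 5, 3, 4] [1, 1, 1, 1, 1, 1], .ref 27 [0, 5, 3] [1, 1, 8], .ref 293 [0, 2, 3, 5, 4] [1, 1, 1, 3], .ref 294 [0, 2, 3, 5, 4] [1, 1, 1, 1, 3], .ref 56 [0, 2, 3, 5] [1, 2, 1, 5], .ref 30 [0, 3, 5] [1, 2, 7], .cyc [1, 6], .ref 295 [0, 2, 3, 5, 4] [1, 1, 1, 1, 3], .ref 58 [0, 2, 3, 5] [1, 2, 1, 5], .ref 30 [0, 3, 5] [1, 4, 5], .ref 296 [0, 2, 3, 4, 5] [1, 1, 1, 1, 3], .ref 287 [0, 1, 3, 4, 5] [1, 3, 1, 1, 1], .ref 30 [0, 3, 5] [1, 6, 3], .ref 30 [0, 3, 5] [1, 6, 1], .ref 296 [0, 2, 3, 4, 5]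 [1, 1, 1, 3, 1], .ref 58 [0, 2, 3, 5] [1, 2, 5, 1], .ref 30 [0, 3, 5] [1, 8, 1]]),
([s 3 1, s 0 2, g, p 0 3, s 4 0, g, s 2 4, g, m 1 0, g], .leaf [5, 8, 2, 5, 2, 3]),
([s 3 1, s 0 2, g, p 0 3, s 4 0, g, s 0 4, g, s 2 0, g, m 1 0, g], .leaf [5, 10, 4, 7, 2, 3]),
([s 3 1, s 0 2, g, p 0 3, s 4 0, g, s 0 4, g, m 2 0, g, m 1 0, g], .leaf [5, 10, 4, 7, 2, 3]),
([s 3 1, s 0 2, g, p 0 3, s 4 0, g, s 0 4, g, m 1 0, g, s 2 0, g], .leaf [5, 8, 2, 5, 2, 5]),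
([s 4 1, s 3 2, g, p 0 3, g, p 0 4, g, m 1 0, g, m 2 0, g], .leaf [9, 7, 8, 4, 1, 2, 3]),
([s 3 1, s 0 2, g, p 0 3, g, m 1 0, g, m 2 0, g], .inner (.lo 1) [.ref 251 [0, 1, 2, 4, 3] [1, 1, 1, 1, 1], .ref 302 [0, 1, 2, 4, 3] [1, 1, 1, 1, 1], .ref 27 [0, 4, 3] [1, 1, 5], .ref 254 [0, 1, 2, 3, 4] [1, 1, 1, 1, 1], .ref 56 [0, 2, 3, 4] [1, 1, 3, 1], .ref 30 [0, 3, 4] [1, 1, 5], .ref 30 [0, 3, 4] [1, 1, 3], .ref 255 [0, 1, 2, 3, 4] [1, 1, 1, 1, 1], .ref 56 [0, 2, 3, 4] [1, 3, 1, 1], .ref 30 [0, 3, 4] [1, 3, 3], .cyc [1, 7], .ref 256 [0, 1, 2, 3, 4] [1, 1, 1, 1, 1], .ref 58 [0, 2, 3, 4] [1, 3, 1, 1], .ref 30 [0, 3, 4] [1, 5, 1]]),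
([s 2 1, s 0 0, g, p 0 2, s 3 0, g, s 0 3, g, m 1 0, g], .inner (.hi 1) [.cyc [1], .ref 283 [0, 1, 4, 2, 3] [1, 1, 1, 1, 1], .ref 35 [0, 1, 4] [1, 6, 1], .ref 289 [0, 1, 4, 2, 3] [1, 1, 1, 1, 1], .ref 49 [0, 4, 2] [1, 6], .ref 290 [0, 1, 4, 2, 3] [1, 1, 1, 1, 1], .ref 35 [0, 1, 4] [4, 3, 1], .ref 297 [0, 1, 4, 2, 3] [1, 1, 1, 1, 1], .ref 298 [0, 1, 4, 2, 3] [1, 1, 1, 1], .ref 299 [0, 1, 4, 2, 3] [1, 1, 1, 1, 1], .ref 35 [0, 1, 4] [6, 1, 1], .ref 300 [0, 1, 4, 2, 3] [1, 1, 1, 1, 1], .ref 301 [0, 1, 4, 2, 3] [1, 1, 1, 1, 1], .ref 61 [0, 1, 4] [6, 1, 1], .ref 303 [0, 1, 4, 2] [1, 4, 1, 1]]),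
([s 3 1, p 2 0, g, p 0 2, g, p 0 3, s 4 0, g, s 0 4, g, m 1 0, g], .leaf [1, 10, 8, 1, 7, 4, 1]),
([s 2 1, p 3 0, g, p 0 2, g, s 4 0, g, p 0 3, g, s 0 4, g, m 1 0, g], .leaf [9, 3, 10, 1, 4, 2, 5]),
([s 2 1, p 4 0, g, p 0 2, s 3 0, g, s 0 3, g, p 0 4, g, m 1 0, g], .leaf [5, 10, 4, 7, 2, 3]),
([s 2 1, g, p 4 0, g, p 0 2, s 3 0, g, s 0 3, g, m 1 0, g, p 0 4, g], .leaf [4, 3, 8, 4, 1, 7, 1]),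
([s 2 1, p 0 0, g, p 0 2, s 3 0, g, s 0 3, g, m 1 0, g], .inner (.lo 1) [.cyc [1], .ref 64 [0, 4, 2] [1, 1, 6], .ref 305 [0, 1, 4, 2, 3] [1, 1, 1, 1, 1], .ref 66 [0, 4, 2] [1, 1, 6], .ref 68 [0, 2, 4] [1, 0, 5], .ref 68 [0, 2, 4] [1, 2, 5], .ref 306 [0, 1, 2, 4, 3] [1, 0, 1, 1, 1, 1], .ref 70 [0, 2, 4] [1, 2, 5], .ref 68 [0, 2, 4] [1, 4, 3], .ref 307 [0, 1, 2, 3, 4] [1, 1, 1, 1, 1], .ref 70 [0, 2, 4] [1, 4, 3], .ref 70 [0, 2, 4] [1, 4, 1], .ref 68 [0, 2, 4] [1, 6, 1], .ref 308 [0, 1, 2, 3, 4] [0, 1, 1, 1, 1, 1], .ref 70 [0, 2, 4] [1, 6, 1]]),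
([s 3 1, m 0 2, g, m 2 0, g, p 0 3, s 4 0, g, s 0 4, g, m 1 0, g], .leaf [1, 10, 8, 1, 7, 4, 1]),
([s 3 1, m 0 2, g, p 0 3, g, s 4 0, g, m 2 0, g, s 0 4, g, m 1 0, g], .leaf [9, 3, 10, 1, 4, 2, 5]),
([s 3 1, m 0 2, g, p 0 3, s 4 0, g, s 0 4, g, m 2 0, g, m 1 0, g], .leaf [5, 10, 4, 7, 2, 3]),
([s 3 1, g, m 0 2, g, p 0 3, s 4 0, g, s 0 4, g, m 1 0, g, m 2 0, g], .leaf [4, 3, 8, 4, 1, 7, 1]),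
([s 2 1, m 0 0, g, p 0 2, s 3 0, g, s 0 3, g, m 1 0, g], .inner (.hi 1) [.cyc [1], .ref 73 [0, 1, 4] [1, 6, 1], .ref 74 [0, 1, 4] [1, 6, 1], .ref 310 [0, 1, 4, 2, 3] [1, 1, 1, 1, 1], .ref 77 [0, 4, 2] [1, 6], .ref 73 [0, 1, 4] [4, 3, 1], .ref 74 [0, 1, 4] [4, 3, 1], .ref 311 [0, 1, 4, 2, 3] [1, 0, 1, 1, 1, 1], .ref 73 [0, 1, 4] [4, 1, 1], .ref 73 [0, 1, 4] [6, 1, 1], .ref 74 [0, 1, 4] [6, 1, 1], .ref 312 [0, 1, 4, 2, 3] [1, 1, 1, 1, 1], .ref 79 [0, 1, 4] [6, 1, 1], .ref 80 [0, 1, 4] [6, 1, 1], .ref 313 [0, 1, 4, 2, 3] [0, 1, 1, 1, 1, 1]]),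
([s 2 1, g, p 0 2, s 3 0, g, s 0 3, g, m 1 0, g], .inner (.top 1) [.ref 282 [0, 1, 2, 3] [1, 1, 1], .ref 304 [0, 1, 2, 3] [1, 1, 1, 1], .ref 309 [0, 1, 2, 3] [1, 1, 1, 1], .ref 314 [0, 1, 2, 3] [1, 1, 1, 1]]),
([s 2 1, g, s 3 0, g, p 0 2, s 4 3, g, p 0 4, g, m 1 0, g], .leaf [2, 4, 1, 7, 5, 3, 1]),
([s 1 0, g, p 2 0, g, p 0 1, s 3 2, g, p 0 3, g], .leaf [7, 1, 4, 2, 3]),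
([s 1 0, g, p 2 1, s 3 2, g, p 0 3, g], .leaf [5, 1, 2, 0, 1]),
([s 2 1, g, p 0 2, s 4 3, g, s 3 0, g, p 0 4, g, m 1 0, g], .leaf [5, 1, 6, 4, 1, 5, 3])]

def d01_1 : List (List Item × Pf) := [
([s 1 0, g, p 0 1, s 3 2, g, m 2 0, g, p 0 3, g], .leaf [5, 1, 6, 4, 1]),
([s 2 1, g, p 0 2, s 4 3, g, p 0 4, g, s 3 0, g, m 1 0, g], .leaf [5, 1, 6, 4, 1, 5, 3]),
([s 1 0, g, p 0 1, s 3 2, g, p 0 3, g, m 2 0, g], .leaf [5, 1, 6, 4, 1]),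
([s 2 1, g, p 0 2, s 4 3, g, p 0 4, g, m 1 0, g, s 3 0, g], .leaf [5, 1, 8, 6, 1, 3, 1]),
([s 2 1, g, p 0 2, s 3 0, g, p 0 3, g, m 1 0, g], .inner (.hi 3) [.ref 316 [0, 1, 2, 4, 3] [1, 1, 1, 1, 1], .ref 317 [0, 2, 4, 3] [1, 1, 1, 3], .ref 88 [0, 2, 4] [1, 1, 5], .ref 318 [0, 2, 4, 3] [1, 1, 3], .ref 319 [0, 1, 2, 4, 3] [1, 1, 1, 1, 1], .ref 94 [0, 1, 2, 4] [1, 1, 3, 1], .ref 320 [0, 2, 4, 3] [1, 1, 1, 3], .cyc [3, 5], .ref 321 [0, 1, 2, 4, 3] [1, 1, 1, 1, 1], .ref 94 [0, 1, 2, 4] [1, 3, 1, 1], .ref 322 [0, 2, 4, 3] [1, 1, 1, 3], .ref 323 [0, 1, 2, 4, 3] [1, 1, 1, 1, 1], .ref 96 [0, 1, 2, 4] [1, 3, 1, 1], .ref 322 [0, 2, 4, 3] [1, 1, 3, 1]]),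
([s 2 1, g, p 0 2, s 3 0, g, m 0 3, g, m 1 0, g], .leaf [2, 1, 6, 4, 1]),
([s 2 1, g, p 0 2, s 3 0, g, m 1 3, g], .leaf [2, 1, 4, 2, 1]),
([s 2 1, s 3 0, g, p 0 2, s 4 3, g, m 1 0, g, s 0 4, g], .inner (.hi 1) [.ref 85 [0, 1, 5, 2, 3] [1, 1, 1, 3], .ref 35 [0, 1, 5] [1, 4, 3], .ref 170 [0, 1, 5, 2, 3] [1, 1, 1, 3], .ref 49 [0, 5, 2] [1, 6], .ref 181 [0, 1, 5, 2, 3] [1, 1, 1, 3], .ref 35 [0, 1, 5] [4, 1, 3], .ref 293 [0, 5, 2, 3, 4] [1, 1, 3, 1], .ref 189 [0, 1, 5, 2, 3] [1, 1, 1, 3], .ref 61 [0, 1, 5] [4, 1, 3], .ref 293 [0, 5, 2, 3, 4] [1, 3, 1, 1], .cyc [1, 8, 4], .ref 189 [0, 1, 5, 2, 3] [1, 1, 3, 1], .ref 61 [0, 1, 5] [4, 3, 1], .ref 254 [0, 1, 5, 2, 3] [1, 0, 1, 3, 1]]),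
([s 2 0, s 4 1, g, m 1 0, g, s 3 0, g, p 0 2, s 0 3, g, p 0 4, g], .leaf [10, 8, 3, 4, 6, 3]),
([s 3 1, s 0 2, g, m 2 0, g, s 4 0, g, p 0 3, s 0 4, g, m 1 0, g], .inner (.lo 1) [.ref 165 [0, 1, 2, 5, 3] [1, 1, 3, 2, 1], .ref 284 [0, 1, 2, 5, 3] [1, 1, 3, 2, 1], .ref 27 [0, 5, 3] [1, 5, 4], .cyc [1, 3], .ref 167 [0, 1, 2, 5, 3] [1, 1, 3, 2, 1], .ref 285 [0, 1, 2, 5, 3] [1, 1, 3, 2, 1], .ref 27 [0, 5, 3] [3, 3, 4], .ref 167 [0, 1, 2, 5, 3] [1, 1, 1, 2, 1], .ref 167 [0, 1, 2, 5, 3] [1, 3, 1, 2, 1], .ref 285 [0, 1, 2, 5, 3] [1, 3, 1, 2, 1], .ref 27 [0, 5, 3] [5, 1, 4], .ref 171 [0, 1, 2, 3, 5] [1, 3, 2, 1, 1], .ref 328 [0, 2, 3, 4, 5] [1, 1, 1, 1, 3], .ref 30 [0, 3, 5] [5, 2, 3], .ref 30 [0, 3, 5] [5, 2, 1], .ref 173 [0,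 1, 2, 3, 5] [1, 3, 2, 1, 1], .ref 328 [0, 2, 3, 4, 5] [1, 1, 1, 3, 1], .ref 30 [0, 3, 5] [5, 4, 1]]),
([s 3 1, s 0 2, g, s 4 0, g, m 2 0, g, p 0 3, s 0 4, g, m 1 0, g], .leaf [3, 7, 3, 8, 4, 5]),
([s 3 1, s 0 2, g, s 4 0, g, p 0 3, s 0 4, g, s 2 0, g, m 1 0, g], .leaf [3, 5, 1, 8, 6, 3]),
([s 2 0, s 0 1, g, s 3 0, g, p 0 2, s 4 3, g, m 1 0, g, s 0 4, g], .leaf [6, 2, 7, 2, 4, 5]),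
([s 2 1, s 0 0, g, s 3 0, g, p 0 2, s 4 3, g, m 1 0, g, s 0 4, g], .inner (.hi 1) [.cyc [1], .ref 89 [0, 1, 5, 2, 3] [1, 1, 1, 1, 3], .ref 35 [0, 1, 5] [1, 6, 3], .ref 329 [0, 1, 5, 2, 3] [1, 1, 1, 1, 3], .ref 86 [0, 1, 5, 2, 3] [1, 1, 1, 1, 3], .ref 35 [0, 1, 5] [3, 4, 3], .ref 330 [0, 1, 5, 2, 3] [1, 1, 1, 1, 3], .ref 49 [0, 5, 2] [3, 6], .ref 331 [0, 1, 5, 2, 3] [1, 1, 1, 1, 3], .ref 35 [0, 1, 5] [6, 1, 3], .ref 332 [0, 5, 2, 3, 4] [1, 1, 1, 3, 1], .ref 190 [0, 1, 5, 2, 3] [1, 1, 1, 1, 3], .ref 61 [0, 1, 5] [6, 1, 3], .ref 332 [0, 5, 2, 3, 4] [1, 1, 3, 1, 1], .ref 190 [0, 1, 5, 2, 3] [1, 1, 1, 1, 1], .ref 190 [0, 1, 5, 2, 3] [1, 1, 1, 3, 1], .ref 61 [0, 1, 5] [6, 3, 1], .ref 303 [0, 1, 5, 2] [3, 2, 3, 1]]),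
([s 3 1, p 2 0, g, p 0 2, g, s 4 0, g, p 0 3, s 0 4, g, m 1 0, g], .leaf [1, 10, 8, 1, 7, 2, 3]),
([s 3 1, p 2 0, g, s 4 0, g, p 0 2, g, p 0 3, s 0 4, g, m 1 0, g], .leaf [3, 7, 3, 8, 4, 5]),
([s 1 0, p 3 0, g, s 2 0, g, p 0 1, s 4 2, g, p 0 3, g, s 0 4, g], .leaf [6, 2, 7, 2, 4, 5]),
([s 1 0, p 4 0, g, s 2 0, g, p 0 1, s 3 2, g, s 0 3, g, p 0 4, g], .leaf [6, 2, 9, 4, 6, 3]),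
([s 2 1, p 0 0, g, s 3 0, g, p 0 2, s 4 3, g, m 1 0, g, s 0 4, g], .inner (.lo 1) [.cyc [1], .ref 64 [0, 5, 2] [1, 3, 6], .ref 334 [0, 1, 5, 2, 3] [1, 1, 1, 1, 3], .ref 66 [0, 5, 2] [1, 3, 6], .ref 64 [0, 5, 2] [1, 1, 6], .ref 64 [0, 5, 2] [3, 1, 6], .ref 335 [0, 1, 5, 2, 3] [1, 1, 1, 1, 3], .ref 66 [0, 5, 2] [3, 1, 6], .ref 68 [0, 2, 5] [3, 2, 5], .ref 336 [0, 2, 3, 5, 4] [1, 1, 1, 3, 1], .ref 70 [0, 2, 5] [3, 2, 5], .ref 70 [0, 2, 5] [3, 2, 3], .ref 68 [0, 2, 5] [3, 4, 3], .ref 336 [0, 2, 3, 5, 4] [1, 1, 3, 1, 1], .ref 70 [0, 2, 5] [3, 4, 3], .ref 68 [0, 2, 5] [3, 6, 1], .ref 337 [0, 2, 3, 4, 5] [1, 1, 3, 1, 1], .ref 70 [0, 2, 5] [3, 6, 1]]),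
([s 3 1, m 0 2, g, m 2 0, g, s 4 0, g, p 0 3, s 0 4, g, m 1 0, g], .leaf [1, 10, 8, 1, 7, 2, 3]),
([s 3 1, m 0 2, g, s 4 0, g, m 2 0, g, p 0 3, s 0 4, g, m 1 0, g], .leaf [3, 7, 3, 8, 4, 5]),
([s 2 0, m 0 1, g, s 3 0, g, p 0 2, s 4 3, g, m 1 0, g, s 0 4, g], .leaf [6, 2, 7, 2, 4, 5]),
([s 2 0, m 0 1, g, s 3 0, g, p 0 2, s 4 3, g, s 0 4, g, m 1 0, g], .leaf [6, 2, 9, 4, 6, 3]),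
([s 2 1, m 0 0, g, s 3 0, g, p 0 2, s 4 3, g, m 1 0, g, s 0 4, g], .inner (.hi 1) [.cyc [1], .ref 73 [0, 1, 5] [1, 6, 3], .ref 74 [0, 1, 5] [1, 6, 3], .ref 339 [0, 1, 5, 2, 3] [1, 1, 1, 1, 3], .ref 73 [0, 1, 5] [3, 4, 3], .ref 74 [0, 1, 5] [3, 4, 3], .ref 340 [0, 1, 5, 2, 3] [1, 1, 1, 1, 3], .ref 77 [0, 5, 2] [3, 6], .ref 73 [0, 1, 5] [6, 1, 3], .ref 74 [0, 1, 5] [6, 1, 3], .ref 341 [0, 5, 2, 3, 4] [1, 1, 1, 3, 1], .ref 79 [0, 1, 5] [6, 1, 3], .ref 80 [0, 1, 5] [6, 1, 3], .ref 341 [0, 5, 2, 3, 4] [1, 1, 3, 1, 1], .ref 79 [0, 1, 5] [6, 1, 1], .ref 79 [0, 1, 5] [6, 3, 1], .ref 80 [0, 1, 5] [6, 3, 1], .ref 342 [0, 5, 2, 3, 4] [1, 1, 3, 1, 1]]),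
([s 2 1, g, s 3 0, g, p 0 2, s 4 3, g, m 1 0, g, s 0 4, g], .inner (.top 1) [.ref 327 [0, 1, 2, 3, 4] [1, 1, 1, 1], .ref 333 [0, 1, 2, 3, 4] [1, 1, 1, 1, 1], .ref 338 [0, 1, 2, 3, 4] [1, 1, 1, 1, 1], .ref 343 [0, 1, 2, 3, 4] [1, 1, 1, 1, 1]]),
([s 2 1, g, p 3 0, g, p 0 2, s 4 3, g, m 1 0, g, s 0 4, g], .leaf [4, 3, 8, 3, 6, 2, 3]),
([s 2 1, g, p 3 2, s 4 3, g, m 1 0, g, s 0 4, g], .leaf [2, 1, 6, 3, 4, 0, 1]),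
([s 1 0, p 3 1, s 4 2, g, p 0 3, g, s 2 0, g, s 0 4, g], .leaf [6, 3, 7, 3, 0, 3]),
([s 2 1, p 4 2, s 0 3, g, s 3 0, g, p 0 4, g, m 1 0, g], .leaf [3, 8, 4, 5, 0, 1]),
([s 1 0, p 3 1, s 4 2, g, s 2 0, g, p 0 3, g, s 0 4, g], .leaf [2, 7, 3, 5, 0, 1]),
([s 2 1, g, p 4 2, s 0 3, g, s 3 0, g, m 1 0, g, p 0 4, g], .leaf [2, 1, 6, 4, 1, 5, 1]),
([s 2 1, p 0 2, s 4 3, g, s 3 0, g, m 1 0, g, s 0 4, g], .inner (.lo 1) [.ref 277 [0, 2, 5] [2, 7], .ref 347 [0, 2, 3, 5, 4] [1, 1, 3, 1], .ref 279 [0, 2, 5] [2, 7], .ref 277 [0, 2, 5] [2, 5], .ref 277 [0, 2, 5] [4, 5], .ref 348 [0, 1, 2, 3, 5] [1, 1, 1, 3], .ref 279 [0, 2, 5] [4, 5], .cyc [0, 6, 1], .ref 277 [0, 2, 5] [6, 3], .ref 349 [0, 2, 3, 5, 4] [1, 3, 1, 1], .ref 279 [0, 2,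 5] [6, 3], .ref 277 [0, 2, 5] [8, 1], .ref 350 [0, 1, 2, 3, 5] [0, 1, 1, 3, 1], .ref 279 [0, 2, 5] [8, 1]]),
([s 3 1, s 0 2, g, s 2 0, g, p 0 3, s 0 4, g, s 4 0, g, m 1 0, g], .leaf [2, 10, 7, 7, 4, 1]),
([s 1 0, s 3 0, g, p 0 1, s 4 2, g, p 0 3, g, s 2 0, g, s 0 4, g], .leaf [8, 3, 9, 5, 2, 5]),
([s 2 1, s 4 0, g, p 0 2, s 0 3, g, s 3 0, g, p 0 4, g, m 1 0, g], .leaf [5, 10, 4, 7, 2, 3]),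
([s 3 1, s 0 2, g, m 2 0, g, p 0 3, s 5 4, g, s 4 0, g, m 1 0, g, s 0 5, g], .inner (.lo 1) [.ref 165 [0, 1, 2, 6, 3] [1, 1, 1, 4, 3], .ref 284 [0, 1, 2, 6, 3] [1, 1, 1, 4, 3], .ref 27 [0, 6, 3] [1, 3, 8], .cyc [1, 3], .ref 167 [0, 1, 2, 6, 3] [1, 1, 1, 4, 3], .ref 285 [0, 1, 2, 6, 3] [1, 1, 1, 4, 3], .ref 27 [0, 6, 3] [3, 1, 8], .ref 171 [0, 1, 2, 3, 6] [1, 1, 2, 3, 3], .ref 353 [0, 3, 4, 6, 5] [3, 1, 1, 3, 1], .ref 30 [0, 3, 6] [3, 2, 7], .ref 171 [0, 1, 2, 3, 6] [1, 1, 2, 1, 3], .ref 171 [0, 1, 2, 3, 6] [1, 1, 4, 1, 3], .ref 354 [0, 1, 3, 4, 6] [3, 1, 1, 1, 3], .ref 30 [0, 3, 6] [3, 4, 5], .ref 30 [0, 3, 6] [3, 4, 3], .ref 173 [0, 1, 2, 3, 6] [1, 1, 4, 1, 3], .ref 288 [0, 1, 2, 3, 6] [1, 1, 4, 1, 3], .ref 30 [0,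 3, 6] [3, 6, 3], .ref 173 [0, 1, 2, 3, 6] [1, 1, 4, 3, 1], .ref 288 [0, 1, 2, 3, 6] [1, 1, 4, 3, 1], .ref 30 [0, 3, 6] [3, 8, 1]]),
([s 3 1, s 0 2, g, p 0 3, s 0 4, g, s 2 0, g, s 4 0, g, m 1 0, g], .leaf [7, 10, 2, 5, 2, 5]),
([s 2 0, s 0 1, g, p 0 2, s 4 3, g, m 1 0, g, s 3 0, g, s 0 4, g], .leaf [8, 3, 9, 5, 2, 5]),
([s 3 1, s 0 2, g, p 0 3, s 0 4, g, s 4 0, g, s 2 0, g, m 1 0, g], .leaf [5, 10, 4, 7, 2, 3]),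
([s 3 1, s 0 2, g, p 0 3, s 0 4, g, s 4 0, g, m 2 0, g, m 1 0, g], .leaf [5, 10, 4, 7, 2, 3]),
([s 3 1, s 0 2, g, p 0 3, s 0 4, g, s 4 0, g, m 1 0, g, s 2 0, g], .leaf [5, 8, 2, 5, 2, 5]),
([s 2 1, s 0 0, g, p 0 2, s 4 3, g, s 3 0, g, m 1 0, g, s 0 4, g], .inner (.hi 1) [.cyc [1], .ref 352 [0, 1, 5, 2, 3] [1, 1, 1, 1, 3], .ref 35 [0, 1, 5] [1, 6, 3], .ref 355 [0, 1, 5, 2, 3, 4] [1, 1, 1, 1, 1, 1], .ref 49 [0, 5, 2] [1, 8], .ref 356 [0, 1, 5, 2, 3] [1, 1, 1, 1, 3], .ref 35 [0, 1, 5] [4, 3, 3], .ref 357 [0, 5, 2, 3, 4] [1, 1, 1, 3, 1], .ref 358 [0, 1, 5, 2, 3] [1, 1, 1, 1, 3], .ref 35 [0, 1, 5] [6, 1, 3], .ref 359 [0, 1, 5, 2, 3] [1, 1, 1, 1, 3], .ref 360 [0, 1, 5, 2, 3] [1, 1, 1, 1, 3], .ref 61 [0, 1, 5] [6, 1, 3], .ref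 303 [0, 1, 5, 2] [1, 4, 1, 3], .ref 360 [0, 1, 5, 2, 3] [1, 1, 1, 1, 1], .ref 360 [0, 1, 5, 2, 3] [1, 1, 1, 3, 1], .ref 61 [0, 1, 5] [6, 3, 1], .ref 303 [0, 1, 5, 2] [1, 4, 3, 1]]),
([s 3 1, p 2 0, g, p 0 2, g, p 0 3, s 0 4, g, s 4 0, g, m 1 0, g], .leaf [1, 10, 8, 1, 7, 4, 1]),
([s 1 0, p 3 0, g, p 0 1, s 4 2, g, p 0 3, g, s 2 0, g, s 0 4, g], .leaf [8, 3, 9, 5, 2, 5]),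
([s 2 1, p 4 0, g, p 0 2, s 0 3, g, s 3 0, g, p 0 4, g, m 1 0, g], .leaf [5, 10, 4, 7, 2, 3]),
([s 1 0, p 3 0, g, p 0 1, s 4 2, g, s 2 0, g, p 0 3, g, s 0 4, g], .leaf [4, 9, 3, 7, 2, 3]),
([s 2 1, g, p 4 0, g, p 0 2, s 0 3, g, s 3 0, g, m 1 0, g, p 0 4, g], .leaf [4, 3, 8, 4, 1, 7, 1]),
([s 2 1, p 0 0, g, p 0 2, s 4 3, g, s 3 0, g, m 1 0, g, s 0 4, g], .inner (.lo 1) [.cyc [1], .ref 64 [0, 5, 2] [1, 1, 8], .ref 362 [0, 1, 5, 2, 3] [1, 1, 1, 1, 3], .ref 66 [0, 5, 2] [1, 1, 8], .ref 68 [0, 2, 5] [1, 2, 7], .ref 363 [0, 2, 3, 5, 4] [1, 1, 1, 3, 1], .ref 70 [0, 2, 5] [1, 2, 7], .ref 68 [0, 2, 5] [1, 2, 5], .ref 68 [0, 2, 5] [1, 4, 5], .ref 364 [0, 1, 2, 3, 5] [1, 1, 1, 1, 3], .ref 70 [0, 2, 5] [1, 4, 5], .ref 70 [0, 2,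 5] [1, 4, 3], .ref 68 [0, 2, 5] [1, 6, 3], .ref 365 [0, 2, 3, 5, 4] [1, 1, 3, 1, 1], .ref 70 [0, 2, 5] [1, 6, 3], .ref 68 [0, 2, 5] [1, 8, 1], .ref 366 [0, 1, 2, 3, 5] [0, 1, 1, 1, 3, 1], .ref 70 [0, 2, 5] [1, 8, 1]]),
([s 3 1, m 0 2, g, m 2 0, g, p 0 3, s 0 4, g, s 4 0, g, m 1 0, g], .leaf [1, 10, 8, 1, 7, 4, 1]),
([s 2 0, m 0 1, g, p 0 2, s 4 3, g, m 1 0, g, s 3 0, g, s 0 4, g], .leaf [8, 3, 9, 5, 2, 5]),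
([s 3 1, m 0 2, g, p 0 3, s 0 4, g, s 4 0, g, m 2 0, g, m 1 0, g], .leaf [5, 10, 4, 7, 2, 3]),
([s 2 0, m 0 1, g, p 0 2, s 4 3, g, s 3 0, g, m 1 0, g, s 0 4, g], .leaf [4, 9, 3, 7, 2, 3]),
([s 3 1, g, m 0 2, g, p 0 3, s 0 4, g, s 4 0, g, m 1 0, g, m 2 0, g], .leaf [4, 3, 8, 4, 1, 7, 1]),
([s 2 1, m 0 0, g, p 0 2, s 4 3, g, s 3 0, g, m 1 0, g, s 0 4, g], .inner (.hi 1) [.cyc [1], .ref 73 [0, 1, 5] [1, 6, 3], .ref 74 [0, 1, 5] [1, 6, 3], .ref 368 [0, 1, 5, 2, 3] [1, 1, 1, 1, 3], .ref 77 [0, 5, 2] [1, 8], .ref 73 [0, 1, 5] [4, 3, 3], .ref 74 [0, 1, 5] [4, 3, 3], .ref 369 [0, 5, 2, 3, 4] [1, 1, 1, 3, 1], .ref 73 [0, 1, 5] [6, 1, 3], .ref 74 [0, 1, 5] [6, 1, 3], .ref 370 [0, 1, 5, 2, 3] [1, 1, 1, 1, 3], .ref 79 [0, 1, 5]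 [6, 1, 3], .ref 80 [0, 1, 5] [6, 1, 3], .ref 371 [0, 5, 2, 3, 4] [1, 1, 3, 1, 1], .ref 79 [0, 1, 5] [6, 1, 1], .ref 79 [0, 1, 5] [6, 3, 1], .ref 80 [0, 1, 5] [6, 3, 1], .ref 372 [0, 1, 5, 2, 3] [0, 1, 1, 1, 3, 1]]),
([s 2 1, g, p 0 2, s 4 3, g, s 3 0, g, m 1 0, g, s 0 4, g], .inner (.top 1) [.ref 351 [0, 1, 2, 3, 4] [1, 1, 1, 1], .ref 361 [0, 1, 2, 3, 4] [1, 1, 1, 1, 1], .ref 367 [0, 1, 2, 3, 4] [1, 1, 1, 1, 1], .ref 373 [0, 1, 2, 3, 4] [1, 1, 1, 1, 1]]),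
([s 2 1, g, p 0 2, s 4 3, g, m 3 0, g, m 1 0, g, s 0 4, g], .leaf [5, 1, 8, 6, 1, 3, 1]),
([s 2 1, g, s 4 0, g, p 0 2, s 0 3, g, m 1 0, s 3 4, g], .leaf [8, 5, 7, 5, 2, 3]),
([s 2 1, g, p 3 2, g, m 1 0, s 0 3, g], .leaf [1, 2, 0, 2, 1]),
([s 2 1, g, p 0 2, s 5 3, g, s 4 0, g, m 1 0, s 3 4, g, s 0 5, g], .leaf [2, 1, 7, 4, 1, 2, 2, 3]),
([s 2 1, g, p 0 2, g, s 0 3, g, p 4 0, g, m 1 0, s 3 4, g], .leaf [4, 8, 3, 5, 1, 5, 1]),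
([s 2 1, g, p 0 2, s 5 3, g, m 1 0, s 3 4, g, s 4 0, g, s 0 5, g], .leaf [2, 1, 5, 2, 7, 4, 4, 1]),
([s 2 1, g, p 0 2, g, s 0 3, g, m 1 0, s 3 4, g, p 4 0, g], .leaf [4, 6, 1, 3, 1, 3, 3]),
([s 2 1, g, p 0 2, g, s 0 3, g, m 1 0, s 3 4, g, m 4 0, g], .leaf [2, 1, 8, 1, 4, 2, 3]),
([s 2 1, g, p 0 2, s 5 3, g, m 1 0, s 3 4, g, s 0 5, g, s 4 0, g], .leaf [2, 1, 5, 2, 5, 2, 2, 3])]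

def d01_2 : List (List Item × Pf) := [
([s 2 1, g, p 0 2, s 4 3, g, m 1 0, s 3 0, g, s 0 4, g], .inner (.hi 6) [.ref 376 [0, 1, 2, 3, 5] [1, 1, 1, 3], .ref 125 [0, 1, 2, 5] [1, 1, 2, 3], .ref 126 [0, 1, 5] [1, 4, 3], .ref 377 [0, 1, 2, 5] [1, 2, 3], .ref 378 [0, 1, 2, 3, 5, 4] [1, 1, 1, 1, 1], .ref 379 [0, 1, 2, 3, 5] [1, 0, 1, 1, 3], .ref 126 [0, 1, 5] [4, 1, 3], .ref 380 [0, 1, 2, 3, 5, 4] [1, 1, 1, 1, 1], .ref 381 [0, 1, 2, 3, 5] [1, 0, 1, 1, 3], .ref 382 [0, 1, 2, 3, 5] [1, 0, 1, 1, 3], .cyc [3, 6, 8], .ref 383 [0, 1, 2, 3, 5, 4] [1, 1, 1, 1, 1], .ref 381 [0, 1, 2, 3, 5] [1, 0, 1, 3, 1], .ref 382 [0, 1, 2, 3, 5] [1, 0, 1, 3, 1]]),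
([s 2 1, g, s 4 0, g, p 0 2, s 0 3, g, m 1 0, g, s 0 4, s 3 0, g], .leaf [4, 3, 6, 2, 6, 1]),
([s 2 1, g, p 4 0, g, p 0 2, s 0 3, g, m 1 0, g, s 0 4, s 3 0, g], .leaf [4, 3, 6, 2, 6, 1]),
([s 3 1, g, s 0 2, g, p 0 3, s 0 4, g, m 1 0, g, s 2 0, s 4 0, g], .leaf [4, 3, 6, 2, 6, 1]),
([s 2 0, g, p 0 1, g, m 4 0, g, p 0 2, s 5 3, g, s 1 4, s 3 0, g, s 0 5, g], .leaf [7, 11, 6, 3, 6, 2, 6, 1]),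
([s 3 1, g, m 0 2, g, p 0 3, s 0 4, g, m 1 0, g, s 2 0, s 4 0, g], .leaf [4, 3, 6, 2, 6, 1]),
([s 2 0, g, m 4 0, g, p 0 1, g, p 0 2, s 5 3, g, s 1 4, s 3 0, g, s 0 5, g], .leaf [7, 11, 6, 3, 6, 2, 6, 1]),
([s 2 1, g, p 0 2, s 0 3, g, s 0 4, g, m 1 0, g, s 4 0, s 3 0, g], .leaf [2, 1, 6, 4, 6, 3]),
([s 2 1, g, p 0 2, s 0 3, g, p 0 4, g, m 1 0, g, s 4 0, s 3 0, g], .leaf [2, 1, 6, 4, 6, 3]),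
([s 1 0, g, m 4 0, g, p 0 1, s 5 2, g, m 0 3, g, s 3 4, s 2 0, g, s 0 5, g], .leaf [5, 11, 4, 1, 6, 4, 6, 3]),
([s 2 1, g, p 0 2, s 0 3, g, m 1 0, g, s 0 4, g, s 4 0, s 3 0, g], .leaf [2, 1, 4, 2, 6, 1]),
([s 2 1, g, p 0 2, s 0 3, g, m 1 0, g, p 0 4, g, s 4 0, s 3 0, g], .leaf [2, 1, 4, 2, 6, 1]),
([s 1 0, g, m 3 0, g, p 0 1, s 0 2, g, s 4 3, s 2 0, g, s 0 4, g], .leaf [2, 6, 9, 2, 6, 1]),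
([s 1 0, g, m 3 0, g, p 0 1, s 0 2, g, s 4 3, s 2 0, g, p 0 4, g], .leaf [2, 6, 9, 2, 6, 1]),
([s 2 1, g, p 0 2, s 0 3, g, m 1 0, g, s 4 0, s 3 0, g, m 0 4, g], .leaf [2, 1, 4, 2, 4, 5]),
([s 2 1, g, m 4 0, g, p 0 2, s 5 3, g, m 1 0, g, s 0 4, s 3 0, g, s 0 5, g], .inner (.lo 9) [.ref 387 [0, 1, 6, 2, 3] [1, 3, 1, 1, 3], .ref 388 [0, 6, 2, 3, 4, 5] [1, 1, 1, 3, 1, 1], .ref 389 [0, 1, 6, 2, 3] [1, 3, 1, 1, 3], .cyc [2, 9], .ref 387 [0, 1, 6, 2, 3] [3, 1, 1, 1, 3], .ref 390 [0, 6, 2, 3, 4, 5] [1, 1, 1, 3, 1, 1], .ref 389 [0, 1, 6, 2, 3] [3, 1, 1, 1, 3], .ref 391 [0, 1, 2, 3, 6] [3, 1, 1, 1, 3], .ref 392 [0, 1, 2, 3, 6] [3, 1, 1, 1, 3], .ref 393 [0, 2, 3, 6, 4, 5] [1, 1, 1, 3, 1, 1], .ref 393 [0, 2, 3, 6, 4, 5] [1, 1,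 1, 1, 1, 1], .ref 394 [0, 1, 2, 3, 6] [3, 1, 1, 1, 3], .ref 395 [0, 1, 2, 3, 6] [3, 1, 1, 1, 3], .ref 393 [0, 2, 3, 6, 4, 5] [1, 1, 3, 1, 1, 1], .contra, .ref 396 [0, 2, 3, 4, 6] [1, 1, 3, 1, 3], .ref 397 [0, 2, 3, 4, 6] [1, 1, 3, 1, 3], .ref 398 [0, 1, 2, 3, 6] [3, 1, 1, 1, 3], .ref 396 [0, 2, 3, 4, 6] [1, 1, 3, 3, 1], .ref 397 [0, 2, 3, 4, 6] [1, 1, 3, 3, 1], .ref 398 [0, 1, 2, 3, 6] [3, 1, 1, 3, 1]]),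
([s 2 1, g, p 4 2, s 0 3, g, m 1 0, g, s 0 4, s 3 0, g], .leaf [2, 1, 4, 2, 4, 1]),
([s 2 1, g, p 0 2, s 0 3, g, s 4 0, g, m 1 0, g, s 0 4, s 3 0, g], .leaf [2, 1, 6, 4, 6, 3]),
([s 2 0, g, p 0 1, g, p 0 2, s 5 3, g, p 4 0, g, s 1 4, s 3 0, g, s 0 5, g], .leaf [5, 11, 4, 1, 6, 4, 6, 3]),
([s 1 0, g, p 0 1, s 5 2, g, m 0 3, g, p 4 0, g, s 3 4, s 2 0, g, s 0 5, g], .leaf [3, 11, 4, 1, 4, 2, 6, 1]),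
([s 1 0, g, p 0 1, s 5 2, g, p 4 0, g, m 0 3, g, s 3 4, s 2 0, g, s 0 5, g], .leaf [3, 11, 4, 1, 4, 2, 6, 1]),
([s 2 1, g, p 0 2, s 0 3, g, m 1 0, g, s 4 0, s 3 0, g, s 0 4, g], .leaf [2, 1, 4, 2, 4, 5]),
([s 2 1, g, p 0 2, s 0 3, g, p 4 0, g, m 1 0, g, s 5 4, s 3 0, g, p 0 5, g], .leaf [4, 7, 2, 6, 9, 2, 6, 1]),
([s 2 1, g, p 0 2, s 5 3, g, p 4 0, g, m 1 0, g, s 0 4, s 3 0, g, s 0 5, g], .inner (.lo 9) [.ref 387 [0, 1, 6, 2, 3] [1, 1, 3, 1, 3], .ref 402 [0, 6, 2, 3, 4, 5] [1, 1, 1, 3, 1, 1], .ref 389 [0, 1, 6, 2, 3] [1, 1, 3, 1, 3], .ref 391 [0, 1, 2, 3, 6] [1, 1, 3, 1, 3], .ref 392 [0, 1, 2, 3, 6] [1, 1, 3, 1, 3], .ref 403 [0, 2, 3, 6, 4, 5] [1, 1, 1, 3, 1, 1], .cyc [5, 9], .ref 391 [0, 1, 2, 3, 6] [1, 3, 1, 1, 3],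 .ref 392 [0, 1, 2, 3, 6] [1, 3, 1, 1, 3], .ref 404 [0, 2, 3, 6, 4, 5] [1, 1, 1, 3, 1, 1], .ref 404 [0, 2, 3, 6, 4, 5] [1, 1, 1, 1, 1, 1], .ref 394 [0, 1, 2, 3, 6] [1, 3, 1, 1, 3], .ref 395 [0, 1, 2, 3, 6] [1, 3, 1, 1, 3], .ref 404 [0, 2, 3, 6, 4, 5] [1, 1, 3, 1, 1, 1], .contra, .ref 405 [0, 1, 2, 3, 6] [1, 3, 1, 1, 3], .ref 406 [0, 1, 2, 3, 4, 6] [1, 1, 1, 1, 1, 3], .ref 398 [0, 1, 2, 3, 6] [1, 3, 1, 1, 3], .ref 405 [0, 1, 2, 3, 6] [1, 3, 1, 3, 1], .ref 406 [0, 1, 2, 3, 4, 6] [1, 1, 1, 1, 3, 1], .ref 398 [0, 1, 2, 3, 6] [1, 3, 1, 3, 1]]),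
([s 2 1, g, p 0 2, s 0 3, g, m 4 0, g, m 1 0, g, s 0 4, s 3 0, g], .leaf [2, 1, 6, 4, 6, 3]),
([s 2 1, g, p 0 2, s 0 3, g, m 1 0, g, s 4 0, g, s 0 4, s 3 0, g], .leaf [2, 1, 4, 2, 6, 1]),
([s 2 1, g, p 0 2, s 0 3, g, m 1 0, g, p 4 0, g, s 5 4, s 3 0, g, p 0 5, g], .leaf [6, 12, 2, 7, 1, 8, 6, 1]),
([s 2 1, g, p 0 2, s 5 3, g, m 1 0, g, p 4 0, g, s 0 4, s 3 0, g, s 0 5, g], .inner (.lo 9) [.ref 387 [0, 1, 6, 2, 3] [1, 1, 1, 3, 3], .ref 402 [0, 6, 2, 3, 4, 5] [1, 1, 3, 1, 1, 1], .ref 389 [0, 1, 6, 2, 3] [1, 1, 1, 3, 3], .ref 391 [0, 1, 2, 3, 6] [1, 1, 1, 3, 3], .ref 392 [0, 1, 2, 3, 6] [1, 1, 1, 3, 3], .ref 403 [0, 2, 3, 6, 4, 5] [1, 1, 3, 1, 1, 1], .ref 403 [0, 2, 3, 6, 4, 5] [1, 1, 1, 1, 1, 1], .ref 394 [0, 1, 2, 3,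 6] [1, 1, 1, 3, 3], .ref 395 [0, 1, 2, 3, 6] [1, 1, 1, 3, 3], .ref 403 [0, 2, 3, 6, 4, 5] [1, 3, 1, 1, 1, 1], .cyc [7, 9], .ref 394 [0, 1, 2, 3, 6] [1, 1, 3, 1, 3], .ref 395 [0, 1, 2, 3, 6] [1, 1, 3, 1, 3], .ref 404 [0, 2, 3, 6, 4, 5] [1, 3, 1, 1, 1, 1], .contra, .ref 405 [0, 1, 2, 3, 6] [1, 1, 3, 1, 3], .ref 410 [0, 1, 2, 3, 4, 6] [1, 1, 1, 1, 1, 3], .ref 398 [0, 1, 2, 3, 6] [1, 1, 3, 1, 3], .ref 405 [0, 1, 2, 3, 6] [1, 1, 3, 3, 1], .ref 410 [0, 1, 2, 3, 4, 6] [1, 1, 1, 1, 3, 1], .ref 398 [0, 1, 2, 3, 6] [1, 1, 3, 3, 1]]),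
([s 2 1, g, p 0 2, s 0 3, g, m 1 0, g, m 4 0, g, s 0 4, s 3 0, g], .leaf [2, 1, 4, 2, 6, 1]),
([s 2 1, g, p 0 2, s 0 3, g, m 1 0, g, s 0 4, s 3 0, g, s 4 0, g], .leaf [2, 1, 4, 2, 4, 5]),
([s 2 1, g, p 0 2, s 0 3, g, m 1 0, g, s 0 4, s 3 0, g, p 4 0, g], .leaf [2, 1, 4, 2, 4, 5]),
([s 1 0, g, p 0 1, s 4 2, g, s 0 3, s 2 0, g, m 3 0, g, s 0 4, g], .leaf [8, 2, 3, 8, 4, 1]),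
([s 2 1, g, p 0 2, s 5 3, g, m 1 0, g, s 0 4, s 3 0, g, s 0 5, g, m 4 0, g], .leaf [2, 1, 11, 4, 7, 1, 6, 1]),
([s 2 1, g, p 0 2, s 4 3, g, m 1 0, g, s 0 0, s 3 0, g, s 0 4, g], .inner (.hi 7) [.ref 385 [0, 1, 2, 3, 5] [1, 1, 1, 1, 3], .ref 386 [0, 1, 2, 3, 5] [1, 1, 1, 1, 3], .ref 399 [0, 1, 2, 3, 5, 4] [1, 1, 1, 1, 1, 1], .ref 400 [0, 1, 2, 3, 5] [1, 1, 1, 3], .ref 401 [0, 1, 2, 3, 5] [1, 1, 1, 1, 3], .ref 407 [0, 1, 2, 3, 5, 4] [1, 1, 1, 1, 1, 1], .ref 408 [0, 1, 2, 3, 5] [1, 1, 1, 1, 3], .ref 409 [0, 1, 2, 3, 5] [1, 1, 1, 1, 3], .ref 411 [0, 1, 2, 3, 5, 4] [1, 1, 1, 1, 1, 1], .ref 412 [0, 1, 2, 3, 5] [1, 1, 1, 1, 3], .cyc [7], .ref 413 [0, 1, 2, 3, 5] [1, 1, 1, 1, 3], .ref 414 [0, 1, 2, 3, 5] [1, 1, 1, 1, 3], .ref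 415 [0, 2, 3, 5, 4] [1, 3, 1, 1, 1], .ref 413 [0, 1, 2, 3, 5] [1, 1, 1, 1, 1], .ref 413 [0, 1, 2, 3, 5] [1, 1, 1, 3, 1], .ref 414 [0, 1, 2, 3, 5] [1, 1, 1, 3, 1], .ref 416 [0, 1, 2, 3, 5, 4] [1, 1, 1, 1, 1, 1]]),
([s 2 1, g, s 4 0, g, p 0 2, s 0 3, g, m 1 0, g, p 0 4, s 3 0, g], .leaf [4, 3, 6, 2, 6, 1]),
([s 0 0, g, p 2 0, g, s 0 1, g, p 0 2, s 1 0, g], .leaf [4, 6, 3]),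
([s 2 1, g, p 0 2, s 0 3, g, s 4 0, g, m 1 0, g, p 0 4, s 3 0, g], .leaf [2, 1, 6, 4, 6, 3]),
([s 2 1, g, p 0 2, s 0 3, g, p 4 0, g, m 1 0, g, p 0 4, s 3 0, g], .leaf [9, 6, 9, 4, 6, 4, 1]),
([s 2 1, g, p 0 2, s 0 3, g, m 1 0, g, s 4 0, g, p 0 4, s 3 0, g], .leaf [2, 1, 4, 2, 6, 1]),
([s 3 1, g, s 0 2, g, p 0 3, s 0 4, g, m 1 0, g, p 5 0, g, p 2 5, s 4 0, g], .leaf [8, 6, 9, 2, 5, 7, 2, 3]),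
([s 3 1, g, m 0 2, g, p 0 3, s 0 4, g, m 1 0, g, p 2 0, g, s 4 0, g], .leaf [4, 3, 6, 2, 7, 1, 1]),
([s 2 1, g, p 0 2, s 6 3, g, s 0 4, g, m 1 0, g, p 5 0, g, p 4 5, s 3 0, g, s 0 6, g], .leaf [3, 13, 2, 6, 1, 6, 4, 2, 6, 1]),
([s 2 1, g, p 0 2, s 0 3, g, m 0 4, g, m 1 0, g, p 4 0, g, s 3 0, g], .leaf [2, 1, 6, 4, 7, 5, 3]),
([s 2 1, g, p 0 2, s 0 3, g, m 1 4, g, p 4 0, g, s 3 0, g], .leaf [2, 1, 4, 2, 5, 3, 1]),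
([s 1 0, g, s 5 0, g, p 0 1, s 0 2, g, s 0 3, g, p 4 0, g, p 3 4, s 2 5, g], .leaf [7, 10, 11, 5, 7, 5, 2, 5]),
([s 1 0, g, p 4 0, g, p 0 1, s 0 2, g, p 3 0, g, p 0 3, s 2 4, g], .leaf [1, 7, 9, 6, 2, 4, 5]),
([s 2 1, g, m 4 0, g, p 0 2, s 0 3, g, m 1 0, g, s 3 4, g], .leaf [2, 8, 8, 4, 1, 5, 3]),
([s 1 0, g, p 4 1, s 0 2, g, p 3 0, g, p 0 3, s 2 4, g], .leaf [1, 5, 7, 4, 0, 2, 3]),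
([s 2 1, g, p 0 2, s 0 3, g, s 6 0, g, m 1 0, g, s 0 4, g, p 5 0, g, p 4 5, s 3 6, g], .leaf [4, 9, 11, 12, 8, 1, 4, 2, 4, 5]),
([s 2 1, g, p 0 2, s 0 3, g, p 4 0, g, m 1 0, g, s 3 4, g], .leaf [2, 1, 6, 4, 5, 5, 1]),
([s 1 0, g, p 0 1, g, m 4 0, g, s 0 2, g, p 3 0, g, p 2 3, s 0 4, g], .leaf [6, 9, 5, 1, 5, 6, 3]),
([s 2 1, g, p 0 2, s 0 3, g, m 1 0, g, s 6 0, g, s 0 4, g, p 5 0, g, p 4 5, s 3 6, g], .leaf [6, 9, 11, 12, 6, 1, 7, 5, 2, 5]),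
([s 2 1, g, p 0 2, s 0 3, g, m 1 0, g, p 4 0, g, s 3 4, g], .leaf [2, 1, 4, 2, 5, 5, 3]),
([s 2 1, g, p 0 2, s 0 3, g, m 1 0, g, s 6 4, g, p 5 0, g, p 4 5, s 3 6, g], .leaf [6, 7, 9, 10, 4, 1, 5, 3, 0, 3]),
([s 2 1, g, p 0 2, s 0 3, g, m 1 0, g, s 0 4, g, s 6 0, g, p 5 0, g, p 4 5, s 3 6, g], .leaf [2, 1, 6, 10, 11, 7, 4, 2, 4, 5]),
([s 2 1, g, p 0 2, s 0 3, g, m 1 0, g, s 0 4, g, m 6 0, g, p 5 0, g, p 4 5, s 3 6, g], .leaf [12, 14, 4, 1, 5, 3, 4, 6, 2, 5]),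
([s 0 0, g, p 1 0, g, s 2 0, g, p 0 1, s 0 2, g], .leaf [4, 6, 3]),
([s 0 0, g, p 1 0, g, m 2 0, g, p 0 1, s 0 2, g], .leaf [4, 6, 3]),
([s 2 1, g, p 0 2, s 0 3, g, m 1 0, g, s 0 4, g, p 5 0, g, p 4 5, s 3 6, g, s 6 0, g], .leaf [10, 12, 4, 1, 5, 3, 4, 8, 4, 1]),
([s 2 1, g, p 0 2, s 0 3, g, m 1 0, g, s 3 4, g, p 4 0, g], .leaf [2, 1, 4, 2, 3, 3, 3]),
([s 2 1, g, p 0 2, s 0 3, g, m 1 0, g, s 3 4, g, m 4 0, g], .leaf [2, 1, 4, 2, 3, 5, 1]),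
([s 2 1, g, p 0 2, s 0 3, g, m 1 0, g, s 0 4, g, p 5 0, g, p 4 5, s 3 0, g], .inner (.hi 12) [.ref 428 [0, 2, 3, 4, 5, 6] [1, 1, 3, 1, 1, 1], .ref 429 [0, 2, 3, 5, 6] [1, 1, 5, 1, 1], .ref 430 [0, 1, 2, 3, 6] [1, 1, 1, 6, 1], .ref 431 [0, 2, 3, 5, 6] [1, 5, 1, 1], .cyc [3, 12], .ref 432 [0, 1, 2, 3, 4, 5, 6] [1, 1, 1, 1, 1, 1, 1], .ref 433 [0, 1, 2, 3, 6] [1, 1, 1, 6, 1], .ref 434 [0, 2, 4, 5, 6] [1, 2, 3, 1, 1, 1], .ref 435 [0, 1, 2, 3, 4, 5, 6] [1, 1, 1, 1, 1, 1, 1], .ref 436 [0, 1, 2, 3, 6] [1, 1, 1, 6, 1], .ref 434 [0, 2, 4, 5, 6] [1, 4, 1, 1, 1, 1], .ref 437 [0, 1, 2, 3, 4, 5, 6] [1, 1, 1, 1, 1, 1], .ref 438 [0, 1, 2, 3, 4, 5, 6] [1, 1, 1, 1, 1, 1, 1], .ref 436 [0, 1, 2, 3, 6] [1, 1, 3, 4, 1], .ref 439 [0, 1, 2,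 3, 4, 5, 6] [1, 1, 1, 1, 1, 1, 1], .ref 440 [0, 5, 6] [8, 1, 1, 1], .ref 436 [0, 1, 2, 3, 6] [1, 1, 5, 2, 1], .ref 441 [0, 5, 6] [8, 1, 1, 1], .ref 442 [0, 1, 2, 3, 4, 5, 6] [1, 1, 1, 1, 1, 1, 1], .ref 443 [0, 1, 2, 3, 6] [1, 1, 6, 1, 1], .ref 444 [0, 1, 2, 3, 6] [1, 1, 6, 1, 1]]),
([s 2 1, g, p 0 2, s 0 3, g, m 1 0, g, m 0 4, g, p 4 0, g, s 3 0, g], .leaf [2, 1, 4, 2, 7, 3, 1]),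
([s 1 0, g, p 0 1, s 5 2, g, p 4 0, g, s 0 3, g, p 3 4, s 2 0, g, s 0 5, g], .leaf [3, 11, 4, 1, 4, 2, 6, 1])]

def d01_3 : List (List Item × Pf) := [
([s 2 1, g, p 0 2, s 6 3, g, m 1 0, g, p 4 0, g, p 5 4, s 3 0, g, s 0 5, g, s 0 6, g], .leaf [8, 14, 8, 1, 9, 7, 2, 4, 2, 5]),
([s 2 1, g, p 0 2, s 0 3, g, m 1 0, g, p 4 0, g, s 3 0, g, p 0 4, g], .leaf [2, 1, 4, 2, 5, 7, 5]),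
([s 2 1, g, p 0 2, s 0 3, g, m 1 0, g, p 4 0, g, s 3 0, g, m 0 4, g], .leaf [2, 1, 4, 2, 5, 1, 5]),
([s 2 1, g, s 5 0, g, p 0 2, s 0 3, g, m 1 0, g, p 4 0, g, p 6 4, s 3 5, g, s 0 6, g], .leaf [10, 12, 6, 3, 7, 3, 8, 1, 6, 3]),
([s 2 1, g, p 0 2, s 0 3, g, s 5 0, g, m 1 0, g, p 4 0, g, p 6 4, s 3 5, g, s 0 6, g], .leaf [10, 12, 4, 1, 7, 5, 8, 1, 6, 1]),
([s 1 0, g, p 0 1, s 5 2, g, m 4 0, g, p 3 0, g, p 6 3, s 2 4, g, s 0 5, g, s 0 6, g], .leaf [3, 11, 2, 11, 6, 8, 1, 7, 4, 1]),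
([s 2 1, g, p 0 2, s 0 3, g, m 1 0, g, s 5 0, g, p 4 0, g, p 6 4, s 3 5, g, s 0 6, g], .leaf [10, 12, 4, 1, 5, 3, 8, 1, 6, 3]),
([s 2 1, g, p 0 2, s 0 3, g, m 1 0, g, p 4 0, g, p 6 4, s 3 5, g, s 5 0, g, s 0 6, g], .leaf [8, 10, 4, 1, 5, 3, 8, 3, 6, 3]),
([s 2 1, g, p 0 2, s 0 3, g, m 1 0, g, p 4 0, g, p 6 4, s 3 5, g, s 5 6, g], .leaf [8, 10, 4, 1, 5, 3, 6, 6, 0, 3]),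
([s 2 1, g, p 0 2, s 0 3, g, m 1 0, g, p 4 0, g, p 6 4, s 3 5, g, s 0 6, g, s 5 0, g], .leaf [8, 10, 4, 1, 5, 3, 6, 1, 4, 5]),
([s 2 1, g, p 0 2, s 5 3, g, m 1 0, g, p 4 0, g, p 6 4, s 3 0, g, s 0 5, g, s 0 6, g], .inner (.hi 10) [.ref 451 [0, 1, 2, 3, 4, 7, 6] [1, 1, 1, 1, 1, 3, 1], .ref 429 [0, 2, 3, 4, 7] [1, 1, 3, 1, 5], .ref 430 [0, 1, 2, 3, 7] [1, 1, 1, 4, 5], .ref 431 [0, 2, 3, 4, 7] [1, 3, 1, 5], .ref 452 [0, 1, 2, 3, 4, 7, 6] [1, 1, 1, 1, 1, 3, 1], .ref 433 [0, 1, 2, 3, 7] [1, 1, 1, 4, 5], .ref 453 [0, 2, 3, 4, 7, 5, 6] [1, 1, 3, 1, 1, 1, 1], .ref 454 [0, 1, 2, 3, 4, 7, 6] [1, 1, 1, 1, 1, 3, 1], .ref 436 [0, 1, 2, 3, 7] [1, 1, 1, 4, 5], .ref 453 [0, 2, 3, 4, 7, 5, 6] [1, 3, 1, 1, 1, 1, 1], .ref 440 [0, 4, 7]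 [6, 1, 1, 5], .ref 436 [0, 1, 2, 3, 7] [1, 1, 3, 2, 5], .ref 441 [0, 4, 7] [6, 1, 1, 5], .ref 455 [0, 1, 2, 3, 4, 7, 6] [1, 1, 1, 1, 1, 3, 1], .ref 443 [0, 1, 2, 3, 7] [1, 1, 4, 1, 5], .ref 444 [0, 1, 2, 3, 7] [1, 1, 4, 1, 5], .cyc [3, 10, 12], .ref 455 [0, 1, 2, 3, 4, 7, 6] [1, 1, 1, 1, 3, 1, 1], .ref 443 [0, 1, 2, 3, 7] [1, 1, 4, 3, 3], .ref 444 [0, 1, 2, 3, 7] [1, 1, 4, 3, 3], .ref 456 [0, 1, 2, 3, 4, 7, 6] [1, 1, 1, 1, 3, 1], .ref 457 [0, 1, 2, 3, 4, 7, 6] [1, 1, 1, 1, 3, 1, 1], .ref 443 [0, 1, 2, 3, 7] [1, 1, 4, 5, 1], .ref 444 [0, 1, 2, 3, 7] [1, 1, 4, 5, 1]]),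
([s 2 1, g, p 0 2, s 5 3, g, m 1 0, g, p 4 0, g, p 0 4, s 3 0, g, s 0 5, g], .inner (.lo 9) [.ref 423 [0, 1, 6, 2, 3, 4] [1, 1, 1, 1, 1, 3], .ref 5 [0, 6] [1, 8, 4], .ref 424 [0, 1, 6, 2, 3] [1, 1, 1, 3, 0, 3], .ref 425 [0, 1, 2, 3, 6, 4, 5] [1, 1, 1, 1, 1, 1, 1], .ref 5 [0, 6] [4, 5, 4], .ref 426 [0, 1, 2, 3, 6] [1, 1, 1, 3, 0, 3], .ref 427 [0, 1, 2, 3, 6] [1, 1, 3, 0, 3], .ref 445 [0, 1, 2, 3, 6, 4] [1, 1, 1, 1, 1, 3], .ref 5 [0, 6] [6, 3, 4], .ref 446 [0, 1, 2, 3, 6] [1, 1, 1, 3, 0, 3], .cyc [7, 9], .ref 447 [0, 2, 3, 6, 4, 5] [1, 3, 1, 1, 1, 1], .ref 5 [0, 6] [8, 1, 4], .ref 446 [0, 1, 2, 3, 6] [1, 1, 3, 1, 0, 3], .ref 436 [0, 1, 2, 3, 6] [1, 1, 3, 0, 3], .ref 448 [0, 1, 2, 3, 4, 6, 5] [1, 1, 1, 1, 1, 1, 1], .ref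 449 [0, 1, 2, 3, 6] [1, 1, 3, 0, 1, 3], .ref 450 [0, 1, 2, 3, 6] [1, 1, 3, 0, 1, 3], .ref 458 [0, 1, 2, 3, 4, 5, 6] [1, 1, 1, 1, 1, 1, 1], .ref 449 [0, 1, 2, 3, 6] [1, 1, 3, 0, 3, 1], .ref 450 [0, 1, 2, 3, 6] [1, 1, 3, 0, 3, 1]]),
([s 2 1, g, p 0 2, s 0 3, g, m 1 0, g, p 0 4, s 3 0, g, s 4 0, g], .leaf [2, 1, 4, 2, 4, 5]),
([s 2 1, g, p 0 2, s 4 3, g, m 1 0, g, p 0 0, s 3 0, g, s 0 4, g], .inner (.hi 7) [.ref 418 [0, 1, 2, 3, 5] [1, 1, 1, 1, 3], .ref 419 [0, 3, 5] [1, 2, 3, 3], .ref 161 [0, 5] [1, 6, 4], .ref 419 [0, 3, 5] [1, 0, 3, 3], .ref 420 [0, 1, 2, 3, 5] [1, 1, 1, 1, 3], .ref 421 [0, 1, 2, 3, 5] [1, 1, 1, 1, 3], .ref 161 [0, 5] [4, 3, 4], .ref 422 [0, 1, 2, 3, 5] [1, 1, 1, 1, 3], .ref 459 [0, 1, 2, 3, 5, 4] [1,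 1, 1, 1, 1, 1], .ref 161 [0, 5] [6, 1, 4], .cyc [7], .ref 460 [0, 1, 2, 3, 5] [1, 1, 1, 1, 3], .ref 5 [0, 5] [6, 2, 3], .ref 98 [0, 5] [6, 2, 3], .ref 460 [0, 1, 2, 3, 5] [1, 1, 1, 1, 1], .ref 460 [0, 1, 2, 3, 5] [1, 1, 1, 3, 1], .ref 5 [0, 5] [6, 4, 1], .ref 98 [0, 5] [6, 4, 1]]),
([s 3 1, g, s 0 2, g, p 0 3, s 0 4, g, m 1 0, g, m 2 0, s 4 0, g], .leaf [4, 3, 6, 2, 6, 1]),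
([s 0 0, g, m 0 1, g, s 0 2, g, m 1 0, s 2 0, g], .leaf [4, 6, 3]),
([s 2 1, g, p 0 2, s 0 3, g, s 0 4, g, m 1 0, g, m 4 0, s 3 0, g], .leaf [2, 1, 6, 4, 6, 3]),
([s 2 1, g, p 0 2, s 0 3, g, m 0 4, g, m 1 0, g, m 4 0, s 3 0, g], .leaf [9, 6, 9, 4, 6, 4, 1]),
([s 2 1, g, p 0 2, s 0 3, g, m 1 4, g, m 4 0, s 3 0, g], .leaf [7, 4, 7, 4, 4, 2, 1]),
([s 2 1, g, p 0 2, s 0 3, g, m 1 0, g, s 0 4, g, m 4 0, s 3 0, g], .leaf [2, 1, 4, 2, 6, 1]),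
([s 2 1, g, s 5 0, g, p 0 2, s 0 3, g, m 1 0, g, m 0 4, g, m 4 5, s 3 0, g], .leaf [8, 6, 9, 2, 5, 7, 2, 3]),
([s 2 1, g, p 4 0, g, p 0 2, s 0 3, g, m 1 0, g, m 0 4, g, s 3 0, g], .leaf [4, 3, 6, 2, 7, 1, 1]),
([s 2 1, g, p 4 2, s 0 3, g, m 1 0, g, m 0 4, g, s 3 0, g], .leaf [2, 1, 4, 2, 5, 1, 1]),
([s 2 1, g, p 0 2, s 6 3, g, s 5 0, g, m 1 0, g, m 0 4, g, m 4 5, s 3 0, g, s 0 6, g], .leaf [3, 13, 2, 6, 1, 6, 4, 2, 6, 1]),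
([s 2 1, g, p 0 2, s 0 3, g, p 4 0, g, m 1 0, g, m 0 4, g, s 3 0, g], .leaf [2, 1, 6, 4, 7, 5, 3]),
([s 1 0, g, s 5 0, g, p 0 1, s 0 2, g, s 4 0, g, m 0 3, g, m 3 4, s 2 5, g], .leaf [7, 10, 11, 5, 7, 5, 2, 5]),
([s 1 0, g, p 4 0, g, p 0 1, s 0 2, g, m 0 3, g, m 3 0, s 2 4, g], .leaf [1, 7, 9, 6, 2, 4, 5]),
([s 1 0, g, p 4 1, s 0 2, g, m 0 3, g, m 3 0, s 2 4, g], .leaf [1, 5, 7, 4, 0, 2, 3]),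
([s 2 1, g, p 0 2, s 0 3, g, s 6 0, g, m 1 0, g, s 5 0, g, m 0 4, g, m 4 5, s 3 6, g], .leaf [4, 9, 11, 12, 8, 1, 4, 2, 4, 5]),
([s 1 0, g, p 0 1, g, m 4 0, g, s 3 0, g, m 0 2, g, m 2 3, s 0 4, g], .leaf [6, 9, 5, 1, 5, 6, 3]),
([s 2 1, g, p 0 2, s 0 3, g, m 1 0, g, s 6 0, g, s 5 0, g, m 0 4, g, m 4 5, s 3 6, g], .leaf [6, 9, 11, 12, 6, 1, 7, 5, 2, 5]),
([s 2 1, g, p 0 2, s 0 3, g, m 1 0, g, s 5 0, g, s 6 0, g, m 0 4, g, m 4 5, s 3 6, g], .leaf [2, 1, 6, 10, 11, 7, 4, 2, 4, 5]),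
([s 2 1, g, p 0 2, s 0 3, g, m 1 0, g, s 5 0, g, m 6 0, g, m 0 4, g, m 4 5, s 3 6, g], .leaf [12, 14, 4, 1, 5, 3, 4, 6, 2, 5]),
([s 0 0, g, m 2 1, g, m 1 0, s 0 2, g], .leaf [2, 4, 3]),
([s 0 0, g, m 0 1, g, s 2 0, g, m 1 0, s 0 2, g], .leaf [4, 6, 3]),
([s 0 0, g, m 0 1, g, m 2 0, g, m 1 0, s 0 2, g], .leaf [4, 6, 3]),
([s 2 1, g, p 0 2, s 0 3, g, m 1 0, g, s 5 0, g, m 0 4, g, m 4 5, s 3 6, g, s 6 0, g], .leaf [10, 12, 4, 1, 5, 3, 4, 8, 4, 1]),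
([s 2 1, g, p 0 2, s 0 3, g, m 1 0, g, s 5 0, g, m 0 4, g, m 4 5, s 3 0, g], .inner (.hi 12) [.ref 473 [0, 2, 3, 4, 5, 6] [1, 1, 3, 1, 1, 1], .ref 474 [0, 2, 3, 4, 6] [1, 1, 5, 1, 1], .ref 430 [0, 1, 2, 3, 6] [1, 1, 1, 6, 1], .ref 475 [0, 2, 3, 4, 6] [1, 5, 1, 1], .cyc [3, 12], .ref 476 [0, 1, 2, 3, 4, 5, 6] [1, 1, 1, 1, 1, 1, 1], .ref 433 [0, 1, 2, 3, 6] [1, 1, 1, 6, 1], .ref 477 [0, 2, 4, 5, 6] [1, 2, 3, 1, 1, 1], .ref 478 [0, 1, 2, 3, 4, 5, 6] [1, 1, 1, 1, 1, 1, 1], .ref 436 [0, 1, 2, 3, 6] [1, 1, 1, 6, 1], .ref 477 [0, 2, 4, 5, 6] [1, 4, 1, 1, 1, 1], .ref 479 [0, 1, 2, 3, 4, 5, 6] [1, 1, 1, 1, 1, 1, 1], .ref 436 [0, 1, 2, 3, 6] [1, 1, 3, 4, 1], .ref 480 [0, 1, 2, 3, 4, 5, 6] [1, 1, 1, 1, 1, 1, 1], .ref 481 [0, 4,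 6] [8, 1, 1], .ref 482 [0, 4, 6] [8, 1, 1, 1], .ref 436 [0, 1, 2, 3, 6] [1, 1, 5, 2, 1], .ref 483 [0, 4, 6] [8, 1, 1, 1], .ref 484 [0, 1, 2, 3, 4, 5, 6] [1, 1, 1, 1, 1, 1, 1], .ref 443 [0, 1, 2, 3, 6] [1, 1, 6, 1, 1], .ref 444 [0, 1, 2, 3, 6] [1, 1, 6, 1, 1]]),
([s 2 1, g, p 0 2, s 0 3, g, m 1 0, g, p 4 0, g, m 0 4, g, s 3 0, g], .leaf [2, 1, 4, 2, 7, 3, 1]),
([s 1 0, g, p 0 1, s 5 2, g, m 0 3, g, s 4 0, g, m 3 4, s 2 0, g, s 0 5, g], .leaf [3, 11, 4, 1, 4, 2, 6, 1]),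
([s 2 1, g, p 0 2, s 6 3, g, m 1 0, g, m 0 4, g, m 4 5, s 3 0, g, s 5 0, g, s 0 6, g], .leaf [8, 14, 8, 1, 9, 7, 2, 4, 2, 5]),
([s 2 1, g, p 0 2, s 0 3, g, m 1 0, g, m 0 4, g, s 3 0, g, p 4 0, g], .leaf [2, 1, 4, 2, 5, 1, 5]),
([s 2 1, g, p 0 2, s 0 3, g, m 1 0, g, m 0 4, g, s 3 0, g, m 4 0, g], .leaf [2, 1, 4, 2, 5, 7, 5]),
([s 2 1, g, p 0 2, s 4 0, g, m 1 0, g, m 0 3, g, s 3 4, g], .leaf [2, 1, 4, 2, 5, 5, 3]),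
([s 2 1, g, s 6 0, g, p 0 2, s 0 3, g, m 1 0, g, m 0 4, g, m 4 5, s 3 6, g, s 5 0, g], .leaf [10, 12, 6, 3, 7, 3, 8, 1, 6, 3]),
([s 2 1, g, p 0 2, s 0 3, g, s 6 0, g, m 1 0, g, m 0 4, g, m 4 5, s 3 6, g, s 5 0, g], .leaf [10, 12, 4, 1, 7, 5, 8, 1, 6, 1]),
([s 1 0, g, p 0 1, s 6 2, g, m 5 0, g, m 0 3, g, m 3 4, s 2 5, g, s 0 6, g, s 4 0, g], .leaf [3, 11, 2, 11, 6, 8, 1, 7, 4, 1]),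
([s 2 1, g, p 0 2, s 0 3, g, m 1 0, g, s 6 0, g, m 0 4, g, m 4 5, s 3 6, g, s 5 0, g], .leaf [10, 12, 4, 1, 5, 3, 8, 1, 6, 3]),
([s 2 1, g, p 0 2, s 0 3, g, m 1 0, g, m 0 4, g, m 4 5, s 3 6, g, s 6 0, g, s 5 0, g], .leaf [8, 10, 4, 1, 5, 3, 8, 3, 6, 3]),
([s 2 1, g, p 0 2, s 0 3, g, m 1 0, g, m 0 4, g, m 4 5, s 3 6, g, s 5 0, g, s 6 0, g], .leaf [8, 10, 4, 1, 5, 3, 6, 1, 4, 5]),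
([s 2 1, g, p 0 2, s 6 3, g, m 1 0, g, m 0 4, g, m 4 5, s 3 0, g, s 0 6, g, s 5 0, g], .inner (.hi 10) [.ref 492 [0, 1, 2, 3, 4, 5, 7] [1, 1, 1, 1, 1, 3, 1], .ref 474 [0, 2, 3, 4, 7] [1, 1, 3, 1, 5], .ref 430 [0, 1, 2, 3, 7] [1, 1, 1, 4, 5], .ref 475 [0, 2, 3, 4, 7] [1, 3, 1, 5], .ref 493 [0, 1, 2, 3, 4, 5, 7] [1, 1, 1, 1, 1, 3, 1], .ref 433 [0, 1, 2, 3, 7] [1, 1, 1, 4, 5], .ref 494 [0, 2, 3, 4, 5, 7, 6] [1, 1, 3, 1, 1, 1, 1], .ref 495 [0, 1, 2, 3, 4, 5, 7] [1, 1, 1, 1, 1, 3, 1], .ref 436 [0, 1, 2, 3, 7] [1, 1, 1, 4, 5], .ref 494 [0, 2, 3, 4, 5, 7, 6] [1, 3, 1, 1, 1, 1, 1], .ref 481 [0, 4, 7] [6, 1, 5], .ref 482 [0, 4, 7] [6, 1, 1, 5], .ref 436 [0, 1, 2, 3, 7] [1, 1, 3, 2, 5], .ref 483 [0, 4, 7] [6, 1, 1, 5], .ref 496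 [0, 1, 2, 3, 4, 5, 7] [1, 1, 1, 1, 1, 3, 1], .ref 443 [0, 1, 2, 3, 7] [1, 1, 4, 1, 5], .ref 444 [0, 1, 2, 3, 7] [1, 1, 4, 1, 5], .cyc [3, 10, 12], .ref 496 [0, 1, 2, 3, 4, 5, 7] [1, 1, 1, 1, 3, 1, 1], .ref 443 [0, 1, 2, 3, 7] [1, 1, 4, 3, 3], .ref 444 [0, 1, 2, 3, 7] [1, 1, 4, 3, 3], .ref 497 [0, 1, 2, 3, 4, 5, 7] [1, 1, 1, 1, 3, 1, 1], .ref 443 [0, 1, 2, 3, 7] [1, 1, 4, 5, 1], .ref 444 [0, 1, 2, 3, 7] [1, 1, 4, 5, 1]]),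
([s 2 1, g, p 0 2, s 5 3, g, m 1 0, g, m 0 4, g, m 4 0, s 3 0, g, s 0 5, g], .inner (.hi 9) [.ref 468 [0, 1, 2, 3, 4, 6] [1, 1, 1, 1, 1, 3], .ref 469 [0, 1, 2, 3, 6] [1, 1, 1, 3, 0, 3], .ref 13 [0, 6] [1, 8, 4], .ref 470 [0, 1, 2, 3, 6] [1, 1, 3, 0, 3], .ref 471 [0, 1, 2, 3, 4, 6, 5] [1, 1, 1, 1, 1, 1, 1], .ref 472 [0, 1, 2, 3, 6] [1, 1, 1, 3, 0, 3], .ref 13 [0, 6] [4, 5, 4], .ref 485 [0, 1, 2, 3, 4, 6] [1, 1, 1, 1, 1, 3], .ref 486 [0, 1, 2, 3, 6] [1, 1, 1, 3, 0, 3], .ref 13 [0, 6] [6, 3, 4], .cyc [7, 9], .ref 487 [0, 2, 3, 4, 6, 5] [1, 3, 1, 1, 1, 1], .ref 486 [0, 1, 2, 3, 6] [1, 1, 3, 1, 0, 3], .ref 13 [0, 6] [8, 1, 4], .ref 488 [0, 1, 2, 3, 4, 6, 5] [1, 1, 1, 1, 1, 1, 1], .ref 489 [0, 1, 2, 3, 6] [1, 1, 3, 0, 1,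 3], .ref 490 [0, 1, 2, 3, 6] [1, 1, 3, 0, 1, 3], .ref 491 [0, 1, 2, 6, 5] [1, 1, 3, 2, 1], .ref 498 [0, 1, 2, 3, 4, 6, 5] [1, 1, 1, 1, 1, 1, 1], .ref 489 [0, 1, 2, 3, 6] [1, 1, 3, 0, 3, 1], .ref 490 [0, 1, 2, 3, 6] [1, 1, 3, 0, 3, 1]]),
([s 2 1, g, p 0 2, s 0 3, g, m 1 0, g, m 4 0, s 3 0, g, s 0 4, g], .leaf [2, 1, 4, 2, 4, 5]),
([s 2 1, g, p 0 2, s 4 3, g, m 1 0, g, m 0 0, s 3 0, g, s 0 4, g], .inner (.lo 7) [.ref 462 [0, 1, 5, 2, 3] [1, 1, 1, 1, 3], .ref 98 [0, 5] [1, 6, 4], .ref 463 [0, 5, 3] [1, 2, 3, 3], .ref 464 [0, 1, 2, 3, 5] [1, 1, 1, 1, 3], .ref 98 [0, 5] [4, 3, 4], .ref 465 [0, 1, 2, 3, 5] [1, 1, 1, 1, 3], .ref 466 [0, 1, 2, 3, 5] [1, 1, 1, 3], .ref 467 [0, 1, 2, 3, 5] [1, 1, 1, 1, 3], .ref 98 [0, 5] [6,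 1, 4], .ref 499 [0, 1, 2, 3, 5, 4] [1, 1, 1, 1, 1, 1], .cyc [7], .contra, .ref 500 [0, 1, 2, 3, 5] [1, 1, 1, 1, 3], .ref 161 [0, 5] [6, 2, 3], .ref 13 [0, 5] [6, 2, 3], .ref 500 [0, 1, 2, 3, 5] [1, 1, 1, 3, 1], .ref 161 [0, 5] [6, 4, 1], .ref 13 [0, 5] [6, 4, 1]]),
([s 2 1, g, p 0 2, s 4 3, g, m 1 0, g, s 3 0, g, s 0 4, g], .inner (.bot 6) [.ref 384 [0, 1, 2, 3, 4] [1, 1, 1, 1], .ref 417 [0, 1, 2, 3, 4] [1, 1, 1, 1, 1], .ref 461 [0, 1, 2, 3, 4] [1, 1, 1, 1, 1], .ref 501 [0, 1, 2, 3, 4] [1, 1, 1, 1, 1]]),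
([s 2 1, g, p 0 2, s 4 3, g, m 1 0, g, m 3 0, g, s 0 4, g], .leaf [2, 1, 6, 3, 1, 2, 3]),
([s 3 1, g, s 0 2, g, p 0 3, s 4 0, g, m 1 0, s 2 4, g], .leaf [8, 5, 7, 5, 2, 3]),
([s 2 1, g, p 0 2, s 5 3, g, s 0 4, g, m 1 0, s 4 5, g, s 3 0, g], .leaf [2, 1, 7, 2, 7, 2, 4, 1]),
([s 2 1, g, p 0 2, g, s 4 0, g, m 0 3, g, m 1 0, s 3 4, g], .leaf [4, 8, 3, 5, 1, 5, 1]),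
([s 2 1, g, p 0 2, g, s 4 0, g, m 1 3, s 3 4, g], .leaf [4, 6, 1, 3, 1, 3, 1]),
([s 2 1, g, p 0 2, s 4 3, g, m 1 0, s 5 4, g, s 0 5, g, s 3 0, g], .leaf [2, 1, 5, 2, 7, 4, 4, 1]),
([s 2 1, g, p 0 2, g, s 3 0, g, m 1 0, s 4 3, g, p 0 4, g], .leaf [2, 1, 8, 1, 4, 2, 3]),
([s 2 1, g, p 0 2, g, s 3 0, g, m 1 0, s 4 3, g, m 0 4, g], .leaf [4, 6, 1, 3, 1, 3, 3]),
([s 2 1, g, p 0 2, s 4 3, g, m 1 0, s 5 4, g, s 3 0, g, s 0 5, g], .leaf [2, 1, 5, 2, 5, 2, 2, 3])]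

def D01 : List (List (List Item × Pf)) := [d01_0, d01_1, d01_2, d01_3]

end Pool.Agent.H63.PU.C138
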