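import Pool.Agent.H63.PU.Short

/-! Certificate data, machine generated. -/

namespace Pool.Agent.H63.PU.C138

open Pool.Agent.H63.PU Pool.Agent.H63.PU.Short

set_option maxRecDepth 20000

def d02_0 : List (List Item × Pf) := [
([s 2 1, g, p 0 2, s 4 3, g, m 1 0, s 0 4, g, s 3 0, g], .inner (.lo 6) [.ref 504 [0, 1, 5, 2, 4] [1, 1, 1, 3], .ref 131 [0, 1, 5] [1, 4, 3], .ref 132 [0, 1, 5, 2] [1, 1, 2, 3], .ref 505 [0, 1, 2, 3, 5, 4] [1, 1, 1, 1, 1], .ref 131 [0, 1, 5] [4, 1, 3], .ref 506 [0, 1, 2, 5, 4] [1, 0, 1, 1, 3], .ref 507 [0, 1, 2, 5, 4] [1, 0, 1, 3], .ref 508 [0, 1, 2, 3, 4, 5] [1, 1, 1, 1, 1], .ref 509 [0, 1, 2, 4, 5] [1, 0, 1, 1, 3], .ref 510 [0, 1, 2, 4, 5] [1, 0, 1, 1, 3], .cyc [3, 8, 6], .ref 511 [0, 1, 2,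 3, 4, 5] [1, 1, 1, 1, 1], .ref 509 [0, 1, 2, 4, 5] [1, 0, 1, 3, 1], .ref 510 [0, 1, 2, 4, 5] [1, 0, 1, 3, 1]]),
([s 2 1, g, s 3 0, g, p 0 2, s 4 0, g, m 1 0, g, s 0 3, s 0 4, g], .leaf [4, 3, 6, 2, 6, 1]),
([s 2 1, g, p 3 0, g, p 0 2, s 4 0, g, m 1 0, g, s 0 3, s 0 4, g], .leaf [4, 3, 6, 2, 6, 1]),
([s 3 1, g, s 0 2, g, p 0 3, s 4 0, g, m 1 0, g, s 2 0, s 0 4, g], .leaf [4, 3, 6, 2, 6, 1]),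
([s 2 0, g, p 0 1, g, m 4 0, g, p 0 2, s 5 3, g, s 1 4, s 0 5, g, s 3 0, g], .leaf [7, 11, 6, 3, 6, 2, 6, 1]),
([s 3 1, g, m 0 2, g, p 0 3, s 4 0, g, m 1 0, g, s 2 0, s 0 4, g], .leaf [4, 3, 6, 2, 6, 1]),
([s 2 0, g, m 4 0, g, p 0 1, g, p 0 2, s 5 3, g, s 1 4, s 0 5, g, s 3 0, g], .leaf [7, 11, 6, 3, 6, 2, 6, 1]),
([s 2 1, g, p 0 2, s 4 0, g, s 0 3, g, m 1 0, g, s 3 0, s 0 4, g], .leaf [2, 1, 6, 4, 6, 3]),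
([s 2 1, g, p 0 2, s 4 0, g, p 0 3, g, m 1 0, g, s 3 0, s 0 4, g], .leaf [2, 1, 6, 4, 6, 3]),
([s 1 0, g, m 4 0, g, p 0 1, s 5 2, g, m 0 3, g, s 3 4, s 0 5, g, s 2 0, g], .leaf [5, 11, 4, 1, 6, 4, 6, 3]),
([s 2 1, g, p 0 2, s 4 0, g, m 1 0, g, s 0 3, g, s 3 0, s 0 4, g], .leaf [2, 1, 4, 2, 6, 1]),
([s 2 1, g, p 0 2, s 4 0, g, m 1 0, g, p 0 3, g, s 3 0, s 0 4, g], .leaf [2, 1, 4, 2, 6, 1]),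
([s 1 0, g, m 2 0, g, p 0 1, s 3 0, g, s 4 2, s 0 3, g, s 0 4, g], .leaf [2, 6, 9, 2, 6, 1]),
([s 1 0, g, m 2 0, g, p 0 1, s 3 0, g, s 4 2, s 0 3, g, p 0 4, g], .leaf [2, 6, 9, 2, 6, 1]),
([s 2 1, g, p 0 2, s 3 0, g, m 1 0, g, s 4 0, s 0 3, g, m 0 4, g], .leaf [2, 1, 4, 2, 4, 5]),
([s 2 1, g, m 4 0, g, p 0 2, s 5 3, g, m 1 0, g, s 0 4, s 0 5, g, s 3 0, g], .inner (.lo 9) [.ref 515 [0, 1, 6, 2, 5] [1, 3, 1, 1, 3], .ref 516 [0, 6, 2, 3, 4, 5] [1, 1, 1, 3, 1, 1], .ref 517 [0, 1, 6, 2, 5] [1, 3, 1, 1, 3], .cyc [2, 9], .ref 515 [0, 1, 6, 2, 5] [3, 1, 1, 1, 3], .ref 518 [0, 6, 2, 3, 4, 5] [1, 1, 1, 3, 1, 1], .ref 517 [0, 1, 6, 2, 5] [3, 1, 1, 1, 3], .ref 519 [0, 1, 2, 6, 5] [3, 1, 1, 1, 3], .ref 520 [0, 1, 2, 6, 5] [3, 1,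 1, 1, 3], .ref 521 [0, 2, 3, 6, 4, 5] [1, 1, 1, 3, 1, 1], .ref 521 [0, 2, 3, 6, 4, 5] [1, 1, 1, 1, 1, 1], .ref 522 [0, 1, 2, 6, 5] [3, 1, 1, 1, 3], .ref 523 [0, 1, 2, 6, 5] [3, 1, 1, 1, 3], .ref 521 [0, 2, 3, 6, 4, 5] [1, 1, 3, 1, 1, 1], .ref 524 [0, 2, 4, 5, 6] [1, 1, 3, 1, 3], .ref 525 [0, 2, 4, 5, 6] [1, 1, 3, 1, 3], .ref 526 [0, 1, 2, 5, 6] [3, 1, 1, 1, 3], .ref 524 [0, 2, 4, 5, 6] [1, 1, 3, 1, 1], .ref 524 [0, 2, 4, 5, 6] [1, 1, 3, 3, 1], .ref 525 [0, 2, 4, 5, 6] [1, 1, 3, 3, 1], .ref 526 [0, 1, 2, 5, 6] [3, 1, 1, 3, 1]]),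
([s 2 1, g, p 3 2, s 4 0, g, m 1 0, g, s 0 3, s 0 4, g], .leaf [2, 1, 4, 2, 4, 1]),
([s 2 1, g, p 0 2, s 4 0, g, s 3 0, g, m 1 0, g, s 0 3, s 0 4, g], .leaf [2, 1, 6, 4, 6, 3]),
([s 2 0, g, p 0 1, g, p 0 2, s 5 3, g, p 4 0, g, s 1 4, s 0 5, g, s 3 0, g], .leaf [5, 11, 4, 1, 6, 4, 6, 3]),
([s 1 0, g, p 0 1, s 5 2, g, m 0 3, g, p 4 0, g, s 3 4, s 0 5, g, s 2 0, g], .leaf [3, 11, 4, 1, 4, 2, 6, 1]),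
([s 1 0, g, p 0 1, s 5 2, g, p 4 0, g, m 0 3, g, s 3 4, s 0 5, g, s 2 0, g], .leaf [3, 11, 4, 1, 4, 2, 6, 1]),
([s 2 1, g, p 0 2, s 3 0, g, m 1 0, g, s 4 0, s 0 3, g, s 0 4, g], .leaf [2, 1, 4, 2, 4, 5]),
([s 2 1, g, p 0 2, s 4 0, g, p 3 0, g, m 1 0, g, s 5 3, s 0 4, g, p 0 5, g], .leaf [4, 7, 2, 6, 9, 2, 6, 1]),
([s 2 1, g, p 0 2, s 5 3, g, p 4 0, g, m 1 0, g, s 0 4, s 0 5, g, s 3 0, g], .inner (.lo 9) [.ref 515 [0, 1, 6, 2, 5] [1, 1, 3, 1, 3], .ref 530 [0, 6, 2, 3, 4, 5] [1, 1, 1, 3, 1, 1], .ref 517 [0, 1, 6, 2, 5] [1, 1, 3, 1, 3], .ref 519 [0, 1, 2, 6, 5] [1, 1, 3, 1, 3], .ref 520 [0, 1, 2, 6, 5] [1, 1, 3, 1, 3], .ref 531 [0, 2, 3, 6, 4, 5] [1, 1, 1, 3, 1, 1], .cyc [5, 9], .ref 519 [0, 1, 2, 6, 5] [1, 3, 1, 1, 3],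 .ref 520 [0, 1, 2, 6, 5] [1, 3, 1, 1, 3], .ref 532 [0, 2, 3, 6, 4, 5] [1, 1, 1, 3, 1, 1], .ref 532 [0, 2, 3, 6, 4, 5] [1, 1, 1, 1, 1, 1], .ref 522 [0, 1, 2, 6, 5] [1, 3, 1, 1, 3], .ref 523 [0, 1, 2, 6, 5] [1, 3, 1, 1, 3], .ref 532 [0, 2, 3, 6, 4, 5] [1, 1, 3, 1, 1, 1], .ref 533 [0, 1, 2, 5, 6] [1, 3, 1, 1, 3], .ref 534 [0, 1, 2, 4, 5, 6] [1, 1, 1, 1, 1, 3], .ref 526 [0, 1, 2, 5, 6] [1, 3, 1, 1, 3], .ref 533 [0, 1, 2, 5, 6] [1, 3, 1, 1, 1], .ref 533 [0, 1, 2, 5, 6] [1, 3, 1, 3, 1], .ref 534 [0, 1, 2, 4, 5, 6] [1, 1, 1, 1, 3, 1], .ref 526 [0, 1, 2, 5, 6] [1, 3, 1, 3, 1]]),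
([s 2 1, g, p 0 2, s 4 0, g, m 3 0, g, m 1 0, g, s 0 3, s 0 4, g], .leaf [2, 1, 6, 4, 6, 3]),
([s 2 1, g, p 0 2, s 4 0, g, m 1 0, g, s 3 0, g, s 0 3, s 0 4, g], .leaf [2, 1, 4, 2, 6, 1]),
([s 2 1, g, p 0 2, s 4 0, g, m 1 0, g, p 3 0, g, s 5 3, s 0 4, g, p 0 5, g], .leaf [6, 12, 2, 7, 1, 8, 6, 1]),
([s 2 1, g, p 0 2, s 5 3, g, m 1 0, g, p 4 0, g, s 0 4, s 0 5, g, s 3 0, g], .inner (.lo 9) [.ref 515 [0, 1, 6, 2, 5] [1, 1, 1, 3, 3], .ref 530 [0, 6, 2, 3, 4, 5] [1, 1, 3, 1, 1, 1], .ref 517 [0, 1, 6, 2, 5] [1, 1, 1, 3, 3], .ref 519 [0, 1, 2, 6, 5] [1, 1, 1, 3, 3], .ref 520 [0, 1, 2, 6, 5] [1, 1, 1, 3, 3], .ref 531 [0, 2, 3, 6, 4, 5] [1, 1, 3, 1, 1, 1], .ref 531 [0, 2, 3, 6, 4, 5] [1, 1, 1, 1, 1, 1], .ref 522 [0, 1, 2, 6,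 5] [1, 1, 1, 3, 3], .ref 523 [0, 1, 2, 6, 5] [1, 1, 1, 3, 3], .ref 531 [0, 2, 3, 6, 4, 5] [1, 3, 1, 1, 1, 1], .cyc [7, 9], .ref 522 [0, 1, 2, 6, 5] [1, 1, 3, 1, 3], .ref 523 [0, 1, 2, 6, 5] [1, 1, 3, 1, 3], .ref 532 [0, 2, 3, 6, 4, 5] [1, 3, 1, 1, 1, 1], .ref 533 [0, 1, 2, 5, 6] [1, 1, 3, 1, 3], .ref 538 [0, 1, 2, 4, 5, 6] [1, 1, 1, 1, 1, 3], .ref 526 [0, 1, 2, 5, 6] [1, 1, 3, 1, 3], .ref 533 [0, 1, 2, 5, 6] [1, 1, 3, 1, 1], .ref 533 [0, 1, 2, 5, 6] [1, 1, 3, 3, 1], .ref 538 [0, 1, 2, 4, 5, 6] [1, 1, 1, 1, 3, 1], .ref 526 [0, 1, 2, 5, 6] [1, 1, 3, 3, 1]]),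
([s 2 1, g, p 0 2, s 4 0, g, m 1 0, g, m 3 0, g, s 0 3, s 0 4, g], .leaf [2, 1, 4, 2, 6, 1]),
([s 2 1, g, p 0 2, s 4 0, g, m 1 0, g, s 0 3, s 0 4, g, s 3 0, g], .leaf [2, 1, 4, 2, 4, 5]),
([s 2 1, g, p 0 2, s 4 0, g, m 1 0, g, s 0 3, s 0 4, g, p 3 0, g], .leaf [2, 1, 4, 2, 4, 5]),
([s 1 0, g, p 0 1, s 4 2, g, s 0 3, s 0 4, g, m 3 0, g, s 2 0, g], .leaf [8, 2, 3, 8, 4, 1]),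
([s 2 1, g, p 0 2, s 5 3, g, m 1 0, g, s 0 4, s 0 5, g, s 3 0, g, m 4 0, g], .leaf [2, 1, 11, 4, 7, 1, 6, 1]),
([s 2 1, g, p 0 2, s 4 3, g, m 1 0, g, s 0 0, s 0 4, g, s 3 0, g], .inner (.hi 7) [.ref 513 [0, 1, 2, 5, 4] [1, 1, 1, 1, 3], .ref 514 [0, 1, 2, 5, 4] [1, 1, 1, 1, 3], .ref 527 [0, 1, 2, 3, 5, 4] [1, 1, 1, 1, 1, 1], .ref 528 [0, 1, 2, 5, 4] [1, 1, 1, 3], .ref 529 [0, 1, 2, 5, 4] [1, 1, 1, 1, 3], .ref 535 [0, 1, 2, 3, 5, 4] [1, 1, 1, 1, 1, 1], .ref 536 [0, 1, 2, 5, 4] [1, 1, 1, 1, 3], .ref 537 [0, 1, 2, 5, 4] [1, 1, 1, 1, 3], .ref 539 [0, 1, 2, 3, 5, 4] [1, 1, 1, 1, 1, 1], .ref 540 [0, 1, 2, 5, 4] [1, 1, 1, 1, 3], .cyc [7], .contra, .ref 541 [0, 1, 2, 5, 4] [1, 1, 1, 1, 3], .ref 542 [0, 1, 2, 5, 4] [1, 1, 1,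 1, 3], .ref 543 [0, 2, 3, 5, 4] [1, 3, 1, 1, 1], .ref 541 [0, 1, 2, 5, 4] [1, 1, 1, 3, 1], .ref 542 [0, 1, 2, 5, 4] [1, 1, 1, 3, 1], .ref 544 [0, 1, 2, 3, 5, 4] [1, 1, 1, 1, 1, 1]]),
([s 2 1, g, s 3 0, g, p 0 2, s 4 0, g, m 1 0, g, p 0 3, s 0 4, g], .leaf [4, 3, 6, 2, 6, 1]),
([s 2 1, g, p 0 2, s 4 0, g, s 3 0, g, m 1 0, g, p 0 3, s 0 4, g], .leaf [2, 1, 6, 4, 6, 3]),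
([s 2 1, g, p 0 2, s 4 0, g, p 3 0, g, m 1 0, g, p 0 3, s 0 4, g], .leaf [9, 6, 9, 4, 6, 4, 1]),
([s 2 1, g, p 0 2, s 4 0, g, m 1 0, g, s 3 0, g, p 0 3, s 0 4, g], .leaf [2, 1, 4, 2, 6, 1]),
([s 3 1, g, s 0 2, g, p 0 3, s 5 0, g, m 1 0, g, p 4 0, g, p 2 4, s 0 5, g], .leaf [8, 6, 9, 2, 5, 7, 2, 3]),
([s 2 1, g, p 0 2, s 6 3, g, s 0 4, g, m 1 0, g, p 5 0, g, p 4 5, s 0 6, g, s 3 0, g], .leaf [3, 13, 2, 6, 1, 6, 4, 2, 6, 1]),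
([s 2 0, g, s 0 1, g, p 0 2, s 5 0, g, s 0 3, g, p 4 0, g, p 3 4, s 1 5, g], .leaf [7, 10, 11, 5, 7, 5, 2, 5]),
([s 3 1, g, p 0 2, g, p 0 3, s 4 0, g, m 1 0, g, s 2 4, g], .leaf [2, 8, 8, 4, 1, 5, 3]),
([s 2 0, g, m 0 1, g, p 0 2, s 4 0, g, p 3 0, g, p 0 3, s 1 4, g], .leaf [1, 7, 9, 6, 2, 4, 5]),
([s 2 1, g, p 0 2, s 6 0, g, s 0 3, g, m 1 0, g, s 0 4, g, p 5 0, g, p 4 5, s 3 6, g], .leaf [4, 9, 11, 12, 8, 1, 4, 2, 4, 5]),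
([s 1 0, g, p 0 1, g, p 0 2, g, s 0 3, g, p 4 0, g, p 3 4, s 2 0, g], .leaf [6, 9, 5, 1, 5, 6, 3]),
([s 2 1, g, p 0 2, s 4 0, g, m 0 3, g, m 1 0, g, s 3 4, g], .leaf [2, 1, 6, 4, 5, 5, 1]),
([s 2 1, g, p 0 2, s 4 0, g, m 1 3, g, s 3 4, g], .leaf [2, 1, 4, 2, 3, 3, 1]),
([s 2 1, g, p 0 2, s 6 0, g, m 1 0, g, s 0 3, g, s 0 4, g, p 5 0, g, p 4 5, s 3 6, g], .leaf [6, 9, 11, 12, 6, 1, 7, 5, 2, 5]),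
([s 2 1, g, p 0 2, s 6 0, g, m 1 0, g, s 0 3, g, s 0 4, g, p 5 0, g, p 3 5, s 4 6, g], .leaf [2, 1, 6, 10, 11, 7, 4, 2, 4, 5]),
([s 2 1, g, p 0 2, s 6 0, g, m 1 0, g, s 0 3, g, p 0 4, g, p 5 0, g, p 3 5, s 4 6, g], .leaf [12, 14, 4, 1, 5, 3, 4, 6, 2, 5]),
([s 0 0, g, p 2 1, g, p 0 2, s 1 0, g], .leaf [2, 4, 3]),
([s 0 0, g, p 2 0, g, p 0 1, g, p 0 2, s 1 0, g], .leaf [4, 6, 3]),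
([s 2 1, g, p 0 2, s 5 0, g, m 1 0, g, s 0 3, g, p 4 0, g, p 3 4, s 6 5, g, s 0 6, g], .leaf [10, 12, 4, 1, 5, 3, 4, 8, 4, 1]),
([s 2 1, g, p 0 2, s 3 0, g, m 1 0, g, s 4 3, g, p 0 4, g], .leaf [2, 1, 4, 2, 3, 5, 1]),
([s 2 1, g, p 0 2, s 3 0, g, m 1 0, g, s 4 3, g, m 0 4, g], .leaf [2, 1, 4, 2, 3, 3, 3]),
([s 2 1, g, p 0 2, s 5 0, g, m 1 0, g, s 0 3, g, p 4 0, g, p 3 4, s 0 5, g], .inner (.lo 12) [.ref 552 [0, 6, 2, 3, 4, 5] [1, 1, 3, 1, 1, 1], .ref 553 [0, 1, 6, 2, 5] [1, 1, 1, 6, 1], .ref 554 [0, 6, 2, 4, 5] [1, 1, 5, 1, 1], .cyc [3, 12], .ref 555 [0, 1, 2, 6, 3, 4, 5] [1, 1, 1, 1, 1, 1, 1], .ref 556 [0, 2, 6, 3, 4] [1, 2, 3, 1, 1, 1], .ref 557 [0, 1, 2, 6, 5] [1, 1, 1, 6, 1], .ref 558 [0, 1, 2, 6, 5] [1, 1, 6, 1],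 .ref 559 [0, 1, 2, 6, 3, 4, 5] [1, 1, 1, 1, 1, 1, 1], .ref 556 [0, 2, 6, 3, 4] [1, 4, 1, 1, 1, 1], .ref 491 [0, 1, 2, 6, 5] [1, 1, 1, 6, 1], .ref 560 [0, 1, 2, 3, 6, 4, 5] [1, 1, 1, 1, 1, 1, 1], .ref 561 [0, 1, 2, 3, 6, 4, 5] [1, 1, 1, 1, 1, 1, 1], .ref 491 [0, 1, 2, 6, 5] [1, 1, 3, 4, 1], .ref 562 [0, 6, 4] [8, 1, 1], .ref 419 [0, 6, 4] [8, 1, 1, 1], .ref 563 [0, 6, 4] [8, 1, 1, 1], .ref 491 [0, 1, 2, 6, 5] [1, 1, 5, 2, 1], .ref 564 [0, 1, 2, 3, 4, 5, 6] [1, 1, 1, 1, 1, 1, 1], .ref 565 [0, 1, 2, 5, 6] [1, 1, 6, 1, 1], .ref 566 [0, 1, 2, 5, 6] [1, 1, 6, 1, 1]]),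
([s 1 0, g, p 0 1, s 5 2, g, p 4 0, g, s 0 3, g, p 3 4, s 0 5, g, s 2 0, g], .leaf [3, 11, 4, 1, 4, 2, 6, 1]),
([s 2 1, g, p 0 2, s 5 3, g, m 1 0, g, p 4 0, g, p 6 4, s 0 5, g, s 0 6, g, s 3 0, g], .leaf [8, 14, 8, 1, 9, 7, 2, 4, 2, 5]),
([s 2 1, g, p 0 2, s 3 0, g, m 1 0, g, p 4 0, g, s 0 3, g, p 0 4, g], .leaf [2, 1, 4, 2, 5, 7, 5]),
([s 3 1, g, s 0 2, g, p 0 3, s 5 0, g, m 1 0, g, p 4 0, g, p 6 4, s 2 5, g, s 0 6, g], .leaf [10, 12, 6, 3, 7, 3, 8, 1, 6, 3]),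
([s 2 1, g, p 0 2, s 5 0, g, s 0 3, g, m 1 0, g, p 4 0, g, p 6 4, s 3 5, g, s 0 6, g], .leaf [10, 12, 6, 8, 3, 9, 1, 7, 4, 1]),
([s 1 0, g, p 0 1, s 5 2, g, p 0 3, g, p 4 0, g, p 6 4, s 3 5, g, s 2 0, g, s 0 6, g], .leaf [3, 11, 2, 11, 6, 8, 1, 7, 4, 1]),
([s 2 1, g, p 0 2, s 5 0, g, m 1 0, g, s 0 3, g, p 4 0, g, p 6 4, s 3 5, g, s 0 6, g], .leaf [10, 12, 4, 1, 5, 3, 8, 1, 6, 3]),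
([s 2 1, g, p 0 2, s 4 0, g, m 1 0, g, p 3 0, g, p 6 3, s 5 4, g, s 0 5, g, s 0 6, g], .leaf [8, 10, 4, 1, 5, 3, 8, 3, 6, 3])]

def d02_1 : List (List Item × Pf) := [
([s 2 1, g, p 0 2, s 4 0, g, m 1 0, g, p 3 0, g, p 5 3, s 6 4, g, s 0 5, g, s 0 6, g], .leaf [8, 10, 4, 1, 5, 3, 6, 1, 4, 5]),
([s 2 1, g, p 0 2, s 5 3, g, m 1 0, g, p 4 0, g, p 6 4, s 0 5, g, s 3 0, g, s 0 6, g], .inner (.lo 10) [.ref 571 [0, 1, 7, 2, 4, 5, 6] [1, 1, 1, 1, 1, 3, 1], .ref 553 [0, 1, 7, 2, 5] [1, 1, 1, 4, 5], .ref 554 [0, 7, 2, 4, 5] [1, 1, 3, 1, 5], .ref 572 [0, 1, 2, 7, 4, 5, 6] [1, 1, 1, 1, 1, 3, 1], .ref 573 [0, 2, 3, 7, 4, 5, 6] [1, 1, 3, 1, 1, 1, 1], .ref 557 [0, 1, 2, 7, 5] [1, 1, 1, 4, 5], .ref 558 [0, 1, 2, 7, 5] [1, 1, 4, 5],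 .ref 574 [0, 1, 2, 7, 4, 5, 6] [1, 1, 1, 1, 1, 3, 1], .ref 573 [0, 2, 3, 7, 4, 5, 6] [1, 3, 1, 1, 1, 1, 1], .ref 491 [0, 1, 2, 7, 5] [1, 1, 1, 4, 5], .ref 562 [0, 7, 4] [6, 1, 5], .ref 419 [0, 7, 4] [6, 1, 1, 5], .ref 563 [0, 7, 4] [6, 1, 1, 5], .ref 491 [0, 1, 2, 7, 5] [1, 1, 3, 2, 5], .ref 575 [0, 1, 2, 4, 5, 7, 6] [1, 1, 1, 1, 1, 3, 1], .ref 565 [0, 1, 2, 5, 7] [1, 1, 4, 1, 5], .ref 566 [0, 1, 2, 5, 7] [1, 1, 4, 1, 5], .cyc [3, 12, 10], .ref 575 [0, 1, 2, 4, 5, 7, 6] [1, 1, 1, 1, 3, 1, 1], .ref 565 [0, 1, 2, 5, 7] [1, 1, 4, 3, 3], .ref 566 [0, 1, 2, 5, 7] [1, 1, 4, 3, 3], .ref 576 [0, 1, 2, 4, 5, 6, 7] [1, 1, 1, 1, 3, 1, 1], .ref 565 [0, 1, 2, 5, 7] [1, 1, 4, 5, 1], .ref 566 [0, 1, 2, 5, 7] [1, 1, 4, 5, 1]]),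
([s 2 1, g, p 0 2, s 5 3, g, m 1 0, g, p 4 0, g, p 0 4, s 0 5, g, s 3 0, g], .inner (.lo 9) [.ref 550 [0, 1, 6, 2, 4, 5] [1, 1, 1, 1, 1, 3], .ref 5 [0, 6] [1, 8, 4], .ref 424 [0, 1, 6, 2, 3] [1, 1, 1, 3, 2, 1], .ref 551 [0, 1, 2, 3, 6, 4, 5] [1, 1, 1, 1, 1, 1, 1], .ref 5 [0, 6] [4, 5, 4], .ref 426 [0, 1, 2, 3, 6] [1, 1, 1, 3, 2, 1], .ref 427 [0, 1, 2, 3, 6] [1, 1, 3, 2, 1], .ref 567 [0, 1, 2, 6, 4, 5] [1, 1, 1, 1, 1, 3], .ref 5 [0, 6] [6, 3, 4], .ref 446 [0, 1, 2, 3, 6] [1, 1, 1, 3, 2, 1], .cyc [7, 9], .ref 568 [0, 2, 3, 6, 4, 5] [1, 3, 1, 1, 1, 1], .ref 5 [0, 6] [8, 1, 4], .ref 446 [0, 1, 2, 3, 6] [1, 1, 3, 1, 2, 1], .ref 569 [0, 1, 2, 3, 4, 5, 6] [1, 1, 1, 1, 1, 1, 1], .ref 570 [0, 1, 2, 5, 6] [1, 1, 3, 0, 1, 3],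 .ref 486 [0, 1, 2, 3, 6] [1, 1, 3, 2, 1, 1], .ref 436 [0, 1, 2, 3, 6] [1, 1, 3, 2, 1], .ref 577 [0, 1, 2, 3, 4, 5, 6] [1, 1, 1, 1, 1, 1, 1], .ref 570 [0, 1, 2, 5, 6] [1, 1, 3, 0, 3, 1], .ref 450 [0, 1, 2, 3, 6] [1, 1, 3, 2, 1, 1]]),
([s 2 1, g, p 0 2, s 4 0, g, m 1 0, g, p 0 3, s 0 4, g, s 3 0, g], .leaf [2, 1, 4, 2, 4, 5]),
([s 2 1, g, p 0 2, s 4 3, g, m 1 0, g, p 0 0, s 0 4, g, s 3 0, g], .inner (.hi 7) [.ref 546 [0, 1, 2, 5, 4] [1, 1, 1, 1, 3], .ref 440 [0, 5, 4] [1, 2, 3, 3], .ref 161 [0, 5] [1, 6, 4], .ref 440 [0, 5, 4] [1, 0, 3, 3], .ref 547 [0, 1, 2, 5, 4] [1, 1, 1, 1, 3], .ref 548 [0, 1, 2, 5, 4] [1, 1, 1, 1, 3], .ref 161 [0, 5] [4, 3, 4], .ref 549 [0, 1, 2, 5, 4] [1, 1, 1, 1, 3], .ref 578 [0, 1, 2, 3, 5, 4]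 [1, 1, 1, 1, 1, 1], .ref 161 [0, 5] [6, 1, 4], .cyc [7], .contra, .ref 579 [0, 1, 2, 5, 4] [1, 1, 1, 1, 3], .ref 5 [0, 5] [6, 2, 3], .ref 98 [0, 5] [6, 2, 3], .ref 579 [0, 1, 2, 5, 4] [1, 1, 1, 3, 1], .ref 5 [0, 5] [6, 4, 1], .ref 98 [0, 5] [6, 4, 1]]),
([s 3 1, g, s 0 2, g, p 0 3, s 4 0, g, m 1 0, g, m 2 0, s 0 4, g], .leaf [4, 3, 6, 2, 6, 1]),
([s 2 1, g, p 0 2, s 4 0, g, s 0 3, g, m 1 0, g, m 3 0, s 0 4, g], .leaf [2, 1, 6, 4, 6, 3]),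
([s 2 1, g, p 0 2, s 4 0, g, m 0 3, g, m 1 0, g, m 3 0, s 0 4, g], .leaf [9, 6, 9, 4, 6, 4, 1]),
([s 2 1, g, p 0 2, s 4 0, g, m 1 3, g, m 3 0, s 0 4, g], .leaf [7, 4, 7, 4, 4, 2, 1]),
([s 2 1, g, p 0 2, s 4 0, g, m 1 0, g, s 0 3, g, m 3 0, s 0 4, g], .leaf [2, 1, 4, 2, 6, 1]),
([s 2 1, g, s 4 0, g, p 0 2, s 5 0, g, m 1 0, g, m 0 3, g, m 3 4, s 0 5, g], .leaf [8, 6, 9, 2, 5, 7, 2, 3]),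
([s 2 1, g, p 0 2, s 6 3, g, s 5 0, g, m 1 0, g, m 0 4, g, m 4 5, s 0 6, g, s 3 0, g], .leaf [3, 13, 2, 6, 1, 6, 4, 2, 6, 1]),
([s 2 0, g, s 0 1, g, p 0 2, s 5 0, g, s 4 0, g, m 0 3, g, m 3 4, s 1 5, g], .leaf [7, 10, 11, 5, 7, 5, 2, 5]),
([s 2 0, g, m 0 1, g, p 0 2, s 4 0, g, m 0 3, g, m 3 0, s 1 4, g], .leaf [1, 7, 9, 6, 2, 4, 5]),
([s 2 1, g, p 0 2, s 6 0, g, s 0 3, g, m 1 0, g, s 5 0, g, m 0 4, g, m 4 5, s 3 6, g], .leaf [4, 9, 11, 12, 8, 1, 4, 2, 4, 5]),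
([s 1 0, g, p 0 1, g, p 0 2, g, s 4 0, g, m 0 3, g, m 3 4, s 2 0, g], .leaf [6, 9, 5, 1, 5, 6, 3]),
([s 2 1, g, p 0 2, s 6 0, g, m 1 0, g, s 0 3, g, s 5 0, g, m 0 4, g, m 4 5, s 3 6, g], .leaf [6, 9, 11, 12, 6, 1, 7, 5, 2, 5]),
([s 2 1, g, p 0 2, s 6 0, g, m 1 0, g, s 5 3, g, m 0 4, g, m 4 5, s 3 6, g], .leaf [6, 7, 9, 10, 4, 1, 5, 3, 0, 3]),
([s 2 1, g, p 0 2, s 6 0, g, m 1 0, g, s 5 0, g, s 0 3, g, m 0 4, g, m 4 5, s 3 6, g], .leaf [2, 1, 6, 10, 11, 7, 4, 2, 4, 5]),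
([s 2 1, g, p 0 2, s 6 0, g, m 1 0, g, s 5 0, g, p 0 3, g, m 0 4, g, m 4 5, s 3 6, g], .leaf [12, 14, 4, 1, 5, 3, 4, 6, 2, 5]),
([s 0 0, g, m 0 1, g, p 0 2, g, m 1 0, s 2 0, g], .leaf [4, 6, 3]),
([s 2 1, g, p 0 2, s 5 0, g, m 1 0, g, s 4 0, g, m 0 3, g, m 3 4, s 6 5, g, s 0 6, g], .leaf [10, 12, 4, 1, 5, 3, 4, 8, 4, 1]),
([s 2 1, g, p 0 2, s 5 0, g, m 1 0, g, s 4 0, g, m 0 3, g, m 3 4, s 0 5, g], .inner (.lo 12) [.ref 588 [0, 6, 2, 3, 4, 5] [1, 1, 3, 1, 1, 1], .ref 553 [0, 1, 6, 2, 5] [1, 1, 1, 6, 1], .ref 589 [0, 6, 2, 3, 5] [1, 1, 5, 1, 1], .cyc [3, 12], .ref 590 [0, 1, 2, 6, 3, 4, 5] [1, 1, 1, 1, 1, 1, 1], .ref 591 [0, 2, 6, 3, 4] [1, 2, 3, 1, 1, 1], .ref 557 [0, 1, 2, 6, 5] [1, 1, 1, 6, 1], .ref 558 [0, 1, 2, 6,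 5] [1, 1, 6, 1], .ref 592 [0, 1, 2, 6, 3, 4, 5] [1, 1, 1, 1, 1, 1, 1], .ref 591 [0, 2, 6, 3, 4] [1, 4, 1, 1, 1, 1], .ref 491 [0, 1, 2, 6, 5] [1, 1, 1, 6, 1], .ref 593 [0, 1, 2, 6, 3, 4, 5] [1, 1, 1, 1, 1, 1], .ref 594 [0, 1, 2, 6, 3, 4, 5] [1, 1, 1, 1, 1, 1, 1], .ref 595 [0, 1, 2, 6, 3, 4, 5] [1, 1, 1, 1, 1, 1, 1], .ref 491 [0, 1, 2, 6, 5] [1, 1, 3, 4, 1], .ref 463 [0, 3, 6] [8, 1, 1, 1], .ref 596 [0, 3, 6] [8, 1, 1, 1], .ref 491 [0, 1, 2, 6, 5] [1, 1, 5, 2, 1], .ref 597 [0, 1, 2, 3, 4, 5, 6] [1, 1, 1, 1, 1, 1, 1], .ref 565 [0, 1, 2, 5, 6] [1, 1, 6, 1, 1], .ref 566 [0, 1, 2, 5, 6] [1, 1, 6, 1, 1]]),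
([s 1 0, g, p 0 1, s 5 2, g, m 0 3, g, s 4 0, g, m 3 4, s 0 5, g, s 2 0, g], .leaf [3, 11, 4, 1, 4, 2, 6, 1]),
([s 2 1, g, p 0 2, s 6 3, g, m 1 0, g, m 0 4, g, m 4 5, s 0 6, g, s 5 0, g, s 3 0, g], .leaf [8, 14, 8, 1, 9, 7, 2, 4, 2, 5]),
([s 2 1, g, p 0 2, s 4 0, g, m 1 0, g, m 0 3, g, s 0 4, g, m 3 0, g], .leaf [2, 1, 4, 2, 5, 7, 5]),
([s 3 1, g, s 0 2, g, p 0 3, s 6 0, g, m 1 0, g, m 0 4, g, m 4 5, s 2 6, g, s 5 0, g], .leaf [10, 12, 6, 3, 7, 3, 8, 1, 6, 3]),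
([s 2 1, g, p 0 2, s 6 0, g, s 0 3, g, m 1 0, g, m 0 4, g, m 4 5, s 3 6, g, s 5 0, g], .leaf [10, 12, 6, 8, 3, 9, 1, 7, 4, 1]),
([s 1 0, g, p 0 1, s 6 2, g, p 0 3, g, m 0 4, g, m 4 5, s 3 6, g, s 2 0, g, s 5 0, g], .leaf [3, 11, 2, 11, 6, 8, 1, 7, 4, 1]),
([s 2 1, g, p 0 2, s 6 0, g, m 1 0, g, s 0 3, g, m 0 4, g, m 4 5, s 3 6, g, s 5 0, g], .leaf [10, 12, 4, 1, 5, 3, 8, 1, 6, 3]),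
([s 2 1, g, p 0 2, s 5 0, g, m 1 0, g, m 0 3, g, m 3 4, s 6 5, g, s 0 6, g, s 4 0, g], .leaf [8, 10, 4, 1, 5, 3, 8, 3, 6, 3]),
([s 2 1, g, p 0 2, s 5 0, g, m 1 0, g, m 0 3, g, m 3 4, s 6 5, g, s 4 6, g], .leaf [8, 10, 4, 1, 5, 3, 6, 6, 0, 3]),
([s 2 1, g, p 0 2, s 5 0, g, m 1 0, g, m 0 3, g, m 3 4, s 6 5, g, s 4 0, g, s 0 6, g], .leaf [8, 10, 4, 1, 5, 3, 6, 1, 4, 5]),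
([s 2 1, g, p 0 2, s 6 3, g, m 1 0, g, m 0 4, g, m 4 5, s 0 6, g, s 3 0, g, s 5 0, g], .inner (.lo 10) [.ref 602 [0, 1, 7, 2, 4, 5, 6] [1, 1, 1, 1, 1, 3, 1], .ref 553 [0, 1, 7, 2, 6] [1, 1, 1, 4, 5], .ref 589 [0, 7, 2, 4, 6] [1, 1, 3, 1, 5], .ref 603 [0, 1, 2, 7, 4, 5, 6] [1, 1, 1, 1, 1, 3, 1], .ref 604 [0, 2, 3, 7, 4, 5, 6] [1, 1, 3, 1, 1, 1, 1], .ref 557 [0, 1, 2, 7, 6] [1, 1, 1, 4, 5], .ref 558 [0, 1, 2, 7, 6] [1, 1, 4, 5], .ref 605 [0, 1, 2, 7, 4, 5, 6] [1, 1, 1, 1, 1, 3, 1], .ref 604 [0, 2, 3, 7, 4, 5, 6] [1, 3, 1, 1, 1, 1, 1], .ref 491 [0, 1, 2, 7, 6] [1, 1, 1, 4, 5], .ref 463 [0, 4, 7] [6, 1, 1, 5], .ref 596 [0, 4, 7] [6, 1, 1, 5], .ref 491 [0, 1, 2, 7, 6] [1, 1, 3, 2, 5], .ref 606 [0, 1, 2, 4, 5, 6, 7] [1, 1,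 1, 1, 1, 3, 1], .ref 565 [0, 1, 2, 6, 7] [1, 1, 4, 1, 5], .ref 566 [0, 1, 2, 6, 7] [1, 1, 4, 1, 5], .cyc [3, 12, 10], .ref 606 [0, 1, 2, 4, 5, 6, 7] [1, 1, 1, 1, 3, 1, 1], .ref 565 [0, 1, 2, 6, 7] [1, 1, 4, 3, 3], .ref 566 [0, 1, 2, 6, 7] [1, 1, 4, 3, 3], .ref 607 [0, 1, 2, 4, 5, 6, 7] [1, 1, 1, 1, 3, 1], .ref 608 [0, 1, 2, 4, 5, 6, 7] [1, 1, 1, 1, 3, 1, 1], .ref 565 [0, 1, 2, 6, 7] [1, 1, 4, 5, 1], .ref 566 [0, 1, 2, 6, 7] [1, 1, 4, 5, 1]]),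
([s 2 1, g, p 0 2, s 5 3, g, m 1 0, g, m 0 4, g, m 4 0, s 0 5, g, s 3 0, g], .inner (.hi 9) [.ref 586 [0, 1, 2, 4, 6, 5] [1, 1, 1, 1, 1, 3], .ref 469 [0, 1, 2, 3, 6] [1, 1, 1, 3, 2, 1], .ref 13 [0, 6] [1, 8, 4], .ref 470 [0, 1, 2, 3, 6] [1, 1, 3, 2, 1], .ref 587 [0, 1, 2, 3, 4, 6, 5] [1, 1, 1, 1, 1, 1, 1], .ref 472 [0, 1, 2, 3, 6] [1, 1, 1, 3, 2, 1], .ref 13 [0, 6] [4, 5, 4], .ref 598 [0, 1, 2, 4, 6, 5] [1, 1, 1, 1, 1, 3], .ref 486 [0, 1, 2, 3, 6] [1, 1, 1, 3, 2, 1], .ref 13 [0, 6] [6, 3, 4], .cyc [7, 9], .ref 599 [0, 2, 3, 4, 6, 5] [1, 3, 1, 1, 1, 1], .ref 486 [0, 1, 2, 3, 6] [1, 1, 3, 1, 2, 1], .ref 13 [0, 6] [8, 1, 4], .ref 491 [0, 1, 2, 6, 5] [1, 1, 3, 0, 3], .ref 600 [0, 1, 2, 3, 4, 6, 5] [1, 1, 1, 1, 1, 1, 1],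 .ref 446 [0, 1, 2, 3, 6] [1, 1, 3, 2, 1, 1], .ref 601 [0, 1, 2, 6, 5] [1, 1, 3, 0, 1, 3], .ref 609 [0, 1, 2, 3, 4, 6, 5] [1, 1, 1, 1, 1, 1, 1], .ref 489 [0, 1, 2, 3, 6] [1, 1, 3, 2, 1, 1], .ref 601 [0, 1, 2, 6, 5] [1, 1, 3, 0, 3, 1]]),
([s 2 1, g, p 0 2, s 3 0, g, m 1 0, g, m 4 0, s 0 3, g, s 0 4, g], .leaf [2, 1, 4, 2, 4, 5]),
([s 2 1, g, p 0 2, s 4 3, g, m 1 0, g, m 0 0, s 0 4, g, s 3 0, g], .inner (.lo 7) [.ref 581 [0, 1, 5, 2, 4] [1, 1, 1, 1, 3], .ref 98 [0, 5] [1, 6, 4], .ref 482 [0, 5, 4] [1, 2, 3, 3], .ref 582 [0, 1, 2, 5, 4] [1, 1, 1, 1, 3], .ref 98 [0, 5] [4, 3, 4], .ref 583 [0, 1, 2, 5, 4] [1, 1, 1, 1, 3], .ref 584 [0, 1, 2, 5, 4] [1, 1, 1, 3], .ref 585 [0, 1, 2, 5, 4] [1, 1, 1, 1, 3], .ref 98 [0, 5] [6, 1,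 4], .ref 610 [0, 1, 2, 3, 5, 4] [1, 1, 1, 1, 1, 1], .cyc [7], .ref 611 [0, 1, 2, 4, 5] [1, 1, 1, 1, 3], .ref 161 [0, 5] [6, 2, 3], .ref 13 [0, 5] [6, 2, 3], .ref 611 [0, 1, 2, 4, 5] [1, 1, 1, 1, 1], .ref 611 [0, 1, 2, 4, 5] [1, 1, 1, 3, 1], .ref 161 [0, 5] [6, 4, 1], .ref 13 [0, 5] [6, 4, 1]]),
([s 2 1, g, p 0 2, s 4 3, g, m 1 0, g, s 0 4, g, s 3 0, g], .inner (.bot 6) [.ref 512 [0, 1, 2, 3, 4] [1, 1, 1, 1], .ref 545 [0, 1, 2, 3, 4] [1, 1, 1, 1, 1], .ref 580 [0, 1, 2, 3, 4] [1, 1, 1, 1, 1], .ref 612 [0, 1, 2, 3, 4] [1, 1, 1, 1, 1]]),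
([s 2 1, g, p 0 2, s 4 3, g, m 1 0, g, s 0 4, g, m 3 0, g], .leaf [2, 1, 6, 3, 6, 2, 3]),
([s 2 1, g, p 0 2, s 3 0, g, m 1 0, g, s 0 3, g], .inner (.hi 3) [.ref 344 [0, 1, 2, 4, 3] [1, 1, 1, 1, 1], .ref 345 [0, 1, 2, 4, 3] [1, 1, 1, 1, 1], .ref 88 [0, 2, 4] [1, 1, 5], .ref 346 [0, 1, 2, 4, 3] [1, 1, 1, 1], .ref 374 [0, 1, 2, 4, 3] [1, 1, 1, 1, 1], .ref 94 [0, 1, 2, 4] [1, 1, 1, 3], .ref 375 [0, 1, 2, 4, 3] [1, 1, 1, 1, 1], .ref 502 [0, 1, 2, 4, 3] [1, 1, 1, 1, 1], .ref 96 [0, 1, 2, 4] [1, 1, 1, 3], .ref 503 [0, 1, 2, 4, 3] [1, 1, 1, 1, 1], .cyc [3, 7], .ref 613 [0, 1, 2, 4, 3] [1, 1, 1, 1, 1], .ref 96 [0, 1, 2, 4] [1, 1, 3, 1], .ref 614 [0, 1, 2, 4, 3] [1, 1, 1, 1, 1]]),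
([s 2 1, g, s 3 0, g, p 0 2, s 4 3, g, m 1 0, g, p 0 4, g], .leaf [2, 4, 1, 5, 3, 5, 3]),
([s 2 1, g, p 0 2, s 4 3, g, s 3 0, g, m 1 0, g, p 0 4, g], .leaf [2, 1, 8, 5, 3, 4, 1]),
([s 2 1, g, p 0 2, s 4 3, g, m 1 0, g, s 3 0, g, p 0 4, g], .leaf [2, 1, 6, 3, 6, 2, 3]),
([s 2 1, g, p 0 2, s 4 3, g, m 1 0, g, p 0 4, g, s 3 0, g], .leaf [2, 1, 6, 3, 1, 2, 3]),
([s 2 1, g, p 0 2, s 3 0, g, m 1 0, g, p 0 3, g], .inner (.hi 3) [.ref 616 [0, 1, 2, 4, 3] [1, 1, 1, 1, 1], .ref 317 [0, 2, 4, 3] [1, 1, 3, 1], .ref 88 [0, 2, 4] [1, 1, 5], .ref 318 [0, 2, 4, 3] [1, 3, 1], .ref 617 [0, 1, 2, 4, 3] [1, 1, 1, 1, 1], .ref 94 [0, 1, 2, 4] [1, 1, 1, 3], .ref 320 [0, 2, 4, 3] [1, 1, 3, 1], .ref 618 [0, 1, 2, 4, 3] [1, 1, 1, 1, 1], .ref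 96 [0, 1, 2, 4] [1, 1, 1, 3], .ref 320 [0, 2, 4, 3] [1, 3, 1, 1], .cyc [3, 7], .ref 619 [0, 1, 2, 4, 3] [1, 1, 1, 1, 1], .ref 96 [0, 1, 2, 4] [1, 1, 3, 1], .ref 322 [0, 2, 4, 3] [1, 3, 1, 1]]),
([s 2 1, g, p 0 2, s 3 0, g, m 1 0, g, m 0 3, g], .leaf [2, 1, 4, 2, 3]),
([s 2 1, g, p 0 2, s 0 0, g, m 1 0, g], .inner (.lo 3) [.ref 83 [0, 1, 3, 2] [1, 1, 1, 1], .ref 84 [0, 3, 2] [1, 1, 3], .ref 276 [0, 1, 3, 2] [1, 1, 1, 1], .cyc [3], .ref 315 [0, 1, 2, 3] [1, 1, 1, 1], .ref 324 [0, 1, 2, 3] [1, 1, 1, 1], .ref 325 [0, 1, 2, 3] [1, 1, 1, 1], .ref 326 [0, 1, 2, 3] [1, 1, 1], .ref 615 [0, 1, 2, 3] [1, 1, 1, 1], .ref 620 [0, 1, 2, 3] [1, 1, 1, 1], .ref 621 [0, 1, 2, 3] [1, 1, 1, 1]]),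
([s 2 0, g, s 0 1, g, p 0 2, p 1 0, g], .leaf [2, 4, 1]),
([s 3 0, g, s 0 1, g, m 0 2, g, p 1 3, p 2 0, g], .leaf [2, 5, 1, 4, 1]),
([s 3 0, g, m 0 1, g, m 0 2, g, p 1 3, p 2 0, g], .leaf [5, 1, 5, 0, 1]),
([s 3 0, g, m 0 1, g, s 0 2, g, p 2 3, p 1 0, g], .leaf [3, 1, 5, 2, 1]),
([s 3 0, g, m 0 1, g, m 0 2, g, p 2 3, p 1 0, g], .leaf [3, 1, 5, 2, 1]),
([s 3 1, g, m 0 2, g, p 4 3, g, p 2 4, g, m 1 0, g], .leaf [1, 4, 2, 3, 3, 1, 3, 1]),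
([s 2 0, g, m 0 1, g, p 3 2, p 1 0, g, s 0 3, g], .leaf [3, 1, 3, 0, 3]),
([s 3 1, g, m 0 2, g, p 4 3, g, p 2 0, g, p 0 4, g, m 1 0, g], .leaf [1, 4, 2, 3, 5, 3, 5, 1]),
([s 2 0, g, m 0 1, g, p 3 2, p 1 0, g, m 0 3, g], .leaf [3, 1, 3, 0, 3]),
([s 3 1, g, m 0 2, g, p 4 3, g, p 2 0, g, m 1 0, g, p 0 4, g], .leaf [1, 4, 2, 3, 7, 5, 5, 1]),
([s 3 1, g, m 0 2, g, p 0 3, p 2 0, g, m 1 0, g], .inner (.lo 4) [.ref 624 [0, 4, 2, 3] [1, 1, 1, 3], .ref 5 [0, 4] [1, 3, 4], .ref 625 [0, 4, 2, 3] [1, 1, 1, 3], .ref 626 [0, 2, 4, 3] [1, 1, 1, 3], .ref 5 [0, 4] [3, 1, 4], .ref 627 [0, 2, 4, 3] [1, 1, 1, 3], .ref 628 [0, 1, 2, 3, 4] [1, 1, 0, 1, 1], .ref 629 [0, 2, 3, 4] [1, 1, 1, 3], .ref 630 [0, 1, 2, 3, 4] [1, 1, 0, 1, 1, 1], .ref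 631 [0, 2, 3, 4] [1, 1, 1, 3], .cyc [0, 7, 4], .ref 629 [0, 2, 3, 4] [1, 1, 3, 1], .ref 632 [0, 1, 2, 3, 4] [1, 1, 0, 1, 1, 1], .ref 631 [0, 2, 3, 4] [1, 1, 3, 1]]),
([s 2 1, g, p 0 2, p 3 0, g, s 0 3, g, m 1 0, g], .leaf [2, 1, 6, 4, 1]),
([s 2 0, g, s 0 1, g, p 0 2, p 3 0, g, p 1 3, g], .leaf [2, 6, 6, 4, 1]),
([s 3 1, g, m 0 2, g, p 0 3, g, p 4 0, g, p 2 4, g, m 1 0, g], .leaf [5, 3, 6, 8, 5, 3, 4, 1]),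
([s 2 1, g, p 0 2, p 4 0, g, s 0 3, g, p 3 4, g, m 1 0, g], .leaf [4, 7, 5, 1, 6, 4, 1]),
([s 2 1, g, p 0 2, p 4 0, g, m 0 3, g, p 3 4, g, m 1 0, g], .leaf [4, 7, 5, 1, 6, 4, 1]),
([s 2 1, g, p 0 2, p 3 0, g, p 4 3, g, s 0 4, g, m 1 0, g], .leaf [4, 5, 3, 1, 6, 4, 1])]

def d02_2 : List (List Item × Pf) := [
([s 2 1, g, p 0 2, p 3 0, g, p 4 3, g, p 0 4, g, m 1 0, g], .leaf [5, 7, 6, 6, 4, 1, 5, 3]),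
([s 2 1, g, p 0 2, p 3 0, g, p 4 3, g, m 0 4, g, m 1 0, g], .leaf [4, 5, 3, 1, 6, 4, 1]),
([s 2 1, g, p 0 2, p 3 0, g, p 4 3, g, m 1 4, g], .leaf [4, 5, 3, 1, 4, 2, 1]),
([s 2 1, g, p 0 2, p 3 0, g, p 4 3, g, m 1 0, g, s 0 4, g], .leaf [4, 5, 3, 1, 4, 2, 3]),
([s 2 1, g, p 0 2, p 3 0, g, p 4 3, g, m 1 0, g, p 0 4, g], .leaf [5, 9, 8, 8, 6, 1, 3, 1]),
([s 2 1, g, p 0 2, p 3 0, g, p 4 3, g, m 1 0, g, m 0 4, g], .leaf [4, 5, 3, 1, 4, 2, 3]),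
([s 2 1, g, p 0 2, p 3 0, g, p 0 3, g, m 1 0, g], .inner (.lo 5) [.ref 635 [0, 4, 2, 3] [1, 1, 1, 3], .ref 5 [0, 4] [1, 4, 3], .ref 636 [0, 1, 4, 2, 3] [1, 1, 0, 1, 1, 1], .cyc [3, 5], .ref 637 [0, 1, 2, 4, 3] [1, 1, 1, 1, 1], .ref 5 [0, 4] [4, 1, 3], .ref 638 [0, 1, 2, 4, 3] [1, 1, 1, 1, 1], .ref 639 [0, 1, 2, 3, 4] [1, 1, 1, 1, 1], .ref 640 [0, 1, 2, 3, 4] [1, 1, 1, 1, 1], .ref 641 [0, 1, 2, 3, 4] [1, 1, 1, 1, 1], .ref 642 [0, 1, 2, 3, 4] [1, 1, 1, 1], .ref 643 [0, 1, 2, 3, 4] [1, 1, 1, 1, 1], .ref 644 [0, 1, 2, 3, 4] [1, 1, 1, 1, 1], .ref 645 [0, 1, 2, 3, 4] [1, 1, 1, 1, 1]]),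
([s 2 1, g, p 0 2, p 3 0, g, m 0 3, g, m 1 0, g], .leaf [2, 1, 6, 4, 1]),
([s 2 1, g, p 0 2, p 3 0, g, m 1 3, g], .leaf [2, 1, 4, 2, 1]),
([s 2 1, g, p 0 2, p 3 0, g, m 1 0, g, s 0 3, g], .leaf [2, 1, 4, 2, 3]),
([s 2 1, g, s 3 0, g, p 0 2, p 4 3, g, m 1 0, g, p 0 4, g], .leaf [5, 2, 6, 1, 6, 2, 3]),
([s 2 1, g, p 3 0, g, p 0 2, g, p 4 3, g, m 1 0, g, p 0 4, g], .leaf [4, 3, 7, 3, 5, 3, 5, 1]),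
([s 2 1, g, p 3 2, g, p 4 3, g, m 1 0, g, p 0 4, g], .leaf [2, 1, 5, 3, 3, 1, 3, 1]),
([s 1 0, g, p 0 1, p 3 2, g, s 2 0, g, p 0 3, g], .leaf [5, 1, 6, 4, 1]),
([s 2 1, g, p 0 2, p 4 3, g, m 1 0, g, p 0 4, g, s 3 0, g], .leaf [2, 1, 8, 5, 1, 4, 1]),
([s 2 1, g, p 0 2, p 3 0, g, m 1 0, g, p 0 3, g], .inner (.hi 3) [.ref 650 [0, 1, 2, 4, 3] [1, 1, 1, 1, 1], .ref 651 [0, 1, 2, 4, 3] [1, 1, 0, 1, 1, 1], .ref 161 [0, 4] [1, 2, 5], .ref 652 [0, 1, 2, 4, 3] [1, 0, 1, 1, 1], .ref 653 [0, 2, 4, 3] [1, 1, 3, 1], .ref 5 [0, 4] [2, 1, 5], .ref 98 [0, 4] [2, 1, 5], .ref 653 [0, 2, 4, 3] [1, 3, 1, 1], .ref 5 [0, 4] [2, 3, 3], .ref 98 [0, 4] [2, 3, 3], .cyc [3, 7], .ref 654 [0, 1, 2, 4, 3] [1, 1, 1, 1, 1], .ref 5 [0, 4] [2, 5, 1],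 .ref 98 [0, 4] [2, 5, 1]]),
([s 2 1, g, p 0 2, p 3 0, g, m 1 0, g, m 0 3, g], .leaf [2, 1, 4, 2, 3]),
([s 2 1, g, p 0 2, p 0 0, g, m 1 0, g], .inner (.lo 3) [.ref 623 [0, 3, 2] [1, 1, 3], .ref 5 [0, 3] [1, 2, 3], .ref 633 [0, 1, 3, 2] [1, 1, 1, 1], .cyc [3], .ref 634 [0, 1, 2, 3] [1, 1, 1, 1], .ref 646 [0, 1, 2, 3] [1, 1, 1, 1], .ref 647 [0, 1, 2, 3] [1, 1, 1, 1], .ref 648 [0, 1, 2, 3] [1, 1, 1], .ref 649 [0, 1, 2, 3] [1, 1, 1, 1], .ref 655 [0, 1, 2, 3] [1, 1, 1, 1], .ref 656 [0, 1, 2, 3] [1, 1, 1, 1]]),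
([s 2 1, g, p 3 0, g, p 4 2, g, m 0 3, g, p 0 4, g, m 1 0, g], .leaf [1, 4, 2, 3, 5, 3, 5, 1]),
([s 2 1, g, p 3 0, g, p 4 2, g, m 0 3, g, m 1 0, g, p 0 4, g], .leaf [1, 4, 2, 3, 7, 5, 5, 1]),
([s 2 1, g, p 3 0, g, p 0 2, m 0 3, g, m 1 0, g], .inner (.lo 4) [.ref 4 [0, 4, 2, 3] [1, 1, 1, 3], .ref 5 [0, 4] [1, 3, 4], .ref 6 [0, 4, 2, 3] [1, 1, 1, 3], .ref 5 [0, 4] [1, 1, 4], .ref 7 [0, 4, 2, 3] [1, 1, 1, 3], .ref 5 [0, 4] [3, 1, 4], .ref 8 [0, 4, 2, 3] [1, 1, 1, 3], .ref 9 [0, 2, 3, 4] [1, 1, 1, 3], .ref 658 [0, 1, 2, 3, 4] [1, 1, 0, 1, 1, 1], .ref 11 [0, 2, 3, 4] [1, 1, 1, 3], .cyc [0, 7, 4], .ref 9 [0, 2, 3, 4] [1, 1, 3, 1], .ref 659 [0, 1, 2, 3, 4] [1, 1, 0, 1, 1, 1], .ref 11 [0, 2, 3, 4] [1, 1, 3, 1]]),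
([s 3 1, g, s 0 2, g, p 4 3, m 2 4, g, m 1 0, g], .leaf [5, 2, 6, 1, 4, 0, 1]),
([s 3 1, g, m 0 2, g, p 4 3, g, m 2 4, g, m 1 0, g], .leaf [4, 3, 7, 3, 5, 3, 3, 1]),
([s 1 0, g, p 2 1, m 3 2, g, s 0 3, g], .leaf [5, 1, 2, 0, 1]),
([s 2 1, g, p 3 2, m 0 3, g, m 1 0, g], .inner (.lo 3) [.ref 661 [0, 1, 4, 2, 3] [1, 1, 1, 1], .ref 98 [0, 4] [1, 2, 3], .ref 662 [0, 1, 4, 2, 3] [1, 1, 0, 1, 1], .ref 663 [0, 2, 3, 4] [1, 1, 3], .ref 161 [0, 4] [2, 1, 3], .ref 13 [0, 4] [2, 1, 3], .cyc [0, 5, 3, 2], .ref 663 [0, 2, 3, 4] [1, 3, 1], .ref 161 [0, 4] [2, 3, 1], .ref 13 [0, 4] [2, 3, 1]]),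
([s 2 1, g, p 0 2, m 0 3, g, s 3 0, g, m 1 0, g], .leaf [2, 1, 6, 4, 1]),
([s 2 1, g, p 0 2, m 0 3, g, p 3 0, g, m 1 0, g], .leaf [2, 1, 6, 4, 1]),
([s 2 1, g, p 4 0, g, p 0 2, g, m 0 3, g, m 3 4, g, m 1 0, g], .leaf [5, 3, 6, 8, 5, 3, 4, 1]),
([s 2 1, g, p 4 2, g, m 0 3, g, m 3 4, g, m 1 0, g], .leaf [3, 1, 4, 6, 3, 1, 2, 1]),
([s 2 1, g, p 0 2, m 0 3, g, s 4 0, g, m 3 4, g, m 1 0, g], .leaf [4, 7, 5, 1, 6, 4, 1]),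
([s 2 1, g, p 0 2, m 0 3, g, p 4 0, g, m 3 4, g, m 1 0, g], .leaf [4, 7, 5, 1, 6, 4, 1]),
([s 2 1, g, p 0 2, m 0 3, g, m 3 4, g, s 4 0, g, m 1 0, g], .leaf [4, 5, 3, 1, 6, 4, 1]),
([s 2 1, g, p 0 2, m 0 3, g, m 3 4, g, p 4 0, g, m 1 0, g], .leaf [4, 5, 3, 1, 6, 4, 1]),
([s 2 1, g, p 0 2, m 0 3, g, m 3 4, g, m 4 0, g, m 1 0, g], .leaf [5, 7, 6, 6, 4, 1, 5, 3]),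
([s 2 1, g, p 0 2, m 0 3, g, m 3 4, g, m 1 0, g, s 4 0, g], .leaf [4, 5, 3, 1, 4, 2, 3]),
([s 2 1, g, p 0 2, m 0 3, g, m 3 4, g, m 1 0, g, p 4 0, g], .leaf [4, 5, 3, 1, 4, 2, 3]),
([s 2 1, g, p 0 2, m 0 3, g, m 3 4, g, m 1 0, g, m 4 0, g], .leaf [5, 9, 8, 8, 6, 1, 3, 1]),
([s 2 1, g, p 0 2, m 0 3, g, m 3 0, g, m 1 0, g], .inner (.hi 5) [.ref 16 [0, 2, 3, 4] [1, 1, 1, 3], .ref 667 [0, 1, 2, 3, 4] [1, 1, 0, 1, 1, 1], .ref 13 [0, 4] [1, 4, 3], .ref 668 [0, 1, 2, 3, 4] [1, 0, 1, 1, 1], .cyc [3, 5], .ref 669 [0, 1, 2, 3, 4] [1, 1, 1, 1, 1], .ref 670 [0, 1, 2, 3, 4] [1, 1, 1, 1, 1], .ref 13 [0, 4] [4, 1, 3], .ref 671 [0, 1, 2, 3, 4] [1, 1, 1, 1, 1], .ref 672 [0, 1, 2, 3, 4] [1, 1, 1, 1, 1], .ref 673 [0, 1, 2, 3, 4] [1, 1,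 1, 1, 1], .ref 674 [0, 1, 2, 3, 4] [1, 1, 1, 1, 1], .ref 675 [0, 1, 2, 3, 4] [1, 1, 1, 1, 1], .ref 676 [0, 1, 2, 3, 4] [1, 1, 1, 1, 1]]),
([s 2 1, g, p 0 2, m 0 3, g, m 1 0, g, s 3 0, g], .leaf [2, 1, 4, 2, 3]),
([s 2 1, g, p 0 2, m 0 3, g, m 1 0, g, p 3 0, g], .leaf [2, 1, 4, 2, 3]),
([s 3 1, g, s 0 2, g, p 0 3, m 2 4, g, m 1 0, g, m 4 0, g], .leaf [5, 2, 6, 1, 6, 2, 3]),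
([s 3 1, g, m 0 2, g, p 0 3, g, m 2 4, g, m 1 0, g, m 4 0, g], .leaf [4, 3, 7, 3, 5, 3, 5, 1]),
([s 1 0, g, p 0 1, m 3 2, g, s 0 3, g, m 2 0, g], .leaf [5, 1, 6, 4, 1]),
([s 2 1, g, p 0 2, m 4 3, g, m 1 0, g, m 3 0, g, s 0 4, g], .leaf [2, 1, 8, 5, 1, 4, 1]),
([s 2 1, g, p 0 2, m 0 3, g, m 1 0, g, m 3 0, g], .inner (.lo 3) [.ref 680 [0, 1, 4, 2, 3] [1, 1, 1, 1, 1], .ref 98 [0, 4] [1, 2, 5], .ref 681 [0, 1, 4, 2, 3] [1, 1, 0, 1, 1, 1], .ref 682 [0, 2, 3, 4] [1, 1, 3, 1], .ref 161 [0, 4] [2, 1, 5], .ref 13 [0, 4] [2, 1, 5], .ref 13 [0, 4] [2, 1, 3], .ref 682 [0, 2, 3, 4] [1, 3, 1, 1], .ref 161 [0, 4] [2, 3, 3], .ref 13 [0, 4] [2, 3, 3], .cyc [3, 7], .ref 683 [0, 1, 2, 3, 4] [1, 1, 1, 1, 1], .ref 161 [0, 4] [2, 5, 1],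 .ref 13 [0, 4] [2, 5, 1]]),
([s 2 1, g, p 0 2, m 0 0, g, m 1 0, g], .inner (.hi 3) [.ref 3 [0, 2, 3] [1, 1, 3], .ref 660 [0, 1, 2, 3] [1, 1, 1, 1], .ref 13 [0, 3] [1, 2, 3], .ref 664 [0, 1, 2, 3] [1, 1, 1], .cyc [3], .ref 665 [0, 1, 2, 3] [1, 1, 1, 1], .ref 666 [0, 1, 2, 3] [1, 1, 1, 1], .ref 677 [0, 1, 2, 3] [1, 1, 1, 1], .ref 678 [0, 1, 2, 3] [1, 1, 1, 1], .ref 679 [0, 1, 2, 3] [1, 1, 1, 1], .ref 684 [0, 1, 2, 3] [1, 1, 1, 1]]),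
([s 2 1, g, p 0 2, g, m 1 0, g], .inner (.top 3) [.ref 24 [0, 1, 2] [1, 1], .ref 622 [0, 1, 2] [1, 1, 1], .ref 657 [0, 1, 2] [1, 1, 1], .ref 685 [0, 1, 2] [1, 1, 1]]),
([s 1 0, g, m 0 1, g], .leaf [1]),
([s 0 1, g, s 3 0, g, m 0 2, g, m 1 3, p 2 0, g], .leaf [2, 5, 1, 4, 1]),
([s 0 1, g, p 3 0, g, m 0 2, g, m 1 3, p 2 0, g], .leaf [5, 1, 5, 0, 1]),
([s 0 1, g, m 0 2, g, s 3 0, g, m 1 3, p 2 0, g], .leaf [3, 1, 5, 2, 1]),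
([s 0 1, g, m 0 2, g, p 3 0, g, m 1 3, p 2 0, g], .leaf [3, 1, 5, 2, 1]),
([s 0 1, g, m 0 2, g, m 1 3, p 2 0, g, s 3 0, g], .leaf [3, 1, 3, 0, 3]),
([s 0 1, g, m 0 2, g, m 1 3, p 2 0, g, p 3 0, g], .leaf [3, 1, 3, 0, 3]),
([s 4 1, g, m 0 2, g, m 1 3, g, p 2 4, g, m 3 0, g], .leaf [1, 4, 2, 3, 5, 3, 3, 1]),
([s 3 1, g, m 0 2, g, m 1 0, p 2 3, g], .inner (.hi 4) [.ref 688 [0, 1, 2, 4] [1, 1, 1, 1], .ref 689 [0, 1, 2, 4] [1, 1, 1, 1], .ref 13 [0, 4] [1, 3, 2], .cyc [0, 4, 2, 5], .ref 690 [0, 1, 2, 4] [1, 1, 1, 1], .ref 691 [0, 1, 2, 4] [1, 1, 1, 1], .ref 13 [0, 4] [3, 1, 2], .ref 692 [0, 1, 2, 4] [1, 1, 1, 1], .ref 693 [0, 1, 2, 4] [1, 1, 1, 1], .ref 694 [0, 1, 2, 4, 3] [1, 1, 0, 1, 1]]),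
([s 2 1, g, m 1 0, p 3 2, g, s 0 3, g], .leaf [2, 1, 2, 0, 1]),
([s 0 1, g, s 0 2, g, m 1 0, p 3 0, g, p 2 3, g], .leaf [2, 6, 6, 4, 1]),
([s 3 1, g, m 0 2, g, m 1 0, p 4 3, g, p 2 4, g], .leaf [2, 0, 6, 6, 4, 1, 3, 1]),
([s 2 1, g, m 1 0, p 4 2, g, s 0 3, g, p 3 4, g], .leaf [4, 7, 5, 1, 4, 2, 1]),
([s 2 1, g, m 1 0, p 4 2, g, m 0 3, g, p 3 4, g], .leaf [4, 7, 5, 1, 4, 2, 1]),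
([s 2 1, g, m 1 0, p 3 2, g, p 4 3, g, s 0 4, g], .leaf [4, 5, 3, 1, 2, 0, 1]),
([s 2 1, g, m 1 0, p 3 2, g, p 4 3, g, p 0 4, g], .leaf [5, 7, 6, 6, 4, 1, 3, 1]),
([s 2 1, g, m 1 0, p 3 2, g, p 4 3, g, m 0 4, g], .leaf [4, 5, 3, 1, 2, 0, 1])]

def d02_3 : List (List Item × Pf) := [
([s 2 1, g, m 1 0, p 3 2, g, p 0 3, g], .inner (.lo 5) [.ref 697 [0, 1, 4, 3] [1, 1, 1, 1], .ref 5 [0, 4] [1, 4, 1], .ref 698 [0, 1, 4, 2, 3] [1, 1, 1, 1], .cyc [0, 2, 5, 3], .ref 699 [0, 1, 2, 4, 3] [1, 1, 1, 1], .ref 5 [0, 4] [4, 1, 1], .ref 700 [0, 1, 2, 4, 3] [1, 1, 1, 1], .ref 701 [0, 1, 2, 3, 4] [1, 1, 1, 1], .ref 702 [0, 1, 2, 3, 4] [1, 1, 1, 1], .ref 703 [0, 1, 2, 3, 4] [1, 1, 1, 1]]),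
([s 2 1, g, m 1 0, p 3 2, g, m 0 3, g], .leaf [2, 1, 2, 0, 1]),
([s 2 1, g, m 1 0, p 0 2, g], .inner (.lo 3) [.ref 146 [0, 1, 3] [1, 1, 1], .ref 5 [0, 3] [1, 2, 1], .ref 695 [0, 1, 3, 2] [1, 1, 1], .cyc [0, 2, 3], .ref 696 [0, 1, 2, 3] [1, 1, 1], .ref 704 [0, 1, 2, 3] [1, 1, 1], .ref 705 [0, 1, 2, 3] [1, 1, 1]]),
([s 4 1, s 3 2, g, s 2 0, g, m 1 0, s 0 3, g, p 0 4, g], .leaf [1, 5, 3, 6, 2, 3]),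
([s 4 1, s 3 2, g, m 2 0, g, m 1 0, s 0 3, g, p 0 4, g], .leaf [1, 5, 3, 6, 2, 3]),
([s 4 1, s 3 2, g, m 1 0, s 0 3, g, s 2 0, g, p 0 4, g], .leaf [1, 3, 1, 6, 4, 1]),
([s 4 1, s 3 2, g, m 1 0, g, s 0 3, g, m 2 0, g, p 0 4, g], .leaf [5, 3, 8, 3, 1, 2, 3]),
([s 4 1, s 3 2, g, m 1 0, s 0 3, g, p 0 4, g, s 2 0, g], .leaf [1, 3, 1, 4, 2, 3]),
([s 4 1, g, s 3 2, g, m 1 0, s 0 3, g, p 0 4, g, m 2 0, g], .leaf [4, 3, 6, 2, 3, 5, 1]),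
([s 3 1, s 2 0, g, m 1 0, s 0 2, g, p 0 3, g], .inner (.hi 1) [.ref 707 [0, 1, 4, 2, 3] [1, 1, 1, 1], .ref 35 [0, 1, 4] [1, 1, 4], .ref 708 [0, 1, 4, 2, 3] [1, 1, 1, 1], .cyc [1, 4], .ref 709 [0, 1, 4, 2, 3] [1, 1, 1, 1], .ref 61 [0, 1, 4] [1, 2, 3], .ref 710 [0, 1, 4, 2, 3] [1, 0, 1, 1, 1], .ref 61 [0, 1, 4] [1, 2, 1], .ref 711 [0, 1, 4, 2, 3] [1, 1, 1, 1], .ref 61 [0, 1, 4] [1, 4, 1], .ref 712 [0, 1, 4, 2, 3] [0, 1, 1, 1, 1]]),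
([s 4 1, s 2 0, g, s 0 2, g, s 3 0, g, m 1 0, s 0 3, g, p 0 4, g], .leaf [2, 10, 7, 7, 2, 3]),
([s 0 1, s 3 2, g, s 2 0, g, p 0 3, g, s 4 0, g, m 1 0, s 0 4, g], .leaf [5, 3, 6, 7, 4, 1]),
([s 0 1, s 3 2, g, m 2 0, g, p 0 3, g, s 4 0, g, m 1 0, s 0 4, g], .leaf [5, 3, 6, 7, 4, 1]),
([s 0 1, s 3 2, g, p 0 3, g, s 2 0, g, s 4 0, g, m 1 0, s 0 4, g], .leaf [3, 1, 6, 7, 2, 3]),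
([s 0 1, s 3 2, g, p 0 3, g, m 2 0, g, s 4 0, g, m 1 0, s 0 4, g], .leaf [5, 3, 6, 7, 4, 1]),
([s 0 1, s 3 2, g, p 0 3, g, s 4 0, g, s 2 0, g, m 1 0, s 0 4, g], .leaf [3, 1, 4, 7, 4, 1]),
([s 4 1, s 0 2, g, s 3 0, g, m 2 0, g, m 1 0, s 0 3, g, p 0 4, g], .leaf [3, 7, 3, 8, 4, 5]),
([s 0 1, s 3 2, g, p 0 3, g, s 4 0, g, m 1 0, s 2 4, g], .leaf [8, 6, 3, 4, 4, 1]),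
([s 0 1, s 3 2, g, p 0 3, g, s 4 0, g, m 1 0, s 0 4, g, s 2 0, g], .leaf [3, 1, 4, 5, 2, 5]),
([s 0 1, s 3 2, g, p 0 3, g, s 4 0, g, m 1 0, s 0 4, g, m 2 0, g], .leaf [10, 8, 3, 4, 6, 3]),
([s 4 1, s 2 0, g, p 0 2, g, s 3 0, g, m 1 0, s 0 3, g, p 0 4, g], .inner (.hi 1) [.ref 715 [0, 1, 5, 2, 3] [1, 1, 1, 1, 3], .ref 35 [0, 1, 5] [1, 5, 4], .ref 716 [0, 1, 5, 2, 3] [1, 1, 1, 1, 3], .cyc [1, 3], .ref 717 [0, 1, 5, 2, 3] [1, 1, 1, 1, 3], .ref 35 [0, 1, 5] [3, 3, 4], .ref 718 [0, 1, 5, 2, 3] [1, 1, 1, 1, 3], .ref 719 [0, 1, 5, 2, 3] [1, 1, 1, 1, 3], .ref 35 [0, 1, 5] [5, 1, 4], .ref 720 [0, 1, 5, 3, 4] [3, 1, 1, 1, 1], .ref 721 [0, 1, 5, 2, 3] [1, 1, 1, 3], .ref 722 [0, 1, 5, 2, 3] [1, 1, 1, 1, 3], .ref 61 [0, 1, 5] [5,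 2, 3], .ref 723 [0, 1, 5, 2, 3] [1, 1, 1, 1, 3], .ref 61 [0, 1, 5] [5, 2, 1], .ref 722 [0, 1, 5, 2, 3] [1, 1, 1, 3, 1], .ref 61 [0, 1, 5] [5, 4, 1], .ref 723 [0, 1, 5, 2, 3] [1, 1, 1, 3, 1]]),
([s 4 1, s 2 0, g, s 3 2, g, m 1 0, s 0 3, g, p 0 4, g], .leaf [2, 8, 5, 5, 2, 3]),
([s 4 1, s 2 0, g, s 3 0, g, s 0 2, g, m 1 0, s 0 3, g, p 0 4, g], .leaf [3, 7, 3, 8, 4, 5]),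
([s 4 1, s 2 0, g, s 3 0, g, p 0 2, g, m 1 0, s 0 3, g, p 0 4, g], .leaf [3, 7, 3, 8, 4, 5]),
([s 0 1, s 2 0, g, m 1 2, g], .leaf [3, 2, 1]),
([s 4 1, s 3 0, g, s 2 0, g, m 1 0, s 0 2, g, s 0 3, g, p 0 4, g], .leaf [3, 5, 1, 8, 6, 3]),
([s 0 1, s 4 2, g, s 2 0, g, s 3 0, g, m 1 0, s 0 3, g, p 0 4, g], .leaf [10, 8, 3, 4, 6, 3]),
([s 0 1, s 4 2, g, m 2 0, g, s 3 0, g, m 1 0, s 0 3, g, p 0 4, g], .leaf [10, 8, 3, 4, 6, 3]),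
([s 0 1, s 4 2, g, s 3 0, g, s 2 0, g, m 1 0, s 0 3, g, p 0 4, g], .leaf [10, 8, 1, 4, 6, 3]),
([s 0 1, s 4 2, g, s 3 0, g, m 1 0, s 2 3, g, p 0 4, g], .leaf [6, 4, 7, 2, 2, 3]),
([s 0 1, s 4 2, g, s 3 0, g, m 1 0, s 0 3, g, s 2 0, g, p 0 4, g], .leaf [8, 6, 9, 2, 4, 5]),
([s 0 1, s 3 2, g, m 1 0, g, m 2 0, g, p 0 3, g], .leaf [5, 3, 6, 2, 3]),
([s 0 1, s 4 2, g, s 3 0, g, m 1 0, s 0 3, g, p 0 4, g, s 2 0, g], .leaf [8, 6, 1, 2, 4, 5]),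
([s 0 1, s 3 2, g, m 1 0, g, p 0 3, g, m 2 0, g], .leaf [5, 3, 6, 2, 3]),
([s 4 1, s 3 0, g, s 2 0, g, m 1 0, s 0 2, g, p 0 3, g, p 0 4, g], .inner (.hi 1) [.ref 730 [0, 1, 5, 2, 3] [1, 1, 1, 1, 3], .ref 35 [0, 1, 5] [1, 3, 6], .ref 731 [0, 1, 5, 2, 3] [1, 1, 1, 1, 3], .ref 732 [0, 1, 5, 2, 3] [1, 1, 1, 1, 3], .ref 35 [0, 1, 5] [3, 1, 6], .ref 720 [0, 1, 5, 2, 4] [1, 1, 1, 3, 1], .ref 733 [0, 1, 5, 2, 3] [1, 1, 1, 3], .ref 734 [0, 1, 5, 2, 3] [1, 1, 1, 1, 3], .ref 61 [0, 1, 5] [3, 2, 5], .ref 735 [0, 1, 5, 3] [3, 2, 1, 3], .cyc [1, 8], .ref 736 [0, 1, 5, 2, 3] [1, 1, 1, 1, 3], .ref 61 [0, 1, 5] [3, 4, 3], .ref 737 [0, 1, 5, 3] [3, 2, 1, 3], .ref 61 [0, 1, 5] [3, 4, 1], .ref 736 [0, 1, 5, 2, 3] [1, 1, 1, 3, 1], .ref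 61 [0, 1, 5] [3, 6, 1], .ref 737 [0, 1, 5, 3] [3, 2, 3, 1]]),
([s 3 1, s 4 0, g, s 2 0, g, m 1 0, s 0 2, g, p 0 3, g, s 0 4, g], .leaf [3, 5, 1, 6, 4, 5]),
([s 3 1, s 4 0, g, s 2 0, g, m 1 0, s 0 2, g, p 0 3, g, p 0 4, g], .inner (.hi 1) [.ref 730 [0, 1, 5, 2, 4] [1, 1, 1, 3, 1], .ref 35 [0, 1, 5] [1, 3, 6], .ref 731 [0, 1, 5, 2, 4] [1, 1, 1, 3, 1], .ref 732 [0, 1, 5, 2, 4] [1, 1, 1, 3, 1], .ref 35 [0, 1, 5] [3, 1, 6], .ref 720 [0, 1, 5, 2, 3] [1, 1, 1, 1, 3], .ref 733 [0, 1, 5, 2, 4] [1, 1, 3, 1], .ref 734 [0, 1, 5, 2, 4] [1, 1, 1, 3, 1], .ref 61 [0, 1, 5] [3, 2, 5], .ref 735 [0, 1, 5, 4] [3, 2, 3, 1], .ref 61 [0, 1, 5] [3, 2, 3], .ref 734 [0, 1, 5, 2, 4] [1, 1, 3, 1, 1], .ref 61 [0, 1, 5] [3, 4, 3], .ref 735 [0, 1,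 5, 4] [3, 4, 1, 1], .cyc [1, 10], .ref 736 [0, 1, 5, 2, 4] [1, 1, 3, 1, 1], .ref 61 [0, 1, 5] [3, 6, 1], .ref 737 [0, 1, 5, 4] [3, 4, 1, 1]]),
([s 3 1, s 0 0, g, s 2 0, g, m 1 0, s 0 2, g, p 0 3, g], .inner (.lo 1) [.cyc [1], .ref 714 [0, 1, 4, 2, 3] [1, 1, 1, 1, 1], .ref 724 [0, 1, 4, 2, 3] [1, 1, 1, 1, 1], .ref 27 [0, 4, 3] [1, 6, 1], .ref 725 [0, 1, 4, 2, 3] [1, 1, 1, 1], .ref 726 [0, 1, 4, 2, 3] [1, 1, 1, 1, 1], .ref 727 [0, 1, 4, 2, 3] [1, 1, 1, 1, 1], .ref 27 [0, 4, 3] [3, 4, 1], .ref 728 [0, 1, 4] [3, 4], .ref 729 [0, 1, 2, 4, 3] [1, 1, 1, 1, 1], .ref 738 [0, 1, 2, 4, 3] [1, 1, 1, 1, 1], .ref 27 [0, 4, 3] [6, 1, 1], .ref 739 [0, 1, 2, 3, 4] [1, 1, 1, 1, 1], .ref 740 [0, 1, 2, 3, 4] [1, 1, 1, 1, 1], .ref 30 [0,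 3, 4] [6, 1, 1]]),
([s 4 1, p 2 0, g, p 0 2, g, s 3 0, g, m 1 0, s 0 3, g, p 0 4, g], .leaf [1, 10, 8, 1, 7, 2, 3]),
([s 4 1, p 2 0, g, s 3 0, g, p 0 2, g, m 1 0, s 0 3, g, p 0 4, g], .leaf [3, 7, 3, 8, 4, 5]),
([s 0 1, p 2 0, g, m 1 2, g], .leaf [3, 2, 1]),
([s 4 1, p 3 0, g, s 2 0, g, m 1 0, g, s 0 2, g, p 0 3, g, p 0 4, g], .leaf [2, 11, 8, 3, 5, 6, 1]),
([s 3 1, g, p 4 0, g, s 2 0, g, m 1 0, s 0 2, g, p 0 3, g, p 0 4, g], .leaf [6, 5, 8, 2, 3, 7, 1]),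
([s 3 1, p 0 0, g, s 2 0, g, m 1 0, s 0 2, g, p 0 3, g], .inner (.lo 1) [.cyc [1], .ref 64 [0, 4, 3] [1, 6, 1], .ref 742 [0, 1, 4, 2, 3] [1, 1, 1, 1, 1], .ref 66 [0, 4, 3] [1, 6, 1], .ref 64 [0, 4, 3] [1, 4, 1], .ref 64 [0, 4, 3] [3, 4, 1], .ref 743 [0, 1, 4, 2, 3] [1, 1, 1, 1, 1], .ref 66 [0, 4, 3] [3, 4, 1], .ref 744 [0, 1, 4] [3, 4], .ref 64 [0, 4, 3] [6, 1, 1], .ref 745 [0, 1, 2, 4, 3] [1, 1, 0, 1, 1, 1], .ref 66 [0, 4, 3] [6, 1, 1], .ref 68 [0, 3, 4] [6, 1, 1], .ref 746 [0, 1, 2, 3, 4] [0, 1, 1, 1, 1, 1], .ref 70 [0, 3, 4] [6, 1, 1]]),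
([s 4 1, m 0 2, g, m 2 0, g, s 3 0, g, m 1 0, s 0 3, g, p 0 4, g], .leaf [1, 10, 8, 1, 7, 2, 3]),
([s 4 1, m 0 2, g, s 3 0, g, m 2 0, g, m 1 0, s 0 3, g, p 0 4, g], .leaf [3, 7, 3, 8, 4, 5]),
([s 4 1, m 0 2, g, s 3 0, g, m 1 0, g, s 0 3, g, m 2 0, g, p 0 4, g], .leaf [2, 11, 8, 3, 5, 6, 1]),
([s 4 1, g, m 0 2, g, s 3 0, g, m 1 0, s 0 3, g, p 0 4, g, m 2 0, g], .leaf [6, 5, 8, 2, 3, 7, 1]),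
([s 3 1, m 0 0, g, s 2 0, g, m 1 0, s 0 2, g, p 0 3, g], .inner (.hi 1) [.cyc [1], .ref 73 [0, 1, 4] [1, 3, 4], .ref 74 [0, 1, 4] [1, 3, 4], .ref 748 [0, 1, 4, 2, 3] [1, 1, 1, 1, 1], .ref 73 [0, 1, 4] [3, 1, 4], .ref 74 [0, 1, 4] [3, 1, 4], .ref 749 [0, 1, 4, 2, 3] [1, 1, 1, 1, 1], .ref 79 [0, 1, 4] [3, 0, 3], .ref 79 [0, 1, 4] [3, 2, 3], .ref 80 [0, 1, 4] [3, 2, 3], .ref 750 [0, 1, 4, 2, 3] [1, 1, 0, 1, 1, 1], .ref 80 [0, 1, 4] [3, 2, 1], .ref 79 [0, 1, 4] [3, 4, 1], .ref 80 [0, 1, 4] [3, 4, 1], .ref 751 [0, 1, 4, 2, 3] [0, 1, 1, 1, 1, 1]]),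
([s 3 1, g, s 2 0, g, m 1 0, s 0 2, g, p 0 3, g], .inner (.top 1) [.ref 713 [0, 1, 2, 3] [1, 1, 1], .ref 741 [0, 1, 2, 3] [1, 1, 1, 1], .ref 747 [0, 1, 2, 3] [1, 1, 1, 1], .ref 752 [0, 1, 2, 3] [1, 1, 1, 1]]),
([s 4 1, s 3 2, g, s 0 3, g, m 1 0, s 2 0, g, p 0 4, g], .leaf [1, 5, 3, 6, 2, 3]),
([s 4 1, s 3 0, g, s 0 2, g, s 0 3, g, m 1 0, s 2 0, g, p 0 4, g], .leaf [3, 7, 3, 8, 4, 5]),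
([s 4 1, s 3 0, g, m 0 2, g, s 0 3, g, m 1 0, s 2 0, g, p 0 4, g], .leaf [4, 10, 5, 5, 2, 5]),
([s 4 1, s 2 0, g, s 0 2, g, s 0 3, g, m 1 0, s 3 0, g, p 0 4, g], .leaf [2, 10, 7, 7, 2, 3]),
([s 5 1, g, s 3 0, g, m 0 2, g, p 4 3, g, m 1 0, s 2 4, g, p 0 5, g], .leaf [6, 3, 10, 4, 6, 3, 6, 2, 3]),
([s 5 1, g, s 2 0, g, p 4 2, g, m 0 3, g, m 1 0, s 3 4, g, p 0 5, g], .leaf [4, 1, 10, 6, 8, 3, 6, 2, 3]),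
([s 5 1, g, s 2 0, g, p 4 2, g, m 1 3, s 3 4, g, p 0 5, g], .leaf [4, 1, 8, 4, 6, 3, 4, 0, 1]),
([s 0 1, s 2 0, g, s 0 2, g, p 3 0, g, m 1 0, s 4 3, g, s 0 4, g], .leaf [10, 1, 4, 2, 6, 1]),
([s 0 1, g, p 2 0, g, m 1 0, s 3 2, g, p 0 3, g], .leaf [7, 1, 4, 2, 3]),
([s 3 1, g, m 1 0, s 2 0, g, m 0 2, g, p 0 3, g], .leaf [2, 1, 6, 4, 1]),
([s 2 1, g, m 1 0, s 3 0, g, p 0 2, g, m 0 3, g], .leaf [2, 1, 4, 2, 3]),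
([s 5 1, s 2 0, g, s 3 0, g, s 0 2, g, p 4 3, g, m 1 0, s 0 4, g, p 0 5, g], .inner (.lo 10) [.ref 754 [0, 1, 6, 2, 5] [3, 3, 1, 1], .ref 755 [0, 1, 6, 2, 5] [1, 3, 3, 1, 1], .ref 131 [0, 1, 6] [2, 7, 3], .ref 756 [0, 1, 6, 2, 5] [1, 3, 3, 1, 1], .cyc [3, 10, 7], .ref 755 [0, 1, 6, 2, 5] [3, 1, 3, 1, 1], .ref 131 [0, 1, 6] [4, 5, 3], .ref 756 [0, 1, 6, 2, 5] [3, 1, 3, 1, 1], .ref 757 [0, 1, 2, 6, 5] [3, 1, 3, 1, 1], .ref 131 [0, 1, 6] [6, 3, 3], .ref 758 [0, 1, 6, 3, 4, 5] [2, 3, 1, 1, 1, 1], .ref 757 [0, 1, 2, 6, 5] [3, 3, 1, 1, 1], .ref 131 [0, 1, 6] [8, 1, 3], .ref 759 [0, 1, 3, 6, 4, 5] [2, 3, 1, 1, 1, 1], .ref 760 [0, 1, 3, 6, 4, 5] [2, 3, 1, 1, 1], .ref 761 [0, 1, 2, 4, 6] [3, 1, 1, 1, 3], .ref 762 [0, 1, 4, 6]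 [6, 1, 1, 3], .ref 763 [0, 1, 6, 5] [8, 1, 1, 1], .ref 761 [0, 1, 2, 4, 6] [3, 1, 1, 3, 1], .ref 762 [0, 1, 4, 6] [6, 1, 3, 1], .ref 764 [0, 1, 5, 6] [8, 1, 1, 1]]),
([s 4 1, s 2 0, g, p 3 0, g, s 0 2, g, p 0 3, g, m 1 0, g, p 0 4, g], .leaf [4, 7, 5, 9, 6, 6, 1]),
([s 4 1, s 2 0, g, s 3 2, g, p 0 3, g, m 1 0, g, p 0 4, g], .leaf [2, 5, 1, 7, 4, 4, 1])]

def D02 : List (List (List Item × Pf)) := [d02_0, d02_1, d02_2, d02_3]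

end Pool.Agent.H63.PU.C138
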