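import Pool.Agent.H63.PU.Short

/-! Certificate data, machine generated. -/

namespace Pool.Agent.H63.PU.C138

open Pool.Agent.H63.PU Pool.Agent.H63.PU.Short

set_option maxRecDepth 20000

def d03_0 : List (List Item × Pf) := [
([s 4 1, g, m 0 2, g, s 3 0, g, p 0 3, g, m 1 0, s 2 0, g, p 0 4, g], .leaf [6, 1, 3, 6, 1, 7, 5]),
([s 5 1, s 2 0, g, s 0 2, g, s 3 0, g, p 4 3, g, m 1 0, s 0 4, g, p 0 5, g], .inner (.lo 10) [.ref 754 [0, 1, 6, 2, 5] [1, 5, 1, 1], .ref 755 [0, 1, 6, 2, 5] [1, 1, 5, 1, 1], .ref 131 [0, 1, 6] [2, 7, 3], .ref 756 [0, 1, 6, 2, 5] [1, 1, 5, 1, 1], .ref 757 [0, 1, 2, 6, 5] [1, 1, 5, 1, 1], .ref 131 [0, 1, 6] [4, 5, 3], .ref 768 [0, 1, 6, 3, 5] [4, 1, 1, 1, 1, 1], .cyc [5, 10, 7], .ref 757 [0, 1, 2,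 6, 5] [1, 3, 3, 1, 1], .ref 131 [0, 1, 6] [6, 3, 3], .ref 758 [0, 1, 6, 3, 4, 5] [4, 1, 1, 1, 1, 1], .ref 757 [0, 1, 2, 6, 5] [1, 5, 1, 1, 1], .ref 131 [0, 1, 6] [8, 1, 3], .ref 759 [0, 1, 3, 6, 4, 5] [4, 1, 1, 1, 1, 1], .ref 760 [0, 1, 3, 6, 4, 5] [4, 1, 1, 1, 1], .ref 761 [0, 1, 2, 4, 6] [1, 3, 1, 1, 3], .ref 762 [0, 1, 4, 6] [6, 1, 1, 3], .ref 763 [0, 1, 6, 5] [8, 1, 1, 1], .ref 761 [0, 1, 2, 4, 6] [1, 3, 1, 3, 1], .ref 762 [0, 1, 4, 6] [6, 1, 3, 1], .ref 764 [0, 1, 5, 6] [8, 1, 1, 1]]),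
([s 0 1, s 2 0, g, s 3 0, g, s 0 2, g, p 4 0, g, m 1 3, s 0 4, g], .leaf [3, 8, 1, 7, 2, 3]),
([s 0 1, g, p 2 0, g, p 3 0, g, m 1 2, s 0 3, g], .leaf [5, 1, 5, 0, 1]),
([s 0 1, s 2 0, g, s 3 2, g, p 4 0, g, m 1 3, s 0 4, g], .leaf [3, 6, 1, 5, 2, 1]),
([s 0 1, s 2 0, g, s 0 2, g, s 3 0, g, p 4 0, g, m 1 3, s 0 4, g], .leaf [5, 8, 1, 7, 4, 1]),
([s 0 1, g, p 2 0, g, p 4 2, g, s 3 0, g, m 1 3, s 0 4, g], .leaf [7, 3, 7, 0, 3, 1, 3]),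
([s 0 1, g, p 3 0, g, p 2 0, g, m 1 2, s 0 3, g], .leaf [3, 1, 5, 2, 1]),
([s 4 1, g, s 0 2, g, m 1 3, s 3 0, g, p 2 4, g], .leaf [2, 6, 2, 0, 1, 3, 1]),
([s 4 1, s 3 0, g, m 0 2, g, s 0 3, g, m 1 0, g, p 2 4, g], .leaf [2, 9, 6, 5, 3, 4, 1]),
([s 0 1, g, m 0 2, g, p 4 0, g, m 1 3, s 3 4, g, p 2 0, g], .leaf [3, 1, 7, 2, 0, 2, 1]),
([s 0 1, g, p 3 0, g, m 0 2, g, m 1 0, s 0 3, g, p 2 0, g], .leaf [3, 1, 5, 2, 5]),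
([s 4 1, g, m 1 2, s 2 0, g, s 0 3, g, p 3 4, g], .leaf [4, 2, 0, 1, 4, 2, 1]),
([s 4 1, s 2 0, g, s 0 2, g, m 1 0, g, m 0 3, g, p 3 4, g], .leaf [6, 9, 2, 1, 6, 4, 1]),
([s 3 1, g, m 1 2, s 2 0, g, p 4 3, g, s 0 4, g], .leaf [4, 2, 0, 1, 2, 0, 1]),
([s 4 1, s 2 0, g, s 0 2, g, m 1 0, g, m 0 3, g, p 0 4, p 3 0, g], .leaf [2, 10, 3, 2, 6, 6, 3]),
([s 4 1, g, p 3 0, g, m 1 2, s 2 3, g, p 0 4, p 5 0, g, s 0 5, g], .leaf [1, 8, 4, 0, 5, 4, 4, 2, 3]),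
([s 3 1, s 2 0, g, s 0 2, g, m 1 0, g, p 0 3, p 4 0, g, p 0 4, g], .leaf [2, 8, 9, 8, 4, 4, 1]),
([s 3 1, s 2 0, g, s 0 2, g, m 1 0, g, p 0 3, p 4 0, g, m 0 4, g], .leaf [9, 6, 4, 7, 2, 6, 1]),
([s 5 1, s 2 0, g, s 0 2, g, p 4 0, g, m 1 3, s 3 4, g, p 0 5, p 0 0, g], .inner (.lo 11) [.ref 61 [0, 1, 6] [5, 3, 1], .ref 623 [0, 6, 5] [2, 8, 1], .ref 5 [0, 6] [2, 9, 1], .ref 778 [0, 1, 6, 3, 4] [2, 3, 1, 2, 1], .ref 623 [0, 6, 5] [4, 6, 1], .ref 5 [0, 6] [4, 7, 1], .ref 778 [0, 1, 6, 3, 4] [4, 1, 1, 2, 1], .ref 5 [0, 6] [4, 5, 1], .ref 623 [0, 6, 5] [6, 4, 1], .ref 5 [0, 6] [6, 5, 1], .ref 779 [0, 1, 6, 4] [4, 1, 1, 2, 1], .ref 623 [0, 6, 5] [9, 1, 1], .ref 5 [0, 6] [9, 2, 1], .ref 783 [0, 1, 2, 6, 5] [1, 3, 2, 1, 1], .cyc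 [11], .ref 784 [0, 1, 3, 4, 5, 6] [4, 1, 1, 1, 1], .ref 785 [0, 1, 2, 5, 6] [1, 3, 2, 1, 1], .ref 786 [0, 1, 2, 5, 6] [1, 3, 2, 1, 1]]),
([s 3 1, s 0 2, g, m 1 0, g, p 0 3, s 2 0, g], .leaf [3, 2, 4, 1]),
([s 4 1, s 3 0, g, s 0 2, g, s 0 3, g, m 1 0, g, p 0 4, s 2 0, g], .leaf [2, 7, 4, 7, 2, 3]),
([s 3 1, g, m 0 2, g, m 1 0, g, p 0 3, s 2 0, g], .leaf [1, 4, 2, 4, 1]),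
([s 4 1, s 2 0, g, s 0 2, g, s 0 3, g, m 1 0, g, p 0 4, s 3 0, g], .leaf [2, 5, 8, 4, 4, 1]),
([s 4 1, s 2 0, g, s 0 2, g, m 1 0, g, s 0 3, g, p 0 4, s 3 0, g], .leaf [7, 9, 1, 6, 4, 1]),
([s 4 1, g, m 1 2, s 2 0, g, m 0 3, g, p 0 4, g, s 3 0, g], .leaf [4, 2, 0, 1, 4, 2, 3]),
([s 3 1, s 2 0, g, s 4 0, g, s 0 2, g, m 1 0, g, p 0 3, s 0 4, g], .leaf [2, 7, 4, 7, 2, 3]),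
([s 2 1, g, p 3 0, g, m 1 0, g, p 0 2, s 0 3, g], .leaf [1, 4, 2, 4, 1]),
([s 3 1, s 2 0, g, s 4 2, g, m 1 0, g, p 0 3, s 0 4, g], .leaf [2, 3, 6, 4, 4, 1]),
([s 3 1, s 2 0, g, s 0 2, g, s 4 0, g, m 1 0, g, p 0 3, s 0 4, g], .leaf [2, 5, 8, 4, 4, 1]),
([s 2 0, s 1 0, g, s 0 1, g, p 3 0, g, p 0 2, s 4 3, g, s 0 4, g], .leaf [10, 1, 4, 2, 6, 1]),
([s 3 1, s 2 0, g, s 0 2, g, m 1 0, g, s 4 0, g, p 0 3, s 0 4, g], .leaf [7, 9, 1, 6, 4, 1]),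
([s 4 1, g, p 3 0, g, m 1 2, s 2 3, g, p 0 4, s 6 5, g, s 5 0, g, s 0 6, g], .leaf [1, 10, 1, 5, 0, 5, 4, 4, 2, 3]),
([s 2 0, s 1 0, g, s 0 1, g, p 0 2, s 4 3, g, p 3 0, g, s 0 4, g], .leaf [6, 9, 1, 7, 4, 1]),
([s 0 1, s 2 0, g, s 0 2, g, m 1 3, s 3 0, g, s 0 4, g, m 4 0, g], .leaf [10, 1, 4, 0, 6, 1]),
([s 4 1, g, p 3 0, g, m 1 2, s 2 3, g, p 0 4, s 6 5, g, s 0 6, g, s 5 0, g], .leaf [1, 10, 1, 5, 0, 5, 4, 4, 2, 3]),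
([s 2 0, s 1 0, g, s 0 1, g, p 0 2, s 4 3, g, s 0 4, g, p 3 0, g], .leaf [6, 9, 1, 7, 4, 1]),
([s 5 1, s 2 0, g, s 0 2, g, p 4 0, g, m 1 3, s 3 4, g, p 0 5, s 6 0, g, s 0 6, g], .inner (.hi 11) [.ref 794 [0, 1, 2, 5, 7] [1, 1, 3, 2, 3], .ref 795 [0, 1, 5, 7] [2, 5, 2, 3], .ref 88 [0, 5, 7] [2, 8, 3], .ref 796 [0, 1, 2, 5, 7] [1, 3, 2, 3], .ref 797 [0, 1, 2, 5, 7] [1, 1, 3, 2, 3], .ref 798 [0, 2, 5, 7, 6] [1, 1, 6, 1, 1], .ref 88 [0, 5, 7] [4, 6, 3], .ref 797 [0, 1, 2, 5, 7] [1, 3, 1, 2, 3], .ref 798 [0, 2, 5, 7, 6] [1, 3, 4, 1, 1], .ref 88 [0, 5, 7] [6, 4, 3], .ref 799 [0, 1, 2, 5, 7] [1, 3, 2, 1, 3], .ref 798 [0, 2, 5, 7, 6] [1, 6, 1, 1, 1], .ref 88 [0, 5, 7] [9, 1, 3], .ref 782 [0, 1, 3, 5, 7] [6, 1, 0, 3], .ref 800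 [0, 1, 3, 4, 5, 7, 6] [4, 1, 1, 1, 1, 1], .ref 801 [0, 2, 5, 7, 6] [1, 6, 1, 1, 1], .ref 802 [0, 1, 2, 3, 7] [1, 3, 2, 1, 3], .cyc [11, 13], .ref 803 [0, 1, 3, 4, 5, 7, 6] [4, 1, 1, 1, 1, 1], .ref 804 [0, 2, 5, 7, 6] [1, 6, 1, 1, 1], .ref 802 [0, 1, 2, 3, 7] [1, 3, 2, 3, 1]]),
([s 0 1, s 2 0, g, s 0 2, g, m 1 3, s 3 0, g, s 4 0, g, p 0 4, g], .leaf [10, 1, 4, 0, 6, 1]),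
([s 4 1, g, p 3 0, g, m 1 2, s 2 3, g, p 0 4, s 5 0, g, m 0 5, g], .leaf [1, 8, 4, 0, 5, 4, 4, 2, 3]),
([s 5 1, s 2 0, g, s 0 2, g, p 4 0, g, m 1 3, s 3 4, g, p 0 5, s 0 0, g], .inner (.lo 11) [.ref 788 [0, 1, 6, 5] [5, 2, 1], .ref 789 [0, 1, 6, 2, 5] [1, 1, 3, 2, 1], .ref 84 [0, 6, 5] [2, 8, 1], .ref 790 [0, 1, 6, 5] [2, 5, 2, 1], .ref 791 [0, 1, 2, 6, 5] [1, 1, 3, 2, 1], .ref 84 [0, 6, 5] [4, 6, 1], .ref 790 [0, 1, 6, 5] [4, 3, 2, 1], .ref 84 [0, 6, 5] [4, 4, 1], .ref 791 [0, 1, 2, 6, 5] [1, 3, 1, 2, 1], .ref 84 [0, 6, 5] [6, 4, 1], .ref 790 [0, 1, 6, 5] [6, 1, 2, 1], .ref 792 [0, 1, 2, 6, 5] [1, 3, 2, 1, 1], .ref 84 [0, 6, 5] [9, 1, 1], .ref 793 [0, 1, 3, 6, 5] [6, 1, 1, 0, 1], .cyc [11], .ref 805 [0, 1, 2, 3, 4, 5,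 6] [1, 1, 1, 1, 1, 1], .ref 806 [0, 1, 2, 3, 6] [1, 3, 2, 1, 1], .ref 807 [0, 1, 3, 4, 5, 6] [4, 1, 1, 1, 1]]),
([s 2 1, g, p 3 0, g, m 1 0, g, p 0 2, m 0 3, g], .leaf [1, 4, 2, 4, 1]),
([s 3 1, s 2 0, g, s 0 2, g, m 1 0, g, p 4 0, g, p 0 3, m 0 4, g], .leaf [2, 10, 3, 2, 6, 6, 3]),
([s 3 1, g, m 1 2, s 2 0, g, p 4 3, g, m 0 4, g], .leaf [4, 2, 0, 1, 2, 0, 1]),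
([s 4 1, g, p 3 0, g, m 1 2, s 2 3, g, p 0 4, m 0 5, g, s 5 0, g], .leaf [1, 8, 4, 0, 5, 4, 4, 2, 3]),
([s 3 1, s 2 0, g, s 0 2, g, m 1 0, g, p 0 3, m 0 4, g, p 4 0, g], .leaf [9, 6, 4, 7, 2, 6, 1]),
([s 3 1, s 2 0, g, s 0 2, g, m 1 0, g, p 0 3, m 0 4, g, m 4 0, g], .leaf [2, 8, 9, 8, 4, 4, 1]),
([s 5 1, s 2 0, g, s 0 2, g, p 4 0, g, m 1 3, s 3 4, g, p 0 5, m 0 0, g], .inner (.hi 11) [.ref 3 [0, 5, 6] [2, 8, 1], .ref 809 [0, 1, 5, 6] [2, 5, 2, 1], .ref 13 [0, 6] [2, 9, 1], .ref 3 [0, 5, 6] [2, 6, 1], .ref 3 [0, 5, 6] [4, 6, 1], .ref 809 [0, 1, 5, 6] [4, 3, 2, 1], .ref 13 [0, 6] [4, 7, 1], .ref 3 [0, 5, 6] [6, 4, 1], .ref 809 [0, 1, 5, 6] [6, 1, 2, 1], .ref 13 [0, 6] [6, 5, 1], .ref 3 [0, 5, 6] [9, 1, 1], .ref 810 [0,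 1, 2, 5, 6] [1, 3, 2, 1, 1], .ref 13 [0, 6] [9, 2, 1], .ref 811 [0, 1, 3, 5, 6] [6, 1, 0, 1], .cyc [11], .ref 812 [0, 1, 3, 4, 5, 6] [4, 1, 1, 1, 1], .ref 813 [0, 1, 2, 5, 6] [1, 3, 2, 1, 1], .ref 814 [0, 1, 2, 5, 6] [1, 3, 2, 1, 1]]),
([s 5 1, s 2 0, g, s 0 2, g, p 4 0, g, m 1 3, s 3 4, g, p 0 5, g, p 0 0, g], .inner (.top 11) [.ref 787 [0, 1, 2, 3, 4, 5] [1, 1, 1, 1, 1], .ref 808 [0, 1, 2, 3, 4, 5] [1, 1, 1, 1, 3], .ref 787 [0, 1, 2, 3, 4, 5] [1, 1, 1, 1, 3], .ref 815 [0, 1, 2, 3, 4, 5] [1, 1, 1, 1, 3]]),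
([s 5 1, s 2 0, g, s 0 2, g, p 4 0, g, m 1 3, s 3 4, g, p 0 5, g], .inner (.lo 10) [.ref 61 [0, 1, 6] [5, 2, 1], .ref 776 [0, 1, 6, 3, 5] [2, 5, 1, 1], .ref 5 [0, 6] [2, 8, 1], .ref 777 [0, 1, 6, 2, 5] [1, 1, 3, 2, 1], .ref 776 [0, 1, 6, 3, 5] [4, 3, 1, 1], .ref 5 [0, 6] [4, 6, 1], .ref 778 [0, 1, 6, 3, 4] [4, 1, 1, 1, 1], .cyc [0, 7, 8, 5, 10], .ref 776 [0, 1, 6, 3, 5] [6, 1, 1, 1], .ref 5 [0, 6] [6, 4, 1], .ref 779 [0, 1, 6, 4] [4, 1, 1, 1, 1], .ref 780 [0, 1, 3, 6, 5] [6, 1, 1, 1], .ref 5 [0, 6] [9, 1, 1], .ref 781 [0, 1, 2, 6, 5] [1, 3, 2, 1, 1], .ref 782 [0, 1, 3, 5, 6] [6, 1, 1, 1], .ref 816 [0, 1, 2, 3, 4, 5] [1, 1, 1, 1, 1, 1], .ref 811 [0, 1, 3, 5, 6] [6, 1, 1, 1]]),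
([s 0 1, g, p 2 0, g, p 4 2, g, m 1 3, s 0 4, g, s 3 0, g], .leaf [5, 1, 5, 0, 5, 3, 1]),
([s 0 1, g, p 3 0, g, m 1 2, s 0 3, g, p 2 0, g], .leaf [3, 1, 3, 0, 3]),
([s 4 1, s 2 0, g, s 0 2, g, m 1 3, g, m 3 0, g, p 0 4, g], .leaf [2, 9, 6, 6, 3, 3, 1]),
([s 4 1, s 2 0, g, s 0 2, g, m 1 3, g, p 0 4, g, m 3 0, g], .leaf [2, 7, 4, 4, 1, 5, 3]),
([s 5 1, s 2 0, g, s 0 2, g, p 3 0, g, p 4 3, g, m 1 0, s 0 4, g, p 0 5, g], .inner (.hi 9) [.ref 770 [0, 1, 2, 6, 4] [1, 1, 3, 1, 3], .ref 771 [0, 1, 6, 4] [2, 5, 1, 3], .ref 13 [0, 6] [2, 7, 4], .ref 772 [0, 1, 2, 6, 4] [1, 3, 1, 3], .ref 773 [0, 1, 2, 6, 4] [1, 1, 3, 1, 3], .ref 771 [0, 1, 6, 4] [4, 3, 1, 3], .ref 13 [0, 6] [4, 5, 4], .ref 773 [0, 1, 2, 6, 4] [1, 3, 1, 1, 3], .ref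 771 [0, 1, 6, 4] [6, 1, 1, 3], .ref 13 [0, 6] [6, 3, 4], .ref 774 [0, 1, 3, 6, 4] [4, 1, 1, 1, 3], .ref 775 [0, 1, 6, 4] [6, 1, 1, 3], .ref 13 [0, 6] [8, 1, 4], .ref 817 [0, 1, 2, 6, 4, 5] [1, 3, 1, 1, 1], .ref 818 [0, 1, 3, 6, 4] [4, 1, 1, 1, 3], .ref 819 [0, 1, 6, 4] [6, 1, 1, 3], .ref 820 [0, 1, 2, 6, 5] [1, 5, 2, 1, 1], .cyc [0, 9, 12], .ref 818 [0, 1, 3, 6, 4] [4, 1, 1, 3, 1], .ref 819 [0, 1, 6, 4] [6, 1, 3, 1], .ref 821 [0, 1, 2, 6, 5] [1, 5, 2, 1, 1]]),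
([s 4 1, g, p 3 2, g, s 2 0, g, m 1 0, s 0 3, g, p 0 4, g], .leaf [4, 1, 1, 4, 1, 5, 3]),
([s 4 1, g, p 3 2, g, m 1 0, s 0 3, g, s 2 0, g, p 0 4, g], .leaf [1, 2, 5, 7, 2, 4, 1]),
([s 4 1, g, p 3 2, g, m 1 0, s 0 3, g, p 0 4, g, s 2 0, g], .leaf [8, 6, 2, 5, 3, 4, 1]),
([s 4 1, s 2 0, g, s 0 2, g, p 3 0, g, m 1 0, s 0 3, g, p 0 4, g], .inner (.hi 5) [.ref 765 [0, 1, 2, 5, 3, 4] [1, 1, 1, 1, 1, 1], .ref 766 [0, 1, 2, 5, 4] [1, 1, 1, 1, 2, 1], .ref 161 [0, 5] [2, 3, 6], .ref 767 [0, 1, 2, 5, 4] [1, 1, 1, 2, 1], .ref 769 [0, 1, 2, 5, 3, 4] [1, 1, 1, 1, 1, 1], .ref 822 [0, 1, 2, 5, 3, 4] [1, 1, 1, 1, 1, 1], .ref 161 [0, 5] [4, 1, 6], .ref 823 [0, 1, 5, 3, 4] [4, 1, 1, 1, 1], .ref 5 [0, 5] [4, 1, 6], .ref 98 [0, 5] [4, 1,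 6], .cyc [5, 8], .ref 824 [0, 1, 5, 3, 4] [4, 1, 1, 1, 1], .ref 5 [0, 5] [4, 4, 3], .ref 98 [0, 5] [4, 4, 3], .ref 5 [0, 5] [4, 4, 1], .ref 825 [0, 1, 5, 3, 4] [4, 1, 1, 1, 1], .ref 5 [0, 5] [4, 6, 1], .ref 98 [0, 5] [4, 6, 1]]),
([s 4 1, s 3 2, g, s 2 0, g, p 0 3, g, m 1 0, g, p 0 4, g], .leaf [3, 1, 6, 3, 6, 2, 3]),
([s 0 1, s 3 2, g, m 2 0, g, p 0 3, g, p 4 0, g, m 1 0, s 0 4, g], .leaf [5, 3, 6, 0, 7, 4, 1]),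
([s 4 1, s 3 2, g, p 0 3, g, s 2 0, g, m 1 0, g, p 0 4, g], .leaf [3, 1, 6, 3, 6, 2, 3]),
([s 0 1, s 3 2, g, p 0 3, g, m 2 0, g, p 4 0, g, m 1 0, s 0 4, g], .leaf [5, 3, 6, 0, 7, 4, 1]),
([s 0 1, s 3 2, g, p 0 3, g, p 4 0, g, m 2 0, g, m 1 0, s 0 4, g], .leaf [3, 1, 6, 2, 7, 2, 3])]

def d03_1 : List (List Item × Pf) := [
([s 4 1, s 3 2, g, p 0 3, g, m 1 0, s 2 0, g, p 0 4, g], .leaf [1, 5, 3, 6, 2, 3]),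
([s 4 1, s 3 2, g, p 0 3, g, m 1 0, g, s 2 0, g, p 0 4, g], .leaf [3, 1, 4, 1, 6, 4, 1]),
([s 0 1, s 3 2, g, p 0 3, g, p 4 0, g, m 1 0, s 0 4, g, m 2 0, g], .leaf [10, 8, 1, 4, 7, 2, 3]),
([s 4 1, s 3 2, g, p 0 3, g, m 1 0, g, p 0 4, g, s 2 0, g], .leaf [3, 1, 4, 1, 4, 2, 3]),
([s 4 1, s 2 0, g, p 0 2, g, p 3 0, g, m 1 0, s 0 3, g, p 0 4, g], .inner (.hi 1) [.ref 827 [0, 1, 5, 2, 4] [1, 1, 3, 2, 1], .ref 35 [0, 1, 5] [1, 5, 4], .ref 828 [0, 1, 5, 2, 3] [1, 1, 1, 1, 3], .cyc [1, 3], .ref 829 [0, 1, 5, 2, 4] [1, 1, 3, 2, 1], .ref 35 [0, 1, 5] [3, 3, 4], .ref 830 [0, 1, 5, 2, 3] [1, 1, 1, 1, 3], .ref 829 [0, 1, 5, 2, 4] [1, 3, 1, 2, 1], .ref 35 [0, 1, 5] [5, 1, 4], .ref 831 [0, 1, 5, 2, 3] [1, 1, 1, 1, 3], .ref 832 [0, 1,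 5, 2, 4] [1, 3, 1, 1], .ref 833 [0, 1, 5, 2, 4] [1, 3, 2, 1, 1], .ref 61 [0, 1, 5] [5, 2, 3], .ref 834 [0, 1, 5, 2, 3] [1, 1, 1, 1, 3], .ref 61 [0, 1, 5] [5, 2, 1], .ref 835 [0, 1, 5, 2, 4] [1, 3, 2, 1, 1], .ref 61 [0, 1, 5] [5, 4, 1], .ref 834 [0, 1, 5, 2, 3] [1, 1, 1, 3, 1]]),
([s 4 1, s 2 0, g, p 3 2, g, m 1 0, s 0 3, g, p 0 4, g], .leaf [1, 8, 6, 1, 5, 2, 3]),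
([s 4 1, s 2 0, g, p 3 0, g, s 0 2, g, m 1 0, s 0 3, g, p 0 4, g], .leaf [4, 10, 5, 5, 2, 5]),
([s 4 1, s 2 0, g, p 3 0, g, p 0 2, g, m 1 0, s 0 3, g, p 0 4, g], .leaf [1, 10, 8, 3, 7, 2, 3]),
([s 5 1, s 4 2, g, s 2 0, g, p 3 0, g, m 1 0, s 0 3, g, s 0 4, g, p 0 5, g], .leaf [1, 9, 4, 2, 5, 8, 2, 5]),
([s 4 1, s 3 2, g, m 2 0, g, m 1 0, g, s 0 3, g, p 0 4, g], .leaf [3, 1, 4, 1, 6, 4, 1]),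
([s 0 1, s 4 2, g, p 3 0, g, s 2 0, g, m 1 0, s 0 3, g, s 0 4, g], .leaf [1, 4, 1, 5, 2, 5]),
([s 4 1, s 3 2, g, m 1 0, s 2 0, g, s 0 3, g, p 0 4, g], .leaf [1, 5, 7, 2, 4, 1]),
([s 5 1, s 4 2, g, p 3 0, g, m 1 0, s 0 3, g, s 2 0, g, s 0 4, g, p 0 5, g], .leaf [1, 9, 6, 2, 5, 8, 2, 5]),
([s 4 1, g, s 0 2, g, p 3 0, g, m 1 0, s 0 3, g, m 2 0, g, p 0 4, g], .leaf [9, 6, 10, 1, 8, 2, 5]),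
([s 5 1, s 4 2, g, p 3 0, g, m 1 0, s 0 3, g, s 0 4, g, s 2 0, g, p 0 5, g], .leaf [1, 7, 4, 2, 3, 8, 4, 1]),
([s 5 1, s 4 2, g, p 3 0, g, m 1 0, s 0 3, g, s 0 4, g, p 0 5, g, s 2 0, g], .leaf [1, 7, 4, 2, 3, 6, 2, 5]),
([s 4 1, s 3 2, g, m 1 0, g, s 0 3, g, p 0 4, g, m 2 0, g], .leaf [9, 7, 1, 6, 3, 5, 3]),
([s 4 1, s 3 0, g, p 2 0, g, m 1 0, s 0 2, g, s 0 3, g, p 0 4, g], .inner (.hi 1) [.ref 840 [0, 1, 5, 2, 3, 4] [1, 1, 1, 1, 1, 1], .ref 35 [0, 1, 5] [1, 3, 6], .ref 841 [0, 1, 5, 3, 4] [1, 3, 2, 1, 1], .ref 842 [0, 1, 5, 2, 3] [1, 1, 1, 1, 3], .ref 35 [0, 1, 5] [3, 1, 6], .ref 841 [0, 1, 5, 3, 4] [3, 1, 2, 1, 1], .ref 843 [0, 1, 5, 3, 4] [3, 1, 1, 1], .ref 844 [0, 1, 5, 2, 3, 4] [1, 1, 1, 1, 1, 1], .ref 61 [0, 1,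 5] [3, 2, 5], .ref 845 [0, 1, 5, 2, 4] [0, 1, 1, 1, 3, 1], .cyc [1, 8], .ref 846 [0, 1, 5, 2, 3, 4] [1, 1, 1, 1, 1, 1], .ref 61 [0, 1, 5] [3, 4, 3], .ref 710 [0, 1, 5, 3, 4] [3, 2, 1, 1, 1], .ref 61 [0, 1, 5] [3, 4, 1], .ref 847 [0, 1, 5, 2, 3, 4] [1, 1, 1, 1, 1, 1], .ref 61 [0, 1, 5] [3, 6, 1], .ref 848 [0, 1, 5, 3, 4] [3, 2, 1, 1, 1]]),
([s 4 1, g, s 3 0, g, p 2 0, g, m 1 0, s 0 2, g, p 0 3, g, p 0 4, g], .leaf [9, 6, 10, 1, 8, 2, 5]),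
([s 3 1, s 4 2, g, m 1 0, s 2 0, g, p 0 3, g, s 0 4, g], .leaf [1, 3, 1, 4, 2, 3]),
([s 3 1, s 4 0, g, s 0 2, g, m 1 0, s 2 0, g, p 0 3, g, s 0 4, g], .leaf [3, 5, 1, 6, 4, 5]),
([s 0 1, s 4 0, g, p 2 0, g, m 1 0, s 3 2, g, s 0 3, g, s 0 4, g], .leaf [8, 1, 4, 2, 4, 5]),
([s 0 1, s 3 0, g, p 2 0, g, m 1 0, s 4 2, g, s 0 3, g, s 0 4, g], .leaf [10, 3, 6, 2, 6, 1]),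
([s 4 1, s 5 0, g, s 2 0, g, p 3 2, g, m 1 0, s 0 3, g, p 0 4, g, s 0 5, g], .inner (.lo 8) [.ref 851 [0, 1, 6, 4, 5] [5, 1, 1, 1], .ref 852 [0, 1, 6, 4, 5] [1, 5, 1, 1, 1], .ref 131 [0, 1, 6] [2, 5, 5], .ref 768 [0, 1, 6, 2, 4] [2, 1, 1, 1, 1, 3], .cyc [3, 8, 5], .ref 852 [0, 1, 6, 4, 5] [3, 3, 1, 1, 1], .ref 131 [0, 1, 6] [4, 3, 5], .ref 758 [0, 1, 6, 2, 3, 4] [2, 1, 1, 1, 1, 3], .ref 852 [0, 1, 6, 4, 5] [5, 1, 1, 1, 1], .ref 131 [0, 1, 6] [6, 1, 5], .ref 759 [0, 1, 2, 6, 3, 4] [2, 1, 1, 1, 1, 3], .ref 760 [0, 1, 2, 6, 3, 4] [2, 1, 1, 1, 3], .ref 853 [0, 1, 3, 6, 5] [3, 1, 1, 3, 1], .ref 762 [0, 1, 3, 6] [4, 1, 1, 5], .ref 763 [0, 1, 6, 4] [6, 1, 1, 3], .ref 853 [0, 1, 3, 6, 5] [3, 1, 3, 1, 1], .ref 762 [0, 1, 3, 6]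 [4, 1, 3, 3], .ref 764 [0, 1, 4, 6] [6, 1, 1, 3], .ref 854 [0, 1, 3, 5, 6] [3, 1, 3, 1, 1], .ref 762 [0, 1, 3, 6] [4, 1, 5, 1], .ref 764 [0, 1, 4, 6] [6, 1, 3, 1]]),
([s 0 1, s 0 2, g, s 3 0, g, s 2 0, g, p 4 0, g, m 1 3, s 0 4, g], .leaf [3, 8, 1, 7, 2, 3]),
([s 0 1, s 0 2, g, s 2 0, g, s 3 0, g, p 4 0, g, m 1 3, s 0 4, g], .leaf [5, 8, 1, 7, 4, 1]),
([s 4 1, s 0 2, g, s 0 3, g, s 3 0, s 2 0, g, m 1 0, g, p 0 4, g], .leaf [5, 1, 9, 4, 4, 1]),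
([s 0 1, s 0 2, g, p 0 3, g, s 3 0, s 2 0, g, m 1 0, g], .leaf [8, 7, 4, 1]),
([s 0 1, s 0 2, g, s 4 0, g, m 0 3, g, s 3 4, s 2 0, g, m 1 0, g], .leaf [3, 6, 9, 5, 2, 5]),
([s 5 1, s 0 2, g, p 4 0, g, m 0 3, g, s 3 4, s 2 0, g, m 1 0, g, p 0 5, g], .leaf [4, 1, 5, 10, 7, 2, 6, 1]),
([s 0 1, s 0 2, g, m 3 0, g, s 0 3, s 2 0, g, m 1 0, g], .leaf [8, 7, 4, 1]),
([s 4 1, s 0 2, g, s 3 0, g, s 0 3, s 2 0, g, m 1 0, g, p 0 4, g], .leaf [5, 1, 9, 4, 4, 1]),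
([s 5 1, s 0 2, g, m 0 3, g, p 4 0, g, s 3 4, s 2 0, g, m 1 0, g, p 0 5, g], .leaf [4, 1, 5, 10, 7, 2, 6, 1]),
([s 4 1, s 0 2, g, s 0 3, s 2 0, g, s 3 0, g, m 1 0, g, p 0 4, g], .leaf [3, 5, 9, 6, 6, 1]),
([s 0 1, s 0 2, g, s 0 3, s 2 0, g, p 3 0, g, m 1 0, g], .leaf [8, 7, 2, 3]),
([s 5 1, s 0 2, g, m 0 3, g, s 3 4, s 2 0, g, m 4 0, g, m 1 0, g, p 0 5, g], .leaf [2, 12, 9, 1, 4, 2, 6, 1]),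
([s 0 1, s 5 2, g, s 0 3, s 2 0, g, m 1 4, s 4 0, g, s 3 0, g, s 0 5, g], .leaf [1, 3, 7, 2, 0, 2, 5]),
([s 0 1, s 0 2, g, s 0 3, s 2 0, g, m 1 0, g, p 3 0, g], .leaf [6, 5, 2, 5]),
([s 0 1, g, s 0 2, g, s 0 3, s 2 0, g, m 1 4, s 4 0, g, m 3 0, g], .leaf [10, 5, 6, 4, 0, 5]),
([s 0 1, s 4 2, g, s 0 3, s 2 0, g, m 1 0, g, s 3 4, g], .leaf [6, 5, 2, 5, 5, 1]),
([s 0 1, s 5 2, g, s 0 3, s 2 0, g, m 1 4, s 4 0, g, s 0 5, g, s 3 0, g], .leaf [1, 3, 9, 4, 0, 4, 1]),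
([s 5 1, s 6 2, g, m 0 3, g, s 3 0, s 2 0, g, m 1 4, s 4 0, g, p 0 5, g, s 0 6, g], .inner (.hi 5) [.ref 860 [0, 1, 2, 3, 7] [1, 1, 1, 1, 6], .ref 861 [0, 1, 2, 3, 7, 5] [1, 1, 1, 1, 2, 3], .ref 862 [0, 1, 2, 7] [1, 3, 1, 6], .cyc [3, 5], .ref 863 [0, 1, 2, 7, 5] [3, 1, 1, 2, 3], .ref 864 [0, 1, 2, 3, 7, 5] [1, 1, 1, 1, 2, 3], .ref 862 [0, 1, 2, 7] [3, 1, 1, 6], .ref 865 [0, 1, 2, 7, 5] [3, 1, 1, 2, 3], .ref 866 [0, 1, 2, 7] [3, 1, 1, 6], .ref 867 [0, 1, 2, 3, 7, 5] [1, 1, 1, 1, 2, 3], .ref 868 [0, 1, 2, 7, 4, 6] [3, 1, 1, 3, 1], .ref 869 [0, 1, 2, 7] [3, 1, 2, 5], .ref 870 [0, 1, 2, 7, 4] [0, 3, 1, 1, 5], .ref 869 [0, 1, 2, 7] [3, 1, 2, 3], .ref 868 [0, 1, 2, 7, 4, 6] [3, 1, 3, 1, 1], .ref 869 [0, 1, 2, 7] [3, 1, 4,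 3], .ref 870 [0, 1, 2, 7, 4] [0, 3, 1, 3, 3], .ref 871 [0, 1, 2, 7, 6] [3, 1, 4, 1], .ref 872 [0, 1, 2, 7, 4, 6] [3, 1, 3, 1, 1], .ref 869 [0, 1, 2, 7] [3, 1, 6, 1], .ref 870 [0, 1, 2, 7, 4] [0, 3, 1, 5, 1]]),
([s 4 1, s 0 2, g, s 3 0, s 2 0, g, s 0 3, g, m 1 0, g, p 0 4, g], .leaf [3, 5, 9, 6, 6, 1]),
([s 4 1, s 5 2, g, s 3 0, s 2 0, g, p 0 3, g, m 1 0, g, p 0 4, g, s 0 5, g], .leaf [6, 2, 3, 6, 1, 6, 4, 5]),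
([s 0 1, s 0 2, g, s 3 0, s 2 0, g, m 0 3, g, m 1 0, g], .leaf [8, 7, 2, 3]),
([s 0 1, s 5 2, g, s 4 0, s 2 0, g, m 1 3, s 3 0, g, s 0 4, g, s 0 5, g], .leaf [1, 3, 7, 2, 0, 2, 5]),
([s 0 1, g, s 0 2, g, s 4 0, s 2 0, g, m 1 3, s 3 0, g, p 0 4, g], .leaf [10, 5, 6, 4, 0, 5]),
([s 0 1, s 0 2, g, s 3 0, s 2 0, g, m 1 0, g, m 0 3, g], .leaf [6, 5, 2, 5]),
([s 0 1, s 4 2, g, s 5 0, s 2 0, g, m 1 3, s 3 0, g, s 0 4, g, s 0 5, g], .leaf [1, 3, 9, 4, 0, 4, 1]),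
([s 4 1, s 5 2, g, s 0 0, s 2 0, g, m 1 3, s 3 0, g, p 0 4, g, s 0 5, g], .inner (.lo 3) [.ref 858 [0, 1, 2, 6, 4] [1, 1, 1, 2, 3], .ref 859 [0, 1, 2, 6] [1, 1, 1, 6], .ref 873 [0, 1, 2, 6, 3, 4, 5] [1, 1, 1, 1, 1, 1], .cyc [3], .contra, .ref 874 [0, 1, 2, 6, 4] [1, 1, 1, 2, 3], .ref 875 [0, 1, 2, 6, 4, 5] [1, 1, 1, 2, 1, 1], .ref 876 [0, 1, 2, 6] [1, 1, 1, 6], .ref 741 [0, 1, 6, 4] [1, 2, 1, 3], .ref 877 [0, 1, 2, 3, 6, 5] [1, 1, 1, 3, 1], .ref 878 [0, 1, 2, 3, 6] [0, 1, 1, 1, 5], .ref 879 [0, 1, 2, 6] [1, 1, 2, 5], .ref 877 [0, 1, 2, 3, 6, 5] [1, 1, 3, 1, 1], .ref 878 [0, 1, 2, 3, 6] [0, 1, 1, 3, 3], .ref 879 [0, 1, 2, 6] [1, 1, 4, 3], .ref 880 [0, 1, 2, 3, 5, 6] [1, 1, 3, 1, 1], .ref 878 [0, 1, 2, 3, 6] [0, 1, 1, 5,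 1], .ref 879 [0, 1, 2, 6] [1, 1, 6, 1]]),
([s 0 1, s 0 2, g, s 3 0, g, p 0 3, s 2 0, g, m 1 0, g], .leaf [8, 7, 4, 1]),
([s 4 1, s 0 2, g, p 3 0, g, p 0 3, s 2 0, g, m 1 0, g, p 0 4, g], .leaf [2, 3, 9, 7, 2, 6, 1]),
([s 0 1, s 0 2, g, p 0 3, s 2 0, g, s 3 0, g, m 1 0, g], .leaf [8, 7, 2, 3]),
([s 0 1, s 0 2, g, p 0 3, s 2 0, g, m 1 0, g, s 3 0, g], .leaf [6, 5, 2, 5]),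
([s 3 1, s 0 2, g, p 0 0, s 2 0, g, m 1 0, g, p 0 3, g], .inner (.hi 3) [.ref 829 [0, 1, 2, 4, 3] [1, 0, 1, 1, 1], .ref 882 [0, 1, 2, 4] [1, 1, 1, 3], .ref 883 [0, 1, 2, 4, 3] [1, 1, 1, 1, 1], .ref 161 [0, 4] [2, 1, 6], .cyc [3], .ref 884 [0, 1, 2, 4] [1, 1, 1, 3], .ref 5 [0, 4] [2, 2, 5], .ref 98 [0, 4] [2, 2, 5], .ref 885 [0, 1, 2, 4] [1, 1, 1, 3], .ref 5 [0, 4] [2, 4, 3], .ref 98 [0, 4] [2, 4, 3], .ref 5 [0, 4] [2, 4, 1], .ref 885 [0, 1, 2, 4] [1, 1, 3, 1], .ref 5 [0, 4] [2, 6, 1], .ref 98 [0, 4] [2, 6, 1]]),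
([s 0 1, s 0 2, g, s 0 3, g, m 3 0, s 2 0, g, m 1 0, g], .leaf [8, 7, 4, 1]),
([s 4 1, s 0 2, g, m 0 3, g, m 3 0, s 2 0, g, m 1 0, g, p 0 4, g], .leaf [2, 3, 9, 7, 2, 6, 1]),
([s 0 1, s 0 2, g, m 3 0, s 2 0, g, s 0 3, g, m 1 0, g], .leaf [8, 7, 2, 3]),
([s 0 1, s 0 2, g, m 3 0, s 2 0, g, m 1 0, g, s 0 3, g], .leaf [6, 5, 2, 5]),
([s 3 1, s 0 2, g, m 0 0, s 2 0, g, m 1 0, g, p 0 3, g], .inner (.lo 3) [.ref 887 [0, 1, 2, 4] [1, 1, 1, 3], .ref 98 [0, 4] [2, 1, 6], .ref 888 [0, 1, 2, 4, 3] [1, 1, 1, 1, 1], .cyc [3], .contra, .ref 889 [0, 1, 2, 4] [1, 1, 1, 3], .ref 161 [0, 4] [2, 2, 5], .ref 13 [0, 4] [2, 2, 5], .ref 13 [0, 4] [2, 2, 3], .ref 890 [0, 1, 2, 4] [1, 1, 1, 3], .ref 161 [0, 4] [2, 4, 3], .ref 13 [0, 4] [2, 4,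 3], .ref 890 [0, 1, 2, 4] [1, 1, 3, 1], .ref 161 [0, 4] [2, 6, 1], .ref 13 [0, 4] [2, 6, 1]]),
([s 4 1, s 5 2, g, s 2 0, g, m 1 3, s 3 0, g, p 0 4, g, s 0 5, g], .inner (.bot 2) [.contra, .ref 881 [0, 1, 2, 3, 4, 5] [1, 1, 1, 1, 1], .ref 886 [0, 1, 2, 4] [1, 1, 2, 3], .ref 891 [0, 1, 2, 4] [1, 1, 2, 3]]),
([s 4 1, s 0 2, g, s 2 0, g, m 1 3, g, m 3 0, g, p 0 4, g], .leaf [2, 9, 6, 6, 3, 3, 1]),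
([s 4 1, s 0 2, g, s 2 0, g, m 1 3, g, p 0 4, g, m 3 0, g], .leaf [2, 7, 4, 4, 1, 5, 3]),
([s 5 1, s 6 2, g, s 2 0, g, p 3 0, g, p 4 3, g, m 1 0, s 0 4, g, p 0 5, g, s 0 6, g], .inner (.hi 9) [.ref 856 [0, 1, 2, 7, 4] [1, 1, 3, 1, 5], .ref 771 [0, 1, 7, 4] [2, 5, 1, 5], .ref 13 [0, 7] [2, 7, 6], .ref 857 [0, 1, 2, 7, 4] [1, 1, 3, 1, 5], .ref 771 [0, 1, 7, 4] [4, 3, 1, 5], .ref 13 [0, 7] [4, 5, 6], .ref 857 [0, 1, 2, 7, 4] [1, 3, 1, 1, 5], .ref 771 [0, 1, 7, 4] [6, 1, 1, 5], .ref 13 [0, 7] [6, 3, 6], .ref 774 [0, 1, 3, 7, 4] [4, 1, 1, 1, 5], .ref 775 [0, 1, 7, 4] [6, 1, 1, 5], .ref 13 [0, 7] [8, 1, 6], .ref 892 [0, 1, 2, 7, 5, 6] [1, 5, 1, 1, 1], .ref 818 [0, 1, 3, 7, 4] [4, 1, 1, 1, 5], .ref 819 [0, 1, 7, 4] [6, 1, 1,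 5], .ref 893 [0, 1, 2, 7, 5] [1, 5, 2, 1, 3], .cyc [0, 9, 12], .ref 818 [0, 1, 3, 7, 4] [4, 1, 1, 3, 3], .ref 819 [0, 1, 7, 4] [6, 1, 3, 3], .ref 894 [0, 1, 2, 7, 5] [1, 5, 2, 1, 3], .ref 818 [0, 1, 3, 7, 4] [4, 1, 1, 3, 1], .ref 818 [0, 1, 3, 7, 4] [4, 1, 1, 5, 1], .ref 819 [0, 1, 7, 4] [6, 1, 5, 1], .ref 894 [0, 1, 2, 7, 5] [1, 5, 2, 3, 1]])]

def d03_2 : List (List Item × Pf) := [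
([s 3 1, s 4 2, g, m 2 0, g, m 1 0, g, p 0 3, g, s 0 4, g], .leaf [3, 1, 4, 1, 4, 2, 3]),
([s 4 1, s 0 2, g, p 3 0, g, s 2 0, g, p 0 3, g, m 1 0, g, p 0 4, g], .leaf [4, 7, 5, 9, 6, 6, 1]),
([s 4 1, s 5 2, g, p 3 0, g, m 1 0, s 0 3, g, s 2 0, g, p 0 4, g, s 0 5, g], .leaf [1, 11, 3, 9, 6, 4, 2, 3]),
([s 0 1, s 0 2, g, p 3 0, g, p 4 3, g, m 1 0, s 0 4, g, m 2 0, g], .leaf [10, 5, 2, 8, 3, 5, 3]),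
([s 0 1, s 0 2, g, s 3 0, g, p 4 0, g, m 1 3, s 0 4, g, s 2 0, g], .leaf [3, 6, 1, 5, 2, 5]),
([s 5 1, s 6 2, g, p 4 0, g, m 1 3, s 3 4, g, p 0 5, g, s 2 0, g, s 0 6, g], .leaf [9, 6, 2, 6, 8, 4, 1, 4, 2, 3]),
([s 5 1, s 6 2, g, p 4 0, g, m 1 3, s 0 4, g, m 3 0, g, p 0 5, g, s 2 0, g, s 0 6, g], .leaf [11, 8, 2, 8, 10, 6, 3, 6, 2, 5]),
([s 5 1, s 6 2, g, p 4 0, g, m 1 3, s 0 4, g, p 0 5, g, m 3 0, g, s 2 0, g, s 0 6, g], .leaf [12, 10, 6, 9, 10, 8, 3, 6, 2, 3]),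
([s 4 1, s 0 2, g, m 1 3, g, p 0 4, g, s 2 0, g, m 3 0, g], .leaf [3, 2, 5, 7, 3, 5, 1]),
([s 5 1, s 6 2, g, p 3 0, g, p 4 3, g, m 1 0, s 0 4, g, p 0 5, g, s 2 0, g, s 0 6, g], .inner (.hi 7) [.ref 900 [0, 1, 2, 7, 4] [1, 3, 1, 3, 3], .ref 771 [0, 1, 7, 4] [2, 3, 1, 7], .ref 13 [0, 7] [2, 5, 8], .ref 900 [0, 1, 2, 7, 4] [3, 1, 1, 3, 3], .ref 771 [0, 1, 7, 4] [4, 1, 1, 7], .ref 13 [0, 7] [4, 3, 8], .ref 774 [0, 1, 3, 7, 4] [2, 1, 1, 1, 7], .ref 775 [0, 1, 7, 4] [4, 1, 1, 7], .ref 13 [0, 7] [6, 1, 8], .ref 901 [0, 1, 2, 7, 4, 5, 6] [3, 1, 1, 1, 1, 1], .ref 818 [0, 1, 3, 7, 4] [2, 1, 1, 1, 7], .ref 819 [0, 1, 7, 4] [4, 1, 1, 7], .ref 902 [0, 1, 2, 7, 4, 5, 6] [3, 1, 1, 1, 1, 1, 1], .cyc [0, 7, 10], .ref 818 [0, 1, 3, 7,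 4] [2, 1, 1, 3, 5], .ref 819 [0, 1, 7, 4] [4, 1, 3, 5], .ref 903 [0, 1, 2, 7, 4, 5, 6] [3, 1, 1, 1, 1, 1, 1], .ref 818 [0, 1, 3, 7, 4] [2, 1, 1, 5, 3], .ref 819 [0, 1, 7, 4] [4, 1, 5, 3], .ref 904 [0, 1, 2, 7, 5] [5, 2, 1, 1, 3], .ref 818 [0, 1, 3, 7, 4] [2, 1, 1, 5, 1], .ref 818 [0, 1, 3, 7, 4] [2, 1, 1, 7, 1], .ref 819 [0, 1, 7, 4] [4, 1, 7, 1], .ref 904 [0, 1, 2, 7, 5] [5, 2, 1, 3, 1]]),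
([s 5 1, s 6 2, g, p 4 0, g, m 1 3, s 3 4, g, p 0 5, g, s 0 6, g, s 2 0, g], .leaf [9, 6, 2, 6, 8, 4, 1, 4, 2, 3]),
([s 5 1, s 6 2, g, p 4 0, g, m 1 3, s 0 4, g, m 3 0, g, p 0 5, g, s 0 6, g, s 2 0, g], .leaf [11, 8, 2, 8, 10, 6, 3, 6, 2, 5]),
([s 5 1, s 6 2, g, p 4 0, g, m 1 3, s 0 4, g, p 0 5, g, m 3 0, g, s 0 6, g, s 2 0, g], .leaf [12, 10, 6, 9, 10, 8, 3, 6, 2, 3]),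
([s 3 1, s 4 0, g, m 1 2, g, p 0 3, g, s 0 4, g, m 2 0, g], .leaf [3, 2, 5, 7, 3, 5, 1]),
([s 5 1, s 6 2, g, p 3 0, g, p 4 3, g, m 1 0, s 0 4, g, p 0 5, g, s 0 6, g, s 2 0, g], .inner (.hi 7) [.ref 900 [0, 1, 2, 7, 4] [1, 3, 1, 5, 1], .ref 771 [0, 1, 7, 4] [2, 3, 1, 7], .ref 13 [0, 7] [2, 5, 8], .ref 900 [0, 1, 2, 7, 4] [3, 1, 1, 5, 1], .ref 771 [0, 1, 7, 4] [4, 1, 1, 7], .ref 13 [0, 7] [4, 3, 8], .ref 774 [0, 1, 3, 7, 4] [2, 1, 1, 1, 7], .ref 775 [0, 1, 7, 4] [4, 1, 1, 7], .ref 13 [0, 7] [6, 1, 8], .ref 906 [0, 1, 2, 7, 4, 5, 6] [3, 1, 1, 1, 1, 1], .ref 818 [0, 1, 3, 7, 4] [2, 1, 1, 1, 7], .ref 819 [0, 1, 7, 4] [4, 1, 1, 7], .ref 907 [0, 1, 2, 7, 4, 5, 6] [3, 1, 1, 1, 1, 1, 1], .cyc [0, 7, 10], .ref 818 [0, 1, 3, 7,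 4] [2, 1, 1, 3, 5], .ref 819 [0, 1, 7, 4] [4, 1, 3, 5], .ref 908 [0, 1, 2, 7, 4, 5, 6] [3, 1, 1, 1, 1, 1, 1], .ref 818 [0, 1, 3, 7, 4] [2, 1, 1, 3, 3], .ref 818 [0, 1, 3, 7, 4] [2, 1, 1, 5, 3], .ref 819 [0, 1, 7, 4] [4, 1, 5, 3], .ref 909 [0, 1, 7, 5, 6] [5, 2, 1, 1, 3], .ref 818 [0, 1, 3, 7, 4] [2, 1, 1, 7, 1], .ref 819 [0, 1, 7, 4] [4, 1, 7, 1], .ref 909 [0, 1, 7, 5, 6] [5, 2, 1, 3, 1]]),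
([s 4 1, s 5 0, g, p 2 0, g, p 3 2, g, m 1 0, s 0 3, g, p 0 4, g, s 0 5, g], .inner (.hi 1) [.ref 895 [0, 1, 6, 2, 3, 4, 5] [1, 1, 1, 1, 1, 1, 1], .ref 35 [0, 1, 6] [1, 5, 6], .ref 896 [0, 1, 6, 4, 5] [1, 5, 2, 1, 1], .ref 897 [0, 1, 6, 2, 4] [1, 1, 1, 1, 2, 3], .ref 35 [0, 1, 6] [3, 3, 6], .ref 896 [0, 1, 6, 4, 5] [3, 3, 2, 1, 1], .ref 842 [0, 1, 6, 3, 5] [3, 1, 1, 3, 1], .ref 35 [0, 1, 6] [5, 1, 6], .ref 896 [0, 1, 6, 4, 5] [5, 1, 2, 1, 1], .ref 851 [0, 1, 6, 4, 5] [5, 1, 1, 1], .ref 898 [0, 1, 6, 3, 4, 5] [3, 1, 1, 1, 1, 1], .ref 61 [0, 1, 6] [5, 2, 5], .ref 899 [0, 1, 6, 2, 3] [1, 1, 1, 1, 5], .ref 61 [0, 1, 6] [5, 2, 3], .ref 905 [0, 1, 6, 2, 3, 4, 5] [1, 1, 1, 1, 1, 1, 1], .ref 61 [0, 1, 6] [5, 4, 3], .ref 899 [0,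 1, 6, 2, 3] [1, 1, 1, 3, 3], .cyc [1, 12], .ref 910 [0, 1, 6, 2, 3, 4, 5] [1, 1, 1, 1, 1, 1, 1], .ref 61 [0, 1, 6] [5, 6, 1], .ref 899 [0, 1, 6, 2, 3] [1, 1, 1, 5, 1]]),
([s 3 1, s 4 0, g, p 2 0, g, m 1 0, s 0 2, g, p 0 3, g, s 0 4, g], .inner (.hi 3) [.ref 855 [0, 1, 5, 2, 3, 4] [1, 1, 1, 1, 1, 1], .ref 911 [0, 1, 5, 2, 3, 4] [1, 1, 1, 1, 1, 1], .ref 161 [0, 5] [2, 1, 8], .ref 823 [0, 1, 5, 2, 3] [2, 1, 1, 1, 3], .ref 5 [0, 5] [2, 1, 8], .ref 98 [0, 5] [2, 1, 8], .cyc [3, 6], .ref 824 [0, 1, 5, 2, 3] [2, 1, 1, 1, 3], .ref 5 [0, 5] [2, 4, 5], .ref 98 [0, 5] [2, 4, 5], .ref 5 [0, 5] [2, 4, 3], .ref 825 [0, 1, 5, 2, 3] [2, 1, 1, 1, 3], .ref 5 [0, 5] [2, 6, 3], .ref 98 [0, 5] [2, 6, 3], .ref 825 [0, 1, 5, 2, 3] [2, 1, 1,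 1, 1], .ref 825 [0, 1, 5, 2, 3] [2, 1, 1, 3, 1], .ref 5 [0, 5] [2, 8, 1], .ref 98 [0, 5] [2, 8, 1]]),
([s 3 1, s 4 2, g, s 2 0, g, m 1 0, g, p 0 3, g, p 0 4, g], .leaf [2, 7, 4, 4, 1, 5, 1]),
([s 0 1, s 4 2, g, m 2 0, g, p 3 0, g, m 1 0, s 0 3, g, p 0 4, g], .leaf [10, 8, 1, 4, 7, 2, 3]),
([s 4 1, s 0 2, g, p 3 0, g, m 2 0, g, m 1 0, s 0 3, g, p 0 4, g], .leaf [1, 10, 8, 3, 7, 2, 3]),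
([s 3 1, s 4 2, g, m 1 0, g, s 2 0, g, p 0 3, g, p 0 4, g], .leaf [9, 7, 1, 6, 3, 5, 3]),
([s 3 1, s 4 2, g, m 1 0, g, p 0 3, g, s 2 0, g, p 0 4, g], .leaf [7, 5, 6, 2, 6, 4, 1]),
([s 3 1, s 4 2, g, m 1 0, g, p 0 3, g, p 0 4, g, s 2 0, g], .leaf [7, 5, 6, 2, 6, 4, 1]),
([s 3 1, s 4 0, g, p 2 0, g, m 1 0, s 0 2, g, p 0 3, g, p 0 4, g], .inner (.hi 1) [.ref 913 [0, 1, 5, 3, 4] [1, 3, 2, 1, 1], .ref 35 [0, 1, 5] [1, 3, 6], .ref 914 [0, 1, 5, 2, 4] [1, 1, 1, 3, 1], .ref 913 [0, 1, 5, 3, 4] [3, 1, 2, 1, 1], .ref 35 [0, 1, 5] [3, 1, 6], .ref 915 [0, 1, 5, 2, 3] [1, 1, 1, 1, 3], .ref 916 [0, 1, 5, 3, 4] [3, 0, 1, 1, 1], .ref 916 [0, 1, 5, 3, 4] [3, 2, 1, 1, 1], .ref 61 [0, 1, 5] [3, 2, 5], .ref 735 [0, 1, 5, 4] [3, 2, 3, 1],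 .ref 61 [0, 1, 5] [3, 2, 3], .ref 917 [0, 1, 5, 3, 4] [3, 2, 1, 1, 1], .ref 61 [0, 1, 5] [3, 4, 3], .ref 735 [0, 1, 5, 4] [3, 4, 1, 1], .cyc [1, 10], .ref 918 [0, 1, 5, 3, 4] [3, 2, 1, 1, 1], .ref 61 [0, 1, 5] [3, 6, 1], .ref 737 [0, 1, 5, 4] [3, 4, 1, 1]]),
([s 3 1, s 0 0, g, p 2 0, g, m 1 0, s 0 2, g, p 0 3, g], .inner (.lo 1) [.cyc [1], .ref 826 [0, 1, 4, 2, 3] [1, 1, 1, 1, 1], .ref 836 [0, 1, 4, 2, 3] [1, 1, 1, 1, 1], .ref 27 [0, 4, 3] [1, 6, 1], .ref 837 [0, 1, 4, 2, 3] [1, 1, 1, 1], .ref 838 [0, 1, 4, 2, 3] [1, 1, 1, 1, 1], .ref 839 [0, 1, 4, 2, 3] [1, 1, 1, 1, 1], .ref 27 [0, 4, 3] [3, 4, 1], .ref 728 [0, 1, 4] [3, 4], .ref 849 [0, 1, 2, 4, 3] [1, 1, 1, 1, 1], .ref 850 [0, 1, 2, 4, 3] [0, 1, 1, 1, 1, 1], .ref 27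 [0, 4, 3] [6, 1, 1], .ref 912 [0, 1, 2, 3, 4] [1, 1, 1, 1, 1], .ref 919 [0, 1, 2, 3, 4] [1, 1, 1, 1, 1], .ref 30 [0, 3, 4] [6, 1, 1]]),
([s 4 1, p 3 2, g, s 2 0, g, p 0 3, g, m 1 0, g, p 0 4, g], .leaf [3, 1, 6, 3, 6, 2, 3]),
([s 0 1, p 3 2, g, p 0 3, g, s 2 0, g, p 4 0, g, m 1 0, s 0 4, g], .leaf [5, 3, 6, 0, 7, 4, 1]),
([s 4 1, p 3 2, g, p 0 3, g, s 2 0, g, m 1 0, g, p 0 4, g], .leaf [5, 3, 6, 1, 6, 4, 1]),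
([s 0 1, g, p 3 2, g, p 0 3, g, p 4 0, g, m 1 0, s 0 4, g, s 2 0, g], .leaf [2, 10, 4, 2, 5, 1, 5]),
([s 4 1, p 2 0, g, p 0 2, g, p 3 0, g, m 1 0, s 0 3, g, p 0 4, g], .inner (.hi 1) [.ref 921 [0, 1, 5, 2, 4] [1, 1, 3, 2, 1], .ref 5 [0, 5] [0, 1, 10], .ref 98 [0, 5] [0, 1, 10], .cyc [1, 3], .ref 922 [0, 1, 5, 2, 3] [1, 1, 1, 1, 3], .ref 5 [0, 5] [0, 3, 8], .ref 98 [0, 5] [0, 3, 8], .ref 923 [0, 1, 5, 2, 4] [1, 3, 1, 2, 1], .ref 5 [0, 5] [0, 5, 6], .ref 98 [0, 5] [0, 5, 6], .ref 131 [0, 1, 5] [0, 5, 3], .ref 924 [0, 1, 5, 2, 3] [0, 1, 1, 1, 1, 3], .ref 5 [0, 5] [0, 8, 3], .ref 98 [0, 5] [0, 8, 3], .ref 5 [0, 5] [0, 8, 1], .ref 924 [0, 1, 5, 2, 3] [0, 1, 1, 1, 3, 1], .ref 5 [0, 5] [0, 10, 1], .ref 98 [0, 5] [0, 10, 1]]),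
([s 4 1, p 2 0, g, p 3 2, g, m 1 0, s 0 3, g, p 0 4, g], .leaf [1, 8, 6, 1, 5, 2, 3]),
([s 4 1, p 2 0, g, p 3 0, g, p 0 2, g, m 1 0, s 0 3, g, p 0 4, g], .leaf [1, 10, 8, 3, 7, 2, 3]),
([s 0 1, p 3 0, g, p 2 0, g, m 1 0, s 0 2, g, p 0 3, g], .leaf [8, 5, 2, 6, 1]),
([s 3 1, p 0 0, g, p 2 0, g, m 1 0, s 0 2, g, p 0 3, g], .inner (.lo 1) [.cyc [1], .ref 64 [0, 4, 3] [1, 6, 1], .ref 925 [0, 1, 4, 2, 3] [1, 1, 1, 1, 1], .ref 66 [0, 4, 3] [1, 6, 1], .ref 926 [0, 1, 4, 2, 3] [1, 1, 1, 1], .ref 64 [0, 4, 3] [3, 4, 1], .ref 927 [0, 1, 4, 2, 3] [1, 1, 1, 1, 1], .ref 66 [0, 4, 3] [3, 4, 1], .ref 744 [0, 1, 4] [3, 4], .ref 64 [0, 4, 3] [6, 1, 1], .ref 928 [0, 1, 2, 4] [1, 1, 1, 3], .ref 66 [0, 4, 3] [6, 1, 1], .ref 68 [0, 3, 4]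 [6, 1, 1], .ref 928 [0, 1, 2, 4] [1, 1, 3, 1], .ref 70 [0, 3, 4] [6, 1, 1]]),
([s 4 1, m 3 2, g, s 0 3, g, m 2 0, g, m 1 0, g, p 0 4, g], .leaf [3, 1, 6, 3, 6, 2, 3]),
([s 0 1, m 3 2, g, m 2 0, g, s 0 3, g, p 4 0, g, m 1 0, s 0 4, g], .leaf [5, 3, 6, 0, 7, 4, 1]),
([s 4 1, m 3 2, g, m 2 0, g, s 0 3, g, m 1 0, g, p 0 4, g], .leaf [5, 3, 6, 1, 6, 4, 1]),
([s 0 1, g, m 4 2, g, m 2 0, g, p 3 0, g, m 1 0, s 0 3, g, s 0 4, g], .leaf [2, 10, 4, 2, 5, 1, 5]),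
([s 4 1, m 0 2, g, m 2 0, g, p 3 0, g, m 1 0, s 0 3, g, p 0 4, g], .inner (.lo 1) [.ref 930 [0, 1, 2, 5, 4] [1, 1, 3, 2, 1], .ref 161 [0, 5] [0, 1, 10], .ref 13 [0, 5] [0, 1, 10], .cyc [1, 3], .ref 931 [0, 1, 2, 5, 3] [1, 1, 1, 1, 3], .ref 161 [0, 5] [0, 3, 8], .ref 13 [0, 5] [0, 3, 8], .ref 161 [0, 5] [0, 3, 6], .ref 932 [0, 1, 2, 5, 4] [1, 3, 1, 2, 1], .ref 161 [0, 5] [0, 5, 6], .ref 13 [0, 5] [0, 5, 6], .ref 13 [0, 5] [0, 5, 4], .ref 933 [0, 1, 2, 3, 5] [0, 1, 1, 1, 1, 3], .ref 161 [0, 5] [0, 8, 3], .ref 13 [0, 5] [0, 8, 3], .ref 933 [0, 1, 2, 3, 5] [0, 1, 1, 1, 3, 1], .ref 161 [0, 5] [0, 10, 1], .ref 13 [0, 5] [0, 10, 1]]),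
([s 4 1, m 0 2, g, p 3 0, g, m 2 0, g, m 1 0, s 0 3, g, p 0 4, g], .leaf [1, 10, 8, 3, 7, 2, 3]),
([s 0 1, m 0 2, g, p 3 0, g, m 1 0, s 0 3, g, m 2 0, g], .leaf [8, 5, 2, 6, 1]),
([s 3 1, m 0 0, g, p 2 0, g, m 1 0, s 0 2, g, p 0 3, g], .inner (.hi 1) [.cyc [1], .ref 73 [0, 1, 4] [1, 3, 4], .ref 74 [0, 1, 4] [1, 3, 4], .ref 934 [0, 1, 4, 2, 3] [1, 1, 1, 1, 1], .ref 73 [0, 1, 4] [3, 1, 4], .ref 74 [0, 1, 4] [3, 1, 4], .ref 935 [0, 1, 4, 2, 3] [1, 1, 1, 1, 1], .ref 79 [0, 1, 4] [3, 0, 3], .ref 79 [0, 1, 4] [3, 2, 3], .ref 80 [0, 1, 4] [3, 2, 3], .ref 936 [0, 1, 4, 2] [1, 1, 1, 3], .ref 80 [0, 1, 4] [3, 2, 1], .ref 79 [0, 1, 4] [3, 4, 1], .ref 80 [0, 1, 4] [3, 4, 1], .ref 936 [0, 1, 4, 2] [1, 1, 3, 1]]),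
([s 3 1, g, p 2 0, g, m 1 0, s 0 2, g, p 0 3, g], .inner (.top 1) [.ref 64 [0, 2, 3] [2, 1, 1], .ref 920 [0, 1, 2, 3] [1, 1, 1, 1], .ref 929 [0, 1, 2, 3] [1, 1, 1, 1], .ref 937 [0, 1, 2, 3] [1, 1, 1, 1]]),
([s 0 1, m 1 2, g, s 2 0, g], .leaf [1, 0, 1]),
([s 0 1, m 1 2, g, p 2 0, g], .leaf [1, 0, 1]),
([s 4 1, m 1 2, g, s 0 3, g, m 2 0, g, s 3 0, g, p 0 4, g], .leaf [7, 3, 8, 1, 2, 0, 3]),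
([s 4 1, m 1 2, s 0 3, g, s 3 0, g, m 2 0, g, p 0 4, g], .leaf [3, 8, 4, 5, 0, 1]),
([s 4 1, g, m 1 2, s 0 3, g, s 3 0, g, p 0 4, g, m 2 0, g], .leaf [2, 1, 6, 4, 1, 5, 1]),
([s 3 1, m 1 0, s 0 2, g, s 2 0, g, p 0 3, g], .inner (.hi 1) [.ref 939 [0, 1, 4] [0, 5], .ref 939 [0, 1, 4] [2, 5], .ref 940 [0, 1, 4] [2, 5], .ref 941 [0, 1, 4, 2, 3] [0, 1, 1, 1, 1], .ref 939 [0, 1, 4] [4, 3], .ref 940 [0, 1, 4] [4, 3], .ref 942 [0, 1, 4, 2, 3] [1, 1, 1, 1], .cyc [0, 1, 6], .ref 939 [0, 1, 4] [6, 1], .ref 940 [0, 1, 4] [6, 1], .ref 943 [0, 1, 4, 2, 3] [0, 1, 1, 1, 1]]),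
([s 4 1, s 2 0, g, s 0 2, g, m 1 0, s 0 3, g, s 3 0, g, p 0 4, g], .leaf [2, 10, 7, 7, 4, 1]),
([s 4 1, s 3 2, g, m 2 0, g, p 0 3, g, m 1 0, g, p 0 4, g], .leaf [3, 1, 6, 3, 6, 2, 3]),
([s 4 1, s 3 2, g, p 0 3, g, m 2 0, g, m 1 0, g, p 0 4, g], .leaf [3, 1, 6, 3, 6, 2, 3]),
([s 5 1, s 3 2, g, p 0 3, g, m 1 0, s 0 4, g, m 2 0, g, s 4 0, g, p 0 5, g], .leaf [8, 6, 7, 3, 6, 8, 4, 5]),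
([s 4 1, s 0 2, g, m 1 0, s 0 3, g, s 3 0, g, m 2 0, g, p 0 4, g], .leaf [5, 10, 4, 7, 2, 3]),
([s 4 1, s 3 2, g, p 0 3, g, m 1 0, g, p 0 4, g, m 2 0, g], .leaf [9, 7, 8, 4, 1, 2, 3]),
([s 4 1, s 2 0, g, p 0 2, g, m 1 0, s 0 3, g, s 3 0, g, p 0 4, g], .inner (.hi 1) [.ref 827 [0, 1, 5, 2, 4] [1, 1, 1, 4, 1], .ref 35 [0, 1, 5] [1, 3, 6], .ref 946 [0, 1, 5, 2, 4] [1, 1, 1, 4, 1], .cyc [1, 3], .ref 829 [0, 1, 5, 2, 4] [1, 1, 1, 4, 1], .ref 35 [0, 1, 5] [3, 1, 6], .ref 947 [0, 1, 5, 2, 4] [1, 1, 1, 4, 1], .ref 832 [0, 1, 5, 2, 4] [1, 1, 3, 1], .ref 833 [0, 1, 5, 2, 4] [1, 1, 2, 3, 1], .ref 61 [0, 1, 5] [3, 2, 5], .ref 948 [0, 1, 5, 2, 3, 4] [1, 1, 1, 1, 1, 1], .ref 833 [0, 1, 5, 2, 4] [1, 1, 4, 1, 1], .ref 61 [0, 1, 5] [3,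 4, 3], .ref 949 [0, 1, 5, 3, 4] [3, 1, 1, 1, 1], .ref 61 [0, 1, 5] [3, 4, 1], .ref 835 [0, 1, 5, 2, 4] [1, 1, 4, 1, 1], .ref 61 [0, 1, 5] [3, 6, 1], .ref 950 [0, 1, 5, 2, 4] [1, 1, 4, 1, 1]]),
([s 4 1, s 3 0, g, m 1 0, s 0 2, g, s 0 3, g, s 2 0, g, p 0 4, g], .leaf [7, 10, 2, 5, 2, 5]),
([s 4 1, s 0 2, g, s 2 0, g, m 1 0, s 0 3, g, s 3 0, g, p 0 4, g], .leaf [2, 10, 7, 7, 4, 1]),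
([s 5 1, s 4 2, g, m 2 0, g, m 1 0, s 0 3, g, p 0 4, g, s 3 0, g, p 0 5, g], .leaf [8, 6, 7, 3, 6, 8, 4, 5]),
([s 0 1, s 4 2, g, m 1 0, s 2 3, g, p 0 4, g, s 3 0, g], .leaf [4, 2, 5, 2, 2, 3]),
([s 0 1, s 4 2, g, m 1 0, s 0 3, g, s 2 0, g, p 0 4, g, s 3 0, g], .leaf [6, 4, 7, 2, 4, 5]),
([s 0 1, s 4 2, g, m 1 0, s 0 3, g, p 0 4, g, s 2 0, g, s 3 0, g], .leaf [6, 4, 7, 2, 4, 5]),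
([s 0 1, s 4 2, g, m 1 0, s 0 3, g, p 0 4, g, s 3 0, g, s 2 0, g], .leaf [6, 4, 9, 4, 6, 3]),
([s 4 1, s 3 0, g, m 1 0, s 0 2, g, p 0 3, g, s 2 0, g, p 0 4, g], .inner (.hi 1) [.ref 953 [0, 1, 5, 2, 4] [1, 1, 3, 1, 1], .ref 35 [0, 1, 5] [1, 1, 8], .ref 954 [0, 1, 5, 2, 3, 4] [1, 1, 1, 1, 1, 1], .ref 955 [0, 1, 5, 2, 3] [1, 1, 1, 3], .ref 956 [0, 1, 5, 2, 3] [1, 1, 1, 1, 3], .ref 61 [0, 1, 5] [1, 2, 7], .ref 735 [0, 1, 5, 3] [1, 2, 1, 5], .cyc [1, 6], .ref 957 [0, 1, 5, 2, 3] [1, 1, 1, 1, 3], .ref 61 [0, 1, 5] [1, 4, 5], .ref 737 [0, 1, 5, 3] [1, 2, 1, 5], .ref 958 [0, 1, 5, 2, 3] [1, 1, 1, 1, 3], .ref 61 [0, 1, 5] [1, 6, 3], .ref 949 [0, 1, 5, 2, 4] [1, 3, 1, 1, 1], .ref 61 [0, 1, 5] [1, 6, 1], .ref 958 [0, 1, 5, 2, 3]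 [1, 1, 1, 3, 1], .ref 61 [0, 1, 5] [1, 8, 1], .ref 737 [0, 1, 5, 3] [1, 2, 5, 1]])]

def d03_3 : List (List Item × Pf) := [
([s 4 1, s 3 0, g, m 1 0, s 0 2, g, s 2 3, g, p 0 4, g], .leaf [5, 8, 2, 5, 2, 3]),
([s 4 1, s 3 0, g, m 1 0, s 0 2, g, s 2 0, g, s 0 3, g, p 0 4, g], .leaf [5, 10, 4, 7, 2, 3]),
([s 4 1, s 3 0, g, m 1 0, s 0 2, g, s 2 0, g, p 0 3, g, p 0 4, g], .leaf [5, 10, 4, 7, 2, 3]),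
([s 3 1, s 4 0, g, m 1 0, s 0 2, g, s 2 0, g, p 0 3, g, s 0 4, g], .leaf [5, 8, 2, 5, 2, 5]),
([s 3 1, s 4 2, g, m 2 0, g, m 1 0, g, p 0 3, g, p 0 4, g], .leaf [9, 7, 8, 4, 1, 2, 3]),
([s 2 1, s 3 0, g, m 1 0, g, p 0 2, g, p 0 3, g], .inner (.hi 1) [.ref 913 [0, 1, 4, 2, 3] [1, 1, 1, 1, 1], .ref 35 [0, 1, 4] [1, 1, 5], .ref 964 [0, 1, 4, 2, 3] [1, 1, 1, 1, 1], .ref 916 [0, 1, 4, 2, 3] [1, 1, 1, 1, 1], .ref 61 [0, 1, 4] [1, 1, 5], .ref 735 [0, 1, 4, 3] [1, 1, 3, 1], .ref 61 [0, 1, 4] [1, 1, 3], .ref 917 [0, 1, 4, 2, 3] [1, 1, 1, 1, 1], .ref 61 [0, 1, 4] [1, 3, 3], .ref 735 [0, 1, 4, 3] [1, 3, 1, 1], .cyc [1, 7], .ref 918 [0, 1, 4, 2, 3] [1, 1, 1, 1, 1], .ref 61 [0, 1, 4] [1, 5, 1], .ref 737 [0, 1, 4, 3] [1, 3, 1, 1]]),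
([s 3 1, s 0 0, g, m 1 0, s 0 2, g, s 2 0, g, p 0 3, g], .inner (.lo 1) [.cyc [1], .ref 945 [0, 1, 4, 2, 3] [1, 1, 1, 1, 1], .ref 951 [0, 1, 4, 2, 3] [1, 1, 1, 1, 1], .ref 27 [0, 4, 3] [1, 6, 1], .ref 728 [0, 1, 4] [1, 6], .ref 952 [0, 1, 2, 4, 3] [1, 1, 1, 1, 1], .ref 959 [0, 1, 2, 4, 3] [1, 1, 1, 1, 1], .ref 27 [0, 4, 3] [4, 3, 1], .ref 960 [0, 1, 2, 4, 3] [1, 1, 1, 1], .ref 961 [0, 1, 2, 4, 3] [1, 1, 1, 1, 1], .ref 962 [0, 1, 2, 4, 3] [1, 1, 1, 1, 1], .ref 27 [0, 4, 3] [6, 1, 1], .ref 963 [0, 1, 2, 3, 4] [1, 1, 1, 1, 1], .ref 965 [0, 1, 3, 4] [1, 4, 1, 1], .ref 30 [0, 3, 4] [6, 1, 1]]),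
([s 4 1, p 2 0, g, p 0 2, g, m 1 0, s 0 3, g, s 3 0, g, p 0 4, g], .leaf [1, 10, 8, 1, 7, 4, 1]),
([s 4 1, p 3 0, g, m 1 0, g, s 0 2, g, p 0 3, g, s 2 0, g, p 0 4, g], .leaf [9, 3, 10, 1, 4, 2, 5]),
([s 4 1, p 3 0, g, m 1 0, s 0 2, g, s 2 0, g, p 0 3, g, p 0 4, g], .leaf [5, 10, 4, 7, 2, 3]),
([s 3 1, g, p 4 0, g, m 1 0, s 0 2, g, s 2 0, g, p 0 3, g, p 0 4, g], .leaf [4, 3, 8, 4, 1, 7, 1]),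
([s 3 1, p 0 0, g, m 1 0, s 0 2, g, s 2 0, g, p 0 3, g], .inner (.lo 1) [.cyc [1], .ref 64 [0, 4, 3] [1, 6, 1], .ref 967 [0, 1, 4, 2, 3] [1, 1, 1, 1, 1], .ref 66 [0, 4, 3] [1, 6, 1], .ref 744 [0, 1, 4] [1, 6], .ref 64 [0, 4, 3] [4, 3, 1], .ref 968 [0, 1, 2, 4, 3] [1, 0, 1, 1, 1, 1], .ref 66 [0, 4, 3] [4, 3, 1], .ref 64 [0, 4, 3] [4, 1, 1], .ref 64 [0, 4, 3] [6, 1, 1], .ref 969 [0, 1, 2, 4, 3] [1, 1, 1, 1, 1], .ref 66 [0, 4, 3] [6, 1, 1], .ref 68 [0, 3, 4] [6, 1, 1], .ref 970 [0, 1, 2, 3, 4] [0, 1, 1, 1, 1, 1], .ref 70 [0, 3, 4] [6, 1, 1]]),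
([s 4 1, m 0 2, g, m 2 0, g, m 1 0, s 0 3, g, s 3 0, g, p 0 4, g], .leaf [1, 10, 8, 1, 7, 4, 1]),
([s 4 1, m 0 2, g, m 1 0, g, s 0 3, g, m 2 0, g, s 3 0, g, p 0 4, g], .leaf [9, 3, 10, 1, 4, 2, 5]),
([s 4 1, m 0 2, g, m 1 0, s 0 3, g, s 3 0, g, m 2 0, g, p 0 4, g], .leaf [5, 10, 4, 7, 2, 3]),
([s 4 1, g, m 0 2, g, m 1 0, s 0 3, g, s 3 0, g, p 0 4, g, m 2 0, g], .leaf [4, 3, 8, 4, 1, 7, 1]),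
([s 3 1, m 0 0, g, m 1 0, s 0 2, g, s 2 0, g, p 0 3, g], .inner (.hi 1) [.cyc [1], .ref 73 [0, 1, 4] [1, 1, 6], .ref 74 [0, 1, 4] [1, 1, 6], .ref 972 [0, 1, 4, 2, 3] [1, 1, 1, 1, 1], .ref 79 [0, 1, 4] [1, 0, 5], .ref 79 [0, 1, 4] [1, 2, 5], .ref 80 [0, 1, 4] [1, 2, 5], .ref 973 [0, 1, 4, 2, 3] [1, 0, 1, 1, 1, 1], .ref 79 [0, 1, 4] [1, 4, 3], .ref 80 [0, 1, 4] [1, 4, 3], .ref 974 [0, 1, 4, 2, 3] [1, 1, 1, 1, 1], .ref 80 [0, 1, 4] [1, 4, 1], .ref 79 [0, 1, 4] [1, 6, 1], .ref 80 [0, 1, 4] [1, 6, 1], .ref 975 [0, 1, 4, 2, 3] [0, 1, 1, 1, 1, 1]]),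
([s 3 1, g, m 1 0, s 0 2, g, s 2 0, g, p 0 3, g], .inner (.top 1) [.ref 944 [0, 1, 2, 3] [1, 1, 1], .ref 966 [0, 1, 2, 3] [1, 1, 1, 1], .ref 971 [0, 1, 2, 3] [1, 1, 1, 1], .ref 976 [0, 1, 2, 3] [1, 1, 1, 1]]),
([s 3 1, g, m 1 0, s 0 2, g, p 2 0, g, p 0 3, g], .leaf [2, 1, 6, 4, 1]),
([s 4 1, g, s 0 2, g, m 1 0, s 2 3, g, m 3 0, g, p 0 4, g], .leaf [2, 4, 1, 7, 5, 3, 1]),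
([s 0 1, g, m 0 2, g, m 1 0, s 2 3, g, m 3 0, g], .leaf [7, 1, 4, 2, 3]),
([s 0 1, g, m 1 2, s 2 3, g, m 3 0, g], .leaf [5, 1, 2, 0, 1]),
([s 4 1, g, m 1 0, s 3 2, g, s 0 3, g, m 2 0, g, p 0 4, g], .leaf [5, 1, 6, 4, 1, 5, 3]),
([s 0 1, g, m 1 0, s 3 2, g, p 0 3, g, m 2 0, g], .leaf [5, 1, 6, 4, 1]),
([s 4 1, g, m 1 0, s 3 2, g, m 2 0, g, s 0 3, g, p 0 4, g], .leaf [5, 1, 6, 4, 1, 5, 3]),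
([s 0 1, g, m 1 0, s 3 2, g, m 2 0, g, p 0 3, g], .leaf [5, 1, 6, 4, 1]),
([s 3 1, g, m 1 0, s 4 2, g, m 2 0, g, p 0 3, g, s 0 4, g], .leaf [5, 1, 8, 6, 1, 3, 1]),
([s 3 1, g, m 1 0, s 0 2, g, m 2 0, g, p 0 3, g], .inner (.lo 3) [.ref 979 [0, 1, 4, 2, 3] [1, 1, 1, 1, 1], .ref 131 [0, 1, 4] [1, 1, 5], .ref 980 [0, 1, 4, 2] [1, 1, 1, 3], .ref 981 [0, 1, 4, 2] [1, 1, 3], .ref 982 [0, 1, 2, 4, 3] [1, 1, 1, 1, 1], .ref 983 [0, 1, 2, 4] [1, 1, 1, 3], .ref 763 [0, 1, 4, 3] [1, 1, 3, 1], .cyc [3, 5], .ref 984 [0, 1, 2, 4, 3] [1, 1, 1, 1, 1], .ref 985 [0, 1, 2, 4] [1, 1, 1, 3], .ref 763 [0, 1, 4, 3] [1, 3, 1, 1], .ref 986 [0, 1, 2, 3, 4] [1, 1, 1, 1, 1], .ref 985 [0, 1, 2, 4] [1, 1, 3, 1], .ref 764 [0, 1, 3, 4] [1, 3, 1, 1]]),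
([s 3 1, g, m 1 0, s 0 2, g, p 2 3, g], .leaf [2, 1, 4, 2, 1]),
([s 4 1, s 0 2, g, m 1 0, s 2 3, g, p 0 4, g, s 3 0, g], .inner (.lo 1) [.ref 754 [0, 1, 2, 5, 4] [1, 1, 1, 3], .ref 832 [0, 1, 2, 5, 4] [1, 1, 1, 3], .ref 27 [0, 5, 4] [1, 4, 3], .ref 728 [0, 1, 5] [1, 6], .ref 843 [0, 1, 2, 5, 4] [1, 1, 1, 3], .ref 955 [0, 1, 2, 3, 5] [1, 1, 3, 1], .ref 27 [0, 5, 4] [4, 1, 3], .ref 851 [0, 1, 2, 4, 5] [1, 1, 1, 3], .ref 955 [0, 1, 2, 3, 5] [1, 3, 1, 1], .ref 30 [0, 4, 5] [4, 1, 3], .cyc [1, 4, 8], .ref 851 [0, 1, 2, 4, 5] [1, 1, 3, 1], .ref 916 [0, 1, 2, 4, 5] [1, 0, 1, 3, 1], .ref 30 [0, 4, 5] [4, 3, 1]]),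
([s 0 1, s 3 2, g, p 0 3, g, s 0 4, g, m 1 0, s 4 0, g, m 2 0, g], .leaf [10, 8, 3, 4, 6, 3]),
([s 4 1, s 2 0, g, p 0 2, g, s 0 3, g, m 1 0, s 3 0, g, p 0 4, g], .inner (.hi 1) [.ref 827 [0, 1, 5, 2, 4] [1, 1, 3, 2, 1], .ref 35 [0, 1, 5] [1, 5, 4], .ref 946 [0, 1, 5, 2, 4] [1, 1, 3, 2, 1], .cyc [1, 3], .ref 829 [0, 1, 5, 2, 4] [1, 1, 3, 2, 1], .ref 35 [0, 1, 5] [3, 3, 4], .ref 947 [0, 1, 5, 2, 4] [1, 1, 3, 2, 1], .ref 829 [0, 1, 5, 2, 4] [1, 1, 1, 2, 1], .ref 829 [0, 1, 5, 2, 4] [1, 3, 1, 2, 1], .ref 35 [0, 1, 5] [5, 1, 4], .ref 947 [0, 1, 5, 2, 4] [1, 3, 1, 2, 1], .ref 833 [0, 1, 5, 2, 4] [1, 3, 2, 1, 1], .ref 61 [0, 1, 5] [5, 2, 3], .ref 990 [0, 1, 5, 2, 3] [1, 1, 1, 1, 3], .ref 61 [0, 1, 5] [5, 2, 1], .ref 835 [0,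 1, 5, 2, 4] [1, 3, 2, 1, 1], .ref 61 [0, 1, 5] [5, 4, 1], .ref 990 [0, 1, 5, 2, 3] [1, 1, 1, 3, 1]]),
([s 4 1, s 3 0, g, s 0 2, g, p 0 3, g, m 1 0, s 2 0, g, p 0 4, g], .leaf [3, 7, 3, 8, 4, 5]),
([s 4 1, s 3 0, g, s 0 2, g, m 1 0, s 2 0, g, s 0 3, g, p 0 4, g], .leaf [3, 5, 1, 8, 6, 3]),
([s 0 1, s 4 0, g, s 0 2, g, m 1 0, s 2 3, g, p 0 4, g, s 3 0, g], .leaf [6, 2, 7, 2, 4, 5]),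
([s 4 1, s 0 0, g, s 0 2, g, m 1 0, s 2 3, g, p 0 4, g, s 3 0, g], .inner (.lo 1) [.cyc [1], .ref 757 [0, 1, 5, 2, 4] [1, 1, 1, 1, 3], .ref 991 [0, 1, 5, 2, 4] [1, 1, 1, 1, 3], .ref 27 [0, 5, 4] [1, 6, 3], .ref 755 [0, 1, 2, 5, 4] [1, 1, 1, 1, 3], .ref 992 [0, 1, 2, 5, 4] [1, 1, 1, 1, 3], .ref 27 [0, 5, 4] [3, 4, 3], .ref 728 [0, 1, 5] [3, 6], .ref 993 [0, 1, 2, 5, 4] [1, 1, 1, 1, 3], .ref 994 [0, 1, 2, 3, 5] [1, 1, 1, 3, 1], .ref 27 [0, 5, 4] [6, 1, 3], .ref 852 [0, 1, 2, 4, 5] [1, 1, 1, 1, 3], .ref 994 [0, 1, 2, 3, 5] [1, 1, 3, 1, 1], .ref 30 [0, 4, 5] [6, 1, 3], .ref 852 [0, 1, 2, 4, 5] [1, 1, 1, 1, 1], .ref 852 [0, 1, 2, 4, 5] [1, 1, 1, 3, 1], .ref 965 [0, 1, 4, 5] [3, 2, 3, 1], .ref 30 [0, 4, 5] [6, 3, 1]]),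
([s 4 1, p 2 0, g, p 0 2, g, s 0 3, g, m 1 0, s 3 0, g, p 0 4, g], .leaf [1, 10, 8, 1, 7, 2, 3]),
([s 4 1, p 3 0, g, s 0 2, g, p 0 3, g, m 1 0, s 2 0, g, p 0 4, g], .leaf [3, 7, 3, 8, 4, 5]),
([s 0 1, p 4 0, g, s 0 2, g, m 1 0, s 2 3, g, p 0 4, g, s 3 0, g], .leaf [6, 2, 7, 2, 4, 5]),
([s 0 1, p 4 0, g, s 0 2, g, m 1 0, s 2 3, g, s 3 0, g, p 0 4, g], .leaf [6, 2, 9, 4, 6, 3]),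
([s 4 1, p 0 0, g, s 0 2, g, m 1 0, s 2 3, g, p 0 4, g, s 3 0, g], .inner (.lo 1) [.cyc [1], .ref 64 [0, 5, 4] [1, 6, 3], .ref 996 [0, 1, 5, 2, 4] [1, 1, 1, 1, 3], .ref 66 [0, 5, 4] [1, 6, 3], .ref 64 [0, 5, 4] [3, 4, 3], .ref 997 [0, 1, 2, 5, 4] [1, 1, 1, 1, 3], .ref 66 [0, 5, 4] [3, 4, 3], .ref 744 [0, 1, 5] [3, 6], .ref 64 [0, 5, 4] [6, 1, 3], .ref 998 [0, 1, 2, 3, 5] [1, 1, 1, 3, 1], .ref 66 [0, 5, 4] [6, 1, 3], .ref 68 [0, 4, 5] [6, 1, 3], .ref 998 [0, 1, 2, 3, 5] [1, 1, 3, 1, 1], .ref 70 [0, 4, 5] [6, 1, 3], .ref 68 [0, 4, 5] [6, 1, 1], .ref 68 [0, 4, 5] [6, 3, 1], .ref 999 [0, 1, 2, 3, 5] [1, 1, 3, 1, 1], .ref 70 [0, 4, 5] [6, 3, 1]]),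
([s 4 1, m 0 2, g, m 2 0, g, s 0 3, g, m 1 0, s 3 0, g, p 0 4, g], .leaf [1, 10, 8, 1, 7, 2, 3]),
([s 4 1, m 0 2, g, s 0 3, g, m 2 0, g, m 1 0, s 3 0, g, p 0 4, g], .leaf [3, 7, 3, 8, 4, 5]),
([s 0 1, m 0 2, g, s 0 3, g, m 1 0, s 3 4, g, m 2 0, g, s 4 0, g], .leaf [6, 2, 7, 2, 4, 5]),
([s 0 1, m 0 2, g, s 0 3, g, m 1 0, s 3 4, g, s 4 0, g, m 2 0, g], .leaf [6, 2, 9, 4, 6, 3]),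
([s 4 1, m 0 0, g, s 0 2, g, m 1 0, s 2 3, g, p 0 4, g, s 3 0, g], .inner (.hi 1) [.cyc [1], .ref 73 [0, 1, 5] [1, 3, 6], .ref 74 [0, 1, 5] [1, 3, 6], .ref 1001 [0, 1, 5, 2, 4] [1, 1, 1, 1, 3], .ref 73 [0, 1, 5] [1, 1, 6], .ref 73 [0, 1, 5] [3, 1, 6], .ref 74 [0, 1, 5] [3, 1, 6], .ref 1002 [0, 1, 5, 2, 4] [1, 1, 1, 1, 3], .ref 79 [0, 1, 5] [3, 2, 5], .ref 80 [0, 1, 5] [3, 2, 5], .ref 1003 [0, 1, 5, 2, 3] [1, 1, 1, 3, 1], .ref 80 [0, 1, 5] [3, 2, 3], .ref 79 [0, 1, 5] [3, 4, 3], .ref 80 [0, 1, 5] [3, 4, 3], .ref 1003 [0, 1, 5, 2, 3] [1, 1, 3, 1, 1], .ref 79 [0, 1, 5] [3, 6, 1], .ref 80 [0, 1, 5] [3, 6, 1], .ref 1004 [0, 1, 5, 2, 3] [1, 1, 3, 1, 1]]),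
([s 4 1, g, s 0 2, g, m 1 0, s 2 3, g, p 0 4, g, s 3 0, g], .inner (.top 1) [.ref 989 [0, 1, 2, 3, 4] [1, 1, 1, 1], .ref 995 [0, 1, 2, 3, 4] [1, 1, 1, 1, 1], .ref 1000 [0, 1, 2, 3, 4] [1, 1, 1, 1, 1], .ref 1005 [0, 1, 2, 3, 4] [1, 1, 1, 1, 1]]),
([s 4 1, g, m 0 2, g, m 1 0, s 2 3, g, p 0 4, g, s 3 0, g], .leaf [4, 3, 8, 3, 6, 2, 3]),
([s 4 1, g, m 1 2, s 2 3, g, p 0 4, g, s 3 0, g], .leaf [2, 1, 6, 3, 4, 0, 1]),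
([s 0 1, m 1 2, s 4 3, g, m 2 0, g, s 0 4, g, s 3 0, g], .leaf [6, 3, 7, 3, 0, 3]),
([s 4 1, m 1 2, s 3 0, g, s 0 3, g, m 2 0, g, p 0 4, g], .leaf [3, 8, 4, 5, 0, 1]),
([s 0 1, m 1 2, s 4 3, g, s 0 4, g, m 2 0, g, s 3 0, g], .leaf [2, 7, 3, 5, 0, 1]),
([s 4 1, g, m 1 2, s 3 0, g, s 0 3, g, p 0 4, g, m 2 0, g], .leaf [2, 1, 6, 4, 1, 5, 1]),
([s 4 1, m 1 0, s 3 2, g, s 0 3, g, p 0 4, g, s 2 0, g], .inner (.hi 1) [.ref 939 [0, 1, 5] [2, 7], .ref 940 [0, 1, 5] [2, 7], .ref 1009 [0, 1, 5, 2, 3] [1, 1, 3, 1], .ref 939 [0, 1, 5] [2, 5], .ref 939 [0, 1, 5] [4, 5], .ref 940 [0, 1, 5] [4, 5], .ref 1010 [0, 1, 5, 3, 4] [1, 1, 1, 3], .cyc [0, 1, 6], .ref 939 [0, 1, 5] [6, 3], .ref 940 [0, 1, 5] [6, 3], .ref 1011 [0, 1, 5, 2, 3] [1,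 3, 1, 1], .ref 939 [0, 1, 5] [8, 1], .ref 940 [0, 1, 5] [8, 1], .ref 1012 [0, 1, 5, 3, 4] [0, 1, 1, 3, 1]]),
([s 4 1, s 2 0, g, s 0 2, g, m 1 0, s 3 0, g, s 0 3, g, p 0 4, g], .leaf [2, 10, 7, 7, 4, 1]),
([s 0 1, s 0 2, g, m 1 0, s 4 3, g, m 2 0, g, s 0 4, g, s 3 0, g], .leaf [8, 3, 9, 5, 2, 5]),
([s 4 1, s 0 2, g, m 1 0, s 3 0, g, s 0 3, g, m 2 0, g, p 0 4, g], .leaf [5, 10, 4, 7, 2, 3]),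
([s 5 1, s 2 0, g, p 0 2, g, m 1 0, s 4 3, g, s 0 4, g, p 0 5, g, s 3 0, g], .inner (.hi 1) [.ref 827 [0, 1, 6, 2, 5] [1, 1, 1, 4, 3], .ref 35 [0, 1, 6] [1, 3, 8], .ref 946 [0, 1, 6, 2, 5] [1, 1, 1, 4, 3], .cyc [1, 3], .ref 829 [0, 1, 6, 2, 5] [1, 1, 1, 4, 3], .ref 35 [0, 1, 6] [3, 1, 8], .ref 947 [0, 1, 6, 2, 5] [1, 1, 1, 4, 3], .ref 833 [0, 1, 6, 2, 5] [1, 1, 2, 3, 3], .ref 61 [0, 1, 6] [3, 2, 7], .ref 1015 [0, 1, 6, 3, 4] [3, 1, 1, 3, 1], .ref 833 [0, 1, 6, 2, 5] [1, 1, 2, 1, 3], .ref 833 [0, 1, 6, 2, 5] [1, 1, 4, 1, 3], .ref 61 [0, 1, 6] [3, 4, 5], .ref 1016 [0, 1, 6, 4, 5] [3, 1, 1, 1, 3], .ref 61 [0, 1, 6] [3, 4, 3], .ref 835 [0, 1, 6, 2, 5] [1, 1, 4, 1, 3], .ref 61 [0, 1, 6] [3, 6, 3], .ref 950 [0, 1, 6, 2, 5]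 [1, 1, 4, 1, 3], .ref 835 [0, 1, 6, 2, 5] [1, 1, 4, 3, 1], .ref 61 [0, 1, 6] [3, 8, 1], .ref 950 [0, 1, 6, 2, 5] [1, 1, 4, 3, 1]]),
([s 4 1, s 2 0, g, m 1 0, s 3 0, g, s 0 2, g, s 0 3, g, p 0 4, g], .leaf [7, 10, 2, 5, 2, 5]),
([s 0 1, s 3 0, g, m 1 0, s 4 2, g, p 0 3, g, s 0 4, g, s 2 0, g], .leaf [8, 3, 9, 5, 2, 5]),
([s 4 1, s 3 0, g, m 1 0, s 2 0, g, s 0 2, g, s 0 3, g, p 0 4, g], .leaf [5, 10, 4, 7, 2, 3]),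
([s 4 1, s 3 0, g, m 1 0, s 2 0, g, s 0 2, g, p 0 3, g, p 0 4, g], .leaf [5, 10, 4, 7, 2, 3]),
([s 3 1, s 4 0, g, m 1 0, s 2 0, g, s 0 2, g, p 0 3, g, s 0 4, g], .leaf [5, 8, 2, 5, 2, 5]),
([s 4 1, s 0 0, g, m 1 0, s 3 2, g, s 0 3, g, p 0 4, g, s 2 0, g], .inner (.lo 1) [.cyc [1], .ref 1014 [0, 1, 5, 3, 4] [1, 1, 1, 1, 3], .ref 1017 [0, 1, 5, 2, 3, 4] [1, 1, 1, 1, 1, 1], .ref 27 [0, 5, 4] [1, 6, 3], .ref 728 [0, 1, 5] [1, 8], .ref 1018 [0, 1, 5, 3, 4] [1, 1, 1, 1, 3], .ref 1019 [0, 1, 2, 5, 3] [1, 1, 1, 3, 1], .ref 27 [0, 5, 4] [4, 3, 3], .ref 1020 [0, 1, 3, 5, 4] [1, 1, 1, 1, 3], .ref 1021 [0, 1, 3, 5, 4] [1, 1, 1, 1, 3], .ref 27 [0, 5, 4] [6, 1, 3], .ref 1022 [0, 1, 3, 4, 5] [1, 1, 1, 1, 3], .ref 965 [0, 1, 4, 5] [1,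 4, 1, 3], .ref 30 [0, 4, 5] [6, 1, 3], .ref 1022 [0, 1, 3, 4, 5] [1, 1, 1, 1, 1], .ref 1022 [0, 1, 3, 4, 5] [1, 1, 1, 3, 1], .ref 965 [0, 1, 4, 5] [1, 4, 3, 1], .ref 30 [0, 4, 5] [6, 3, 1]])]

def D03 : List (List (List Item × Pf)) := [d03_0, d03_1, d03_2, d03_3]

end Pool.Agent.H63.PU.C138
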