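import Pool.Agent.H63.PU.Short

/-! Certificate data, machine generated. -/

namespace Pool.Agent.H63.PU.C138

open Pool.Agent.H63.PU Pool.Agent.H63.PU.Short

set_option maxRecDepth 20000

def d04_0 : List (List Item × Pf) := [
([s 4 1, p 2 0, g, p 0 2, g, m 1 0, s 3 0, g, s 0 3, g, p 0 4, g], .leaf [1, 10, 8, 1, 7, 4, 1]),
([s 0 1, p 3 0, g, m 1 0, s 4 2, g, p 0 3, g, s 0 4, g, s 2 0, g], .leaf [8, 3, 9, 5, 2, 5]),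
([s 4 1, p 3 0, g, m 1 0, s 2 0, g, s 0 2, g, p 0 3, g, p 0 4, g], .leaf [5, 10, 4, 7, 2, 3]),
([s 0 1, p 4 0, g, m 1 0, s 3 2, g, s 0 3, g, p 0 4, g, s 2 0, g], .leaf [4, 9, 3, 7, 2, 3]),
([s 3 1, g, p 4 0, g, m 1 0, s 2 0, g, s 0 2, g, p 0 3, g, p 0 4, g], .leaf [4, 3, 8, 4, 1, 7, 1]),
([s 4 1, p 0 0, g, m 1 0, s 3 2, g, s 0 3, g, p 0 4, g, s 2 0, g], .inner (.lo 1) [.cyc [1], .ref 64 [0, 5, 4] [1, 6, 3], .ref 1024 [0, 1, 5, 3, 4] [1, 1, 1, 1, 3], .ref 66 [0, 5, 4] [1, 6, 3], .ref 744 [0, 1, 5] [1, 8], .ref 64 [0, 5, 4] [4, 3, 3], .ref 1025 [0, 1, 2, 5, 3] [1, 1, 1, 3, 1], .ref 66 [0, 5, 4] [4, 3, 3], .ref 64 [0, 5, 4] [6, 1, 3], .ref 1026 [0, 1, 3, 5, 4] [1, 1, 1, 1, 3], .ref 66 [0, 5, 4] [6, 1, 3], .ref 68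 [0, 4, 5] [6, 1, 3], .ref 1027 [0, 1, 2, 3, 5] [1, 1, 3, 1, 1], .ref 70 [0, 4, 5] [6, 1, 3], .ref 68 [0, 4, 5] [6, 1, 1], .ref 68 [0, 4, 5] [6, 3, 1], .ref 1028 [0, 1, 3, 4, 5] [0, 1, 1, 1, 3, 1], .ref 70 [0, 4, 5] [6, 3, 1]]),
([s 4 1, m 0 2, g, m 2 0, g, m 1 0, s 3 0, g, s 0 3, g, p 0 4, g], .leaf [1, 10, 8, 1, 7, 4, 1]),
([s 0 1, m 0 2, g, m 1 0, s 4 3, g, m 2 0, g, s 0 4, g, s 3 0, g], .leaf [8, 3, 9, 5, 2, 5]),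
([s 4 1, m 0 2, g, m 1 0, s 3 0, g, s 0 3, g, m 2 0, g, p 0 4, g], .leaf [5, 10, 4, 7, 2, 3]),
([s 0 1, m 0 2, g, m 1 0, s 4 3, g, s 0 4, g, m 2 0, g, s 3 0, g], .leaf [4, 9, 3, 7, 2, 3]),
([s 4 1, g, m 0 2, g, m 1 0, s 3 0, g, s 0 3, g, p 0 4, g, m 2 0, g], .leaf [4, 3, 8, 4, 1, 7, 1]),
([s 4 1, m 0 0, g, m 1 0, s 3 2, g, s 0 3, g, p 0 4, g, s 2 0, g], .inner (.hi 1) [.cyc [1], .ref 73 [0, 1, 5] [1, 1, 8], .ref 74 [0, 1, 5] [1, 1, 8], .ref 1030 [0, 1, 5, 3, 4] [1, 1, 1, 1, 3], .ref 79 [0, 1, 5] [1, 2, 7], .ref 80 [0, 1, 5] [1, 2, 7], .ref 1031 [0, 1, 5, 2, 3] [1, 1, 1, 3, 1], .ref 79 [0, 1, 5] [1, 2, 5], .ref 79 [0, 1, 5] [1, 4, 5], .ref 80 [0, 1, 5] [1, 4, 5], .ref 1032 [0, 1, 5, 3, 4] [1, 1, 1, 1, 3], .ref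 80 [0, 1, 5] [1, 4, 3], .ref 79 [0, 1, 5] [1, 6, 3], .ref 80 [0, 1, 5] [1, 6, 3], .ref 1033 [0, 1, 5, 2, 3] [1, 1, 3, 1, 1], .ref 79 [0, 1, 5] [1, 8, 1], .ref 80 [0, 1, 5] [1, 8, 1], .ref 1034 [0, 1, 5, 3, 4] [0, 1, 1, 1, 3, 1]]),
([s 4 1, g, m 1 0, s 3 2, g, s 0 3, g, p 0 4, g, s 2 0, g], .inner (.top 1) [.ref 1013 [0, 1, 2, 3, 4] [1, 1, 1, 1], .ref 1023 [0, 1, 2, 3, 4] [1, 1, 1, 1, 1], .ref 1029 [0, 1, 2, 3, 4] [1, 1, 1, 1, 1], .ref 1035 [0, 1, 2, 3, 4] [1, 1, 1, 1, 1]]),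
([s 4 1, g, m 1 0, s 3 2, g, p 0 3, g, p 0 4, g, s 2 0, g], .leaf [5, 1, 8, 6, 1, 3, 1]),
([s 3 1, g, s 0 2, g, m 1 0, s 4 0, g, p 0 3, s 2 4, g], .leaf [8, 5, 7, 5, 2, 3]),
([s 3 1, g, m 1 2, g, p 0 3, s 2 0, g], .leaf [1, 2, 0, 2, 1]),
([s 4 1, g, m 1 0, s 5 2, g, s 0 3, g, p 0 4, s 3 5, g, s 2 0, g], .leaf [2, 1, 7, 2, 7, 2, 4, 1]),
([s 3 1, g, m 1 0, g, s 4 0, g, m 0 2, g, p 0 3, s 2 4, g], .leaf [4, 8, 3, 5, 1, 5, 1]),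
([s 3 1, g, m 1 0, s 4 2, g, p 0 3, s 5 4, g, s 0 5, g, s 2 0, g], .leaf [2, 1, 5, 2, 7, 4, 4, 1]),
([s 2 1, g, m 1 0, g, s 3 0, g, p 0 2, s 4 3, g, p 0 4, g], .leaf [2, 1, 8, 1, 4, 2, 3]),
([s 2 1, g, m 1 0, g, s 3 0, g, p 0 2, s 4 3, g, m 0 4, g], .leaf [4, 6, 1, 3, 1, 3, 3]),
([s 3 1, g, m 1 0, s 4 2, g, p 0 3, s 5 4, g, s 2 0, g, s 0 5, g], .leaf [2, 1, 5, 2, 5, 2, 2, 3]),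
([s 3 1, g, m 1 0, s 4 2, g, p 0 3, s 0 4, g, s 2 0, g], .inner (.lo 6) [.ref 1038 [0, 1, 5, 3, 4] [1, 1, 1, 3], .ref 84 [0, 5, 3] [1, 4, 3], .ref 790 [0, 1, 5, 3] [1, 1, 2, 3], .ref 1039 [0, 1, 5, 3] [1, 2, 3], .ref 1040 [0, 1, 2, 5, 3, 4] [1, 1, 1, 1, 1], .ref 84 [0, 5, 3] [4, 1, 3], .ref 1041 [0, 1, 5, 3, 4] [1, 0, 1, 1, 3], .ref 1042 [0, 1, 2, 3, 4, 5] [1, 1, 1, 1, 1], .ref 1043 [0, 1, 3, 4, 5] [1, 0, 1, 1, 3], .ref 1044 [0, 1, 3, 4, 5] [1, 0, 1, 1, 3], .cyc [3, 8, 6], .ref 1045 [0, 1, 2, 3, 4, 5] [1, 1, 1, 1, 1], .ref 1043 [0, 1, 3, 4, 5] [1, 0, 1, 3, 1], .ref 1044 [0, 1, 3, 4, 5] [1, 0, 1, 3, 1]]),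
([s 3 1, g, s 0 2, g, m 1 0, s 4 0, g, p 0 3, g, s 2 0, s 0 4, g], .leaf [4, 3, 6, 2, 6, 1]),
([s 2 1, g, s 3 0, g, m 1 0, s 4 0, g, p 0 2, g, s 0 3, s 0 4, g], .leaf [4, 3, 6, 2, 6, 1]),
([s 2 1, g, p 3 0, g, m 1 0, s 4 0, g, p 0 2, g, s 0 3, s 0 4, g], .leaf [4, 3, 6, 2, 6, 1]),
([s 0 1, g, m 4 0, g, p 0 2, g, m 1 0, s 5 3, g, s 2 4, s 0 5, g, s 3 0, g], .leaf [7, 11, 6, 3, 6, 2, 6, 1]),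
([s 0 1, g, p 0 2, g, m 4 0, g, m 1 0, s 5 3, g, s 2 4, s 0 5, g, s 3 0, g], .leaf [7, 11, 6, 3, 6, 2, 6, 1]),
([s 2 1, g, m 1 0, s 4 0, g, s 3 0, g, p 0 2, g, s 0 3, s 0 4, g], .leaf [2, 1, 6, 4, 6, 3]),
([s 0 1, g, p 0 2, g, m 1 0, s 5 3, g, p 4 0, g, s 2 4, s 0 5, g, s 3 0, g], .leaf [5, 11, 4, 1, 6, 4, 6, 3]),
([s 2 1, g, m 1 0, s 4 0, g, m 3 0, g, p 0 2, g, s 0 3, s 0 4, g], .leaf [2, 1, 6, 4, 6, 3]),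
([s 2 1, g, m 1 0, s 4 0, g, p 0 2, g, s 3 0, g, s 0 3, s 0 4, g], .leaf [2, 1, 4, 2, 6, 1]),
([s 2 1, g, m 1 0, s 4 0, g, p 0 2, g, m 3 0, g, s 0 3, s 0 4, g], .leaf [2, 1, 4, 2, 6, 1]),
([s 0 1, g, p 0 2, g, m 1 0, s 4 0, g, s 2 3, s 0 4, g, s 3 0, g], .leaf [2, 6, 9, 2, 6, 1]),
([s 2 1, g, m 1 0, s 4 0, g, p 0 2, g, s 0 3, s 0 4, g, p 3 0, g], .leaf [2, 1, 4, 2, 4, 5]),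
([s 0 1, g, p 0 2, g, m 1 0, s 4 0, g, s 2 3, s 0 4, g, m 3 0, g], .leaf [2, 6, 9, 2, 6, 1]),
([s 4 1, g, p 0 2, g, m 1 0, s 5 3, g, p 0 4, g, s 2 0, s 0 5, g, s 3 0, g], .inner (.hi 9) [.ref 1048 [0, 1, 4, 6, 5] [1, 3, 1, 1, 3], .ref 1049 [0, 1, 4, 6, 5] [1, 3, 1, 1, 3], .ref 1050 [0, 1, 2, 3, 6, 5] [1, 1, 1, 3, 1, 1], .cyc [2, 9], .ref 1048 [0, 1, 4, 6, 5] [3, 1, 1, 1, 3], .ref 1049 [0, 1, 4, 6, 5] [3, 1, 1, 1, 3], .ref 1051 [0, 1, 2, 3, 6, 5] [1, 1, 1, 3, 1, 1], .ref 1052 [0, 1, 4, 6, 5] [3, 1, 1, 1, 3], .ref 1053 [0, 1, 2, 3, 6, 5] [1, 1, 1, 3, 1, 1], .ref 1054 [0, 1, 4, 6, 5] [3, 1, 1, 1, 3], .ref 1053 [0, 1, 2, 3, 6, 5] [1, 1, 1, 1, 1, 1], .ref 1055 [0, 1, 4, 6, 5] [3, 1, 1, 1, 3], .ref 1053 [0, 1, 2, 3,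 6, 5] [1, 1, 3, 1, 1, 1], .ref 1056 [0, 1, 4, 6, 5] [3, 1, 1, 1, 3], .contra, .ref 1057 [0, 1, 2, 6, 5] [1, 1, 3, 1, 3], .ref 1058 [0, 1, 4, 6, 5] [3, 1, 1, 1, 3], .ref 1059 [0, 1, 2, 6, 5] [1, 1, 3, 1, 3], .ref 1057 [0, 1, 2, 6, 5] [1, 1, 3, 3, 1], .ref 1058 [0, 1, 4, 6, 5] [3, 1, 1, 3, 1], .ref 1059 [0, 1, 2, 6, 5] [1, 1, 3, 3, 1]]),
([s 3 1, g, m 0 2, g, m 1 0, s 4 0, g, p 0 3, g, s 2 0, s 0 4, g], .leaf [4, 3, 6, 2, 6, 1]),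
([s 3 1, g, m 1 2, s 4 0, g, p 0 3, g, s 2 0, s 0 4, g], .leaf [2, 1, 4, 2, 4, 1]),
([s 3 1, g, m 1 0, s 4 0, g, s 0 2, g, p 0 3, g, s 2 0, s 0 4, g], .leaf [2, 1, 6, 4, 6, 3]),
([s 3 1, g, m 1 0, s 4 0, g, p 0 2, g, p 0 3, g, s 2 0, s 0 4, g], .leaf [2, 1, 6, 4, 6, 3]),
([s 0 1, g, m 4 0, g, m 1 0, s 5 2, g, m 0 3, g, s 3 4, s 0 5, g, s 2 0, g], .leaf [5, 11, 4, 1, 6, 4, 6, 3]),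
([s 0 1, g, m 1 0, s 5 2, g, p 4 0, g, m 0 3, g, s 3 4, s 0 5, g, s 2 0, g], .leaf [3, 11, 4, 1, 4, 2, 6, 1]),
([s 0 1, g, m 1 0, s 5 2, g, m 0 3, g, p 4 0, g, s 3 4, s 0 5, g, s 2 0, g], .leaf [3, 11, 4, 1, 4, 2, 6, 1]),
([s 2 1, g, m 1 0, s 4 0, g, p 0 2, g, s 0 3, s 0 4, g, s 3 0, g], .leaf [2, 1, 4, 2, 4, 5]),
([s 3 1, g, m 1 0, s 5 0, g, m 0 2, g, p 0 3, g, s 2 4, s 0 5, g, m 4 0, g], .leaf [4, 7, 2, 6, 9, 2, 6, 1]),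
([s 4 1, g, m 1 0, s 5 2, g, m 0 3, g, p 0 4, g, s 3 0, s 0 5, g, s 2 0, g], .inner (.hi 9) [.ref 1048 [0, 1, 4, 6, 5] [1, 1, 3, 1, 3], .ref 1049 [0, 1, 4, 6, 5] [1, 1, 3, 1, 3], .ref 1065 [0, 1, 2, 3, 6, 5] [1, 1, 1, 3, 1, 1], .ref 1052 [0, 1, 4, 6, 5] [1, 1, 3, 1, 3], .ref 1066 [0, 1, 2, 3, 6, 5] [1, 1, 1, 3, 1, 1], .ref 1054 [0, 1, 4, 6, 5] [1, 1, 3, 1, 3], .cyc [5, 9], .ref 1052 [0, 1, 4, 6, 5] [1, 3, 1, 1, 3], .ref 1067 [0, 1, 2, 3, 6, 5] [1, 1, 1, 3, 1, 1], .ref 1054 [0, 1, 4, 6, 5] [1, 3, 1, 1, 3], .ref 1067 [0, 1, 2, 3, 6, 5] [1, 1, 1, 1, 1, 1], .ref 1055 [0, 1, 4, 6, 5] [1, 3, 1, 1, 3], .ref 1067 [0, 1, 2, 3, 6, 5] [1, 1, 3, 1, 1, 1], .ref 1056 [0, 1, 4, 6, 5] [1, 3, 1, 1, 3], .contra, .ref 1068 [0, 1,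 4, 6, 5] [1, 3, 1, 1, 3], .ref 1058 [0, 1, 4, 6, 5] [1, 3, 1, 1, 3], .ref 1069 [0, 1, 3, 4, 6, 5] [1, 1, 1, 1, 1, 3], .ref 1068 [0, 1, 4, 6, 5] [1, 3, 1, 3, 1], .ref 1058 [0, 1, 4, 6, 5] [1, 3, 1, 3, 1], .ref 1069 [0, 1, 3, 4, 6, 5] [1, 1, 1, 1, 3, 1]]),
([s 2 1, g, m 1 0, s 4 0, g, p 0 2, g, s 0 3, g, s 3 0, s 0 4, g], .leaf [2, 1, 4, 2, 6, 1]),
([s 2 1, g, m 1 0, s 4 0, g, p 0 2, g, p 0 3, g, s 3 0, s 0 4, g], .leaf [2, 1, 4, 2, 6, 1]),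
([s 2 1, g, m 1 0, s 5 0, g, p 0 2, g, m 0 3, g, s 3 4, s 0 5, g, m 4 0, g], .leaf [6, 12, 2, 7, 1, 8, 6, 1]),
([s 3 1, g, m 1 0, s 5 2, g, p 0 3, g, m 0 4, g, s 4 0, s 0 5, g, s 2 0, g], .inner (.hi 9) [.ref 1048 [0, 1, 3, 6, 5] [1, 1, 1, 3, 3], .ref 1049 [0, 1, 3, 6, 5] [1, 1, 1, 3, 3], .ref 1065 [0, 1, 2, 4, 6, 5] [1, 1, 3, 1, 1, 1], .ref 1052 [0, 1, 3, 6, 5] [1, 1, 1, 3, 3], .ref 1066 [0, 1, 2, 4, 6, 5] [1, 1, 3, 1, 1, 1], .ref 1054 [0, 1, 3, 6, 5] [1, 1, 1, 3, 3], .ref 1066 [0, 1, 2, 4, 6, 5] [1, 1, 1, 1, 1, 1], .ref 1055 [0, 1, 3, 6, 5] [1, 1, 1, 3, 3], .ref 1066 [0, 1, 2, 4, 6, 5] [1, 3, 1, 1, 1, 1], .ref 1056 [0, 1, 3, 6, 5] [1, 1, 1, 3, 3], .cyc [7, 9], .ref 1055 [0, 1, 3, 6, 5] [1, 1, 3, 1, 3], .ref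 1067 [0, 1, 2, 4, 6, 5] [1, 3, 1, 1, 1, 1], .ref 1056 [0, 1, 3, 6, 5] [1, 1, 3, 1, 3], .contra, .ref 1068 [0, 1, 3, 6, 5] [1, 1, 3, 1, 3], .ref 1058 [0, 1, 3, 6, 5] [1, 1, 3, 1, 3], .ref 1073 [0, 1, 3, 4, 6, 5] [1, 1, 1, 1, 1, 3], .ref 1068 [0, 1, 3, 6, 5] [1, 1, 3, 3, 1], .ref 1058 [0, 1, 3, 6, 5] [1, 1, 3, 3, 1], .ref 1073 [0, 1, 3, 4, 6, 5] [1, 1, 1, 1, 3, 1]]),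
([s 2 1, g, m 1 0, s 3 0, g, p 0 2, g, s 4 0, s 0 3, g, s 0 4, g], .leaf [2, 1, 4, 2, 4, 5]),
([s 0 1, g, m 1 0, s 3 2, g, s 4 0, s 0 3, g, p 0 4, g, s 2 0, g], .leaf [8, 2, 3, 8, 4, 1]),
([s 2 1, g, m 1 0, s 3 0, g, p 0 2, g, s 4 0, s 0 3, g, m 0 4, g], .leaf [2, 1, 4, 2, 4, 5]),
([s 3 1, g, m 1 0, s 4 2, g, p 0 3, g, s 5 0, s 0 4, g, s 2 0, g, p 0 5, g], .leaf [2, 1, 11, 4, 7, 1, 6, 1]),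
([s 3 1, g, m 1 0, s 4 2, g, p 0 3, g, s 0 0, s 0 4, g, s 2 0, g], .inner (.lo 7) [.ref 1047 [0, 1, 5, 3, 4] [1, 1, 1, 1, 3], .ref 1060 [0, 1, 5, 2, 3, 4] [1, 1, 1, 1, 1, 1], .ref 1061 [0, 1, 5, 3, 4] [1, 1, 1, 1, 3], .ref 1062 [0, 1, 5, 3, 4] [1, 1, 1, 3], .ref 1063 [0, 1, 5, 3, 4] [1, 1, 1, 1, 3], .ref 1064 [0, 1, 5, 3, 4] [1, 1, 1, 1, 3], .ref 1070 [0, 1, 2, 5, 3, 4] [1, 1, 1, 1, 1, 1], .ref 1071 [0, 1, 3, 5, 4] [1, 1, 1, 1, 3], .ref 1072 [0, 1, 3, 5, 4] [1, 1, 1, 1, 3], .ref 1074 [0, 1, 2, 3, 5, 4] [1, 1, 1, 1, 1, 1], .cyc [7], .ref 1075 [0, 1, 3, 4, 5] [1, 1, 1, 1, 3], .ref 1076 [0, 1, 2, 4, 5] [1, 3, 1, 1, 1], .ref 1077 [0, 1, 3, 4, 5] [1, 1, 1, 1, 3], .ref 1075 [0, 1, 3, 4, 5] [1, 1, 1, 1, 1], .ref 1075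 [0, 1, 3, 4, 5] [1, 1, 1, 3, 1], .ref 1078 [0, 1, 2, 3, 4, 5] [1, 1, 1, 1, 1, 1], .ref 1077 [0, 1, 3, 4, 5] [1, 1, 1, 3, 1]]),
([s 2 1, g, s 3 0, g, m 1 0, s 4 0, g, p 0 2, g, p 0 3, s 0 4, g], .leaf [4, 3, 6, 2, 6, 1]),
([s 2 1, g, m 1 0, s 4 0, g, s 3 0, g, p 0 2, g, p 0 3, s 0 4, g], .leaf [2, 1, 6, 4, 6, 3]),
([s 2 1, g, m 1 0, s 4 0, g, p 3 0, g, p 0 2, g, p 0 3, s 0 4, g], .leaf [9, 6, 9, 4, 6, 4, 1]),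
([s 2 1, g, m 1 0, s 4 0, g, p 3 2, g, p 0 3, s 0 4, g], .leaf [7, 4, 7, 4, 4, 2, 1]),
([s 2 1, g, m 1 0, s 4 0, g, p 0 2, g, s 3 0, g, p 0 3, s 0 4, g], .leaf [2, 1, 4, 2, 6, 1]),
([s 3 1, g, s 0 2, g, m 1 0, s 5 0, g, p 0 3, g, p 4 0, g, p 2 4, s 0 5, g], .leaf [8, 6, 9, 2, 5, 7, 2, 3]),
([s 3 1, g, m 0 2, g, m 1 0, s 4 0, g, p 0 3, g, p 2 0, g, s 0 4, g], .leaf [4, 3, 6, 2, 7, 1, 1]),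
([s 3 1, g, m 1 2, s 4 0, g, p 0 3, g, p 2 0, g, s 0 4, g], .leaf [2, 1, 4, 2, 5, 1, 1])]

def d04_1 : List (List Item × Pf) := [
([s 4 1, g, m 1 0, s 6 2, g, s 0 3, g, p 0 4, g, p 5 0, g, p 3 5, s 0 6, g, s 2 0, g], .leaf [3, 13, 2, 6, 1, 6, 4, 2, 6, 1]),
([s 3 1, g, m 1 0, s 4 0, g, m 0 2, g, p 0 3, g, p 2 0, g, s 0 4, g], .leaf [2, 1, 6, 4, 7, 5, 3]),
([s 0 1, g, s 0 2, g, m 1 0, s 5 0, g, s 0 3, g, p 4 0, g, p 3 4, s 2 5, g], .leaf [7, 10, 11, 5, 7, 5, 2, 5]),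
([s 3 1, g, p 0 2, g, m 1 0, s 4 0, g, p 0 3, g, s 2 4, g], .leaf [2, 8, 8, 4, 1, 5, 3]),
([s 0 1, g, m 0 2, g, m 1 0, s 4 0, g, p 3 0, g, p 0 3, s 2 4, g], .leaf [1, 7, 9, 6, 2, 4, 5]),
([s 0 1, g, m 1 2, s 4 0, g, p 3 0, g, p 0 3, s 2 4, g], .leaf [1, 5, 7, 4, 0, 2, 3]),
([s 3 1, g, m 1 0, s 6 0, g, s 0 2, g, p 0 3, g, s 0 4, g, p 5 0, g, p 4 5, s 2 6, g], .leaf [4, 9, 11, 12, 8, 1, 4, 2, 4, 5]),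
([s 0 1, g, m 1 0, g, p 0 2, g, s 0 3, g, p 4 0, g, p 3 4, s 2 0, g], .leaf [6, 9, 5, 1, 5, 6, 3]),
([s 3 1, g, m 1 0, s 4 0, g, m 0 2, g, p 0 3, g, s 2 4, g], .leaf [2, 1, 6, 4, 5, 5, 1]),
([s 2 1, g, m 1 0, s 6 0, g, p 0 2, g, s 0 3, g, s 0 4, g, p 5 0, g, p 4 5, s 3 6, g], .leaf [6, 9, 11, 12, 6, 1, 7, 5, 2, 5]),
([s 2 1, g, m 1 0, s 4 0, g, p 0 2, g, m 0 3, g, s 3 4, g], .leaf [2, 1, 4, 2, 5, 5, 3]),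
([s 2 1, g, m 1 0, s 6 0, g, p 0 2, g, s 0 3, g, s 0 4, g, p 5 0, g, p 3 5, s 4 6, g], .leaf [2, 1, 6, 10, 11, 7, 4, 2, 4, 5]),
([s 2 1, g, m 1 0, s 6 0, g, p 0 2, g, s 0 3, g, p 0 4, g, p 5 0, g, p 3 5, s 4 6, g], .leaf [12, 14, 4, 1, 5, 3, 4, 6, 2, 5]),
([s 2 1, g, m 1 0, s 5 0, g, p 0 2, g, s 0 3, g, p 4 0, g, p 3 4, s 6 5, g, s 0 6, g], .leaf [10, 12, 4, 1, 5, 3, 4, 8, 4, 1]),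
([s 2 1, g, m 1 0, s 3 0, g, p 0 2, g, s 4 3, g, p 0 4, g], .leaf [2, 1, 4, 2, 3, 5, 1]),
([s 2 1, g, m 1 0, s 3 0, g, p 0 2, g, s 4 3, g, m 0 4, g], .leaf [2, 1, 4, 2, 3, 3, 3]),
([s 2 1, g, m 1 0, s 5 0, g, p 0 2, g, s 0 3, g, p 4 0, g, p 3 4, s 0 5, g], .inner (.lo 12) [.ref 1090 [0, 1, 6, 3, 4, 5] [1, 1, 3, 1, 1, 1], .ref 1091 [0, 1, 6, 2, 5] [1, 1, 1, 6, 1], .ref 1092 [0, 1, 6, 4, 5] [1, 1, 5, 1, 1], .ref 1093 [0, 1, 6, 4, 5] [1, 5, 1, 1], .cyc [3, 12], .ref 1094 [0, 1, 6, 2, 3, 4, 5] [1, 1, 1, 1, 1, 1, 1], .ref 1095 [0, 1, 6, 3, 4] [1, 2, 3, 1, 1, 1], .ref 1096 [0, 1, 6, 2, 5] [1, 1, 1, 6, 1], .ref 1097 [0, 1, 2, 6, 3, 4, 5] [1, 1, 1, 1, 1, 1, 1], .ref 1095 [0, 1, 6, 3, 4] [1, 4, 1, 1, 1, 1], .ref 1098 [0,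 1, 2, 6, 5] [1, 1, 1, 6, 1], .ref 1099 [0, 1, 2, 3, 6, 4, 5] [1, 1, 1, 1, 1, 1, 1], .ref 1100 [0, 1, 2, 3, 6, 4, 5] [1, 1, 1, 1, 1, 1, 1], .ref 1098 [0, 1, 2, 6, 5] [1, 1, 3, 4, 1], .ref 562 [0, 6, 4] [8, 1, 1], .ref 419 [0, 6, 4] [8, 1, 1, 1], .ref 563 [0, 6, 4] [8, 1, 1, 1], .ref 1098 [0, 1, 2, 6, 5] [1, 1, 5, 2, 1], .ref 1101 [0, 1, 2, 3, 4, 5, 6] [1, 1, 1, 1, 1, 1, 1], .ref 1102 [0, 1, 2, 5, 6] [1, 1, 6, 1, 1], .ref 1103 [0, 1, 2, 5, 6] [1, 1, 6, 1, 1]]),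
([s 2 1, g, m 1 0, s 4 0, g, p 0 2, g, m 0 3, g, p 3 0, g, s 0 4, g], .leaf [2, 1, 4, 2, 7, 3, 1]),
([s 0 1, g, m 1 0, s 5 2, g, p 4 0, g, s 0 3, g, p 3 4, s 0 5, g, s 2 0, g], .leaf [3, 11, 4, 1, 4, 2, 6, 1]),
([s 3 1, g, m 1 0, s 5 2, g, p 0 3, g, p 4 0, g, p 6 4, s 0 5, g, s 0 6, g, s 2 0, g], .leaf [8, 14, 8, 1, 9, 7, 2, 4, 2, 5]),
([s 2 1, g, m 1 0, s 3 0, g, p 0 2, g, p 4 0, g, s 0 3, g, p 0 4, g], .leaf [2, 1, 4, 2, 5, 7, 5]),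
([s 2 1, g, m 1 0, s 3 0, g, p 0 2, g, p 4 0, g, s 0 3, g, m 0 4, g], .leaf [2, 1, 4, 2, 5, 1, 5]),
([s 3 1, g, m 1 0, s 0 2, g, p 0 3, g, p 4 0, g, s 2 4, g], .leaf [2, 1, 4, 2, 5, 5, 3]),
([s 3 1, g, s 0 2, g, m 1 0, s 5 0, g, p 0 3, g, p 4 0, g, p 6 4, s 2 5, g, s 0 6, g], .leaf [10, 12, 6, 3, 7, 3, 8, 1, 6, 3]),
([s 3 1, g, m 1 0, s 5 0, g, s 0 2, g, p 0 3, g, p 4 0, g, p 6 4, s 2 5, g, s 0 6, g], .leaf [10, 12, 6, 8, 3, 9, 1, 7, 4, 1]),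
([s 0 1, g, m 1 0, s 5 2, g, p 0 3, g, p 4 0, g, p 6 4, s 3 5, g, s 2 0, g, s 0 6, g], .leaf [3, 11, 2, 11, 6, 8, 1, 7, 4, 1]),
([s 2 1, g, m 1 0, s 5 0, g, p 0 2, g, s 0 3, g, p 4 0, g, p 6 4, s 3 5, g, s 0 6, g], .leaf [10, 12, 4, 1, 5, 3, 8, 1, 6, 3]),
([s 2 1, g, m 1 0, s 4 0, g, p 0 2, g, p 3 0, g, p 6 3, s 5 4, g, s 0 5, g, s 0 6, g], .leaf [8, 10, 4, 1, 5, 3, 8, 3, 6, 3]),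
([s 2 1, g, m 1 0, s 4 0, g, p 0 2, g, p 3 0, g, p 5 3, s 6 4, g, s 0 5, g, s 0 6, g], .leaf [8, 10, 4, 1, 5, 3, 6, 1, 4, 5]),
([s 3 1, g, m 1 0, s 5 2, g, p 0 3, g, p 4 0, g, p 6 4, s 0 5, g, s 2 0, g, s 0 6, g], .inner (.lo 10) [.ref 1111 [0, 1, 7, 3, 4, 5, 6] [1, 1, 1, 1, 1, 3, 1], .ref 1091 [0, 1, 7, 3, 5] [1, 1, 1, 4, 5], .ref 1092 [0, 1, 7, 4, 5] [1, 1, 3, 1, 5], .ref 1093 [0, 1, 7, 4, 5] [1, 3, 1, 5], .ref 1112 [0, 1, 7, 3, 4, 5, 6] [1, 1, 1, 1, 1, 3, 1], .ref 1113 [0, 1, 2, 7, 4, 5, 6] [1, 1, 3, 1, 1, 1, 1], .ref 1096 [0, 1, 7, 3, 5] [1, 1, 1, 4, 5], .ref 1114 [0, 1, 3, 7, 4, 5, 6] [1, 1, 1, 1, 1, 3, 1], .ref 1113 [0, 1, 2, 7, 4, 5, 6] [1, 3, 1, 1, 1, 1, 1], .ref 1098 [0, 1, 3, 7, 5] [1, 1, 1, 4, 5], .ref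 562 [0, 7, 4] [6, 1, 5], .ref 419 [0, 7, 4] [6, 1, 1, 5], .ref 563 [0, 7, 4] [6, 1, 1, 5], .ref 1098 [0, 1, 3, 7, 5] [1, 1, 3, 2, 5], .ref 1115 [0, 1, 3, 4, 5, 7, 6] [1, 1, 1, 1, 1, 3, 1], .ref 1102 [0, 1, 3, 5, 7] [1, 1, 4, 1, 5], .ref 1103 [0, 1, 3, 5, 7] [1, 1, 4, 1, 5], .cyc [3, 12, 10], .ref 1115 [0, 1, 3, 4, 5, 7, 6] [1, 1, 1, 1, 3, 1, 1], .ref 1102 [0, 1, 3, 5, 7] [1, 1, 4, 3, 3], .ref 1103 [0, 1, 3, 5, 7] [1, 1, 4, 3, 3], .ref 1116 [0, 1, 3, 4, 5, 6, 7] [1, 1, 1, 1, 3, 1, 1], .ref 1102 [0, 1, 3, 5, 7] [1, 1, 4, 5, 1], .ref 1103 [0, 1, 3, 5, 7] [1, 1, 4, 5, 1]]),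
([s 3 1, g, m 1 0, s 5 2, g, p 0 3, g, p 4 0, g, p 0 4, s 0 5, g, s 2 0, g], .inner (.lo 9) [.ref 1085 [0, 1, 6, 3, 4, 5] [1, 1, 1, 1, 1, 3], .ref 5 [0, 6] [1, 8, 4], .ref 1086 [0, 1, 6, 3, 5] [1, 1, 1, 3, 0, 3], .ref 1087 [0, 1, 6, 3, 5] [1, 1, 3, 0, 3], .ref 1088 [0, 1, 2, 6, 3, 4, 5] [1, 1, 1, 1, 1, 1, 1], .ref 5 [0, 6] [4, 5, 4], .ref 1089 [0, 1, 6, 3, 5] [1, 1, 1, 3, 0, 3], .ref 1104 [0, 1, 3, 6, 4, 5] [1, 1, 1, 1, 1, 3], .ref 5 [0, 6] [6, 3, 4], .ref 1105 [0, 1, 3, 6, 5] [1, 1, 1, 3, 0, 3], .cyc [7, 9], .ref 1106 [0, 1, 2, 6, 4, 5] [1, 3, 1, 1, 1, 1], .ref 5 [0, 6] [8, 1, 4], .ref 1105 [0, 1, 3, 6, 5] [1, 1, 3, 1, 0, 3], .ref 1107 [0, 1, 2, 3, 4, 5, 6] [1, 1, 1, 1, 1, 1, 1], .ref 1108 [0, 1, 3, 5, 6] [1,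 1, 3, 0, 1, 3], .ref 1109 [0, 1, 3, 5, 6] [1, 1, 3, 0, 1, 3], .ref 1110 [0, 1, 2, 3, 6] [1, 1, 3, 2, 1], .ref 1117 [0, 1, 2, 3, 4, 5, 6] [1, 1, 1, 1, 1, 1, 1], .ref 1108 [0, 1, 3, 5, 6] [1, 1, 3, 0, 3, 1], .ref 1109 [0, 1, 3, 5, 6] [1, 1, 3, 0, 3, 1]]),
([s 2 1, g, m 1 0, s 4 0, g, p 0 2, g, p 0 3, s 0 4, g, s 3 0, g], .leaf [2, 1, 4, 2, 4, 5]),
([s 3 1, g, m 1 0, s 4 2, g, p 0 3, g, p 0 0, s 0 4, g, s 2 0, g], .inner (.hi 7) [.ref 1080 [0, 1, 3, 5, 4] [1, 1, 1, 1, 3], .ref 440 [0, 5, 4] [1, 2, 3, 3], .ref 161 [0, 5] [1, 6, 4], .ref 1081 [0, 1, 3, 5, 4] [1, 1, 1, 1, 3], .ref 1082 [0, 1, 3, 5, 4] [1, 1, 1, 1, 3], .ref 161 [0, 5] [4, 3, 4], .ref 1083 [0, 1, 3, 5, 4] [1, 1, 1, 3], .ref 1084 [0, 1, 3, 5, 4] [1, 1,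 1, 1, 3], .ref 1118 [0, 1, 2, 3, 5, 4] [1, 1, 1, 1, 1, 1], .ref 161 [0, 5] [6, 1, 4], .cyc [7], .contra, .ref 1119 [0, 1, 3, 5, 4] [1, 1, 1, 1, 3], .ref 5 [0, 5] [6, 2, 3], .ref 98 [0, 5] [6, 2, 3], .ref 1119 [0, 1, 3, 5, 4] [1, 1, 1, 3, 1], .ref 5 [0, 5] [6, 4, 1], .ref 98 [0, 5] [6, 4, 1]]),
([s 3 1, g, s 0 2, g, m 1 0, s 4 0, g, p 0 3, g, m 2 0, s 0 4, g], .leaf [4, 3, 6, 2, 6, 1]),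
([s 3 1, g, m 1 0, s 4 0, g, s 0 2, g, p 0 3, g, m 2 0, s 0 4, g], .leaf [2, 1, 6, 4, 6, 3]),
([s 3 1, g, m 1 0, s 4 0, g, m 0 2, g, p 0 3, g, m 2 0, s 0 4, g], .leaf [9, 6, 9, 4, 6, 4, 1]),
([s 2 1, g, m 1 0, s 4 0, g, p 0 2, g, s 0 3, g, m 3 0, s 0 4, g], .leaf [2, 1, 4, 2, 6, 1]),
([s 2 1, g, s 4 0, g, m 1 0, s 5 0, g, p 0 2, g, m 0 3, g, m 3 4, s 0 5, g], .leaf [8, 6, 9, 2, 5, 7, 2, 3]),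
([s 2 1, g, p 3 0, g, m 1 0, s 4 0, g, p 0 2, g, m 0 3, g, s 0 4, g], .leaf [4, 3, 6, 2, 7, 1, 1]),
([s 3 1, g, m 1 0, s 6 2, g, s 5 0, g, p 0 3, g, m 0 4, g, m 4 5, s 0 6, g, s 2 0, g], .leaf [3, 13, 2, 6, 1, 6, 4, 2, 6, 1]),
([s 2 1, g, m 1 0, s 4 0, g, p 3 0, g, p 0 2, g, m 0 3, g, s 0 4, g], .leaf [2, 1, 6, 4, 7, 5, 3]),
([s 2 1, g, m 1 0, s 4 0, g, p 3 2, g, m 0 3, g, s 0 4, g], .leaf [2, 1, 4, 2, 5, 3, 1]),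
([s 0 1, g, s 0 2, g, m 1 0, s 5 0, g, s 4 0, g, m 0 3, g, m 3 4, s 2 5, g], .leaf [7, 10, 11, 5, 7, 5, 2, 5]),
([s 0 1, g, m 0 2, g, m 1 0, s 4 0, g, m 0 3, g, m 3 0, s 2 4, g], .leaf [1, 7, 9, 6, 2, 4, 5]),
([s 0 1, g, m 1 2, s 4 0, g, m 0 3, g, m 3 0, s 2 4, g], .leaf [1, 5, 7, 4, 0, 2, 3]),
([s 3 1, g, m 1 0, s 6 0, g, s 0 2, g, p 0 3, g, s 5 0, g, m 0 4, g, m 4 5, s 2 6, g], .leaf [4, 9, 11, 12, 8, 1, 4, 2, 4, 5]),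
([s 0 1, g, m 1 0, g, p 0 2, g, s 4 0, g, m 0 3, g, m 3 4, s 2 0, g], .leaf [6, 9, 5, 1, 5, 6, 3]),
([s 2 1, g, m 1 0, s 6 0, g, p 0 2, g, s 0 3, g, s 5 0, g, m 0 4, g, m 4 5, s 3 6, g], .leaf [6, 9, 11, 12, 6, 1, 7, 5, 2, 5]),
([s 2 1, g, m 1 0, s 6 0, g, p 0 2, g, s 5 3, g, m 0 4, g, m 4 5, s 3 6, g], .leaf [6, 7, 9, 10, 4, 1, 5, 3, 0, 3]),
([s 2 1, g, m 1 0, s 6 0, g, p 0 2, g, s 5 0, g, s 0 3, g, m 0 4, g, m 4 5, s 3 6, g], .leaf [2, 1, 6, 10, 11, 7, 4, 2, 4, 5]),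
([s 2 1, g, m 1 0, s 6 0, g, p 0 2, g, s 5 0, g, p 0 3, g, m 0 4, g, m 4 5, s 3 6, g], .leaf [12, 14, 4, 1, 5, 3, 4, 6, 2, 5]),
([s 2 1, g, m 1 0, s 5 0, g, p 0 2, g, s 4 0, g, m 0 3, g, m 3 4, s 6 5, g, s 0 6, g], .leaf [10, 12, 4, 1, 5, 3, 4, 8, 4, 1]),
([s 2 1, g, m 1 0, s 5 0, g, p 0 2, g, s 4 0, g, m 0 3, g, m 3 4, s 0 5, g], .inner (.lo 12) [.ref 1130 [0, 1, 6, 3, 4, 5] [1, 1, 3, 1, 1, 1], .ref 1091 [0, 1, 6, 2, 5] [1, 1, 1, 6, 1], .ref 1131 [0, 1, 6, 3, 5] [1, 1, 5, 1, 1], .ref 1132 [0, 1, 6, 3, 5] [1, 5, 1, 1], .cyc [3, 12], .ref 1133 [0, 1, 6, 2, 3, 4, 5] [1, 1, 1, 1, 1, 1, 1], .ref 1134 [0, 1, 6, 3, 4] [1, 2, 3, 1, 1, 1], .ref 1096 [0, 1, 6, 2, 5] [1, 1, 1, 6, 1], .ref 1135 [0, 1, 2, 6, 3, 4, 5] [1,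 1, 1, 1, 1, 1, 1], .ref 1134 [0, 1, 6, 3, 4] [1, 4, 1, 1, 1, 1], .ref 1098 [0, 1, 2, 6, 5] [1, 1, 1, 6, 1], .ref 1136 [0, 1, 2, 6, 3, 4, 5] [1, 1, 1, 1, 1, 1], .ref 1137 [0, 1, 2, 6, 3, 4, 5] [1, 1, 1, 1, 1, 1, 1], .ref 1138 [0, 1, 2, 6, 3, 4, 5] [1, 1, 1, 1, 1, 1, 1], .ref 1098 [0, 1, 2, 6, 5] [1, 1, 3, 4, 1], .ref 463 [0, 3, 6] [8, 1, 1, 1], .ref 596 [0, 3, 6] [8, 1, 1, 1], .ref 1098 [0, 1, 2, 6, 5] [1, 1, 5, 2, 1], .ref 1139 [0, 1, 2, 3, 4, 5, 6] [1, 1, 1, 1, 1, 1, 1], .ref 1102 [0, 1, 2, 5, 6] [1, 1, 6, 1, 1], .ref 1103 [0, 1, 2, 5, 6] [1, 1, 6, 1, 1]]),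
([s 2 1, g, m 1 0, s 4 0, g, p 0 2, g, p 3 0, g, m 0 3, g, s 0 4, g], .leaf [2, 1, 4, 2, 7, 3, 1]),
([s 0 1, g, m 1 0, s 5 2, g, m 0 3, g, s 4 0, g, m 3 4, s 0 5, g, s 2 0, g], .leaf [3, 11, 4, 1, 4, 2, 6, 1]),
([s 3 1, g, m 1 0, s 6 2, g, p 0 3, g, m 0 4, g, m 4 5, s 0 6, g, s 5 0, g, s 2 0, g], .leaf [8, 14, 8, 1, 9, 7, 2, 4, 2, 5]),
([s 2 1, g, m 1 0, s 4 0, g, p 0 2, g, m 0 3, g, s 0 4, g, p 3 0, g], .leaf [2, 1, 4, 2, 5, 1, 5]),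
([s 2 1, g, m 1 0, s 4 0, g, p 0 2, g, m 0 3, g, s 0 4, g, m 3 0, g], .leaf [2, 1, 4, 2, 5, 7, 5]),
([s 3 1, g, s 0 2, g, m 1 0, s 6 0, g, p 0 3, g, m 0 4, g, m 4 5, s 2 6, g, s 5 0, g], .leaf [10, 12, 6, 3, 7, 3, 8, 1, 6, 3]),
([s 3 1, g, m 1 0, s 6 0, g, s 0 2, g, p 0 3, g, m 0 4, g, m 4 5, s 2 6, g, s 5 0, g], .leaf [10, 12, 6, 8, 3, 9, 1, 7, 4, 1]),
([s 0 1, g, m 1 0, s 6 2, g, p 0 3, g, m 0 4, g, m 4 5, s 3 6, g, s 2 0, g, s 5 0, g], .leaf [3, 11, 2, 11, 6, 8, 1, 7, 4, 1]),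
([s 2 1, g, m 1 0, s 6 0, g, p 0 2, g, s 0 3, g, m 0 4, g, m 4 5, s 3 6, g, s 5 0, g], .leaf [10, 12, 4, 1, 5, 3, 8, 1, 6, 3]),
([s 2 1, g, m 1 0, s 5 0, g, p 0 2, g, m 0 3, g, m 3 4, s 6 5, g, s 0 6, g, s 4 0, g], .leaf [8, 10, 4, 1, 5, 3, 8, 3, 6, 3]),
([s 2 1, g, m 1 0, s 5 0, g, p 0 2, g, m 0 3, g, m 3 4, s 6 5, g, s 4 6, g], .leaf [8, 10, 4, 1, 5, 3, 6, 6, 0, 3])]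

def d04_2 : List (List Item × Pf) := [
([s 2 1, g, m 1 0, s 5 0, g, p 0 2, g, m 0 3, g, m 3 4, s 6 5, g, s 4 0, g, s 0 6, g], .leaf [8, 10, 4, 1, 5, 3, 6, 1, 4, 5]),
([s 3 1, g, m 1 0, s 6 2, g, p 0 3, g, m 0 4, g, m 4 5, s 0 6, g, s 2 0, g, s 5 0, g], .inner (.lo 10) [.ref 1146 [0, 1, 7, 3, 4, 5, 6] [1, 1, 1, 1, 1, 3, 1], .ref 1091 [0, 1, 7, 3, 6] [1, 1, 1, 4, 5], .ref 1131 [0, 1, 7, 4, 6] [1, 1, 3, 1, 5], .ref 1132 [0, 1, 7, 4, 6] [1, 3, 1, 5], .ref 1147 [0, 1, 7, 3, 4, 5, 6] [1, 1, 1, 1, 1, 3, 1], .ref 1148 [0, 1, 2, 7, 4, 5, 6] [1, 1, 3, 1, 1, 1, 1], .ref 1096 [0, 1, 7, 3, 6] [1, 1, 1, 4, 5], .ref 1149 [0, 1, 3, 7, 4, 5, 6] [1, 1, 1, 1, 1, 3, 1], .ref 1148 [0, 1, 2, 7, 4, 5, 6] [1, 3, 1, 1, 1, 1, 1], .ref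 1098 [0, 1, 3, 7, 6] [1, 1, 1, 4, 5], .ref 463 [0, 4, 7] [6, 1, 1, 5], .ref 596 [0, 4, 7] [6, 1, 1, 5], .ref 1098 [0, 1, 3, 7, 6] [1, 1, 3, 2, 5], .ref 1150 [0, 1, 3, 4, 5, 6, 7] [1, 1, 1, 1, 1, 3, 1], .ref 1102 [0, 1, 3, 6, 7] [1, 1, 4, 1, 5], .ref 1103 [0, 1, 3, 6, 7] [1, 1, 4, 1, 5], .cyc [3, 12, 10], .ref 1150 [0, 1, 3, 4, 5, 6, 7] [1, 1, 1, 1, 3, 1, 1], .ref 1102 [0, 1, 3, 6, 7] [1, 1, 4, 3, 3], .ref 1103 [0, 1, 3, 6, 7] [1, 1, 4, 3, 3], .ref 1151 [0, 1, 3, 4, 5, 6, 7] [1, 1, 1, 1, 3, 1], .ref 1152 [0, 1, 3, 4, 5, 6, 7] [1, 1, 1, 1, 3, 1, 1], .ref 1102 [0, 1, 3, 6, 7] [1, 1, 4, 5, 1], .ref 1103 [0, 1, 3, 6, 7] [1, 1, 4, 5, 1]]),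
([s 3 1, g, m 1 0, s 5 2, g, p 0 3, g, m 0 4, g, m 4 0, s 0 5, g, s 2 0, g], .inner (.hi 9) [.ref 1125 [0, 1, 3, 4, 6, 5] [1, 1, 1, 1, 1, 3], .ref 1126 [0, 1, 3, 6, 5] [1, 1, 1, 3, 0, 3], .ref 13 [0, 6] [1, 8, 4], .ref 1127 [0, 1, 2, 3, 4, 6, 5] [1, 1, 1, 1, 1, 1, 1], .ref 1128 [0, 1, 3, 6, 5] [1, 1, 1, 3, 0, 3], .ref 13 [0, 6] [4, 5, 4], .ref 1129 [0, 1, 3, 6, 5] [1, 1, 3, 0, 3], .ref 1140 [0, 1, 3, 4, 6, 5] [1, 1, 1, 1, 1, 3], .ref 1141 [0, 1, 3, 6, 5] [1, 1, 1, 3, 0, 3], .ref 13 [0, 6] [6, 3, 4], .cyc [7, 9], .ref 1142 [0, 1, 2, 4, 6, 5] [1, 3, 1, 1, 1, 1], .ref 1141 [0, 1, 3, 6, 5] [1, 1, 3, 1, 0, 3], .ref 13 [0, 6] [8, 1, 4], .ref 1098 [0, 1, 3, 6, 5] [1, 1, 3, 0, 3], .ref 1143 [0, 1, 2, 3, 4, 6, 5] [1, 1,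 1, 1, 1, 1, 1], .ref 1144 [0, 1, 3, 6, 5] [1, 1, 3, 0, 1, 3], .ref 1145 [0, 1, 3, 6, 5] [1, 1, 3, 0, 1, 3], .ref 1153 [0, 1, 2, 3, 4, 6, 5] [1, 1, 1, 1, 1, 1, 1], .ref 1144 [0, 1, 3, 6, 5] [1, 1, 3, 0, 3, 1], .ref 1145 [0, 1, 3, 6, 5] [1, 1, 3, 0, 3, 1]]),
([s 2 1, g, m 1 0, s 3 0, g, p 0 2, g, m 4 0, s 0 3, g, s 0 4, g], .leaf [2, 1, 4, 2, 4, 5]),
([s 3 1, g, m 1 0, s 4 2, g, p 0 3, g, m 0 0, s 0 4, g, s 2 0, g], .inner (.lo 7) [.ref 1121 [0, 1, 5, 3, 4] [1, 1, 1, 1, 3], .ref 98 [0, 5] [1, 6, 4], .ref 482 [0, 5, 4] [1, 2, 3, 3], .ref 482 [0, 5, 4] [1, 0, 3, 3], .ref 1122 [0, 1, 5, 3, 4] [1, 1, 1, 1, 3], .ref 98 [0, 5] [4, 3, 4], .ref 1123 [0, 1, 5, 3, 4] [1, 1, 1, 1, 3], .ref 1124 [0, 1, 3, 5, 4] [1, 1, 1, 1,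 3], .ref 98 [0, 5] [6, 1, 4], .ref 1154 [0, 1, 2, 3, 5, 4] [1, 1, 1, 1, 1, 1], .cyc [7], .ref 1155 [0, 1, 3, 4, 5] [1, 1, 1, 1, 3], .ref 161 [0, 5] [6, 2, 3], .ref 13 [0, 5] [6, 2, 3], .ref 1155 [0, 1, 3, 4, 5] [1, 1, 1, 1, 1], .ref 1155 [0, 1, 3, 4, 5] [1, 1, 1, 3, 1], .ref 161 [0, 5] [6, 4, 1], .ref 13 [0, 5] [6, 4, 1]]),
([s 3 1, g, m 1 0, s 4 2, g, p 0 3, g, s 0 4, g, s 2 0, g], .inner (.bot 6) [.ref 1046 [0, 1, 2, 3, 4] [1, 1, 1, 1], .ref 1079 [0, 1, 2, 3, 4] [1, 1, 1, 1, 1], .ref 1120 [0, 1, 2, 3, 4] [1, 1, 1, 1, 1], .ref 1156 [0, 1, 2, 3, 4] [1, 1, 1, 1, 1]]),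
([s 3 1, g, m 1 0, s 4 2, g, p 0 3, g, p 0 4, g, s 2 0, g], .leaf [2, 1, 6, 3, 1, 2, 3]),
([s 3 1, g, s 4 0, g, m 1 0, s 0 2, g, p 0 3, s 2 4, g], .leaf [8, 5, 7, 5, 2, 3]),
([s 3 1, g, m 1 0, s 5 2, g, s 4 0, g, p 0 3, s 2 4, g, s 0 5, g], .leaf [2, 1, 7, 4, 1, 2, 2, 3]),
([s 3 1, g, m 1 0, g, s 0 2, g, p 4 0, g, p 0 3, s 2 4, g], .leaf [4, 8, 3, 5, 1, 5, 1]),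
([s 3 1, g, m 1 0, g, s 0 2, g, p 4 3, s 2 4, g], .leaf [4, 6, 1, 3, 1, 3, 1]),
([s 3 1, g, m 1 0, s 5 2, g, p 0 3, s 2 4, g, s 4 0, g, s 0 5, g], .leaf [2, 1, 5, 2, 7, 4, 4, 1]),
([s 3 1, g, m 1 0, g, s 0 2, g, p 0 3, s 2 4, g, p 4 0, g], .leaf [4, 6, 1, 3, 1, 3, 3]),
([s 3 1, g, m 1 0, g, s 0 2, g, p 0 3, s 2 4, g, m 4 0, g], .leaf [2, 1, 8, 1, 4, 2, 3]),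
([s 3 1, g, m 1 0, s 5 2, g, p 0 3, s 2 4, g, s 0 5, g, s 4 0, g], .leaf [2, 1, 5, 2, 5, 2, 2, 3]),
([s 3 1, g, m 1 0, s 4 2, g, p 0 3, s 2 0, g, s 0 4, g], .inner (.hi 6) [.ref 1159 [0, 1, 2, 3, 5] [1, 1, 1, 3], .ref 795 [0, 1, 3, 5] [1, 1, 2, 3], .ref 88 [0, 3, 5] [1, 4, 3], .ref 1160 [0, 1, 2, 3, 5, 4] [1, 1, 1, 1, 1], .ref 1161 [0, 1, 2, 3, 5] [1, 0, 1, 1, 3], .ref 88 [0, 3, 5] [4, 1, 3], .ref 1162 [0, 1, 2, 3, 5] [1, 0, 1, 3], .ref 1163 [0, 1, 2, 3, 5, 4] [1, 1, 1, 1, 1], .ref 1164 [0, 1, 2, 3, 5] [1, 0, 1, 1, 3], .ref 1165 [0, 1, 2, 3, 5] [1, 0, 1, 1, 3], .cyc [3, 6, 8], .ref 1166 [0, 1, 2, 3, 5, 4] [1, 1, 1, 1, 1], .ref 1164 [0, 1, 2, 3, 5] [1, 0, 1, 3, 1], .ref 1165 [0, 1, 2, 3, 5] [1, 0, 1, 3, 1]]),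
([s 4 1, g, s 0 2, g, m 1 0, s 0 3, g, p 0 4, g, s 2 0, s 3 0, g], .leaf [4, 3, 6, 2, 6, 1]),
([s 3 1, g, s 4 0, g, m 1 0, s 0 2, g, p 0 3, g, s 0 4, s 2 0, g], .leaf [4, 3, 6, 2, 6, 1]),
([s 3 1, g, p 4 0, g, m 1 0, s 0 2, g, p 0 3, g, s 0 4, s 2 0, g], .leaf [4, 3, 6, 2, 6, 1]),
([s 0 1, g, m 4 0, g, p 0 2, g, m 1 0, s 5 3, g, s 2 4, s 3 0, g, s 0 5, g], .leaf [7, 11, 6, 3, 6, 2, 6, 1]),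
([s 0 1, g, p 0 2, g, m 4 0, g, m 1 0, s 5 3, g, s 2 4, s 3 0, g, s 0 5, g], .leaf [7, 11, 6, 3, 6, 2, 6, 1]),
([s 3 1, g, m 1 0, s 0 2, g, s 4 0, g, p 0 3, g, s 0 4, s 2 0, g], .leaf [2, 1, 6, 4, 6, 3]),
([s 0 1, g, p 0 2, g, m 1 0, s 5 3, g, p 4 0, g, s 2 4, s 3 0, g, s 0 5, g], .leaf [5, 11, 4, 1, 6, 4, 6, 3]),
([s 3 1, g, m 1 0, s 0 2, g, m 4 0, g, p 0 3, g, s 0 4, s 2 0, g], .leaf [2, 1, 6, 4, 6, 3]),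
([s 3 1, g, m 1 0, s 0 2, g, p 0 3, g, s 4 0, g, s 0 4, s 2 0, g], .leaf [2, 1, 4, 2, 6, 1]),
([s 3 1, g, m 1 0, s 0 2, g, p 0 3, g, m 4 0, g, s 0 4, s 2 0, g], .leaf [2, 1, 4, 2, 6, 1]),
([s 0 1, g, p 0 2, g, m 1 0, s 0 3, g, s 2 4, s 3 0, g, s 4 0, g], .leaf [2, 6, 9, 2, 6, 1]),
([s 3 1, g, m 1 0, s 0 2, g, p 0 3, g, s 0 4, s 2 0, g, p 4 0, g], .leaf [2, 1, 4, 2, 4, 5]),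
([s 0 1, g, p 0 2, g, m 1 0, s 0 3, g, s 2 4, s 3 0, g, m 4 0, g], .leaf [2, 6, 9, 2, 6, 1]),
([s 4 1, g, p 0 2, g, m 1 0, s 5 3, g, p 0 4, g, s 2 0, s 3 0, g, s 0 5, g], .inner (.hi 9) [.ref 1169 [0, 1, 3, 4, 6] [1, 3, 1, 1, 3], .ref 1170 [0, 1, 3, 4, 6] [1, 3, 1, 1, 3], .ref 1171 [0, 1, 2, 3, 6, 5] [1, 1, 1, 3, 1, 1], .cyc [2, 9], .ref 1169 [0, 1, 3, 4, 6] [3, 1, 1, 1, 3], .ref 1170 [0, 1, 3, 4, 6] [3, 1, 1, 1, 3], .ref 1172 [0, 1, 2, 3, 6, 5] [1, 1, 1, 3, 1, 1], .ref 1173 [0, 1, 3, 4, 6] [3, 1, 1, 1, 3], .ref 1174 [0, 1, 2, 3, 6, 5] [1, 1, 1, 3, 1, 1], .ref 1175 [0, 1, 3, 4, 6] [3, 1, 1, 1, 3], .ref 1174 [0, 1, 2, 3, 6, 5] [1, 1, 1, 1, 1, 1], .ref 1176 [0, 1, 3, 4, 6] [3, 1, 1, 1, 3], .ref 1174 [0, 1, 2, 3,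 6, 5] [1, 1, 3, 1, 1, 1], .ref 1177 [0, 1, 3, 4, 6] [3, 1, 1, 1, 3], .ref 1178 [0, 1, 2, 3, 6] [1, 1, 3, 1, 3], .ref 1179 [0, 1, 3, 4, 6] [3, 1, 1, 1, 3], .ref 1180 [0, 1, 2, 3, 6] [1, 1, 3, 1, 3], .ref 1178 [0, 1, 2, 3, 6] [1, 1, 3, 1, 1], .ref 1178 [0, 1, 2, 3, 6] [1, 1, 3, 3, 1], .ref 1179 [0, 1, 3, 4, 6] [3, 1, 1, 3, 1], .ref 1180 [0, 1, 2, 3, 6] [1, 1, 3, 3, 1]]),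
([s 4 1, g, m 0 2, g, m 1 0, s 0 3, g, p 0 4, g, s 2 0, s 3 0, g], .leaf [4, 3, 6, 2, 6, 1]),
([s 4 1, g, m 1 2, s 0 3, g, p 0 4, g, s 2 0, s 3 0, g], .leaf [2, 1, 4, 2, 4, 1]),
([s 4 1, g, m 1 0, s 0 2, g, s 0 3, g, p 0 4, g, s 3 0, s 2 0, g], .leaf [2, 1, 6, 4, 6, 3]),
([s 4 1, g, m 1 0, s 0 2, g, p 0 3, g, p 0 4, g, s 3 0, s 2 0, g], .leaf [2, 1, 6, 4, 6, 3]),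
([s 0 1, g, m 4 0, g, m 1 0, s 5 2, g, m 0 3, g, s 3 4, s 2 0, g, s 0 5, g], .leaf [5, 11, 4, 1, 6, 4, 6, 3]),
([s 0 1, g, m 1 0, s 5 2, g, p 4 0, g, m 0 3, g, s 3 4, s 2 0, g, s 0 5, g], .leaf [3, 11, 4, 1, 4, 2, 6, 1]),
([s 0 1, g, m 1 0, s 5 2, g, m 0 3, g, p 4 0, g, s 3 4, s 2 0, g, s 0 5, g], .leaf [3, 11, 4, 1, 4, 2, 6, 1]),
([s 3 1, g, m 1 0, s 0 2, g, p 0 3, g, s 0 4, s 2 0, g, s 4 0, g], .leaf [2, 1, 4, 2, 4, 5]),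
([s 4 1, g, m 1 0, s 0 2, g, m 0 3, g, p 0 4, g, s 3 5, s 2 0, g, m 5 0, g], .leaf [4, 7, 2, 6, 9, 2, 6, 1]),
([s 4 1, g, m 1 0, s 5 2, g, m 0 3, g, p 0 4, g, s 3 0, s 2 0, g, s 0 5, g], .inner (.hi 9) [.ref 1169 [0, 1, 2, 4, 6] [1, 1, 3, 1, 3], .ref 1170 [0, 1, 2, 4, 6] [1, 1, 3, 1, 3], .ref 1186 [0, 1, 2, 3, 6, 5] [1, 1, 1, 3, 1, 1], .ref 1173 [0, 1, 2, 4, 6] [1, 1, 3, 1, 3], .ref 1187 [0, 1, 2, 3, 6, 5] [1, 1, 1, 3, 1, 1], .ref 1175 [0, 1, 2, 4, 6] [1, 1, 3, 1, 3], .cyc [5, 9], .ref 1173 [0, 1, 2, 4, 6] [1, 3, 1, 1, 3], .ref 1188 [0, 1, 2, 3, 6, 5] [1, 1, 1, 3, 1, 1], .ref 1175 [0, 1, 2, 4, 6] [1, 3, 1, 1, 3], .ref 1188 [0, 1, 2, 3, 6, 5] [1, 1, 1, 1, 1, 1], .ref 1176 [0, 1, 2, 4, 6] [1, 3, 1, 1, 3], .ref 1188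 [0, 1, 2, 3, 6, 5] [1, 1, 3, 1, 1, 1], .ref 1177 [0, 1, 2, 4, 6] [1, 3, 1, 1, 3], .ref 1189 [0, 1, 2, 4, 6] [1, 3, 1, 1, 3], .ref 1179 [0, 1, 2, 4, 6] [1, 3, 1, 1, 3], .ref 1190 [0, 1, 2, 3, 4, 6] [1, 1, 1, 1, 1, 3], .ref 1189 [0, 1, 2, 4, 6] [1, 3, 1, 1, 1], .ref 1189 [0, 1, 2, 4, 6] [1, 3, 1, 3, 1], .ref 1179 [0, 1, 2, 4, 6] [1, 3, 1, 3, 1], .ref 1190 [0, 1, 2, 3, 4, 6] [1, 1, 1, 1, 3, 1]]),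
([s 3 1, g, m 1 0, s 0 2, g, p 0 3, g, s 0 4, g, s 4 0, s 2 0, g], .leaf [2, 1, 4, 2, 6, 1]),
([s 3 1, g, m 1 0, s 0 2, g, p 0 3, g, p 0 4, g, s 4 0, s 2 0, g], .leaf [2, 1, 4, 2, 6, 1]),
([s 3 1, g, m 1 0, s 0 2, g, p 0 3, g, m 0 4, g, s 4 5, s 2 0, g, m 5 0, g], .leaf [6, 12, 2, 7, 1, 8, 6, 1]),
([s 3 1, g, m 1 0, s 5 2, g, p 0 3, g, m 0 4, g, s 4 0, s 2 0, g, s 0 5, g], .inner (.hi 9) [.ref 1169 [0, 1, 2, 3, 6] [1, 1, 1, 3, 3], .ref 1170 [0, 1, 2, 3, 6] [1, 1, 1, 3, 3], .ref 1186 [0, 1, 2, 4, 6, 5] [1, 1, 3, 1, 1, 1], .ref 1173 [0, 1, 2, 3, 6] [1, 1, 1, 3, 3], .ref 1187 [0, 1, 2, 4, 6, 5] [1, 1, 3, 1, 1, 1], .ref 1175 [0, 1, 2, 3, 6] [1, 1, 1, 3, 3], .ref 1187 [0, 1, 2, 4, 6, 5] [1, 1, 1, 1, 1, 1], .ref 1176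 [0, 1, 2, 3, 6] [1, 1, 1, 3, 3], .ref 1187 [0, 1, 2, 4, 6, 5] [1, 3, 1, 1, 1, 1], .ref 1177 [0, 1, 2, 3, 6] [1, 1, 1, 3, 3], .cyc [7, 9], .ref 1176 [0, 1, 2, 3, 6] [1, 1, 3, 1, 3], .ref 1188 [0, 1, 2, 4, 6, 5] [1, 3, 1, 1, 1, 1], .ref 1177 [0, 1, 2, 3, 6] [1, 1, 3, 1, 3], .ref 1189 [0, 1, 2, 3, 6] [1, 1, 3, 1, 3], .ref 1179 [0, 1, 2, 3, 6] [1, 1, 3, 1, 3], .ref 1194 [0, 1, 2, 3, 4, 6] [1, 1, 1, 1, 1, 3], .ref 1189 [0, 1, 2, 3, 6] [1, 1, 3, 1, 1], .ref 1189 [0, 1, 2, 3, 6] [1, 1, 3, 3, 1], .ref 1179 [0, 1, 2, 3, 6] [1, 1, 3, 3, 1], .ref 1194 [0, 1, 2, 3, 4, 6] [1, 1, 1, 1, 3, 1]]),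
([s 3 1, g, m 1 0, s 0 2, g, p 0 3, g, s 4 0, s 2 0, g, s 0 4, g], .leaf [2, 1, 4, 2, 4, 5]),
([s 0 1, g, m 1 0, s 4 2, g, s 3 0, s 2 0, g, p 0 3, g, s 0 4, g], .leaf [8, 2, 3, 8, 4, 1]),
([s 3 1, g, m 1 0, s 0 2, g, p 0 3, g, s 4 0, s 2 0, g, m 0 4, g], .leaf [2, 1, 4, 2, 4, 5]),
([s 3 1, g, m 1 0, s 4 2, g, p 0 3, g, s 5 0, s 2 0, g, s 0 4, g, p 0 5, g], .leaf [2, 1, 11, 4, 7, 1, 6, 1]),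
([s 3 1, g, m 1 0, s 4 2, g, p 0 3, g, s 0 0, s 2 0, g, s 0 4, g], .inner (.lo 7) [.ref 1168 [0, 1, 5, 2, 3] [1, 1, 1, 1, 3], .ref 1181 [0, 1, 5, 2, 3, 4] [1, 1, 1, 1, 1, 1], .ref 1182 [0, 1, 5, 2, 3] [1, 1, 1, 1, 3], .ref 1183 [0, 1, 5, 2, 3] [1, 1, 1, 3], .ref 1184 [0, 1, 2, 5, 3] [1, 1, 1, 1, 3], .ref 1185 [0, 1, 2, 5, 3] [1, 1, 1, 1, 3], .ref 1191 [0, 1, 2, 5, 3, 4] [1, 1, 1, 1, 1, 1], .ref 1192 [0, 1, 2, 3, 5] [1, 1, 1, 1, 3], .ref 1193 [0, 1, 2, 3, 5] [1, 1, 1, 1, 3], .ref 1195 [0, 1, 2, 3, 5, 4] [1, 1, 1, 1, 1, 1], .cyc [7], .contra, .ref 1196 [0, 1, 2, 3, 5] [1, 1, 1, 1, 3], .ref 1197 [0, 1, 2, 5, 4] [1, 3, 1, 1, 1], .ref 1198 [0, 1, 2, 3, 5] [1, 1, 1, 1, 3], .ref 1196 [0, 1, 2, 3, 5] [1, 1, 1, 3, 1],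 .ref 1199 [0, 1, 2, 3, 4, 5] [1, 1, 1, 1, 1, 1], .ref 1198 [0, 1, 2, 3, 5] [1, 1, 1, 3, 1]]),
([s 3 1, g, s 4 0, g, m 1 0, s 0 2, g, p 0 3, g, p 0 4, s 2 0, g], .leaf [4, 3, 6, 2, 6, 1]),
([s 3 1, g, m 1 0, s 0 2, g, s 4 0, g, p 0 3, g, p 0 4, s 2 0, g], .leaf [2, 1, 6, 4, 6, 3]),
([s 3 1, g, m 1 0, s 0 2, g, p 4 0, g, p 0 3, g, p 0 4, s 2 0, g], .leaf [9, 6, 9, 4, 6, 4, 1]),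
([s 3 1, g, m 1 0, s 0 2, g, p 4 3, g, p 0 4, s 2 0, g], .leaf [7, 4, 7, 4, 4, 2, 1]),
([s 3 1, g, m 1 0, s 0 2, g, p 0 3, g, s 4 0, g, p 0 4, s 2 0, g], .leaf [2, 1, 4, 2, 6, 1]),
([s 4 1, g, s 0 2, g, m 1 0, s 0 3, g, p 0 4, g, p 5 0, g, p 2 5, s 3 0, g], .leaf [8, 6, 9, 2, 5, 7, 2, 3]),
([s 4 1, g, m 1 0, s 6 2, g, s 0 3, g, p 0 4, g, p 5 0, g, p 3 5, s 2 0, g, s 0 6, g], .leaf [3, 13, 2, 6, 1, 6, 4, 2, 6, 1]),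
([s 0 1, g, s 5 0, g, m 1 0, s 0 2, g, s 0 3, g, p 4 0, g, p 3 4, s 2 5, g], .leaf [7, 10, 11, 5, 7, 5, 2, 5]),
([s 0 1, g, p 4 0, g, m 1 0, s 0 2, g, p 3 0, g, p 0 3, s 2 4, g], .leaf [1, 7, 9, 6, 2, 4, 5]),
([s 3 1, g, m 4 0, g, m 1 0, s 0 2, g, p 0 3, g, s 2 4, g], .leaf [2, 8, 8, 4, 1, 5, 3]),
([s 3 1, g, m 1 0, s 0 2, g, s 6 0, g, p 0 3, g, s 0 4, g, p 5 0, g, p 4 5, s 2 6, g], .leaf [4, 9, 11, 12, 8, 1, 4, 2, 4, 5]),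
([s 3 1, g, m 1 0, s 0 2, g, p 4 0, g, p 0 3, g, s 2 4, g], .leaf [2, 1, 6, 4, 5, 5, 1]),
([s 0 1, g, m 1 0, g, m 4 0, g, s 0 2, g, p 3 0, g, p 2 3, s 0 4, g], .leaf [6, 9, 5, 1, 5, 6, 3]),
([s 3 1, g, m 1 0, s 0 2, g, p 4 3, g, s 2 4, g], .leaf [2, 1, 4, 2, 3, 3, 1]),
([s 3 1, g, m 1 0, s 0 2, g, p 0 3, g, s 6 0, g, s 0 4, g, p 5 0, g, p 4 5, s 2 6, g], .leaf [6, 9, 11, 12, 6, 1, 7, 5, 2, 5])]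

def d04_3 : List (List Item × Pf) := [
([s 3 1, g, m 1 0, s 0 2, g, p 0 3, g, s 6 4, g, p 5 0, g, p 4 5, s 2 6, g], .leaf [6, 7, 9, 10, 4, 1, 5, 3, 0, 3]),
([s 3 1, g, m 1 0, s 0 2, g, p 0 3, g, s 0 4, g, s 6 0, g, p 5 0, g, p 4 5, s 2 6, g], .leaf [2, 1, 6, 10, 11, 7, 4, 2, 4, 5]),
([s 3 1, g, m 1 0, s 0 2, g, p 0 3, g, s 0 4, g, m 6 0, g, p 5 0, g, p 4 5, s 2 6, g], .leaf [12, 14, 4, 1, 5, 3, 4, 6, 2, 5]),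
([s 3 1, g, m 1 0, s 0 2, g, p 0 3, g, s 0 4, g, p 5 0, g, p 4 5, s 2 6, g, s 6 0, g], .leaf [10, 12, 4, 1, 5, 3, 4, 8, 4, 1]),
([s 3 1, g, m 1 0, s 0 2, g, p 0 3, g, s 2 4, g, p 4 0, g], .leaf [2, 1, 4, 2, 3, 3, 3]),
([s 3 1, g, m 1 0, s 0 2, g, p 0 3, g, s 2 4, g, m 4 0, g], .leaf [2, 1, 4, 2, 3, 5, 1]),
([s 3 1, g, m 1 0, s 0 2, g, p 0 3, g, s 0 4, g, p 5 0, g, p 4 5, s 2 0, g], .inner (.hi 12) [.ref 1208 [0, 1, 2, 4, 5, 6] [1, 1, 3, 1, 1, 1], .ref 1209 [0, 1, 2, 5, 6] [1, 1, 5, 1, 1], .ref 1210 [0, 1, 2, 3, 6] [1, 1, 1, 6, 1], .cyc [3, 12], .ref 1211 [0, 1, 2, 3, 4, 5, 6] [1, 1, 1, 1, 1, 1, 1], .ref 1212 [0, 1, 2, 3, 6] [1, 1, 1, 6, 1], .ref 1213 [0, 1, 4, 5, 6] [1, 2, 3, 1, 1, 1], .ref 1214 [0, 1, 2, 3, 6]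 [1, 1, 6, 1], .ref 1215 [0, 1, 2, 3, 4, 5, 6] [1, 1, 1, 1, 1, 1, 1], .ref 1110 [0, 1, 2, 3, 6] [1, 1, 1, 6, 1], .ref 1213 [0, 1, 4, 5, 6] [1, 4, 1, 1, 1, 1], .ref 1216 [0, 1, 2, 3, 4, 5, 6] [1, 1, 1, 1, 1, 1], .ref 1217 [0, 1, 2, 3, 4, 5, 6] [1, 1, 1, 1, 1, 1, 1], .ref 1110 [0, 1, 2, 3, 6] [1, 1, 3, 4, 1], .ref 1218 [0, 1, 2, 3, 4, 5, 6] [1, 1, 1, 1, 1, 1, 1], .ref 440 [0, 5, 6] [8, 1, 1, 1], .ref 1110 [0, 1, 2, 3, 6] [1, 1, 5, 2, 1], .ref 441 [0, 5, 6] [8, 1, 1, 1], .ref 1219 [0, 1, 2, 3, 4, 5, 6] [1, 1, 1, 1, 1, 1, 1], .ref 1220 [0, 1, 2, 3, 6] [1, 1, 6, 1, 1], .ref 1221 [0, 1, 2, 3, 6] [1, 1, 6, 1, 1]]),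
([s 0 1, g, m 1 0, s 5 2, g, p 4 0, g, s 0 3, g, p 3 4, s 2 0, g, s 0 5, g], .leaf [3, 11, 4, 1, 4, 2, 6, 1]),
([s 3 1, g, m 1 0, s 6 2, g, p 0 3, g, p 4 0, g, p 5 4, s 2 0, g, s 0 5, g, s 0 6, g], .leaf [8, 14, 8, 1, 9, 7, 2, 4, 2, 5]),
([s 3 1, g, m 1 0, s 0 2, g, p 0 3, g, p 4 0, g, s 2 0, g, p 0 4, g], .leaf [2, 1, 4, 2, 5, 7, 5]),
([s 3 1, g, s 5 0, g, m 1 0, s 0 2, g, p 0 3, g, p 4 0, g, p 6 4, s 2 5, g, s 0 6, g], .leaf [10, 12, 6, 3, 7, 3, 8, 1, 6, 3]),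
([s 3 1, g, m 1 0, s 0 2, g, s 5 0, g, p 0 3, g, p 4 0, g, p 6 4, s 2 5, g, s 0 6, g], .leaf [10, 12, 4, 1, 7, 5, 8, 1, 6, 1]),
([s 0 1, g, m 1 0, s 5 2, g, m 4 0, g, p 3 0, g, p 6 3, s 2 4, g, s 0 5, g, s 0 6, g], .leaf [3, 11, 2, 11, 6, 8, 1, 7, 4, 1]),
([s 3 1, g, m 1 0, s 0 2, g, p 0 3, g, s 5 0, g, p 4 0, g, p 6 4, s 2 5, g, s 0 6, g], .leaf [10, 12, 4, 1, 5, 3, 8, 1, 6, 3]),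
([s 3 1, g, m 1 0, s 0 2, g, p 0 3, g, p 4 0, g, p 6 4, s 2 5, g, s 5 0, g, s 0 6, g], .leaf [8, 10, 4, 1, 5, 3, 8, 3, 6, 3]),
([s 3 1, g, m 1 0, s 0 2, g, p 0 3, g, p 4 0, g, p 6 4, s 2 5, g, s 5 6, g], .leaf [8, 10, 4, 1, 5, 3, 6, 6, 0, 3]),
([s 3 1, g, m 1 0, s 0 2, g, p 0 3, g, p 4 0, g, p 6 4, s 2 5, g, s 0 6, g, s 5 0, g], .leaf [8, 10, 4, 1, 5, 3, 6, 1, 4, 5]),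
([s 3 1, g, m 1 0, s 5 2, g, p 0 3, g, p 4 0, g, p 6 4, s 2 0, g, s 0 5, g, s 0 6, g], .inner (.hi 10) [.ref 1226 [0, 1, 2, 3, 4, 7, 6] [1, 1, 1, 1, 1, 3, 1], .ref 1209 [0, 1, 2, 4, 7] [1, 1, 3, 1, 5], .ref 1210 [0, 1, 2, 3, 7] [1, 1, 1, 4, 5], .ref 1227 [0, 1, 2, 3, 4, 7, 6] [1, 1, 1, 1, 1, 3, 1], .ref 1212 [0, 1, 2, 3, 7] [1, 1, 1, 4, 5], .ref 1228 [0, 1, 2, 4, 7, 5, 6] [1, 1, 3, 1, 1, 1, 1], .ref 1214 [0, 1, 2, 3, 7] [1, 1, 4, 5], .ref 1229 [0, 1, 2, 3, 4, 7, 6] [1, 1, 1, 1, 1, 3, 1], .ref 1110 [0, 1, 2, 3, 7] [1, 1, 1, 4, 5], .ref 1228 [0, 1, 2, 4, 7, 5, 6] [1, 3, 1, 1, 1, 1, 1], .ref 440 [0, 4, 7] [6, 1, 1, 5], .ref 1110 [0, 1, 2, 3, 7] [1, 1, 3, 2, 5], .ref 441 [0, 4, 7] [6, 1, 1, 5], .ref 1230 [0, 1, 2,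 3, 4, 7, 6] [1, 1, 1, 1, 1, 3, 1], .ref 1220 [0, 1, 2, 3, 7] [1, 1, 4, 1, 5], .ref 1221 [0, 1, 2, 3, 7] [1, 1, 4, 1, 5], .cyc [3, 10, 12], .ref 1230 [0, 1, 2, 3, 4, 7, 6] [1, 1, 1, 1, 3, 1, 1], .ref 1220 [0, 1, 2, 3, 7] [1, 1, 4, 3, 3], .ref 1221 [0, 1, 2, 3, 7] [1, 1, 4, 3, 3], .ref 1231 [0, 1, 2, 3, 4, 7, 6] [1, 1, 1, 1, 3, 1], .ref 1232 [0, 1, 2, 3, 4, 7, 6] [1, 1, 1, 1, 3, 1, 1], .ref 1220 [0, 1, 2, 3, 7] [1, 1, 4, 5, 1], .ref 1221 [0, 1, 2, 3, 7] [1, 1, 4, 5, 1]]),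
([s 3 1, g, m 1 0, s 5 2, g, p 0 3, g, p 4 0, g, p 0 4, s 2 0, g, s 0 5, g], .inner (.lo 9) [.ref 1206 [0, 1, 6, 2, 3, 4] [1, 1, 1, 1, 1, 3], .ref 5 [0, 6] [1, 8, 4], .ref 1086 [0, 1, 6, 3, 5] [1, 1, 1, 3, 2, 1], .ref 1087 [0, 1, 6, 3, 5] [1, 1, 3, 2, 1], .ref 1207 [0, 1, 2, 6, 3, 4, 5] [1, 1, 1, 1, 1, 1, 1], .ref 5 [0, 6] [4, 5, 4], .ref 1089 [0, 1, 6, 3, 5] [1, 1, 1, 3, 2, 1], .ref 1222 [0, 1, 2, 3, 6, 4] [1, 1, 1, 1, 1, 3], .ref 5 [0, 6] [6, 3, 4], .ref 1105 [0, 1, 3, 6, 5] [1, 1, 1, 3, 2, 1], .cyc [7, 9], .ref 1223 [0, 1, 2, 6, 4, 5] [1, 3, 1, 1, 1, 1], .ref 5 [0, 6] [8, 1, 4], .ref 1105 [0, 1, 3, 6, 5] [1, 1, 3, 1, 2, 1], .ref 1110 [0, 1, 2, 3, 6] [1, 1, 3, 0, 3], .ref 1224 [0, 1, 2, 3, 4, 6, 5] [1, 1, 1,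 1, 1, 1, 1], .ref 1225 [0, 1, 2, 3, 6] [1, 1, 3, 0, 1, 3], .ref 1141 [0, 1, 3, 6, 5] [1, 1, 3, 2, 1, 1], .ref 1233 [0, 1, 2, 3, 4, 5, 6] [1, 1, 1, 1, 1, 1, 1], .ref 1225 [0, 1, 2, 3, 6] [1, 1, 3, 0, 3, 1], .ref 1109 [0, 1, 3, 5, 6] [1, 1, 3, 2, 1, 1]]),
([s 3 1, g, m 1 0, s 0 2, g, p 0 3, g, p 0 4, s 2 0, g, s 4 0, g], .leaf [2, 1, 4, 2, 4, 5]),
([s 3 1, g, m 1 0, s 4 2, g, p 0 3, g, p 0 0, s 2 0, g, s 0 4, g], .inner (.hi 7) [.ref 1201 [0, 1, 2, 3, 5] [1, 1, 1, 1, 3], .ref 419 [0, 2, 5] [1, 2, 3, 3], .ref 161 [0, 5] [1, 6, 4], .ref 1202 [0, 1, 2, 3, 5] [1, 1, 1, 1, 3], .ref 1203 [0, 1, 2, 3, 5] [1, 1, 1, 1, 3], .ref 161 [0, 5] [4, 3, 4], .ref 1204 [0, 1, 2, 3, 5] [1, 1, 1, 3], .ref 1205 [0, 1, 2, 3, 5] [1, 1,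 1, 1, 3], .ref 1234 [0, 1, 2, 3, 5, 4] [1, 1, 1, 1, 1, 1], .ref 161 [0, 5] [6, 1, 4], .cyc [7], .ref 1235 [0, 1, 2, 3, 5] [1, 1, 1, 1, 3], .ref 5 [0, 5] [6, 2, 3], .ref 98 [0, 5] [6, 2, 3], .ref 1235 [0, 1, 2, 3, 5] [1, 1, 1, 1, 1], .ref 1235 [0, 1, 2, 3, 5] [1, 1, 1, 3, 1], .ref 5 [0, 5] [6, 4, 1], .ref 98 [0, 5] [6, 4, 1]]),
([s 4 1, g, s 0 2, g, m 1 0, s 0 3, g, p 0 4, g, m 2 0, s 3 0, g], .leaf [4, 3, 6, 2, 6, 1]),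
([s 4 1, g, m 1 0, s 0 2, g, s 0 3, g, p 0 4, g, m 3 0, s 2 0, g], .leaf [2, 1, 6, 4, 6, 3]),
([s 4 1, g, m 1 0, s 0 2, g, m 0 3, g, p 0 4, g, m 3 0, s 2 0, g], .leaf [9, 6, 9, 4, 6, 4, 1]),
([s 3 1, g, m 1 0, s 0 2, g, p 0 3, g, s 0 4, g, m 4 0, s 2 0, g], .leaf [2, 1, 4, 2, 6, 1]),
([s 3 1, g, s 5 0, g, m 1 0, s 0 2, g, p 0 3, g, m 0 4, g, m 4 5, s 2 0, g], .leaf [8, 6, 9, 2, 5, 7, 2, 3]),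
([s 3 1, g, m 1 0, s 6 2, g, s 5 0, g, p 0 3, g, m 0 4, g, m 4 5, s 2 0, g, s 0 6, g], .leaf [3, 13, 2, 6, 1, 6, 4, 2, 6, 1]),
([s 0 1, g, s 5 0, g, m 1 0, s 0 2, g, s 4 0, g, m 0 3, g, m 3 4, s 2 5, g], .leaf [7, 10, 11, 5, 7, 5, 2, 5]),
([s 0 1, g, p 4 0, g, m 1 0, s 0 2, g, m 0 3, g, m 3 0, s 2 4, g], .leaf [1, 7, 9, 6, 2, 4, 5]),
([s 3 1, g, m 1 0, s 0 2, g, s 6 0, g, p 0 3, g, s 5 0, g, m 0 4, g, m 4 5, s 2 6, g], .leaf [4, 9, 11, 12, 8, 1, 4, 2, 4, 5]),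
([s 0 1, g, m 1 0, g, m 4 0, g, s 3 0, g, m 0 2, g, m 2 3, s 0 4, g], .leaf [6, 9, 5, 1, 5, 6, 3]),
([s 3 1, g, m 1 0, s 0 2, g, p 0 3, g, s 6 0, g, s 5 0, g, m 0 4, g, m 4 5, s 2 6, g], .leaf [6, 9, 11, 12, 6, 1, 7, 5, 2, 5]),
([s 3 1, g, m 1 0, s 0 2, g, p 0 3, g, s 5 0, g, s 6 0, g, m 0 4, g, m 4 5, s 2 6, g], .leaf [2, 1, 6, 10, 11, 7, 4, 2, 4, 5]),
([s 3 1, g, m 1 0, s 0 2, g, p 0 3, g, s 5 0, g, m 6 0, g, m 0 4, g, m 4 5, s 2 6, g], .leaf [12, 14, 4, 1, 5, 3, 4, 6, 2, 5]),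
([s 3 1, g, m 1 0, s 0 2, g, p 0 3, g, s 5 0, g, m 0 4, g, m 4 5, s 2 6, g, s 6 0, g], .leaf [10, 12, 4, 1, 5, 3, 4, 8, 4, 1]),
([s 3 1, g, m 1 0, s 0 2, g, p 0 3, g, s 5 0, g, m 0 4, g, m 4 5, s 2 0, g], .inner (.hi 12) [.ref 1243 [0, 1, 2, 4, 5, 6] [1, 1, 3, 1, 1, 1], .ref 1244 [0, 1, 2, 4, 6] [1, 1, 5, 1, 1], .ref 1210 [0, 1, 2, 3, 6] [1, 1, 1, 6, 1], .cyc [3, 12], .ref 1245 [0, 1, 2, 3, 4, 5, 6] [1, 1, 1, 1, 1, 1, 1], .ref 1212 [0, 1, 2, 3, 6] [1, 1, 1, 6, 1], .ref 1246 [0, 1, 4, 5, 6] [1, 2, 3, 1, 1, 1], .ref 1214 [0, 1, 2, 3, 6] [1, 1, 6, 1], .ref 1247 [0, 1, 2, 3, 4, 5, 6] [1, 1, 1, 1, 1, 1, 1], .ref 1110 [0, 1, 2, 3, 6] [1, 1, 1, 6, 1], .ref 1246 [0, 1, 4, 5, 6] [1, 4, 1, 1, 1, 1], .ref 1248 [0, 1, 2,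 3, 4, 5, 6] [1, 1, 1, 1, 1, 1, 1], .ref 1110 [0, 1, 2, 3, 6] [1, 1, 3, 4, 1], .ref 1249 [0, 1, 2, 3, 4, 5, 6] [1, 1, 1, 1, 1, 1, 1], .ref 481 [0, 4, 6] [8, 1, 1], .ref 482 [0, 4, 6] [8, 1, 1, 1], .ref 1110 [0, 1, 2, 3, 6] [1, 1, 5, 2, 1], .ref 483 [0, 4, 6] [8, 1, 1, 1], .ref 1250 [0, 1, 2, 3, 4, 5, 6] [1, 1, 1, 1, 1, 1, 1], .ref 1220 [0, 1, 2, 3, 6] [1, 1, 6, 1, 1], .ref 1221 [0, 1, 2, 3, 6] [1, 1, 6, 1, 1]]),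
([s 0 1, g, m 1 0, s 5 2, g, m 0 3, g, s 4 0, g, m 3 4, s 2 0, g, s 0 5, g], .leaf [3, 11, 4, 1, 4, 2, 6, 1]),
([s 3 1, g, m 1 0, s 6 2, g, p 0 3, g, m 0 4, g, m 4 5, s 2 0, g, s 5 0, g, s 0 6, g], .leaf [8, 14, 8, 1, 9, 7, 2, 4, 2, 5]),
([s 3 1, g, m 1 0, s 0 2, g, p 0 3, g, m 0 4, g, s 2 0, g, m 4 0, g], .leaf [2, 1, 4, 2, 5, 7, 5]),
([s 3 1, g, s 6 0, g, m 1 0, s 0 2, g, p 0 3, g, m 0 4, g, m 4 5, s 2 6, g, s 5 0, g], .leaf [10, 12, 6, 3, 7, 3, 8, 1, 6, 3]),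
([s 3 1, g, m 1 0, s 0 2, g, s 6 0, g, p 0 3, g, m 0 4, g, m 4 5, s 2 6, g, s 5 0, g], .leaf [10, 12, 4, 1, 7, 5, 8, 1, 6, 1]),
([s 0 1, g, m 1 0, s 6 2, g, m 5 0, g, m 0 3, g, m 3 4, s 2 5, g, s 0 6, g, s 4 0, g], .leaf [3, 11, 2, 11, 6, 8, 1, 7, 4, 1]),
([s 3 1, g, m 1 0, s 0 2, g, p 0 3, g, s 6 0, g, m 0 4, g, m 4 5, s 2 6, g, s 5 0, g], .leaf [10, 12, 4, 1, 5, 3, 8, 1, 6, 3]),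
([s 3 1, g, m 1 0, s 0 2, g, p 0 3, g, m 0 4, g, m 4 5, s 2 6, g, s 6 0, g, s 5 0, g], .leaf [8, 10, 4, 1, 5, 3, 8, 3, 6, 3]),
([s 3 1, g, m 1 0, s 0 2, g, p 0 3, g, m 0 4, g, m 4 5, s 2 6, g, s 5 0, g, s 6 0, g], .leaf [8, 10, 4, 1, 5, 3, 6, 1, 4, 5]),
([s 3 1, g, m 1 0, s 6 2, g, p 0 3, g, m 0 4, g, m 4 5, s 2 0, g, s 0 6, g, s 5 0, g], .inner (.hi 10) [.ref 1255 [0, 1, 2, 3, 4, 5, 7] [1, 1, 1, 1, 1, 3, 1], .ref 1244 [0, 1, 2, 4, 7] [1, 1, 3, 1, 5], .ref 1210 [0, 1, 2, 3, 7] [1, 1, 1, 4, 5], .ref 1256 [0, 1, 2, 3, 4, 5, 7] [1, 1, 1, 1, 1, 3, 1], .ref 1212 [0, 1, 2, 3, 7] [1, 1, 1, 4, 5], .ref 1257 [0, 1, 2, 4, 5, 7, 6] [1, 1, 3, 1, 1, 1, 1], .ref 1214 [0, 1, 2, 3, 7] [1, 1, 4, 5], .ref 1258 [0, 1, 2, 3, 4, 5,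 7] [1, 1, 1, 1, 1, 3, 1], .ref 1110 [0, 1, 2, 3, 7] [1, 1, 1, 4, 5], .ref 1257 [0, 1, 2, 4, 5, 7, 6] [1, 3, 1, 1, 1, 1, 1], .ref 481 [0, 4, 7] [6, 1, 5], .ref 482 [0, 4, 7] [6, 1, 1, 5], .ref 1110 [0, 1, 2, 3, 7] [1, 1, 3, 2, 5], .ref 483 [0, 4, 7] [6, 1, 1, 5], .ref 1259 [0, 1, 2, 3, 4, 5, 7] [1, 1, 1, 1, 1, 3, 1], .ref 1220 [0, 1, 2, 3, 7] [1, 1, 4, 1, 5], .ref 1221 [0, 1, 2, 3, 7] [1, 1, 4, 1, 5], .cyc [3, 10, 12], .ref 1259 [0, 1, 2, 3, 4, 5, 7] [1, 1, 1, 1, 3, 1, 1], .ref 1220 [0, 1, 2, 3, 7] [1, 1, 4, 3, 3], .ref 1221 [0, 1, 2, 3, 7] [1, 1, 4, 3, 3], .ref 1260 [0, 1, 2, 3, 4, 5, 7] [1, 1, 1, 1, 3, 1, 1], .ref 1220 [0, 1, 2, 3, 7] [1, 1, 4, 5, 1], .ref 1221 [0, 1, 2, 3, 7] [1, 1, 4, 5, 1]]),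
([s 3 1, g, m 1 0, s 5 2, g, p 0 3, g, m 0 4, g, m 4 0, s 2 0, g, s 0 5, g], .inner (.hi 9) [.ref 1241 [0, 1, 2, 3, 4, 6] [1, 1, 1, 1, 1, 3], .ref 1126 [0, 1, 3, 6, 5] [1, 1, 1, 3, 2, 1], .ref 13 [0, 6] [1, 8, 4], .ref 1242 [0, 1, 2, 3, 4, 6, 5] [1, 1, 1, 1, 1, 1, 1], .ref 1128 [0, 1, 3, 6, 5] [1, 1, 1, 3, 2, 1], .ref 13 [0, 6] [4, 5, 4], .ref 1129 [0, 1, 3, 6, 5] [1, 1, 3, 2, 1], .ref 1251 [0, 1, 2, 3, 4, 6] [1, 1, 1, 1, 1, 3], .ref 1141 [0, 1, 3, 6, 5] [1, 1, 1, 3, 2, 1], .ref 13 [0, 6] [6, 3, 4], .cyc [7, 9], .ref 1252 [0, 1, 2, 4, 6, 5] [1, 3, 1, 1, 1, 1], .ref 1141 [0, 1, 3, 6, 5] [1, 1, 3, 1, 2, 1], .ref 13 [0, 6] [8, 1, 4], .ref 1253 [0, 1, 2, 3, 4, 6, 5] [1, 1, 1, 1, 1, 1, 1], .ref 1105 [0, 1, 3, 6, 5]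 [1, 1, 3, 2, 1, 1], .ref 1254 [0, 1, 2, 3, 6] [1, 1, 3, 0, 1, 3], .ref 1098 [0, 1, 3, 6, 5] [1, 1, 3, 2, 1], .ref 1261 [0, 1, 2, 3, 4, 6, 5] [1, 1, 1, 1, 1, 1, 1], .ref 1144 [0, 1, 3, 6, 5] [1, 1, 3, 2, 1, 1], .ref 1254 [0, 1, 2, 3, 6] [1, 1, 3, 0, 3, 1]]),
([s 3 1, g, m 1 0, s 0 2, g, p 0 3, g, m 4 0, s 2 0, g, s 0 4, g], .leaf [2, 1, 4, 2, 4, 5]),
([s 3 1, g, m 1 0, s 4 2, g, p 0 3, g, m 0 0, s 2 0, g, s 0 4, g], .inner (.lo 7) [.ref 1237 [0, 1, 5, 2, 3] [1, 1, 1, 1, 3], .ref 98 [0, 5] [1, 6, 4], .ref 463 [0, 5, 2] [1, 2, 3, 3], .ref 463 [0, 5, 2] [1, 0, 3, 3], .ref 1238 [0, 1, 2, 5, 3] [1, 1, 1, 1, 3], .ref 98 [0, 5] [4, 3, 4], .ref 1239 [0, 1, 2, 5, 3] [1, 1, 1, 1, 3], .ref 1240 [0, 1, 2, 3, 5] [1, 1, 1, 1,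 3], .ref 98 [0, 5] [6, 1, 4], .ref 1262 [0, 1, 2, 3, 5, 4] [1, 1, 1, 1, 1, 1], .cyc [7], .contra, .ref 1263 [0, 1, 2, 3, 5] [1, 1, 1, 1, 3], .ref 161 [0, 5] [6, 2, 3], .ref 13 [0, 5] [6, 2, 3], .ref 1263 [0, 1, 2, 3, 5] [1, 1, 1, 3, 1], .ref 161 [0, 5] [6, 4, 1], .ref 13 [0, 5] [6, 4, 1]]),
([s 3 1, g, m 1 0, s 4 2, g, p 0 3, g, s 2 0, g, s 0 4, g], .inner (.bot 6) [.ref 1167 [0, 1, 2, 3, 4] [1, 1, 1, 1], .ref 1200 [0, 1, 2, 3, 4] [1, 1, 1, 1, 1], .ref 1236 [0, 1, 2, 3, 4] [1, 1, 1, 1, 1], .ref 1264 [0, 1, 2, 3, 4] [1, 1, 1, 1, 1]]),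
([s 3 1, g, m 1 0, s 4 2, g, p 0 3, g, s 2 0, g, p 0 4, g], .leaf [2, 1, 6, 3, 6, 2, 3]),
([s 3 1, g, m 1 0, s 0 2, g, p 0 3, g, s 2 0, g], .inner (.lo 3) [.ref 1006 [0, 1, 4, 2, 3] [1, 1, 1, 1, 1], .ref 131 [0, 1, 4] [1, 1, 5], .ref 1007 [0, 1, 4, 2, 3] [1, 1, 1, 1, 1], .ref 1008 [0, 1, 4, 2, 3] [1, 1, 1, 1], .ref 1036 [0, 1, 2, 4, 3] [1, 1, 1, 1, 1], .ref 1037 [0, 1, 2, 4, 3] [1, 1, 1, 1, 1], .ref 763 [0, 1, 4, 3] [1, 1, 1, 3], .ref 1157 [0, 1, 2, 3, 4] [1, 1, 1, 1, 1], .ref 1158 [0, 1, 2, 3, 4] [1, 1, 1, 1, 1], .ref 764 [0, 1, 3, 4] [1, 1, 1, 3], .cyc [3, 7], .ref 1265 [0, 1, 2, 3, 4] [1, 1, 1, 1, 1], .ref 1266 [0, 1, 2, 3, 4] [1, 1, 1, 1, 1], .ref 764 [0, 1, 3, 4] [1, 1, 3, 1]]),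
([s 3 1, g, m 1 0, s 0 2, g, p 0 3, g, p 2 0, g], .leaf [2, 1, 4, 2, 3]),
([s 4 1, g, s 0 2, g, m 1 0, s 2 3, g, p 0 4, g, m 3 0, g], .leaf [2, 4, 1, 5, 3, 5, 3]),
([s 4 1, g, m 1 0, s 3 2, g, s 0 3, g, p 0 4, g, m 2 0, g], .leaf [2, 1, 8, 5, 3, 4, 1]),
([s 3 1, g, m 1 0, s 4 2, g, p 0 3, g, s 0 4, g, m 2 0, g], .leaf [2, 1, 6, 3, 6, 2, 3]),
([s 3 1, g, m 1 0, s 4 2, g, p 0 3, g, m 2 0, g, s 0 4, g], .leaf [2, 1, 6, 3, 1, 2, 3]),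
([s 3 1, g, m 1 0, s 0 2, g, p 0 3, g, m 2 0, g], .inner (.lo 3) [.ref 1269 [0, 1, 4, 2, 3] [1, 1, 1, 1, 1], .ref 131 [0, 1, 4] [1, 1, 5], .ref 980 [0, 1, 4, 2] [1, 1, 3, 1], .ref 981 [0, 1, 4, 2] [1, 3, 1], .ref 1270 [0, 1, 2, 4, 3] [1, 1, 1, 1, 1], .ref 983 [0, 1, 2, 4] [1, 1, 3, 1], .ref 763 [0, 1, 4, 3] [1, 1, 1, 3], .ref 1271 [0, 1, 2, 3, 4] [1, 1, 1, 1, 1], .ref 983 [0, 1, 2, 4] [1, 3, 1, 1], .ref 764 [0, 1, 3, 4] [1, 1, 1, 3], .cyc [3, 7], .ref 1272 [0, 1, 2, 3, 4] [1, 1, 1, 1, 1], .ref 985 [0, 1, 2, 4] [1, 3, 1, 1], .ref 764 [0, 1, 3, 4] [1, 1, 3, 1]]),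
([s 2 1, g, m 1 0, s 0 0, g, p 0 2, g], .inner (.hi 3) [.ref 753 [0, 1, 3, 2] [1, 1, 1, 1], .ref 938 [0, 1, 3, 2] [1, 1, 1, 1], .ref 126 [0, 1, 3] [1, 1, 3], .cyc [3], .ref 977 [0, 1, 3, 2] [1, 1, 1, 1], .ref 978 [0, 1, 3, 2] [1, 1, 1, 1], .ref 987 [0, 1, 3, 2] [1, 1, 1, 1], .ref 988 [0, 1, 3, 2] [1, 1, 1], .ref 1267 [0, 1, 3, 2] [1, 1, 1, 1], .ref 1268 [0, 1, 3, 2] [1, 1, 1, 1], .ref 1273 [0, 1, 3, 2] [1, 1, 1, 1]]),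
([s 4 1, g, m 0 2, g, m 1 3, g, p 2 0, g, m 3 0, g, p 0 4, g], .leaf [1, 4, 2, 3, 5, 3, 5, 1]),
([s 4 1, g, m 0 2, g, m 1 3, g, p 2 0, g, p 0 4, g, m 3 0, g], .leaf [1, 4, 2, 3, 7, 5, 5, 1]),
([s 3 1, g, m 0 2, g, m 1 0, p 2 0, g, p 0 3, g], .inner (.hi 4) [.ref 688 [0, 1, 2, 4] [1, 1, 1, 3], .ref 689 [0, 1, 2, 4] [1, 1, 1, 3], .ref 13 [0, 4] [1, 3, 4], .ref 13 [0, 4] [1, 1, 4], .ref 690 [0, 1, 2, 4] [1, 1, 1, 3], .ref 691 [0, 1, 2, 4] [1, 1, 1, 3], .ref 13 [0, 4] [3, 1, 4], .ref 692 [0, 1, 2, 4] [1, 1, 1, 3], .ref 693 [0, 1, 2, 4] [1, 1, 1, 3], .ref 1275 [0, 1, 2, 4, 3] [1, 1, 0, 1, 1, 1], .cyc [0, 4, 7], .ref 692 [0, 1, 2, 4] [1, 1, 3, 1], .ref 693 [0, 1, 2, 4] [1, 1, 3, 1], .ref 1276 [0, 1, 2, 4, 3] [1, 1,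 0, 1, 1, 1]]),
([s 4 1, g, s 3 0, g, m 1 2, p 2 3, g, p 0 4, g], .leaf [5, 2, 6, 1, 4, 0, 1]),
([s 4 1, g, p 3 0, g, m 1 2, g, p 2 3, g, p 0 4, g], .leaf [4, 3, 7, 3, 5, 3, 3, 1])]

def D04 : List (List (List Item × Pf)) := [d04_0, d04_1, d04_2, d04_3]

end Pool.Agent.H63.PU.C138
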