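import Pool.Agent.H63.PU.Short

/-! Certificate data, machine generated. -/

namespace Pool.Agent.H63.PU.C138

open Pool.Agent.H63.PU Pool.Agent.H63.PU.Short

set_option maxRecDepth 20000

def d05_0 : List (List Item × Pf) := [
([s 0 1, g, m 1 2, p 2 3, g, s 3 0, g], .leaf [5, 1, 2, 0, 1]),
([s 3 1, g, m 1 2, p 2 0, g, p 0 3, g], .inner (.hi 3) [.ref 1278 [0, 1, 2, 4, 3] [1, 1, 1, 1], .ref 1279 [0, 1, 2, 4, 3] [1, 1, 0, 1, 1], .ref 161 [0, 4] [1, 2, 3], .ref 1280 [0, 1, 2, 4] [1, 1, 3], .ref 5 [0, 4] [2, 1, 3], .ref 98 [0, 4] [2, 1, 3], .cyc [0, 2, 3, 5], .ref 1280 [0, 1, 2, 4] [1, 3, 1], .ref 5 [0, 4] [2, 3, 1], .ref 98 [0, 4] [2, 3, 1]]),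
([s 3 1, g, m 1 0, p 2 0, g, s 0 2, g, p 0 3, g], .leaf [2, 1, 6, 4, 1]),
([s 4 1, g, m 0 2, g, m 1 0, g, p 3 0, g, p 2 3, g, p 0 4, g], .leaf [5, 3, 6, 8, 5, 3, 4, 1]),
([s 4 1, g, m 1 2, g, p 3 0, g, p 2 3, g, p 0 4, g], .leaf [3, 1, 4, 6, 3, 1, 2, 1]),
([s 4 1, g, m 1 0, p 3 0, g, s 0 2, g, p 2 3, g, p 0 4, g], .leaf [4, 7, 5, 1, 6, 4, 1]),
([s 4 1, g, m 1 0, p 3 0, g, m 0 2, g, p 2 3, g, p 0 4, g], .leaf [4, 7, 5, 1, 6, 4, 1]),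
([s 4 1, g, m 1 0, p 2 0, g, p 3 2, g, s 0 3, g, p 0 4, g], .leaf [4, 5, 3, 1, 6, 4, 1]),
([s 4 1, g, m 1 0, p 2 0, g, p 3 2, g, p 0 3, g, p 0 4, g], .leaf [5, 7, 6, 6, 4, 1, 5, 3]),
([s 4 1, g, m 1 0, p 2 0, g, p 3 2, g, m 0 3, g, p 0 4, g], .leaf [4, 5, 3, 1, 6, 4, 1]),
([s 3 1, g, m 1 0, p 2 0, g, p 4 2, g, p 0 3, g, s 0 4, g], .leaf [4, 5, 3, 1, 4, 2, 3]),
([s 3 1, g, m 1 0, p 2 0, g, p 4 2, g, p 0 3, g, p 0 4, g], .leaf [5, 9, 8, 8, 6, 1, 3, 1]),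
([s 3 1, g, m 1 0, p 2 0, g, p 4 2, g, p 0 3, g, m 0 4, g], .leaf [4, 5, 3, 1, 4, 2, 3]),
([s 3 1, g, m 1 0, p 2 0, g, p 0 2, g, p 0 3, g], .inner (.lo 5) [.ref 697 [0, 1, 4, 2] [1, 1, 1, 3], .ref 5 [0, 4] [1, 4, 3], .ref 1283 [0, 1, 4, 2, 3] [1, 1, 0, 1, 1, 1], .ref 1284 [0, 1, 4, 2, 3] [1, 0, 1, 1, 1], .cyc [3, 5], .ref 1285 [0, 1, 4, 2, 3] [1, 1, 1, 1, 1], .ref 5 [0, 4] [4, 1, 3], .ref 1286 [0, 1, 4, 2, 3] [1, 1, 1, 1, 1], .ref 1287 [0, 1, 2, 4, 3] [1, 1, 1, 1, 1], .ref 1288 [0, 1, 2, 4, 3] [1, 1, 1, 1, 1], .ref 1289 [0, 1, 2, 4, 3] [1, 1, 1, 1, 1], .ref 1290 [0, 1, 2, 3, 4] [1, 1, 1, 1, 1], .ref 1291 [0, 1, 2, 3, 4] [1, 1, 1, 1, 1], .ref 1292 [0, 1, 2, 3, 4] [1, 1, 1, 1, 1]]),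
([s 3 1, g, m 1 0, p 2 0, g, m 0 2, g, p 0 3, g], .leaf [2, 1, 6, 4, 1]),
([s 2 1, g, m 1 0, p 3 0, g, p 0 2, g, s 0 3, g], .leaf [2, 1, 4, 2, 3]),
([s 3 1, g, s 2 0, g, m 1 0, p 4 2, g, p 0 3, g, p 0 4, g], .leaf [5, 2, 6, 1, 6, 2, 3]),
([s 3 1, g, p 2 0, g, m 1 0, g, p 4 2, g, p 0 3, g, p 0 4, g], .leaf [4, 3, 7, 3, 5, 3, 5, 1]),
([s 0 1, g, m 1 0, p 3 2, g, s 2 0, g, p 0 3, g], .leaf [5, 1, 6, 4, 1]),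
([s 3 1, g, m 1 0, p 4 2, g, p 0 3, g, p 0 4, g, s 2 0, g], .leaf [2, 1, 8, 5, 1, 4, 1]),
([s 2 1, g, m 1 0, p 3 0, g, p 0 2, g, p 0 3, g], .inner (.hi 3) [.ref 1296 [0, 1, 4, 2, 3] [1, 1, 1, 1, 1], .ref 1297 [0, 1, 4, 2, 3] [1, 1, 0, 1, 1, 1], .ref 161 [0, 4] [1, 2, 5], .ref 1298 [0, 1, 4, 3] [1, 1, 3, 1], .ref 5 [0, 4] [2, 1, 5], .ref 98 [0, 4] [2, 1, 5], .ref 5 [0, 4] [2, 1, 3], .ref 1298 [0, 1, 4, 3] [1, 3, 1, 1], .ref 5 [0, 4] [2, 3, 3], .ref 98 [0, 4] [2, 3, 3], .cyc [3, 7], .ref 1299 [0, 1, 4, 2, 3] [1, 1, 1, 1, 1], .ref 5 [0, 4] [2, 5, 1], .ref 98 [0, 4] [2, 5, 1]]),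
([s 2 1, g, m 1 0, p 3 0, g, p 0 2, g, m 0 3, g], .leaf [2, 1, 4, 2, 3]),
([s 2 1, g, m 1 0, p 0 0, g, p 0 2, g], .inner (.lo 3) [.ref 146 [0, 1, 3] [1, 1, 3], .ref 5 [0, 3] [1, 2, 3], .ref 1277 [0, 1, 3, 2] [1, 1, 1, 1], .ref 1281 [0, 1, 3, 2] [1, 1, 1], .cyc [3], .ref 1282 [0, 1, 3, 2] [1, 1, 1, 1], .ref 1293 [0, 1, 3, 2] [1, 1, 1, 1], .ref 1294 [0, 1, 3, 2] [1, 1, 1, 1], .ref 1295 [0, 1, 2, 3] [1, 1, 1, 1], .ref 1300 [0, 1, 2, 3] [1, 1, 1, 1], .ref 1301 [0, 1, 2, 3] [1, 1, 1, 1]]),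
([s 0 1, g, s 2 0, g, p 3 0, g, m 1 2, m 0 3, g], .leaf [2, 5, 1, 4, 1]),
([s 0 1, g, p 2 0, g, p 3 0, g, m 1 2, m 0 3, g], .leaf [5, 1, 5, 0, 1]),
([s 0 1, g, p 3 0, g, s 2 0, g, m 1 2, m 0 3, g], .leaf [3, 1, 5, 2, 1]),
([s 0 1, g, p 3 0, g, p 2 0, g, m 1 2, m 0 3, g], .leaf [3, 1, 5, 2, 1]),
([s 4 1, g, p 3 0, g, m 1 2, g, m 2 3, g, p 0 4, g], .leaf [1, 4, 2, 3, 3, 1, 3, 1]),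
([s 0 1, g, p 3 0, g, m 1 2, m 0 3, g, s 2 0, g], .leaf [3, 1, 3, 0, 3]),
([s 0 1, g, p 3 0, g, m 1 2, m 0 3, g, p 2 0, g], .leaf [3, 1, 3, 0, 3]),
([s 4 1, g, p 3 0, g, m 1 2, g, m 0 3, g, m 2 0, g, p 0 4, g], .leaf [1, 4, 2, 3, 5, 3, 5, 1]),
([s 4 1, g, p 3 0, g, m 1 2, g, m 0 3, g, p 0 4, g, m 2 0, g], .leaf [1, 4, 2, 3, 7, 5, 5, 1]),
([s 3 1, g, p 2 0, g, m 1 0, m 0 2, g, p 0 3, g], .inner (.hi 4) [.ref 1303 [0, 1, 4, 2] [1, 1, 1, 3], .ref 1304 [0, 1, 4, 2] [1, 1, 1, 3], .ref 13 [0, 4] [1, 3, 4], .ref 1305 [0, 1, 4, 2] [1, 1, 1, 3], .ref 1306 [0, 1, 4, 2] [1, 1, 1, 3], .ref 13 [0, 4] [3, 1, 4], .ref 1307 [0, 1, 4, 2, 3] [1, 1, 0, 1, 1], .ref 1308 [0, 1, 4, 2] [1, 1, 1, 3], .ref 1309 [0, 1, 4, 2] [1, 1, 1, 3], .ref 1310 [0,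 1, 4, 2, 3] [1, 1, 0, 1, 1, 1], .cyc [0, 4, 7], .ref 1308 [0, 1, 4, 2] [1, 1, 3, 1], .ref 1309 [0, 1, 4, 2] [1, 1, 3, 1], .ref 1311 [0, 1, 4, 2, 3] [1, 1, 0, 1, 1, 1]]),
([s 3 1, g, m 1 0, m 0 2, g, s 2 0, g, p 0 3, g], .leaf [2, 1, 6, 4, 1]),
([s 3 1, g, m 1 0, m 0 2, g, p 2 0, g, p 0 3, g], .leaf [2, 1, 6, 4, 1]),
([s 0 1, g, s 3 0, g, m 1 0, m 0 2, g, m 2 3, g], .leaf [2, 6, 6, 4, 1]),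
([s 4 1, g, p 3 0, g, m 1 0, g, m 0 2, g, m 2 3, g, p 0 4, g], .leaf [5, 3, 6, 8, 5, 3, 4, 1]),
([s 4 1, g, m 1 0, m 0 2, g, s 3 0, g, m 2 3, g, p 0 4, g], .leaf [4, 7, 5, 1, 6, 4, 1]),
([s 4 1, g, m 1 0, m 0 2, g, p 3 0, g, m 2 3, g, p 0 4, g], .leaf [4, 7, 5, 1, 6, 4, 1]),
([s 4 1, g, m 1 0, m 0 2, g, m 2 3, g, s 3 0, g, p 0 4, g], .leaf [4, 5, 3, 1, 6, 4, 1]),
([s 4 1, g, m 1 0, m 0 2, g, m 2 3, g, p 3 0, g, p 0 4, g], .leaf [4, 5, 3, 1, 6, 4, 1]),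
([s 4 1, g, m 1 0, m 0 2, g, m 2 3, g, m 3 0, g, p 0 4, g], .leaf [5, 7, 6, 6, 4, 1, 5, 3]),
([s 4 1, g, m 1 0, m 0 2, g, m 2 3, g, p 3 4, g], .leaf [4, 5, 3, 1, 4, 2, 1]),
([s 4 1, g, m 1 0, m 0 2, g, m 2 3, g, p 0 4, g, s 3 0, g], .leaf [4, 5, 3, 1, 4, 2, 3]),
([s 4 1, g, m 1 0, m 0 2, g, m 2 3, g, p 0 4, g, p 3 0, g], .leaf [4, 5, 3, 1, 4, 2, 3]),
([s 4 1, g, m 1 0, m 0 2, g, m 2 3, g, p 0 4, g, m 3 0, g], .leaf [5, 9, 8, 8, 6, 1, 3, 1]),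
([s 3 1, g, m 1 0, m 0 2, g, m 2 0, g, p 0 3, g], .inner (.hi 5) [.ref 1315 [0, 1, 2, 4] [1, 1, 1, 3], .ref 1316 [0, 1, 2, 4, 3] [1, 1, 0, 1, 1, 1], .ref 13 [0, 4] [1, 4, 3], .cyc [3, 5], .ref 1317 [0, 1, 2, 4, 3] [1, 1, 1, 1, 1], .ref 1318 [0, 1, 2, 4, 3] [1, 1, 1, 1, 1], .ref 13 [0, 4] [4, 1, 3], .ref 1319 [0, 1, 2, 4, 3] [1, 1, 1, 1, 1], .ref 1320 [0, 1, 2, 4, 3] [1, 1, 1, 1, 1], .ref 1321 [0, 1, 2, 4, 3] [1, 1, 1, 1, 1], .ref 1322 [0, 1, 2, 4, 3] [1, 1, 1, 1], .ref 1323 [0, 1, 2, 4, 3] [1, 1, 1, 1, 1], .ref 1324 [0, 1, 2, 4, 3] [1, 1, 1, 1, 1], .ref 1325 [0, 1, 2, 4, 3] [1, 1, 1, 1, 1]]),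
([s 3 1, g, m 1 0, m 0 2, g, p 2 3, g], .leaf [2, 1, 4, 2, 1]),
([s 3 1, g, m 1 0, m 0 2, g, p 0 3, g, s 2 0, g], .leaf [2, 1, 4, 2, 3]),
([s 3 1, g, m 1 0, m 0 2, g, p 0 3, g, p 2 0, g], .leaf [2, 1, 4, 2, 3]),
([s 4 1, g, s 0 2, g, m 1 0, m 2 3, g, p 0 4, g, m 3 0, g], .leaf [5, 2, 6, 1, 6, 2, 3]),
([s 4 1, g, m 0 2, g, m 1 0, g, m 2 3, g, p 0 4, g, m 3 0, g], .leaf [4, 3, 7, 3, 5, 3, 5, 1]),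
([s 4 1, g, m 1 2, g, m 2 3, g, p 0 4, g, m 3 0, g], .leaf [2, 1, 5, 3, 3, 1, 3, 1]),
([s 0 1, g, m 1 0, m 3 2, g, s 0 3, g, m 2 0, g], .leaf [5, 1, 6, 4, 1]),
([s 3 1, g, m 1 0, m 4 2, g, p 0 3, g, m 2 0, g, s 0 4, g], .leaf [2, 1, 8, 5, 1, 4, 1]),
([s 3 1, g, m 1 0, m 0 2, g, p 0 3, g, m 2 0, g], .inner (.lo 3) [.ref 1330 [0, 1, 4, 2, 3] [1, 1, 1, 1, 1], .ref 98 [0, 4] [1, 2, 5], .ref 1331 [0, 1, 4, 2, 3] [1, 1, 0, 1, 1, 1], .ref 1332 [0, 1, 4, 2, 3] [1, 0, 1, 1, 1], .ref 1333 [0, 1, 2, 4] [1, 1, 3, 1], .ref 161 [0, 4] [2, 1, 5], .ref 13 [0, 4] [2, 1, 5], .ref 1333 [0, 1, 2, 4] [1, 3, 1, 1], .ref 161 [0, 4] [2, 3, 3], .ref 13 [0, 4] [2, 3, 3], .cyc [3, 7], .ref 1334 [0, 1, 2, 3, 4] [1, 1, 1, 1, 1], .ref 161 [0, 4] [2, 5, 1],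 .ref 13 [0, 4] [2, 5, 1]]),
([s 2 1, g, m 1 0, m 0 0, g, p 0 2, g], .inner (.hi 3) [.ref 117 [0, 1, 3] [1, 1, 3], .ref 1312 [0, 1, 3, 2] [1, 1, 1, 1], .ref 13 [0, 3] [1, 2, 3], .cyc [3], .ref 1313 [0, 1, 3, 2] [1, 1, 1, 1], .ref 1314 [0, 1, 3, 2] [1, 1, 1, 1], .ref 1326 [0, 1, 3, 2] [1, 1, 1, 1], .ref 1327 [0, 1, 3, 2] [1, 1, 1], .ref 1328 [0, 1, 3, 2] [1, 1, 1, 1], .ref 1329 [0, 1, 3, 2] [1, 1, 1, 1], .ref 1335 [0, 1, 3, 2] [1, 1, 1, 1]]),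
([s 2 1, g, m 1 0, g, p 0 2, g], .inner (.top 3) [.ref 706 [0, 1, 2] [1, 1], .ref 1274 [0, 1, 2] [1, 1, 1], .ref 1302 [0, 1, 2] [1, 1, 1], .ref 1336 [0, 1, 2] [1, 1, 1]]),
([s 0 1, g, m 1 0, g], .inner (.lo 0) [.ref 2 [0, 2] [1, 3], .ref 686 [0, 1, 2] [1, 1, 1], .ref 687 [0, 2] [1, 3], .cyc [0, 2], .ref 2 [0, 2] [3, 1], .ref 1337 [0, 1, 2] [1, 1, 1], .ref 687 [0, 2] [3, 1]]),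
([s 0 0, g], .inner (.hi 0) [.cyc [0], .ref 0 [0, 1] [1, 1], .ref 1 [0, 1] [1, 1], .ref 1338 [0, 1] [1, 1]]),
([p 1 0, g, s 0 1, g], .leaf [1]),
([p 0 1, s 0 2, g, s 1 0, g, p 2 0, g], .leaf [3, 2, 3]),
([p 0 1, g, p 1 0, g], .leaf [0, 1]),
([p 0 1, g, m 1 0, g], .leaf [2, 1])]

def d05_1 : List (List Item × Pf) := [
([p 0 1, s 0 2, g, p 2 0, g, s 1 0, g], .leaf [5, 4, 1]),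
([p 0 0, s 0 1, g, p 1 0, g], .inner (.hi 0) [.cyc [0], .contra, .ref 1341 [0, 2, 1] [1, 1, 1], .ref 1342 [0, 2] [2, 3], .ref 1343 [0, 2] [2, 3], .ref 1344 [0, 2, 1] [1, 1, 1], .ref 1342 [0, 2] [4, 1], .ref 1343 [0, 2] [4, 1]]),
([p 3 1, g, s 0 2, g, s 1 0, p 2 3, g], .leaf [4, 3, 4, 0, 1]),
([p 4 0, g, s 0 1, g, s 2 0, g, s 0 2, s 0 3, g, s 1 0, p 3 4, g], .leaf [6, 1, 9, 3, 2, 3]),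
([p 3 0, g, p 0 1, g, s 0 2, g, s 1 0, p 2 3, g], .leaf [6, 3, 6, 0, 3]),
([p 0 0, g, m 0 1, g, s 0 2, g, s 1 0, p 2 0, g], .leaf [4, 6, 3]),
([p 4 0, g, s 2 1, g, s 0 2, s 0 3, g, s 1 0, p 3 4, g], .leaf [4, 1, 7, 3, 2, 3]),
([p 4 0, g, s 2 0, g, s 0 1, g, s 0 2, s 0 3, g, s 1 0, p 3 4, g], .leaf [6, 3, 9, 3, 2, 5]),
([p 4 0, g, s 1 0, g, s 0 1, s 0 2, g, s 0 3, g, s 3 0, p 2 4, g], .leaf [4, 1, 9, 5, 4, 1]),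
([p 0 0, g, s 0 1, g, p 0 2, g, s 2 0, p 1 0, g], .leaf [2, 6, 1]),
([p 4 0, g, s 3 0, g, s 0 1, g, m 0 2, g, s 2 3, p 1 4, g], .leaf [5, 1, 7, 4, 6, 4, 1]),
([p 0 0, g, p 2 0, g, s 0 1, g, s 0 2, p 1 0, g], .leaf [4, 6, 3]),
([p 3 0, g, m 2 0, g, s 0 1, g, s 0 2, p 1 3, g], .leaf [6, 3, 6, 0, 3]),
([p 0 0, g, s 2 1, g, s 0 2, p 1 0, g], .leaf [2, 4, 3]),
([p 4 0, g, s 1 0, g, s 0 1, s 0 2, g, s 3 0, g, s 0 3, p 2 4, g], .leaf [4, 1, 9, 5, 4, 1]),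
([p 4 0, g, s 0 1, g, p 3 0, g, m 0 2, g, s 2 3, p 1 4, g], .leaf [7, 9, 1, 6, 1, 4, 1]),
([p 0 0, g, s 0 1, g, m 2 0, g, s 0 2, p 1 0, g], .leaf [2, 6, 1]),
([p 4 0, g, s 0 1, g, m 0 2, g, p 3 0, g, s 2 3, p 1 4, g], .leaf [7, 9, 1, 6, 1, 4, 1]),
([p 4 0, g, s 1 0, g, s 0 1, s 0 2, g, s 0 3, p 2 4, g, s 3 0, g], .leaf [4, 1, 7, 3, 2, 5]),
([p 0 0, g, s 0 1, g, s 0 2, p 1 0, g, p 2 0, g], .leaf [2, 4, 5]),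
([p 0 0, g, s 0 1, g, s 0 2, p 1 0, g, m 2 0, g], .leaf [7, 2, 3]),
([p 4 0, g, s 1 0, g, s 0 1, s 0 2, g, m 0 3, g, s 3 0, p 2 4, g], .inner (.hi 9) [.ref 1354 [0, 2, 3, 5, 4] [1, 4, 1, 1, 1], .ref 1355 [0, 2, 5] [1, 4, 3, 1], .ref 1356 [0, 2, 5, 4] [1, 4, 3, 1], .ref 1354 [0, 2, 3, 5, 4] [3, 2, 1, 1, 1], .ref 1355 [0, 2, 5] [3, 2, 3, 1], .ref 1356 [0, 2, 5, 4] [3, 2, 3, 1], .ref 1354 [0, 2, 3, 5, 4] [3, 0, 1, 1, 1], .ref 1357 [0, 2, 5] [4, 3, 1], .ref 1358 [0, 1, 2, 5, 4] [1, 1, 1, 3, 1], .ref 1359 [0, 2, 3, 5, 4] [4, 1, 1, 1, 1], .ref 1360 [0, 2, 5] [4, 1, 3, 1], .cyc [7, 9], .ref 1358 [0, 1, 2, 5, 4] [1, 1, 3, 1, 1], .ref 1361 [0, 2, 3, 5, 4] [4, 1, 1, 1, 1], .ref 1360 [0, 2, 5] [4, 3, 1, 1], .ref 1362 [0, 1, 2, 5, 4] [1,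 1, 3, 1, 1], .ref 1363 [0, 2, 5] [4, 3, 1, 1], .ref 1364 [0, 2, 5] [4, 3, 1, 1]]),
([p 3 0, g, s 1 0, g, s 0 1, s 0 2, g, s 4 0, p 2 3, g, s 0 4, g], .leaf [4, 1, 7, 3, 2, 5]),
([p 0 0, g, s 0 1, g, s 2 0, p 1 0, g, p 0 2, g], .leaf [7, 2, 3]),
([p 0 0, g, s 0 1, g, s 2 0, p 1 0, g, m 0 2, g], .leaf [2, 4, 5]),
([p 3 0, g, s 1 0, g, s 0 1, s 0 2, g, s 0 0, p 2 3, g], .inner (.lo 7) [.ref 1346 [0, 4, 2, 3] [4, 1, 1], .ref 1347 [0, 4, 1, 2, 3] [1, 1, 1, 1, 1], .ref 1348 [0, 4, 2, 3] [1, 4, 1, 1], .ref 1349 [0, 4, 2] [1, 4, 1, 1], .ref 1350 [0, 4, 1, 2, 3] [1, 1, 1, 1], .ref 1351 [0, 4, 1, 2, 3] [1, 1, 1, 1, 1], .ref 1348 [0, 4, 2, 3] [3, 2, 1, 1], .ref 1349 [0, 4, 2] [3, 2, 1, 1], .ref 1352 [0, 1, 2, 4, 3] [1, 1, 1, 1, 1], .ref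 1353 [0, 2, 4] [4, 1, 1, 1], .ref 1365 [0, 1, 2, 4, 3] [1, 1, 1, 1, 1], .cyc [7], .ref 1366 [0, 1, 2, 3, 4] [1, 1, 1, 1, 1], .ref 1367 [0, 2, 4] [4, 1, 1, 1], .ref 1368 [0, 2, 4] [4, 1, 1, 1]]),
([p 3 1, g, s 1 0, s 0 2, g, p 2 3, g], .leaf [2, 1, 4, 2, 1]),
([p 4 0, g, s 0 1, g, p 2 0, g, s 1 2, s 0 3, g, p 3 4, g], .leaf [3, 9, 5, 1, 6, 4, 1]),
([p 3 0, g, p 0 1, g, s 1 0, s 0 2, g, p 2 3, g], .leaf [4, 1, 6, 2, 1]),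
([p 4 0, g, m 0 1, g, p 2 0, g, s 1 2, s 0 3, g, p 3 4, g], .leaf [5, 9, 3, 6, 1, 4, 1]),
([p 4 0, g, p 2 0, g, s 0 1, g, s 1 2, s 0 3, g, p 3 4, g], .leaf [5, 9, 3, 6, 1, 4, 1]),
([p 4 0, g, p 2 0, g, m 0 1, g, s 1 2, s 0 3, g, p 3 4, g], .leaf [5, 9, 3, 6, 1, 4, 1]),
([p 4 0, g, p 1 0, g, s 3 1, s 0 2, g, s 0 3, g, p 2 4, g], .leaf [1, 7, 2, 6, 6, 4, 1]),
([p 0 0, g, s 2 0, s 0 1, g, p 0 2, g, p 1 0, g], .leaf [5, 2, 5]),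
([p 3 0, g, s 2 0, s 0 1, g, m 0 2, g, p 1 3, g], .leaf [6, 7, 0, 2, 3]),
([p 3 0, g, p 1 0, g, s 4 1, s 0 2, g, p 2 3, g, s 0 4, g], .leaf [1, 7, 5, 1, 6, 4, 1]),
([p 0 0, g, s 2 0, s 0 1, g, p 1 0, g, p 0 2, g], .leaf [7, 4, 1]),
([p 2 0, g, s 3 0, s 0 1, g, p 1 2, g, m 0 3, g], .leaf [4, 5, 0, 2, 3]),
([p 3 0, g, p 1 0, g, s 0 1, s 0 2, g, p 2 3, g], .inner (.lo 4) [.ref 1370 [0, 4, 2, 3] [3, 1, 1], .ref 1371 [0, 4, 1, 2, 3] [1, 1, 1, 1, 1], .ref 1372 [0, 4, 2, 3] [1, 3, 1, 1], .ref 1373 [0, 4, 1, 2, 3] [1, 1, 1, 1, 1], .cyc [2, 4], .ref 1374 [0, 4, 1, 2, 3] [1, 1, 1, 1, 1], .ref 1372 [0, 4, 2, 3] [3, 1, 1, 1], .ref 1375 [0, 4, 1, 2, 3] [1, 1, 1, 1, 1], .ref 1376 [0, 1, 2, 4, 3] [1, 1, 1, 1, 1], .ref 1377 [0, 2, 4] [3, 1,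 1, 1], .ref 1378 [0, 2, 4, 3] [3, 1, 1, 1], .ref 1379 [0, 1, 2, 3, 4] [1, 1, 1, 1, 1], .ref 1380 [0, 2, 4] [3, 1, 1, 1], .ref 1381 [0, 2, 3, 4] [3, 1, 1, 1]]),
([p 3 0, g, m 1 0, g, s 0 1, s 0 2, g, p 2 3, g], .leaf [4, 1, 6, 2, 1]),
([p 4 0, g, s 3 0, g, s 0 1, s 0 2, g, s 1 0, g, s 0 3, p 2 4, g], .leaf [7, 2, 8, 3, 7, 5]),
([p 0 0, g, s 3 1, s 0 2, g, s 1 0, g, s 0 3, p 2 0, g], .leaf [5, 2, 6, 3]),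
([p 4 0, g, s 0 1, s 0 2, g, s 3 0, g, s 1 0, g, s 0 3, p 2 4, g], .leaf [7, 4, 8, 5, 7, 3]),
([p 4 0, g, s 0 1, g, s 0 2, s 0 3, g, s 2 0, g, s 1 0, p 3 4, g], .leaf [7, 2, 8, 3, 7, 5]),
([p 4 0, g, s 0 1, s 0 2, g, s 0 3, g, s 1 0, g, s 3 0, p 2 4, g], .leaf [7, 4, 8, 5, 7, 3]),
([p 4 0, g, s 0 1, s 0 2, g, s 1 3, g, s 3 0, p 2 4, g], .leaf [7, 1, 7, 0, 2, 3]),
([p 4 0, g, s 0 1, s 0 2, g, s 1 0, g, s 0 3, g, s 3 0, p 2 4, g], .leaf [9, 1, 9, 0, 2, 3]),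
([p 3 0, g, s 0 1, s 0 2, g, s 1 0, g, s 4 0, p 2 3, g, s 0 4, g], .leaf [2, 4, 9, 2, 6, 5]),
([p 4 0, g, s 0 1, s 0 2, g, p 3 0, g, s 1 0, g, s 0 3, p 2 4, g], .inner (.lo 9) [.ref 1346 [0, 5, 2, 4] [2, 5, 1], .ref 1387 [0, 5, 1, 2, 4] [1, 1, 3, 1, 1], .ref 1348 [0, 5, 2, 4] [1, 2, 5, 1], .ref 1349 [0, 5, 2] [1, 2, 5, 1], .ref 1388 [0, 1, 2, 5, 4] [1, 1, 3, 1, 1], .ref 1353 [0, 2, 5] [2, 1, 5, 1], .ref 1361 [0, 2, 5, 3, 4] [2, 1, 1, 3, 1], .cyc [5, 9], .ref 1388 [0, 1, 2, 5, 4] [1, 3, 1, 1, 1], .ref 1353 [0, 2, 5] [2, 3, 3, 1], .ref 1359 [0, 2, 5, 3, 4] [2, 1, 1, 3, 1], .ref 1389 [0, 1, 2, 5, 4] [1, 3, 1, 1], .ref 1390 [0, 1, 2, 5, 4] [1, 3, 1, 1, 1], .ref 1353 [0, 2, 5] [2, 5, 1, 1], .ref 1359 [0, 2, 5, 3, 4] [2, 1, 3, 1,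 1], .ref 1391 [0, 1, 2, 4, 5] [1, 3, 1, 1, 1], .ref 1367 [0, 2, 5] [2, 5, 1, 1], .ref 1368 [0, 2, 5] [2, 5, 1, 1]]),
([p 4 0, g, s 0 1, s 0 2, g, s 1 0, g, s 3 0, g, s 0 3, p 2 4, g], .leaf [9, 1, 9, 0, 2, 3]),
([p 4 0, g, s 0 1, s 0 2, g, s 1 0, g, p 3 0, g, s 0 3, p 2 4, g], .inner (.lo 9) [.ref 1346 [0, 5, 2, 4] [2, 5, 1], .ref 1387 [0, 5, 1, 2, 4] [1, 1, 1, 3, 1], .ref 1348 [0, 5, 2, 4] [1, 2, 5, 1], .ref 1349 [0, 5, 2] [1, 2, 5, 1], .ref 1388 [0, 1, 2, 5, 4] [1, 1, 1, 3, 1], .ref 1353 [0, 2, 5] [2, 1, 5, 1], .ref 1361 [0, 2, 5, 3, 4] [2, 1, 3, 1, 1], .ref 1389 [0, 1, 2, 5, 4] [1, 1, 3, 1], .ref 1390 [0, 1, 2, 5, 4] [1, 1, 1, 3, 1], .ref 1353 [0, 2, 5] [2, 3, 3, 1], .ref 1361 [0, 2, 5, 3, 4] [2, 3, 1, 1, 1], .cyc [7, 9],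 .ref 1390 [0, 1, 2, 5, 4] [1, 1, 3, 1, 1], .ref 1353 [0, 2, 5] [2, 5, 1, 1], .ref 1359 [0, 2, 5, 3, 4] [2, 3, 1, 1, 1], .ref 1391 [0, 1, 2, 4, 5] [1, 1, 3, 1, 1], .ref 1367 [0, 2, 5] [2, 5, 1, 1], .ref 1368 [0, 2, 5] [2, 5, 1, 1]]),
([p 4 0, g, s 0 1, s 0 2, g, s 1 0, g, s 0 3, p 2 4, g, s 3 0, g], .leaf [2, 4, 9, 2, 6, 5]),
([p 3 0, g, s 0 1, s 0 2, g, s 1 0, g, s 0 0, p 2 3, g], .inner (.hi 7) [.ref 1384 [0, 1, 2, 4, 3] [1, 1, 1, 1, 1], .ref 1355 [0, 2, 4] [1, 2, 3, 1], .ref 1356 [0, 2, 4, 3] [1, 2, 3, 1], .ref 1385 [0, 1, 2, 4] [1, 1, 1, 1], .ref 1357 [0, 2, 4] [2, 3, 1], .ref 1386 [0, 1, 2, 4, 3] [1, 1, 1, 1, 1], .ref 1392 [0, 1, 2, 4, 3] [1, 1, 1, 1, 1], .ref 1360 [0, 2, 4] [2, 1, 3, 1], .ref 1393 [0, 1, 2, 4, 3] [1, 1,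 1, 1, 1], .ref 1394 [0, 1, 2, 4, 3] [1, 1, 1, 1, 1], .ref 1360 [0, 2, 4] [2, 3, 1, 1], .cyc [7], .ref 1395 [0, 1, 2, 4, 3] [1, 1, 1, 1, 1], .ref 1363 [0, 2, 4] [2, 3, 1, 1], .ref 1364 [0, 2, 4] [2, 3, 1, 1]]),
([p 3 0, g, s 0 1, s 0 2, g, p 1 0, g, p 2 3, g], .leaf [6, 7, 0, 2, 3]),
([p 0 0, g, s 0 1, s 0 2, g, m 1 0, g, p 2 0, g], .leaf [5, 2, 5]),
([p 0 0, g, s 0 1, g, s 0 2, g, s 2 3, s 1 4, g, s 3 0, p 4 0, g], .leaf [2, 6, 1, 5, 6, 1]),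
([p 0 0, g, p 0 1, g, s 0 2, g, s 2 3, s 1 4, g, s 3 0, p 4 0, g], .leaf [2, 6, 1, 5, 6, 1]),
([p 0 0, g, m 0 1, g, s 0 2, g, s 2 3, s 1 4, g, s 3 0, p 4 0, g], .leaf [7, 9, 7, 3, 6, 3]),
([p 0 0, g, s 0 1, g, s 0 2, g, s 1 3, s 2 4, g, s 3 0, p 4 0, g], .leaf [4, 6, 3, 5, 6, 3]),
([p 0 0, g, s 0 1, g, p 0 2, g, s 1 3, s 2 4, g, s 3 0, p 4 0, g], .leaf [4, 6, 3, 5, 6, 3]),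
([p 0 0, g, s 0 1, g, m 0 2, g, s 1 3, s 2 4, g, s 3 0, p 4 0, g], .leaf [7, 9, 7, 1, 6, 3]),
([p 0 0, g, s 0 1, g, s 1 2, s 4 3, g, s 0 4, g, s 2 0, p 3 0, g], .leaf [5, 9, 7, 5, 6, 1]),
([p 0 0, g, s 0 1, g, s 1 2, s 4 3, g, p 0 4, g, s 2 0, p 3 0, g], .leaf [5, 9, 7, 5, 6, 1]),
([p 4 0, g, s 0 1, g, s 1 0, s 3 2, g, m 0 3, g, p 2 4, g], .leaf [4, 1, 4, 4, 6, 2, 1])]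

def d05_2 : List (List Item × Pf) := [
([p 4 0, g, s 0 1, g, s 1 2, s 5 3, g, s 2 0, p 3 4, g, s 0 5, g], .leaf [4, 1, 4, 5, 1, 4, 0, 3]),
([p 3 0, g, s 0 1, g, s 1 0, s 4 2, g, p 2 3, g, p 0 4, g], .leaf [4, 1, 8, 3, 1, 2, 1]),
([p 3 0, g, s 0 1, g, s 1 0, s 4 2, g, p 2 3, g, m 0 4, g], .leaf [4, 1, 4, 6, 1, 4, 3]),
([p 4 0, g, s 0 1, g, s 1 2, s 0 3, g, s 2 0, p 3 4, g], .inner (.lo 5) [.cyc [0, 5, 8], .ref 1399 [0, 5, 1, 2, 3] [1, 1, 1, 1, 1], .ref 1400 [0, 5, 1, 2, 3] [1, 1, 1, 1, 1], .ref 1401 [0, 5, 1, 2, 3] [1, 1, 1, 1, 1], .ref 1402 [0, 1, 5, 2, 3] [1, 1, 1, 1, 1], .ref 1403 [0, 1, 5, 2, 3] [1, 1, 1, 1, 1], .ref 1404 [0, 1, 5, 2, 3] [1, 1, 1, 1, 1], .ref 1405 [0, 1, 2, 3, 5] [1, 1, 1, 1, 1], .ref 1406 [0, 1, 2, 3, 5]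 [1, 1, 1, 1, 1], .ref 1407 [0, 1, 3, 5, 4] [1, 1, 1, 2, 1], .ref 1357 [0, 3, 5] [4, 1, 1], .ref 1408 [0, 1, 2, 3, 4, 5] [1, 1, 1, 1, 1], .ref 1409 [0, 1, 3, 4, 5] [1, 1, 2, 1, 1], .ref 1410 [0, 1, 3, 4, 5] [1, 1, 2, 1, 1]]),
([p 4 0, g, m 0 1, g, s 1 2, g, s 0 3, g, s 2 0, p 3 4, g], .leaf [3, 9, 5, 6, 4, 2, 3]),
([p 0 0, g, s 3 1, s 0 2, g, s 0 3, g, s 1 0, p 2 0, g], .leaf [5, 2, 6, 3]),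
([p 0 0, g, s 0 1, g, s 4 2, s 1 3, g, s 2 0, p 3 0, g, s 0 4, g], .leaf [5, 7, 5, 1, 4, 5]),
([p 4 0, g, p 0 1, g, s 0 2, s 1 3, g, s 2 0, p 3 4, g], .leaf [7, 2, 3, 3, 5, 0, 3]),
([p 0 0, g, m 0 1, g, s 4 2, s 1 3, g, s 2 0, p 3 0, g, s 0 4, g], .leaf [5, 7, 5, 1, 4, 5]),
([p 0 0, g, s 4 1, s 3 2, g, s 0 3, g, s 1 0, p 2 0, g, s 0 4, g], .leaf [3, 7, 5, 3, 4, 5]),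
([p 0 0, g, s 4 1, s 3 2, g, p 0 3, g, s 1 0, p 2 0, g, s 0 4, g], .leaf [3, 7, 5, 3, 4, 5]),
([p 4 0, g, s 0 1, g, s 3 2, g, m 0 3, g, s 1 0, p 2 4, g], .leaf [3, 4, 4, 7, 3, 2, 3]),
([p 0 0, g, s 4 1, s 3 2, g, s 1 0, p 2 0, g, s 0 3, g, s 0 4, g], .leaf [3, 7, 9, 2, 6, 3]),
([p 3 0, g, s 0 1, g, s 4 2, g, s 1 0, p 2 3, g, p 0 4, g], .leaf [3, 7, 3, 2, 3, 5, 3]),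
([p 0 0, g, s 4 1, s 3 2, g, s 1 0, p 2 0, g, m 0 3, g, s 0 4, g], .leaf [3, 7, 9, 2, 6, 3]),
([p 0 0, g, s 3 1, s 4 2, g, s 1 0, p 2 0, g, s 0 3, g, s 0 4, g], .leaf [3, 5, 3, 6, 2, 5]),
([p 0 0, g, s 3 1, s 4 2, g, s 1 0, p 2 0, g, s 0 3, g, m 0 4, g], .leaf [3, 5, 3, 6, 2, 5]),
([p 3 0, g, s 4 1, s 0 2, g, s 1 0, p 2 3, g, s 0 4, g], .inner (.lo 3) [.cyc [0, 3, 6], .ref 1414 [0, 5, 1, 2, 4] [1, 1, 1, 1, 1], .ref 1415 [0, 5, 1, 2, 3] [1, 1, 1, 3], .ref 1416 [0, 5, 1, 2, 4] [1, 1, 1, 1, 1], .ref 1417 [0, 1, 2, 5, 4] [1, 1, 1, 1, 1], .ref 1418 [0, 1, 2, 5, 4] [1, 1, 1, 1, 1], .ref 1419 [0, 1, 2, 5, 3] [1, 0, 1, 1, 3], .ref 1357 [0, 2, 5] [2, 1, 3], .ref 1420 [0, 1, 2, 5, 4] [1, 1, 1, 1, 1], .ref 1421 [0, 1, 2, 3, 5] [1, 0, 1,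 1, 3], .ref 1422 [0, 1, 2, 5, 4] [1, 1, 1, 1, 1], .ref 1423 [0, 1, 2, 4, 5] [1, 1, 1, 1, 1], .ref 1421 [0, 1, 2, 3, 5] [1, 0, 1, 3, 1], .ref 1424 [0, 1, 2, 4, 5] [1, 1, 1, 1, 1]]),
([p 3 0, g, s 0 1, s 0 2, g, s 1 0, p 2 3, g], .inner (.lo 2) [.ref 1370 [0, 4, 2, 3] [1, 2, 1], .ref 1411 [0, 4, 1, 2, 3] [1, 1, 1, 1], .ref 1372 [0, 4, 2, 3] [1, 1, 2, 1], .ref 1412 [0, 4, 1, 2, 3] [1, 1, 0, 1, 1], .ref 1413 [0, 1, 2, 4] [1, 1, 1, 1], .ref 1377 [0, 2, 4] [1, 1, 2, 1], .ref 1378 [0, 2, 4, 3] [1, 1, 2, 1], .cyc [2, 5], .ref 1425 [0, 1, 2, 3, 4] [1, 1, 1, 1], .ref 1380 [0, 2, 4] [1, 2, 1, 1], .ref 1381 [0, 2, 3, 4] [1, 2, 1, 1]]),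
([p 2 0, g, s 0 1, g, p 0 2, s 1 0, g], .leaf [2, 4, 1]),
([p 1 0, g, s 2 0, g, p 0 1, s 0 2, g], .leaf [2, 4, 1]),
([p 2 0, g, p 3 0, g, s 0 1, g, p 1 2, s 0 3, g], .leaf [3, 1, 5, 2, 1]),
([p 1 0, g, m 2 0, g, p 0 1, s 0 2, g], .leaf [2, 4, 1]),
([p 2 0, g, s 0 1, g, p 3 0, g, p 1 2, s 0 3, g], .leaf [5, 1, 5, 0, 1]),
([p 3 0, g, s 0 1, s 0 2, g, p 2 3, s 0 4, g, s 4 0, g, s 1 0, g], .leaf [10, 7, 1, 8, 6, 1]),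
([p 3 0, g, s 0 1, s 0 2, g, p 2 3, s 0 4, g, p 4 0, g, s 1 0, g], .leaf [10, 7, 1, 8, 6, 1]),
([p 2 1, g, p 0 2, s 1 0, g], .leaf [0, 2, 1]),
([p 2 0, g, p 0 1, g, p 0 2, s 1 0, g], .leaf [2, 4, 1]),
([p 3 0, g, m 0 1, g, s 0 2, g, p 2 3, s 1 0, g], .leaf [3, 1, 5, 2, 1]),
([p 3 0, g, s 0 1, g, m 0 2, g, p 1 3, s 2 0, g], .leaf [5, 1, 5, 0, 1]),
([p 3 0, g, s 0 1, s 0 2, g, p 2 3, s 4 0, g, s 0 4, g, s 1 0, g], .leaf [10, 7, 1, 8, 6, 1]),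
([p 2 0, g, s 0 1, g, p 1 2, s 4 3, g, p 0 4, g, m 3 0, g], .leaf [1, 7, 1, 7, 5, 2, 1]),
([p 3 0, g, s 0 1, s 0 2, g, p 2 3, s 4 0, g, m 0 4, g, s 1 0, g], .leaf [10, 7, 1, 8, 6, 1]),
([p 2 0, g, s 0 1, g, p 1 2, s 4 3, g, m 3 0, g, p 0 4, g], .leaf [1, 7, 1, 7, 5, 2, 1]),
([p 3 0, g, s 0 1, s 0 2, g, p 2 3, s 4 0, g, s 1 4, g], .leaf [2, 7, 7, 5, 2, 1]),
([p 3 0, g, s 0 1, s 0 2, g, p 2 3, s 4 0, g, s 1 0, g, s 0 4, g], .leaf [2, 7, 9, 7, 2, 1]),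
([p 3 0, g, s 0 1, s 0 2, g, p 2 3, s 4 0, g, s 1 0, g, m 0 4, g], .leaf [8, 5, 1, 6, 4, 5]),
([p 3 0, g, s 0 1, s 0 2, g, p 2 3, s 0 4, g, m 4 0, g, s 1 0, g], .inner (.lo 6) [.ref 1434 [0, 5, 3] [4, 5], .ref 1427 [0, 5, 3] [1, 4, 5], .ref 1435 [0, 5, 3] [1, 4, 5], .ref 1436 [0, 5, 2, 3] [1, 2, 1, 5], .ref 1427 [0, 5, 3] [4, 1, 5], .ref 1435 [0, 5, 3] [4, 1, 5], .ref 1437 [0, 2, 5, 3] [2, 1, 1, 5], .ref 1438 [0, 1, 2, 3, 5] [1, 1, 1, 3, 1], .ref 1439 [0, 2, 3, 4, 5] [2, 1, 1, 1, 3], .ref 1440 [0, 1, 2, 3, 5] [1, 1, 1, 3, 1], .cyc [6, 8], .ref 1438 [0, 1, 2, 3, 5] [1, 1, 3, 1, 1], .ref 1441 [0, 2, 3, 4, 5] [2, 1, 1, 1, 3], .ref 1440 [0, 1, 2, 3, 5] [1, 1, 3, 1, 1], .ref 1442 [0, 1, 2, 3, 5] [1, 1, 3, 1], .ref 1443 [0, 1, 2,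 3, 5] [1, 1, 3, 1, 1], .ref 1441 [0, 2, 3, 4, 5] [2, 1, 1, 3, 1], .ref 1444 [0, 1, 2, 3, 5] [1, 1, 3, 1, 1]]),
([p 3 0, g, s 0 1, s 0 2, g, p 2 3, s 0 4, g, s 1 0, g, s 4 0, g], .leaf [2, 7, 9, 7, 2, 1]),
([p 3 0, g, s 0 1, s 0 2, g, p 2 3, s 0 4, g, s 1 0, g, p 4 0, g], .leaf [8, 5, 1, 6, 4, 5]),
([p 3 0, g, s 0 1, s 0 2, g, p 2 3, s 0 4, g, s 1 0, g, m 4 0, g], .leaf [2, 7, 9, 7, 2, 1]),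
([p 3 0, g, s 0 1, s 0 2, g, p 2 3, s 0 0, g, s 1 0, g], .inner (.hi 6) [.ref 1428 [0, 3, 4] [1, 4, 3], .ref 1429 [0, 2, 3, 4] [1, 2, 1, 3], .ref 1430 [0, 3, 4] [1, 4, 3], .ref 1428 [0, 3, 4] [1, 2, 3], .ref 1428 [0, 3, 4] [2, 1, 3], .ref 1428 [0, 3, 4] [4, 1, 3], .ref 1431 [0, 2, 3, 4] [2, 1, 1, 3], .ref 1430 [0, 3, 4] [4, 1, 3], .cyc [6], .ref 1432 [0, 1, 2, 3, 4] [1, 1, 1, 1, 1], .ref 1433 [0, 1, 2, 3, 4] [1, 1, 1, 1, 1], .ref 1445 [0, 1, 2, 3, 4] [1, 1, 1, 1, 1], .ref 1446 [0, 1, 2, 3, 4] [1, 1, 1, 1, 1], .ref 1447 [0, 1, 2, 3, 4] [1, 1, 1, 1, 1], .ref 1448 [0, 1, 2, 3, 4] [1, 1, 1, 1, 1]]),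
([p 2 0, g, s 0 1, g, p 0 2, p 1 0, g], .leaf [2, 4, 1]),
([p 0 0, g, p 0 1, g, p 1 0, g], .leaf [2, 3]),
([p 2 0, g, m 0 1, g, p 0 2, g, p 1 0, g], .leaf [1, 4, 2, 3]),
([p 3 0, g, s 0 1, s 0 2, g, p 2 3, p 4 0, g, s 0 4, g, s 1 0, g], .leaf [10, 7, 1, 8, 6, 1]),
([p 3 0, g, s 0 1, s 0 2, g, p 2 3, p 4 0, g, p 0 4, g, s 1 0, g], .leaf [4, 6, 7, 6, 0, 2, 5]),
([p 2 0, g, s 0 1, g, p 0 2, p 3 0, g, m 0 3, g, s 1 0, g], .leaf [8, 6, 7, 4, 1]),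
([p 2 0, g, s 0 1, g, p 0 2, p 3 0, g, s 1 3, g], .leaf [2, 6, 6, 4, 1]),
([p 3 0, g, s 0 1, s 0 2, g, p 2 3, p 4 0, g, s 1 0, g, s 0 4, g], .leaf [2, 7, 9, 7, 2, 1]),
([p 2 0, g, s 0 1, g, p 0 2, p 3 0, g, s 1 0, g, p 0 3, g], .leaf [2, 6, 8, 6, 1]),
([p 2 0, g, s 0 1, g, p 0 2, p 3 0, g, s 1 0, g, m 0 3, g], .leaf [6, 4, 5, 2, 5]),
([p 3 0, g, s 0 1, s 0 2, g, p 2 3, p 0 0, g, s 1 0, g], .inner (.lo 6) [.ref 1342 [0, 4] [5, 3], .ref 1450 [0, 4, 3] [1, 4, 3], .ref 1451 [0, 4] [1, 5, 3], .ref 1452 [0, 4, 3] [1, 4, 0, 3], .ref 1450 [0, 4, 3] [4, 1, 3], .ref 1451 [0, 4] [4, 2, 3], .ref 1452 [0, 4, 3] [4, 1, 0, 3], .cyc [6], .ref 1453 [0, 1, 2, 3, 4] [1, 1, 1, 1, 1], .ref 1454 [0, 1, 2, 3, 4] [1, 1, 1, 1, 1], .ref 1455 [0, 1, 3,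 4] [1, 2, 1, 1, 1], .ref 1456 [0, 1, 3, 4] [1, 2, 1, 1], .ref 1457 [0, 1, 2, 3, 4] [1, 1, 1, 1, 1], .ref 1458 [0, 1, 3, 4] [1, 2, 1, 1, 1], .ref 1459 [0, 1, 3, 4] [1, 2, 1, 1, 1]]),
([p 1 0, g, s 2 0, g, p 0 1, m 0 2, g], .leaf [2, 4, 1]),
([p 1 0, g, p 2 0, g, p 0 1, g, m 0 2, g], .leaf [1, 4, 2, 3]),
([p 0 0, g, m 1 0, g, m 0 1, g], .leaf [2, 3]),
([p 3 0, g, s 0 1, s 0 2, g, p 2 3, m 0 4, g, s 4 0, g, s 1 0, g], .leaf [10, 7, 1, 8, 6, 1]),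
([p 2 0, g, s 0 1, g, p 0 2, m 0 3, g, p 3 0, g, s 1 0, g], .leaf [8, 6, 7, 4, 1]),
([p 3 0, g, s 0 1, s 0 2, g, p 2 3, m 0 4, g, m 4 0, g, s 1 0, g], .leaf [4, 6, 7, 6, 0, 2, 5]),
([p 3 0, g, s 0 1, s 0 2, g, p 2 3, m 0 4, g, s 1 0, g, s 4 0, g], .leaf [2, 7, 9, 7, 2, 1]),
([p 2 0, g, s 0 1, g, p 0 2, m 0 3, g, s 1 0, g, p 3 0, g], .leaf [6, 4, 5, 2, 5]),
([p 2 0, g, s 0 1, g, p 0 2, m 0 3, g, s 1 0, g, m 3 0, g], .leaf [2, 6, 8, 6, 1]),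
([p 3 0, g, s 0 1, s 0 2, g, p 2 3, m 0 0, g, s 1 0, g], .inner (.hi 6) [.ref 1461 [0, 3, 4] [1, 4, 3], .ref 1462 [0, 3, 4] [1, 4, 0, 3], .ref 1463 [0, 4] [1, 5, 3], .ref 1381 [0, 2, 3, 4] [1, 1, 0, 3], .ref 1461 [0, 3, 4] [2, 1, 3], .ref 1461 [0, 3, 4] [4, 1, 3], .ref 1462 [0, 3, 4] [4, 1, 0, 3], .ref 1463 [0, 4] [4, 2, 3], .cyc [6], .ref 1464 [0, 1, 2, 3, 4] [1, 1, 1, 1, 1], .ref 1465 [0, 1, 3, 4] [1, 2, 1, 1, 1], .ref 1466 [0, 1, 2, 3, 4] [1, 1, 1, 1, 1], .ref 1467 [0, 1, 2, 3, 4] [1, 1, 1, 1, 1], .ref 1468 [0, 1, 3, 4] [1, 2, 1, 1, 1], .ref 1469 [0, 1, 3, 4] [1, 2, 1, 1, 1]]),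
([p 3 0, g, s 0 1, s 0 2, g, p 2 3, g, s 1 0, g], .inner (.top 6) [.ref 1427 [0, 1, 3] [1, 2, 1], .ref 1449 [0, 1, 2, 3] [1, 1, 1, 1], .ref 1460 [0, 1, 2, 3] [1, 1, 1, 1], .ref 1470 [0, 1, 2, 3] [1, 1, 1, 1]])]

def d05_3 : List (List Item × Pf) := [
([p 3 0, g, s 0 1, s 0 2, g, p 2 3, g, p 1 0, g], .leaf [4, 5, 0, 2, 3]),
([p 0 0, g, s 0 1, s 0 2, g, p 2 0, g, m 1 0, g], .leaf [7, 4, 1]),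
([p 2 0, g, s 0 0, s 0 1, g, s 0 0, p 1 2, g], .inner (.hi 2) [.ref 1369 [0, 3, 1, 2] [1, 1, 1, 1], .ref 1382 [0, 3, 1, 2] [1, 1, 2, 1], .ref 1383 [0, 3, 1, 2] [1, 1, 2, 1], .cyc [2], .contra, .ref 1396 [0, 3, 1, 2] [1, 1, 1, 1], .ref 1397 [0, 3, 1, 2] [1, 1, 2, 1], .ref 1398 [0, 3, 1] [1, 1, 2, 1], .ref 1426 [0, 3, 1, 2] [1, 1, 1], .ref 1471 [0, 3, 1, 2] [1, 2, 1, 1], .ref 1472 [0, 3, 1, 2] [1, 2, 1, 1], .ref 1473 [0, 3, 1] [1, 2, 1, 1]]),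
([p 0 0, g, s 2 0, g, s 0 1, g, p 0 2, p 1 0, g], .leaf [4, 6, 3]),
([p 0 0, g, p 2 0, g, s 0 1, g, p 0 2, p 1 0, g], .leaf [4, 6, 3]),
([p 0 0, g, m 1 0, g, p 0 1, g], .leaf [4, 1]),
([p 0 0, g, s 2 1, g, p 0 2, p 1 0, g], .leaf [2, 4, 3]),
([p 0 0, g, s 0 1, g, s 2 0, g, p 0 2, p 1 0, g], .leaf [2, 6, 1]),
([p 4 0, g, s 0 1, g, s 0 2, g, p 3 0, g, p 1 3, p 2 4, g], .leaf [7, 9, 1, 2, 4, 2, 3]),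
([p 2 0, g, m 0 1, g, p 1 0, g, p 0 2, g], .leaf [1, 6, 4, 1]),
([p 4 0, g, s 0 1, g, s 0 2, g, p 3 0, g, p 2 3, p 1 4, g], .leaf [1, 4, 6, 7, 3, 2, 3]),
([p 4 0, g, s 0 1, g, p 3 0, g, s 0 2, g, p 2 3, p 1 4, g], .leaf [7, 9, 1, 6, 1, 4, 1]),
([p 3 0, g, s 0 1, g, p 2 0, g, p 4 2, p 1 3, g, s 0 4, g], .leaf [5, 7, 1, 6, 1, 4, 1]),
([p 3 0, g, s 0 1, g, p 2 0, g, p 4 2, g, p 1 3, g, p 0 4, g], .leaf [1, 8, 6, 5, 7, 5, 5, 3]),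
([p 3 0, g, s 0 1, g, p 2 0, g, p 0 2, p 1 3, g], .inner (.lo 6) [.ref 1342 [0, 4] [5, 2], .ref 1480 [0, 4, 1, 2, 3] [1, 1, 1, 1, 1], .ref 1451 [0, 4] [1, 5, 2], .ref 1481 [0, 4, 3] [1, 5, 0, 1], .ref 1482 [0, 1, 4, 2, 3] [1, 1, 1, 1, 1], .ref 1451 [0, 4] [3, 3, 2], .ref 1481 [0, 4, 3] [3, 3, 0, 1], .cyc [4, 6], .ref 1483 [0, 1, 4, 2, 3] [1, 1, 1, 1, 1], .ref 1451 [0, 4] [5, 1, 2], .ref 1481 [0, 4, 3] [5, 1, 0, 1], .ref 1484 [0, 1, 2, 3, 4] [1, 1, 1, 1, 1], .ref 1485 [0, 1, 2, 3, 4] [1, 1, 1, 0, 1, 1], .ref 1462 [0, 3, 4] [5, 0, 1, 1]]),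
([p 0 0, g, s 0 1, g, p 0 2, p 1 0, g, s 2 0, g], .leaf [2, 4, 5]),
([p 0 0, g, p 0 1, g, m 1 0, g], .leaf [4, 1]),
([p 2 0, g, s 0 1, g, p 0 0, p 1 2, g], .inner (.hi 4) [.ref 1475 [0, 1, 3] [1, 1, 1, 1], .ref 1476 [0, 1, 3] [1, 1, 1, 1], .ref 1477 [0, 3] [1, 3, 2], .ref 1478 [0, 1, 3] [1, 1, 1], .ref 1479 [0, 1, 3] [1, 1, 1, 1], .ref 1486 [0, 1, 3, 2] [1, 1, 1, 1], .ref 1477 [0, 3] [3, 1, 2], .cyc [4], .ref 1487 [0, 1, 3] [1, 1, 1, 1], .ref 1451 [0, 3] [3, 2, 1], .ref 1488 [0, 3] [3, 2, 1]]),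
([p 0 0, g, s 0 1, g, s 0 2, g, m 1 0, p 2 0, g], .leaf [4, 6, 3]),
([p 0 0, g, m 0 1, g, s 0 2, g, m 1 0, p 2 0, g], .leaf [4, 6, 3]),
([p 0 0, g, s 0 1, g, s 0 2, g, m 2 0, p 1 0, g], .leaf [2, 6, 1]),
([p 4 0, g, s 3 0, g, s 0 1, g, m 0 2, g, m 2 3, p 1 4, g], .leaf [7, 9, 1, 2, 4, 2, 3]),
([p 2 0, g, p 1 0, g, m 0 1, g, p 0 2, g], .leaf [1, 6, 4, 1]),
([p 4 0, g, s 3 1, g, m 0 2, g, m 2 3, p 1 4, g], .leaf [1, 2, 4, 5, 1, 0, 1]),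
([p 4 0, g, s 0 1, g, s 3 0, g, m 0 2, g, m 2 3, p 1 4, g], .leaf [1, 4, 6, 7, 3, 2, 3]),
([p 4 0, g, s 0 1, g, m 0 2, g, s 3 0, g, m 2 3, p 1 4, g], .leaf [7, 9, 1, 6, 1, 4, 1]),
([p 4 0, g, s 0 1, g, m 0 2, g, m 2 3, p 1 4, g, s 3 0, g], .leaf [5, 7, 1, 6, 1, 4, 1]),
([p 4 0, g, s 0 1, g, m 0 2, g, m 2 3, g, p 1 4, g, m 3 0, g], .leaf [1, 8, 6, 5, 7, 5, 5, 3]),
([p 3 0, g, s 0 1, g, m 0 2, g, m 2 0, p 1 3, g], .inner (.hi 6) [.ref 1493 [0, 1, 2, 4, 3] [1, 1, 1, 1, 1], .ref 1494 [0, 4, 3] [1, 5, 0, 1], .ref 1463 [0, 4] [1, 5, 2], .ref 1495 [0, 1, 2, 4, 3] [1, 1, 1, 1], .ref 1496 [0, 1, 2, 4, 3] [1, 1, 1, 1, 1], .ref 1494 [0, 4, 3] [3, 3, 0, 1], .ref 1463 [0, 4] [3, 3, 2], .cyc [4, 6], .ref 1497 [0, 1, 2, 4, 3] [1, 1, 1, 1,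 1], .ref 1494 [0, 4, 3] [5, 1, 0, 1], .ref 1463 [0, 4] [5, 1, 2], .ref 1498 [0, 1, 2, 4, 3] [1, 1, 1, 1, 1], .ref 1452 [0, 4, 3] [5, 0, 1, 1], .ref 1499 [0, 1, 2, 4, 3] [1, 1, 1, 0, 1, 1]]),
([p 0 0, g, s 0 1, g, m 2 0, p 1 0, g, s 0 2, g], .leaf [2, 4, 5]),
([p 2 0, g, s 0 1, g, m 0 0, p 1 2, g], .inner (.lo 4) [.ref 1343 [0, 3] [3, 2], .ref 1490 [0, 3, 1] [1, 1, 1, 1], .ref 1488 [0, 3] [1, 3, 2], .ref 1491 [0, 3, 1] [1, 1, 1, 1], .ref 1492 [0, 1, 3] [1, 1, 1, 1], .ref 1488 [0, 3] [3, 1, 2], .ref 1500 [0, 1, 3, 2] [1, 1, 1, 1], .cyc [4], .ref 1501 [0, 1, 3] [1, 1, 1, 1], .ref 1477 [0, 3] [3, 2, 1], .ref 1463 [0, 3] [3, 2, 1]]),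
([p 2 0, g, s 0 0, s 0 1, g, p 1 2, g], .inner (.bot 4) [.contra, .ref 1474 [0, 1, 2] [1, 1, 1], .ref 1489 [0, 1, 2] [2, 1, 1], .ref 1502 [0, 1, 2] [2, 1, 1]]),
([p 3 0, g, s 1 0, g, p 0 1, s 0 2, g, p 2 3, g], .leaf [4, 1, 6, 2, 1]),
([p 4 0, g, s 1 0, g, p 2 1, g, p 0 2, s 0 3, g, p 3 4, g], .leaf [4, 1, 8, 4, 6, 4, 1]),
([p 4 0, g, s 0 1, g, p 2 0, g, p 3 2, g, p 1 3, g, p 0 4, g], .leaf [1, 10, 8, 5, 5, 3, 3, 1]),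
([p 4 0, g, p 2 0, g, s 0 1, g, p 3 2, g, p 1 3, g, p 0 4, g], .leaf [3, 6, 4, 8, 6, 3, 3, 1]),
([p 4 0, g, p 2 0, g, s 0 1, g, p 1 2, s 0 3, g, p 3 4, g], .leaf [5, 9, 3, 6, 1, 4, 1]),
([p 4 0, g, p 1 0, g, p 2 1, g, p 3 2, g, s 0 3, g, p 0 4, g], .leaf [5, 6, 4, 4, 2, 6, 4, 1]),
([p 4 0, g, p 1 0, g, p 3 1, g, s 0 2, g, p 0 3, g, p 2 4, g], .leaf [5, 8, 6, 6, 4, 6, 4, 3]),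
([p 3 0, g, p 1 0, g, p 4 1, s 0 2, g, p 2 3, g, s 0 4, g], .leaf [3, 7, 3, 6, 1, 4, 1]),
([p 3 0, g, p 1 0, g, p 4 1, g, s 0 2, g, p 2 3, g, p 0 4, g], .leaf [5, 10, 8, 8, 6, 4, 2, 1]),
([p 4 0, g, p 1 0, g, p 2 1, g, p 0 2, s 0 3, g, p 3 4, g], .inner (.lo 6) [.ref 1342 [0, 5] [5, 4], .ref 1506 [0, 5, 1, 2, 4] [1, 1, 1, 1, 2, 1], .ref 1451 [0, 5] [1, 5, 4], .ref 1481 [0, 5, 4] [1, 5, 2, 1], .cyc [2, 6, 4], .ref 1507 [0, 5, 1, 2, 4] [1, 1, 1, 1, 2, 1], .ref 1451 [0, 5] [3, 3, 4], .ref 1481 [0, 5, 4] [3, 3, 2, 1], .ref 1508 [0, 5, 2, 3, 4] [3, 1, 1, 1, 1], .ref 1451 [0, 5] [5, 1, 4], .ref 1481 [0, 5, 4] [5, 1, 2, 1], .ref 1509 [0, 1, 2, 5, 4] [1, 1, 1, 2, 1, 1], .ref 1510 [0, 2, 3, 5, 4] [3, 1, 0, 1, 1, 1], .ref 1494 [0, 5,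 4] [5, 2, 1, 1], .ref 1511 [0, 2, 3, 4, 5] [3, 1, 1, 1, 1], .ref 1512 [0, 2, 3, 4, 5] [3, 1, 0, 1, 1, 1], .ref 1462 [0, 4, 5] [5, 2, 1, 1]]),
([p 4 0, g, s 1 0, g, p 2 0, g, s 0 1, g, p 0 2, s 0 3, g, p 3 4, g], .leaf [6, 3, 10, 4, 8, 6, 1]),
([p 4 0, g, p 2 0, g, p 3 1, g, s 1 2, g, p 0 3, g, p 0 4, g], .leaf [1, 10, 8, 3, 5, 3, 3, 1]),
([p 4 0, g, m 1 0, g, p 2 0, g, s 0 1, g, p 0 2, s 0 3, g, p 3 4, g], .leaf [6, 3, 10, 4, 8, 6, 1]),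
([p 4 0, g, p 2 0, g, s 1 0, g, s 0 1, g, p 0 2, s 0 3, g, p 3 4, g], .leaf [5, 11, 5, 8, 1, 4, 1]),
([p 4 0, g, p 2 0, g, p 1 0, g, s 0 1, g, p 0 2, s 0 3, g, p 3 4, g], .leaf [5, 11, 5, 8, 1, 4, 1]),
([p 4 0, g, p 3 1, g, m 2 0, g, s 1 2, g, p 0 3, g, p 0 4, g], .leaf [4, 5, 5, 1, 5, 3, 5, 3]),
([p 4 0, g, p 2 0, g, s 0 1, g, s 1 0, g, p 0 2, s 0 3, g, p 3 4, g], .leaf [5, 11, 5, 8, 1, 4, 1]),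
([p 4 0, g, p 2 0, g, s 0 1, g, p 1 0, g, p 0 2, s 0 3, g, p 3 4, g], .leaf [5, 11, 5, 8, 1, 4, 1]),
([p 4 0, g, p 3 1, g, s 1 2, g, m 2 0, g, p 0 3, g, p 0 4, g], .leaf [2, 3, 5, 1, 5, 3, 5, 3]),
([p 0 0, g, p 2 0, g, s 0 1, g, p 0 2, s 1 0, g], .leaf [4, 6, 3]),
([p 0 0, g, p 3 1, g, s 1 2, g, p 0 3, s 0 4, g, s 2 0, g, p 4 0, g], .leaf [2, 3, 8, 4, 4, 2, 5]),
([p 4 0, g, p 3 1, g, s 1 2, g, p 0 3, g, p 2 0, g, p 0 4, g], .leaf [4, 1, 5, 3, 3, 3, 5, 3]),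
([p 0 0, g, p 2 0, g, s 0 1, g, p 0 2, s 0 3, g, m 1 0, g, p 3 0, g], .leaf [9, 4, 6, 4, 7]),
([p 4 0, g, p 2 0, g, s 0 1, g, p 0 2, s 0 3, g, p 3 4, g, s 1 0, g], .leaf [3, 9, 5, 8, 1, 4, 1]),
([p 4 0, g, p 2 0, g, s 0 1, g, p 0 2, s 0 3, g, p 3 4, g, p 1 0, g], .leaf [3, 9, 5, 8, 1, 4, 1]),
([p 0 0, g, p 2 0, g, s 0 1, g, p 0 2, s 0 3, g, p 3 0, g, m 1 0, g], .leaf [11, 6, 8, 6, 1]),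
([p 4 0, g, p 2 1, g, s 1 0, g, p 0 2, s 0 3, g, p 3 4, g], .inner (.hi 4) [.ref 1514 [0, 5, 2, 3, 4] [1, 1, 1, 1, 1, 1], .ref 1515 [0, 1, 5, 2, 4] [1, 1, 1, 1, 2, 1], .ref 1516 [0, 5, 2, 3, 4] [1, 1, 1, 1, 1, 1], .ref 1517 [0, 5, 2, 3, 4] [1, 1, 1, 1, 1, 1], .ref 1518 [0, 5, 2, 3, 4] [1, 1, 1, 1, 1, 1], .ref 1519 [0, 1, 5, 2, 4] [1, 1, 1, 1, 2, 1], .ref 1520 [0, 5, 2, 3, 4] [1, 1, 1, 1, 1, 1], .ref 1521 [0, 5, 2, 3, 4] [1, 1, 1, 1, 1, 1], .ref 1522 [0, 1, 5, 2, 4] [1, 1, 1, 1, 2, 1], .cyc [2, 4, 6], .ref 1523 [0, 5, 2] [1, 1, 1, 3], .ref 1524 [0, 1, 5, 2, 3] [1, 1, 1, 1, 1, 1], .ref 1525 [0, 1, 5, 2, 4] [1, 1, 1, 2, 1, 1], .ref 1526 [0, 5, 2, 3] [1, 1, 1, 1, 1, 1], .ref 1527 [0, 5, 2, 3, 4] [1, 1, 1, 1, 1, 1], .ref 1528 [0,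 5, 2, 3, 4] [1, 1, 1, 1, 1, 1], .ref 1529 [0, 5, 2, 3] [1, 1, 1, 1, 1, 1]]),
([p 0 0, g, p 2 1, g, p 0 2, s 1 0, g], .leaf [2, 4, 3]),
([p 0 0, g, p 2 1, g, p 0 2, s 0 3, g, s 1 0, g, p 3 0, g], .leaf [7, 4, 4, 2, 5]),
([p 0 0, g, p 2 1, g, p 0 2, s 0 3, g, p 3 0, g, s 1 0, g], .leaf [9, 6, 6, 4, 1]),
([p 3 0, g, p 1 0, g, p 0 1, s 0 2, g, p 2 3, g], .inner (.hi 2) [.ref 1505 [0, 4, 1, 2, 3] [1, 1, 1, 1, 1], .ref 1513 [0, 4, 1, 2, 3] [1, 1, 1, 1, 1], .ref 1477 [0, 4] [1, 1, 6], .ref 1530 [0, 4, 1, 2, 3] [1, 1, 1, 1, 1], .ref 1451 [0, 4] [1, 1, 6], .ref 1488 [0, 4] [1, 1, 6], .cyc [2, 4], .ref 1531 [0, 4, 1] [1, 1, 3], .ref 1532 [0, 4, 1, 2] [1, 1, 1, 1, 1], .ref 1451 [0, 4] [1, 4, 3], .ref 1488 [0, 4] [1, 4, 3], .ref 1533 [0,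 4, 1, 2] [1, 1, 1, 1, 1], .ref 1451 [0, 4] [1, 6, 1], .ref 1488 [0, 4] [1, 6, 1]]),
([p 0 0, g, p 0 1, s 0 2, g, s 1 0, g, p 2 0, g], .leaf [5, 2, 5])]

def D05 : List (List (List Item × Pf)) := [d05_0, d05_1, d05_2, d05_3]

end Pool.Agent.H63.PU.C138
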