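import Pool.Agent.H63.PU.Short

/-! Certificate data, machine generated. -/

namespace Pool.Agent.H63.PU.C138

open Pool.Agent.H63.PU Pool.Agent.H63.PU.Short

set_option maxRecDepth 20000

def d06_0 : List (List Item × Pf) := [
([p 0 0, g, p 0 1, s 0 2, g, p 2 0, g, s 1 0, g], .leaf [7, 4, 1]),
([p 2 0, g, p 0 0, s 0 1, g, p 1 2, g], .inner (.hi 2) [.ref 1504 [0, 3, 1, 2] [1, 1, 1, 1], .ref 1534 [0, 3, 1, 2] [1, 1, 1, 1], .ref 1477 [0, 3] [1, 1, 4], .cyc [2], .contra, .ref 1535 [0, 3, 1] [1, 1, 1, 1], .ref 1451 [0, 3] [1, 2, 3], .ref 1488 [0, 3] [1, 2, 3], .ref 1536 [0, 3, 1] [1, 1, 1, 1], .ref 1451 [0, 3] [1, 4, 1], .ref 1488 [0, 3] [1, 4, 1]]),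
([p 3 0, g, s 0 1, g, m 1 0, s 0 2, g, p 2 3, g], .leaf [4, 1, 6, 2, 1]),
([p 4 0, g, s 0 1, g, m 1 2, g, m 2 0, s 0 3, g, p 3 4, g], .leaf [4, 1, 8, 4, 6, 4, 1]),
([p 4 0, g, s 3 0, g, m 0 1, g, m 1 2, g, m 2 3, g, p 0 4, g], .leaf [1, 10, 8, 5, 5, 3, 3, 1]),
([p 4 0, g, m 0 1, g, s 3 0, g, m 1 2, g, m 2 3, g, p 0 4, g], .leaf [3, 6, 4, 8, 6, 3, 3, 1]),
([p 4 0, g, m 0 1, g, s 2 0, g, m 1 2, s 0 3, g, p 3 4, g], .leaf [5, 9, 3, 6, 1, 4, 1]),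
([p 4 0, g, m 0 1, g, m 1 2, g, m 2 3, g, s 3 0, g, p 0 4, g], .leaf [5, 6, 4, 4, 2, 6, 4, 1]),
([p 4 0, g, m 0 1, g, m 1 2, g, s 0 3, g, m 2 0, g, p 3 4, g], .leaf [5, 8, 6, 6, 4, 6, 4, 3]),
([p 4 0, g, m 0 1, g, m 1 2, s 0 3, g, p 3 4, g, s 2 0, g], .leaf [3, 7, 3, 6, 1, 4, 1]),
([p 4 0, g, m 0 1, g, m 1 2, g, s 0 3, g, p 3 4, g, m 2 0, g], .leaf [5, 10, 8, 8, 6, 4, 2, 1]),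
([p 4 0, g, m 0 1, g, m 1 2, g, m 2 0, s 0 3, g, p 3 4, g], .inner (.hi 6) [.ref 1540 [0, 1, 2, 5, 4] [1, 1, 1, 1, 2, 1], .ref 1494 [0, 5, 4] [1, 5, 2, 1], .ref 1463 [0, 5] [1, 5, 4], .cyc [2, 4, 6], .ref 1541 [0, 1, 2, 5, 4] [1, 1, 1, 1, 2, 1], .ref 1494 [0, 5, 4] [3, 3, 2, 1], .ref 1463 [0, 5] [3, 3, 4], .ref 1542 [0, 2, 5, 3, 4] [3, 1, 1, 1, 1], .ref 1494 [0, 5, 4] [5, 1, 2, 1], .ref 1463 [0, 5] [5, 1, 4], .ref 1543 [0, 1, 2, 5, 4] [1, 1, 1, 0, 1, 1], .ref 1543 [0, 1, 2, 5, 4] [1, 1, 1, 2, 1, 1], .ref 1481 [0, 5, 4] [5, 2, 1, 1], .ref 1544 [0, 2, 5, 3, 4] [3, 1, 0, 1, 1, 1], .ref 1545 [0, 2, 5, 3, 4] [3, 1, 1, 1, 1], .ref 1452 [0, 5, 4] [5, 2, 1, 1], .ref 1546 [0, 2, 5, 3, 4] [3, 1, 0, 1, 1, 1]]),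
([p 4 1, g, m 0 2, g, s 1 0, g, m 2 0, s 0 3, g, p 3 4, g], .leaf [4, 3, 8, 4, 6, 4, 1]),
([p 4 0, g, s 0 1, g, m 0 2, g, s 1 0, g, m 2 0, s 0 3, g, p 3 4, g], .leaf [6, 3, 10, 4, 8, 6, 1]),
([p 4 0, g, p 0 1, g, m 0 2, g, s 1 0, g, m 2 0, s 0 3, g, p 3 4, g], .leaf [6, 3, 10, 4, 8, 6, 1]),
([p 4 0, g, m 0 1, g, m 3 2, g, s 1 3, g, m 2 0, g, p 0 4, g], .leaf [1, 10, 8, 3, 5, 3, 3, 1]),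
([p 4 0, g, m 0 1, g, s 0 2, g, s 2 0, g, m 1 0, s 0 3, g, p 3 4, g], .leaf [5, 11, 5, 8, 1, 4, 1]),
([p 4 0, g, m 3 1, g, p 0 2, g, s 2 3, g, m 1 0, g, p 0 4, g], .leaf [4, 5, 5, 1, 5, 3, 5, 3]),
([p 4 0, g, m 0 1, g, m 0 2, g, s 2 0, g, m 1 0, s 0 3, g, p 3 4, g], .leaf [5, 11, 5, 8, 1, 4, 1]),
([p 4 0, g, m 0 1, g, s 2 0, g, s 0 2, g, m 1 0, s 0 3, g, p 3 4, g], .leaf [5, 11, 5, 8, 1, 4, 1]),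
([p 4 0, g, m 2 1, g, s 3 2, g, p 0 3, g, m 1 0, g, p 0 4, g], .leaf [2, 3, 5, 1, 5, 3, 5, 3]),
([p 4 0, g, m 0 1, g, s 2 0, g, m 0 2, g, m 1 0, s 0 3, g, p 3 4, g], .leaf [5, 11, 5, 8, 1, 4, 1]),
([p 0 0, g, m 2 1, g, s 4 2, g, m 1 0, s 0 3, g, s 0 4, g, p 3 0, g], .leaf [2, 3, 8, 4, 4, 2, 5]),
([p 0 0, g, m 0 1, g, s 3 0, g, m 1 0, s 0 2, g, p 0 3, g, p 2 0, g], .leaf [9, 4, 6, 4, 7]),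
([p 4 0, g, m 2 1, g, s 3 2, g, m 1 0, g, m 0 3, g, p 0 4, g], .leaf [4, 1, 5, 3, 3, 3, 5, 3]),
([p 3 0, g, m 0 1, g, s 4 0, g, m 1 0, s 0 2, g, p 2 3, g, s 0 4, g], .leaf [3, 9, 5, 8, 1, 4, 1]),
([p 0 0, g, m 0 1, g, s 3 0, g, m 1 0, s 0 2, g, p 2 0, g, p 0 3, g], .leaf [11, 6, 8, 6, 1]),
([p 3 0, g, m 0 1, g, s 4 0, g, m 1 0, s 0 2, g, p 2 3, g, m 0 4, g], .leaf [3, 9, 5, 8, 1, 4, 1]),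
([p 4 0, g, m 2 1, g, s 0 2, g, m 1 0, s 0 3, g, p 3 4, g], .inner (.lo 4) [.ref 1548 [0, 5, 1, 3, 4] [1, 1, 1, 1, 1], .ref 1549 [0, 5, 1, 3, 4] [1, 1, 1, 1, 1, 1], .ref 1550 [0, 5, 1, 3, 4] [1, 1, 1, 1, 1, 1], .ref 1551 [0, 5, 1, 2, 4] [1, 1, 1, 1, 2, 1], .ref 1552 [0, 1, 5, 3, 4] [1, 1, 1, 1, 1, 1], .ref 1553 [0, 1, 5, 2, 4] [1, 1, 1, 1, 2, 1], .ref 1554 [0, 1, 5, 3, 4] [1, 1, 1, 1, 1, 1], .ref 1555 [0, 1, 5, 3, 4] [1, 1, 1, 1, 1, 1], .ref 1556 [0, 1, 2, 5, 4] [1, 1, 1, 1, 2, 1], .ref 1557 [0, 1, 5, 3, 4] [1, 1, 1, 1, 1, 1], .cyc [2, 6, 4], .ref 1558 [0, 1, 2, 3, 5] [1, 1, 1, 1, 1, 1], .ref 1559 [0, 1, 3, 5] [1, 1, 1, 1, 1, 1], .ref 1560 [0, 1, 2, 5, 4] [1, 1, 1, 2, 1, 1], .ref 1561 [0, 1, 3, 4, 5] [1, 1, 1, 1, 1,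 1], .ref 1562 [0, 1, 3, 5] [1, 1, 1, 1, 1, 1], .ref 1563 [0, 1, 3, 4, 5] [1, 1, 1, 1, 1, 1]]),
([p 0 0, g, m 3 1, g, m 1 0, s 0 2, g, s 0 3, g, p 2 0, g], .leaf [7, 4, 4, 2, 5]),
([p 0 0, g, m 3 1, g, m 1 0, s 0 2, g, p 2 0, g, s 0 3, g], .leaf [9, 6, 6, 4, 1]),
([p 3 0, g, m 0 1, g, m 1 0, s 0 2, g, p 2 3, g], .inner (.lo 2) [.ref 1343 [0, 4] [1, 6], .ref 1539 [0, 4, 1, 2, 3] [1, 1, 1, 1, 1], .ref 1488 [0, 4] [1, 1, 6], .ref 1547 [0, 4, 1, 2, 3] [1, 1, 1, 1, 1], .ref 1564 [0, 1, 4, 2, 3] [1, 1, 1, 1, 1], .ref 1477 [0, 4] [1, 1, 6], .ref 1463 [0, 4] [1, 1, 6], .cyc [2, 4], .ref 1565 [0, 1, 2, 4] [1, 1, 1, 1, 1], .ref 1477 [0, 4] [1, 4, 3], .ref 1463 [0, 4] [1, 4, 3], .ref 1566 [0, 1, 2, 4] [1, 1, 1, 1, 1], .ref 1477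 [0, 4] [1, 6, 1], .ref 1463 [0, 4] [1, 6, 1]]),
([p 0 0, g, m 2 0, s 0 1, g, s 0 2, g, p 1 0, g], .leaf [5, 2, 5]),
([p 0 0, g, m 2 0, s 0 1, g, p 1 0, g, s 0 2, g], .leaf [7, 4, 1]),
([p 2 0, g, m 0 0, s 0 1, g, p 1 2, g], .inner (.lo 2) [.ref 1343 [0, 3] [1, 4], .ref 1538 [0, 3, 1, 2] [1, 1, 1, 1], .ref 1488 [0, 3] [1, 1, 4], .ref 1567 [0, 3, 1, 2] [1, 1, 1, 1], .cyc [2], .ref 1568 [0, 1, 3] [1, 1, 1, 1], .ref 1477 [0, 3] [1, 2, 3], .ref 1463 [0, 3] [1, 2, 3], .ref 1569 [0, 1, 3] [1, 1, 1, 1], .ref 1477 [0, 3] [1, 4, 1], .ref 1463 [0, 3] [1, 4, 1]]),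
([p 2 0, g, s 0 1, g, p 1 2, g], .inner (.bot 1) [.ref 1345 [0, 1] [1, 1], .ref 1503 [0, 1, 2] [1, 1, 1], .ref 1537 [0, 1, 2] [1, 1, 1], .ref 1570 [0, 1, 2] [1, 1, 1]]),
([p 2 0, g, m 0 1, g, p 1 2, g], .leaf [1, 4, 2, 1]),
([p 0 1, p 2 0, g, s 1 0, g, s 0 2, g], .leaf [3, 2, 3]),
([p 0 1, p 2 0, g, s 0 2, g, s 1 0, g], .leaf [5, 4, 1]),
([p 1 0, p 2 1, g, s 0 2, g], .inner (.hi 0) [.ref 1573 [0, 3, 2] [1, 1, 1], .ref 1342 [0, 3] [2, 3], .ref 1343 [0, 3] [2, 3], .cyc [0, 3, 1], .ref 1574 [0, 3, 2] [1, 1, 1], .ref 1342 [0, 3] [4, 1], .ref 1343 [0, 3] [4, 1]]),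
([p 3 0, g, m 0 1, g, s 2 0, g, s 0 2, g, p 4 3, s 1 4, g], .leaf [5, 3, 7, 2, 3, 5, 3]),
([p 3 0, g, s 2 0, g, m 0 1, g, s 0 2, g, p 4 3, s 1 4, g], .leaf [5, 1, 7, 2, 3, 5, 3]),
([p 2 1, g, s 1 0, g, p 3 2, s 4 3, g, s 0 4, g], .leaf [2, 1, 6, 1, 2, 0, 1]),
([p 2 1, g, p 3 2, s 0 3, g, s 1 0, g], .leaf [0, 4, 2, 0, 1]),
([p 1 0, g, p 2 1, s 3 2, g, s 0 3, g], .inner (.hi 0) [.ref 1578 [0, 4, 1, 2, 3] [1, 1, 1, 1], .ref 1342 [0, 4] [1, 6], .ref 1343 [0, 4] [1, 6], .ref 1579 [0, 4, 1, 2] [1, 1, 3], .ref 1342 [0, 4] [4, 3], .ref 1343 [0, 4] [4, 3], .cyc [0, 5, 3, 2], .ref 1579 [0, 4, 1, 2] [1, 3, 1], .ref 1342 [0, 4] [6, 1], .ref 1343 [0, 4] [6, 1]]),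
([p 2 0, g, s 1 0, g, s 0 1, g, p 3 2, s 4 3, g, p 0 4, g], .leaf [1, 9, 1, 2, 0, 4, 1]),
([p 2 0, g, s 1 0, g, s 0 1, p 3 2, g, s 4 3, g, m 0 4, g], .leaf [4, 1, 4, 0, 3, 3, 3]),
([p 2 0, g, s 1 0, g, s 0 1, p 3 2, s 0 3, g], .inner (.lo 6) [.cyc [0, 6, 5], .ref 1427 [0, 4, 2] [1, 4, 1], .ref 1435 [0, 4, 2] [1, 4, 1], .ref 1576 [0, 4, 1, 2, 3] [1, 1, 1, 0, 1], .ref 1427 [0, 4, 2] [1, 2, 1], .ref 1427 [0, 4, 2] [3, 2, 1], .ref 1435 [0, 4, 2] [3, 2, 1], .ref 1577 [0, 4, 1, 2, 3] [1, 1, 1, 0, 1], .ref 1580 [0, 2, 3, 4] [4, 1, 1], .ref 1581 [0, 1, 2, 3, 4] [1, 1, 0, 1, 1], .ref 1582 [0, 1, 2, 3, 4] [1, 1, 0, 1, 1]]),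
([p 2 1, g, s 1 0, p 3 2, g, s 0 3, g], .leaf [2, 1, 2, 0, 1]),
([p 3 0, g, s 0 1, g, p 2 0, g, s 1 2, p 4 3, g, s 0 4, g], .leaf [3, 7, 3, 1, 4, 2, 3]),
([p 2 0, g, p 0 1, g, s 1 0, p 3 2, g, s 0 3, g], .leaf [4, 1, 4, 0, 3]),
([p 3 0, g, m 0 1, g, p 2 0, g, s 1 2, p 4 3, g, s 0 4, g], .leaf [5, 7, 1, 2, 6, 4, 1]),
([p 3 0, g, p 2 0, g, s 0 1, g, s 1 2, p 4 3, g, s 0 4, g], .leaf [5, 7, 1, 4, 1, 2, 3]),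
([p 3 0, g, p 2 0, g, m 0 1, g, s 1 2, p 4 3, g, s 0 4, g], .leaf [5, 7, 1, 4, 1, 2, 3]),
([p 2 0, g, p 1 0, g, s 4 1, p 3 2, s 0 3, g, s 0 4, g], .leaf [1, 8, 3, 0, 4, 1]),
([p 0 0, g, s 2 0, p 1 0, g, s 0 1, g, p 0 2, g], .leaf [7, 4, 1]),
([p 1 0, g, s 3 0, g, p 2 1, s 0 2, g, m 0 3, g], .leaf [2, 6, 2, 0, 1]),
([p 2 0, g, p 1 0, g, s 0 1, p 3 2, s 0 3, g], .inner (.lo 4) [.ref 1584 [0, 4, 2, 3] [3, 0, 1], .ref 1585 [0, 4, 1, 2, 3] [1, 1, 1, 0, 1], .ref 1586 [0, 4, 2, 3] [1, 3, 0, 1], .ref 1587 [0, 4, 1, 2, 3] [1, 1, 1, 0, 1], .cyc [2, 4], .ref 1588 [0, 4, 1, 2, 3] [1, 1, 1, 0, 1], .ref 1586 [0, 4, 2, 3] [3, 1, 0, 1], .ref 1589 [0, 4, 1, 2, 3] [1, 1, 1, 0, 1], .ref 1590 [0, 1, 2, 3, 4] [1, 1, 1, 1], .ref 1591 [0,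 3, 4] [3, 0, 1, 1], .ref 1592 [0, 2, 3, 4] [3, 0, 1, 1]]),
([p 2 0, g, m 1 0, g, s 0 1, p 3 2, g, s 0 3, g], .leaf [4, 1, 4, 0, 3]),
([p 3 1, g, s 1 0, g, s 0 2, p 4 3, s 0 4, g, s 2 0, g], .leaf [2, 1, 7, 3, 0, 3]),
([p 2 0, g, s 0 1, p 3 2, s 0 3, g, s 1 0, g], .inner (.hi 0) [.ref 1595 [0, 4, 1, 2, 3] [1, 1, 1, 1], .ref 1342 [0, 4] [1, 7], .ref 1343 [0, 4] [1, 7], .ref 1584 [0, 4, 2, 3] [1, 0, 3], .cyc [0, 4, 3], .ref 1579 [0, 4, 2, 3] [2, 1, 3], .ref 1342 [0, 4] [5, 3], .ref 1343 [0, 4] [5, 3], .ref 1579 [0, 4, 2, 3] [2, 3, 1], .ref 1342 [0, 4] [7, 1], .ref 1343 [0, 4] [7, 1]]),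
([p 2 0, g, s 0 1, g, p 3 2, s 0 3, g, p 1 0, g], .leaf [2, 6, 2, 0, 1]),
([p 0 0, g, s 0 1, p 2 0, g, s 0 2, g, m 1 0, g], .leaf [7, 4, 1]),
([p 1 0, g, s 0 0, p 2 1, s 0 2, g], .inner (.hi 2) [.ref 1583 [0, 3, 1, 2] [1, 1, 1], .ref 1593 [0, 3, 1, 2] [1, 1, 1], .ref 1594 [0, 3, 1, 2] [1, 1, 0, 1], .cyc [2], .ref 1427 [0, 3, 1] [1, 0, 1], .ref 1596 [0, 3, 1, 2] [1, 1, 1], .ref 1597 [0, 3, 1, 2] [1, 0, 1, 1], .ref 1598 [0, 3, 2] [1, 0, 1, 1]])]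

def d06_1 : List (List Item × Pf) := [
([p 1 0, g, p 2 0, g, p 3 1, s 0 2, g, s 0 3, g], .leaf [3, 1, 3, 0, 3]),
([p 2 1, g, p 4 2, s 0 3, g, s 1 0, s 3 0, g, s 0 4, g], .leaf [7, 5, 6, 5, 2, 3]),
([p 2 0, g, s 0 1, g, p 4 2, s 0 3, g, s 1 0, s 3 0, g, s 0 4, g], .leaf [9, 5, 8, 7, 2, 3]),
([p 2 0, g, p 0 1, g, p 4 2, s 0 3, g, s 1 0, s 3 0, g, s 0 4, g], .leaf [9, 5, 8, 7, 2, 3]),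
([p 2 0, g, s 4 0, g, m 0 1, g, p 0 2, s 0 3, g, s 1 4, s 3 0, g], .leaf [8, 4, 7, 4, 6, 3]),
([p 2 0, g, p 4 0, g, m 0 1, g, p 0 2, s 0 3, g, s 1 4, s 3 0, g], .leaf [8, 4, 7, 4, 6, 3]),
([p 1 0, g, m 3 0, g, p 4 1, s 0 2, g, s 0 3, s 2 0, g, s 0 4, g], .leaf [9, 5, 8, 7, 2, 3]),
([p 2 0, g, m 0 1, g, s 4 0, g, p 0 2, s 0 3, g, s 1 4, s 3 0, g], .leaf [8, 4, 7, 4, 6, 3]),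
([p 2 0, g, m 0 1, g, p 4 0, g, p 0 2, s 0 3, g, s 1 4, s 3 0, g], .leaf [8, 4, 7, 4, 6, 3]),
([p 2 0, g, m 0 1, g, p 0 2, s 4 3, g, s 1 4, s 3 0, g], .leaf [1, 5, 6, 5, 2, 3]),
([p 2 0, g, m 0 1, g, p 0 2, s 0 3, g, s 4 0, g, s 1 4, s 3 0, g], .leaf [8, 6, 7, 4, 6, 3]),
([p 2 0, g, m 0 1, g, p 0 2, g, s 0 3, g, p 4 0, g, s 1 4, s 3 0, g], .leaf [7, 1, 9, 4, 6, 4, 1]),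
([p 2 0, g, m 0 1, g, p 0 2, s 0 3, g, m 4 0, g, s 1 4, s 3 0, g], .leaf [8, 6, 7, 4, 6, 3]),
([p 2 0, g, m 0 1, g, p 0 2, s 0 3, g, s 1 4, s 3 0, g, s 4 0, g], .leaf [6, 4, 5, 2, 4, 5]),
([p 2 0, g, m 0 1, g, p 0 2, s 0 3, g, s 1 4, s 3 0, g, p 4 0, g], .leaf [6, 4, 5, 2, 4, 5]),
([p 2 0, g, m 0 1, g, p 0 2, g, s 0 3, g, s 1 4, s 3 0, g, m 4 0, g], .leaf [1, 4, 2, 5, 8, 2, 5]),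
([p 2 0, g, m 0 1, g, p 4 2, s 0 3, g, s 1 0, s 3 0, g, s 0 4, g], .inner (.hi 7) [.ref 1604 [0, 1, 2, 3, 5] [1, 1, 1, 1, 3], .ref 1605 [0, 1, 2, 3, 5] [1, 1, 1, 1, 3], .ref 1606 [0, 2, 3, 5, 4] [1, 3, 1, 1, 1], .cyc [2, 7], .ref 1607 [0, 1, 2, 3, 5] [1, 1, 1, 1, 3], .ref 1608 [0, 1, 2, 3, 5] [1, 1, 1, 1, 3], .ref 1606 [0, 2, 3, 5, 4] [3, 1, 1, 1, 1], .ref 1609 [0, 1, 2, 3, 5] [1, 1, 1, 3], .ref 1610 [0, 1, 2, 3, 5] [1, 1, 1, 1, 3], .ref 1611 [0, 1, 2, 3, 5] [1, 1, 0, 1, 1, 3], .ref 1612 [0, 1, 2, 3, 5] [1, 1, 1, 1, 3], .ref 1613 [0, 1, 2, 3, 5] [1, 1, 1, 1, 3], .ref 1614 [0, 1, 2, 3, 5] [1, 1, 1, 1, 3], .ref 1615 [0, 1, 2, 3, 5] [1, 1, 0, 1, 1, 3], .ref 1613 [0, 1, 2, 3, 5] [1, 1, 1, 1, 1], .ref 1613 [0, 1, 2, 3, 5]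 [1, 1, 1, 3, 1], .ref 1614 [0, 1, 2, 3, 5] [1, 1, 1, 3, 1], .ref 1615 [0, 1, 2, 3, 5] [1, 1, 0, 1, 3, 1]]),
([p 1 0, g, p 4 1, s 0 2, g, s 0 3, g, s 3 0, s 2 0, g, s 0 4, g], .leaf [9, 7, 8, 7, 4, 1]),
([p 1 0, g, p 4 1, s 0 2, g, p 0 3, g, s 3 0, s 2 0, g, s 0 4, g], .leaf [9, 7, 8, 7, 4, 1]),
([p 2 0, g, m 0 1, g, p 3 2, s 1 0, g, s 0 3, g], .leaf [3, 1, 3, 0, 3]),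
([p 1 0, g, s 3 0, g, p 4 1, s 0 2, g, s 0 3, s 2 0, g, s 0 4, g], .leaf [9, 5, 8, 7, 2, 3]),
([p 1 0, g, p 4 0, g, p 0 1, s 2 0, g, s 0 2, g, m 0 3, g, s 3 4, g], .leaf [8, 6, 9, 9, 7, 4, 1]),
([p 1 0, g, p 4 1, s 0 2, g, s 3 0, g, s 0 3, s 2 0, g, s 0 4, g], .leaf [9, 7, 8, 7, 4, 1]),
([p 1 0, g, p 5 1, s 3 2, g, p 4 0, g, s 0 3, g, s 0 4, s 2 0, g, s 0 5, g], .leaf [7, 3, 11, 6, 9, 5, 2, 5]),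
([p 1 0, g, p 4 1, s 0 2, g, m 3 0, g, s 0 3, s 2 0, g, s 0 4, g], .leaf [9, 7, 8, 7, 4, 1]),
([p 1 0, g, p 6 1, s 3 2, g, s 0 3, g, p 5 0, g, m 0 4, g, s 4 5, s 2 0, g, s 0 6, g], .leaf [13, 4, 1, 4, 2, 5, 6, 7, 6, 3]),
([p 1 0, g, p 6 1, s 3 2, g, s 0 3, g, m 0 4, g, p 5 0, g, s 4 5, s 2 0, g, s 0 6, g], .leaf [13, 4, 1, 4, 2, 5, 6, 7, 6, 3]),
([p 1 0, g, p 4 1, s 0 2, g, s 0 3, s 2 0, g, s 3 0, g, s 0 4, g], .leaf [9, 7, 8, 7, 2, 3]),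
([p 1 0, g, p 4 1, s 0 2, g, s 0 3, s 2 0, g, p 3 0, g, s 0 4, g], .leaf [9, 7, 8, 7, 2, 3]),
([p 1 0, g, p 5 1, s 3 2, g, s 0 3, g, s 0 4, s 2 0, g, m 4 0, g, s 0 5, g], .leaf [1, 5, 1, 8, 2, 5, 0, 5]),
([p 1 0, g, p 6 1, s 3 2, g, s 0 3, g, m 0 4, g, s 4 5, s 2 0, g, s 5 6, g], .leaf [11, 4, 1, 10, 8, 3, 4, 5, 4, 1]),
([p 1 0, g, p 4 1, s 0 2, g, s 0 3, s 2 0, g, s 0 4, g, s 3 0, g], .leaf [7, 5, 6, 5, 2, 5]),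
([p 1 0, g, p 4 1, s 0 2, g, s 0 3, s 2 0, g, s 0 4, g, p 3 0, g], .leaf [7, 5, 6, 5, 2, 5]),
([p 1 0, g, p 5 1, s 3 2, g, s 0 3, g, s 0 4, s 2 0, g, s 0 5, g, m 4 0, g], .leaf [1, 5, 1, 10, 4, 7, 0, 3]),
([p 1 0, g, p 5 1, s 3 2, g, s 0 3, g, m 0 4, g, s 4 0, s 2 0, g, s 0 5, g], .inner (.hi 9) [.ref 1620 [0, 1, 2, 6, 5] [1, 1, 5, 1, 1], .ref 1621 [0, 1, 3, 4, 6] [1, 1, 1, 1, 1, 4], .ref 1606 [0, 1, 2, 6, 5] [1, 1, 5, 1, 1], .ref 1622 [0, 1, 2, 6, 5] [1, 1, 5, 1, 1], .ref 1623 [0, 1, 2, 3, 6, 5] [1, 1, 1, 3, 1, 1], .ref 1624 [0, 1, 2, 6, 5] [1, 1, 5, 1, 1], .ref 1622 [0, 1, 2, 6, 5] [1, 1, 3, 1, 1], .ref 1622 [0, 1, 2, 6, 5] [1, 3, 3, 1, 1], .ref 1625 [0, 1, 2, 3, 4, 6, 5] [1, 1, 1, 1, 1, 1, 1], .ref 1624 [0, 1, 2,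 6, 5] [1, 3, 3, 1, 1], .cyc [7, 9], .ref 1622 [0, 1, 2, 6, 5] [1, 5, 1, 1, 1], .ref 1626 [0, 1, 2, 3, 4, 6, 5] [1, 1, 1, 1, 1, 1, 1], .ref 1624 [0, 1, 2, 6, 5] [1, 5, 1, 1, 1], .ref 1627 [0, 1, 2, 6, 5] [1, 5, 1, 1, 1], .ref 1628 [0, 1, 2, 6, 5] [1, 5, 1, 1, 1], .ref 1629 [0, 1, 2, 3, 6, 5] [1, 1, 3, 1, 1, 1], .ref 1630 [0, 1, 2, 3, 4, 6, 5] [1, 1, 1, 1, 1, 1], .ref 1631 [0, 1, 2, 6, 5] [1, 5, 1, 1, 1], .ref 1632 [0, 1, 2, 6, 5] [1, 5, 1, 1, 1], .ref 1633 [0, 1, 2, 3, 6, 5] [1, 1, 3, 1, 1, 1]]),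
([p 1 0, g, p 4 1, s 3 2, g, p 0 3, g, s 2 0, g, s 0 4, g], .leaf [1, 5, 1, 5, 3, 0, 3]),
([p 1 0, g, p 3 1, s 2 0, g, m 0 2, g, s 0 3, g], .leaf [6, 4, 5, 4, 1]),
([p 1 0, g, p 5 1, s 4 2, g, m 0 3, g, s 0 4, g, s 3 0, s 2 0, g, s 0 5, g], .leaf [7, 3, 11, 6, 9, 5, 2, 5]),
([p 1 0, g, p 4 1, s 3 2, g, s 0 3, s 2 0, g, s 0 4, g], .leaf [1, 3, 4, 3, 0, 3]),
([p 1 0, g, p 4 0, g, p 0 1, g, s 0 2, g, m 0 3, g, s 3 4, s 2 0, g], .leaf [7, 1, 9, 4, 6, 4, 1]),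
([p 1 0, g, p 6 1, s 5 2, g, p 4 0, g, m 0 3, g, s 3 4, s 2 0, g, s 0 5, g, s 0 6, g], .leaf [1, 3, 10, 4, 1, 4, 2, 5, 0, 5]),
([p 1 0, g, p 6 1, s 5 2, g, m 0 3, g, p 4 0, g, s 3 4, s 2 0, g, s 0 5, g, s 0 6, g], .leaf [1, 3, 10, 4, 1, 4, 2, 5, 0, 5]),
([p 1 0, g, p 5 1, s 4 2, g, s 0 3, s 2 0, g, m 3 0, g, s 0 4, g, s 0 5, g], .leaf [1, 8, 2, 3, 7, 3, 0, 5]),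
([p 1 0, g, p 6 1, s 5 2, g, m 0 3, g, s 3 4, s 2 0, g, s 0 5, g, m 4 0, g, s 0 6, g], .leaf [1, 3, 8, 4, 1, 8, 6, 3, 0, 5]),
([p 1 0, g, p 6 1, s 5 2, g, m 0 3, g, s 3 4, s 2 0, g, s 0 5, g, s 4 6, g], .leaf [1, 3, 8, 4, 1, 8, 6, 3, 0, 3]),
([p 1 0, g, p 5 1, s 0 2, g, m 0 3, g, s 3 4, s 2 0, g, s 0 5, g, m 4 0, g], .leaf [4, 10, 7, 10, 5, 2, 6, 1]),
([p 1 0, g, p 5 1, s 4 2, g, m 0 3, g, s 3 0, s 2 0, g, s 0 4, g, s 0 5, g], .inner (.hi 7) [.ref 1620 [0, 1, 2, 6, 5] [1, 1, 3, 3, 1], .ref 1639 [0, 1, 2, 3, 6] [1, 1, 0, 1, 1, 5], .ref 1606 [0, 1, 2, 6, 5] [1, 1, 3, 3, 1], .ref 1622 [0, 1, 2, 6, 5] [1, 1, 3, 3, 1], .ref 1640 [0, 1, 2, 3, 6, 4, 5] [1, 1, 1, 1, 1, 1, 1], .ref 1624 [0, 1, 2, 6, 5] [1, 1, 3, 3, 1], .cyc [5,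 7], .ref 1622 [0, 1, 2, 6, 5] [1, 3, 1, 3, 1], .ref 1641 [0, 1, 2, 3, 6, 4, 5] [1, 1, 1, 1, 1, 1, 1], .ref 1624 [0, 1, 2, 6, 5] [1, 3, 1, 3, 1], .ref 1627 [0, 1, 2, 6, 5] [1, 3, 1, 3, 1], .ref 1628 [0, 1, 2, 6, 5] [1, 3, 1, 3, 1], .ref 1642 [0, 1, 2, 6, 4, 5] [1, 3, 1, 1, 1, 1], .ref 1627 [0, 1, 2, 6, 5] [1, 3, 1, 1, 1], .ref 1627 [0, 1, 2, 6, 5] [1, 3, 3, 1, 1], .ref 1628 [0, 1, 2, 6, 5] [1, 3, 3, 1, 1], .ref 1643 [0, 1, 2, 3, 6, 4, 5] [1, 1, 1, 1, 1, 1, 1], .ref 1644 [0, 1, 2, 3, 6, 4, 5] [1, 1, 1, 1, 1, 1], .ref 1631 [0, 1, 2, 6, 5] [1, 3, 3, 1, 1], .ref 1632 [0, 1, 2, 6, 5] [1, 3, 3, 1, 1], .ref 1645 [0, 1, 2, 3, 6, 5] [1, 1, 1, 3, 1, 1]]),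
([p 1 0, g, p 4 1, s 3 0, g, m 0 2, g, s 2 0, g, p 0 3, g, s 0 4, g], .leaf [6, 4, 9, 6, 2, 6, 1]),
([p 1 0, g, p 5 1, s 6 2, g, p 4 0, g, m 0 3, g, s 3 4, s 2 0, g, s 0 5, g, s 0 6, g], .leaf [1, 3, 12, 6, 1, 6, 4, 7, 0, 3]),
([p 1 0, g, p 5 1, s 6 2, g, m 0 3, g, p 4 0, g, s 3 4, s 2 0, g, s 0 5, g, s 0 6, g], .leaf [1, 3, 12, 6, 1, 6, 4, 7, 0, 3]),
([p 1 0, g, p 4 1, s 5 2, g, s 0 3, s 2 0, g, m 3 0, g, s 0 4, g, s 0 5, g], .leaf [1, 8, 2, 3, 9, 5, 0, 1]),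
([p 1 0, g, p 4 1, s 5 2, g, s 0 3, s 2 0, g, s 3 4, g, s 0 5, g], .leaf [1, 8, 2, 3, 7, 3, 0, 3]),
([p 1 0, g, p 4 1, s 5 2, g, m 0 3, g, s 3 0, s 2 0, g, s 0 4, g, s 0 5, g], .inner (.hi 7) [.ref 1620 [0, 1, 2, 6, 4] [1, 1, 3, 1, 3], .ref 1639 [0, 1, 2, 3, 6] [1, 1, 0, 1, 1, 5], .ref 1606 [0, 1, 2, 6, 4] [1, 1, 3, 1, 3], .ref 1622 [0, 1, 2, 6, 4] [1, 1, 3, 1, 3], .ref 1648 [0, 1, 2, 3, 6, 4, 5] [1, 1, 1, 1, 1, 1, 1], .ref 1624 [0, 1, 2, 6, 4] [1, 1, 3, 1, 3], .cyc [5, 7], .ref 1622 [0, 1, 2, 6, 4] [1, 3, 1, 1, 3], .ref 1649 [0, 1, 2, 3, 6, 4, 5] [1, 1, 1, 1, 1, 1, 1], .ref 1624 [0, 1, 2, 6, 4] [1, 3, 1, 1, 3], .ref 1627 [0, 1, 2, 6, 4] [1, 3, 1, 1, 3], .ref 1628 [0, 1, 2, 6, 4] [1, 3, 1, 1, 3], .ref 1650 [0, 1, 2,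 6, 4, 5] [1, 3, 1, 1, 1, 1], .ref 1651 [0, 1, 2, 6, 4, 5] [1, 3, 1, 1, 1], .ref 1631 [0, 1, 2, 6, 4] [1, 3, 1, 1, 3], .ref 1632 [0, 1, 2, 6, 4] [1, 3, 1, 1, 3], .ref 1645 [0, 1, 2, 3, 6, 4] [1, 1, 1, 1, 1, 3], .ref 1631 [0, 1, 2, 6, 4] [1, 3, 1, 1, 1], .ref 1631 [0, 1, 2, 6, 4] [1, 3, 1, 3, 1], .ref 1632 [0, 1, 2, 6, 4] [1, 3, 1, 3, 1], .ref 1645 [0, 1, 2, 3, 6, 4] [1, 1, 1, 1, 3, 1]]),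
([p 1 0, g, p 3 1, s 4 2, g, s 2 0, g, s 0 3, g, p 0 4, g], .leaf [1, 5, 1, 7, 5, 0, 1]),
([p 1 0, g, p 2 1, s 3 0, g, s 0 2, g, m 0 3, g], .leaf [4, 2, 3, 2, 3]),
([p 1 0, g, p 4 1, s 0 2, g, m 0 3, g, s 3 0, s 2 0, g, s 0 4, g], .inner (.lo 3) [.ref 1434 [0, 5, 1] [1, 8], .ref 1427 [0, 5, 1] [1, 1, 8], .ref 1435 [0, 5, 1] [1, 1, 8], .ref 1619 [0, 5, 1, 4] [1, 1, 6, 1], .ref 1634 [0, 1, 2, 5, 3, 4] [1, 1, 1, 1, 1, 1], .ref 1635 [0, 1, 2, 5, 4] [1, 1, 4, 1, 1], .ref 1636 [0, 1, 5, 4] [1, 1, 6, 1], .ref 1637 [0, 1, 2, 3, 5, 4] [1, 1, 1, 1, 1, 1], .ref 1635 [0, 1, 2, 5, 4] [1, 3, 2, 1, 1], .ref 1636 [0, 1, 5, 4] [1, 3, 4, 1], .ref 1638 [0, 1, 2, 5, 4] [1, 3, 1, 1], .cyc [3, 8], .ref 1646 [0, 1, 2, 3, 5, 4] [1, 1, 1, 1,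 1, 1], .ref 1647 [0, 1, 3, 5, 4] [1, 1, 1, 2, 1, 1], .ref 1636 [0, 1, 5, 4] [1, 6, 1, 1], .ref 1652 [0, 1, 2, 3, 4, 5] [1, 1, 1, 1, 1, 1], .ref 1653 [0, 1, 2, 4, 5] [1, 4, 1, 1, 1], .ref 1654 [0, 1, 4, 5] [1, 6, 1, 1]]),
([p 1 0, g, p 4 1, s 0 2, g, s 3 0, s 2 0, g, s 0 3, g, s 0 4, g], .leaf [9, 7, 8, 7, 2, 3]),
([p 1 0, g, p 5 1, s 3 2, g, s 0 3, g, s 4 0, s 2 0, g, p 0 4, g, s 0 5, g], .leaf [1, 5, 1, 8, 2, 5, 0, 5]),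
([p 2 1, g, s 1 0, g, p 0 2, s 4 3, g, s 5 0, s 3 0, g, s 0 4, g, p 0 5, g], .leaf [5, 9, 6, 1, 9, 5, 2, 5]),
([p 2 1, g, p 0 2, s 0 3, g, s 1 0, g, s 4 0, s 3 0, g, p 0 4, g], .leaf [0, 4, 9, 2, 6, 1]),
([p 2 1, g, p 0 2, s 4 3, g, s 5 0, s 3 0, g, s 1 0, g, s 0 4, g, p 0 5, g], .leaf [0, 7, 9, 4, 1, 8, 2, 3]),
([p 2 1, g, p 0 2, s 3 0, g, s 1 3, g], .leaf [0, 4, 4, 2, 1]),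
([p 2 1, g, p 0 2, s 4 3, g, s 5 0, s 3 0, g, s 0 4, g, s 1 0, g, p 0 5, g], .leaf [12, 6, 7, 3, 8, 8, 6, 1]),
([p 2 1, g, p 0 2, s 4 3, g, s 5 0, s 3 0, g, s 0 4, g, p 0 5, g, s 1 0, g], .leaf [3, 7, 11, 6, 6, 4, 6, 3])]

def d06_2 : List (List Item × Pf) := [
([p 1 0, g, p 0 1, s 3 2, g, s 4 0, s 2 0, g, s 0 3, g, p 0 4, g], .inner (.hi 0) [.ref 1658 [0, 5, 1, 2, 3, 4] [1, 1, 1, 1, 1, 1], .ref 1342 [0, 5] [1, 11], .ref 1343 [0, 5] [1, 11], .cyc [0, 2], .ref 1659 [0, 5, 1, 2, 4] [1, 1, 1, 3, 1], .ref 1342 [0, 5] [4, 8], .ref 1343 [0, 5] [4, 8], .ref 1660 [0, 5, 1, 2, 3, 4] [1, 1, 1, 1, 1, 1], .ref 1342 [0, 5] [7, 5], .ref 1343 [0, 5] [7, 5], .ref 1661 [0, 5, 1, 3] [1, 4, 3], .ref 1662 [0, 5, 1, 2, 3, 4] [1, 1, 1, 1,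 1, 1], .ref 1342 [0, 5] [9, 3], .ref 1343 [0, 5] [9, 3], .ref 1342 [0, 5] [9, 1], .ref 1663 [0, 5, 1, 2, 3, 4] [1, 1, 1, 1, 1, 1], .ref 1342 [0, 5] [11, 1], .ref 1343 [0, 5] [11, 1]]),
([p 1 0, g, p 4 1, s 3 2, g, s 2 0, g, p 0 3, g, s 0 4, g], .leaf [1, 5, 1, 5, 3, 0, 3]),
([p 1 0, g, p 5 1, s 4 2, g, s 3 0, s 2 0, g, p 0 3, g, s 0 4, g, s 0 5, g], .leaf [1, 8, 2, 3, 7, 3, 0, 5]),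
([p 1 0, g, p 4 1, s 5 2, g, s 3 0, s 2 0, g, p 0 3, g, s 0 4, g, s 0 5, g], .leaf [1, 8, 2, 3, 9, 5, 0, 1]),
([p 1 0, g, p 4 1, s 0 2, g, s 3 0, s 2 0, g, p 0 3, g, s 0 4, g], .inner (.lo 3) [.ref 1434 [0, 5, 1] [1, 8], .ref 1427 [0, 5, 1] [1, 1, 8], .ref 1435 [0, 5, 1] [1, 1, 8], .ref 1619 [0, 5, 1, 4] [1, 1, 6, 1], .ref 1657 [0, 1, 2, 5, 3, 4] [1, 1, 1, 1, 1, 1], .ref 1635 [0, 1, 2, 5, 4] [1, 1, 2, 3, 1], .ref 1636 [0, 1, 5, 4] [1, 1, 6, 1], .ref 1638 [0, 1, 2, 5, 4] [1, 1, 3, 1], .cyc [3, 6], .ref 1664 [0, 1, 2, 5, 3] [1, 1, 1, 1, 3], .ref 1665 [0, 1, 2, 5, 4] [1, 2, 1, 3, 1], .ref 1636 [0, 1, 5, 4] [1, 4, 3, 1], .ref 1666 [0, 1, 2, 3, 5, 4] [1, 1, 1, 1, 1, 1], .ref 1665 [0, 1, 2, 5, 4] [1, 2, 3, 1, 1], .ref 1636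 [0, 1, 5, 4] [1, 6, 1, 1], .ref 1667 [0, 1, 2, 3, 4, 5] [1, 1, 1, 1, 1, 1], .ref 1653 [0, 1, 2, 4, 5] [1, 2, 3, 1, 1], .ref 1654 [0, 1, 4, 5] [1, 6, 1, 1]]),
([p 1 0, g, p 4 1, s 0 2, g, s 3 0, s 2 0, g, m 0 3, g, s 0 4, g], .leaf [9, 7, 8, 7, 2, 3]),
([p 1 0, g, p 3 1, s 0 2, g, s 4 0, s 2 0, g, s 0 3, g, s 0 4, g], .leaf [7, 5, 6, 5, 2, 5]),
([p 1 0, g, p 4 1, s 3 2, g, s 0 3, g, s 5 0, s 2 0, g, s 0 4, g, p 0 5, g], .leaf [1, 5, 1, 10, 4, 7, 0, 3]),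
([p 1 0, g, p 3 1, s 5 2, g, s 4 0, s 2 0, g, s 0 3, g, p 0 4, g, s 0 5, g], .leaf [1, 10, 4, 5, 9, 3, 0, 3]),
([p 1 0, g, p 3 1, s 0 2, g, s 4 0, s 2 0, g, s 0 3, g, p 0 4, g], .inner (.lo 3) [.ref 1434 [0, 5, 1] [1, 8], .ref 1427 [0, 5, 1] [1, 1, 8], .ref 1435 [0, 5, 1] [1, 1, 8], .ref 1619 [0, 5, 1, 3] [1, 1, 4, 3], .ref 1671 [0, 1, 2, 5, 3, 4] [1, 1, 1, 1, 1, 1], .ref 1635 [0, 1, 2, 5, 3] [1, 1, 2, 1, 3], .ref 1636 [0, 1, 5, 3] [1, 1, 4, 3], .ref 1638 [0, 1, 2, 5, 3] [1, 1, 1, 3], .cyc [3, 6], .ref 1664 [0, 1, 2, 5, 4] [1, 1, 1, 3, 1], .ref 1665 [0, 1, 2, 5, 3] [1, 2, 1, 1, 3], .ref 1636 [0, 1, 5, 3] [1, 4, 1, 3], .ref 1664 [0, 1, 2, 5, 4] [1, 1, 3, 1, 1], .ref 1653 [0, 1, 2, 3, 5] [1, 2, 1, 1, 3], .ref 1654 [0,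 1, 3, 5] [1, 4, 1, 3], .ref 1672 [0, 1, 2, 3, 4, 5] [1, 1, 1, 1, 1, 1], .ref 1653 [0, 1, 2, 3, 5] [1, 2, 1, 3, 1], .ref 1654 [0, 1, 3, 5] [1, 4, 3, 1]]),
([p 1 0, g, p 3 1, s 0 2, g, s 4 0, s 2 0, g, s 0 3, g, m 0 4, g], .leaf [7, 5, 6, 5, 2, 5]),
([p 1 0, g, p 3 1, s 0 2, g, s 0 0, s 2 0, g, s 0 3, g], .inner (.lo 5) [.ref 1601 [0, 4, 1, 2, 3] [1, 1, 1, 1], .ref 1602 [0, 4, 1, 2, 3] [1, 1, 1, 1, 1], .ref 1603 [0, 4, 1, 2, 3] [1, 1, 1, 1, 1], .ref 1616 [0, 4, 1, 2, 3] [1, 1, 1, 1, 1], .ref 1617 [0, 1, 2, 4, 3] [1, 1, 1, 1, 1], .ref 1618 [0, 1, 2, 4, 3] [1, 1, 1, 1, 1], .ref 1655 [0, 1, 2, 4, 3] [1, 1, 1, 1, 1], .cyc [5], .contra, .ref 1656 [0, 1, 2, 4, 3] [1, 1, 1, 1, 1], .ref 1668 [0, 1, 2, 4, 3] [1, 1, 1, 1, 1], .ref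 1669 [0, 1, 2, 4, 3] [1, 1, 1, 1, 1], .ref 1670 [0, 1, 2, 3, 4] [1, 1, 1, 1, 1], .ref 1673 [0, 1, 2, 3, 4] [1, 1, 1, 1, 1], .ref 1674 [0, 1, 2, 3, 4] [1, 1, 1, 1, 1]]),
([p 1 0, g, s 3 0, g, p 4 1, s 0 2, g, p 0 3, s 2 0, g, s 0 4, g], .leaf [9, 5, 8, 7, 2, 3]),
([p 0 0, g, s 1 0, p 2 0, g, p 0 1, g, s 0 2, g], .leaf [5, 2, 5]),
([p 1 0, g, p 4 1, s 0 2, g, s 3 0, g, p 0 3, s 2 0, g, s 0 4, g], .leaf [9, 7, 8, 7, 4, 1]),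
([p 2 0, g, s 0 1, g, p 0 2, s 0 3, g, p 4 0, g, p 1 4, g, s 3 0, g], .leaf [2, 8, 8, 6, 8, 6, 1]),
([p 3 0, g, s 0 1, g, s 2 0, g, s 1 2, p 7 3, s 0 4, g, s 0 5, g, p 6 0, g, p 5 6, s 4 0, g, s 0 7, g], .leaf [13, 7, 9, 15, 6, 12, 1, 7, 2, 6, 1]),
([p 2 0, g, s 0 1, g, s 1 0, p 4 2, g, m 0 3, g, p 3 0, g, s 0 4, g], .leaf [4, 1, 4, 0, 7, 3, 1]),
([p 3 0, g, s 0 1, g, s 2 0, g, s 1 2, p 7 3, s 0 4, g, p 6 0, g, s 0 5, g, p 5 6, s 4 0, g, s 0 7, g], .leaf [11, 5, 7, 15, 8, 12, 1, 5, 2, 6, 1]),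
([p 1 0, g, p 4 1, s 0 2, g, p 3 0, g, s 2 3, g, s 0 4, g], .leaf [6, 4, 7, 4, 2, 4, 1]),
([p 3 0, g, s 0 1, g, s 2 0, g, s 1 2, p 7 3, s 0 4, g, p 5 0, g, p 6 5, s 4 0, g, s 0 6, g, s 0 7, g], .leaf [11, 5, 7, 15, 8, 12, 1, 7, 4, 6, 3]),
([p 1 0, g, p 4 1, s 0 2, g, p 3 0, g, s 2 0, g, p 0 3, g, s 0 4, g], .leaf [10, 8, 9, 8, 3, 5, 3]),
([p 2 0, g, s 0 1, g, s 1 0, p 4 2, g, p 3 0, g, m 0 3, g, s 0 4, g], .leaf [4, 1, 4, 0, 7, 3, 1]),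
([p 3 0, g, s 0 1, g, s 2 0, g, s 1 2, p 6 3, s 0 4, g, p 5 0, g, p 7 5, s 4 0, g, s 0 6, g, s 0 7, g], .leaf [11, 5, 7, 13, 6, 10, 1, 5, 2, 4, 7]),
([p 2 0, g, s 0 1, g, s 1 0, p 3 2, g, p 4 0, g, s 0 3, g, p 0 4, g], .leaf [4, 1, 4, 0, 5, 7, 5]),
([p 2 0, g, s 0 1, g, s 1 0, p 3 2, g, p 4 0, g, s 0 3, g, m 0 4, g], .leaf [4, 1, 4, 0, 5, 1, 5]),
([p 3 0, g, s 0 1, g, s 2 0, g, s 1 2, p 6 3, s 0 4, g, p 5 0, g, p 0 5, s 4 0, g, s 0 6, g], .inner (.lo 12) [.ref 1342 [0, 7] [11, 4], .ref 1679 [0, 7, 3, 4, 5] [1, 6, 1, 1, 0, 3], .ref 1451 [0, 7] [1, 11, 4], .ref 1452 [0, 7, 3] [1, 6, 4, 4], .ref 1679 [0, 7, 3, 4, 5] [3, 4, 1, 1, 0, 3], .ref 1451 [0, 7] [3, 9, 4], .ref 1452 [0, 7, 3] [3, 4, 4, 4], .ref 1679 [0, 7, 3, 4,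 5] [3, 2, 1, 1, 0, 3], .ref 1679 [0, 7, 3, 4, 5] [5, 2, 1, 1, 0, 3], .ref 1451 [0, 7] [5, 7, 4], .ref 1452 [0, 7, 3] [5, 2, 4, 4], .ref 1680 [0, 1, 2, 3, 4, 7, 5, 6] [1, 1, 1, 1, 1, 1, 1, 1], .ref 1451 [0, 7] [9, 3, 4], .ref 1681 [0, 1, 3, 7, 6] [1, 3, 2, 3, 2, 1], .cyc [10, 12], .ref 1682 [0, 1, 2, 3, 4, 7, 5, 6] [1, 1, 1, 1, 1, 1, 1, 1], .ref 1451 [0, 7] [11, 1, 4], .ref 1681 [0, 1, 3, 7, 6] [1, 3, 4, 1, 2, 1], .ref 1683 [0, 3, 4, 7, 6] [6, 3, 0, 1, 1], .ref 1684 [0, 1, 2, 3, 4, 5, 7, 6] [1, 1, 1, 1, 1, 1, 1, 1], .ref 1685 [0, 3, 4, 7, 6] [6, 3, 0, 1, 1, 1], .ref 1686 [0, 1, 3, 7, 6] [1, 3, 4, 2, 1, 1], .ref 1687 [0, 1, 2, 3, 4, 5, 6, 7] [1, 1, 1, 1, 1, 1, 1, 1], .ref 1688 [0, 1, 3, 6, 7] [1, 3, 4, 2, 1, 1], .ref 1689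 [0, 1, 3, 6, 7] [1, 3, 4, 2, 1, 1]]),
([p 3 0, g, m 0 1, g, s 2 0, g, s 1 2, p 4 3, g, s 0 4, g], .leaf [5, 7, 1, 2, 6, 4, 1]),
([p 3 0, g, s 2 0, g, s 0 1, g, s 1 2, p 7 3, s 0 4, g, s 0 5, g, p 6 0, g, p 5 6, s 4 0, g, s 0 7, g], .leaf [13, 7, 9, 15, 6, 12, 1, 7, 2, 6, 1]),
([p 3 0, g, s 2 0, g, s 0 1, g, s 1 2, p 7 3, s 0 4, g, p 6 0, g, s 0 5, g, p 5 6, s 4 0, g, s 0 7, g], .leaf [11, 5, 7, 15, 8, 12, 1, 5, 2, 6, 1]),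
([p 3 0, g, s 2 0, g, s 0 1, g, s 1 2, p 7 3, s 0 4, g, p 5 0, g, p 6 5, s 4 0, g, s 0 6, g, s 0 7, g], .leaf [11, 5, 7, 15, 8, 12, 1, 7, 4, 6, 3]),
([p 3 0, g, s 2 0, g, s 0 1, g, s 1 2, p 6 3, s 0 4, g, p 5 0, g, p 7 5, s 4 0, g, s 0 6, g, s 0 7, g], .leaf [11, 5, 7, 13, 6, 10, 1, 5, 2, 4, 7]),
([p 3 0, g, s 2 0, g, s 0 1, g, s 1 2, p 6 3, s 0 4, g, p 5 0, g, p 0 5, s 4 0, g, s 0 6, g], .inner (.lo 12) [.ref 1342 [0, 7] [11, 4], .ref 1679 [0, 7, 3, 4, 5] [1, 6, 1, 1, 0, 3], .ref 1451 [0, 7] [1, 11, 4], .ref 1452 [0, 7, 3] [1, 6, 4, 4], .ref 1679 [0, 7, 3, 4, 5] [1, 4, 1, 1, 0, 3], .ref 1679 [0, 7, 3, 4, 5] [3, 4, 1, 1, 0, 3], .ref 1451 [0, 7] [3, 9, 4], .ref 1452 [0, 7, 3] [3, 4, 4, 4], .ref 1679 [0, 7, 3, 4, 5] [5,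 2, 1, 1, 0, 3], .ref 1451 [0, 7] [5, 7, 4], .ref 1452 [0, 7, 3] [5, 2, 4, 4], .ref 1692 [0, 1, 2, 3, 4, 7, 5, 6] [1, 1, 1, 1, 1, 1, 1, 1], .ref 1451 [0, 7] [9, 3, 4], .ref 1681 [0, 1, 3, 7, 6] [3, 1, 2, 3, 2, 1], .cyc [10, 12], .ref 1693 [0, 1, 2, 3, 4, 7, 5, 6] [1, 1, 1, 1, 1, 1, 1, 1], .ref 1451 [0, 7] [11, 1, 4], .ref 1681 [0, 1, 3, 7, 6] [3, 1, 4, 1, 2, 1], .ref 1683 [0, 3, 4, 7, 6] [6, 3, 0, 1, 1], .ref 1694 [0, 1, 2, 3, 4, 5, 7, 6] [1, 1, 1, 1, 1, 1, 1, 1], .ref 1685 [0, 3, 4, 7, 6] [6, 3, 0, 1, 1, 1], .ref 1686 [0, 1, 3, 7, 6] [3, 1, 4, 2, 1, 1], .ref 1695 [0, 1, 2, 3, 4, 5, 6, 7] [1, 1, 1, 1, 1, 1, 1, 1], .ref 1688 [0, 1, 3, 6, 7] [3, 1, 4, 2, 1, 1], .ref 1689 [0, 1, 3, 6, 7] [3, 1, 4, 2, 1, 1]]),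
([p 3 0, g, s 2 0, g, m 0 1, g, s 1 2, p 4 3, g, s 0 4, g], .leaf [3, 7, 3, 1, 4, 2, 3]),
([p 1 0, g, s 3 0, p 4 1, s 0 2, g, s 0 3, g, s 2 0, g, s 0 4, g], .leaf [2, 5, 7, 5, 0, 5]),
([p 1 0, g, s 2 0, p 3 1, g, m 0 2, g, s 0 3, g], .leaf [6, 1, 2, 4, 3]),
([p 1 0, g, s 3 0, p 4 1, s 0 2, g, s 2 3, g, s 0 4, g], .leaf [2, 5, 5, 3, 0, 3]),
([p 1 0, g, s 3 0, p 4 1, s 0 2, g, s 2 0, g, s 0 3, g, s 0 4, g], .leaf [9, 1, 5, 7, 6, 1]),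
([p 1 0, g, s 5 0, p 4 1, s 0 2, g, p 3 0, g, p 0 3, s 2 0, g, s 0 4, g, s 0 5, g], .leaf [6, 11, 7, 11, 1, 5, 2, 5]),
([p 2 0, g, s 1 0, g, s 4 1, p 3 2, g, s 0 3, g, m 0 4, g], .leaf [3, 5, 1, 6, 3, 4, 1]),
([p 2 0, g, s 1 0, g, s 0 1, p 5 2, s 0 3, g, p 4 0, g, p 0 4, s 3 0, g, s 0 5, g], .inner (.lo 4) [.ref 1584 [0, 6, 2, 5] [3, 7, 1], .ref 1690 [0, 6, 1, 2, 3, 4, 5] [1, 1, 1, 1, 1, 1, 1], .ref 1586 [0, 6, 2, 5] [1, 3, 7, 1], .ref 1691 [0, 6, 1, 2, 5] [1, 1, 1, 7, 1], .cyc [2, 4], .ref 1696 [0, 6, 1, 2, 3, 4, 5] [1, 1, 1, 1, 1, 1, 1], .ref 1586 [0, 6, 2, 5] [3, 1, 7, 1], .ref 1697 [0, 6, 1, 2, 5] [1, 1, 1, 7, 1], .ref 1698 [0, 2, 3, 6, 5] [3, 1, 4, 1, 1], .ref 1677 [0, 6, 5] [3, 2, 6, 1], .ref 1699 [0, 2, 6, 5]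 [3, 2, 6, 1], .ref 1677 [0, 6, 5] [3, 2, 4, 1], .ref 1698 [0, 2, 3, 6, 5] [3, 3, 2, 1, 1], .ref 1677 [0, 6, 5] [3, 4, 4, 1], .ref 1699 [0, 2, 6, 5] [3, 4, 4, 1], .ref 1700 [0, 2, 3, 6, 5] [3, 4, 1, 1], .ref 1701 [0, 2, 3, 6, 5] [3, 4, 1, 1, 1], .ref 1677 [0, 6, 5] [3, 7, 1, 1], .ref 1699 [0, 2, 6, 5] [3, 7, 1, 1], .ref 1702 [0, 2, 3, 4, 5, 6] [3, 1, 1, 1, 1, 1], .ref 1591 [0, 5, 6] [3, 7, 1, 1], .ref 1703 [0, 1, 2, 5, 6] [1, 1, 7, 1, 1]]),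
([p 2 0, g, p 1 0, g, s 4 1, g, p 0 2, s 0 3, g, s 3 0, g, m 0 4, g], .leaf [3, 4, 9, 6, 7, 4, 1]),
([p 2 0, g, p 1 0, g, s 0 1, p 5 2, s 0 3, g, p 4 0, g, p 0 4, s 3 0, g, s 0 5, g], .inner (.lo 4) [.ref 1584 [0, 6, 2, 5] [3, 7, 1], .ref 1585 [0, 6, 1, 2, 5] [1, 1, 1, 7, 1], .ref 1586 [0, 6, 2, 5] [1, 3, 7, 1], .ref 1587 [0, 6, 1, 2, 5] [1, 1, 1, 7, 1], .cyc [2, 4], .ref 1588 [0, 6, 1, 2, 5] [1, 1, 1, 7, 1], .ref 1586 [0, 6, 2, 5] [3, 1, 7, 1], .ref 1589 [0, 6, 1, 2, 5] [1, 1, 1, 7, 1], .ref 1698 [0, 2, 3, 6, 5] [3, 1, 4, 1, 1], .ref 1677 [0, 6, 5] [3, 2, 6, 1], .ref 1699 [0, 2, 6, 5] [3, 2, 6, 1], .ref 1677 [0, 6, 5] [3, 2, 4, 1], .ref 1698 [0, 2, 3, 6, 5] [3, 3, 2, 1, 1], .ref 1677 [0, 6, 5] [3, 4, 4, 1], .ref 1699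 [0, 2, 6, 5] [3, 4, 4, 1], .ref 1700 [0, 2, 3, 6, 5] [3, 4, 1, 1], .ref 1701 [0, 2, 3, 6, 5] [3, 4, 1, 1, 1], .ref 1677 [0, 6, 5] [3, 7, 1, 1], .ref 1705 [0, 1, 2, 3, 6] [1, 1, 0, 4, 1, 3], .ref 1702 [0, 2, 3, 4, 5, 6] [3, 1, 1, 1, 1, 1], .ref 1591 [0, 5, 6] [3, 7, 1, 1], .ref 1705 [0, 1, 2, 3, 6] [1, 1, 0, 4, 3, 1]]),
([p 2 0, g, s 0 1, p 4 2, s 0 3, g, s 1 0, g, s 3 0, g, s 0 4, g], .leaf [2, 5, 7, 5, 0, 5]),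
([p 2 0, g, s 0 1, p 3 2, g, p 1 0, g, s 0 3, g], .leaf [6, 1, 2, 4, 3]),
([p 0 0, g, s 0 1, p 2 0, g, m 1 0, g, s 0 2, g], .leaf [5, 2, 5]),
([p 2 0, g, s 0 1, p 4 2, s 0 3, g, s 3 0, g, s 1 0, g, s 0 4, g], .leaf [9, 1, 5, 7, 6, 1]),
([p 0 0, g, s 0 1, p 2 0, g, s 1 2, g], .leaf [5, 2, 1]),
([p 2 0, g, s 0 1, p 5 2, s 0 3, g, p 4 0, g, p 0 4, s 3 0, g, s 0 5, g, s 1 0, g], .leaf [6, 11, 7, 11, 1, 5, 2, 5]),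
([p 2 0, g, s 0 1, p 5 2, s 0 3, g, p 4 0, g, p 0 4, s 3 0, g, s 0 5, g, p 1 0, g], .leaf [6, 11, 7, 11, 1, 5, 2, 5]),
([p 1 0, g, s 0 0, p 4 1, s 0 2, g, p 3 0, g, p 0 3, s 2 0, g, s 0 4, g], .inner (.hi 2) [.ref 1704 [0, 5, 1, 2, 3, 4] [1, 1, 1, 1, 1, 1], .ref 1706 [0, 5, 1, 2, 3, 4] [1, 1, 1, 1, 1, 1], .ref 1594 [0, 5, 1, 4] [1, 1, 7, 1], .cyc [2], .ref 1427 [0, 5, 1] [1, 0, 8], .ref 1707 [0, 5, 1, 2, 4] [1, 1, 4, 1, 1], .ref 1708 [0, 5, 1, 4] [1, 2, 6, 1], .ref 1709 [0, 5, 4] [1, 2, 6, 1], .ref 1707 [0, 5, 1, 2, 4] [1, 3, 2, 1, 1], .ref 1708 [0, 5, 1, 4] [1, 4, 4, 1], .ref 1709 [0, 5, 4] [1, 4, 4, 1], .ref 1708 [0, 5, 1, 4] [1, 4, 2, 1], .ref 1710 [0, 5, 1, 2, 4] [1, 4, 1, 1, 1], .ref 1708 [0, 5, 1, 4] [1, 7, 1,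 1], .ref 1709 [0, 5, 4] [1, 7, 1, 1], .ref 1711 [0, 5, 4] [1, 7, 1], .ref 1712 [0, 5, 1, 2, 3, 4] [1, 1, 1, 1, 1, 1], .ref 1713 [0, 5, 1, 2, 3, 4] [1, 1, 1, 1, 1, 1], .ref 1598 [0, 5, 4] [1, 7, 1, 1]]),
([p 1 0, g, p 4 1, s 0 2, g, p 0 3, s 2 0, g, s 3 0, g, s 0 4, g], .leaf [9, 7, 8, 7, 2, 3]),
([p 1 0, g, p 4 1, g, s 0 2, g, p 0 3, s 2 0, g, s 3 4, g], .leaf [3, 9, 7, 7, 5, 2, 3]),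
([p 1 0, g, p 4 1, s 0 2, g, p 0 3, s 2 0, g, s 0 4, g, s 3 0, g], .leaf [7, 5, 6, 5, 2, 5]),
([p 1 0, g, s 0 0, p 3 1, s 0 2, g, p 0 0, s 2 0, g, s 0 3, g], .inner (.hi 6) [.ref 1676 [0, 1, 2, 4, 3] [1, 2, 1, 1, 1], .ref 1523 [0, 2, 4] [1, 3, 1, 3], .ref 1477 [0, 4] [1, 5, 4], .ref 1677 [0, 4, 3] [1, 2, 2, 1], .ref 1635 [0, 1, 2, 4, 3] [2, 1, 0, 1, 1], .ref 1678 [0, 1, 2, 4, 3] [2, 1, 1, 1, 1], .ref 1714 [0, 1, 2, 4, 3] [1, 1, 1, 1, 1], .ref 1477 [0, 4] [5, 1, 4], .cyc [6], .ref 1715 [0, 1, 2, 4, 3] [2, 1, 1, 1, 1], .ref 1451 [0, 4] [5, 2, 3], .ref 1488 [0, 4] [5, 2, 3], .ref 1716 [0, 1, 2, 4, 3] [2, 0, 1, 1, 1], .ref 1717 [0, 1, 2, 4, 3] [2, 1, 1, 1, 1], .ref 1451 [0, 4] [5, 4, 1], .ref 1488 [0, 4] [5, 4, 1]]),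
([p 2 0, g, s 0 1, g, p 4 2, s 0 3, g, m 1 0, s 3 0, g, s 0 4, g], .leaf [9, 5, 8, 7, 2, 3]),
([p 0 0, g, m 0 1, g, s 0 2, g, m 1 0, s 2 0, g], .leaf [4, 6, 3]),
([p 1 0, g, p 4 1, s 0 2, g, s 0 3, g, m 3 0, s 2 0, g, s 0 4, g], .leaf [9, 7, 8, 7, 4, 1]),
([p 1 0, g, s 4 0, g, p 0 1, s 0 2, g, m 0 3, g, m 3 4, g, s 2 0, g], .leaf [2, 8, 8, 6, 8, 6, 1]),
([p 3 0, g, s 0 1, g, s 2 0, g, s 1 2, p 7 3, s 0 4, g, s 6 0, g, m 0 5, g, m 5 6, s 4 0, g, s 0 7, g], .leaf [13, 7, 9, 15, 6, 12, 1, 7, 2, 6, 1]),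
([p 3 0, g, s 0 1, g, s 2 0, g, s 1 2, p 7 3, s 0 4, g, m 0 5, g, s 6 0, g, m 5 6, s 4 0, g, s 0 7, g], .leaf [11, 5, 7, 15, 8, 12, 1, 5, 2, 6, 1]),
([p 3 0, g, s 0 1, g, s 2 0, g, s 1 2, p 7 3, s 0 4, g, m 0 5, g, m 5 6, s 4 0, g, s 6 0, g, s 0 7, g], .leaf [11, 5, 7, 15, 8, 12, 1, 7, 4, 6, 3]),
([p 1 0, g, p 4 1, s 0 2, g, m 0 3, g, s 2 0, g, m 3 0, g, s 0 4, g], .leaf [10, 8, 9, 8, 3, 5, 3]),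
([p 2 0, g, s 0 1, g, s 1 0, p 4 2, g, m 0 3, g, s 3 4, g], .leaf [4, 1, 4, 0, 5, 5, 3])]

def d06_3 : List (List Item × Pf) := [
([p 3 0, g, s 0 1, g, s 2 0, g, s 1 2, p 7 3, s 0 4, g, m 0 5, g, m 5 6, s 4 0, g, s 0 7, g, s 6 0, g], .leaf [11, 5, 7, 13, 6, 10, 1, 5, 2, 4, 7]),
([p 2 0, g, s 0 1, g, s 1 0, p 4 2, g, m 0 3, g, s 0 4, g, p 3 0, g], .leaf [4, 1, 4, 0, 5, 1, 5]),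
([p 2 0, g, s 0 1, g, s 1 0, p 4 2, g, m 0 3, g, s 0 4, g, m 3 0, g], .leaf [4, 1, 4, 0, 5, 7, 5]),
([p 3 0, g, s 0 1, g, s 2 0, g, s 1 2, p 6 3, s 0 4, g, m 0 5, g, m 5 0, s 4 0, g, s 0 6, g], .inner (.hi 12) [.ref 1722 [0, 3, 4, 5, 7] [1, 6, 1, 1, 0, 3], .ref 1462 [0, 3, 7] [1, 6, 4, 4], .ref 1463 [0, 7] [1, 11, 4], .ref 1722 [0, 3, 4, 5, 7] [1, 4, 1, 1, 0, 3], .ref 1722 [0, 3, 4, 5, 7] [3, 4, 1, 1, 0, 3], .ref 1462 [0, 3, 7] [3, 4, 4, 4], .ref 1463 [0, 7] [3, 9, 4], .ref 1722 [0, 3, 4, 5, 7] [5, 2, 1, 1, 0, 3], .ref 1462 [0, 3, 7] [5, 2, 4, 4], .ref 1463 [0, 7] [5, 7, 4], .ref 1636 [0, 3, 7, 6] [6, 3, 2, 1], .ref 1723 [0, 1, 2, 3, 4, 5, 7, 6] [1, 1, 1, 1, 1, 1, 1, 1], .ref 1686 [0, 1, 3, 7, 6] [1, 3, 2, 3, 2, 1],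 .ref 1463 [0, 7] [9, 3, 4], .cyc [10, 12], .ref 1724 [0, 1, 2, 3, 4, 5, 7, 6] [1, 1, 1, 1, 1, 1, 1, 1], .ref 1686 [0, 1, 3, 7, 6] [1, 3, 4, 1, 2, 1], .ref 1463 [0, 7] [11, 1, 4], .ref 1725 [0, 1, 2, 3, 4, 5, 7, 6] [1, 1, 1, 1, 1, 1, 1, 1], .ref 1681 [0, 1, 3, 7, 6] [1, 3, 4, 2, 1, 1], .ref 1726 [0, 3, 4, 7, 6] [6, 3, 0, 1, 1, 1], .ref 1727 [0, 1, 3, 7, 6] [1, 3, 4, 2, 1], .ref 1728 [0, 1, 2, 3, 4, 5, 7, 6] [1, 1, 1, 1, 1, 1, 1, 1], .ref 1729 [0, 1, 3, 7, 6] [1, 3, 4, 2, 1, 1], .ref 1730 [0, 1, 3, 7, 6] [1, 3, 4, 2, 1, 1]]),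
([p 3 0, g, s 2 0, g, s 0 1, g, s 1 2, p 7 3, s 0 4, g, s 6 0, g, m 0 5, g, m 5 6, s 4 0, g, s 0 7, g], .leaf [13, 7, 9, 15, 6, 12, 1, 7, 2, 6, 1]),
([p 3 0, g, s 2 0, g, s 0 1, g, s 1 2, p 7 3, s 0 4, g, m 0 5, g, s 6 0, g, m 5 6, s 4 0, g, s 0 7, g], .leaf [11, 5, 7, 15, 8, 12, 1, 5, 2, 6, 1]),
([p 3 0, g, s 2 0, g, s 0 1, g, s 1 2, p 7 3, s 0 4, g, m 0 5, g, m 5 6, s 4 0, g, s 6 0, g, s 0 7, g], .leaf [11, 5, 7, 15, 8, 12, 1, 7, 4, 6, 3]),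
([p 3 0, g, s 2 0, g, s 0 1, g, s 1 2, p 7 3, s 0 4, g, m 0 5, g, m 5 6, s 4 0, g, s 0 7, g, s 6 0, g], .leaf [11, 5, 7, 13, 6, 10, 1, 5, 2, 4, 7]),
([p 3 0, g, s 2 0, g, s 0 1, g, s 1 2, p 6 3, s 0 4, g, m 0 5, g, m 5 0, s 4 0, g, s 0 6, g], .inner (.hi 12) [.ref 1722 [0, 3, 4, 5, 7] [1, 6, 1, 1, 0, 3], .ref 1462 [0, 3, 7] [1, 6, 4, 4], .ref 1463 [0, 7] [1, 11, 4], .ref 1722 [0, 3, 4, 5, 7] [3, 4, 1, 1, 0, 3], .ref 1462 [0, 3, 7] [3, 4, 4, 4], .ref 1463 [0, 7] [3, 9, 4], .ref 1722 [0, 3, 4, 5, 7] [3, 2, 1, 1, 0, 3], .ref 1722 [0, 3, 4, 5, 7] [5, 2, 1, 1, 0, 3], .ref 1462 [0, 3, 7] [5, 2, 4, 4], .ref 1463 [0, 7] [5, 7, 4], .ref 1636 [0, 3, 7, 6] [6, 3, 2, 1], .ref 1732 [0, 1, 2, 3, 4, 5, 7, 6] [1, 1, 1, 1, 1, 1, 1, 1],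 .ref 1686 [0, 1, 3, 7, 6] [3, 1, 2, 3, 2, 1], .ref 1463 [0, 7] [9, 3, 4], .cyc [10, 12], .ref 1733 [0, 1, 2, 3, 4, 5, 7, 6] [1, 1, 1, 1, 1, 1, 1, 1], .ref 1686 [0, 1, 3, 7, 6] [3, 1, 4, 1, 2, 1], .ref 1463 [0, 7] [11, 1, 4], .ref 1734 [0, 1, 2, 3, 4, 5, 7, 6] [1, 1, 1, 1, 1, 1, 1, 1], .ref 1681 [0, 1, 3, 7, 6] [3, 1, 4, 2, 1, 1], .ref 1726 [0, 3, 4, 7, 6] [6, 3, 0, 1, 1, 1], .ref 1727 [0, 1, 3, 7, 6] [3, 1, 4, 2, 1], .ref 1735 [0, 1, 2, 3, 4, 5, 7, 6] [1, 1, 1, 1, 1, 1, 1, 1], .ref 1729 [0, 1, 3, 7, 6] [3, 1, 4, 2, 1, 1], .ref 1730 [0, 1, 3, 7, 6] [3, 1, 4, 2, 1, 1]]),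
([p 1 0, g, s 5 0, p 4 1, s 0 2, g, m 0 3, g, m 3 0, s 2 0, g, s 0 4, g, s 0 5, g], .leaf [6, 11, 7, 11, 1, 5, 2, 5]),
([p 2 0, g, s 1 0, g, s 0 1, p 5 2, s 0 3, g, m 0 4, g, m 4 0, s 3 0, g, s 0 5, g], .inner (.lo 4) [.ref 1584 [0, 6, 2, 5] [3, 7, 1], .ref 1731 [0, 6, 1, 2, 3, 4, 5] [1, 1, 1, 1, 1, 1, 1], .ref 1586 [0, 6, 2, 5] [1, 3, 7, 1], .ref 1691 [0, 6, 1, 2, 5] [1, 1, 1, 7, 1], .cyc [2, 4], .ref 1736 [0, 6, 1, 2, 3, 4, 5] [1, 1, 1, 1, 1, 1, 1], .ref 1586 [0, 6, 2, 5] [3, 1, 7, 1], .ref 1697 [0, 6, 1, 2, 5] [1, 1, 1, 7, 1], .ref 1698 [0, 2, 3, 6, 5] [3, 1, 4, 1, 1], .ref 1677 [0, 6, 5] [3, 2, 6, 1], .ref 1699 [0, 2, 6, 5] [3, 2, 6, 1], .ref 1698 [0, 2, 3, 6, 5] [3, 3, 2, 1, 1], .ref 1677 [0, 6, 5] [3, 4, 4, 1],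 .ref 1699 [0, 2, 6, 5] [3, 4, 4, 1], .ref 1699 [0, 2, 6, 5] [3, 4, 2, 1], .ref 1700 [0, 2, 3, 6, 5] [3, 4, 1, 1], .ref 1701 [0, 2, 3, 6, 5] [3, 4, 1, 1, 1], .ref 1677 [0, 6, 5] [3, 7, 1, 1], .ref 1699 [0, 2, 6, 5] [3, 7, 1, 1], .ref 1737 [0, 2, 3, 4, 5, 6] [3, 1, 1, 1, 1, 1], .ref 1591 [0, 5, 6] [3, 7, 1, 1], .ref 1703 [0, 1, 2, 5, 6] [1, 1, 7, 1, 1]]),
([p 2 0, g, p 1 0, g, s 0 1, p 5 2, s 0 3, g, m 0 4, g, m 4 0, s 3 0, g, s 0 5, g], .inner (.lo 4) [.ref 1584 [0, 6, 2, 5] [3, 7, 1], .ref 1585 [0, 6, 1, 2, 5] [1, 1, 1, 7, 1], .ref 1586 [0, 6, 2, 5] [1, 3, 7, 1], .ref 1587 [0, 6, 1, 2, 5] [1, 1, 1, 7, 1], .cyc [2, 4], .ref 1588 [0, 6, 1, 2, 5] [1, 1, 1, 7, 1], .ref 1586 [0, 6, 2, 5] [3, 1, 7, 1], .ref 1589 [0, 6, 1,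 2, 5] [1, 1, 1, 7, 1], .ref 1698 [0, 2, 3, 6, 5] [3, 1, 4, 1, 1], .ref 1677 [0, 6, 5] [3, 2, 6, 1], .ref 1699 [0, 2, 6, 5] [3, 2, 6, 1], .ref 1698 [0, 2, 3, 6, 5] [3, 3, 2, 1, 1], .ref 1677 [0, 6, 5] [3, 4, 4, 1], .ref 1699 [0, 2, 6, 5] [3, 4, 4, 1], .ref 1699 [0, 2, 6, 5] [3, 4, 2, 1], .ref 1700 [0, 2, 3, 6, 5] [3, 4, 1, 1], .ref 1701 [0, 2, 3, 6, 5] [3, 4, 1, 1, 1], .ref 1677 [0, 6, 5] [3, 7, 1, 1], .ref 1705 [0, 1, 2, 3, 6] [1, 1, 0, 4, 1, 3], .ref 1737 [0, 2, 3, 4, 5, 6] [3, 1, 1, 1, 1, 1], .ref 1591 [0, 5, 6] [3, 7, 1, 1], .ref 1705 [0, 1, 2, 3, 6] [1, 1, 0, 4, 3, 1]]),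
([p 2 0, g, s 0 1, p 5 2, s 0 3, g, m 0 4, g, m 4 0, s 3 0, g, s 0 5, g, s 1 0, g], .leaf [6, 11, 7, 11, 1, 5, 2, 5]),
([p 2 0, g, s 0 1, p 5 2, s 0 3, g, m 0 4, g, m 4 0, s 3 0, g, s 0 5, g, p 1 0, g], .leaf [6, 11, 7, 11, 1, 5, 2, 5]),
([p 1 0, g, s 0 0, p 4 1, s 0 2, g, m 0 3, g, m 3 0, s 2 0, g, s 0 4, g], .inner (.hi 2) [.ref 1738 [0, 5, 1, 2, 3, 4] [1, 1, 1, 1, 1, 1], .ref 1739 [0, 5, 1, 2, 3, 4] [1, 1, 1, 1, 1, 1], .ref 1594 [0, 5, 1, 4] [1, 1, 7, 1], .cyc [2], .ref 1427 [0, 5, 1] [1, 0, 8], .ref 1707 [0, 5, 1, 2, 4] [1, 1, 4, 1, 1], .ref 1708 [0, 5, 1, 4] [1, 2, 6, 1], .ref 1709 [0, 5, 4] [1, 2, 6, 1], .ref 1709 [0, 5, 4] [1, 2, 4, 1], .ref 1707 [0, 5, 1, 2, 4] [1, 3, 2, 1, 1], .ref 1708 [0, 5, 1, 4] [1, 4, 4,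 1], .ref 1709 [0, 5, 4] [1, 4, 4, 1], .ref 1710 [0, 5, 1, 2, 4] [1, 4, 1, 1, 1], .ref 1708 [0, 5, 1, 4] [1, 7, 1, 1], .ref 1709 [0, 5, 4] [1, 7, 1, 1], .ref 1711 [0, 5, 4] [1, 7, 1], .ref 1740 [0, 5, 1, 2, 3, 4] [1, 1, 1, 1, 1, 1], .ref 1741 [0, 5, 1, 2, 3, 4] [1, 1, 1, 1, 1, 1], .ref 1598 [0, 5, 4] [1, 7, 1, 1]]),
([p 1 0, g, p 4 1, s 0 2, g, m 3 0, s 2 0, g, s 0 3, g, s 0 4, g], .leaf [9, 7, 8, 7, 2, 3]),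
([p 1 0, g, p 3 1, s 0 2, g, m 4 0, s 2 0, g, s 0 3, g, s 0 4, g], .leaf [7, 5, 6, 5, 2, 5]),
([p 1 0, g, s 0 0, p 3 1, s 0 2, g, m 0 0, s 2 0, g, s 0 3, g], .inner (.lo 6) [.ref 1343 [0, 4] [5, 4], .ref 1719 [0, 4, 1, 2, 3] [1, 2, 1, 1, 1], .ref 1488 [0, 4] [1, 5, 4], .ref 1720 [0, 4, 2] [1, 3, 1, 3], .ref 1709 [0, 4, 3] [1, 2, 2, 1], .ref 1721 [0, 1, 2, 4, 3] [2, 1, 1, 1, 1], .ref 1488 [0, 4] [5, 1, 4], .ref 1742 [0, 1, 2, 4, 3] [1, 1, 1, 1, 1], .cyc [6], .contra, .ref 1743 [0, 1, 2, 4, 3] [2, 1, 1, 1, 1], .ref 1477 [0, 4] [5, 2, 3], .ref 1463 [0, 4] [5, 2, 3], .ref 1744 [0, 1, 2, 3, 4] [2, 1, 1, 1, 1], .ref 1477 [0, 4] [5, 4, 1], .ref 1463 [0, 4] [5, 4, 1]]),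
([p 1 0, g, s 0 0, p 3 1, s 0 2, g, s 2 0, g, s 0 3, g], .inner (.bot 5) [.contra, .ref 1675 [0, 1, 2, 3] [2, 1, 1, 1], .ref 1718 [0, 1, 2, 3] [1, 1, 1, 1], .ref 1745 [0, 1, 2, 3] [1, 1, 1, 1]]),
([p 1 0, g, p 3 1, s 0 2, g, p 2 0, g, s 0 3, g], .leaf [6, 4, 5, 4, 1]),
([p 1 0, g, p 4 1, s 3 2, g, s 0 3, g, m 2 0, g, s 0 4, g], .leaf [1, 5, 1, 5, 3, 0, 3]),
([p 1 0, g, p 4 1, s 3 2, g, p 0 3, g, m 2 0, g, s 0 4, g], .leaf [1, 5, 1, 5, 3, 0, 3]),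
([p 1 0, g, p 4 1, s 3 2, g, m 2 0, g, s 0 3, g, s 0 4, g], .leaf [1, 5, 1, 5, 3, 0, 3]),
([p 1 0, g, p 4 1, s 3 2, g, m 2 0, g, p 0 3, g, s 0 4, g], .leaf [1, 5, 1, 5, 3, 0, 3]),
([p 1 0, g, p 3 1, s 4 2, g, m 2 0, g, s 0 3, g, s 0 4, g], .leaf [1, 5, 1, 7, 5, 0, 1]),
([p 1 0, g, p 3 1, s 4 2, g, m 2 0, g, s 0 3, g, p 0 4, g], .leaf [1, 5, 1, 7, 5, 0, 1]),
([p 1 0, g, p 3 1, s 0 2, g, m 2 0, g, s 0 3, g], .inner (.lo 3) [.ref 1434 [0, 4, 1] [1, 5], .ref 1427 [0, 4, 1] [1, 1, 5], .ref 1435 [0, 4, 1] [1, 1, 5], .ref 1619 [0, 4, 1, 3] [1, 1, 3, 1], .ref 1748 [0, 1, 2, 4, 3] [1, 1, 1, 1, 1], .ref 1749 [0, 1, 2, 4, 3] [1, 1, 1, 1, 1], .ref 1636 [0, 1, 4, 3] [1, 1, 3, 1], .cyc [3, 5], .ref 1750 [0, 1, 2, 4, 3] [1, 1, 1, 1,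 1], .ref 1751 [0, 1, 2, 4, 3] [1, 1, 1, 1, 1], .ref 1636 [0, 1, 4, 3] [1, 3, 1, 1], .ref 1752 [0, 1, 2, 3, 4] [1, 1, 1, 1, 1], .ref 1753 [0, 1, 2, 3, 4] [1, 1, 1, 1, 1], .ref 1654 [0, 1, 3, 4] [1, 3, 1, 1]]),
([p 1 0, g, p 4 1, s 3 2, g, s 0 3, g, s 2 4, g], .leaf [1, 5, 1, 5, 3, 0, 1]),
([p 1 0, g, p 4 1, s 3 2, g, p 0 3, g, s 2 4, g], .leaf [1, 5, 1, 5, 3, 0, 1]),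
([p 1 0, g, p 3 1, s 4 2, g, s 2 3, g, s 0 4, g], .leaf [1, 3, 5, 1, 3, 0, 1]),
([p 2 1, g, s 1 0, g, p 0 2, s 4 3, g, s 3 0, g, p 0 4, g], .leaf [2, 1, 6, 1, 6, 4, 1]),
([p 2 1, g, s 1 0, g, p 4 2, s 0 3, g, s 3 4, g], .inner (.lo 5) [.ref 1427 [0, 5, 2] [1, 3, 3], .ref 1435 [0, 5, 2] [1, 3, 3], .ref 1619 [0, 5, 2, 4] [1, 3, 1, 1], .cyc [0, 2, 5, 7, 4], .ref 1427 [0, 5, 2] [3, 1, 3], .ref 1435 [0, 5, 2] [3, 1, 3], .ref 1619 [0, 5, 2, 4] [3, 1, 1, 1], .ref 1755 [0, 2, 3, 5, 4] [3, 1, 1, 1], .ref 1756 [0, 2, 3, 5, 4] [3, 1, 1, 1], .ref 1636 [0, 2, 5, 4] [3, 1, 1, 1], .ref 1757 [0, 2, 3, 4, 5] [3, 1, 1, 1], .ref 1758 [0, 1, 2, 3, 5] [1, 1, 1, 1, 1], .ref 1654 [0, 2, 4, 5] [3, 1, 1, 1]]),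
([p 2 1, g, p 4 2, s 0 3, g, s 1 0, g, s 3 4, g], .leaf [0, 4, 2, 4, 4, 0, 1]),
([p 2 1, g, p 4 2, s 0 3, g, s 3 4, g, s 1 0, g], .leaf [0, 6, 4, 2, 2, 0, 1]),
([p 1 0, g, p 3 1, s 0 2, g, s 2 3, g], .inner (.hi 0) [.ref 1759 [0, 4, 1, 2, 3] [1, 1, 1, 1], .ref 1342 [0, 4] [1, 6], .ref 1343 [0, 4] [1, 6], .cyc [0, 3, 5, 2], .ref 1760 [0, 4, 1, 2, 3] [1, 1, 1, 1], .ref 1342 [0, 4] [4, 3], .ref 1343 [0, 4] [4, 3], .ref 1761 [0, 4, 1, 2, 3] [1, 1, 1, 1], .ref 1342 [0, 4] [6, 1], .ref 1343 [0, 4] [6, 1]]),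
([p 2 0, g, s 1 0, g, s 0 1, p 4 2, g, s 0 3, s 0 4, g, s 3 0, g], .leaf [4, 1, 4, 0, 4, 5]),
([p 1 0, g, s 4 0, p 3 1, s 0 2, g, s 0 3, g, s 0 4, g, s 2 0, g], .leaf [2, 7, 9, 5, 0, 5]),
([p 1 0, g, s 4 0, p 3 1, s 0 2, g, s 0 3, g, m 0 4, g, s 2 0, g], .leaf [2, 7, 9, 5, 0, 5]),
([p 0 0, g, s 3 0, p 2 0, g, s 0 1, s 0 2, g, s 1 3, g], .leaf [8, 5, 2, 3]),
([p 1 0, g, s 4 0, p 3 1, g, s 0 2, s 0 3, g, s 2 0, g, s 0 4, g], .leaf [5, 7, 9, 4, 6, 5]),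
([p 2 0, g, p 1 0, g, s 0 1, p 4 2, s 0 3, s 0 4, g, s 3 0, g], .inner (.lo 4) [.ref 1584 [0, 5, 2, 4] [3, 1, 3], .ref 1585 [0, 5, 1, 2, 4] [1, 1, 1, 1, 3], .ref 1586 [0, 5, 2, 4] [1, 3, 1, 3], .ref 1587 [0, 5, 1, 2, 4] [1, 1, 1, 1, 3], .cyc [2, 4], .ref 1588 [0, 5, 1, 2, 4] [1, 1, 1, 1, 3], .ref 1586 [0, 5, 2, 4] [3, 1, 1, 3], .ref 1589 [0, 5, 1, 2, 4] [1, 1, 1, 1, 3], .ref 1764 [0, 2, 3, 4, 5] [3, 0, 1, 1, 1], .ref 1591 [0, 4, 5] [3, 1, 1, 3], .ref 1765 [0, 2, 3, 4, 5] [3, 0, 1, 1, 1], .ref 1766 [0, 3, 4, 5] [3, 0, 1, 1], .ref 1767 [0, 2, 3, 4, 5] [3, 0, 1, 1, 1], .ref 1591 [0, 4, 5] [3, 1, 3, 1], .ref 1705 [0, 1, 2, 3, 5] [1, 1, 0, 2, 1, 1]]),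
([p 2 0, g, s 0 1, p 4 2, s 0 3, g, s 0 4, g, s 1 0, g, s 3 0, g], .leaf [2, 7, 9, 5, 0, 5]),
([p 2 0, g, s 0 1, p 4 2, s 0 3, g, s 0 4, g, p 1 0, g, s 3 0, g], .leaf [2, 7, 9, 5, 0, 5]),
([p 2 0, g, s 0 1, p 4 2, g, s 0 3, s 0 4, g, s 3 0, g, s 1 0, g], .leaf [5, 7, 9, 4, 6, 5]),
([p 2 0, g, s 0 1, g, s 1 0, p 4 2, g, s 0 3, s 0 4, g, s 3 0, g], .leaf [4, 1, 4, 0, 4, 5]),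
([p 3 0, g, m 0 1, g, s 1 2, p 4 3, g, s 0 4, g, p 2 0, g], .leaf [3, 5, 1, 2, 4, 2, 3]),
([p 2 0, g, s 4 1, p 3 2, g, s 0 3, g, m 0 4, g, p 1 0, g], .leaf [1, 3, 1, 6, 1, 4, 1]),
([p 2 0, g, s 4 1, p 3 2, g, s 0 3, g, p 1 0, g, m 0 4, g], .leaf [1, 3, 1, 6, 1, 4, 1]),
([p 2 0, g, s 0 1, p 4 2, s 0 3, s 0 4, g, s 3 0, g, p 1 0, g], .inner (.lo 2) [.ref 1584 [0, 5, 2, 4] [1, 1, 5], .ref 1772 [0, 5, 2, 3, 4] [1, 1, 0, 1, 3], .ref 1586 [0, 5, 2, 4] [1, 1, 1, 5], .ref 1773 [0, 5, 1, 2, 4] [1, 1, 1, 3, 1], .ref 1764 [0, 2, 3, 4, 5] [1, 0, 1, 1, 3], .ref 1591 [0, 4, 5] [1, 1, 1, 5], .ref 1765 [0, 2, 3, 4, 5] [1, 0, 1, 1, 3], .ref 1766 [0, 3, 4, 5] [1, 0, 1, 3], .ref 1767 [0, 2, 3, 4, 5] [1, 0, 1, 1, 3], .ref 1591 [0, 4, 5]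 [1, 1, 3, 3], .ref 1774 [0, 1, 2, 4, 5] [1, 1, 3, 1, 1], .cyc [2, 9], .ref 1767 [0, 2, 3, 4, 5] [1, 0, 1, 3, 1], .ref 1591 [0, 4, 5] [1, 1, 5, 1], .ref 1775 [0, 1, 2, 4, 5] [1, 1, 3, 1, 1]]),
([p 1 0, g, s 0 0, p 3 1, s 0 2, s 0 3, g, s 2 0, g], .inner (.hi 2) [.ref 1763 [0, 4, 1, 2, 3] [1, 1, 0, 1, 1], .ref 1768 [0, 4, 1, 2, 3] [1, 1, 1, 1], .ref 1594 [0, 4, 1, 3] [1, 1, 1, 3], .cyc [2], .ref 1427 [0, 4, 1] [1, 0, 4], .ref 1711 [0, 4, 3] [1, 1, 3], .ref 1769 [0, 4, 1, 2, 3] [1, 0, 1, 1, 1], .ref 1770 [0, 4, 1, 2, 3] [1, 0, 1, 1, 1], .ref 1598 [0, 4, 3] [1, 1, 1, 3], .ref 1771 [0, 4, 1, 2, 3] [1, 0, 1, 1, 1], .ref 1776 [0, 4, 1, 2, 3] [1, 1, 1, 1], .ref 1598 [0, 4, 3] [1, 1, 3, 1]]),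
([p 2 0, g, s 3 0, g, s 1 0, g, s 0 1, p 4 2, g, s 0 3, s 0 4, g], .leaf [6, 1, 6, 0, 6, 3]),
([p 2 1, g, p 3 2, g, s 1 0, s 0 3, g], .leaf [1, 2, 0, 2, 1]),
([p 3 0, g, s 0 1, g, s 2 0, g, s 0 2, p 4 3, g, s 1 0, s 0 4, g], .leaf [6, 1, 6, 0, 6, 3]),
([p 2 0, g, p 0 1, g, p 3 2, g, s 1 0, s 0 3, g], .leaf [3, 4, 0, 4, 1]),
([p 2 0, g, m 0 1, g, p 3 0, g, p 4 2, g, s 1 3, s 0 4, g], .leaf [1, 6, 4, 5, 1, 4, 1]),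
([p 2 0, g, p 3 0, g, m 0 1, g, p 4 2, g, s 1 3, s 0 4, g], .leaf [1, 6, 4, 5, 1, 4, 1]),
([p 3 0, g, s 2 1, g, s 0 2, p 4 3, g, s 1 0, s 0 4, g], .leaf [7, 4, 4, 2, 4, 3]),
([p 3 0, g, s 2 0, g, s 0 1, g, s 0 2, p 4 3, g, s 1 0, s 0 4, g], .leaf [6, 3, 6, 0, 6, 1]),
([p 2 0, g, s 1 0, g, s 0 1, p 4 2, g, s 0 3, g, s 3 0, s 0 4, g], .leaf [4, 1, 4, 0, 6, 1]),
([p 1 0, g, p 3 1, g, p 0 2, g, s 2 0, s 0 3, g], .leaf [1, 2, 0, 4, 1]),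
([p 1 0, g, p 3 0, g, p 4 1, g, m 0 2, g, s 2 3, s 0 4, g], .leaf [7, 5, 6, 3, 3, 4, 1]),
([p 2 0, g, s 1 0, g, s 0 1, p 3 2, g, s 4 0, s 0 3, g, s 0 4, g], .leaf [4, 1, 4, 0, 4, 5]),
([p 1 0, g, p 2 0, g, p 3 1, g, s 4 2, s 0 3, g, p 0 4, g], .leaf [1, 4, 2, 3, 6, 2, 3]),
([p 1 0, g, p 2 1, g, s 3 0, s 0 2, g, m 0 3, g], .leaf [1, 2, 0, 2, 3])]

def D06 : List (List (List Item × Pf)) := [d06_0, d06_1, d06_2, d06_3]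

end Pool.Agent.H63.PU.C138
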