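import Pool.Agent.H63.PU.Short

/-! Certificate data, machine generated. -/

namespace Pool.Agent.H63.PU.C138

open Pool.Agent.H63.PU Pool.Agent.H63.PU.Short

set_option maxRecDepth 20000

def d07_0 : List (List Item × Pf) := [
([p 2 0, g, p 3 0, g, s 1 0, g, s 0 1, p 4 2, g, s 0 3, s 0 4, g], .inner (.lo 9) [.ref 1779 [0, 5, 2, 4] [6, 1, 1], .ref 1780 [0, 5, 1, 2, 4] [1, 3, 1, 1, 1], .ref 1781 [0, 5, 2, 4] [1, 6, 1, 1], .ref 1782 [0, 5, 2, 3, 4] [1, 1, 4, 1, 1], .cyc [2, 9], .ref 1780 [0, 5, 1, 2, 4] [3, 1, 1, 1, 1], .ref 1781 [0, 5, 2, 4] [3, 4, 1, 1], .ref 1783 [0, 5, 2, 3, 4] [1, 1, 4, 1, 1], .ref 1784 [0, 5, 1, 2, 4] [3, 1, 1, 1], .ref 1785 [0, 5, 1, 2, 4] [3, 1, 1, 1, 1], .ref 1781 [0, 5, 2, 4] [5, 2, 1, 1], .ref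 1783 [0, 5, 2, 3, 4] [1, 3, 2, 1, 1], .ref 1786 [0, 1, 2, 5, 4] [3, 1, 1, 1, 1], .ref 1787 [0, 2, 5, 4] [6, 1, 1, 1], .ref 1788 [0, 2, 5, 3, 4] [1, 4, 1, 1, 1], .ref 1789 [0, 1, 2, 4, 5] [3, 1, 1, 1, 1], .ref 1790 [0, 2, 3, 4, 5] [1, 4, 1, 1, 1], .ref 1791 [0, 2, 4, 5] [6, 1, 1, 1]]),
([p 1 0, g, m 2 0, g, p 3 1, g, s 0 2, s 0 3, g], .leaf [3, 4, 0, 4, 1]),
([p 2 0, g, s 1 0, g, s 3 0, g, s 0 1, p 4 2, g, s 0 3, s 0 4, g], .leaf [6, 3, 6, 0, 6, 1]),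
([p 2 0, g, s 1 0, g, p 3 0, g, s 0 1, p 4 2, g, s 0 3, s 0 4, g], .leaf [6, 3, 6, 0, 6, 1]),
([p 1 0, g, s 3 0, p 4 1, s 0 2, g, s 0 3, g, s 0 4, g, s 2 0, g], .leaf [2, 5, 9, 7, 0, 3]),
([p 2 0, g, s 1 0, g, s 0 1, p 4 2, g, s 3 0, g, s 0 3, s 0 4, g], .leaf [4, 1, 4, 0, 6, 1]),
([p 2 0, g, m 0 1, g, p 4 2, g, p 3 0, g, s 1 3, s 0 4, g], .leaf [7, 5, 6, 3, 3, 4, 1]),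
([p 1 0, g, p 6 1, s 3 2, g, s 0 3, g, m 0 4, g, p 5 0, g, s 4 5, s 0 6, g, s 2 0, g], .leaf [1, 3, 12, 6, 3, 6, 8, 0, 4, 1]),
([p 1 0, g, p 4 1, s 3 2, g, p 0 3, g, s 0 4, g, s 2 0, g], .leaf [1, 5, 1, 7, 5, 0, 1]),
([p 1 0, g, p 5 1, s 4 2, g, m 0 3, g, s 0 4, g, s 3 0, s 0 5, g, s 2 0, g], .leaf [7, 3, 4, 7, 3, 1, 4, 5]),
([p 1 0, g, p 5 1, s 6 2, g, m 0 3, g, p 4 0, g, s 3 4, s 0 5, g, s 0 6, g, s 2 0, g], .leaf [1, 3, 12, 8, 3, 6, 8, 0, 4, 1]),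
([p 1 0, g, p 3 1, s 4 0, g, m 0 2, g, s 2 0, s 0 3, g, p 0 4, g], .leaf [1, 5, 9, 6, 0, 2, 5]),
([p 1 0, g, p 5 1, s 6 2, g, m 0 3, g, p 4 0, g, s 3 4, s 0 5, g, s 2 0, g, s 0 6, g], .leaf [1, 3, 12, 8, 3, 6, 8, 0, 4, 1]),
([p 1 0, g, p 5 1, s 0 2, g, m 0 3, g, p 4 0, g, s 3 4, s 0 5, g, s 2 0, g], .inner (.lo 3) [.ref 1434 [0, 6, 1] [1, 10], .ref 1427 [0, 6, 1] [1, 1, 10], .ref 1435 [0, 6, 1] [1, 1, 10], .ref 1619 [0, 6, 1, 5] [1, 1, 6, 3], .ref 1799 [0, 1, 2, 6, 3, 4, 5] [1, 1, 1, 1, 1, 1, 1], .ref 1800 [0, 1, 2, 6, 5] [1, 1, 6, 1, 1], .ref 1636 [0, 1, 6, 5] [1, 1, 6, 3], .ref 1801 [0, 1, 2, 3, 6, 5] [1, 1, 1, 3, 1, 1], .ref 1800 [0, 1, 2, 6, 5] [1, 3, 4, 1, 1], .ref 1636 [0, 1, 6, 5] [1, 3, 4, 3], .ref 1800 [0,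 1, 2, 6, 5] [1, 3, 2, 1, 1], .ref 1801 [0, 1, 2, 3, 6, 5] [1, 1, 3, 1, 1, 1], .ref 1800 [0, 1, 2, 6, 5] [1, 5, 2, 1, 1], .ref 1636 [0, 1, 6, 5] [1, 5, 2, 3], .ref 1802 [0, 1, 2, 3, 4, 5, 6] [1, 1, 1, 1, 1, 1, 1], .ref 1803 [0, 1, 3, 5, 6] [1, 1, 3, 1, 3], .ref 1654 [0, 1, 5, 6] [1, 6, 1, 3], .cyc [3, 12], .ref 1804 [0, 1, 2, 3, 4, 5, 6] [1, 1, 1, 1, 1, 1, 1], .ref 1803 [0, 1, 3, 5, 6] [1, 1, 3, 3, 1], .ref 1654 [0, 1, 5, 6] [1, 6, 3, 1]]),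
([p 1 0, g, p 6 1, s 3 2, g, s 0 3, g, p 5 0, g, m 0 4, g, s 4 5, s 0 6, g, s 2 0, g], .leaf [1, 3, 12, 6, 3, 6, 8, 0, 4, 1]),
([p 1 0, g, p 5 1, s 3 2, g, p 4 0, g, s 0 3, g, s 0 4, s 0 5, g, s 2 0, g], .leaf [7, 3, 4, 7, 3, 1, 4, 5]),
([p 1 0, g, p 5 1, s 6 2, g, p 4 0, g, m 0 3, g, s 3 4, s 0 5, g, s 0 6, g, s 2 0, g], .leaf [1, 3, 12, 8, 3, 6, 8, 0, 4, 1]),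
([p 1 0, g, p 5 1, s 6 2, g, p 4 0, g, m 0 3, g, s 3 4, s 0 5, g, s 2 0, g, s 0 6, g], .leaf [1, 3, 12, 8, 3, 6, 8, 0, 4, 1]),
([p 1 0, g, p 5 1, s 0 2, g, p 4 0, g, m 0 3, g, s 3 4, s 0 5, g, s 2 0, g], .inner (.lo 3) [.ref 1434 [0, 6, 1] [1, 10], .ref 1427 [0, 6, 1] [1, 1, 10], .ref 1435 [0, 6, 1] [1, 1, 10], .ref 1619 [0, 6, 1, 5] [1, 1, 6, 3], .ref 1806 [0, 1, 2, 6, 3, 4, 5] [1, 1, 1, 1, 1, 1, 1], .ref 1800 [0, 1, 2, 6, 5] [1, 1, 6, 1, 1], .ref 1636 [0, 1, 6, 5] [1, 1, 6, 3], .ref 1800 [0, 1, 2, 6, 5] [1, 1, 4, 1, 1], .ref 1807 [0, 1, 2, 6, 4, 5] [1, 1, 1, 3, 1, 1], .ref 1800 [0, 1, 2, 6, 5] [1, 3, 4, 1, 1], .ref 1636 [0, 1, 6, 5] [1, 3, 4, 3], .ref 1807 [0, 1, 2, 6, 4, 5] [1, 1, 3, 1, 1, 1], .ref 1800 [0, 1, 2,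 6, 5] [1, 5, 2, 1, 1], .ref 1636 [0, 1, 6, 5] [1, 5, 2, 3], .ref 1808 [0, 1, 2, 3, 4, 5, 6] [1, 1, 1, 1, 1, 1, 1], .ref 1803 [0, 1, 3, 5, 6] [1, 3, 1, 1, 3], .ref 1654 [0, 1, 5, 6] [1, 6, 1, 3], .cyc [3, 12], .ref 1809 [0, 1, 2, 3, 4, 5, 6] [1, 1, 1, 1, 1, 1, 1], .ref 1803 [0, 1, 3, 5, 6] [1, 3, 1, 3, 1], .ref 1654 [0, 1, 5, 6] [1, 6, 3, 1]]),
([p 1 0, g, p 3 1, g, p 2 0, g, s 4 2, s 0 3, g, p 0 4, g], .leaf [3, 9, 2, 6, 6, 4, 1]),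
([p 2 0, g, s 1 0, g, s 0 1, p 5 2, s 0 3, g, p 4 0, g, s 0 4, s 0 5, g, s 3 0, g], .inner (.lo 10) [.ref 1779 [0, 6, 2, 5] [4, 4, 3], .ref 1780 [0, 6, 1, 2, 5] [1, 1, 1, 4, 3], .ref 1781 [0, 6, 2, 5] [1, 4, 4, 3], .ref 1798 [0, 6, 2, 4, 5] [1, 4, 2, 1, 3], .ref 1784 [0, 6, 1, 2, 5] [1, 1, 4, 3], .ref 1785 [0, 6, 1, 2, 5] [1, 1, 1, 4, 3], .ref 1781 [0, 6, 2, 5] [3, 2, 4, 3], .ref 1798 [0, 6, 2, 4, 5] [3, 2, 2, 1, 3], .ref 1786 [0, 1, 2, 6, 5] [1, 1, 2, 3, 3], .ref 1787 [0, 2, 6, 5] [4, 2, 3, 3], .ref 1805 [0, 2, 3, 6, 4, 5] [4, 1, 1, 1, 1, 1], .cyc [8, 10], .ref 1786 [0, 1, 2, 6, 5] [1, 1, 4, 1, 3], .ref 1787 [0, 2, 6, 5] [4, 4, 1, 3], .ref 1810 [0, 2, 3, 6, 4, 5] [4, 1, 1, 1, 1, 1], .ref 1789 [0, 1, 2, 5, 6] [1, 1,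 4, 1, 3], .ref 1811 [0, 2, 4, 5, 6] [4, 2, 1, 1, 3], .ref 1791 [0, 2, 5, 6] [4, 4, 1, 3], .ref 1789 [0, 1, 2, 5, 6] [1, 1, 4, 1, 1], .ref 1789 [0, 1, 2, 5, 6] [1, 1, 4, 3, 1], .ref 1811 [0, 2, 4, 5, 6] [4, 2, 1, 3, 1], .ref 1791 [0, 2, 5, 6] [4, 4, 3, 1]]),
([p 1 0, g, p 3 1, g, m 2 0, g, s 0 2, s 0 3, g], .leaf [1, 2, 0, 4, 1]),
([p 1 0, g, p 3 1, g, s 0 2, s 0 3, g, p 2 0, g], .leaf [1, 2, 0, 2, 3]),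
([p 3 0, g, s 0 1, g, s 2 0, g, s 1 2, p 5 3, g, s 0 4, s 0 5, g, m 4 0, g], .leaf [5, 7, 1, 2, 9, 2, 6, 1]),
([p 3 0, g, s 2 0, g, s 0 1, g, s 1 2, p 5 3, g, s 0 4, s 0 5, g, m 4 0, g], .leaf [5, 7, 1, 4, 9, 2, 4, 5]),
([p 2 0, g, s 1 0, g, s 5 1, p 4 2, g, s 0 3, s 0 4, g, m 3 0, g, s 0 5, g], .leaf [3, 5, 1, 2, 7, 2, 4, 5]),
([p 2 0, g, s 1 0, g, s 0 1, p 5 2, s 0 3, g, s 0 4, s 0 5, g, m 4 0, g, s 3 0, g], .inner (.lo 4) [.ref 1584 [0, 6, 2, 5] [3, 3, 5], .ref 1815 [0, 6, 1, 2, 4, 5] [1, 1, 1, 2, 1, 3], .ref 1586 [0, 6, 2, 5] [1, 3, 3, 5], .ref 1691 [0, 6, 1, 2, 5] [1, 1, 1, 3, 5], .cyc [2, 4], .ref 1816 [0, 6, 1, 2, 4, 5] [1, 1, 1, 2, 1, 3], .ref 1586 [0, 6, 2, 5] [3, 1, 3, 5], .ref 1697 [0, 6, 1, 2, 5] [1, 1,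 1, 3, 5], .ref 1796 [0, 2, 3, 6, 5] [3, 1, 2, 3, 1], .ref 1677 [0, 6, 5] [3, 2, 2, 5], .ref 1699 [0, 2, 6, 5] [3, 2, 2, 5], .ref 1764 [0, 2, 3, 5, 6] [3, 2, 1, 3, 1], .ref 1591 [0, 5, 6] [3, 3, 1, 5], .ref 1703 [0, 1, 2, 5, 6] [1, 1, 3, 1, 5], .ref 1703 [0, 1, 2, 5, 6] [1, 1, 3, 1, 3], .ref 1817 [0, 1, 2, 4, 5, 6] [1, 1, 2, 1, 1, 3], .ref 1591 [0, 5, 6] [3, 3, 3, 3], .ref 1703 [0, 1, 2, 5, 6] [1, 1, 3, 3, 3], .ref 1817 [0, 1, 2, 4, 5, 6] [1, 1, 2, 1, 1, 1], .ref 1817 [0, 1, 2, 4, 5, 6] [1, 1, 2, 1, 3, 1], .ref 1591 [0, 5, 6] [3, 3, 5, 1], .ref 1703 [0, 1, 2, 5, 6] [1, 1, 3, 5, 1]]),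
([p 2 0, g, s 1 0, g, s 5 1, p 4 2, g, s 0 3, s 0 4, g, s 0 5, g, m 3 0, g], .leaf [3, 5, 1, 2, 9, 4, 6, 3]),
([p 2 0, g, s 1 0, g, s 0 1, p 5 2, s 0 3, g, s 0 4, s 0 5, g, s 3 0, g, m 4 0, g], .inner (.lo 4) [.ref 1584 [0, 6, 2, 5] [3, 3, 5], .ref 1815 [0, 6, 1, 2, 4, 5] [1, 1, 1, 2, 3, 1], .ref 1586 [0, 6, 2, 5] [1, 3, 3, 5], .ref 1691 [0, 6, 1, 2, 5] [1, 1, 1, 3, 5], .cyc [2, 4], .ref 1816 [0, 6, 1, 2, 4, 5] [1, 1, 1, 2, 3, 1], .ref 1586 [0, 6, 2, 5] [3, 1, 3, 5], .ref 1697 [0, 6, 1, 2, 5] [1, 1, 1, 3, 5], .ref 1796 [0, 2, 3, 6, 5] [3, 1, 2, 1, 3], .ref 1677 [0, 6, 5] [3, 2, 2, 5], .ref 1699 [0, 2, 6, 5] [3, 2, 2, 5], .ref 1819 [0, 1, 2, 4, 5, 6] [1, 1, 2, 1, 3, 1], .ref 1591 [0, 5, 6] [3, 3, 1, 5], .ref 1703 [0,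 1, 2, 5, 6] [1, 1, 3, 1, 5], .ref 1819 [0, 1, 2, 4, 5, 6] [1, 1, 2, 1, 1, 1], .ref 1819 [0, 1, 2, 4, 5, 6] [1, 1, 2, 3, 1, 1], .ref 1591 [0, 5, 6] [3, 3, 3, 3], .ref 1703 [0, 1, 2, 5, 6] [1, 1, 3, 3, 3], .ref 1703 [0, 1, 2, 5, 6] [1, 1, 3, 3, 1], .ref 1817 [0, 1, 2, 4, 5, 6] [1, 1, 2, 3, 1, 1], .ref 1591 [0, 5, 6] [3, 3, 5, 1], .ref 1703 [0, 1, 2, 5, 6] [1, 1, 3, 5, 1]]),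
([p 2 0, g, s 1 0, g, s 0 1, p 4 2, s 0 3, g, s 0 0, s 0 4, g, s 3 0, g], .inner (.hi 8) [.ref 1778 [0, 1, 2, 5, 4] [1, 1, 1, 2, 3], .ref 1792 [0, 1, 2, 5, 4] [1, 1, 1, 2, 3], .ref 1793 [0, 2, 5, 4] [1, 4, 2, 3], .ref 1794 [0, 1, 2, 5, 4] [1, 1, 1, 2, 3], .ref 1795 [0, 1, 2, 5, 4] [1, 1, 1, 2, 3], .ref 1793 [0, 2, 5, 4] [3, 2, 2, 3], .ref 1796 [0, 2, 3, 5, 4] [3, 1, 0, 1, 1], .ref 1797 [0, 1, 2, 5, 4] [1, 1, 0, 1, 3], .ref 1797 [0, 1, 2, 5, 4] [1, 1, 2, 1, 3], .ref 1812 [0, 1, 2, 3, 5, 4] [1, 1, 1, 1, 1, 1], .ref 1813 [0, 2, 5, 4] [4, 2, 1, 3], .cyc [8], .contra, .ref 1763 [0, 1, 2, 5, 4] [1, 1, 2, 1, 3], .ref 1814 [0, 2, 5, 4] [4, 2, 1, 3], .ref 1818 [0, 1, 2, 3, 5, 4] [1, 1, 1, 1, 1, 1], .ref 1763 [0, 1, 2, 5, 4]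 [1, 1, 2, 3, 1], .ref 1814 [0, 2, 5, 4] [4, 2, 3, 1], .ref 1820 [0, 1, 2, 3, 5, 4] [1, 1, 1, 1, 1, 1]]),
([p 2 0, g, p 1 0, g, s 4 1, p 3 2, g, s 0 3, g, s 0 4, g], .leaf [1, 5, 3, 1, 6, 4, 1]),
([p 2 0, g, p 1 0, g, s 0 1, p 4 2, s 0 3, g, s 0 4, g, s 3 0, g], .inner (.lo 4) [.ref 1584 [0, 5, 2, 4] [3, 2, 3], .ref 1585 [0, 5, 1, 2, 4] [1, 1, 1, 2, 3], .ref 1586 [0, 5, 2, 4] [1, 3, 2, 3], .ref 1587 [0, 5, 1, 2, 4] [1, 1, 1, 2, 3], .cyc [2, 4], .ref 1588 [0, 5, 1, 2, 4] [1, 1, 1, 2, 3], .ref 1586 [0, 5, 2, 4] [3, 1, 2, 3], .ref 1589 [0, 5, 1, 2, 4] [1, 1, 1, 2, 3], .ref 1796 [0, 2, 3, 5, 4] [3, 1, 1, 1, 1], .ref 1677 [0, 5, 4] [3, 2, 1, 3], .ref 1699 [0, 2, 5, 4] [3, 2, 1, 3], .ref 1822 [0, 1, 2, 4, 5] [1, 1, 2, 1, 3],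 .ref 1591 [0, 4, 5] [3, 2, 1, 3], .ref 1765 [0, 2, 3, 4, 5] [3, 1, 1, 1, 1], .ref 1822 [0, 1, 2, 4, 5] [1, 1, 2, 1, 1], .ref 1822 [0, 1, 2, 4, 5] [1, 1, 2, 3, 1], .ref 1591 [0, 4, 5] [3, 2, 3, 1], .ref 1705 [0, 1, 2, 3, 5] [1, 1, 0, 3, 1, 1]]),
([p 2 0, g, s 0 1, p 4 2, s 0 3, g, s 1 0, g, s 0 4, g, s 3 0, g], .leaf [2, 5, 9, 7, 0, 3]),
([p 2 0, g, s 3 0, g, s 0 1, p 4 2, g, s 0 3, s 0 4, g, s 1 0, g], .leaf [7, 4, 9, 7, 4, 3]),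
([p 3 0, g, s 1 0, g, p 4 1, g, s 0 2, p 5 3, g, s 0 4, s 0 5, g, s 2 0, g], .leaf [4, 1, 6, 2, 9, 7, 4, 1]),
([p 2 0, g, p 1 0, g, p 4 1, g, p 0 2, s 0 3, g, s 0 4, g, s 3 0, g], .leaf [8, 4, 7, 4, 7, 1, 3]),
([p 0 0, g, p 3 1, g, s 1 0, g, s 0 2, p 4 0, g, s 0 3, s 0 4, g, s 2 0, g], .leaf [4, 1, 11, 5, 2, 7]),
([p 0 0, g, p 3 1, g, s 0 2, p 4 0, g, s 1 0, g, s 0 3, s 0 4, g, s 2 0, g], .leaf [7, 4, 11, 9, 6, 3]),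
([p 0 0, g, p 2 1, g, s 0 2, s 1 0, g], .leaf [2, 4, 3]),
([p 2 0, g, p 3 1, g, p 4 2, g, s 0 3, s 0 4, g, s 1 0, g], .leaf [1, 9, 6, 1, 5, 2, 3]),
([p 2 0, g, p 4 0, g, s 0 1, p 5 2, s 0 3, g, s 0 4, s 0 5, g, s 3 0, g, s 1 0, g], .inner (.hi 2) [.ref 1826 [0, 6, 1, 2, 4, 5] [1, 1, 1, 2, 3, 1], .ref 1827 [0, 6, 2, 3, 4] [1, 1, 2, 1, 2, 3], .ref 1477 [0, 6] [1, 1, 12], .ref 1828 [0, 6, 1, 4, 5] [1, 1, 1, 2, 3, 1], .ref 1451 [0, 6] [1, 1, 12], .ref 1488 [0, 6] [1, 1, 12], .ref 1586 [0, 6, 2, 5] [1, 1, 3, 5], .ref 1829 [0, 6, 1, 4, 5] [1, 1, 0, 1, 3, 1], .ref 1829 [0, 6, 1, 4, 5] [1, 1, 2, 1, 3, 1], .ref 1451 [0, 6] [1, 5, 8], .ref 1488 [0, 6] [1, 5, 8], .cyc [2, 8], .ref 1830 [0, 6, 4] [1, 5, 5], .ref 1831 [0, 6, 2,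 4, 5] [1, 2, 2, 1, 5], .ref 1451 [0, 6] [1, 8, 5], .ref 1488 [0, 6] [1, 8, 5], .ref 1831 [0, 6, 2, 4, 5] [1, 2, 2, 3, 3], .ref 1451 [0, 6] [1, 10, 3], .ref 1488 [0, 6] [1, 10, 3], .ref 1831 [0, 6, 2, 4, 5] [1, 2, 2, 5, 1], .ref 1451 [0, 6] [1, 12, 1], .ref 1488 [0, 6] [1, 12, 1]]),
([p 1 0, g, p 4 1, s 3 2, g, s 0 3, s 0 4, g, s 2 0, g], .leaf [5, 1, 2, 3, 2, 3]),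
([p 1 0, g, p 4 1, s 0 2, g, s 3 0, g, s 0 3, s 0 4, g, s 2 0, g], .leaf [7, 1, 4, 5, 4, 5]),
([p 3 0, g, s 0 1, g, s 0 2, p 4 3, g, s 1 0, s 0 4, g, s 2 0, g], .leaf [7, 4, 9, 7, 4, 3]),
([p 1 0, g, p 4 1, s 0 2, g, s 0 3, g, s 3 0, s 0 4, g, s 2 0, g], .leaf [7, 1, 4, 5, 4, 5]),
([p 2 0, g, s 0 1, p 3 2, g, s 4 0, s 0 3, g, s 0 4, g, s 1 0, g], .leaf [5, 7, 9, 4, 6, 5]),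
([p 0 0, g, s 0 1, p 2 0, g, s 3 0, s 0 2, g, s 1 3, g], .leaf [8, 5, 2, 3]),
([p 2 0, g, s 0 1, p 4 2, s 0 3, g, s 5 0, s 0 4, g, s 3 0, g, s 1 0, g, s 0 5, g], .leaf [11, 8, 3, 10, 5, 6, 1]),
([p 2 0, g, s 0 1, p 5 2, s 0 3, g, p 4 0, g, s 0 4, s 0 5, g, s 3 0, g, s 1 0, g], .inner (.lo 8) [.ref 1779 [0, 6, 2, 5] [2, 4, 5], .ref 1835 [0, 6, 1, 2, 5] [1, 1, 4, 3, 1], .ref 1781 [0, 6, 2, 5] [1, 2, 4, 5], .ref 1798 [0, 6, 2, 4, 5] [1, 2, 2, 1, 5], .ref 1836 [0, 2, 3, 6, 5] [2, 1, 3, 1, 3], .ref 1787 [0, 2, 6, 5] [2, 2, 3, 5], .ref 1805 [0, 2, 3, 6, 4, 5] [2, 1, 1, 1, 1, 3], .cyc [6, 8], .ref 1836 [0, 2, 3, 6, 5] [2, 3, 1, 1, 3], .ref 1787 [0, 2, 6, 5] [2, 4, 1, 5], .ref 1810 [0, 2, 3, 6, 4, 5] [2, 1, 1, 1, 1, 3], .ref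 1837 [0, 1, 2, 5, 6] [1, 4, 1, 3, 1], .ref 1811 [0, 2, 4, 5, 6] [2, 2, 1, 1, 5], .ref 1791 [0, 2, 5, 6] [2, 4, 1, 5], .ref 1837 [0, 1, 2, 5, 6] [1, 4, 1, 1, 1], .ref 1837 [0, 1, 2, 5, 6] [1, 4, 3, 1, 1], .ref 1811 [0, 2, 4, 5, 6] [2, 2, 1, 3, 3], .ref 1791 [0, 2, 5, 6] [2, 4, 3, 3], .ref 1838 [0, 1, 5, 6] [1, 4, 3, 1], .ref 1839 [0, 1, 2, 3, 5, 6] [1, 3, 1, 1, 1, 1], .ref 1811 [0, 2, 4, 5, 6] [2, 2, 1, 5, 1], .ref 1791 [0, 2, 5, 6] [2, 4, 5, 1]]),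
([p 2 0, g, m 0 1, g, p 4 2, g, s 1 3, s 0 4, g, m 3 0, g], .leaf [1, 4, 2, 3, 6, 2, 3]),
([p 1 0, g, p 4 1, g, m 0 2, g, s 2 3, s 0 4, g, m 3 0, g], .leaf [3, 9, 2, 6, 6, 4, 1]),
([p 1 0, g, p 3 1, g, s 4 2, s 0 3, g, p 0 4, g, m 2 0, g], .leaf [3, 9, 4, 6, 6, 4, 1]),
([p 1 0, g, p 3 1, g, s 4 2, s 0 3, g, m 2 0, g, p 0 4, g], .leaf [3, 9, 4, 6, 6, 4, 1]),
([p 2 0, g, s 0 1, p 5 2, s 0 3, g, s 0 4, s 0 5, g, m 4 0, g, s 3 0, g, s 1 0, g], .inner (.lo 6) [.ref 1779 [0, 6, 2, 5] [2, 2, 7], .ref 1835 [0, 6, 1, 2, 5] [1, 1, 2, 5, 1], .ref 1781 [0, 6, 2, 5] [1, 2, 2, 7], .ref 1841 [0, 6, 2, 4, 5] [1, 2, 2, 1, 5], .ref 1836 [0, 2, 3, 6, 5] [2, 1, 1, 3, 3], .ref 1787 [0, 2, 6, 5] [2, 2, 1, 7], .ref 1842 [0, 2, 6, 4, 5] [2,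 2, 1, 1, 5], .ref 1837 [0, 1, 2, 5, 6] [1, 2, 1, 5, 1], .ref 1843 [0, 2, 4, 5, 6] [2, 2, 1, 1, 5], .ref 1791 [0, 2, 5, 6] [2, 2, 1, 7], .cyc [6, 9], .ref 1837 [0, 1, 2, 5, 6] [1, 2, 3, 3, 1], .ref 1844 [0, 2, 4, 5, 6] [2, 2, 1, 1, 5], .ref 1791 [0, 2, 5, 6] [2, 2, 3, 5], .ref 1837 [0, 1, 2, 5, 6] [1, 2, 3, 1, 1], .ref 1837 [0, 1, 2, 5, 6] [1, 2, 5, 1, 1], .ref 1844 [0, 2, 4, 5, 6] [2, 2, 1, 3, 3], .ref 1791 [0, 2, 5, 6] [2, 2, 5, 3], .ref 1838 [0, 1, 5, 6] [1, 2, 5, 1], .ref 1839 [0, 1, 2, 3, 5, 6] [1, 1, 3, 1, 1, 1], .ref 1844 [0, 2, 4, 5, 6] [2, 2, 1, 5, 1], .ref 1791 [0, 2, 5, 6] [2, 2, 7, 1]]),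
([p 2 0, g, s 0 1, p 6 2, s 4 3, g, s 0 4, g, s 0 5, s 0 6, g, s 3 0, g, m 5 0, g, s 1 0, g], .leaf [4, 10, 14, 5, 11, 7, 3, 8, 3]),
([p 2 0, g, s 0 1, p 5 2, s 6 3, g, s 0 4, s 0 5, g, s 0 6, g, s 3 0, g, m 4 0, g, s 1 0, g], .leaf [4, 8, 14, 7, 11, 5, 3, 8, 1]),
([p 1 0, g, p 3 1, s 4 2, g, s 0 3, g, p 0 4, g, s 2 0, g], .leaf [1, 7, 3, 7, 3, 0, 3]),
([p 2 0, g, s 0 1, p 5 2, s 6 3, g, s 0 4, s 0 5, g, s 3 0, g, s 0 6, g, m 4 0, g, s 1 0, g], .leaf [4, 10, 14, 5, 9, 5, 3, 6, 7]),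
([p 1 0, g, p 3 1, s 4 2, g, s 0 3, g, s 2 0, g, p 0 4, g], .leaf [1, 7, 3, 7, 3, 0, 3]),
([p 1 0, g, p 4 1, s 5 2, g, s 0 3, s 0 4, g, s 2 0, g, m 3 0, g, s 0 5, g], .leaf [1, 3, 10, 3, 8, 0, 2, 3]),
([p 2 0, g, s 0 1, p 3 2, s 4 0, g, s 0 3, g, s 1 4, g], .leaf [2, 7, 7, 3, 0, 3]),
([p 2 0, g, s 0 1, p 5 2, s 0 3, g, s 0 4, s 0 5, g, s 3 0, g, m 4 0, g, s 1 0, g], .inner (.lo 4) [.ref 1434 [0, 6, 2] [2, 10], .ref 1427 [0, 6, 2] [1, 2, 10], .ref 1435 [0, 6, 2] [1, 2, 10], .ref 1619 [0, 6, 2, 5] [1, 2, 2, 7], .ref 1846 [0, 1, 2, 3, 6, 4, 5] [1, 1, 1, 1, 1, 1, 1], .ref 1800 [0, 2, 3, 6, 5] [2, 1, 2, 1, 5], .ref 1636 [0, 2, 6, 5] [2, 1, 2, 7], .ref 1847 [0, 1, 2, 3, 4, 5, 6] [1, 1, 1, 1, 1, 1, 1], .ref 1848 [0, 2, 3,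 5, 6] [2, 2, 1, 1, 5], .ref 1654 [0, 2, 5, 6] [2, 2, 1, 7], .cyc [4, 9], .ref 1849 [0, 1, 2, 3, 4, 5, 6] [1, 1, 1, 1, 1, 1, 1], .ref 1850 [0, 2, 3, 5, 6] [2, 2, 1, 1, 5], .ref 1654 [0, 2, 5, 6] [2, 2, 3, 5], .ref 1654 [0, 2, 5, 6] [2, 2, 3, 3], .ref 1851 [0, 2, 3, 4, 5, 6] [2, 1, 1, 1, 1, 3], .ref 1850 [0, 2, 3, 5, 6] [2, 2, 1, 3, 3], .ref 1654 [0, 2, 5, 6] [2, 2, 5, 3], .ref 1852 [0, 1, 2, 5, 6] [1, 2, 5, 1], .ref 1851 [0, 2, 3, 4, 5, 6] [2, 1, 1, 1, 3, 1], .ref 1850 [0, 2, 3, 5, 6] [2, 2, 1, 5, 1], .ref 1654 [0, 2, 5, 6] [2, 2, 7, 1]]),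
([p 2 0, g, s 0 1, p 5 2, s 0 3, g, s 0 4, s 0 5, g, s 3 0, g, s 1 0, g, s 4 0, g], .leaf [11, 8, 3, 10, 5, 6, 1]),
([p 2 0, g, s 0 1, p 5 2, s 0 3, g, s 0 4, s 0 5, g, s 3 0, g, s 1 0, g, m 4 0, g], .inner (.lo 6) [.ref 1779 [0, 6, 2, 5] [2, 2, 7], .ref 1835 [0, 6, 1, 2, 5] [1, 1, 2, 3, 3], .ref 1781 [0, 6, 2, 5] [1, 2, 2, 7], .ref 1841 [0, 6, 2, 4, 5] [1, 2, 2, 5, 1], .ref 1836 [0, 2, 3, 6, 5] [2, 1, 1, 1, 5], .ref 1787 [0, 2, 6, 5] [2, 2, 1, 7], .ref 1842 [0, 2, 6, 4, 5] [2, 2, 1, 5, 1], .ref 1837 [0, 1, 2, 5, 6] [1, 2, 1, 3, 3], .ref 1843 [0, 2, 4, 5, 6] [2, 2, 1, 5, 1], .ref 1791 [0, 2, 5, 6] [2, 2, 1, 7], .ref 1837 [0, 1, 2, 5, 6] [1, 2, 1, 1, 3], .ref 1837 [0, 1, 2, 5, 6] [1, 2, 3, 1, 3], .ref 1843 [0, 2, 4,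 5, 6] [2, 2, 3, 3, 1], .ref 1791 [0, 2, 5, 6] [2, 2, 3, 5], .ref 1838 [0, 1, 5, 6] [1, 2, 3, 3], .ref 1839 [0, 1, 2, 3, 5, 6] [1, 1, 1, 1, 1, 3], .ref 1843 [0, 2, 4, 5, 6] [2, 2, 5, 1, 1], .ref 1791 [0, 2, 5, 6] [2, 2, 5, 3], .cyc [6, 13], .ref 1839 [0, 1, 2, 3, 5, 6] [1, 1, 1, 1, 3, 1], .ref 1844 [0, 2, 4, 5, 6] [2, 2, 5, 1, 1], .ref 1791 [0, 2, 5, 6] [2, 2, 7, 1]])]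

def d07_1 : List (List Item × Pf) := [
([p 2 0, g, s 0 1, p 4 2, s 0 3, g, s 0 0, s 0 4, g, s 3 0, g, s 1 0, g], .inner (.hi 6) [.ref 1825 [0, 1, 2, 5, 4] [1, 1, 2, 3, 1], .ref 1832 [0, 1, 2, 3, 5, 4] [1, 1, 1, 1, 1, 1], .ref 1793 [0, 2, 5, 4] [1, 2, 2, 5], .ref 1796 [0, 2, 3, 5, 4] [1, 1, 0, 1, 3], .ref 1833 [0, 2, 3, 5, 4] [2, 1, 1, 3], .ref 1834 [0, 2, 3, 5, 4] [2, 1, 1, 1, 3], .ref 1840 [0, 1, 2, 3, 5, 4] [1, 1, 1, 1, 1, 1], .ref 1813 [0, 2, 5, 4] [2, 2, 1, 5], .cyc [6], .contra, .ref 1771 [0, 1, 2, 5, 4] [1, 2, 1, 3, 1], .ref 1814 [0, 2, 5, 4] [2, 2, 1, 5], .ref 1845 [0, 1, 2, 3, 5, 4] [1, 1, 1, 1, 1, 1], .ref 1771 [0, 1, 2, 5, 4] [1, 2, 3, 1, 1], .ref 1814 [0, 2, 5, 4] [2, 2, 3, 3], .ref 1853 [0, 1, 2, 3, 5,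 4] [1, 1, 1, 1, 1, 1], .ref 1854 [0, 1, 2, 3, 5, 4] [1, 1, 1, 1, 1, 1], .ref 1814 [0, 2, 5, 4] [2, 2, 5, 1], .ref 1855 [0, 1, 2, 3, 5, 4] [1, 1, 1, 1, 1, 1]]),
([p 3 0, g, s 0 1, g, s 1 2, p 4 3, g, s 0 4, g, p 2 0, g], .leaf [3, 5, 1, 2, 4, 2, 3]),
([p 1 0, g, s 4 0, p 3 1, s 0 2, g, s 0 3, g, s 2 4, g], .leaf [2, 7, 7, 3, 0, 3]),
([p 2 0, g, s 4 1, p 3 2, g, s 0 3, g, s 0 4, g, p 1 0, g], .leaf [1, 3, 1, 6, 1, 4, 1]),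
([p 2 0, g, s 4 1, p 3 2, g, s 0 3, g, p 1 0, g, s 0 4, g], .leaf [1, 3, 1, 6, 1, 4, 1]),
([p 2 0, g, s 0 1, p 4 2, s 0 3, g, s 0 4, g, s 3 0, g, p 1 0, g], .inner (.lo 2) [.ref 1584 [0, 5, 2, 4] [1, 2, 5], .ref 1857 [0, 5, 1, 2, 4] [1, 1, 2, 3, 1], .ref 1586 [0, 5, 2, 4] [1, 1, 2, 5], .ref 1773 [0, 5, 1, 2, 4] [1, 1, 2, 3, 1], .ref 1796 [0, 2, 3, 5, 4] [1, 1, 1, 1, 3], .ref 1677 [0, 5, 4] [1, 2, 1, 5], .ref 1699 [0, 2, 5, 4] [1, 2, 1, 5], .ref 1764 [0, 2, 3, 4, 5] [1, 1, 1, 1, 3], .ref 1591 [0, 4, 5] [1, 2, 1, 5], .ref 1765 [0, 2, 3, 4, 5] [1, 1, 1, 1, 3], .ref 1858 [0, 2, 3, 4, 5] [1, 1, 1, 3], .ref 1859 [0, 1, 2, 4, 5] [1, 2, 3, 1, 1], .ref 1591 [0, 4, 5] [1, 2, 3, 3], .ref 1774 [0, 1, 2, 4, 5] [1, 2, 3, 1, 1], .cyc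 [2, 10], .ref 1860 [0, 1, 2, 4, 5] [1, 2, 3, 1, 1], .ref 1591 [0, 4, 5] [1, 2, 5, 1], .ref 1775 [0, 1, 2, 4, 5] [1, 2, 3, 1, 1]]),
([p 1 0, g, s 0 0, p 3 1, s 0 2, g, s 0 0, s 0 3, g, s 2 0, g], .inner (.hi 2) [.ref 1821 [0, 4, 1, 2, 3] [1, 1, 1, 1, 1], .ref 1823 [0, 4, 1, 2, 3] [1, 1, 2, 1, 1], .ref 1594 [0, 4, 1, 3] [1, 1, 3, 3], .cyc [2], .ref 1427 [0, 4, 1] [1, 0, 6], .ref 1824 [0, 4, 1, 2, 3] [1, 1, 2, 1, 1], .ref 1708 [0, 4, 1, 3] [1, 2, 2, 3], .ref 1709 [0, 4, 3] [1, 2, 2, 3], .ref 1824 [0, 4, 1, 2, 3] [1, 1, 0, 1, 1], .ref 1711 [0, 4, 3] [1, 3, 3], .ref 1769 [0, 4, 1, 2, 3] [1, 2, 1, 1, 1], .ref 1770 [0, 4, 1, 2, 3] [1, 2, 1, 1, 1], .ref 1598 [0, 4, 3] [1, 3, 1, 3], .ref 1856 [0, 4, 1, 2, 3] [1, 1, 1, 1, 1],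 .ref 1861 [0, 4, 1, 2, 3] [1, 2, 1, 1, 1], .ref 1598 [0, 4, 3] [1, 3, 3, 1]]),
([p 1 0, g, s 2 0, g, p 3 1, g, p 0 2, s 0 3, g], .leaf [3, 4, 0, 4, 1]),
([p 1 0, g, p 3 0, g, p 4 1, s 0 2, g, p 0 3, s 0 4, g, s 2 0, g], .leaf [1, 5, 1, 6, 2, 4, 5]),
([p 1 0, g, p 3 1, g, s 2 0, g, p 0 2, s 0 3, g], .leaf [1, 2, 0, 4, 1]),
([p 1 0, g, p 4 1, s 0 2, g, p 3 0, g, p 0 3, s 0 4, g, s 2 0, g], .leaf [1, 5, 9, 6, 0, 2, 5]),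
([p 1 0, g, p 3 1, g, p 0 2, s 0 3, g, s 2 0, g], .leaf [1, 2, 0, 2, 3]),
([p 1 0, g, p 3 1, s 0 2, g, p 0 0, s 0 3, g, s 2 0, g], .inner (.hi 5) [.ref 1863 [0, 1, 4, 3] [1, 1, 2, 3], .ref 1864 [0, 1, 2, 4, 3] [1, 1, 1, 1, 1], .ref 1477 [0, 4] [1, 4, 4], .ref 1800 [0, 1, 2, 4, 3] [1, 1, 0, 1, 1], .ref 1865 [0, 1, 4, 3] [1, 2, 1, 3], .ref 1866 [0, 1, 2, 4, 3] [1, 1, 1, 1, 1], .ref 1477 [0, 4] [4, 1, 4], .cyc [5], .contra, .ref 1867 [0, 1, 4, 3] [1, 2, 1, 3], .ref 1451 [0, 4] [4, 2, 3], .ref 1488 [0, 4] [4, 2, 3], .ref 1867 [0, 1, 4, 3] [1, 2, 3, 1], .ref 1451 [0, 4] [4, 4, 1], .ref 1488 [0, 4] [4, 4, 1]]),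
([p 2 0, g, s 0 1, g, p 3 2, g, m 1 0, s 0 3, g], .leaf [3, 4, 0, 4, 1]),
([p 2 0, g, m 0 1, g, p 4 2, s 0 3, g, m 1 0, s 0 4, g, s 3 0, g], .leaf [1, 5, 1, 6, 2, 4, 5]),
([p 1 0, g, p 3 1, g, s 0 2, g, m 2 0, s 0 3, g], .leaf [1, 2, 0, 4, 1]),
([p 1 0, g, p 4 1, s 0 2, g, m 0 3, g, m 3 0, s 0 4, g, s 2 0, g], .leaf [1, 5, 9, 6, 0, 2, 5]),
([p 1 0, g, p 2 1, g, m 3 0, s 0 2, g, s 0 3, g], .leaf [1, 2, 0, 2, 3]),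
([p 1 0, g, p 3 1, s 0 2, g, m 0 0, s 0 3, g, s 2 0, g], .inner (.lo 5) [.ref 1343 [0, 4] [4, 4], .ref 1869 [0, 4, 1, 3] [1, 1, 2, 3], .ref 1488 [0, 4] [1, 4, 4], .ref 1870 [0, 4, 1, 2, 3] [1, 1, 1, 1, 1], .ref 1871 [0, 1, 4, 3] [1, 2, 1, 3], .ref 1488 [0, 4] [4, 1, 4], .ref 1872 [0, 1, 2, 4, 3] [1, 1, 1, 1, 1], .cyc [5], .ref 1873 [0, 1, 3, 4] [1, 2, 1, 3], .ref 1477 [0, 4] [4, 2, 3], .ref 1463 [0, 4] [4, 2, 3], .ref 1873 [0, 1, 3, 4] [1, 2, 1, 1], .ref 1873 [0, 1, 3, 4] [1, 2, 3, 1], .ref 1477 [0, 4] [4, 4, 1], .ref 1463 [0, 4] [4, 4, 1]]),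
([p 1 0, g, s 0 0, p 3 1, s 0 2, g, s 0 3, g, s 2 0, g], .inner (.bot 5) [.ref 1777 [0, 1, 2, 3] [1, 1, 1], .ref 1862 [0, 1, 2, 3] [1, 1, 1, 1], .ref 1868 [0, 1, 2, 3] [2, 1, 1, 1], .ref 1874 [0, 1, 2, 3] [2, 1, 1, 1]]),
([p 1 0, g, p 3 1, s 0 2, g, s 0 3, g, p 2 0, g], .leaf [4, 2, 3, 2, 3]),
([p 1 0, g, p 4 1, s 3 2, g, s 0 3, g, s 0 4, g, m 2 0, g], .leaf [1, 5, 1, 7, 5, 0, 1]),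
([p 1 0, g, p 4 1, s 3 2, g, p 0 3, g, s 0 4, g, m 2 0, g], .leaf [1, 5, 1, 7, 5, 0, 1]),
([p 1 0, g, p 3 1, s 4 2, g, s 0 3, g, s 0 4, g, m 2 0, g], .leaf [1, 7, 3, 7, 3, 0, 3]),
([p 1 0, g, p 3 1, s 4 2, g, s 0 3, g, p 0 4, g, m 2 0, g], .leaf [1, 7, 3, 7, 3, 0, 3]),
([p 1 0, g, p 3 1, s 4 2, g, s 0 3, g, m 2 0, g, s 0 4, g], .leaf [1, 7, 3, 7, 3, 0, 3]),
([p 1 0, g, p 3 1, s 4 2, g, s 0 3, g, m 2 0, g, p 0 4, g], .leaf [1, 7, 3, 7, 3, 0, 3]),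
([p 1 0, g, p 3 1, s 0 2, g, s 0 3, g, m 2 0, g], .inner (.lo 3) [.ref 1434 [0, 4, 1] [1, 5], .ref 1427 [0, 4, 1] [1, 1, 5], .ref 1435 [0, 4, 1] [1, 1, 5], .ref 1619 [0, 4, 1, 3] [1, 1, 1, 3], .ref 1877 [0, 1, 2, 4, 3] [1, 1, 1, 1, 1], .ref 1878 [0, 1, 2, 4, 3] [1, 1, 1, 1, 1], .ref 1636 [0, 1, 4, 3] [1, 1, 1, 3], .ref 1879 [0, 1, 2, 3, 4] [1, 1, 1, 1, 1], .ref 1880 [0, 1, 2, 3, 4] [1, 1, 1, 1, 1], .ref 1654 [0, 1, 3, 4] [1, 1, 1, 3], .cyc [3, 7], .ref 1881 [0, 1, 2, 3, 4] [1, 1, 1, 1, 1], .ref 1882 [0, 1, 2, 3, 4] [1, 1, 1, 1, 1], .ref 1654 [0, 1, 3, 4] [1, 1, 3, 1]]),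
([p 1 0, g, s 0 0, p 2 1, s 0 0, g, s 0 2, g], .inner (.hi 4) [.ref 1428 [0, 1, 3] [1, 2, 3], .ref 1600 [0, 1, 3, 2] [1, 2, 1, 1], .ref 1430 [0, 1, 3] [1, 2, 3], .ref 1428 [0, 1, 3] [1, 0, 3], .cyc [4], .ref 1746 [0, 1, 3, 2] [1, 1, 1, 1], .ref 1747 [0, 1, 3, 2] [2, 1, 1, 1], .ref 1754 [0, 1, 3, 2] [2, 1, 1, 1], .ref 1762 [0, 1, 3, 2] [2, 1, 1], .ref 1875 [0, 1, 3, 2] [1, 1, 1, 1], .ref 1876 [0, 1, 3, 2] [2, 1, 1, 1], .ref 1883 [0, 1, 3, 2] [2, 1, 1, 1]]),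
([p 1 0, g, p 3 1, p 2 0, g, s 0 2, g, s 0 3, g], .leaf [6, 4, 5, 4, 1]),
([p 2 0, g, s 1 0, g, s 0 1, p 4 2, p 3 0, g, p 0 3, g, s 0 4, g], .leaf [4, 1, 5, 6, 5, 0, 5]),
([p 1 0, g, p 3 1, p 2 0, g, m 0 2, g, s 0 3, g], .leaf [6, 4, 5, 4, 1]),
([p 1 0, g, p 2 1, p 3 0, g, s 0 2, g, s 0 3, g], .leaf [4, 2, 3, 2, 3]),
([p 2 0, g, s 1 0, g, s 0 1, p 3 2, g, p 4 0, g, s 0 3, g, p 0 4, g], .leaf [4, 1, 4, 0, 5, 7, 5]),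
([p 1 0, g, p 2 1, p 3 0, g, s 0 2, g, m 0 3, g], .leaf [4, 2, 3, 2, 3]),
([p 2 0, g, s 1 0, g, s 0 1, p 3 2, p 0 0, g, s 0 3, g], .inner (.lo 6) [.ref 1342 [0, 4] [5, 3], .ref 1450 [0, 4, 2] [1, 4, 3], .ref 1451 [0, 4] [1, 5, 3], .ref 1452 [0, 4, 2] [1, 4, 0, 3], .ref 1450 [0, 4, 2] [1, 2, 3], .ref 1450 [0, 4, 2] [3, 2, 3], .ref 1451 [0, 4] [3, 3, 3], .ref 1452 [0, 4, 2] [3, 2, 0, 3], .cyc [6], .ref 1885 [0, 2, 4, 3] [4, 1, 1, 1], .ref 1886 [0, 1, 2, 4, 3] [1, 1, 1, 1, 1], .ref 1887 [0, 2, 4, 3] [4, 1, 1, 1], .ref 1888 [0, 2, 3, 4] [4, 1, 1, 1], .ref 1889 [0, 1, 2, 3, 4] [1, 1, 0, 1, 1, 1], .ref 1890 [0, 2, 3, 4] [4, 1, 1, 1]]),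
([p 2 0, g, p 1 0, g, s 3 1, p 4 2, g, s 0 3, g, s 0 4, g], .leaf [1, 5, 3, 1, 4, 2, 3]),
([p 2 0, g, p 1 0, g, s 4 1, p 3 2, g, s 0 3, g, m 0 4, g], .leaf [3, 5, 1, 6, 3, 4, 1]),
([p 2 0, g, p 1 0, g, s 0 1, p 3 2, g, s 0 3, g], .inner (.lo 4) [.ref 1584 [0, 4, 2, 3] [3, 1, 1], .ref 1585 [0, 4, 1, 2, 3] [1, 1, 1, 1, 1], .ref 1586 [0, 4, 2, 3] [1, 3, 1, 1], .ref 1587 [0, 4, 1, 2, 3] [1, 1, 1, 1, 1], .cyc [2, 4], .ref 1588 [0, 4, 1, 2, 3] [1, 1, 1, 1, 1], .ref 1586 [0, 4, 2, 3] [3, 1, 1, 1], .ref 1589 [0, 4, 1, 2, 3] [1, 1, 1, 1, 1], .ref 1892 [0, 1, 2, 4, 3] [1, 1, 1, 1, 1], .ref 1677 [0, 4, 3] [3, 1, 1, 1], .ref 1699 [0, 2, 4, 3] [3, 1, 1, 1], .ref 1822 [0, 1, 2, 3, 4] [1, 1, 1, 1, 1], .ref 1591 [0, 3, 4] [3, 1, 1,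 1], .ref 1893 [0, 1, 2, 3, 4] [1, 1, 1, 1, 1]]),
([p 2 0, g, s 0 1, g, p 0 2, p 3 0, g, p 1 3, g], .leaf [2, 6, 6, 4, 1]),
([p 2 0, g, s 0 1, g, p 0 2, p 4 0, g, s 0 3, g, p 3 4, g, s 1 0, g], .leaf [8, 6, 9, 4, 2, 4, 1]),
([p 2 0, g, s 0 1, g, p 0 2, p 4 0, g, m 0 3, g, p 3 4, g, s 1 0, g], .leaf [8, 6, 9, 4, 2, 4, 1]),
([p 2 0, g, s 0 1, p 5 2, p 3 0, g, p 4 3, g, s 0 4, g, s 1 0, g, s 0 5, g], .leaf [10, 7, 10, 7, 1, 5, 6, 1]),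
([p 1 0, g, p 4 1, p 2 0, g, p 3 2, g, p 0 3, g, s 0 4, g], .leaf [1, 5, 6, 5, 5, 3, 0, 3]),
([p 2 0, g, s 0 1, p 4 2, g, p 3 0, g, m 0 3, g, s 1 0, g, s 0 4, g], .leaf [9, 6, 9, 7, 1, 5, 5]),
([p 2 0, g, s 0 1, g, p 0 2, p 3 0, g, p 4 3, g, s 1 4, g], .leaf [2, 8, 8, 6, 6, 4, 1]),
([p 2 0, g, s 0 1, g, p 0 2, p 3 0, g, p 4 3, g, s 1 0, g, s 0 4, g], .leaf [2, 8, 10, 8, 8, 6, 1]),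
([p 2 0, g, s 0 1, g, p 0 2, p 3 0, g, p 4 3, g, s 1 0, g, p 0 4, g], .leaf [2, 8, 10, 8, 8, 6, 1]),
([p 2 0, g, s 0 1, p 4 2, g, p 3 0, g, s 1 0, g, m 0 3, g, s 0 4, g], .leaf [2, 6, 1, 6, 4, 0, 5]),
([p 2 0, g, s 0 1, p 3 2, g, p 4 0, g, s 1 0, g, s 0 3, g, m 0 4, g], .leaf [2, 6, 1, 8, 6, 0, 3]),
([p 2 0, g, s 0 1, p 4 2, p 3 0, g, p 0 3, g, s 1 0, g, s 0 4, g], .inner (.lo 6) [.ref 1342 [0, 5] [5, 5], .ref 1895 [0, 5, 2, 3] [1, 2, 1, 5], .ref 1451 [0, 5] [1, 5, 5], .ref 1452 [0, 5, 2] [1, 2, 2, 5], .cyc [4, 6], .ref 1896 [0, 1, 2, 5, 3] [1, 0, 1, 1, 1, 3], .ref 1451 [0, 5] [5, 1, 5], .ref 1897 [0, 1, 2, 5, 3] [1, 0, 1, 1, 1, 3], .ref 1898 [0, 1, 2, 3, 5, 4] [1, 1, 1, 1, 1, 1], .ref 1899 [0, 2, 3, 5, 4] [2, 1, 1,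 3, 1], .ref 1900 [0, 1, 2, 5, 4] [1, 2, 1, 1, 1, 1], .ref 1901 [0, 1, 2, 3, 5] [1, 0, 1, 1, 3], .ref 1902 [0, 1, 2, 3, 5] [1, 0, 1, 1, 1, 3], .ref 1903 [0, 1, 2, 3, 5] [1, 0, 1, 1, 1, 3], .ref 1904 [0, 1, 2, 5, 4] [1, 2, 1, 1, 1, 1], .ref 1902 [0, 1, 2, 3, 5] [1, 0, 1, 1, 3, 1], .ref 1903 [0, 1, 2, 3, 5] [1, 0, 1, 1, 3, 1], .ref 1905 [0, 1, 2, 4, 5] [1, 2, 1, 1, 1, 1]]),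
([p 2 0, g, s 0 1, p 3 2, p 0 0, g, s 1 0, g, s 0 3, g], .inner (.lo 4) [.ref 1342 [0, 4] [3, 5], .ref 1450 [0, 4, 2] [1, 2, 5], .ref 1451 [0, 4] [1, 3, 5], .ref 1452 [0, 4, 2] [1, 2, 0, 5], .cyc [4], .ref 1885 [0, 2, 4, 3] [2, 1, 3, 1], .ref 1906 [0, 1, 2, 4, 3] [1, 1, 1, 1, 1], .ref 1900 [0, 1, 2, 4, 3] [1, 0, 1, 1, 1, 1], .ref 1456 [0, 1, 2, 4] [1, 0, 1, 3], .ref 1885 [0, 2, 4, 3] [2, 3, 1, 1], .ref 1458 [0, 1, 2, 4] [1, 0, 1, 1, 3], .ref 1904 [0, 1, 2, 4, 3] [1, 0, 1, 1, 1, 1], .ref 1888 [0, 2, 3, 4] [2, 3, 1, 1], .ref 1458 [0, 1, 2, 4] [1, 0, 1, 3, 1], .ref 1905 [0, 1, 2, 3, 4] [1, 0, 1, 1, 1, 1]]),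
([p 2 0, g, s 0 1, g, s 1 0, p 4 2, p 3 0, g, p 0 3, g, s 0 4, g], .leaf [4, 1, 5, 6, 5, 0, 5]),
([p 3 0, g, m 0 1, g, s 1 2, p 4 3, g, s 0 4, g, s 2 0, g], .leaf [1, 5, 3, 1, 6, 4, 1]),
([p 1 0, g, s 2 0, g, p 0 1, p 3 0, g, s 0 2, g, p 0 3, g], .leaf [2, 6, 8, 6, 1]),
([p 1 0, g, s 3 0, g, p 0 1, p 2 0, g, p 4 2, g, s 0 3, g, s 0 4, g], .leaf [2, 8, 10, 8, 8, 6, 1]),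
([p 1 0, g, s 4 0, p 5 1, p 2 0, g, p 3 2, g, s 0 3, g, s 0 4, g, s 0 5, g], .leaf [10, 7, 10, 7, 1, 5, 6, 1]),
([p 2 0, g, s 6 1, p 5 2, p 3 0, g, p 4 3, g, s 0 4, g, s 0 5, g, s 0 6, g, s 1 0, g], .leaf [9, 7, 12, 8, 1, 6, 8, 5, 4, 1]),
([p 2 0, g, s 4 1, p 3 2, g, s 0 3, g, m 0 4, g, s 1 0, g], .leaf [1, 3, 1, 6, 1, 4, 1]),
([p 2 0, g, s 6 1, p 5 2, p 3 0, g, p 4 3, g, s 0 4, g, s 0 5, g, s 1 0, g, s 0 6, g], .leaf [9, 7, 12, 8, 1, 6, 8, 5, 4, 1]),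
([p 2 0, g, s 4 1, p 3 2, g, s 0 3, g, s 1 0, g, m 0 4, g], .leaf [1, 3, 1, 6, 1, 4, 1]),
([p 2 0, g, s 0 1, p 5 2, p 3 0, g, p 4 3, g, s 0 4, g, s 0 5, g, s 1 0, g], .inner (.lo 2) [.ref 1584 [0, 6, 2, 5] [1, 6, 3], .ref 1908 [0, 6, 2, 3, 5] [1, 1, 1, 3, 3], .ref 1586 [0, 6, 2, 5] [1, 1, 6, 3], .ref 1909 [0, 6, 1, 2, 5] [1, 1, 6, 1, 1], .ref 1677 [0, 6, 5] [1, 0, 5, 3], .ref 1910 [0, 2, 6, 3] [1, 0, 1, 1, 7], .ref 1677 [0, 6, 5] [1, 2, 5, 3], .ref 1699 [0, 2, 6, 5] [1, 2, 5, 3], .ref 1911 [0, 2, 3, 6, 4] [1, 0, 1, 1, 1, 5], .ref 1677 [0, 6, 5] [1, 4, 3, 3], .ref 1699 [0, 2, 6, 5] [1, 4, 3, 3], .ref 1912 [0, 2, 3, 4, 6, 5] [1, 1, 1, 1, 1, 3], .ref 1677 [0, 6, 5] [1, 6, 1, 3], .ref 1699 [0, 2, 6, 5] [1, 6, 1, 3], .ref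 1913 [0, 1, 2, 3, 4, 5, 6] [1, 1, 1, 1, 1, 1, 1], .ref 1591 [0, 5, 6] [1, 6, 1, 3], .ref 1914 [0, 1, 2, 5, 6] [1, 6, 1, 1, 1], .cyc [2, 12], .ref 1915 [0, 1, 2, 3, 4, 5, 6] [1, 1, 1, 1, 1, 1, 1], .ref 1591 [0, 5, 6] [1, 6, 3, 1], .ref 1916 [0, 1, 2, 5, 6] [1, 6, 1, 1, 1]]),
([p 1 0, g, p 4 1, g, p 2 0, g, p 3 2, g, m 0 3, g, s 0 4, g], .leaf [5, 6, 4, 8, 6, 6, 4, 1]),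
([p 2 0, g, s 0 1, p 4 2, p 3 0, g, p 5 3, g, s 0 4, g, s 0 5, g, s 1 0, g], .leaf [7, 1, 8, 10, 5, 7, 6, 1])]

def d07_2 : List (List Item × Pf) := [
([p 0 0, g, s 0 1, p 3 0, g, p 2 0, g, p 4 2, g, s 0 3, g, p 0 4, g, s 1 0, g], .leaf [13, 10, 5, 7, 5, 5, 3]),
([p 2 0, g, s 0 1, p 3 2, g, p 4 0, g, s 0 3, g, m 0 4, g, s 1 0, g], .leaf [6, 1, 7, 9, 4, 6, 5]),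
([p 2 0, g, s 0 1, p 3 2, g, p 4 0, g, s 0 3, g, s 1 0, g, m 0 4, g], .leaf [2, 8, 3, 8, 4, 0, 3]),
([p 2 0, g, s 0 1, p 4 2, p 3 0, g, p 0 3, g, s 0 4, g, s 1 0, g], .inner (.lo 6) [.ref 1342 [0, 5] [5, 5], .ref 1895 [0, 5, 2, 3] [1, 2, 1, 5], .ref 1451 [0, 5] [1, 5, 5], .ref 1452 [0, 5, 2] [1, 2, 2, 5], .cyc [4, 6], .ref 1896 [0, 1, 2, 5, 3] [1, 0, 1, 1, 3, 1], .ref 1451 [0, 5] [5, 1, 5], .ref 1897 [0, 1, 2, 5, 3] [1, 0, 1, 1, 3, 1], .ref 1917 [0, 1, 2, 3, 5, 4] [1, 1, 1, 1, 1, 1], .ref 1899 [0, 2, 3, 5, 4] [2, 1, 1, 1, 3], .ref 1918 [0, 2, 3, 5, 4] [2, 0, 1, 1, 1, 3], .ref 1919 [0, 1, 2, 3, 4, 5] [1, 1, 1, 1, 1, 1], .ref 1920 [0, 1, 3, 4, 5] [1, 0, 1, 1, 1, 1, 1], .ref 1921 [0, 1, 2, 4, 5] [1, 2, 1, 1, 1, 1], .ref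 1901 [0, 1, 2, 3, 5] [1, 0, 1, 3, 1], .ref 1902 [0, 1, 2, 3, 5] [1, 0, 1, 3, 1, 1], .ref 1903 [0, 1, 2, 3, 5] [1, 0, 1, 3, 1, 1], .ref 1922 [0, 1, 2, 4, 5] [1, 2, 1, 1, 1, 1]]),
([p 2 0, g, s 0 1, g, p 3 2, p 4 0, g, s 0 3, g, p 0 4, g, s 1 0, g], .leaf [2, 10, 6, 2, 4, 2, 3]),
([p 2 0, g, s 0 1, p 3 2, p 0 0, g, s 0 3, g, s 1 0, g], .inner (.lo 4) [.ref 1342 [0, 4] [3, 5], .ref 1450 [0, 4, 2] [1, 2, 5], .ref 1451 [0, 4] [1, 3, 5], .ref 1452 [0, 4, 2] [1, 2, 0, 5], .cyc [4], .ref 1885 [0, 2, 4, 3] [2, 1, 1, 3], .ref 1923 [0, 1, 2, 4, 3] [1, 1, 1, 1, 1], .ref 1455 [0, 1, 2, 4] [1, 0, 1, 3, 1], .ref 1888 [0, 2, 3, 4] [2, 1, 1, 3], .ref 1924 [0, 1, 2, 3, 4] [1, 0, 1, 1, 1, 1], .ref 1921 [0, 1, 2, 3, 4] [1, 0, 1, 1, 1,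 1], .ref 1456 [0, 1, 2, 4] [1, 0, 3, 1], .ref 1888 [0, 2, 3, 4] [2, 1, 3, 1], .ref 1458 [0, 1, 2, 4] [1, 0, 3, 1, 1], .ref 1922 [0, 1, 2, 3, 4] [1, 0, 1, 1, 1, 1]]),
([p 2 0, g, s 3 1, p 4 2, g, s 0 3, g, s 0 4, g, p 1 0, g], .leaf [1, 3, 1, 2, 4, 2, 3]),
([p 2 0, g, s 0 1, p 3 2, g, s 0 3, g, p 1 0, g], .inner (.lo 2) [.ref 1584 [0, 4, 2, 3] [1, 1, 3], .ref 1857 [0, 4, 1, 2, 3] [1, 1, 1, 1, 1], .ref 1586 [0, 4, 2, 3] [1, 1, 1, 3], .ref 1773 [0, 4, 1, 2, 3] [1, 1, 1, 1, 1], .ref 1926 [0, 1, 2, 4, 3] [1, 1, 1, 1, 1], .ref 1677 [0, 4, 3] [1, 1, 1, 3], .ref 1699 [0, 2, 4, 3] [1, 1, 1, 3], .ref 1859 [0, 1, 2, 3, 4] [1, 1, 1, 1, 1], .ref 1591 [0, 3, 4] [1, 1, 1, 3], .ref 1774 [0, 1, 2, 3, 4] [1, 1, 1, 1, 1], .cyc [2, 7],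 .ref 1860 [0, 1, 2, 3, 4] [1, 1, 1, 1, 1], .ref 1591 [0, 3, 4] [1, 1, 3, 1], .ref 1775 [0, 1, 2, 3, 4] [1, 1, 1, 1, 1]]),
([p 1 0, g, s 0 0, p 2 1, p 0 0, g, s 0 2, g], .inner (.hi 2) [.ref 1891 [0, 3, 1, 2] [1, 1, 1, 1], .ref 1894 [0, 3, 1, 2] [1, 1, 2, 1], .ref 1594 [0, 3, 1, 2] [1, 1, 2, 1], .cyc [2], .ref 1708 [0, 3, 1, 2] [1, 0, 1, 1], .ref 1907 [0, 3, 1, 2] [1, 1, 1, 1], .ref 1708 [0, 3, 1, 2] [1, 2, 1, 1], .ref 1709 [0, 3, 2] [1, 2, 1, 1], .ref 1711 [0, 3, 2] [1, 2, 1], .ref 1925 [0, 3, 1, 2] [1, 1, 1, 1], .ref 1927 [0, 3, 1, 2] [1, 2, 1, 1], .ref 1598 [0, 3, 2] [1, 2, 1, 1]]),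
([p 1 0, g, p 3 1, m 0 2, g, s 2 0, g, s 0 3, g], .leaf [6, 4, 5, 4, 1]),
([p 1 0, g, p 3 1, m 0 2, g, p 2 0, g, s 0 3, g], .leaf [6, 4, 5, 4, 1]),
([p 2 0, g, s 1 0, g, s 0 1, p 4 2, m 0 3, g, m 3 0, g, s 0 4, g], .leaf [4, 1, 5, 6, 5, 0, 5]),
([p 2 0, g, s 1 0, g, s 0 1, p 4 2, g, m 0 3, g, s 3 4, g], .leaf [4, 1, 4, 0, 5, 5, 3]),
([p 1 0, g, p 3 1, m 0 2, g, s 0 3, g, s 2 0, g], .leaf [4, 2, 3, 2, 3]),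
([p 1 0, g, p 3 1, m 0 2, g, s 0 3, g, p 2 0, g], .leaf [4, 2, 3, 2, 3]),
([p 2 0, g, s 1 0, g, s 0 1, p 4 2, g, m 0 3, g, s 0 4, g, m 3 0, g], .leaf [4, 1, 4, 0, 5, 7, 5]),
([p 2 0, g, s 1 0, g, s 0 1, p 3 2, m 0 0, g, s 0 3, g], .inner (.hi 6) [.ref 1461 [0, 2, 4] [1, 4, 3], .ref 1462 [0, 2, 4] [1, 4, 0, 3], .ref 1463 [0, 4] [1, 5, 3], .ref 1461 [0, 2, 4] [3, 2, 3], .ref 1462 [0, 2, 4] [3, 2, 0, 3], .ref 1463 [0, 4] [3, 3, 3], .ref 1699 [0, 2, 4, 3] [3, 0, 1, 1], .cyc [6], .ref 1929 [0, 2, 4, 3] [4, 1, 1, 1], .ref 1930 [0, 2, 4, 3] [4, 1, 1, 1], .ref 1931 [0, 1, 2, 4, 3] [1, 1, 1, 1, 1], .ref 1932 [0, 1, 2, 4, 3] [1, 1, 0, 1, 1], .ref 1933 [0, 2, 4, 3] [4, 1, 1, 1], .ref 1934 [0, 2, 4, 3] [4, 1, 1, 1], .ref 1935 [0,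 1, 2, 4, 3] [1, 1, 0, 1, 1, 1]]),
([p 2 0, g, s 0 1, p 4 2, g, m 0 3, g, p 3 0, g, s 1 0, g, s 0 4, g], .leaf [9, 6, 9, 7, 1, 5, 5]),
([p 1 0, g, s 3 0, g, p 0 1, m 0 2, g, m 2 3, g], .leaf [2, 6, 6, 4, 1]),
([p 2 0, g, s 0 1, g, p 0 2, m 0 3, g, s 4 0, g, m 3 4, g, s 1 0, g], .leaf [8, 6, 9, 4, 2, 4, 1]),
([p 2 0, g, s 0 1, p 5 2, m 0 3, g, m 3 4, g, s 4 0, g, s 1 0, g, s 0 5, g], .leaf [10, 7, 10, 7, 1, 5, 6, 1]),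
([p 1 0, g, p 4 1, m 0 2, g, m 2 3, g, m 3 0, g, s 0 4, g], .leaf [1, 5, 6, 5, 5, 3, 0, 3]),
([p 2 0, g, s 0 1, g, p 0 2, m 0 3, g, m 3 4, g, s 1 0, g, s 4 0, g], .leaf [2, 8, 10, 8, 8, 6, 1]),
([p 2 0, g, s 0 1, p 4 2, g, m 0 3, g, s 1 0, g, p 3 0, g, s 0 4, g], .leaf [2, 6, 1, 6, 4, 0, 5]),
([p 2 0, g, s 0 1, g, p 0 2, m 0 3, g, m 3 4, g, s 1 0, g, m 4 0, g], .leaf [2, 8, 10, 8, 8, 6, 1]),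
([p 2 0, g, s 0 1, p 4 2, g, m 0 3, g, s 1 0, g, s 0 4, g, p 3 0, g], .leaf [2, 6, 1, 8, 6, 0, 3]),
([p 2 0, g, s 0 1, p 4 2, m 0 3, g, m 3 0, g, s 1 0, g, s 0 4, g], .inner (.hi 6) [.ref 1938 [0, 2, 3, 5] [1, 2, 1, 5], .ref 1462 [0, 2, 5] [1, 2, 2, 5], .ref 1463 [0, 5] [1, 5, 5], .ref 1699 [0, 2, 5, 4] [1, 2, 3, 1], .cyc [4, 6], .ref 1939 [0, 1, 2, 3, 5] [1, 0, 1, 1, 1, 3], .ref 1900 [0, 1, 2, 5, 4] [1, 2, 1, 1, 1, 1], .ref 1463 [0, 5] [5, 1, 5], .ref 1940 [0, 1, 2, 3, 5, 4] [1, 1, 1, 1, 1, 1], .ref 1937 [0, 1, 2, 5, 4] [1, 2, 1, 1, 1, 1], .ref 1941 [0, 2, 3, 5, 4] [2, 1, 1, 3, 1], .ref 1942 [0, 1, 2, 3, 5] [1, 0, 1, 1, 1, 3], .ref 1943 [0, 1, 2, 5, 4] [1, 2, 1, 1, 1, 1], .ref 1944 [0, 1, 2, 3, 5] [1, 0, 1, 1, 1, 3],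 .ref 1942 [0, 1, 2, 3, 5] [1, 0, 1, 1, 1, 1], .ref 1942 [0, 1, 2, 3, 5] [1, 0, 1, 1, 3, 1], .ref 1945 [0, 1, 2, 5, 4] [1, 2, 1, 1, 1, 1], .ref 1944 [0, 1, 2, 3, 5] [1, 0, 1, 1, 3, 1]]),
([p 2 0, g, s 0 1, p 4 2, m 0 3, g, s 1 0, g, s 3 4, g], .leaf [2, 5, 7, 5, 0, 3]),
([p 2 0, g, s 0 1, p 3 2, m 0 0, g, s 1 0, g, s 0 3, g], .inner (.hi 4) [.ref 1461 [0, 2, 4] [1, 2, 5], .ref 1462 [0, 2, 4] [1, 2, 0, 5], .ref 1463 [0, 4] [1, 3, 5], .ref 1699 [0, 2, 4, 3] [1, 0, 3, 1], .cyc [4], .ref 1929 [0, 2, 4, 3] [2, 1, 3, 1], .ref 1937 [0, 1, 2, 4, 3] [1, 0, 1, 1, 1, 1], .ref 1946 [0, 1, 2, 4, 3] [1, 1, 1, 1, 1], .ref 1929 [0, 2, 4, 3] [2, 3, 1, 1], .ref 1943 [0, 1, 2, 4, 3] [1, 0, 1, 1, 1, 1], .ref 1469 [0, 1, 2, 4] [1, 0, 1,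 1, 3], .ref 1947 [0, 1, 2, 4, 3] [1, 1, 1, 1], .ref 1933 [0, 2, 4, 3] [2, 3, 1, 1], .ref 1945 [0, 1, 2, 4, 3] [1, 0, 1, 1, 1, 1], .ref 1469 [0, 1, 2, 4] [1, 0, 1, 3, 1]]),
([p 1 0, g, p 4 1, m 0 2, g, p 3 0, g, m 2 3, g, s 0 4, g], .leaf [6, 4, 7, 4, 2, 4, 1]),
([p 2 0, g, s 0 1, g, s 1 0, p 4 2, m 0 3, g, m 3 0, g, s 0 4, g], .leaf [4, 1, 5, 6, 5, 0, 5]),
([p 1 0, g, s 3 0, g, p 0 1, m 0 2, g, s 0 3, g, m 2 0, g], .leaf [2, 6, 8, 6, 1]),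
([p 1 0, g, s 4 0, g, p 0 1, m 0 2, g, m 2 3, g, s 0 4, g, s 3 0, g], .leaf [2, 8, 10, 8, 8, 6, 1]),
([p 1 0, g, s 4 0, g, p 0 1, m 0 2, g, m 2 3, g, s 3 4, g], .leaf [2, 8, 8, 6, 6, 4, 1]),
([p 1 0, g, s 4 0, p 5 1, m 0 2, g, m 2 3, g, s 3 0, g, s 0 4, g, s 0 5, g], .leaf [10, 7, 10, 7, 1, 5, 6, 1]),
([p 2 0, g, s 6 1, p 5 2, m 0 3, g, m 3 4, g, s 4 0, g, s 0 5, g, s 0 6, g, s 1 0, g], .leaf [9, 7, 12, 8, 1, 6, 8, 5, 4, 1]),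
([p 2 0, g, s 6 1, p 5 2, m 0 3, g, m 3 4, g, s 4 0, g, s 0 5, g, s 1 0, g, s 0 6, g], .leaf [9, 7, 12, 8, 1, 6, 8, 5, 4, 1]),
([p 2 0, g, s 0 1, p 5 2, m 0 3, g, m 3 4, g, s 4 0, g, s 0 5, g, s 1 0, g], .inner (.lo 2) [.ref 1584 [0, 6, 2, 5] [1, 6, 3], .ref 1950 [0, 6, 2, 3, 5] [1, 1, 1, 3, 3], .ref 1586 [0, 6, 2, 5] [1, 1, 6, 3], .ref 1909 [0, 6, 1, 2, 5] [1, 1, 6, 1, 1], .ref 1951 [0, 2, 3, 6] [1, 0, 1, 1, 7], .ref 1677 [0, 6, 5] [1, 2, 5, 3], .ref 1699 [0, 2, 6, 5] [1, 2, 5, 3], .ref 1952 [0, 2, 3, 4, 6] [1, 0, 1, 1, 1, 5], .ref 1677 [0, 6, 5] [1, 4, 3, 3], .ref 1699 [0, 2, 6, 5] [1, 4, 3, 3], .ref 1953 [0, 2, 3, 4, 6] [1, 0, 1, 1, 5], .ref 1954 [0, 2, 3, 4, 6, 5] [1, 1, 1, 1, 1, 3], .ref 1677 [0, 6, 5] [1, 6, 1,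 3], .ref 1699 [0, 2, 6, 5] [1, 6, 1, 3], .ref 1955 [0, 1, 2, 3, 4, 5, 6] [1, 1, 1, 1, 1, 1, 1], .ref 1591 [0, 5, 6] [1, 6, 1, 3], .ref 1914 [0, 1, 2, 5, 6] [1, 6, 1, 1, 1], .cyc [2, 12], .ref 1956 [0, 1, 2, 3, 4, 5, 6] [1, 1, 1, 1, 1, 1, 1], .ref 1591 [0, 5, 6] [1, 6, 3, 1], .ref 1916 [0, 1, 2, 5, 6] [1, 6, 1, 1, 1]]),
([p 1 0, g, p 4 1, g, m 0 2, g, m 2 3, g, p 3 0, g, s 0 4, g], .leaf [5, 6, 4, 8, 6, 6, 4, 1]),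
([p 0 0, g, s 0 1, p 4 0, g, m 0 2, g, m 2 3, g, s 3 4, g, s 1 0, g], .leaf [11, 8, 5, 5, 3, 3, 1]),
([p 2 0, g, s 0 1, p 5 2, m 0 3, g, m 3 4, g, s 0 5, g, s 4 0, g, s 1 0, g], .leaf [7, 1, 8, 10, 5, 7, 6, 1]),
([p 2 0, g, s 0 1, p 4 2, g, m 0 3, g, s 0 4, g, p 3 0, g, s 1 0, g], .leaf [6, 1, 7, 9, 4, 6, 5]),
([p 0 0, g, s 0 1, p 4 0, g, m 0 2, g, m 2 3, g, s 0 4, g, m 3 0, g, s 1 0, g], .leaf [13, 10, 5, 7, 5, 5, 3]),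
([p 2 0, g, s 0 1, p 4 2, g, m 0 3, g, s 0 4, g, s 1 0, g, p 3 0, g], .leaf [2, 8, 3, 8, 4, 0, 3]),
([p 2 0, g, s 0 1, p 4 2, m 0 3, g, m 3 0, g, s 0 4, g, s 1 0, g], .inner (.hi 6) [.ref 1938 [0, 2, 3, 5] [1, 2, 1, 5], .ref 1462 [0, 2, 5] [1, 2, 2, 5], .ref 1463 [0, 5] [1, 5, 5], .ref 1699 [0, 2, 5, 4] [1, 2, 1, 3], .cyc [4, 6], .ref 1939 [0, 1, 2, 3, 5] [1, 0, 1, 1, 3, 1], .ref 1949 [0, 2, 3, 5, 4] [2, 1, 1, 1, 3], .ref 1463 [0, 5] [5, 1, 5], .ref 1957 [0, 1, 2, 3, 5, 4] [1, 1, 1, 1, 1, 1], .ref 1958 [0, 2, 3, 5, 4] [2, 0, 1, 1, 1, 3], .ref 1941 [0, 2, 3, 5, 4] [2, 1, 1, 1, 3], .ref 1959 [0, 1, 3, 5, 4] [1, 0, 1, 1, 1, 1], .ref 1960 [0, 1, 2, 3, 5, 4] [1, 1, 1, 1, 1, 1], .ref 1961 [0, 1, 2, 5, 4] [1, 2, 1, 1, 1, 1],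 .ref 1962 [0, 1, 3, 5, 4] [1, 0, 1, 1, 1, 1, 1], .ref 1942 [0, 1, 2, 3, 5] [1, 0, 1, 3, 1, 1], .ref 1963 [0, 1, 2, 5, 4] [1, 2, 1, 1, 1, 1], .ref 1944 [0, 1, 2, 3, 5] [1, 0, 1, 3, 1, 1]]),
([p 2 0, g, s 0 1, g, p 4 2, m 0 3, g, s 3 4, g, s 1 0, g], .leaf [2, 8, 4, 2, 2, 0, 1]),
([p 2 0, g, s 0 1, g, p 4 2, m 0 3, g, s 0 4, g, m 3 0, g, s 1 0, g], .leaf [2, 10, 6, 2, 4, 2, 3]),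
([p 2 0, g, s 0 1, p 3 2, m 0 0, g, s 0 3, g, s 1 0, g], .inner (.hi 4) [.ref 1461 [0, 2, 4] [1, 2, 5], .ref 1462 [0, 2, 4] [1, 2, 0, 5], .ref 1463 [0, 4] [1, 3, 5], .ref 1699 [0, 2, 4, 3] [1, 0, 1, 3], .cyc [4], .ref 1929 [0, 2, 4, 3] [2, 1, 1, 3], .ref 1465 [0, 1, 2, 4] [1, 0, 1, 3, 1], .ref 1964 [0, 1, 2, 4, 3] [1, 1, 1, 1, 1], .ref 1965 [0, 1, 2, 4, 3] [1, 0, 1, 1, 1], .ref 1933 [0, 2, 4, 3] [2, 1, 1, 3], .ref 1961 [0, 1, 2, 4, 3] [1, 0, 1, 1, 1, 1], .ref 1966 [0, 1, 2, 4, 3] [1, 0, 1, 1, 1, 1], .ref 1933 [0, 2, 4, 3] [2, 1, 3, 1], .ref 1963 [0, 1, 2, 4, 3] [1, 0, 1, 1, 1, 1], .ref 1469 [0, 1, 2, 4] [1, 0, 3, 1, 1]]),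
([p 1 0, g, s 0 0, p 2 1, m 0 0, g, s 0 2, g], .inner (.hi 2) [.ref 1936 [0, 3, 1, 2] [1, 1, 1, 1], .ref 1894 [0, 3, 1, 2] [1, 1, 2, 1], .ref 1594 [0, 3, 1, 2] [1, 1, 2, 1], .cyc [2], .ref 1709 [0, 3, 2] [1, 0, 1, 1], .ref 1948 [0, 3, 1, 2] [1, 1, 1, 1], .ref 1708 [0, 3, 1, 2] [1, 2, 1, 1], .ref 1709 [0, 3, 2] [1, 2, 1, 1], .ref 1711 [0, 3, 2] [1, 2, 1], .ref 1967 [0, 3, 1, 2] [1, 1, 1, 1], .ref 1927 [0, 3, 1, 2] [1, 2, 1, 1], .ref 1598 [0, 3, 2] [1, 2, 1, 1]]),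
([p 1 0, g, s 0 0, p 2 1, g, s 0 2, g], .inner (.top 4) [.ref 1599 [0, 1, 2] [1, 1], .ref 1884 [0, 1, 2] [1, 1, 1], .ref 1928 [0, 1, 2] [1, 1, 1], .ref 1968 [0, 1, 2] [1, 1, 1]]),
([p 2 0, g, s 1 0, g, p 0 1, p 3 2, g, s 0 3, g], .leaf [4, 1, 4, 0, 3]),
([p 3 0, g, s 0 1, g, p 2 0, g, p 1 2, p 4 3, g, s 0 4, g], .leaf [5, 7, 1, 2, 6, 4, 1]),
([p 3 0, g, p 2 0, g, s 0 1, g, p 1 2, p 4 3, g, s 0 4, g], .leaf [5, 7, 1, 4, 1, 2, 3]),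
([p 2 0, g, p 1 0, g, p 3 1, p 4 2, g, s 0 3, g, s 0 4, g], .leaf [3, 5, 1, 4, 1, 2, 3]),
([p 2 0, g, p 1 0, g, p 3 1, g, p 4 2, g, p 0 3, g, s 0 4, g], .leaf [5, 8, 6, 6, 4, 2, 0, 3]),
([p 2 0, g, p 1 0, g, p 4 1, p 3 2, g, s 0 3, g, s 0 4, g], .leaf [3, 5, 1, 6, 3, 4, 1]),
([p 2 0, g, p 1 0, g, p 4 1, p 3 2, g, s 0 3, g, p 0 4, g], .leaf [6, 9, 6, 7, 3, 2, 3]),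
([p 2 0, g, p 1 0, g, p 0 1, p 3 2, g, s 0 3, g], .inner (.lo 4) [.ref 1342 [0, 4] [3, 4], .ref 1971 [0, 4, 1, 2, 3] [1, 1, 1, 1, 1], .ref 1451 [0, 4] [1, 3, 4], .ref 1481 [0, 4, 2] [1, 3, 0, 3], .cyc [2, 4], .ref 1972 [0, 4, 1, 2, 3] [1, 1, 1, 1, 1], .ref 1451 [0, 4] [3, 1, 4], .ref 1481 [0, 4, 2] [3, 1, 0, 3], .ref 1973 [0, 1, 2, 4, 3] [1, 1, 1, 1, 1], .ref 1974 [0, 1, 2, 4, 3] [1, 1, 0, 1, 1, 1], .ref 1462 [0, 2, 4] [3, 0, 1, 3], .ref 1975 [0, 1, 2, 3, 4] [1, 1, 1, 1, 1], .ref 1976 [0, 1, 2, 3, 4] [1, 1, 1, 1, 1], .ref 1462 [0, 2, 4] [3, 0, 3, 1]]),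
([p 0 0, g, p 0 1, p 2 0, g, s 1 0, g, s 0 2, g], .leaf [5, 2, 5]),
([p 0 0, g, p 0 1, p 2 0, g, s 1 2, g], .leaf [5, 2, 1]),
([p 0 0, g, p 0 1, p 2 0, g, s 0 2, g, s 1 0, g], .leaf [7, 4, 1]),
([p 1 0, g, p 0 0, p 2 1, g, s 0 2, g], .inner (.hi 2) [.ref 1970 [0, 3, 1, 2] [1, 1, 1, 1], .ref 1977 [0, 3, 1, 2] [1, 1, 1, 1], .ref 1477 [0, 3] [1, 1, 4], .cyc [2], .ref 1978 [0, 3, 2] [1, 1, 1, 1], .ref 1451 [0, 3] [1, 2, 3], .ref 1488 [0, 3] [1, 2, 3], .ref 1979 [0, 3, 2] [1, 1, 1], .ref 1980 [0, 3, 2] [1, 1, 1, 1], .ref 1451 [0, 3] [1, 4, 1], .ref 1488 [0, 3] [1, 4, 1]]),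
([p 2 0, g, s 0 1, g, m 1 0, p 3 2, g, s 0 3, g], .leaf [4, 1, 4, 0, 3]),
([p 3 0, g, s 2 0, g, m 0 1, g, m 1 2, p 4 3, g, s 0 4, g], .leaf [5, 7, 1, 2, 6, 4, 1])]

def d07_3 : List (List Item × Pf) := [
([p 3 0, g, m 0 1, g, s 2 0, g, m 1 2, p 4 3, g, s 0 4, g], .leaf [5, 7, 1, 4, 1, 2, 3]),
([p 3 0, g, m 0 1, g, m 1 2, p 4 3, g, s 2 0, g, s 0 4, g], .leaf [3, 5, 1, 4, 1, 2, 3]),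
([p 3 0, g, m 0 1, g, m 1 2, g, p 4 3, g, m 2 0, g, s 0 4, g], .leaf [5, 8, 6, 6, 4, 2, 0, 3]),
([p 3 0, g, m 0 1, g, m 1 2, p 4 3, g, s 2 4, g], .leaf [3, 5, 1, 4, 4, 0, 1]),
([p 3 0, g, m 0 1, g, m 1 2, p 4 3, g, s 0 4, g, s 2 0, g], .leaf [3, 5, 1, 6, 3, 4, 1]),
([p 3 0, g, m 0 1, g, m 1 2, p 4 3, g, s 0 4, g, m 2 0, g], .leaf [6, 9, 6, 7, 3, 2, 3]),
([p 2 0, g, m 0 1, g, m 1 0, p 3 2, g, s 0 3, g], .inner (.hi 4) [.ref 1983 [0, 1, 4, 2, 3] [1, 1, 1, 1, 1], .ref 1494 [0, 4, 2] [1, 3, 0, 3], .ref 1463 [0, 4] [1, 3, 4], .cyc [2, 4], .ref 1984 [0, 1, 4, 2, 3] [1, 1, 1, 1, 1], .ref 1494 [0, 4, 2] [3, 1, 0, 3], .ref 1463 [0, 4] [3, 1, 4], .ref 1985 [0, 1, 4, 2, 3] [1, 1, 1, 1, 1], .ref 1452 [0, 4, 2] [3, 0, 1, 3], .ref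 1986 [0, 1, 4, 2, 3] [1, 1, 0, 1, 1, 1], .ref 1987 [0, 1, 4, 2, 3] [1, 1, 1, 1], .ref 1988 [0, 1, 4, 2, 3] [1, 1, 1, 1, 1], .ref 1452 [0, 4, 2] [3, 0, 3, 1], .ref 1989 [0, 1, 4, 2, 3] [1, 1, 1, 1, 1]]),
([p 0 0, g, m 1 0, p 2 0, g, s 0 1, g, s 0 2, g], .leaf [5, 2, 5]),
([p 0 0, g, m 2 0, p 1 0, g, s 0 1, g, s 0 2, g], .leaf [7, 4, 1]),
([p 1 0, g, m 0 0, p 2 1, g, s 0 2, g], .inner (.lo 2) [.ref 1343 [0, 3] [1, 4], .ref 1982 [0, 3, 1, 2] [1, 1, 1, 1], .ref 1488 [0, 3] [1, 1, 4], .ref 1990 [0, 3, 1, 2] [1, 1, 1, 1], .cyc [2], .ref 1991 [0, 3, 2] [1, 1, 1, 1], .ref 1477 [0, 3] [1, 2, 3], .ref 1463 [0, 3] [1, 2, 3], .ref 1992 [0, 2, 3] [1, 1, 1, 1], .ref 1477 [0, 3] [1, 4, 1], .ref 1463 [0, 3] [1, 4, 1]]),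
([p 1 0, g, p 2 1, g, s 0 2, g], .inner (.bot 1) [.ref 1575 [0, 1, 2] [1, 1], .ref 1969 [0, 1, 2] [1, 1, 1], .ref 1981 [0, 1, 2] [1, 1, 1], .ref 1993 [0, 1, 2] [1, 1, 1]]),
([p 2 1, p 5 2, g, s 0 3, g, s 3 4, g, s 1 0, g, p 4 5, g], .leaf [2, 9, 7, 4, 1, 4, 4, 2, 1]),
([p 0 1, p 3 0, g, p 0 2, g, s 2 0, g, s 1 0, g, p 0 3, g], .leaf [5, 1, 8, 4, 1]),
([p 1 0, g, p 4 1, g, m 0 2, g, s 2 3, g, p 3 4, g], .leaf [3, 6, 6, 6, 4, 4, 2, 1]),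
([p 0 1, p 4 0, g, s 3 2, g, s 0 3, g, s 1 0, g, p 2 4, g], .leaf [3, 8, 3, 6, 6, 4, 1]),
([p 0 1, p 3 0, g, s 2 0, g, p 0 2, g, s 1 0, g, p 0 3, g], .leaf [5, 1, 8, 4, 1]),
([p 0 1, p 4 0, g, s 3 2, g, m 0 3, g, s 1 0, g, p 2 4, g], .leaf [3, 8, 3, 6, 6, 4, 1]),
([p 0 1, p 4 0, g, s 3 2, g, s 1 0, g, s 0 3, g, p 2 4, g], .leaf [3, 8, 1, 6, 6, 4, 1]),
([p 0 1, p 3 0, g, s 2 0, g, s 1 0, g, p 0 2, g, p 0 3, g], .leaf [7, 3, 8, 2, 5]),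
([p 0 1, p 4 0, g, s 3 2, g, s 1 0, g, m 0 3, g, p 2 4, g], .leaf [3, 8, 1, 6, 6, 4, 1]),
([p 0 1, p 3 0, g, s 4 2, g, s 1 0, g, p 2 3, g, s 0 4, g], .leaf [9, 5, 1, 6, 3, 3, 1]),
([p 0 1, p 2 0, g, s 3 0, g, s 1 0, g, p 0 2, g, p 0 3, g], .leaf [9, 5, 1, 6, 3]),
([p 1 0, g, p 3 1, g, s 4 2, g, p 2 3, g, m 0 4, g], .leaf [3, 4, 4, 4, 2, 2, 0, 1]),
([p 2 1, p 4 2, g, s 0 3, g, s 1 0, g, p 3 4, g], .inner (.lo 3) [.ref 1995 [0, 1, 2, 5, 3, 4] [1, 1, 1, 1, 1], .ref 1996 [0, 1, 5, 4] [1, 1, 1, 1, 1], .ref 1997 [0, 2, 5, 3, 4] [0, 1, 1, 3, 1], .ref 1998 [0, 1, 3, 5, 4] [1, 1, 1, 1, 1], .ref 1999 [0, 1, 5, 4] [1, 1, 1, 1, 1], .ref 2000 [0, 1, 3, 5, 4] [1, 1, 1, 1, 1], .cyc [0, 5, 3, 7, 1], .ref 2001 [0, 1, 3, 5, 4] [1, 1,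 1, 1, 1], .ref 2002 [0, 1, 5, 4] [1, 1, 1, 1, 1], .ref 2003 [0, 1, 3, 5, 4] [1, 1, 1, 1, 1], .ref 2004 [0, 1, 3, 4, 5] [1, 1, 1, 1, 1], .ref 2005 [0, 1, 4, 5] [1, 1, 1, 1, 1], .ref 2006 [0, 2, 3, 4, 5] [0, 1, 3, 1, 1]]),
([p 1 0, g, p 3 1, g, m 0 2, g, p 2 3, g], .leaf [3, 6, 4, 4, 2, 1]),
([p 2 1, p 5 2, g, s 0 3, g, s 1 0, g, s 3 4, g, p 4 5, g], .leaf [6, 9, 3, 6, 1, 3, 1, 2, 1]),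
([p 0 1, p 3 0, g, p 0 2, g, s 1 0, g, s 2 0, g, p 0 3, g], .leaf [7, 3, 8, 2, 5]),
([p 0 1, p 4 0, g, s 1 0, g, s 0 2, g, s 2 3, g, p 3 4, g], .leaf [7, 1, 8, 2, 3, 5, 3]),
([p 0 1, p 3 0, g, s 1 0, g, p 0 2, g, s 2 0, g, p 0 3, g], .leaf [7, 1, 8, 2, 3]),
([p 0 1, p 4 0, g, s 1 0, g, s 3 2, g, s 0 3, g, p 2 4, g], .leaf [5, 8, 1, 6, 6, 2, 3]),
([p 0 1, p 3 0, g, s 1 0, g, s 2 0, g, p 0 2, g, p 0 3, g], .leaf [7, 1, 8, 2, 3]),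
([p 0 1, p 4 0, g, s 1 0, g, s 3 2, g, m 0 3, g, p 2 4, g], .leaf [5, 8, 1, 6, 6, 2, 3]),
([p 0 1, p 3 0, g, s 1 0, g, s 4 2, g, p 2 3, g, s 0 4, g], .leaf [5, 8, 1, 6, 1, 2, 3]),
([p 2 1, p 3 2, g, s 1 0, g, s 4 0, g, p 0 3, g, p 0 4, g], .leaf [0, 2, 8, 3, 6, 0, 3]),
([p 2 1, p 4 2, g, s 1 0, g, s 0 3, g, p 3 4, g], .inner (.lo 5) [.ref 2009 [0, 1, 2, 5, 3, 4] [1, 1, 1, 1, 1], .ref 2010 [0, 1, 5, 4] [1, 1, 1, 1, 1], .ref 1997 [0, 2, 5, 3, 4] [0, 1, 3, 1, 1], .cyc [0, 3, 5, 7, 1], .ref 2011 [0, 1, 5, 3, 4] [1, 1, 1, 1, 1], .ref 2012 [0, 1, 5, 4] [1, 1, 1, 1, 1], .ref 1997 [0, 2, 5, 3, 4] [0, 3, 1, 1, 1], .ref 2013 [0, 1, 3, 5, 4] [1, 1, 1, 1, 1], .ref 2014 [0, 1, 5, 4] [1, 1, 1, 1, 1], .ref 2015 [0, 1, 3, 5, 4] [1,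 1, 1, 1, 1], .ref 2016 [0, 1, 3, 4, 5] [1, 1, 1, 1, 1], .ref 2017 [0, 1, 2, 4, 5] [1, 1, 1, 1, 1], .ref 2006 [0, 2, 3, 4, 5] [0, 3, 1, 1, 1]]),
([p 2 1, p 3 2, g, s 1 0, g, p 4 3, g, s 0 4, g], .leaf [6, 3, 4, 1, 1, 2, 1]),
([p 2 1, p 3 2, g, s 1 0, g, p 4 3, g, p 0 4, g], .leaf [5, 2, 4, 1, 5, 3, 3, 1]),
([p 1 0, g, p 2 1, g, p 3 2, g, m 0 3, g], .leaf [3, 4, 2, 2, 0, 1]),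
([p 2 1, p 3 2, g, s 1 0, g, p 0 3, g], .inner (.lo 5) [.ref 2007 [0, 1, 2, 4, 3] [1, 1, 1, 1], .ref 1451 [0, 4] [2, 3, 1], .ref 2008 [0, 2, 4, 3] [0, 1, 3, 1], .cyc [0, 3, 5, 1], .ref 2018 [0, 1, 2, 4, 3] [1, 1, 1, 1], .ref 1451 [0, 4] [4, 1, 1], .ref 2008 [0, 2, 4, 3] [0, 3, 1, 1], .ref 2019 [0, 1, 2, 3, 4] [1, 1, 1, 1], .ref 2020 [0, 1, 2, 3, 4] [1, 1, 1, 1], .ref 2021 [0, 2, 3, 4] [0, 3, 1, 1]]),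
([p 2 1, p 5 2, g, s 0 3, g, s 3 4, g, p 4 5, g, s 1 0, g], .leaf [2, 7, 5, 6, 3, 1, 1, 2, 1]),
([p 0 1, p 3 0, g, p 0 2, g, s 2 0, g, p 0 3, g, s 1 0, g], .leaf [5, 1, 6, 2, 5]),
([p 0 1, p 4 0, g, s 3 2, g, s 0 3, g, p 2 4, g, s 1 0, g], .leaf [3, 6, 1, 4, 4, 2, 3]),
([p 0 1, p 3 0, g, s 2 0, g, p 0 2, g, p 0 3, g, s 1 0, g], .leaf [5, 1, 6, 2, 5]),
([p 0 1, p 4 0, g, s 3 2, g, m 0 3, g, p 2 4, g, s 1 0, g], .leaf [3, 6, 1, 4, 4, 2, 3]),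
([p 2 1, p 4 2, g, s 5 3, g, p 3 4, g, s 0 5, g, s 1 0, g], .leaf [2, 5, 3, 6, 1, 3, 1, 2, 1]),
([p 1 0, g, p 3 1, g, s 4 2, g, p 2 3, g, p 0 4, g], .leaf [3, 6, 4, 6, 3, 1, 2, 1]),
([p 2 1, p 3 2, g, s 4 0, g, p 0 3, g, s 1 0, g, s 0 4, g], .leaf [0, 6, 3, 6, 2, 0, 1]),
([p 2 1, p 4 2, g, s 0 3, g, p 3 4, g, s 1 0, g], .inner (.lo 3) [.ref 2023 [0, 1, 2, 5, 3, 4] [1, 1, 1, 1, 1], .ref 2024 [0, 1, 5, 4] [1, 1, 1, 1, 1], .ref 1997 [0, 2, 5, 3, 4] [0, 1, 1, 1, 3], .ref 2025 [0, 1, 3, 5, 4] [1, 1, 1, 1, 1], .ref 2026 [0, 1, 5, 4] [1, 1, 1, 1, 1], .ref 2027 [0, 1, 3, 5, 4] [1, 1, 1, 1, 1], .ref 2028 [0, 1, 2, 3, 4, 5] [1, 1, 1, 1, 1], .ref 2029 [0, 2, 3, 4, 5] [0, 1, 1, 1, 3], .ref 2006 [0, 2, 3, 4, 5] [0, 1, 1, 1, 3],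 .cyc [0, 7, 3, 5, 1], .ref 2030 [0, 1, 2, 4, 5] [1, 1, 1, 1, 1], .ref 2029 [0, 2, 3, 4, 5] [0, 1, 1, 3, 1], .ref 2006 [0, 2, 3, 4, 5] [0, 1, 1, 3, 1]]),
([p 2 1, p 3 2, g, s 5 0, g, p 4 3, g, s 0 4, g, s 1 5, g], .leaf [6, 3, 7, 7, 4, 1, 1, 2, 1]),
([p 2 1, p 3 2, g, p 4 0, g, p 0 3, g, s 1 4, g], .leaf [2, 5, 3, 4, 1, 3, 0, 1]),
([p 2 1, g, p 3 2, g, m 4 0, g, p 0 3, g, s 1 4, g], .leaf [4, 7, 7, 3, 3, 1, 3, 1]),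
([p 2 1, p 3 2, g, p 4 3, g, s 5 0, g, s 0 4, g, s 1 5, g], .leaf [0, 8, 8, 4, 1, 4, 2, 0, 1]),
([p 2 1, p 3 2, g, p 0 3, g, p 4 0, g, s 1 4, g], .leaf [0, 6, 1, 3, 5, 1, 0, 1]),
([p 2 1, g, p 3 2, g, p 0 3, g, m 4 0, g, s 1 4, g], .leaf [6, 7, 7, 5, 5, 3, 3, 1]),
([p 0 1, p 2 0, g, p 3 2, g, s 0 3, g, s 4 0, g, s 1 4, g], .leaf [9, 1, 5, 1, 3, 4, 1]),
([p 2 1, p 3 2, g, p 4 3, g, s 0 4, g, s 1 5, g, s 5 0, g], .leaf [2, 3, 1, 4, 6, 1, 2, 0, 1]),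
([p 0 1, p 3 0, g, s 2 0, g, s 0 2, g, p 0 3, g, s 1 4, g, p 4 0, g], .leaf [5, 1, 6, 2, 5, 5, 5]),
([p 1 0, g, p 3 1, g, p 2 0, g, s 4 2, g, p 0 3, g, p 0 4, g], .leaf [3, 8, 6, 6, 4, 1, 5, 3]),
([p 0 1, p 3 0, g, m 2 0, g, s 0 2, g, p 0 3, g, s 1 0, g], .leaf [5, 1, 6, 2, 5]),
([p 0 1, p 3 0, g, s 4 2, g, s 2 0, g, p 0 3, g, s 1 0, g, p 0 4, g], .leaf [5, 1, 6, 2, 5, 7, 5]),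
([p 1 0, g, p 3 1, g, s 4 2, g, p 2 0, g, p 0 3, g, p 0 4, g], .leaf [3, 8, 6, 8, 5, 3, 4, 1]),
([p 0 1, p 3 0, g, s 0 2, g, m 2 0, g, p 0 3, g, s 1 0, g], .leaf [5, 1, 6, 2, 5]),
([p 2 1, p 4 2, g, s 5 3, g, p 0 4, g, s 3 0, g, s 1 0, g, p 0 5, g], .leaf [0, 8, 10, 4, 8, 3, 6, 0, 3]),
([p 2 1, p 4 2, g, s 5 3, g, p 0 4, g, p 3 0, g, s 1 0, g, p 0 5, g], .leaf [2, 5, 3, 6, 1, 3, 6, 2, 3])]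

def D07 : List (List (List Item × Pf)) := [d07_0, d07_1, d07_2, d07_3]

end Pool.Agent.H63.PU.C138
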