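import Pool.Agent.H63.PU.Short

/-! Certificate data, machine generated. -/

namespace Pool.Agent.H63.PU.C138

open Pool.Agent.H63.PU Pool.Agent.H63.PU.Short

set_option maxRecDepth 20000

def d08_0 : List (List Item × Pf) := [
([p 1 0, g, p 3 1, g, s 4 2, g, p 0 3, g, m 2 0, g, p 0 4, g], .leaf [3, 6, 4, 6, 3, 6, 2, 3]),
([p 2 1, p 4 2, g, s 0 3, g, p 0 4, g, s 1 0, g, s 3 0, g], .leaf [0, 6, 3, 6, 2, 0, 1]),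
([p 2 1, p 4 2, g, s 0 3, g, p 0 4, g, s 1 0, g, p 3 0, g], .leaf [0, 6, 3, 6, 2, 0, 1]),
([p 1 0, g, p 3 1, g, s 4 2, g, p 0 3, g, p 0 4, g, m 2 0, g], .leaf [3, 6, 4, 6, 3, 6, 2, 3]),
([p 2 1, p 3 2, g, s 5 0, g, p 0 3, g, s 1 4, g, p 4 5, g], .inner (.hi 3) [.ref 2040 [0, 1, 6, 3, 4] [1, 1, 1, 1, 1, 1], .ref 2041 [0, 2, 6, 3, 5] [0, 1, 1, 1, 3, 1], .ref 2042 [0, 1, 6, 3] [1, 1, 1, 1, 3], .ref 2043 [0, 1, 6, 3, 5] [1, 1, 1, 1, 1, 1], .ref 2044 [0, 2, 6, 3, 5] [0, 1, 1, 1, 3, 1], .ref 2045 [0, 1, 6, 3] [1, 1, 1, 1, 3], .cyc [0, 7, 9, 3, 5, 1], .ref 2046 [0, 1, 2, 6, 3, 5] [1, 1, 1, 1, 1, 1], .ref 2047 [0, 1, 2, 6, 3, 5] [1, 1, 1, 1, 1, 1], .ref 2048 [0, 2, 6, 3, 5] [0, 1, 1, 1, 3, 1], .ref 2049 [0, 1, 2, 6, 3] [1, 1,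 1, 1, 3], .ref 2050 [0, 1, 2, 6, 3] [1, 1, 1, 1, 3], .ref 2048 [0, 2, 6, 3, 5] [0, 1, 1, 3, 1, 1], .ref 2049 [0, 1, 2, 6, 3] [1, 1, 1, 3, 1], .ref 2050 [0, 1, 2, 6, 3] [1, 1, 1, 3, 1], .ref 2051 [0, 2, 6, 3, 5] [0, 1, 1, 3, 1, 1]]),
([p 1 0, g, p 2 1, g, p 4 0, g, p 3 2, g, s 0 3, g, p 0 4, g], .leaf [5, 6, 2, 2, 0, 3, 5, 3]),
([p 2 1, p 3 2, g, p 4 3, g, s 5 0, g, s 0 4, g, s 1 0, g, p 0 5, g], .leaf [0, 8, 10, 6, 1, 6, 4, 0, 3]),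
([p 0 1, p 2 0, g, p 0 2, g, p 4 0, g, s 1 3, g, p 3 4, g], .leaf [1, 3, 2, 5, 5, 5, 5, 3]),
([p 0 1, p 2 0, g, p 3 2, g, s 0 3, g, s 4 0, g, s 1 0, g, p 0 4, g], .leaf [11, 3, 7, 1, 5, 6, 1]),
([p 0 1, p 2 0, g, p 3 2, g, s 0 3, g, s 1 0, g, s 4 0, g, p 0 4, g], .leaf [11, 1, 7, 1, 3, 6, 3]),
([p 0 1, p 2 0, g, p 0 2, g, s 1 3, g, p 4 0, g, p 3 4, g], .leaf [1, 3, 2, 3, 3, 5, 5, 3]),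
([p 0 1, p 2 0, g, p 3 2, g, s 0 3, g, s 1 0, g, p 0 4, g, s 4 0, g], .leaf [11, 1, 7, 1, 3, 6, 3]),
([p 2 1, p 3 2, g, p 4 3, g, s 0 4, g, s 1 5, g, p 5 0, g], .inner (.hi 9) [.ref 2052 [0, 1, 2, 3, 5, 6] [1, 1, 3, 1, 1], .ref 2053 [0, 2, 3, 4, 6] [0, 1, 1, 1, 3, 1], .ref 1477 [0, 6] [2, 7, 1], .ref 2054 [0, 1, 2, 3, 4, 6] [1, 1, 1, 1, 1, 1], .ref 2055 [0, 1, 3, 5, 6] [1, 1, 3, 1, 1], .ref 1477 [0, 6] [4, 5, 1], .cyc [0, 7, 9, 5, 3, 1], .ref 2056 [0, 1, 3, 4, 6] [1, 1, 1, 1, 1, 1], .ref 2055 [0, 1, 3, 5, 6] [1, 3, 1, 1, 1], .ref 1477 [0, 6] [6, 3, 1], .ref 2057 [0, 1, 3, 4, 6] [1, 1, 1, 1, 1, 1], .ref 2058 [0, 1, 3, 5, 6] [1, 3, 1, 1, 1], .ref 1477 [0, 6] [8, 1, 1], .ref 2059 [0, 1, 3, 4, 6] [1, 1, 1, 1, 1, 1], .ref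 1451 [0, 6] [8, 1, 1], .ref 1488 [0, 6] [8, 1, 1]]),
([p 2 1, g, p 3 2, g, p 0 3, g, s 1 4, g, m 4 0, g], .leaf [8, 1, 1, 5, 5, 3, 3, 1]),
([p 2 1, p 3 2, g, p 4 3, g, s 0 4, g, s 1 0, g], .inner (.hi 7) [.ref 2032 [0, 1, 2, 3, 4, 5] [1, 1, 1, 1, 1], .ref 2033 [0, 1, 2, 3, 5] [1, 1, 3, 1], .ref 2034 [0, 1, 2, 3, 5] [0, 1, 1, 3, 1], .ref 2035 [0, 1, 2, 3, 4, 5] [1, 1, 1, 1, 1], .ref 2036 [0, 1, 2, 3, 5] [1, 1, 3, 1], .ref 2037 [0, 1, 2, 3, 5] [0, 1, 1, 3, 1], .cyc [0, 7, 5, 3, 1], .ref 2038 [0, 1, 3, 4, 5] [1, 1, 1, 1, 1], .ref 2036 [0, 1, 2, 3, 5] [1, 3, 1, 1], .ref 2037 [0, 1, 2, 3, 5] [0, 1, 3, 1, 1], .ref 2039 [0, 1, 2, 3, 4, 5] [1, 1, 1, 1, 1], .ref 2060 [0, 1, 2, 3, 4, 5] [1, 1, 1, 1, 1], .ref 2061 [0, 1, 2, 3,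 5] [0, 1, 3, 1, 1]]),
([p 2 1, g, p 3 2, g, p 4 3, g, p 0 4, g, s 1 0, g], .leaf [8, 7, 7, 5, 5, 3, 3, 1]),
([p 2 1, p 3 2, g, p 4 3, g, s 1 0, g, s 0 4, g], .leaf [0, 4, 1, 4, 2, 0, 1]),
([p 2 1, g, p 3 2, g, p 4 3, g, s 1 0, g, p 0 4, g], .leaf [6, 5, 5, 3, 3, 1, 3, 1]),
([p 2 1, p 3 2, g, p 0 3, g, s 1 0, g], .inner (.lo 3) [.ref 2031 [0, 1, 2, 4, 3] [1, 1, 1, 1], .ref 1451 [0, 4] [2, 1, 3], .ref 2008 [0, 2, 4, 3] [0, 1, 1, 3], .ref 2062 [0, 1, 2, 3, 4] [1, 1, 1, 1], .ref 2063 [0, 1, 2, 3, 4] [0, 1, 1, 1, 1], .ref 2021 [0, 2, 3, 4] [0, 1, 1, 3], .cyc [0, 5, 3, 1], .ref 2064 [0, 1, 2, 3, 4] [1, 1, 1, 1], .ref 2065 [0, 1, 2, 3, 4] [0, 1, 1, 1, 1], .ref 2021 [0, 2, 3, 4] [0, 1, 3, 1]]),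
([p 1 0, p 2 1, g, p 0 2, g], .inner (.hi 0) [.ref 2022 [0, 3, 1, 2] [1, 1, 1], .ref 1342 [0, 3] [2, 3], .ref 1343 [0, 3] [2, 3], .cyc [0, 3, 1], .ref 2066 [0, 3, 1, 2] [1, 1, 1], .ref 1342 [0, 3] [4, 1], .ref 1343 [0, 3] [4, 1]]),
([p 3 0, g, s 0 1, g, s 2 0, g, s 0 2, p 4 3, g, p 1 4, g], .leaf [1, 7, 5, 6, 6, 4, 1]),
([p 0 0, g, s 2 1, g, s 0 2, p 3 0, g, p 1 3, g], .leaf [2, 6, 6, 4, 3]),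
([p 3 0, g, s 2 0, g, s 0 1, g, s 0 2, p 4 3, g, p 1 4, g], .leaf [3, 7, 3, 6, 6, 2, 3]),
([p 2 0, g, s 1 0, g, s 0 1, p 4 2, g, s 0 3, g, p 3 4, g], .leaf [6, 9, 7, 1, 6, 2, 1]),
([p 2 0, g, s 1 0, g, s 0 1, p 3 2, g, p 4 3, g, s 0 4, g], .leaf [6, 7, 5, 1, 4, 0, 3]),
([p 2 1, g, s 1 0, p 3 2, g, p 4 3, g, p 0 4, g], .leaf [5, 7, 6, 6, 4, 1, 3, 1]),
([p 3 0, g, s 0 1, g, s 2 0, g, s 1 2, p 4 3, g, p 0 4, g], .leaf [5, 7, 1, 2, 6, 4, 1]),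
([p 2 0, g, p 0 1, g, s 1 0, p 3 2, g, p 4 3, g, p 0 4, g], .leaf [7, 9, 8, 8, 6, 1, 5, 1]),
([p 3 0, g, m 0 1, g, s 2 0, g, s 1 2, p 4 3, g, p 0 4, g], .leaf [5, 7, 1, 2, 6, 4, 1]),
([p 3 0, g, s 2 0, g, s 0 1, g, s 1 2, p 4 3, g, p 0 4, g], .leaf [5, 7, 1, 4, 6, 2, 3]),
([p 3 0, g, s 2 0, g, m 0 1, g, s 1 2, p 4 3, g, p 0 4, g], .leaf [5, 7, 1, 4, 6, 2, 3]),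
([p 2 0, g, s 1 0, g, s 3 1, p 4 2, g, s 0 3, g, p 0 4, g], .leaf [3, 5, 1, 4, 6, 2, 3]),
([p 3 0, g, s 0 1, g, s 2 0, g, s 0 2, p 4 3, g, p 1 0, g, p 0 4, g], .leaf [1, 7, 5, 6, 8, 6, 1]),
([p 3 0, g, s 2 0, g, s 0 1, g, s 0 2, p 4 3, g, p 1 0, g, p 0 4, g], .leaf [3, 7, 3, 6, 8, 4, 5]),
([p 2 0, g, s 1 0, g, s 0 1, p 4 2, g, s 0 3, g, p 3 0, g, p 0 4, g], .leaf [6, 11, 9, 1, 8, 4, 1]),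
([p 1 0, g, p 3 1, g, m 0 2, g, p 2 0, g, p 0 3, g], .leaf [3, 8, 6, 6, 4, 1]),
([p 2 0, g, s 1 0, g, s 0 1, p 4 2, g, p 3 0, g, s 0 3, g, p 0 4, g], .leaf [6, 11, 9, 1, 8, 4, 1]),
([p 1 0, g, s 2 0, g, p 4 1, g, p 3 2, g, p 0 3, g, p 0 4, g], .leaf [6, 3, 5, 3, 7, 3, 5, 3]),
([p 1 0, g, p 3 1, g, p 2 0, g, m 0 2, g, p 0 3, g], .leaf [3, 8, 6, 6, 4, 1]),
([p 2 0, g, s 1 0, g, s 0 1, p 3 2, g, p 4 0, g, p 0 3, g, s 0 4, g], .leaf [6, 9, 7, 1, 6, 2, 5]),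
([p 1 0, g, s 2 0, g, p 3 1, g, p 4 2, g, p 0 3, g, p 0 4, g], .leaf [6, 3, 5, 3, 5, 1, 5, 1]),
([p 1 0, g, p 2 1, g, p 3 0, g, p 0 2, g, m 0 3, g], .leaf [3, 6, 4, 4, 2, 3]),
([p 2 0, g, s 1 0, g, s 3 1, p 4 2, g, p 0 3, g, p 0 4, g], .inner (.lo 7) [.ref 1342 [0, 5] [6, 3], .ref 2080 [0, 5, 1, 2, 4] [1, 1, 1, 1, 1, 1], .ref 1451 [0, 5] [1, 6, 3], .ref 1452 [0, 5, 2] [1, 4, 1, 3], .cyc [2, 7, 4], .ref 2081 [0, 5, 1, 2, 4] [1, 1, 1, 1, 1, 1], .ref 1451 [0, 5] [3, 4, 3], .ref 1452 [0, 5, 2] [3, 2, 1, 3], .ref 2082 [0, 1, 2, 5, 4] [1, 1, 1, 1, 1, 1], .ref 1451 [0, 5] [6, 1, 3], .ref 2083 [0, 2, 5, 4] [4, 1, 1, 1, 1], .ref 2084 [0, 1, 2, 5, 4] [1, 1, 1, 1, 1, 1], .ref 2085 [0, 2, 3, 5, 4] [3, 0, 1, 1, 1, 1], .ref 2086 [0,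 2, 5, 4] [4, 1, 1, 1, 1], .ref 2087 [0, 1, 2, 4, 5] [1, 1, 1, 1, 1, 1], .ref 2088 [0, 2, 3, 4, 5] [3, 0, 1, 1, 1, 1], .ref 2089 [0, 2, 4, 5] [4, 1, 1, 1, 1]]),
([p 2 0, g, s 1 0, g, s 3 1, p 4 2, g, m 0 3, g, p 0 4, g], .leaf [3, 5, 1, 4, 6, 2, 3]),
([p 2 0, g, s 1 0, g, s 4 1, p 3 2, g, p 0 3, g, s 0 4, g], .leaf [3, 5, 1, 6, 3, 4, 1]),
([p 1 0, g, s 3 0, g, p 2 1, g, p 4 2, g, p 0 3, g, p 0 4, g], .leaf [8, 5, 7, 5, 5, 3, 5, 1]),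
([p 2 0, g, s 1 0, g, s 4 1, p 3 2, g, p 0 3, g, m 0 4, g], .leaf [3, 5, 1, 6, 3, 4, 1]),
([p 1 0, g, s 4 0, g, p 2 1, g, p 3 2, g, p 0 3, g, p 0 4, g], .leaf [10, 7, 9, 7, 7, 5, 5, 3]),
([p 2 0, g, s 1 0, g, s 0 1, p 3 2, g, p 4 3, g, p 0 4, g], .inner (.lo 4) [.ref 2073 [0, 5, 2, 3, 4] [3, 1, 1, 1], .ref 2074 [0, 5, 1, 2, 3] [1, 1, 1, 1, 3], .ref 2075 [0, 5, 2, 3, 4] [1, 3, 1, 1, 1], .ref 2076 [0, 5, 1, 2, 3] [1, 1, 1, 1, 3], .cyc [2, 4], .ref 2077 [0, 5, 1, 2, 3] [1, 1, 1, 1, 3], .ref 2075 [0, 5, 2, 3, 4] [3, 1, 1, 1, 1], .ref 2078 [0, 5, 1, 2, 3] [1, 1, 1, 1, 3], .ref 2079 [0, 1, 2, 5, 3] [1, 1, 1, 1, 3], .ref 2090 [0, 1, 2, 5, 3] [1, 1, 1, 1, 3], .ref 2091 [0, 1, 2, 5, 3] [1, 1, 1, 1, 3], .ref 2092 [0, 1, 2, 3,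 5] [1, 1, 1, 1, 3], .ref 2093 [0, 2, 3, 5, 4] [3, 0, 1, 1, 1, 1], .ref 2094 [0, 1, 2, 3, 5] [1, 1, 1, 1, 3], .ref 2092 [0, 1, 2, 3, 5] [1, 1, 1, 3, 1], .ref 2095 [0, 2, 3, 4, 5] [3, 0, 1, 1, 1, 1], .ref 2094 [0, 1, 2, 3, 5] [1, 1, 1, 3, 1]]),
([p 2 0, g, s 1 0, g, s 0 1, p 3 2, g, p 0 3, g], .inner (.lo 7) [.cyc [0, 7, 5], .ref 2068 [0, 4, 1, 2, 3] [1, 1, 1, 1, 1], .ref 1451 [0, 4] [1, 6, 1], .ref 1452 [0, 4, 2] [1, 4, 1, 1], .ref 2069 [0, 4, 1, 3] [1, 1, 1, 1], .ref 2070 [0, 4, 1, 2, 3] [1, 1, 1, 1, 1], .ref 1451 [0, 4] [3, 4, 1], .ref 1452 [0, 4, 2] [3, 2, 1, 1], .ref 2071 [0, 1, 2, 4, 3] [1, 1, 1, 1, 1], .ref 1451 [0, 4] [6, 1, 1], .ref 2008 [0, 2, 4, 3] [4, 1, 1, 1], .ref 2072 [0, 1, 2, 3, 4] [1, 1, 1, 1, 1], .ref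 2096 [0, 1, 2, 3, 4] [1, 1, 1, 1, 1], .ref 2021 [0, 2, 3, 4] [4, 1, 1, 1]]),
([p 3 1, g, p 2 0, g, s 1 2, g, p 4 3, g, p 0 4, g], .leaf [4, 3, 5, 1, 3, 1, 3, 1]),
([p 3 0, g, s 0 1, g, p 2 0, g, s 1 2, p 4 3, g, p 0 4, g], .leaf [5, 7, 1, 2, 6, 4, 1]),
([p 3 0, g, p 0 1, g, p 2 0, g, s 1 2, g, p 4 3, g, p 0 4, g], .leaf [6, 3, 7, 1, 5, 1, 5, 1]),
([p 3 0, g, m 0 1, g, p 2 0, g, s 1 2, p 4 3, g, p 0 4, g], .leaf [5, 7, 1, 2, 6, 4, 1]),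
([p 3 0, g, p 2 0, g, s 0 1, g, s 1 2, p 4 3, g, p 0 4, g], .leaf [5, 7, 1, 4, 6, 2, 3]),
([p 3 0, g, p 2 0, g, p 0 1, g, s 1 2, p 4 3, g, p 0 4, g], .leaf [5, 1, 6, 1, 4, 6, 2, 3]),
([p 3 0, g, p 2 0, g, m 0 1, g, s 1 2, p 4 3, g, p 0 4, g], .leaf [5, 7, 1, 4, 6, 2, 3]),
([p 2 0, g, p 1 0, g, s 3 1, p 4 2, g, s 0 3, g, p 0 4, g], .leaf [3, 5, 1, 4, 6, 2, 3]),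
([p 2 0, g, p 1 0, g, s 3 1, g, p 4 2, g, p 0 3, g, p 0 4, g], .leaf [3, 8, 3, 1, 2, 3, 5, 3]),
([p 2 0, g, p 1 0, g, s 3 1, p 4 2, g, m 0 3, g, p 0 4, g], .leaf [3, 5, 1, 4, 6, 2, 3]),
([p 2 0, g, p 1 0, g, s 4 1, p 3 2, g, p 0 3, g, s 0 4, g], .leaf [3, 5, 1, 6, 3, 4, 1]),
([p 2 0, g, p 1 0, g, s 4 1, g, p 3 2, g, p 0 3, g, p 0 4, g], .leaf [3, 10, 5, 1, 4, 5, 3, 1]),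
([p 2 0, g, p 1 0, g, s 4 1, p 3 2, g, p 0 3, g, m 0 4, g], .leaf [3, 5, 1, 6, 3, 4, 1]),
([p 2 0, g, p 1 0, g, s 0 1, p 3 2, g, p 0 3, g], .inner (.lo 4) [.ref 2098 [0, 4, 1, 2, 3] [1, 1, 0, 1, 1], .ref 2099 [0, 4, 1, 2, 3] [1, 1, 1, 1, 1], .ref 2100 [0, 4, 1, 2, 3] [1, 1, 1, 0, 1, 1], .ref 2101 [0, 4, 1, 2, 3] [1, 1, 1, 1, 1], .cyc [2, 4], .ref 2102 [0, 4, 1, 2, 3] [1, 1, 1, 1, 1], .ref 2103 [0, 4, 1, 2, 3] [1, 1, 1, 1, 1], .ref 2104 [0, 4, 1, 2, 3] [1, 1, 1, 1, 1], .ref 2105 [0, 1, 2, 4, 3] [1, 1, 1, 1, 1], .ref 2106 [0, 1, 2, 4, 3] [1, 1, 0, 1, 1, 1], .ref 2107 [0, 1, 2, 4, 3] [1, 1, 1, 1, 1], .ref 2108 [0, 1, 2, 3, 4] [1, 1, 1, 1, 1], .ref 2109 [0, 1, 2, 3, 4] [1, 1, 0, 1, 1, 1], .ref 2110 [0, 1, 2, 3, 4] [1, 1,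 1, 1, 1]])]

def d08_1 : List (List Item × Pf) := [
([p 0 0, g, s 0 1, g, m 2 0, g, s 0 2, p 3 0, g, p 1 3, g], .leaf [2, 8, 8, 6, 1]),
([p 3 0, g, m 2 0, g, s 0 1, g, s 0 2, p 4 3, g, p 1 4, g], .leaf [8, 9, 7, 3, 6, 0, 3]),
([p 2 0, g, m 1 0, g, s 0 1, p 4 2, g, s 0 3, g, p 3 4, g], .leaf [6, 9, 7, 1, 6, 2, 1]),
([p 2 0, g, m 1 0, g, s 0 1, p 3 2, g, p 4 3, g, s 0 4, g], .leaf [6, 7, 5, 1, 4, 0, 3]),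
([p 2 0, g, m 1 0, g, s 0 1, p 3 2, g, p 4 3, g, p 0 4, g], .leaf [7, 9, 8, 8, 6, 1, 5, 1]),
([p 2 0, g, m 1 0, g, s 0 1, p 3 2, g, p 0 3, g], .inner (.lo 7) [.cyc [0, 7, 5], .ref 2112 [0, 4, 1, 3] [1, 1, 1, 1, 1], .ref 1451 [0, 4] [1, 6, 1], .ref 1452 [0, 4, 2] [1, 4, 1, 1], .ref 1452 [0, 4, 2] [1, 2, 1, 1], .ref 2113 [0, 4, 1, 2, 3] [1, 1, 1, 1, 1], .ref 1451 [0, 4] [3, 4, 1], .ref 1452 [0, 4, 2] [3, 2, 1, 1], .ref 2114 [0, 1, 2, 4, 3] [1, 1, 1, 1, 1], .ref 1451 [0, 4] [6, 1, 1], .ref 2008 [0, 2, 4, 3] [4, 1, 1, 1], .ref 2115 [0, 1, 2, 3, 4] [1, 1, 1, 1, 1], .ref 2116 [0, 1, 2, 3, 4] [1, 1, 1, 1, 1], .ref 2021 [0, 2, 3, 4] [4, 1, 1, 1]]),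
([p 3 1, g, s 0 2, g, s 1 0, p 4 3, g, p 2 4, g], .leaf [6, 7, 5, 3, 4, 0, 1]),
([p 2 1, g, s 1 0, p 4 2, g, s 0 3, g, p 3 4, g], .leaf [4, 7, 5, 1, 4, 2, 1]),
([p 2 1, g, s 1 0, p 3 2, g, p 4 3, g, s 0 4, g], .leaf [4, 5, 3, 1, 2, 0, 1]),
([p 2 1, g, s 1 0, p 3 2, g, p 0 3, g], .inner (.lo 5) [.ref 2118 [0, 1, 4, 2, 3] [1, 1, 1, 1], .ref 1451 [0, 4] [1, 4, 1], .ref 1452 [0, 4, 2] [1, 2, 1, 1], .cyc [0, 2, 5, 3], .ref 2119 [0, 1, 2, 4, 3] [1, 1, 1, 1], .ref 1451 [0, 4] [4, 1, 1], .ref 2008 [0, 2, 4, 3] [2, 1, 1, 1], .ref 2120 [0, 1, 2, 3, 4] [1, 1, 1, 1], .ref 2073 [0, 1, 2, 3, 4] [1, 1, 1, 1], .ref 2021 [0, 2, 3, 4] [2, 1, 1, 1]]),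
([p 3 0, g, s 0 1, g, s 1 2, p 4 3, g, s 2 0, g, p 0 4, g], .leaf [3, 5, 1, 2, 6, 4, 1]),
([p 3 0, g, s 0 1, g, p 1 2, g, s 2 0, p 4 3, g, p 0 4, g], .leaf [3, 7, 3, 4, 6, 4, 1]),
([p 3 0, g, p 1 0, g, s 0 1, g, s 0 2, p 4 3, g, s 2 0, g, p 0 4, g], .leaf [3, 7, 3, 4, 8, 6, 3]),
([p 3 0, g, p 2 1, g, p 0 2, g, s 1 0, p 4 3, g, p 0 4, g], .leaf [6, 3, 6, 0, 1, 6, 4, 1]),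
([p 2 0, g, p 3 1, g, s 1 0, p 4 2, g, s 0 3, g, p 0 4, g], .leaf [1, 5, 3, 4, 6, 4, 1]),
([p 2 0, g, p 3 1, g, s 1 0, p 4 2, g, p 0 3, g, p 0 4, g], .leaf [5, 2, 7, 3, 7, 2, 2, 3]),
([p 2 0, g, p 4 0, g, s 0 1, p 3 2, g, s 1 0, g, p 0 3, g, s 0 4, g], .leaf [1, 5, 3, 8, 3, 4, 1]),
([p 2 0, g, p 4 1, g, s 1 0, p 3 2, g, p 0 3, g, p 0 4, g], .leaf [5, 7, 6, 1, 7, 5, 3, 1]),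
([p 3 0, g, p 0 1, g, s 1 2, p 4 3, g, s 2 0, g, p 0 4, g], .inner (.lo 2) [.ref 1342 [0, 5] [1, 8], .ref 2123 [0, 5, 1, 3, 4] [1, 1, 1, 3, 1], .ref 1451 [0, 5] [1, 1, 8], .ref 1481 [0, 5, 3] [1, 1, 2, 5], .ref 2124 [0, 5, 2, 3, 4] [1, 1, 1, 1, 1, 1], .ref 2125 [0, 1, 5, 3, 4] [1, 1, 1, 3, 1], .ref 1494 [0, 5, 3] [1, 1, 2, 5], .ref 2126 [0, 1, 3, 5, 4] [1, 1, 1, 3, 1], .ref 2127 [0, 1, 3, 5, 4] [1, 1, 1, 3, 1], .ref 1462 [0, 3, 5] [1, 2, 1, 5], .cyc [2, 4, 7], .ref 2126 [0, 1, 3, 5, 4] [1, 1, 3, 1, 1], .ref 2127 [0, 1, 3, 5, 4] [1, 1, 3, 1, 1], .ref 1462 [0, 3, 5] [1, 2, 3, 3], .ref 2128 [0, 2, 3, 4, 5] [1, 1, 1, 1, 1, 1], .ref 2129 [0, 1, 3, 4, 5] [1, 1, 3, 1, 1], .ref 1462 [0, 3, 5] [1, 2, 5, 1]]),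
([p 3 0, g, m 0 1, g, s 1 2, p 4 3, g, s 2 0, g, p 0 4, g], .leaf [3, 5, 1, 2, 6, 4, 1]),
([p 2 0, g, s 3 1, p 4 2, g, s 0 3, g, s 1 0, g, p 0 4, g], .leaf [1, 3, 1, 2, 6, 4, 1]),
([p 2 0, g, s 3 1, p 4 2, g, p 0 3, g, s 1 0, g, p 0 4, g], .leaf [6, 4, 5, 3, 6, 2, 3]),
([p 2 0, g, s 3 1, p 4 2, g, m 0 3, g, s 1 0, g, p 0 4, g], .leaf [1, 3, 1, 2, 6, 4, 1]),
([p 2 0, g, s 3 1, p 4 2, g, s 1 0, g, s 0 3, g, p 0 4, g], .leaf [1, 3, 1, 4, 6, 2, 3]),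
([p 3 0, g, s 0 1, g, s 0 2, p 4 3, g, s 2 0, g, p 1 0, g, p 0 4, g], .leaf [1, 5, 3, 6, 8, 4, 5]),
([p 2 0, g, s 4 1, p 5 2, g, s 0 3, g, s 1 0, g, p 3 4, g, p 0 5, g], .leaf [8, 9, 2, 3, 1, 2, 6, 4, 1]),
([p 2 0, g, s 4 1, p 5 2, g, s 1 0, g, s 0 3, g, p 3 4, g, p 0 5, g], .leaf [8, 9, 2, 3, 1, 4, 6, 2, 3]),
([p 2 0, g, s 3 1, p 5 2, g, s 1 0, g, p 4 3, g, s 0 4, g, p 0 5, g], .leaf [6, 7, 2, 3, 1, 4, 6, 2, 3]),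
([p 2 0, g, s 0 1, p 3 2, g, s 1 0, g, p 4 0, g, p 0 3, g, s 0 4, g], .leaf [10, 5, 6, 1, 3, 6, 3]),
([p 2 0, g, s 3 1, p 4 2, g, s 1 0, g, p 0 3, g, p 0 4, g], .inner (.lo 7) [.ref 1342 [0, 5] [6, 3], .ref 2136 [0, 5, 1, 2, 4] [1, 1, 1, 1, 1, 1], .ref 1451 [0, 5] [1, 6, 3], .ref 1452 [0, 5, 2] [1, 2, 3, 3], .ref 2137 [0, 1, 2, 5, 3, 4] [1, 1, 1, 1, 1, 1], .ref 1451 [0, 5] [4, 3, 3], .ref 2083 [0, 2, 5, 4] [2, 1, 3, 1, 1], .cyc [2, 5, 7], .ref 2138 [0, 1, 2, 5, 3, 4] [1, 1, 1, 1, 1, 1], .ref 1451 [0, 5] [6, 1, 3], .ref 2083 [0, 2, 5, 4] [2, 3, 1, 1, 1], .ref 2139 [0, 1, 2, 3, 5, 4] [1, 1, 1, 1, 1, 1], .ref 2085 [0, 2, 3, 5, 4] [1, 0, 3, 1, 1, 1], .ref 2086 [0, 2, 5, 4] [2, 3, 1, 1, 1], .ref 2140 [0, 1, 2, 4, 5] [1, 1,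 1, 1, 1, 1], .ref 2088 [0, 2, 3, 4, 5] [1, 0, 3, 1, 1, 1], .ref 2089 [0, 2, 4, 5] [2, 3, 1, 1, 1]]),
([p 2 0, g, s 3 1, p 4 2, g, s 1 0, g, m 0 3, g, p 0 4, g], .leaf [1, 3, 1, 4, 6, 2, 3]),
([p 2 0, g, s 4 1, p 3 2, g, s 1 0, g, p 0 3, g, s 0 4, g], .leaf [1, 3, 1, 6, 3, 4, 1]),
([p 3 0, g, s 0 1, g, s 0 2, p 4 3, g, s 2 0, g, p 1 4, g], .leaf [1, 5, 3, 6, 6, 2, 3]),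
([p 2 0, g, s 5 1, p 4 2, g, s 0 3, g, s 1 0, g, p 3 4, g, p 0 5, g], .leaf [4, 11, 8, 9, 7, 3, 3, 4, 1]),
([p 2 0, g, s 5 1, p 4 2, g, s 1 3, g, p 3 4, g, p 0 5, g], .leaf [4, 9, 6, 7, 5, 1, 1, 2, 1]),
([p 2 0, g, s 5 1, p 4 2, g, s 1 0, g, s 0 3, g, p 3 4, g, p 0 5, g], .leaf [6, 11, 6, 7, 5, 1, 1, 2, 3]),
([p 2 0, g, s 0 1, p 3 2, g, s 1 0, g, p 4 3, g, s 0 4, g], .leaf [8, 3, 4, 1, 1, 4, 3]),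
([p 2 0, g, s 4 1, p 3 2, g, s 1 0, g, p 0 3, g, p 0 4, g], .inner (.lo 7) [.cyc [0, 7, 3], .ref 2144 [0, 5, 1, 2, 3] [1, 1, 1, 1, 3], .ref 1451 [0, 5] [1, 6, 3], .ref 1452 [0, 5, 2] [1, 2, 3, 3], .ref 2145 [0, 1, 2, 5, 3, 4] [1, 1, 1, 1, 1, 1], .ref 1451 [0, 5] [4, 3, 3], .ref 2008 [0, 2, 5, 3] [2, 1, 3, 3], .ref 2146 [0, 1, 2, 5, 3, 4] [1, 1, 1, 1, 1], .ref 2147 [0, 1, 2, 5, 3, 4] [1, 1, 1, 1, 1, 1], .ref 1451 [0, 5] [6, 1, 3], .ref 2008 [0, 2, 5, 3] [2, 3, 1, 3], .ref 2148 [0, 1, 2, 3, 5] [1, 1, 1, 1, 3], .ref 2095 [0, 2, 3, 5, 4] [1, 0, 3, 1, 1, 1], .ref 2021 [0, 2, 3, 5] [2, 3, 1, 3], .ref 2148 [0, 1, 2, 3, 5] [1, 1, 1, 3, 1], .ref 2093 [0, 2, 3, 4, 5] [1, 0, 3, 1, 1, 1], .ref 2021 [0, 2, 3, 5] [2, 3, 3, 1]]),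
([p 2 0, g, s 4 1, p 3 2, g, s 1 0, g, p 0 3, g, m 0 4, g], .leaf [1, 3, 1, 6, 3, 4, 1]),
([p 2 0, g, s 0 1, p 3 2, g, s 1 0, g, p 0 3, g], .inner (.lo 2) [.ref 2121 [0, 4, 2, 3] [1, 3, 1], .ref 2122 [0, 4, 1, 2, 3] [1, 1, 1, 1, 1], .ref 2130 [0, 4, 1, 2, 3] [1, 1, 1, 1, 1], .ref 2131 [0, 4, 1, 2, 3] [1, 1, 1, 1, 1], .ref 2132 [0, 1, 2, 4, 3] [1, 1, 1, 1, 1], .ref 2133 [0, 1, 2, 4, 3] [1, 1, 1, 1, 1], .ref 2134 [0, 1, 2, 4, 3] [1, 1, 1, 1, 1], .cyc [2, 5], .ref 2135 [0, 1, 2, 4, 3] [1, 1, 1, 1, 1], .ref 2141 [0, 1, 2, 4, 3] [1, 1, 1, 1, 1], .ref 2142 [0, 1, 2, 4, 3] [1, 1, 1, 1, 1], .ref 2143 [0, 1, 2, 3, 4] [1, 1, 1, 1, 1], .ref 2149 [0, 1, 2, 3, 4] [1, 1, 1, 1, 1], .ref 2150 [0, 1, 2, 3, 4] [1, 1, 1, 1, 1]]),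
([p 3 0, g, s 0 1, g, s 1 2, p 4 3, g, p 2 0, g, p 0 4, g], .leaf [3, 5, 1, 2, 6, 4, 1]),
([p 3 0, g, p 0 1, g, s 1 2, p 4 3, g, p 2 0, g, p 0 4, g], .leaf [3, 1, 4, 1, 2, 6, 4, 1]),
([p 3 0, g, m 0 1, g, s 1 2, p 4 3, g, p 2 0, g, p 0 4, g], .leaf [3, 5, 1, 2, 6, 4, 1]),
([p 2 0, g, s 3 1, p 4 2, g, s 0 3, g, p 1 0, g, p 0 4, g], .leaf [1, 3, 1, 2, 6, 4, 1]),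
([p 2 0, g, s 3 1, p 4 2, g, p 0 3, g, p 1 0, g, p 0 4, g], .leaf [6, 4, 5, 3, 6, 2, 3]),
([p 2 0, g, s 3 1, p 4 2, g, m 0 3, g, p 1 0, g, p 0 4, g], .leaf [1, 3, 1, 2, 6, 4, 1]),
([p 2 0, g, s 3 1, p 4 2, g, p 1 0, g, s 0 3, g, p 0 4, g], .leaf [1, 3, 1, 4, 6, 2, 3]),
([p 0 0, g, s 0 1, g, s 0 2, p 3 0, g, p 2 0, g, p 1 0, g, p 0 3, g], .leaf [2, 8, 10, 6, 7]),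
([p 2 0, g, s 4 1, p 5 2, g, s 0 3, g, p 1 0, g, p 3 4, g, p 0 5, g], .leaf [8, 9, 2, 3, 1, 2, 6, 4, 1]),
([p 2 0, g, s 4 1, p 5 2, g, p 1 0, g, s 0 3, g, p 3 4, g, p 0 5, g], .leaf [8, 9, 2, 3, 1, 4, 6, 2, 3]),
([p 2 0, g, s 3 1, p 5 2, g, p 1 0, g, p 4 3, g, s 0 4, g, p 0 5, g], .leaf [6, 7, 2, 3, 1, 4, 6, 2, 3]),
([p 2 0, g, s 0 1, p 3 2, g, p 1 0, g, p 4 0, g, p 0 3, g, s 0 4, g], .leaf [10, 5, 6, 1, 3, 6, 3]),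
([p 2 0, g, s 3 1, p 4 2, g, p 1 0, g, p 0 3, g, p 0 4, g], .inner (.lo 7) [.ref 1342 [0, 5] [6, 3], .ref 2159 [0, 5, 1, 4] [1, 1, 1, 1, 1, 1], .ref 1451 [0, 5] [1, 6, 3], .ref 1452 [0, 5, 2] [1, 2, 3, 3], .ref 2160 [0, 1, 2, 5, 3, 4] [1, 1, 1, 1, 1, 1], .ref 1451 [0, 5] [4, 3, 3], .ref 2083 [0, 2, 5, 4] [2, 1, 3, 1, 1], .cyc [2, 5, 7], .ref 2161 [0, 1, 2, 5, 3, 4] [1, 1, 1, 1, 1, 1], .ref 1451 [0, 5] [6, 1, 3], .ref 2083 [0, 2, 5, 4] [2, 3, 1, 1, 1], .ref 2162 [0, 1, 2, 3, 5, 4] [1, 1, 1, 1, 1, 1], .ref 2085 [0, 2, 3, 5, 4] [1, 0, 3, 1, 1, 1], .ref 2086 [0, 2, 5, 4] [2, 3, 1, 1, 1], .ref 2163 [0, 1, 2, 4, 5] [1, 1, 1, 1, 1, 1], .ref 2088 [0, 2, 3, 4, 5] [1, 0, 3, 1, 1, 1], .ref 2089 [0, 2, 4, 5] [2, 3, 1, 1, 1]]),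
([p 2 0, g, s 3 1, p 4 2, g, p 1 0, g, m 0 3, g, p 0 4, g], .leaf [1, 3, 1, 4, 6, 2, 3]),
([p 2 0, g, s 4 1, p 3 2, g, p 1 0, g, p 0 3, g, s 0 4, g], .leaf [1, 3, 1, 6, 3, 4, 1]),
([p 2 0, g, s 4 1, g, p 3 2, g, p 1 0, g, p 0 3, g, p 0 4, g], .leaf [5, 8, 6, 6, 2, 3, 5, 1]),
([p 2 0, g, s 4 1, p 3 2, g, p 1 0, g, p 0 3, g, m 0 4, g], .leaf [1, 3, 1, 6, 3, 4, 1]),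
([p 2 0, g, s 0 1, p 3 2, g, p 1 0, g, p 0 3, g], .inner (.lo 2) [.ref 2121 [0, 4, 2, 3] [1, 3, 1], .ref 2152 [0, 4, 1, 2, 3] [1, 1, 1, 1, 1], .ref 2153 [0, 4, 1, 2, 3] [1, 1, 1, 1, 1], .ref 2154 [0, 4, 1, 2, 3] [1, 1, 1, 1, 1], .ref 2155 [0, 1, 2, 4, 3] [1, 1, 1, 1, 1], .ref 2156 [0, 1, 2, 4, 3] [1, 1, 1, 1, 1], .ref 2157 [0, 1, 2, 4, 3] [1, 1, 1, 1, 1], .cyc [2, 5], .ref 2158 [0, 1, 2, 4, 3] [1, 1, 1, 1, 1], .ref 2164 [0, 1, 2, 4, 3] [1, 1, 1, 1, 1], .ref 2165 [0, 1, 2, 4, 3] [1, 1, 1, 1, 1], .ref 2166 [0, 1, 2, 3, 4] [1, 1, 1, 1, 1], .ref 2167 [0, 1, 2, 3, 4] [1, 0, 1, 1, 1, 1], .ref 2168 [0, 1, 2, 3, 4] [1, 1, 1, 1, 1]]),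
([p 2 0, g, s 3 0, g, s 0 1, g, s 1 0, p 4 2, g, m 0 3, g, p 0 4, g], .leaf [1, 7, 5, 6, 8, 6, 1]),
([p 2 0, g, s 0 1, g, s 3 0, g, s 1 0, p 4 2, g, m 0 3, g, p 0 4, g], .leaf [3, 7, 3, 6, 8, 4, 5]),
([p 2 0, g, s 0 1, g, s 1 0, p 4 2, g, s 3 0, g, m 0 3, g, p 0 4, g], .leaf [6, 11, 9, 1, 8, 4, 1]),
([p 2 0, g, s 0 1, g, s 1 0, p 4 2, g, m 0 3, g, s 3 0, g, p 0 4, g], .leaf [6, 11, 9, 1, 8, 4, 1]),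
([p 2 0, g, s 0 1, g, p 4 2, g, m 1 3, g, m 3 0, g, p 0 4, g], .leaf [6, 3, 5, 3, 7, 3, 5, 3]),
([p 2 0, g, s 0 1, g, s 1 0, p 4 2, g, m 0 3, g, p 0 4, g, s 3 0, g], .leaf [6, 9, 7, 1, 6, 2, 5])]

def d08_2 : List (List Item × Pf) := [
([p 1 0, g, p 3 1, g, m 0 2, g, p 0 3, g, p 2 0, g], .leaf [3, 6, 4, 4, 2, 3]),
([p 2 0, g, s 0 1, g, p 4 2, g, m 1 3, g, p 0 4, g, m 3 0, g], .leaf [6, 3, 5, 3, 5, 1, 5, 1]),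
([p 3 0, g, s 0 1, g, s 1 2, p 4 3, g, m 2 0, g, p 0 4, g], .inner (.hi 7) [.ref 2170 [0, 1, 3, 5, 4] [1, 1, 1, 1, 1, 1], .ref 1462 [0, 3, 5] [1, 4, 1, 3], .ref 1463 [0, 5] [1, 6, 3], .cyc [2, 4, 7], .ref 2171 [0, 1, 3, 5, 4] [1, 1, 1, 1, 1, 1], .ref 1462 [0, 3, 5] [3, 2, 1, 3], .ref 1463 [0, 5] [3, 4, 3], .ref 2172 [0, 1, 3, 5, 4] [1, 1, 1, 1, 1, 1], .ref 2086 [0, 3, 5, 4] [4, 1, 1, 1, 1], .ref 1463 [0, 5] [6, 1, 3], .ref 2173 [0, 1, 3, 5, 4] [1, 1, 1, 1, 1, 1], .ref 2083 [0, 3, 5, 4] [4, 1, 1, 1, 1], .ref 2174 [0, 2, 3, 5, 4] [3, 0, 1, 1, 1, 1], .ref 2008 [0, 3, 5, 4] [4, 1, 1, 1], .ref 2175 [0, 1, 3, 5, 4] [1, 1, 1, 1, 1, 1], .ref 2176 [0, 3, 5, 4] [4, 1, 1, 1, 1], .ref 2177 [0, 2, 3, 5, 4] [3, 0, 1, 1, 1, 1]]),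
([p 3 0, g, p 0 1, g, s 1 2, g, p 4 3, g, m 2 0, g, p 0 4, g], .leaf [2, 3, 7, 3, 5, 3, 5, 1]),
([p 3 0, g, m 0 1, g, s 1 2, g, p 4 3, g, m 2 0, g, p 0 4, g], .leaf [3, 8, 3, 1, 2, 3, 5, 3]),
([p 1 0, g, s 3 0, g, s 2 0, p 4 1, g, s 0 2, g, m 0 3, g, p 0 4, g], .leaf [1, 5, 3, 6, 8, 4, 5]),
([p 2 0, g, s 3 1, p 5 2, g, s 4 0, g, s 0 3, g, m 1 4, g, p 0 5, g], .leaf [8, 9, 2, 3, 1, 2, 6, 4, 1]),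
([p 2 0, g, s 3 1, p 5 2, g, s 0 3, g, s 4 0, g, m 1 4, g, p 0 5, g], .leaf [8, 9, 2, 3, 1, 4, 6, 2, 3]),
([p 2 0, g, s 3 1, p 5 2, g, s 0 3, g, m 1 4, g, s 4 0, g, p 0 5, g], .leaf [6, 7, 2, 3, 1, 4, 6, 2, 3]),
([p 1 0, g, s 2 0, p 4 1, g, s 0 2, g, m 0 3, g, p 0 4, g, s 3 0, g], .leaf [10, 5, 6, 1, 3, 6, 3]),
([p 2 0, g, s 3 1, p 4 2, g, s 0 3, g, m 1 0, g, p 0 4, g], .inner (.hi 7) [.ref 2181 [0, 2, 3, 5, 4] [1, 1, 1, 1, 1, 1], .ref 1462 [0, 2, 5] [1, 2, 3, 3], .ref 1463 [0, 5] [1, 6, 3], .ref 2182 [0, 1, 2, 3, 5, 4] [1, 1, 1, 1, 1, 1], .ref 2086 [0, 2, 5, 4] [2, 1, 3, 1, 1], .ref 1463 [0, 5] [4, 3, 3], .cyc [2, 7, 5], .ref 2183 [0, 1, 2, 3, 5, 4] [1, 1, 1, 1, 1, 1], .ref 2086 [0, 2, 5, 4] [2, 3, 1, 1, 1], .ref 1463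 [0, 5] [6, 1, 3], .ref 2184 [0, 1, 2, 3, 5, 4] [1, 1, 1, 1, 1, 1], .ref 2083 [0, 2, 5, 4] [2, 3, 1, 1, 1], .ref 2174 [0, 1, 2, 5, 4] [1, 0, 3, 1, 1, 1], .ref 2008 [0, 2, 5, 4] [2, 3, 1, 1], .ref 2185 [0, 2, 3, 5, 4] [1, 1, 1, 1, 1, 1], .ref 2176 [0, 2, 5, 4] [2, 3, 1, 1, 1], .ref 2177 [0, 1, 2, 5, 4] [1, 0, 3, 1, 1, 1]]),
([p 2 0, g, s 3 1, g, p 4 2, g, p 0 3, g, m 1 0, g, p 0 4, g], .leaf [1, 6, 3, 6, 2, 3, 5, 1]),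
([p 0 0, g, s 2 0, g, s 1 0, p 3 0, g, m 0 1, g, m 0 2, g, p 0 3, g], .leaf [2, 8, 10, 6, 7]),
([p 2 0, g, s 3 1, p 5 2, g, s 4 0, g, m 0 3, g, m 1 4, g, p 0 5, g], .leaf [8, 9, 2, 3, 1, 2, 6, 4, 1]),
([p 2 0, g, s 3 1, p 5 2, g, m 0 3, g, s 4 0, g, m 1 4, g, p 0 5, g], .leaf [8, 9, 2, 3, 1, 4, 6, 2, 3]),
([p 2 0, g, s 3 1, p 5 2, g, m 0 3, g, m 1 4, g, s 4 0, g, p 0 5, g], .leaf [6, 7, 2, 3, 1, 4, 6, 2, 3]),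
([p 1 0, g, s 2 0, p 4 1, g, m 0 2, g, m 0 3, g, p 0 4, g, s 3 0, g], .leaf [10, 5, 6, 1, 3, 6, 3]),
([p 2 0, g, s 3 1, p 4 2, g, m 0 3, g, m 1 0, g, p 0 4, g], .inner (.hi 7) [.ref 2188 [0, 3, 5, 4] [1, 1, 1, 1, 1, 1], .ref 1462 [0, 2, 5] [1, 2, 3, 3], .ref 1463 [0, 5] [1, 6, 3], .ref 2189 [0, 1, 2, 3, 5, 4] [1, 1, 1, 1, 1, 1], .ref 2086 [0, 2, 5, 4] [2, 1, 3, 1, 1], .ref 1463 [0, 5] [4, 3, 3], .cyc [2, 7, 5], .ref 2190 [0, 1, 2, 3, 5, 4] [1, 1, 1, 1, 1, 1], .ref 2086 [0, 2, 5, 4] [2, 3, 1, 1, 1], .ref 1463 [0, 5] [6, 1, 3], .ref 2191 [0, 1, 2, 3, 5, 4] [1, 1, 1, 1, 1, 1], .ref 2083 [0, 2, 5, 4] [2, 3, 1, 1, 1], .ref 2174 [0, 1, 2, 5, 4] [1, 0, 3, 1, 1, 1], .ref 2008 [0, 2, 5, 4] [2, 3, 1, 1], .ref 2192 [0, 2, 3, 5,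 4] [1, 1, 1, 1, 1, 1], .ref 2176 [0, 2, 5, 4] [2, 3, 1, 1, 1], .ref 2177 [0, 1, 2, 5, 4] [1, 0, 3, 1, 1, 1]]),
([p 2 0, g, s 3 1, p 4 2, g, m 1 0, g, s 0 3, g, p 0 4, g], .leaf [6, 4, 5, 3, 6, 2, 3]),
([p 2 0, g, s 3 1, g, p 4 2, g, m 1 0, g, p 0 3, g, p 0 4, g], .leaf [1, 6, 3, 6, 2, 3, 5, 1]),
([p 2 0, g, s 3 1, p 4 2, g, m 1 0, g, m 0 3, g, p 0 4, g], .leaf [6, 4, 5, 3, 6, 2, 3]),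
([p 2 0, g, s 4 1, p 3 2, g, m 1 0, g, p 0 3, g, s 0 4, g], .leaf [8, 6, 7, 5, 1, 4, 1]),
([p 2 0, g, s 4 1, g, p 3 2, g, m 1 0, g, p 0 3, g, p 0 4, g], .leaf [1, 10, 7, 1, 6, 3, 1, 3]),
([p 2 0, g, s 4 1, p 3 2, g, m 1 0, g, p 0 3, g, m 0 4, g], .leaf [8, 6, 7, 5, 1, 4, 1]),
([p 2 0, g, s 0 1, p 3 2, g, m 1 0, g, p 0 3, g], .inner (.lo 2) [.ref 2121 [0, 4, 2, 3] [1, 3, 1], .ref 2178 [0, 4, 1, 2, 3] [1, 1, 1, 1, 1], .ref 2179 [0, 4, 1, 2, 3] [1, 1, 0, 1, 1, 1], .ref 2180 [0, 4, 1, 2, 3] [1, 1, 0, 1, 1, 1], .ref 2186 [0, 1, 2, 4, 3] [1, 1, 1, 1, 1], .ref 2187 [0, 1, 2, 4, 3] [1, 0, 1, 1, 1, 1], .ref 2193 [0, 1, 2, 4, 3] [1, 1, 1, 1, 1], .cyc [2, 5], .ref 2194 [0, 1, 2, 4, 3] [1, 1, 1, 1, 1], .ref 2195 [0, 1, 2, 4, 3]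 [1, 0, 1, 1, 1, 1], .ref 2196 [0, 1, 2, 4, 3] [1, 1, 1, 1, 1], .ref 2197 [0, 1, 2, 3, 4] [1, 1, 1, 1, 1], .ref 2198 [0, 1, 2, 3, 4] [1, 0, 1, 1, 1, 1], .ref 2199 [0, 1, 2, 3, 4] [1, 1, 1, 1, 1]]),
([p 3 0, g, s 0 1, g, s 1 2, p 4 3, g, p 2 4, g], .leaf [3, 5, 1, 2, 4, 2, 1]),
([p 3 0, g, p 0 1, g, s 1 2, p 4 3, g, p 2 4, g], .leaf [3, 1, 4, 1, 2, 4, 2, 1]),
([p 3 0, g, m 0 1, g, s 1 2, p 4 3, g, p 2 4, g], .leaf [3, 5, 1, 2, 4, 2, 1]),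
([p 2 0, g, s 3 1, p 4 2, g, s 0 3, g, p 1 4, g], .leaf [1, 3, 1, 2, 4, 2, 1]),
([p 2 0, g, s 3 1, p 4 2, g, p 0 3, g, p 1 4, g], .leaf [6, 4, 5, 3, 4, 0, 1]),
([p 2 0, g, s 3 1, p 4 2, g, m 0 3, g, p 1 4, g], .leaf [1, 3, 1, 2, 4, 2, 1]),
([p 2 0, g, s 4 1, p 3 2, g, p 1 3, g, s 0 4, g], .leaf [1, 3, 1, 4, 1, 2, 1]),
([p 2 0, g, s 4 1, g, p 3 2, g, p 1 3, g, p 0 4, g], .leaf [5, 6, 4, 4, 0, 1, 3, 1]),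
([p 2 0, g, s 4 1, p 3 2, g, p 1 3, g, m 0 4, g], .leaf [1, 3, 1, 4, 1, 2, 1]),
([p 2 0, g, s 0 1, p 3 2, g, p 1 3, g], .inner (.lo 2) [.cyc [0, 2, 5, 3], .ref 2201 [0, 4, 1, 2, 3] [1, 1, 1, 1], .ref 2202 [0, 4, 1, 2, 3] [1, 1, 1, 1], .ref 2203 [0, 4, 1, 2, 3] [1, 1, 1, 1], .ref 2204 [0, 1, 2, 4, 3] [1, 1, 1, 1], .ref 2205 [0, 1, 2, 4, 3] [1, 1, 1, 1], .ref 2206 [0, 1, 2, 4, 3] [1, 1, 1, 1], .ref 2207 [0, 1, 2, 3, 4] [1, 1, 1, 1], .ref 2208 [0, 1, 2, 3, 4] [1, 0, 1, 1, 1], .ref 2209 [0, 1, 2, 3, 4] [1, 1, 1, 1]]),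
([p 2 0, g, s 0 1, g, s 1 0, p 3 2, g, p 4 3, g, s 0 4, g], .leaf [6, 7, 5, 1, 4, 0, 3]),
([p 2 0, g, p 0 1, g, s 1 0, p 3 2, g, p 4 3, g, s 0 4, g], .leaf [6, 7, 5, 1, 4, 0, 3]),
([p 3 0, g, m 0 1, g, s 1 2, p 4 3, g, p 0 4, g, s 2 0, g], .leaf [3, 5, 1, 2, 4, 2, 3]),
([p 1 0, g, s 3 0, p 2 1, g, p 4 2, g, s 0 3, g, s 0 4, g], .leaf [2, 6, 1, 6, 4, 0, 3]),
([p 1 0, g, s 2 0, g, p 0 1, p 3 0, g, p 0 2, g, s 0 3, g], .leaf [7, 4, 6, 4, 5]),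
([p 1 0, g, s 2 0, g, p 0 1, p 3 0, g, m 0 2, g, s 0 3, g], .leaf [2, 6, 8, 6, 1]),
([p 2 0, g, s 5 1, p 3 2, p 4 3, g, s 0 4, g, s 0 5, g, s 1 0, g], .leaf [9, 7, 8, 6, 1, 3, 4, 1]),
([p 1 0, g, s 3 0, g, p 0 1, p 2 0, g, s 0 2, g, p 0 3, g], .leaf [9, 6, 8, 6, 1]),
([p 1 0, g, s 3 0, g, p 0 1, p 2 0, g, s 0 2, g, m 0 3, g], .leaf [8, 6, 7, 4, 1]),
([p 2 0, g, s 5 1, p 3 2, p 4 3, g, s 0 4, g, s 1 0, g, s 0 5, g], .leaf [9, 7, 8, 6, 1, 3, 4, 1]),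
([p 2 0, g, s 0 1, p 3 2, p 4 3, g, s 0 4, g, s 1 0, g], .inner (.lo 2) [.ref 2121 [0, 5, 2, 3] [1, 0, 5], .ref 2211 [0, 5, 2, 3, 4] [1, 1, 0, 1, 3], .ref 2212 [0, 5, 2, 3, 4] [1, 1, 0, 1, 3], .ref 2213 [0, 5, 1, 2, 3] [1, 1, 0, 3, 1], .ref 2214 [0, 2, 3, 5, 4] [1, 0, 1, 1, 3], .ref 2215 [0, 2, 5, 4] [1, 0, 1, 1, 3], .ref 2216 [0, 2, 5, 4] [1, 0, 1, 1, 3], .ref 2217 [0, 1, 2, 3, 4, 5] [1, 1, 1, 1, 1], .ref 2218 [0, 2, 4, 5] [1, 0, 1, 1, 3], .ref 2219 [0, 2, 4, 5] [1, 0, 1, 1, 3], .cyc [2, 8], .ref 2220 [0, 1, 2, 3, 4, 5] [1, 1, 1, 1, 1], .ref 2218 [0, 2, 4, 5] [1, 0, 1, 3, 1], .ref 2219 [0, 2, 4, 5] [1, 0, 1, 3, 1]]),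
([p 1 0, g, p 2 1, g, p 3 2, g, p 4 3, g, s 0 4, g], .leaf [5, 6, 4, 4, 2, 2, 0, 1]),
([p 2 1, g, s 1 0, g, p 0 2, p 3 0, g, p 4 3, g, p 0 4, g], .leaf [2, 1, 6, 7, 6, 6, 4, 1]),
([p 1 0, g, p 2 1, g, p 3 2, g, p 4 3, g, m 0 4, g], .leaf [5, 6, 4, 4, 2, 2, 0, 1]),
([p 3 1, g, s 1 0, g, s 0 2, g, p 4 3, p 5 4, g, p 0 5, g, s 2 0, g], .inner (.lo 9) [.ref 1895 [0, 6, 3, 5] [1, 5, 1, 3], .ref 1451 [0, 6] [1, 8, 3], .ref 1452 [0, 6, 3] [1, 5, 2, 3], .cyc [0, 2, 9, 7, 6], .ref 1895 [0, 6, 3, 5] [3, 3, 1, 3], .ref 1451 [0, 6] [3, 6, 3], .ref 1452 [0, 6, 3] [3, 3, 2, 3], .ref 1895 [0, 6, 3, 5] [5, 1, 1, 3], .ref 1451 [0, 6] [5, 4, 3], .ref 1452 [0, 6, 3] [5, 1, 2, 3], .ref 1896 [0, 2, 3, 6, 5] [3, 1, 1, 1, 1, 1], .ref 1451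 [0, 6] [8, 1, 3], .ref 1897 [0, 2, 3, 6, 5] [3, 1, 1, 1, 1, 1], .ref 2222 [0, 3, 4, 5, 6] [5, 0, 1, 1, 3], .ref 2223 [0, 1, 3, 5, 6] [1, 3, 1, 1, 3], .ref 2224 [0, 3, 4, 5, 6] [5, 0, 1, 1, 3], .ref 1901 [0, 2, 3, 5, 6] [3, 1, 1, 1, 1], .ref 1902 [0, 2, 3, 5, 6] [3, 1, 1, 1, 1, 1], .ref 2223 [0, 1, 3, 5, 6] [1, 3, 1, 3, 1], .ref 2224 [0, 3, 4, 5, 6] [5, 0, 1, 3, 1]]),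
([p 2 0, g, s 0 1, p 3 2, p 4 3, g, p 0 4, g, s 1 0, g], .inner (.hi 0) [.ref 2225 [0, 5, 1, 2, 3, 4] [1, 1, 0, 1, 1, 1], .ref 1342 [0, 5] [1, 9], .ref 1343 [0, 5] [1, 9], .ref 2121 [0, 5, 2, 3] [1, 0, 5], .ref 2065 [0, 5, 2, 3, 4] [2, 0, 1, 1, 3], .ref 1342 [0, 5] [5, 5], .ref 1343 [0, 5] [5, 5], .cyc [0, 6, 4, 3], .ref 2063 [0, 5, 2, 3, 4] [2, 0, 1, 1, 3], .ref 1342 [0, 5] [7, 3], .ref 1343 [0, 5] [7, 3], .ref 2063 [0, 5, 2, 3, 4] [2, 0, 1, 3, 1], .ref 1342 [0, 5] [9, 1], .ref 1343 [0, 5] [9, 1]]),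
([p 2 0, g, s 0 1, p 3 2, g, p 4 3, g, s 1 0, g, s 0 4, g], .leaf [2, 6, 1, 6, 4, 0, 3]),
([p 2 0, g, s 0 1, p 3 2, p 0 3, g, s 1 0, g], .inner (.lo 4) [.cyc [0, 4, 3], .ref 1450 [0, 4, 2] [1, 2, 3], .ref 1451 [0, 4] [1, 3, 3], .ref 1452 [0, 4, 2] [1, 2, 0, 3], .ref 2221 [0, 1, 2, 3, 4] [1, 1, 1, 1], .ref 2226 [0, 1, 2, 3, 4] [1, 1, 1, 1], .ref 1455 [0, 1, 2, 4] [1, 0, 1, 1, 1], .ref 1456 [0, 1, 2, 4] [1, 0, 1, 1], .ref 2227 [0, 1, 2, 3, 4] [1, 0, 1, 1, 1], .ref 1458 [0, 1, 2, 4] [1, 0, 1, 1, 1], .ref 1459 [0, 1, 2, 4] [1, 0, 1, 1, 1]]),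
([p 2 0, g, p 3 0, g, s 0 1, p 4 2, g, s 0 3, g, p 0 4, g, s 1 0, g], .leaf [1, 5, 3, 4, 6, 4, 5]),
([p 2 0, g, s 3 1, p 4 2, g, s 0 3, g, p 0 4, g, s 1 0, g], .leaf [1, 3, 1, 2, 4, 2, 3]),
([p 3 1, g, m 0 2, g, s 1 0, g, p 0 3, s 2 4, g, s 4 0, g], .leaf [4, 3, 8, 1, 6, 4, 1]),
([p 3 1, g, s 1 0, g, m 0 2, g, p 0 3, s 2 4, g, s 4 0, g], .leaf [2, 1, 8, 1, 4, 2, 3]),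
([p 2 0, g, s 0 1, p 5 2, s 4 3, g, s 0 4, g, s 3 0, g, p 0 5, g, s 1 0, g], .leaf [5, 10, 7, 9, 4, 2, 4, 1]),
([p 2 1, g, s 1 0, g, p 0 2, s 4 3, g, p 0 4, g, s 3 0, g], .leaf [2, 1, 6, 1, 6, 4, 1]),
([p 2 1, g, s 1 0, g, p 0 2, s 4 3, g, m 0 4, g, s 3 0, g], .leaf [2, 1, 4, 6, 1, 4, 1]),
([p 2 0, g, s 0 1, p 5 2, s 4 3, g, s 3 0, g, s 0 4, g, p 0 5, g, s 1 0, g], .leaf [5, 10, 7, 9, 4, 2, 4, 1]),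
([p 2 1, g, s 1 0, g, p 0 2, s 4 3, g, s 3 0, g, m 0 4, g], .leaf [2, 1, 4, 6, 1, 4, 1]),
([p 1 0, g, p 3 1, s 4 2, g, s 2 0, g, p 0 3, g, s 0 4, g], .leaf [1, 3, 7, 3, 5, 0, 1]),
([p 2 0, g, s 0 1, p 3 2, s 4 0, g, p 0 3, g, s 1 4, g], .leaf [2, 7, 1, 6, 3, 0, 3])]

def d08_3 : List (List Item × Pf) := [
([p 3 1, g, s 1 0, g, s 0 2, p 5 3, s 0 4, g, s 4 0, g, p 0 5, g, s 2 0, g], .inner (.lo 6) [.ref 1427 [0, 6, 3] [1, 4, 7], .ref 1435 [0, 6, 3] [1, 4, 7], .ref 2231 [0, 1, 6, 3, 4] [1, 1, 2, 1, 5], .ref 1427 [0, 6, 3] [1, 2, 7], .ref 1427 [0, 6, 3] [3, 2, 7], .ref 1435 [0, 6, 3] [3, 2, 7], .ref 2232 [0, 1, 6, 3, 4] [1, 1, 2, 1, 5], .ref 2233 [0, 2, 3, 4, 6, 5] [3, 1, 1, 1, 1, 1], .ref 2234 [0, 1, 3, 4, 6] [1, 2, 1,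 1, 5], .ref 2235 [0, 1, 3, 4, 6] [1, 2, 1, 1, 5], .cyc [6, 8], .ref 2236 [0, 2, 3, 4, 6, 5] [3, 1, 1, 1, 1, 1], .ref 1758 [0, 1, 3, 4, 6] [1, 2, 1, 1, 5], .ref 2237 [0, 1, 3, 4, 6] [1, 2, 1, 1, 5], .ref 2238 [0, 3, 4, 5, 6] [4, 1, 1, 1, 3], .ref 1758 [0, 1, 3, 4, 6] [1, 2, 1, 3, 3], .ref 2237 [0, 1, 3, 4, 6] [1, 2, 1, 3, 3], .ref 2239 [0, 2, 3, 5, 6] [3, 3, 1, 1], .ref 2238 [0, 3, 4, 5, 6] [4, 1, 1, 3, 1], .ref 1758 [0, 1, 3, 4, 6] [1, 2, 1, 5, 1], .ref 2237 [0, 1, 3, 4, 6] [1, 2, 1, 5, 1]]),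
([p 2 1, g, p 4 2, s 0 3, g, s 1 0, g, s 3 0, g, p 0 4, g], .leaf [0, 4, 8, 5, 3, 4, 1]),
([p 2 1, g, p 4 2, s 0 3, g, s 3 0, g, s 1 0, g, p 0 4, g], .leaf [7, 6, 6, 4, 1, 5, 1]),
([p 2 1, g, p 4 2, s 0 3, g, s 3 0, g, p 0 4, g, s 1 0, g], .leaf [9, 8, 8, 6, 1, 5, 1]),
([p 2 0, g, s 0 1, p 4 2, s 0 3, g, s 3 0, g, p 0 4, g, s 1 0, g], .inner (.hi 0) [.ref 2240 [0, 5, 1, 2, 3, 4] [1, 1, 1, 1, 1, 1], .ref 1342 [0, 5] [1, 11], .ref 1343 [0, 5] [1, 11], .ref 2121 [0, 5, 2, 4] [1, 4, 3], .ref 1434 [0, 5, 2] [2, 7], .ref 2241 [0, 5, 2, 3, 4] [2, 1, 1, 1, 3], .ref 1342 [0, 5] [5, 7], .ref 1343 [0, 5] [5, 7], .ref 2242 [0, 5, 2, 3, 4] [2, 1, 1, 1, 3], .ref 1342 [0, 5] [7, 5], .ref 1343 [0, 5] [7, 5], .cyc [0, 8, 3], .ref 2243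 [0, 5, 2, 3, 4] [2, 1, 1, 1, 3], .ref 1342 [0, 5] [9, 3], .ref 1343 [0, 5] [9, 3], .ref 2243 [0, 5, 2, 3, 4] [2, 1, 1, 3, 1], .ref 1342 [0, 5] [11, 1], .ref 1343 [0, 5] [11, 1]]),
([p 2 0, g, s 0 1, g, p 4 2, s 0 3, g, p 3 0, g, p 0 4, g, s 1 0, g], .leaf [10, 8, 9, 6, 1, 5, 1]),
([p 2 0, g, s 0 1, g, s 1 0, p 4 2, g, s 0 3, g, m 3 0, g, p 0 4, g], .leaf [9, 1, 10, 6, 1, 5, 1]),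
([p 0 0, g, p 0 1, g, s 1 0, p 3 0, g, s 0 2, g, m 2 0, g, p 0 3, g], .leaf [9, 1, 10, 6, 1]),
([p 2 0, g, s 3 1, p 4 2, g, p 0 3, g, p 0 4, g, s 1 0, g], .leaf [8, 6, 7, 5, 1, 4, 1]),
([p 1 0, g, s 3 0, g, p 0 1, s 0 2, g, m 0 3, g, m 2 0, g], .leaf [2, 6, 8, 6, 1]),
([p 1 0, g, s 3 0, g, p 0 1, s 0 2, g, m 2 3, g], .leaf [2, 6, 6, 4, 1]),
([p 0 0, g, s 2 0, p 3 0, g, s 0 1, g, m 1 0, g, m 0 2, g, p 0 3, g], .leaf [7, 1, 10, 6, 3]),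
([p 2 0, g, m 0 1, g, p 4 2, s 1 3, g, m 3 0, g, p 0 4, g], .leaf [7, 1, 8, 5, 1, 4, 1]),
([p 2 1, g, s 1 0, g, p 0 2, s 4 3, g, s 0 4, g, m 3 0, g], .leaf [2, 1, 6, 1, 6, 4, 1]),
([p 2 1, g, p 0 2, s 0 3, g, s 1 0, g, m 3 0, g], .leaf [0, 4, 6, 4, 1]),
([p 2 1, g, p 4 2, s 3 0, g, s 0 3, g, s 1 0, g, p 0 4, g], .leaf [7, 6, 6, 4, 1, 5, 1]),
([p 2 1, g, p 4 2, s 3 0, g, s 0 3, g, p 0 4, g, s 1 0, g], .leaf [9, 8, 8, 6, 1, 5, 1]),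
([p 1 0, g, p 4 1, s 3 2, g, s 0 3, g, m 2 0, g, p 0 4, g], .inner (.hi 0) [.ref 2253 [0, 5, 1, 2, 3] [1, 1, 1, 1, 3], .ref 1342 [0, 5] [1, 10], .ref 1343 [0, 5] [1, 10], .ref 2254 [0, 5, 1, 2] [1, 1, 3, 3], .ref 1342 [0, 5] [4, 7], .ref 1343 [0, 5] [4, 7], .ref 1661 [0, 5, 1, 3] [1, 1, 5], .ref 2255 [0, 5, 1, 3, 4] [1, 1, 1, 3, 1], .ref 1342 [0, 5] [6, 5], .ref 1343 [0, 5] [6, 5], .ref 2255 [0, 5, 1, 3, 4] [1, 1, 3, 1, 1], .ref 1342 [0, 5] [8, 3], .ref 1343 [0, 5] [8, 3], .cyc [0, 9, 2], .ref 2256 [0, 5, 1, 3, 4] [1, 1, 3, 1, 1], .ref 1342 [0, 5] [10, 1], .ref 1343 [0, 5] [10, 1]]),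
([p 1 0, g, s 4 0, g, p 0 1, s 3 2, g, p 0 3, g, m 2 0, g, s 0 4, g], .leaf [1, 7, 1, 7, 5, 2, 5]),
([p 1 0, g, s 4 0, g, p 3 1, s 2 0, g, m 0 2, g, p 0 3, g, s 0 4, g], .leaf [10, 8, 9, 6, 1, 5, 1]),
([p 1 0, g, s 5 0, p 4 1, s 3 2, g, m 2 0, g, s 0 3, g, p 0 4, g, s 0 5, g], .leaf [6, 1, 9, 6, 8, 4, 2, 3]),
([p 1 0, g, s 4 0, g, p 0 1, s 3 2, g, m 2 0, g, p 0 3, g, s 0 4, g], .leaf [1, 7, 1, 7, 5, 2, 5]),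
([p 1 0, g, s 4 0, g, p 0 1, s 3 2, g, m 2 0, g, m 0 3, g, s 0 4, g], .leaf [10, 1, 3, 6, 7, 4, 1]),
([p 2 0, g, s 5 1, p 3 2, s 4 0, g, p 0 3, g, s 0 4, g, s 0 5, g, s 1 0, g], .leaf [11, 9, 10, 8, 3, 5, 6, 1]),
([p 1 0, g, s 4 0, p 3 1, s 5 2, g, m 2 0, g, p 0 3, g, s 0 4, g, s 0 5, g], .leaf [6, 1, 7, 4, 6, 8, 6, 1]),
([p 1 0, g, s 3 0, g, p 0 1, s 4 2, g, m 2 0, g, s 0 3, g, p 0 4, g], .leaf [1, 7, 1, 9, 7, 2, 3]),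
([p 1 0, g, s 3 0, p 2 1, g, s 4 0, g, p 0 2, g, s 0 3, g, m 0 4, g], .leaf [2, 8, 3, 8, 4, 0, 3]),
([p 2 0, g, s 5 1, p 4 2, s 0 3, g, m 3 0, g, p 0 4, g, s 0 5, g, s 1 0, g], .inner (.lo 4) [.ref 1434 [0, 6, 2] [2, 9], .ref 1427 [0, 6, 2] [1, 2, 9], .ref 1435 [0, 6, 2] [1, 2, 9], .ref 2252 [0, 6, 2, 3, 4] [1, 2, 1, 1, 5], .ref 2257 [0, 2, 3, 6, 4] [2, 1, 1, 1, 5], .ref 2258 [0, 2, 3, 6, 5] [1, 0, 1, 1, 3, 3], .ref 2259 [0, 2, 6, 4, 5] [1, 0, 1, 3, 1, 3], .cyc [4, 6], .ref 2260 [0, 2, 3, 6, 4, 5] [1, 1, 1, 1, 1, 3], .ref 2261 [0, 2, 3, 6, 5] [1, 0, 1, 1, 3, 3], .ref 2262 [0, 2, 3, 6, 5] [1, 0, 1, 1, 3, 3], .ref 2263 [0, 1, 2, 4, 6, 5] [1, 3, 1, 1, 1, 1], .ref 2261 [0, 2, 3, 6, 5] [1, 0, 1, 3, 1, 3], .ref 2262 [0, 2,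 3, 6, 5] [1, 0, 1, 3, 1, 3], .ref 2264 [0, 2, 3, 4, 5, 6] [1, 1, 1, 1, 1, 3], .ref 2265 [0, 2, 3, 5, 6] [1, 0, 1, 3, 1, 3], .ref 2266 [0, 2, 4, 5, 6] [1, 0, 3, 1, 1, 3], .ref 2264 [0, 2, 3, 4, 5, 6] [1, 1, 1, 1, 1, 1], .ref 2264 [0, 2, 3, 4, 5, 6] [1, 1, 1, 1, 3, 1], .ref 2265 [0, 2, 3, 5, 6] [1, 0, 1, 3, 3, 1], .ref 2266 [0, 2, 4, 5, 6] [1, 0, 3, 1, 3, 1]]),
([p 0 0, g, s 4 1, p 3 0, g, s 0 2, g, m 2 0, g, p 0 3, g, p 0 4, g, s 1 0, g], .leaf [7, 1, 10, 5, 3, 4, 7]),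
([p 0 0, g, s 3 0, p 2 0, g, s 0 1, g, m 1 0, g, p 0 2, g, m 0 3, g], .leaf [7, 1, 8, 4, 7]),
([p 2 0, g, s 5 1, p 3 2, s 4 0, g, p 0 3, g, s 0 4, g, s 1 0, g, s 0 5, g], .leaf [11, 9, 10, 8, 3, 5, 6, 1]),
([p 2 0, g, s 0 1, p 4 2, s 5 3, g, m 3 0, g, p 0 4, g, s 1 0, g, s 0 5, g], .leaf [6, 1, 7, 4, 6, 8, 6, 1]),
([p 2 0, g, s 5 1, p 4 2, s 0 3, g, m 3 0, g, p 0 4, g, s 1 0, g, s 0 5, g], .inner (.lo 4) [.ref 1434 [0, 6, 2] [2, 9], .ref 1427 [0, 6, 2] [1, 2, 9], .ref 1435 [0, 6, 2] [1, 2, 9], .ref 2252 [0, 6, 2, 3, 4] [1, 2, 1, 1, 5], .ref 2257 [0, 2, 3, 6, 4] [2, 1, 1, 1, 5], .ref 2258 [0, 2, 3, 6, 5] [1, 0, 1, 1, 5, 1], .ref 2259 [0, 2, 6, 4, 5] [1, 0, 1, 3, 3, 1], .cyc [4, 6], .ref 2260 [0, 2, 3, 6, 4, 5] [1, 1,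 1, 1, 3, 1], .ref 2261 [0, 2, 3, 6, 5] [1, 0, 1, 1, 5, 1], .ref 2262 [0, 2, 3, 6, 5] [1, 0, 1, 1, 5, 1], .ref 2270 [0, 1, 2, 4, 6, 5] [1, 3, 1, 1, 1, 1], .ref 2261 [0, 2, 3, 6, 5] [1, 0, 1, 3, 3, 1], .ref 2262 [0, 2, 3, 6, 5] [1, 0, 1, 3, 3, 1], .ref 2239 [0, 1, 2, 4, 6] [1, 3, 1, 3], .ref 2271 [0, 1, 2, 3, 4, 6] [1, 1, 1, 1, 1, 3], .ref 2261 [0, 2, 3, 6, 5] [1, 0, 1, 5, 1, 1], .ref 2262 [0, 2, 3, 6, 5] [1, 0, 1, 5, 1, 1], .ref 2271 [0, 1, 2, 3, 4, 6] [1, 1, 1, 1, 3, 1], .ref 2265 [0, 2, 3, 5, 6] [1, 0, 1, 5, 1, 1], .ref 2266 [0, 2, 4, 5, 6] [1, 0, 3, 3, 1, 1]]),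
([p 0 0, g, s 4 1, p 3 0, g, s 0 2, g, m 2 0, g, p 0 3, g, s 1 0, g, p 0 4, g], .leaf [7, 1, 10, 5, 10, 4, 5]),
([p 2 0, g, s 0 1, p 4 2, s 0 3, g, m 3 0, g, p 0 4, g, s 1 0, g], .inner (.lo 2) [.ref 2121 [0, 5, 2, 4] [1, 4, 3], .ref 2246 [0, 5, 2, 3, 4] [1, 1, 0, 1, 1, 3], .ref 2247 [0, 5, 3, 4] [1, 1, 0, 1, 1, 3], .ref 2213 [0, 5, 1, 2, 4] [1, 1, 4, 1, 1], .ref 2230 [0, 1, 2, 5, 4] [1, 2, 3, 1, 1], .ref 2248 [0, 1, 2, 5, 4] [1, 2, 3, 1, 1], .ref 2249 [0, 2, 3, 5] [1, 0, 1, 1, 5], .ref 2250 [0, 2, 3, 5] [1, 0, 1, 5], .ref 2230 [0, 1, 2, 5, 4] [1, 4, 1, 1, 1], .ref 2248 [0, 1, 2, 5, 4] [1, 4, 1, 1, 1], .ref 2251 [0, 3, 5, 4] [1, 0, 1, 1, 1, 3], .ref 2267 [0, 1, 2, 3, 4, 5] [1, 1, 1, 1, 1, 1], .ref 2268 [0, 1, 3, 4, 5]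 [1, 0, 1, 1, 1, 1, 1], .ref 2269 [0, 3, 4, 5] [1, 0, 1, 1, 1, 3], .cyc [2, 10], .ref 2272 [0, 1, 2, 3, 4, 5] [1, 1, 1, 1, 1, 1], .ref 2273 [0, 1, 3, 4, 5] [1, 0, 1, 1, 1, 1, 1], .ref 2269 [0, 3, 4, 5] [1, 0, 1, 1, 3, 1]]),
([p 2 0, g, s 0 1, g, p 4 2, s 0 3, g, p 3 4, g, s 1 0, g], .leaf [8, 6, 7, 4, 1, 3, 1]),
([p 1 0, g, p 4 1, s 3 2, g, s 0 3, g, p 0 4, g, s 2 0, g], .leaf [1, 3, 7, 3, 5, 0, 1]),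
([p 1 0, g, p 3 1, s 4 2, g, p 0 3, g, s 0 4, g, s 2 0, g], .leaf [1, 7, 3, 7, 3, 0, 3]),
([p 1 0, g, p 3 1, s 4 2, g, p 0 3, g, s 2 0, g, s 0 4, g], .leaf [1, 7, 3, 7, 3, 0, 3]),
([p 2 1, g, s 1 0, g, p 4 2, s 0 3, g, p 0 4, g, s 3 0, g], .inner (.lo 5) [.ref 1427 [0, 5, 2] [1, 3, 5], .ref 1435 [0, 5, 2] [1, 3, 5], .ref 2231 [0, 1, 5, 2, 3] [1, 1, 1, 3, 1], .ref 1427 [0, 5, 2] [1, 1, 5], .ref 1427 [0, 5, 2] [3, 1, 5], .ref 1435 [0, 5, 2] [3, 1, 5], .ref 2232 [0, 1, 5, 2, 3] [1, 1, 1, 3, 1], .ref 2276 [0, 2, 3, 5, 4] [3, 1, 1, 1, 1], .ref 2234 [0, 1, 2, 3, 5] [1, 1, 1, 3, 1], .ref 2235 [0, 1, 2, 3, 5] [1, 1, 1, 3, 1], .ref 2277 [0, 2, 3, 4, 5] [3, 1, 1, 1, 1], .ref 2234 [0, 1, 2, 3, 5] [1, 1, 3, 1, 1], .ref 2235 [0,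 1, 2, 3, 5] [1, 1, 3, 1, 1], .cyc [5, 9], .ref 2278 [0, 2, 3, 4, 5] [3, 1, 1, 1, 1], .ref 1758 [0, 1, 2, 3, 5] [1, 1, 3, 1, 1], .ref 2237 [0, 1, 2, 3, 5] [1, 1, 3, 1, 1]]),
([p 3 1, g, s 0 2, p 4 3, g, s 1 0, g, p 0 4, g, s 2 0, g], .leaf [5, 4, 4, 1, 4, 2, 3]),
([p 3 1, g, s 0 2, p 5 3, s 0 4, g, p 0 5, g, s 1 0, g, s 4 0, g, s 2 0, g], .leaf [8, 7, 7, 4, 6, 8, 6, 1]),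
([p 3 1, g, m 0 2, g, p 0 3, s 2 0, g, s 1 0, g], .leaf [0, 6, 4, 2, 3]),
([p 2 1, g, p 5 2, s 4 3, g, p 0 4, g, p 0 5, g, s 3 0, g, s 1 0, g], .leaf [11, 10, 4, 1, 4, 1, 6, 4, 1]),
([p 2 1, g, p 0 2, s 3 0, g, m 0 3, g, s 1 0, g], .leaf [7, 6, 6, 4, 1]),
([p 1 0, g, p 3 1, s 4 2, g, p 0 3, g, p 0 4, g, s 2 0, g], .leaf [1, 7, 3, 7, 3, 0, 3]),
([p 1 0, g, p 3 1, s 4 2, g, p 0 3, g, s 2 0, g, p 0 4, g], .leaf [1, 7, 3, 7, 3, 0, 3]),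
([p 2 1, g, p 0 2, s 3 0, g, s 1 0, g, m 0 3, g], .leaf [5, 4, 4, 2, 3]),
([p 2 1, g, p 4 2, s 0 3, g, p 0 4, g, s 3 0, g, s 1 0, g], .inner (.lo 3) [.ref 1427 [0, 5, 2] [1, 1, 7], .ref 1435 [0, 5, 2] [1, 1, 7], .ref 2282 [0, 1, 5, 2] [1, 1, 5, 1], .ref 2276 [0, 2, 3, 5, 4] [1, 1, 1, 1, 3], .ref 2283 [0, 1, 2, 3, 5, 4] [1, 1, 1, 1, 1, 1], .ref 2284 [0, 1, 2, 5] [1, 1, 5, 1], .ref 2277 [0, 2, 3, 4, 5] [1, 1, 1, 1, 3], .ref 2285 [0, 2, 3, 4, 5] [1, 1, 1, 1, 3], .ref 2284 [0, 1, 2, 5] [1, 3, 3, 1], .cyc [3, 7], .ref 2278 [0, 2, 3, 4, 5] [1, 1, 1, 1, 3], .ref 2286 [0, 2, 3, 4, 5] [1, 1, 1, 1, 3], .ref 2284 [0, 1, 2, 5] [1, 5, 1, 1], .ref 2278 [0, 2, 3, 4, 5] [1, 1, 1, 1, 1], .ref 2278 [0, 2, 3, 4, 5] [1, 1, 1, 3, 1], .ref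 2286 [0, 2, 3, 4, 5] [1, 1, 1, 3, 1], .ref 2287 [0, 1, 2, 5] [1, 5, 1, 1]]),
([p 2 0, g, s 0 1, p 4 2, s 0 3, g, p 0 4, g, s 3 0, g, s 1 0, g], .inner (.hi 0) [.ref 2279 [0, 5, 2, 3, 4] [1, 2, 1, 1, 3], .ref 1342 [0, 5] [1, 11], .ref 1343 [0, 5] [1, 11], .ref 2121 [0, 5, 2, 4] [1, 2, 5], .ref 2280 [0, 5, 1, 2, 4] [1, 0, 1, 3, 1], .ref 2280 [0, 5, 1, 2, 4] [1, 2, 1, 3, 1], .ref 1342 [0, 5] [5, 7], .ref 1343 [0, 5] [5, 7], .cyc [0, 6, 3], .ref 2281 [0, 5, 1, 2, 3, 4] [1, 1, 1, 1, 1, 1], .ref 1342 [0, 5] [7, 5], .ref 1343 [0, 5] [7, 5], .ref 2288 [0, 5, 2, 3, 4] [2, 1, 1, 1, 3], .ref 1342 [0, 5] [9, 3], .ref 1343 [0, 5] [9, 3], .ref 2288 [0, 5, 2, 3, 4] [2, 1, 1, 3, 1], .ref 1342 [0, 5] [11, 1], .ref 1343 [0, 5] [11, 1]]),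
([p 2 0, g, s 0 1, g, s 1 0, p 4 2, g, s 0 3, g, p 0 4, g, p 3 0, g], .leaf [6, 9, 7, 1, 6, 2, 5]),
([p 2 0, g, p 0 1, g, s 1 0, p 4 2, g, s 0 3, g, p 0 4, g, p 3 0, g], .leaf [6, 9, 7, 1, 6, 2, 5]),
([p 1 0, g, s 3 0, g, p 0 1, s 0 2, g, m 0 3, g, p 2 0, g], .leaf [6, 4, 5, 2, 5]),
([p 1 0, g, s 4 0, p 3 1, g, s 0 2, g, p 0 3, g, s 0 4, g, p 2 0, g], .leaf [2, 8, 3, 8, 4, 0, 3]),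
([p 1 0, g, s 3 0, g, p 0 1, s 0 2, g, p 0 3, g, p 2 0, g], .leaf [7, 4, 6, 4, 5]),
([p 1 0, g, s 3 0, g, p 0 1, s 0 2, g, p 2 3, g], .leaf [7, 4, 6, 4, 1]),
([p 2 0, g, s 5 1, p 4 2, s 0 3, g, p 0 4, g, p 3 0, g, s 0 5, g, s 1 0, g], .leaf [11, 9, 10, 8, 3, 5, 6, 1]),
([p 1 0, g, s 3 0, g, p 0 1, s 0 2, g, p 2 0, g, p 0 3, g], .leaf [9, 6, 8, 6, 1]),
([p 1 0, g, s 3 0, g, p 0 1, s 0 2, g, p 2 0, g, m 0 3, g], .leaf [8, 6, 7, 4, 1]),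
([p 2 0, g, s 5 1, p 4 2, s 0 3, g, p 0 4, g, p 3 0, g, s 1 0, g, s 0 5, g], .leaf [11, 9, 10, 8, 3, 5, 6, 1]),
([p 2 0, g, s 0 1, p 4 2, s 0 3, g, p 0 4, g, p 3 0, g, s 1 0, g], .inner (.lo 2) [.ref 2121 [0, 5, 2, 4] [1, 2, 5], .ref 2290 [0, 5, 2, 3, 4] [1, 1, 0, 1, 1, 3], .ref 2291 [0, 5, 2, 3, 4] [1, 1, 0, 1, 1, 3], .ref 2213 [0, 5, 1, 2, 4] [1, 1, 2, 3, 1], .ref 2230 [0, 1, 2, 5, 4] [1, 2, 1, 3, 1], .ref 2248 [0, 1, 2, 5, 4] [1, 2, 1, 3, 1], .ref 2292 [0, 2, 3, 5] [1, 0, 1, 3, 3], .ref 2293 [0, 2, 3, 4, 5] [1, 0, 1, 1, 1, 3], .ref 2294 [0, 2, 3, 5] [1, 0, 3, 1, 3], .ref 2292 [0, 2, 3, 5] [1, 0, 3, 1, 3], .ref 2295 [0, 2, 3, 5] [1, 0, 3, 3], .ref 2296 [0, 1, 2, 3, 4, 5] [1, 1, 1, 1, 1, 1], .ref 2297 [0, 2, 3, 5] [1,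 0, 3, 1, 3], .ref 2298 [0, 2, 3, 5] [1, 0, 3, 1, 3], .cyc [2, 10], .ref 2299 [0, 1, 2, 3, 4, 5] [1, 1, 1, 1, 1, 1], .ref 2297 [0, 2, 3, 5] [1, 0, 3, 3, 1], .ref 2298 [0, 2, 3, 5] [1, 0, 3, 3, 1]]),
([p 3 0, g, m 0 1, g, s 0 2, p 4 3, g, s 1 0, g, p 0 4, g, s 2 0, g], .leaf [1, 5, 3, 4, 6, 4, 5]),
([p 1 0, g, p 4 1, s 3 2, g, s 0 3, g, p 0 4, g, m 2 0, g], .inner (.hi 0) [.ref 2253 [0, 5, 1, 2, 3] [1, 1, 1, 3, 1], .ref 1342 [0, 5] [1, 10], .ref 1343 [0, 5] [1, 10], .ref 2254 [0, 5, 1, 2] [1, 1, 5, 1], .ref 1342 [0, 5] [4, 7], .ref 1343 [0, 5] [4, 7], .ref 1661 [0, 5, 1, 3] [1, 1, 5], .ref 2255 [0, 5, 1, 3, 4] [1, 1, 1, 1, 3], .ref 1342 [0, 5] [6, 5], .ref 1343 [0, 5] [6, 5], .cyc [0, 7, 2], .ref 2256 [0, 5, 1, 3, 4] [1,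 1, 1, 1, 3], .ref 1342 [0, 5] [8, 3], .ref 1343 [0, 5] [8, 3], .ref 2256 [0, 5, 1, 3, 4] [1, 1, 1, 3, 1], .ref 1342 [0, 5] [10, 1], .ref 1343 [0, 5] [10, 1]]),
([p 2 0, g, s 0 1, g, p 0 2, s 4 3, g, p 0 4, g, m 3 0, g, s 1 0, g], .leaf [1, 7, 1, 7, 5, 2, 5])]

def D08 : List (List (List Item × Pf)) := [d08_0, d08_1, d08_2, d08_3]

end Pool.Agent.H63.PU.C138
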