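import Pool.Agent.H63.PU.Short

/-! Certificate data, machine generated. -/

namespace Pool.Agent.H63.PU.C138

open Pool.Agent.H63.PU Pool.Agent.H63.PU.Short

set_option maxRecDepth 20000

def d09_0 : List (List Item × Pf) := [
([p 2 0, g, s 0 1, g, p 4 2, s 3 0, g, m 0 3, g, p 0 4, g, s 1 0, g], .leaf [10, 8, 9, 6, 1, 5, 1]),
([p 1 0, g, p 3 1, s 4 2, g, p 0 3, g, s 0 4, g, m 2 0, g], .leaf [1, 7, 3, 7, 3, 0, 3]),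
([p 1 0, g, p 3 1, s 4 2, g, p 0 3, g, m 0 4, g, m 2 0, g], .leaf [1, 7, 0, 3, 7, 3, 0, 3]),
([p 1 0, g, p 3 1, s 4 2, g, p 0 3, g, m 2 0, g, s 0 4, g], .leaf [1, 7, 3, 7, 3, 0, 3]),
([p 2 0, g, s 0 1, g, p 0 2, s 4 3, g, m 3 0, g, m 0 4, g, s 1 0, g], .leaf [10, 1, 3, 6, 7, 4, 1]),
([p 2 0, g, s 0 1, p 3 2, g, s 4 0, g, p 0 3, g, s 1 0, g, m 0 4, g], .leaf [2, 8, 3, 8, 4, 0, 3]),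
([p 2 0, g, s 0 1, p 4 2, s 0 3, g, p 0 4, g, m 3 0, g, s 1 0, g], .inner (.lo 4) [.ref 2280 [0, 5, 1, 2, 4] [1, 0, 1, 3, 1], .ref 1427 [0, 5, 2] [1, 2, 7], .ref 1435 [0, 5, 2] [1, 2, 7], .ref 2301 [0, 5, 1, 2, 4] [1, 1, 0, 1, 3, 1], .ref 2302 [0, 2, 3, 5, 4] [2, 1, 1, 1, 3], .ref 2303 [0, 1, 2, 3, 5] [1, 0, 1, 3, 1, 1], .ref 2304 [0, 1, 2, 5, 4] [1, 0, 1, 1, 3, 1], .ref 2305 [0, 2, 3, 4, 5] [2, 1, 1, 1, 3], .ref 2303 [0, 1, 2, 3, 5] [1, 0, 3, 1, 1, 1], .ref 2306 [0, 2, 3, 4, 5] [2, 1, 1, 1, 3], .cyc [4, 8], .ref 2307 [0, 2, 3, 4, 5] [2, 1, 1, 1, 3], .ref 2048 [0, 2, 3, 4, 5] [2, 0, 1, 1, 1, 3], .ref 2308 [0, 1, 2, 3, 5] [1, 0, 3, 1, 1, 1], .ref 2239 [0, 1, 2, 4, 5] [1, 1, 3, 1], .ref 2307 [0, 2, 3, 4, 5] [2, 1, 1, 3,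 1], .ref 2048 [0, 2, 3, 4, 5] [2, 0, 1, 1, 3, 1], .ref 2309 [0, 1, 2, 4, 5] [1, 0, 1, 3, 1, 1]]),
([p 2 0, g, s 0 1, p 5 2, s 4 3, g, p 0 4, g, p 0 5, g, s 1 0, g, s 3 0, g], .leaf [6, 1, 7, 4, 6, 8, 6, 1]),
([p 2 0, g, s 0 1, p 4 2, s 5 3, g, p 0 4, g, m 0 5, g, s 1 0, g, s 3 0, g], .leaf [2, 9, 1, 3, 9, 5, 0, 5]),
([p 2 0, g, s 0 1, p 4 2, s 0 3, g, p 0 4, g, s 1 0, g, s 3 0, g], .inner (.lo 4) [.ref 2280 [0, 5, 1, 2, 4] [1, 0, 1, 1, 3], .ref 1427 [0, 5, 2] [1, 2, 7], .ref 1435 [0, 5, 2] [1, 2, 7], .ref 2301 [0, 5, 1, 2, 4] [1, 1, 0, 1, 1, 3], .ref 2276 [0, 2, 3, 5, 4] [2, 1, 1, 3, 1], .ref 2311 [0, 1, 2, 3, 5, 4] [1, 1, 1, 1, 1, 1], .ref 2304 [0, 1, 2, 5, 4] [1, 0, 1, 1, 1, 3], .ref 2277 [0, 2, 3, 4, 5] [2, 1, 1, 3,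 1], .ref 2285 [0, 2, 3, 4, 5] [2, 1, 1, 3, 1], .ref 2312 [0, 1, 2, 3, 4, 5] [1, 1, 1, 1, 1, 1], .ref 2239 [0, 1, 2, 4, 5] [1, 1, 1, 3], .ref 2277 [0, 2, 3, 4, 5] [2, 1, 3, 1, 1], .ref 2285 [0, 2, 3, 4, 5] [2, 1, 3, 1, 1], .ref 2309 [0, 1, 2, 4, 5] [1, 0, 1, 1, 1, 3], .cyc [4, 10], .ref 2278 [0, 2, 3, 4, 5] [2, 1, 3, 1, 1], .ref 2286 [0, 2, 3, 4, 5] [2, 1, 3, 1, 1], .ref 2309 [0, 1, 2, 4, 5] [1, 0, 1, 1, 3, 1]]),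
([p 2 0, g, s 0 1, p 4 2, g, s 0 3, g, p 0 4, g, s 1 0, g, p 3 0, g], .leaf [2, 8, 3, 8, 4, 0, 3]),
([p 2 0, g, s 0 1, p 4 2, s 0 3, g, p 0 4, g, s 1 0, g, m 3 0, g], .leaf [2, 7, 1, 8, 5, 0, 5]),
([p 2 0, g, s 0 1, p 3 2, s 0 0, g, p 0 3, g, s 1 0, g], .inner (.hi 4) [.ref 1428 [0, 2, 4] [1, 2, 5], .ref 2229 [0, 1, 2, 4, 3] [1, 1, 0, 1, 1, 1], .ref 1430 [0, 2, 4] [1, 2, 5], .ref 2230 [0, 1, 2, 4, 3] [1, 0, 1, 1, 1], .cyc [4], .ref 2244 [0, 1, 2, 4, 3] [1, 1, 1, 1, 1], .ref 2245 [0, 1, 2, 4, 3] [1, 0, 1, 1, 1, 1], .ref 2274 [0, 1, 2, 4, 3] [1, 1, 1, 1, 1], .ref 2275 [0, 1, 2, 4, 3] [1, 0, 1, 1, 1], .ref 2289 [0, 1, 2, 4, 3] [1, 1, 1, 1, 1], .ref 2300 [0, 1, 2, 4, 3] [1, 1, 1, 1, 1], .ref 2310 [0, 1, 2, 4, 3] [1, 1, 1,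 1, 1], .ref 2313 [0, 1, 2, 4, 3] [1, 1, 1, 1, 1], .ref 2314 [0, 1, 2, 4, 3] [1, 0, 1, 1, 1, 1], .ref 2315 [0, 1, 2, 4, 3] [1, 1, 1, 1, 1]]),
([p 2 0, g, s 0 1, g, p 4 2, p 3 0, g, s 0 3, g, p 0 4, g, s 1 0, g], .leaf [10, 8, 9, 6, 1, 5, 1]),
([p 2 1, g, s 1 0, g, p 4 2, p 3 0, g, p 0 3, g, p 0 4, g], .leaf [2, 1, 4, 7, 5, 3, 4, 1]),
([p 2 1, g, p 4 2, p 3 0, g, p 0 3, g, p 0 4, g, s 1 0, g], .leaf [1, 3, 8, 5, 1, 5, 0, 1]),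
([p 2 0, g, s 0 1, p 4 2, p 3 0, g, p 0 3, g, p 0 4, g, s 1 0, g], .inner (.hi 0) [.ref 2318 [0, 5, 2, 3, 4] [1, 2, 1, 1, 3], .ref 1342 [0, 5] [1, 11], .ref 1343 [0, 5] [1, 11], .ref 2121 [0, 5, 2, 4] [1, 4, 3], .ref 2280 [0, 5, 1, 2, 4] [1, 2, 3, 1, 1], .ref 1342 [0, 5] [5, 7], .ref 1343 [0, 5] [5, 7], .ref 1342 [0, 5] [5, 5], .ref 2280 [0, 5, 1, 2, 4] [1, 4, 1, 1, 1], .ref 1342 [0, 5] [7, 5], .ref 1343 [0, 5] [7, 5], .cyc [0, 8, 3], .ref 2319 [0, 5, 2, 3, 4] [2, 1, 1, 1, 3], .ref 1342 [0, 5] [9, 3], .ref 1343 [0, 5] [9, 3], .ref 2319 [0, 5, 2, 3, 4] [2, 1, 1, 3, 1], .ref 1342 [0, 5] [11, 1], .ref 1343 [0, 5] [11, 1]]),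
([p 2 0, g, s 0 1, g, s 1 0, p 3 2, g, p 4 0, g, p 0 3, g, s 0 4, g], .leaf [6, 9, 7, 1, 6, 2, 5]),
([p 2 0, g, p 0 1, g, s 1 0, p 3 2, g, p 4 0, g, p 0 3, g, s 0 4, g], .leaf [6, 9, 7, 1, 6, 2, 5]),
([p 1 0, g, s 3 0, p 2 1, g, p 4 0, g, p 0 2, g, s 0 3, g, s 0 4, g], .leaf [2, 8, 3, 8, 4, 0, 3]),
([p 2 0, g, s 5 1, p 3 2, p 4 0, g, p 0 3, g, s 0 4, g, s 0 5, g, s 1 0, g], .leaf [11, 9, 10, 8, 3, 5, 6, 1]),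
([p 2 0, g, s 5 1, p 3 2, p 4 0, g, p 0 3, g, s 0 4, g, s 1 0, g, s 0 5, g], .leaf [11, 9, 10, 8, 3, 5, 6, 1]),
([p 2 0, g, s 0 1, p 3 2, p 4 0, g, p 0 3, g, s 0 4, g, s 1 0, g], .inner (.lo 2) [.ref 2121 [0, 5, 2, 3] [1, 2, 5], .ref 2321 [0, 5, 2, 3, 4] [1, 1, 0, 1, 1, 3], .ref 2322 [0, 5, 2, 3, 4] [1, 1, 0, 1, 1, 3], .ref 2213 [0, 5, 1, 2, 3] [1, 1, 2, 3, 1], .ref 2248 [0, 1, 2, 5, 3] [1, 0, 1, 3, 1], .ref 2230 [0, 1, 2, 5, 3] [1, 2, 1, 3, 1], .ref 2248 [0, 1, 2, 5, 3] [1, 2, 1, 3, 1], .ref 2216 [0, 2, 5, 4] [1, 0, 1, 3, 3], .ref 2323 [0, 2, 3, 5, 4] [1, 0, 1, 1, 1, 3], .ref 2215 [0, 2, 5, 4] [1, 0, 3, 1, 3], .ref 2216 [0, 2, 5, 4] [1, 0, 3, 1, 3], .ref 2324 [0, 1, 2, 3, 4, 5] [1, 1, 1, 1, 1, 1], .ref 2218 [0, 2, 4,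 5] [1, 0, 3, 1, 3], .ref 2219 [0, 2, 4, 5] [1, 0, 3, 1, 3], .cyc [2, 10], .ref 2325 [0, 1, 2, 3, 4, 5] [1, 1, 1, 1, 1, 1], .ref 2218 [0, 2, 4, 5] [1, 0, 3, 3, 1], .ref 2219 [0, 2, 4, 5] [1, 0, 3, 3, 1]]),
([p 3 0, g, s 0 1, g, s 1 2, p 4 3, g, p 0 4, g, s 2 0, g], .leaf [3, 5, 1, 2, 4, 2, 3]),
([p 2 0, g, p 0 1, g, s 1 0, p 3 2, g, p 4 0, g, p 0 3, g, p 0 4, g], .leaf [7, 11, 10, 8, 6, 1, 5, 1]),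
([p 1 0, g, s 2 0, g, p 0 1, p 3 0, g, m 0 2, g, p 0 3, g], .leaf [2, 6, 8, 6, 1]),
([p 2 0, g, s 3 1, g, p 0 2, p 4 0, g, p 0 3, g, p 0 4, g, s 1 0, g], .leaf [1, 7, 4, 9, 4, 6, 3]),
([p 2 0, g, s 5 1, p 3 2, p 4 0, g, p 0 3, g, p 0 4, g, s 0 5, g, s 1 0, g], .leaf [4, 10, 7, 3, 6, 8, 6, 4, 1]),
([p 1 0, g, s 4 0, g, p 2 1, g, p 3 0, g, p 0 2, g, p 0 3, g, p 0 4, g], .leaf [12, 9, 11, 9, 9, 5, 7, 5]),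
([p 1 0, g, s 4 0, g, p 2 1, g, p 3 0, g, p 0 2, g, p 0 3, g, m 0 4, g], .leaf [11, 9, 10, 7, 7, 3, 5, 3]),
([p 2 0, g, s 5 1, p 3 2, p 4 0, g, p 0 3, g, p 0 4, g, s 1 0, g, s 0 5, g], .leaf [4, 10, 7, 3, 6, 8, 6, 4, 1]),
([p 2 0, g, s 0 1, p 3 2, p 4 0, g, p 0 3, g, p 0 4, g, s 1 0, g], .inner (.lo 2) [.ref 2121 [0, 5, 2, 3] [1, 2, 5], .ref 2327 [0, 5, 1, 2, 3] [1, 1, 2, 3, 1], .ref 2328 [0, 5, 2, 3, 4] [1, 1, 0, 1, 1, 3], .ref 2213 [0, 5, 1, 2, 3] [1, 1, 2, 3, 1], .ref 2248 [0, 1, 2, 5, 3] [1, 0, 1, 3, 1], .ref 2230 [0, 1, 2, 5, 3] [1, 2, 1, 3, 1], .ref 2248 [0, 1, 2, 5, 3] [1, 2, 1, 3, 1], .ref 2329 [0, 2, 5, 4] [1, 0, 1, 3, 3], .ref 1910 [0, 2, 5, 4] [1, 0, 3, 1, 3], .ref 2330 [0, 1, 2, 5, 4] [1, 0, 3, 1, 1, 1], .ref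 2329 [0, 2, 5, 4] [1, 0, 3, 1, 3], .ref 2331 [0, 1, 2, 3, 4, 5] [1, 1, 1, 1, 1, 1], .ref 2332 [0, 2, 3, 4, 5] [1, 0, 0, 1, 1, 1, 3], .ref 2333 [0, 2, 3, 4, 5] [1, 0, 0, 1, 1, 1, 3], .cyc [2, 10], .ref 2334 [0, 1, 2, 3, 4, 5] [1, 1, 1, 1, 1, 1], .ref 2332 [0, 2, 3, 4, 5] [1, 0, 0, 1, 1, 3, 1], .ref 2333 [0, 2, 3, 4, 5] [1, 0, 0, 1, 1, 3, 1]]),
([p 2 0, g, s 0 1, p 3 2, g, p 4 0, g, p 0 3, g, s 1 0, g, s 0 4, g], .leaf [2, 8, 3, 8, 4, 0, 3]),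
([p 2 0, g, s 0 1, p 3 2, p 0 0, g, p 0 3, g, s 1 0, g], .inner (.lo 4) [.ref 1342 [0, 4] [3, 5], .ref 1450 [0, 4, 2] [1, 2, 5], .ref 1451 [0, 4] [1, 3, 5], .ref 1452 [0, 4, 2] [1, 2, 0, 5], .cyc [4], .ref 2317 [0, 1, 2, 4, 3] [1, 0, 1, 1, 1, 1], .ref 2320 [0, 1, 2, 4, 3] [1, 1, 1, 1, 1], .ref 1455 [0, 1, 2, 4] [1, 0, 1, 3, 1], .ref 2326 [0, 1, 2, 3, 4] [1, 1, 1, 1, 1], .ref 2335 [0, 1, 2, 3, 4] [1, 1, 1, 1, 1], .ref 1455 [0, 1, 2, 4] [1, 0, 3, 1, 1], .ref 1456 [0, 1, 2, 4] [1, 0, 3, 1], .ref 2336 [0, 1, 2, 3, 4] [1, 0, 1, 1, 1, 1], .ref 1458 [0, 1, 2, 4] [1, 0, 3, 1, 1], .ref 1459 [0, 1, 2, 4] [1, 0, 3, 1, 1]]),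
([p 2 0, g, s 0 1, g, p 4 2, m 0 3, g, s 3 0, g, p 0 4, g, s 1 0, g], .leaf [10, 8, 9, 6, 1, 5, 1]),
([p 2 1, g, s 1 0, g, p 4 2, m 0 3, g, m 3 0, g, p 0 4, g], .leaf [2, 1, 4, 7, 5, 3, 4, 1]),
([p 2 1, g, p 4 2, m 0 3, g, m 3 0, g, p 0 4, g, s 1 0, g], .leaf [1, 3, 8, 5, 1, 5, 0, 1]),
([p 2 0, g, s 0 1, p 4 2, m 0 3, g, m 3 0, g, p 0 4, g, s 1 0, g], .inner (.hi 0) [.ref 2339 [0, 5, 2, 3, 4] [1, 2, 1, 1, 3], .ref 1342 [0, 5] [1, 11], .ref 1343 [0, 5] [1, 11], .ref 2121 [0, 5, 2, 4] [1, 4, 3], .ref 1343 [0, 5] [3, 7], .ref 2280 [0, 5, 1, 2, 4] [1, 2, 3, 1, 1], .ref 1342 [0, 5] [5, 7], .ref 1343 [0, 5] [5, 7], .ref 2280 [0, 5, 1, 2, 4] [1, 4, 1, 1, 1], .ref 1342 [0, 5] [7, 5], .ref 1343 [0, 5] [7, 5], .cyc [0, 8, 3], .ref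 2340 [0, 5, 2, 3, 4] [2, 1, 1, 1, 3], .ref 1342 [0, 5] [9, 3], .ref 1343 [0, 5] [9, 3], .ref 2340 [0, 5, 2, 3, 4] [2, 1, 1, 3, 1], .ref 1342 [0, 5] [11, 1], .ref 1343 [0, 5] [11, 1]]),
([p 2 0, g, p 0 1, g, s 1 0, p 4 2, g, m 0 3, g, p 0 4, g, s 3 0, g], .leaf [6, 9, 7, 1, 6, 2, 5]),
([p 1 0, g, s 3 0, g, p 0 1, m 0 2, g, m 0 3, g, s 2 0, g], .leaf [2, 6, 8, 6, 1]),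
([p 1 0, g, s 4 0, p 3 1, g, m 0 2, g, p 0 3, g, s 0 4, g, s 2 0, g], .leaf [2, 8, 3, 8, 4, 0, 3]),
([p 1 0, g, s 3 0, g, p 0 1, m 0 2, g, p 0 3, g, s 2 0, g], .leaf [7, 4, 6, 4, 5]),
([p 1 0, g, s 3 0, g, p 0 1, m 0 2, g, s 2 3, g], .leaf [2, 6, 6, 4, 1]),
([p 2 0, g, s 5 1, p 4 2, m 0 3, g, p 0 4, g, s 3 0, g, s 0 5, g, s 1 0, g], .leaf [11, 9, 10, 8, 3, 5, 6, 1]),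
([p 1 0, g, s 3 0, g, p 0 1, m 0 2, g, s 2 0, g, p 0 3, g], .leaf [9, 6, 8, 6, 1]),
([p 1 0, g, s 3 0, g, p 0 1, m 0 2, g, s 2 0, g, m 0 3, g], .leaf [8, 6, 7, 4, 1]),
([p 2 0, g, s 5 1, p 4 2, m 0 3, g, p 0 4, g, s 3 0, g, s 1 0, g, s 0 5, g], .leaf [11, 9, 10, 8, 3, 5, 6, 1]),
([p 2 0, g, s 0 1, p 4 2, m 0 3, g, p 0 4, g, s 3 0, g, s 1 0, g], .inner (.lo 2) [.ref 2121 [0, 5, 2, 4] [1, 2, 5], .ref 2175 [0, 5, 2, 3, 4] [1, 1, 0, 1, 1, 3], .ref 2342 [0, 5, 2, 3, 4] [1, 1, 0, 1, 1, 3], .ref 2213 [0, 5, 1, 2, 4] [1, 1, 2, 3, 1], .ref 2230 [0, 1, 2, 5, 4] [1, 2, 1, 3, 1], .ref 2248 [0, 1, 2, 5, 4] [1, 2, 1, 3, 1], .ref 2343 [0, 2, 3, 5] [1, 0, 1, 3, 3], .ref 2344 [0, 2, 3, 4, 5] [1, 0, 1, 1, 1, 3], .ref 2345 [0, 2, 3, 5]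 [1, 0, 3, 1, 3], .ref 2343 [0, 2, 3, 5] [1, 0, 3, 1, 3], .ref 2346 [0, 2, 3, 5] [1, 0, 3, 3], .ref 2347 [0, 1, 2, 3, 4, 5] [1, 1, 1, 1, 1, 1], .ref 2348 [0, 2, 3, 5] [1, 0, 3, 1, 3], .ref 2349 [0, 2, 3, 5] [1, 0, 3, 1, 3], .cyc [2, 10], .ref 2350 [0, 1, 2, 3, 4, 5] [1, 1, 1, 1, 1, 1], .ref 2348 [0, 2, 3, 5] [1, 0, 3, 3, 1], .ref 2349 [0, 2, 3, 5] [1, 0, 3, 3, 1]]),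
([p 2 0, g, p 0 1, g, s 1 0, p 4 2, g, m 0 3, g, p 0 4, g, m 3 0, g], .leaf [7, 11, 10, 8, 6, 1, 5, 1]),
([p 1 0, g, s 3 0, g, p 0 1, m 0 2, g, m 0 3, g, m 2 0, g], .leaf [2, 6, 8, 6, 1]),
([p 2 0, g, s 4 1, g, p 0 2, m 0 3, g, p 0 4, g, m 3 0, g, s 1 0, g], .leaf [1, 7, 4, 9, 4, 6, 3]),
([p 2 0, g, s 5 1, p 4 2, m 0 3, g, p 0 4, g, m 3 0, g, s 0 5, g, s 1 0, g], .leaf [4, 10, 7, 3, 6, 8, 6, 4, 1]),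
([p 1 0, g, s 4 0, g, p 3 1, g, m 0 2, g, p 0 3, g, m 2 0, g, p 0 4, g], .leaf [12, 9, 11, 9, 9, 5, 7, 5]),
([p 1 0, g, s 4 0, g, p 3 1, g, m 0 2, g, p 0 3, g, m 2 0, g, m 0 4, g], .leaf [11, 9, 10, 7, 7, 3, 5, 3]),
([p 2 0, g, s 5 1, p 4 2, m 0 3, g, p 0 4, g, m 3 0, g, s 1 0, g, s 0 5, g], .leaf [4, 10, 7, 3, 6, 8, 6, 4, 1]),
([p 2 0, g, s 0 1, p 4 2, m 0 3, g, p 0 4, g, m 3 0, g, s 1 0, g], .inner (.lo 2) [.ref 2121 [0, 5, 2, 4] [1, 2, 5], .ref 2327 [0, 5, 1, 2, 4] [1, 1, 2, 3, 1], .ref 2352 [0, 5, 2, 3, 4] [1, 1, 0, 1, 1, 3], .ref 2213 [0, 5, 1, 2, 4] [1, 1, 2, 3, 1], .ref 2230 [0, 1, 2, 5, 4] [1, 2, 1, 3, 1], .ref 2248 [0, 1, 2, 5, 4] [1, 2, 1, 3, 1], .ref 2353 [0, 2, 3, 5] [1, 0, 1, 3, 3], .ref 1951 [0, 2, 3, 5]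 [1, 0, 3, 1, 3], .ref 2354 [0, 1, 2, 3, 5] [1, 0, 3, 1, 1, 1], .ref 2353 [0, 2, 3, 5] [1, 0, 3, 1, 3], .ref 1938 [0, 2, 3, 5] [1, 0, 3, 3], .ref 2355 [0, 1, 2, 3, 4, 5] [1, 1, 1, 1, 1, 1], .ref 2356 [0, 2, 3, 4, 5] [1, 0, 0, 1, 1, 1, 3], .ref 2357 [0, 2, 3, 4, 5] [1, 0, 0, 1, 1, 1, 3], .cyc [2, 10], .ref 2358 [0, 1, 2, 3, 4, 5] [1, 1, 1, 1, 1, 1], .ref 2356 [0, 2, 3, 4, 5] [1, 0, 0, 1, 1, 3, 1], .ref 2357 [0, 2, 3, 4, 5] [1, 0, 0, 1, 1, 3, 1]]),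
([p 2 0, g, s 0 1, p 4 2, g, m 0 3, g, p 0 4, g, s 1 0, g, s 3 0, g], .leaf [2, 8, 3, 8, 4, 0, 3]),
([p 2 0, g, s 0 1, p 3 2, m 0 0, g, p 0 3, g, s 1 0, g], .inner (.hi 4) [.ref 1461 [0, 2, 4] [1, 2, 5], .ref 1462 [0, 2, 4] [1, 2, 0, 5], .ref 1463 [0, 4] [1, 3, 5], .ref 1461 [0, 2, 4] [1, 0, 5], .cyc [4], .ref 2338 [0, 1, 2, 4, 3] [1, 0, 1, 1, 1, 1], .ref 1465 [0, 1, 2, 4] [1, 0, 1, 3, 1], .ref 2341 [0, 1, 2, 4, 3] [1, 1, 1, 1, 1], .ref 1465 [0, 1, 2, 4] [1, 0, 1, 1, 1], .ref 2351 [0, 1, 2, 4, 3] [1, 1, 1, 1, 1], .ref 1465 [0, 1, 2, 4] [1, 0, 3, 1, 1], .ref 2359 [0, 1, 2, 4, 3] [1, 1, 1, 1, 1], .ref 2360 [0, 1, 2, 4, 3] [1, 0, 1, 1, 1, 1], .ref 1468 [0, 1, 2, 4] [1, 0, 3, 1, 1], .ref 1469 [0, 1, 2, 4] [1, 0, 3, 1, 1]]),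
([p 2 0, g, s 0 1, p 3 2, g, p 0 3, g, s 1 0, g], .inner (.top 4) [.ref 2228 [0, 1, 2, 3] [1, 1, 1], .ref 2316 [0, 1, 2, 3] [1, 1, 1, 1], .ref 2337 [0, 1, 2, 3] [1, 1, 1, 1], .ref 2361 [0, 1, 2, 3] [1, 1, 1, 1]]),
([p 3 0, g, s 0 1, g, s 1 2, p 4 3, g, p 0 4, g, p 2 0, g], .leaf [3, 5, 1, 2, 4, 2, 3]),
([p 3 0, g, p 0 1, g, s 1 2, p 4 3, g, p 0 4, g, p 2 0, g], .leaf [3, 1, 4, 1, 2, 4, 2, 3]),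
([p 3 0, g, m 0 1, g, s 1 2, p 4 3, g, p 0 4, g, p 2 0, g], .leaf [3, 5, 1, 2, 4, 2, 3]),
([p 2 0, g, s 3 1, p 4 2, g, s 0 3, g, p 0 4, g, p 1 0, g], .leaf [1, 3, 1, 2, 4, 2, 3]),
([p 2 0, g, s 3 1, p 4 2, g, p 0 3, g, p 0 4, g, p 1 0, g], .leaf [8, 6, 7, 5, 1, 4, 1])]

def d09_1 : List (List Item × Pf) := [
([p 2 0, g, s 3 1, p 4 2, g, m 0 3, g, p 0 4, g, p 1 0, g], .leaf [1, 3, 1, 2, 4, 2, 3]),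
([p 0 0, g, s 0 1, g, s 0 2, p 3 0, g, p 1 3, g, p 2 0, g], .leaf [2, 6, 6, 4, 5]),
([p 2 0, g, s 5 1, p 4 2, g, s 0 3, g, p 3 4, g, s 0 5, g, p 1 0, g], .leaf [4, 7, 5, 8, 1, 6, 4, 2, 1]),
([p 2 0, g, s 5 1, p 3 2, g, p 4 3, g, s 0 4, g, s 0 5, g, p 1 0, g], .leaf [1, 3, 1, 8, 5, 1, 3, 4, 1]),
([p 2 0, g, s 0 1, g, p 3 2, g, p 4 3, g, p 0 4, g, p 1 0, g], .leaf [9, 7, 8, 5, 5, 3, 3, 1]),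
([p 2 0, g, s 0 1, g, p 3 2, g, p 4 3, g, p 1 4, g], .leaf [1, 4, 2, 5, 5, 3, 3, 1]),
([p 2 0, g, s 0 1, g, p 3 2, g, p 4 3, g, p 1 0, g, p 0 4, g], .leaf [1, 4, 2, 5, 7, 5, 5, 3]),
([p 2 0, g, s 4 1, p 3 2, g, p 0 3, g, s 0 4, g, p 1 0, g], .inner (.lo 5) [.cyc [0, 5, 3], .ref 2369 [0, 5, 1, 3] [1, 1, 1, 3, 1], .ref 1451 [0, 5] [1, 4, 5], .ref 1452 [0, 5, 2] [1, 2, 1, 5], .ref 2370 [0, 1, 2, 5, 3, 4] [1, 1, 1, 1, 1, 1], .ref 1451 [0, 5] [4, 1, 5], .ref 2008 [0, 2, 5, 3] [2, 1, 1, 5], .ref 2371 [0, 1, 2, 3, 5, 4] [1, 1, 1, 1, 1, 1], .ref 2372 [0, 1, 2, 3, 5] [1, 0, 1, 1, 3, 1], .ref 2021 [0, 2, 3, 5] [2, 1, 1, 5], .ref 2214 [0, 2, 3, 4, 5] [1, 1, 1, 1, 3], .ref 2372 [0, 1, 2, 3, 5] [1, 0, 1, 3, 1, 1], .ref 2021 [0, 2,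 3, 5] [2, 1, 3, 3], .ref 2373 [0, 1, 2, 3, 5] [1, 0, 1, 3, 1], .ref 2214 [0, 2, 3, 4, 5] [1, 1, 1, 3, 1], .ref 2374 [0, 1, 2, 3, 5] [1, 0, 1, 3, 1, 1], .ref 2021 [0, 2, 3, 5] [2, 1, 5, 1]]),
([p 2 0, g, s 4 1, g, p 3 2, g, p 0 3, g, p 0 4, g, p 1 0, g], .leaf [1, 8, 5, 1, 4, 5, 3, 1]),
([p 2 0, g, s 4 1, p 3 2, g, p 0 3, g, m 0 4, g, p 1 0, g], .leaf [3, 5, 4, 7, 1, 5, 3, 1]),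
([p 2 0, g, s 5 1, p 4 2, g, s 0 3, g, p 3 4, g, p 1 0, g, s 0 5, g], .leaf [4, 7, 5, 8, 1, 6, 4, 2, 1]),
([p 2 0, g, s 5 1, p 3 2, g, p 4 3, g, s 0 4, g, p 1 0, g, s 0 5, g], .leaf [4, 5, 3, 8, 1, 6, 2, 0, 1]),
([p 2 0, g, s 0 1, p 3 2, g, p 4 3, g, p 1 0, g, s 0 4, g], .leaf [2, 6, 1, 6, 4, 0, 3]),
([p 2 0, g, s 4 1, p 3 2, g, p 0 3, g, p 1 0, g, s 0 4, g], .inner (.lo 5) [.cyc [0, 5, 3], .ref 2369 [0, 5, 1, 3] [1, 1, 1, 1, 3], .ref 1451 [0, 5] [1, 4, 5], .ref 1452 [0, 5, 2] [1, 2, 1, 5], .ref 2378 [0, 1, 2, 5, 3, 4] [1, 1, 1, 1, 1, 1], .ref 1451 [0, 5] [4, 1, 5], .ref 2008 [0, 2, 5, 3] [2, 1, 1, 5], .ref 2379 [0, 1, 2, 3, 5, 4] [1, 1, 1, 1, 1, 1], .ref 2372 [0, 1, 2, 3, 5] [1, 0, 1, 1, 1, 3], .ref 2021 [0, 2, 3, 5]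 [2, 1, 1, 5], .ref 2373 [0, 1, 2, 3, 5] [1, 0, 1, 1, 3], .ref 2380 [0, 1, 2, 3, 5] [1, 1, 1, 1, 3], .ref 2374 [0, 1, 2, 3, 5] [1, 0, 1, 1, 1, 3], .ref 2021 [0, 2, 3, 5] [2, 1, 3, 3], .ref 2380 [0, 1, 2, 3, 5] [1, 1, 1, 3, 1], .ref 2374 [0, 1, 2, 3, 5] [1, 0, 1, 1, 3, 1], .ref 2021 [0, 2, 3, 5] [2, 1, 5, 1]]),
([p 2 0, g, s 4 1, p 3 2, g, p 0 3, g, p 1 0, g, p 0 4, g], .leaf [6, 4, 5, 3, 4, 5, 4, 1]),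
([p 2 0, g, s 4 1, p 3 2, g, p 0 3, g, p 1 0, g, m 0 4, g], .leaf [3, 5, 4, 7, 1, 5, 3, 1]),
([p 2 0, g, s 0 1, p 3 2, g, p 0 3, g, p 1 0, g], .inner (.lo 2) [.ref 2121 [0, 4, 2, 3] [1, 1, 3], .ref 2363 [0, 4, 1, 2, 3] [1, 1, 1, 1, 1], .ref 2364 [0, 4, 1, 2, 3] [1, 1, 1, 1, 1], .ref 2365 [0, 4, 1, 2, 3] [1, 1, 1, 1, 1], .ref 2366 [0, 1, 2, 4, 3] [1, 1, 1, 1, 1], .ref 2367 [0, 1, 2, 4, 3] [1, 1, 1, 1, 1], .ref 2368 [0, 1, 2, 4, 3] [1, 1, 1, 1, 1], .ref 2375 [0, 1, 2, 3, 4] [1, 1, 1, 1, 1], .ref 2376 [0, 1, 2, 3, 4] [1, 0, 1, 1, 1, 1], .ref 2377 [0, 1, 2, 3, 4] [1, 1, 1, 1, 1], .cyc [2, 7], .ref 2381 [0, 1, 2, 3, 4] [1, 1, 1, 1, 1], .ref 2382 [0, 1, 2, 3, 4] [1, 1, 1, 1, 1], .ref 2383 [0, 1, 2, 3, 4] [1, 1, 1, 1, 1]]),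
([p 3 0, g, s 0 1, g, s 0 2, g, s 2 0, p 4 3, g, p 1 4, g], .leaf [1, 7, 5, 6, 6, 4, 1]),
([p 3 0, g, s 0 1, g, s 0 2, g, s 1 0, p 4 3, g, p 2 4, g], .leaf [3, 7, 3, 6, 6, 2, 3]),
([p 2 0, g, s 0 1, g, s 1 0, p 4 2, g, s 0 3, g, p 3 4, g], .leaf [6, 9, 7, 1, 6, 2, 1]),
([p 2 0, g, s 0 1, g, p 3 2, g, p 4 3, g, p 0 4, g, m 1 0, g], .leaf [10, 7, 9, 7, 7, 5, 5, 3]),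
([p 2 0, g, s 0 1, g, p 3 2, g, p 4 3, g, m 1 0, g, p 0 4, g], .leaf [8, 5, 7, 5, 5, 3, 5, 1]),
([p 3 0, g, s 0 1, g, s 1 2, p 4 3, g, p 0 4, g, m 2 0, g], .inner (.lo 7) [.cyc [0, 7, 5], .ref 2385 [0, 5, 1, 3, 4] [1, 1, 1, 1, 3], .ref 1451 [0, 5] [1, 6, 3], .ref 1452 [0, 5, 3] [1, 4, 1, 3], .ref 2386 [0, 1, 5, 3, 4] [1, 1, 1, 1, 3], .ref 1451 [0, 5] [3, 4, 3], .ref 1452 [0, 5, 3] [3, 2, 1, 3], .ref 2387 [0, 1, 3, 5, 4] [1, 1, 1, 1, 3], .ref 1451 [0, 5] [6, 1, 3], .ref 2008 [0, 3, 5, 4] [4, 1, 1, 3], .ref 2211 [0, 1, 3, 4, 5] [1, 1, 1, 1, 3], .ref 2388 [0, 2, 3, 4, 5] [3, 0, 1, 1, 1, 1], .ref 2021 [0, 3, 4, 5] [4, 1, 1, 3], .ref 2021 [0, 3, 4, 5] [4, 1, 1, 1], .ref 2211 [0, 1, 3, 4, 5] [1, 1, 1, 3, 1], .ref 2389 [0, 2,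 3, 4, 5] [3, 0, 1, 1, 1, 1], .ref 2021 [0, 3, 4, 5] [4, 1, 3, 1]]),
([p 3 0, g, p 0 1, g, s 1 2, g, p 4 3, g, p 0 4, g, m 2 0, g], .leaf [2, 3, 9, 5, 7, 5, 5, 3]),
([p 3 0, g, m 0 1, g, s 1 2, g, p 4 3, g, p 0 4, g, m 2 0, g], .leaf [3, 10, 5, 1, 4, 5, 3, 1]),
([p 2 0, g, s 0 1, g, s 3 0, p 4 2, g, s 0 3, g, p 1 4, g], .leaf [1, 5, 3, 6, 6, 2, 3]),
([p 2 0, g, s 4 1, p 5 2, g, s 0 3, g, s 0 4, g, p 3 5, g, m 1 0, g], .leaf [4, 11, 8, 9, 7, 3, 3, 4, 1]),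
([p 2 0, g, s 3 1, p 5 2, g, s 0 3, g, s 0 4, g, p 4 5, g, m 1 0, g], .leaf [6, 11, 6, 7, 5, 1, 1, 2, 3]),
([p 1 0, g, s 2 0, p 3 1, g, s 0 2, g, p 4 3, g, s 0 4, g], .leaf [8, 3, 4, 1, 1, 4, 3]),
([p 2 0, g, s 3 1, p 4 2, g, s 0 3, g, p 0 4, g, m 1 0, g], .inner (.lo 7) [.cyc [0, 7, 3], .ref 2393 [0, 5, 2, 3, 4] [1, 1, 1, 1, 3], .ref 1451 [0, 5] [1, 6, 3], .ref 1452 [0, 5, 2] [1, 2, 3, 3], .ref 2394 [0, 1, 2, 5, 3, 4] [1, 1, 1, 1, 1, 1], .ref 1451 [0, 5] [4, 3, 3], .ref 2008 [0, 2, 5, 4] [2, 1, 3, 3], .ref 2395 [0, 1, 2, 3, 5, 4] [1, 1, 1, 1, 1, 1], .ref 1451 [0, 5] [6, 1, 3], .ref 2008 [0, 2, 5, 4] [2, 3, 1, 3], .ref 2396 [0, 2, 3, 4, 5] [1, 1, 1, 1, 3], .ref 2388 [0, 1, 2, 4, 5] [1, 0, 3, 1, 1, 1], .ref 2021 [0, 2,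 4, 5] [2, 3, 1, 3], .ref 2021 [0, 2, 4, 5] [2, 3, 1, 1], .ref 2396 [0, 2, 3, 4, 5] [1, 1, 1, 3, 1], .ref 2389 [0, 1, 2, 4, 5] [1, 0, 3, 1, 1, 1], .ref 2021 [0, 2, 4, 5] [2, 3, 3, 1]]),
([p 2 0, g, s 3 1, g, p 4 2, g, p 0 3, g, p 0 4, g, m 1 0, g], .leaf [1, 10, 7, 1, 6, 3, 1, 3]),
([p 2 0, g, s 3 1, g, p 4 2, g, m 0 3, g, p 0 4, g, m 1 0, g], .leaf [5, 8, 6, 6, 2, 3, 5, 1]),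
([p 2 0, g, s 0 1, g, s 4 0, p 3 2, g, p 1 3, g, s 0 4, g], .leaf [1, 5, 3, 4, 4, 2, 3]),
([p 2 0, g, s 5 1, p 4 2, g, s 0 3, g, p 3 4, g, s 0 5, g, m 1 0, g], .leaf [4, 9, 6, 7, 5, 1, 6, 2, 3]),
([p 2 0, g, s 5 1, p 3 2, g, p 4 3, g, s 0 4, g, s 0 5, g, m 1 0, g], .leaf [4, 11, 8, 2, 7, 1, 6, 0, 1]),
([p 2 0, g, s 4 1, p 3 2, g, p 0 3, g, s 0 4, g, m 1 0, g], .inner (.lo 5) [.cyc [0, 5, 3], .ref 2400 [0, 5, 2, 3, 4] [1, 1, 1, 1, 3], .ref 1451 [0, 5] [1, 4, 5], .ref 1452 [0, 5, 2] [1, 2, 1, 5], .ref 2401 [0, 1, 2, 5, 3, 4] [1, 1, 1, 1, 1, 1], .ref 1451 [0, 5] [4, 1, 5], .ref 2008 [0, 2, 5, 3] [2, 1, 1, 5], .ref 2402 [0, 1, 2, 3, 5, 4] [1, 1, 1, 1, 1, 1], .ref 2388 [0, 1, 2, 3, 5] [1, 0, 1, 1, 3, 1], .ref 2021 [0, 2, 3,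 5] [2, 1, 1, 5], .ref 2214 [0, 2, 3, 4, 5] [1, 1, 1, 1, 3], .ref 2388 [0, 1, 2, 3, 5] [1, 0, 1, 3, 1, 1], .ref 2021 [0, 2, 3, 5] [2, 1, 3, 3], .ref 2021 [0, 2, 3, 5] [2, 1, 3, 1], .ref 2214 [0, 2, 3, 4, 5] [1, 1, 1, 3, 1], .ref 2389 [0, 1, 2, 3, 5] [1, 0, 1, 3, 1, 1], .ref 2021 [0, 2, 3, 5] [2, 1, 5, 1]]),
([p 2 0, g, s 4 1, g, p 3 2, g, p 0 3, g, p 0 4, g, m 1 0, g], .leaf [1, 8, 5, 8, 2, 5, 5, 3]),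
([p 2 0, g, s 4 1, p 3 2, g, p 0 3, g, m 0 4, g, m 1 0, g], .leaf [6, 4, 5, 3, 4, 5, 4, 1]),
([p 2 0, g, s 5 1, p 4 2, g, s 0 3, g, p 3 4, g, m 1 0, g, s 0 5, g], .leaf [4, 9, 6, 7, 5, 1, 1, 2, 3]),
([p 2 0, g, s 5 1, p 3 2, g, p 4 3, g, s 0 4, g, m 1 0, g, s 0 5, g], .leaf [1, 3, 1, 8, 5, 1, 3, 4, 1]),
([p 2 0, g, s 5 1, p 3 2, g, p 4 3, g, m 1 0, g, s 0 4, g, s 0 5, g], .leaf [4, 11, 8, 2, 7, 3, 6, 0, 3]),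
([p 2 0, g, s 4 1, p 3 2, g, p 0 3, g, m 1 0, g, s 0 4, g], .inner (.lo 5) [.cyc [0, 5, 3], .ref 2400 [0, 5, 2, 3, 4] [1, 1, 1, 3, 1], .ref 1451 [0, 5] [1, 4, 5], .ref 1452 [0, 5, 2] [1, 2, 1, 5], .ref 2406 [0, 1, 2, 5, 3, 4] [1, 1, 1, 1, 1, 1], .ref 1451 [0, 5] [4, 1, 5], .ref 2008 [0, 2, 5, 3] [2, 1, 1, 5], .ref 2407 [0, 1, 2, 3, 5, 4] [1, 1, 1, 1, 1, 1], .ref 2388 [0, 1, 2, 3, 5] [1, 0, 1, 1, 1, 3], .ref 2021 [0, 2, 3, 5] [2, 1, 1, 5], .ref 2021 [0, 2, 3, 5] [2, 1, 1, 3], .ref 2408 [0, 1, 2, 3, 5, 4] [1, 1, 1, 1, 1, 1], .ref 2389 [0, 1, 2, 3, 5] [1, 0, 1, 1, 1, 3], .ref 2021 [0, 2, 3, 5] [2, 1, 3, 3], .ref 2214 [0, 2, 3, 4, 5] [1, 1, 3, 1, 1], .ref 2389 [0, 1, 2, 3, 5] [1, 0, 1, 1, 3, 1], .ref 2021 [0, 2, 3, 5] [2,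 1, 5, 1]]),
([p 2 0, g, s 4 1, g, p 3 2, g, p 0 3, g, m 1 0, g, p 0 4, g], .leaf [1, 8, 5, 8, 2, 5, 5, 3]),
([p 2 0, g, s 4 1, g, p 3 2, g, p 0 3, g, m 1 0, g, m 0 4, g], .leaf [1, 8, 5, 1, 4, 5, 3, 1]),
([p 2 0, g, s 0 1, p 3 2, g, p 0 3, g, m 1 0, g], .inner (.lo 2) [.ref 2121 [0, 4, 2, 3] [1, 1, 3], .ref 2390 [0, 4, 1, 2, 3] [1, 1, 1, 1, 1], .ref 2391 [0, 4, 1, 2, 3] [1, 1, 0, 1, 1, 1], .ref 2392 [0, 4, 1, 2, 3] [1, 1, 0, 1, 1, 1], .ref 2397 [0, 1, 2, 4, 3] [1, 1, 1, 1, 1], .ref 2398 [0, 1, 2, 4, 3] [1, 0, 1, 1, 1, 1], .ref 2399 [0, 1, 2, 4, 3] [1, 0, 1, 1, 1, 1], .ref 2403 [0, 1, 2, 3, 4] [1, 1, 1, 1, 1], .ref 2404 [0, 1, 2, 3, 4] [1, 0, 1, 1, 1, 1], .ref 2405 [0, 1, 2, 3, 4] [1, 1, 1, 1, 1], .cyc [2, 7], .ref 2409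 [0, 1, 2, 3, 4] [1, 1, 1, 1, 1], .ref 2410 [0, 1, 2, 3, 4] [1, 0, 1, 1, 1, 1], .ref 2411 [0, 1, 2, 3, 4] [1, 0, 1, 1, 1, 1]]),
([p 1 0, g, s 0 0, p 2 1, g, p 0 2, g], .inner (.hi 2) [.ref 2097 [0, 3, 1, 2] [1, 1, 1, 1], .ref 2111 [0, 3, 1, 2] [1, 1, 1, 1], .ref 2117 [0, 3, 1, 2] [1, 1, 1, 1], .cyc [2], .ref 2151 [0, 3, 1, 2] [1, 1, 1, 1], .ref 2169 [0, 3, 1, 2] [1, 1, 1, 1], .ref 2200 [0, 3, 1, 2] [1, 1, 1, 1], .ref 2210 [0, 3, 1, 2] [1, 1, 1], .ref 2362 [0, 3, 1, 2] [1, 1, 1, 1], .ref 2384 [0, 3, 1, 2] [1, 1, 1, 1], .ref 2412 [0, 3, 1, 2] [1, 1, 1, 1]]),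
([p 3 0, g, s 0 1, g, s 2 0, g, p 1 2, p 4 3, g, p 0 4, g], .leaf [5, 7, 1, 2, 6, 4, 1]),
([p 3 0, g, s 2 0, g, s 0 1, g, p 1 2, p 4 3, g, p 0 4, g], .leaf [5, 7, 1, 4, 6, 2, 3]),
([p 2 0, g, s 1 0, g, p 3 1, p 4 2, g, s 0 3, g, p 0 4, g], .leaf [3, 5, 1, 4, 6, 2, 3]),
([p 2 0, g, s 1 0, g, p 3 1, g, p 4 2, g, p 0 3, g, p 0 4, g], .leaf [4, 1, 5, 1, 5, 1, 5, 1]),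
([p 2 0, g, s 1 0, g, p 4 1, p 3 2, g, p 0 3, g, s 0 4, g], .leaf [3, 5, 1, 6, 3, 4, 1]),
([p 2 0, g, s 1 0, g, p 4 1, g, p 3 2, g, p 0 3, g, p 0 4, g], .leaf [4, 1, 5, 1, 7, 3, 5, 3]),
([p 2 0, g, s 1 0, g, p 0 1, p 3 2, g, p 0 3, g], .inner (.lo 4) [.ref 1342 [0, 4] [3, 4], .ref 2414 [0, 4, 1, 2, 3] [1, 1, 1, 1, 1], .ref 1451 [0, 4] [1, 3, 4], .ref 1481 [0, 4, 2] [1, 3, 0, 3], .cyc [2, 4], .ref 2415 [0, 4, 1, 2, 3] [1, 1, 1, 1, 1], .ref 1451 [0, 4] [3, 1, 4], .ref 1481 [0, 4, 2] [3, 1, 0, 3], .ref 2416 [0, 1, 2, 4, 3] [1, 1, 1, 1, 1], .ref 2417 [0, 1, 2, 4, 3] [1, 1, 0, 1, 1, 1], .ref 1462 [0, 2, 4] [3, 0, 1, 3], .ref 2418 [0, 1, 2, 3, 4] [1, 1, 1, 1, 1], .ref 2419 [0, 1, 2, 3, 4] [1, 1, 0, 1, 1, 1], .ref 1462 [0, 2,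 4] [3, 0, 3, 1]]),
([p 3 0, g, s 1 0, g, p 2 1, g, p 0 2, p 4 3, g, p 0 4, g], .leaf [2, 7, 4, 1, 4, 6, 4, 1]),
([p 3 0, g, p 1 0, g, p 2 1, g, p 0 2, p 4 3, g, p 0 4, g], .leaf [2, 7, 4, 1, 4, 6, 4, 1]),
([p 3 0, g, p 2 1, g, s 1 0, g, p 0 2, g, p 4 3, g, p 0 4, g], .leaf [4, 1, 7, 3, 1, 3, 5, 3]),
([p 0 0, g, p 2 1, g, p 0 2, p 3 0, g, s 1 0, g, p 0 3, g], .leaf [2, 6, 8, 6, 3]),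
([p 3 0, g, p 2 1, g, p 0 2, g, p 4 3, g, p 0 4, g, s 1 0, g], .leaf [10, 7, 7, 5, 7, 5, 5, 3]),
([p 2 0, g, p 1 0, g, p 0 1, p 3 2, g, p 0 3, g], .inner (.hi 2) [.ref 2421 [0, 4, 1, 2, 3] [1, 1, 1, 1, 1], .ref 2422 [0, 4, 1, 2, 3] [1, 1, 1, 1, 1], .ref 1477 [0, 4] [1, 1, 6], .ref 2423 [0, 4, 1, 2, 3] [1, 1, 1, 0, 1, 1], .ref 1451 [0, 4] [1, 1, 6], .ref 1488 [0, 4] [1, 1, 6], .cyc [2, 4], .ref 2424 [0, 4, 1, 3] [1, 1, 1, 1, 1], .ref 1451 [0, 4] [1, 4, 3], .ref 1488 [0, 4] [1, 4, 3], .ref 1451 [0, 4] [1, 4, 1], .ref 2425 [0, 4, 1, 2, 3] [1, 1, 0, 1, 1, 1], .ref 1451 [0, 4] [1, 6, 1], .ref 1488 [0, 4] [1, 6, 1]]),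
([p 3 0, g, s 0 1, g, p 1 2, p 4 3, g, s 2 0, g, p 0 4, g], .leaf [3, 5, 1, 2, 6, 4, 1]),
([p 2 0, g, p 3 1, p 4 2, g, s 0 3, g, s 1 0, g, p 0 4, g], .leaf [1, 3, 1, 2, 6, 4, 1]),
([p 2 0, g, p 3 1, g, p 4 2, g, p 0 3, g, s 1 0, g, p 0 4, g], .leaf [8, 5, 5, 1, 7, 3, 3, 1]),
([p 2 0, g, p 3 1, p 4 2, g, s 1 0, g, s 0 3, g, p 0 4, g], .leaf [1, 3, 1, 4, 6, 2, 3]),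
([p 2 0, g, p 3 1, g, p 4 2, g, s 1 0, g, p 0 3, g, p 0 4, g], .leaf [1, 6, 3, 6, 2, 3, 5, 1])]

def d09_2 : List (List Item × Pf) := [
([p 2 0, g, p 4 1, p 3 2, g, s 1 0, g, p 0 3, g, s 0 4, g], .leaf [1, 3, 1, 6, 3, 4, 1]),
([p 2 0, g, p 4 1, g, p 3 2, g, s 1 0, g, p 0 3, g, p 0 4, g], .leaf [6, 3, 5, 3, 7, 5, 3, 1]),
([p 2 0, g, p 0 1, p 3 2, g, s 1 0, g, p 0 3, g], .inner (.lo 2) [.ref 1342 [0, 4] [1, 6], .ref 2427 [0, 4, 1, 2, 3] [1, 1, 1, 1, 1], .ref 1451 [0, 4] [1, 1, 6], .ref 1481 [0, 4, 2] [1, 1, 0, 5], .ref 2428 [0, 1, 2, 4, 3] [1, 1, 1, 1, 1], .ref 2429 [0, 1, 2, 4, 3] [1, 0, 1, 1, 1, 1], .ref 1462 [0, 2, 4] [1, 0, 1, 5], .cyc [2, 5], .ref 2430 [0, 1, 2, 4, 3] [1, 1, 1, 1, 1], .ref 2431 [0, 1, 2, 4, 3] [1,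 0, 1, 1, 1, 1], .ref 1462 [0, 2, 4] [1, 0, 3, 3], .ref 2432 [0, 1, 2, 3, 4] [1, 1, 1, 1, 1], .ref 2433 [0, 1, 2, 3, 4] [1, 0, 1, 1, 1, 1], .ref 1462 [0, 2, 4] [1, 0, 5, 1]]),
([p 3 0, g, s 0 1, g, p 1 2, p 4 3, g, p 0 4, g, s 2 0, g], .leaf [3, 5, 1, 2, 4, 2, 3]),
([p 2 0, g, p 3 1, p 4 2, g, s 0 3, g, p 0 4, g, s 1 0, g], .leaf [1, 3, 1, 2, 4, 2, 3]),
([p 2 0, g, p 3 1, g, p 4 2, g, p 0 3, g, p 0 4, g, s 1 0, g], .leaf [1, 10, 7, 1, 6, 3, 1, 3]),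
([p 0 0, g, s 0 1, g, p 0 2, p 3 0, g, p 1 3, g, s 2 0, g], .leaf [2, 6, 6, 4, 5]),
([p 2 0, g, p 5 1, p 4 2, g, s 0 3, g, p 3 4, g, s 0 5, g, s 1 0, g], .leaf [4, 7, 5, 8, 1, 6, 4, 2, 1]),
([p 2 0, g, p 5 1, p 3 2, g, p 4 3, g, s 0 4, g, s 0 5, g, s 1 0, g], .leaf [2, 10, 5, 1, 3, 6, 2, 0, 1]),
([p 1 0, g, p 4 0, g, p 2 1, g, p 3 2, g, p 0 3, g, s 0 4, g], .leaf [9, 7, 8, 5, 5, 3, 3, 1]),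
([p 2 0, g, p 4 1, p 3 2, g, p 5 3, g, s 0 4, g, s 0 5, g, s 1 0, g], .leaf [1, 3, 1, 4, 1, 4, 6, 4, 1]),
([p 1 0, g, p 3 0, g, p 2 1, g, p 4 2, g, s 0 3, g, p 0 4, g], .leaf [1, 4, 2, 5, 7, 5, 5, 3]),
([p 2 0, g, p 4 1, p 3 2, g, p 5 3, g, s 0 4, g, s 1 5, g], .leaf [1, 3, 1, 4, 1, 4, 4, 2, 1]),
([p 2 0, g, p 0 1, p 3 2, g, p 4 3, g, s 1 0, g, s 0 4, g], .leaf [2, 6, 1, 6, 4, 0, 3]),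
([p 2 0, g, p 4 1, p 3 2, g, p 0 3, g, s 0 4, g, s 1 0, g], .inner (.lo 5) [.cyc [0, 5, 3], .ref 2438 [0, 5, 1, 3] [1, 1, 1, 3, 1], .ref 1451 [0, 5] [1, 4, 5], .ref 1452 [0, 5, 2] [1, 2, 1, 5], .ref 2439 [0, 1, 2, 5, 3, 4] [1, 1, 1, 1, 1, 1], .ref 1451 [0, 5] [4, 1, 5], .ref 2008 [0, 2, 5, 3] [2, 1, 1, 5], .ref 2440 [0, 1, 2, 3, 5, 4] [1, 1, 1, 1, 1, 1], .ref 2441 [0, 2, 3, 5, 4] [1, 0, 1, 1, 1, 3], .ref 2021 [0, 2, 3, 5] [2, 1, 1, 5], .ref 2442 [0, 1, 2, 3, 4, 5] [1, 1, 1, 1, 1, 1], .ref 2443 [0, 2, 3, 4, 5] [1, 0, 1, 1, 1, 3], .ref 2021 [0, 2, 3, 5] [2, 1, 3, 3], .ref 2444 [0, 1, 2, 3, 4, 5] [1, 1, 1, 1, 1], .ref 2445 [0, 1, 2, 3, 5] [1, 1, 3, 1, 1], .ref 2443 [0, 2, 3, 4, 5] [1, 0, 1, 1, 3, 1], .ref 2021 [0, 2, 3,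 5] [2, 1, 5, 1]]),
([p 2 0, g, p 4 1, g, p 3 2, g, p 0 3, g, p 0 4, g, s 1 0, g], .leaf [10, 7, 9, 7, 7, 5, 3, 1]),
([p 2 0, g, p 5 1, p 4 2, g, s 0 3, g, p 3 4, g, s 1 0, g, s 0 5, g], .leaf [4, 11, 8, 4, 7, 1, 6, 2, 1]),
([p 2 0, g, p 5 1, p 3 2, g, p 4 3, g, s 0 4, g, s 1 0, g, s 0 5, g], .leaf [1, 3, 1, 8, 5, 1, 3, 4, 1]),
([p 2 0, g, p 5 1, p 3 2, g, p 4 3, g, s 1 4, g, s 0 5, g], .leaf [1, 3, 1, 6, 3, 1, 1, 2, 1]),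
([p 2 0, g, p 4 1, p 3 2, g, p 0 3, g, s 1 0, g, s 0 4, g], .inner (.lo 5) [.cyc [0, 5, 3], .ref 2438 [0, 5, 1, 3] [1, 1, 1, 1, 3], .ref 1451 [0, 5] [1, 4, 5], .ref 1452 [0, 5, 2] [1, 2, 1, 5], .ref 2448 [0, 1, 2, 5, 3, 4] [1, 1, 1, 1, 1, 1], .ref 1451 [0, 5] [4, 1, 5], .ref 2008 [0, 2, 5, 3] [2, 1, 1, 5], .ref 2449 [0, 1, 2, 3, 5, 4] [1, 1, 1, 1, 1, 1], .ref 2441 [0, 2, 3, 5, 4] [1, 0, 1, 1, 3, 1], .ref 2021 [0, 2, 3, 5] [2, 1, 1, 5], .ref 2450 [0, 1, 2, 3, 5, 4] [1, 1, 1, 1, 1], .ref 2445 [0, 1, 2, 3, 5] [1, 1, 1, 1, 3], .ref 2441 [0, 2, 3, 5, 4] [1, 0, 1, 3, 1, 1], .ref 2021 [0, 2, 3, 5] [2, 1, 3, 3], .ref 2445 [0, 1, 2, 3, 5] [1, 1, 1, 3, 1], .ref 2443 [0, 2, 3, 4, 5] [1, 0, 1, 3, 1, 1], .ref 2021 [0, 2, 3, 5] [2,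 1, 5, 1]]),
([p 2 0, g, p 4 1, g, p 3 2, g, p 0 3, g, s 1 0, g, p 0 4, g], .leaf [1, 8, 5, 8, 2, 5, 5, 3]),
([p 2 0, g, p 0 1, p 3 2, g, p 0 3, g, s 1 0, g], .inner (.lo 2) [.ref 1342 [0, 4] [1, 6], .ref 2435 [0, 4, 1, 2, 3] [1, 1, 1, 1, 1], .ref 1451 [0, 4] [1, 1, 6], .ref 1481 [0, 4, 2] [1, 1, 0, 5], .ref 2436 [0, 1, 2, 4, 3] [1, 1, 1, 1, 1], .ref 2437 [0, 1, 2, 4, 3] [1, 0, 1, 1, 1, 1], .ref 1462 [0, 2, 4] [1, 0, 1, 5], .ref 2446 [0, 1, 2, 3, 4] [1, 1, 1, 1, 1], .ref 2447 [0, 1, 2, 3, 4] [1, 0, 1, 1, 1, 1], .ref 1462 [0, 2, 4] [1, 0, 3, 3], .cyc [2, 7], .ref 2451 [0, 1, 2, 3, 4] [1, 1, 1, 1, 1], .ref 2452 [0, 1, 2, 3, 4] [1, 0, 1, 1, 1, 1], .ref 1462 [0, 2, 4] [1, 0, 5, 1]]),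
([p 1 0, g, p 0 0, p 2 1, g, p 0 2, g], .inner (.hi 2) [.ref 2420 [0, 3, 1, 2] [1, 1, 1, 1], .ref 2426 [0, 3, 1, 2] [1, 1, 1, 1], .ref 1477 [0, 3] [1, 1, 4], .cyc [2], .ref 2434 [0, 3, 1, 2] [1, 1, 1, 1], .ref 1451 [0, 3] [1, 2, 3], .ref 1488 [0, 3] [1, 2, 3], .ref 1451 [0, 3] [1, 2, 1], .ref 2453 [0, 3, 1, 2] [1, 1, 1, 1], .ref 1451 [0, 3] [1, 4, 1], .ref 1488 [0, 3] [1, 4, 1]]),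
([p 3 0, g, s 2 0, g, s 0 1, g, m 1 2, p 4 3, g, p 0 4, g], .leaf [5, 7, 1, 2, 6, 4, 1]),
([p 3 0, g, s 0 1, g, s 2 0, g, m 1 2, p 4 3, g, p 0 4, g], .leaf [5, 7, 1, 4, 6, 2, 3]),
([p 3 0, g, s 0 1, g, m 1 2, p 4 3, g, s 2 0, g, p 0 4, g], .leaf [3, 5, 1, 4, 6, 2, 3]),
([p 3 0, g, s 0 1, g, m 1 2, g, p 4 3, g, m 2 0, g, p 0 4, g], .leaf [4, 1, 5, 1, 5, 1, 5, 1]),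
([p 3 0, g, s 0 1, g, m 1 2, p 4 3, g, p 0 4, g, s 2 0, g], .leaf [3, 5, 1, 6, 3, 4, 1]),
([p 3 0, g, s 0 1, g, m 1 2, g, p 4 3, g, p 0 4, g, m 2 0, g], .leaf [4, 1, 5, 1, 7, 3, 5, 3]),
([p 2 0, g, s 0 1, g, m 1 0, p 3 2, g, p 0 3, g], .inner (.hi 4) [.ref 2455 [0, 1, 4, 2, 3] [1, 1, 1, 1, 1], .ref 1494 [0, 4, 2] [1, 3, 0, 3], .ref 1463 [0, 4] [1, 3, 4], .cyc [2, 4], .ref 2456 [0, 1, 4, 2, 3] [1, 1, 1, 1, 1], .ref 1494 [0, 4, 2] [3, 1, 0, 3], .ref 1463 [0, 4] [3, 1, 4], .ref 2457 [0, 1, 4, 2, 3] [1, 1, 1, 1, 1], .ref 1452 [0, 4, 2] [3, 0, 1, 3], .ref 2458 [0, 1, 4, 2, 3] [1, 1, 0, 1, 1, 1], .ref 1452 [0, 4, 2] [3, 0, 1, 1], .ref 2459 [0, 1, 4, 2, 3] [1, 1, 1, 1, 1], .ref 1452 [0, 4, 2] [3, 0, 3, 1], .ref 2460 [0, 1, 4,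 2, 3] [1, 1, 0, 1, 1, 1]]),
([p 3 0, g, s 0 1, g, m 1 2, g, m 2 0, p 4 3, g, p 0 4, g], .leaf [2, 7, 4, 1, 4, 6, 4, 1]),
([p 3 0, g, m 0 1, g, m 1 2, g, m 2 0, p 4 3, g, p 0 4, g], .leaf [2, 7, 4, 1, 4, 6, 4, 1]),
([p 3 0, g, m 2 1, g, s 0 2, g, m 1 0, g, p 4 3, g, p 0 4, g], .leaf [4, 1, 7, 3, 1, 3, 5, 3]),
([p 0 0, g, m 2 1, g, m 1 0, p 3 0, g, s 0 2, g, p 0 3, g], .leaf [2, 6, 8, 6, 3]),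
([p 2 0, g, m 4 1, g, m 1 0, g, p 3 2, g, p 0 3, g, s 0 4, g], .leaf [10, 7, 7, 5, 7, 5, 5, 3]),
([p 2 0, g, m 0 1, g, m 1 0, p 3 2, g, p 0 3, g], .inner (.lo 2) [.ref 1343 [0, 4] [1, 6], .ref 2462 [0, 4, 1, 2, 3] [1, 1, 1, 1, 1], .ref 1488 [0, 4] [1, 1, 6], .ref 2463 [0, 4, 1, 2, 3] [1, 1, 1, 1, 1], .ref 2464 [0, 1, 4, 2, 3] [1, 1, 1, 0, 1, 1], .ref 1477 [0, 4] [1, 1, 6], .ref 1463 [0, 4] [1, 1, 6], .cyc [2, 4], .ref 2465 [0, 1, 4, 3] [1, 1, 1, 1, 1], .ref 1477 [0, 4] [1, 4, 3], .ref 1463 [0, 4] [1, 4, 3], .ref 2466 [0, 1, 2, 3, 4] [1, 1, 0, 1, 1, 1], .ref 1477 [0, 4] [1, 6, 1], .ref 1463 [0, 4] [1, 6, 1]]),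
([p 2 0, g, s 1 0, g, m 3 1, p 4 2, g, s 0 3, g, p 0 4, g], .leaf [3, 5, 1, 2, 6, 4, 1]),
([p 2 0, g, m 3 1, p 4 2, g, s 1 0, g, s 0 3, g, p 0 4, g], .leaf [1, 3, 1, 2, 6, 4, 1]),
([p 2 0, g, m 3 1, g, p 4 2, g, m 1 0, g, s 0 3, g, p 0 4, g], .leaf [8, 5, 5, 1, 7, 3, 3, 1]),
([p 2 0, g, m 3 1, p 4 2, g, s 0 3, g, s 1 0, g, p 0 4, g], .leaf [1, 3, 1, 4, 6, 2, 3]),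
([p 2 0, g, m 3 1, g, p 4 2, g, s 0 3, g, m 1 0, g, p 0 4, g], .leaf [1, 6, 3, 6, 2, 3, 5, 1]),
([p 2 0, g, m 3 1, p 4 2, g, s 0 3, g, p 0 4, g, s 1 0, g], .leaf [1, 3, 1, 6, 3, 4, 1]),
([p 2 0, g, m 3 1, g, p 4 2, g, s 0 3, g, p 0 4, g, m 1 0, g], .leaf [6, 3, 5, 3, 7, 5, 3, 1]),
([p 1 0, g, m 2 0, p 3 1, g, s 0 2, g, p 0 3, g], .inner (.hi 2) [.ref 2468 [0, 4, 1, 2, 3] [1, 1, 1, 1, 1], .ref 1494 [0, 4, 1] [1, 1, 0, 5], .ref 1463 [0, 4] [1, 1, 6], .ref 2469 [0, 4, 1, 2, 3] [1, 1, 1, 1, 1], .ref 1452 [0, 4, 1] [1, 0, 1, 5], .ref 2470 [0, 4, 1, 2, 3] [1, 0, 1, 1, 1, 1], .cyc [2, 5], .ref 2471 [0, 4, 1, 2, 3] [1, 1, 1, 1, 1], .ref 1452 [0, 4, 1] [1, 0, 3, 3], .ref 2472 [0, 4, 1, 2, 3] [1, 0, 1, 1, 1, 1], .ref 1452 [0, 4,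 1] [1, 0, 3, 1], .ref 2473 [0, 4, 1, 2, 3] [1, 1, 1, 1, 1], .ref 1452 [0, 4, 1] [1, 0, 5, 1], .ref 2474 [0, 4, 1, 2, 3] [1, 0, 1, 1, 1, 1]]),
([p 2 0, g, s 1 0, g, m 4 1, p 3 2, g, p 0 3, g, s 0 4, g], .leaf [3, 5, 1, 2, 4, 2, 3]),
([p 2 0, g, m 4 1, p 3 2, g, s 1 0, g, p 0 3, g, s 0 4, g], .leaf [1, 3, 1, 2, 4, 2, 3]),
([p 2 0, g, m 4 1, g, p 3 2, g, m 1 0, g, p 0 3, g, s 0 4, g], .leaf [1, 10, 7, 1, 6, 3, 1, 3]),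
([p 0 0, g, s 0 1, g, m 3 0, p 2 0, g, p 1 2, g, s 0 3, g], .leaf [2, 6, 6, 4, 5]),
([p 2 0, g, m 5 1, p 4 2, g, s 0 3, g, p 3 4, g, s 1 0, g, s 0 5, g], .leaf [4, 7, 5, 8, 1, 6, 4, 2, 1]),
([p 2 0, g, m 5 1, p 3 2, g, p 4 3, g, s 0 4, g, s 1 0, g, s 0 5, g], .leaf [2, 10, 5, 1, 3, 6, 2, 0, 1]),
([p 2 0, g, m 0 1, g, p 3 2, g, p 4 3, g, p 0 4, g, s 1 0, g], .leaf [9, 7, 8, 5, 5, 3, 3, 1]),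
([p 2 0, g, m 0 1, g, p 3 2, g, p 4 3, g, s 1 4, g], .leaf [1, 4, 2, 5, 5, 3, 3, 1]),
([p 2 0, g, m 5 1, p 3 2, g, p 4 3, g, s 1 0, g, s 0 4, g, s 0 5, g], .leaf [1, 3, 1, 4, 1, 4, 6, 4, 1]),
([p 2 0, g, m 0 1, g, p 3 2, g, p 4 3, g, s 1 0, g, p 0 4, g], .leaf [1, 4, 2, 5, 7, 5, 5, 3]),
([p 1 0, g, m 3 0, p 2 1, g, p 4 2, g, s 0 3, g, s 0 4, g], .leaf [2, 6, 1, 6, 4, 0, 3]),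
([p 2 0, g, m 4 1, p 3 2, g, p 0 3, g, s 1 0, g, s 0 4, g], .inner (.lo 5) [.cyc [0, 5, 3], .ref 2479 [0, 5, 3, 4] [1, 1, 1, 3, 1], .ref 1451 [0, 5] [1, 4, 5], .ref 1452 [0, 5, 2] [1, 2, 1, 5], .ref 2480 [0, 1, 2, 5, 3, 4] [1, 1, 1, 1, 1, 1], .ref 1451 [0, 5] [4, 1, 5], .ref 2008 [0, 2, 5, 3] [2, 1, 1, 5], .ref 2481 [0, 1, 2, 3, 5, 4] [1, 1, 1, 1, 1, 1], .ref 2482 [0, 1, 2, 3, 5] [1, 0, 1, 1, 1, 3], .ref 2021 [0, 2, 3, 5] [2, 1, 1, 5], .ref 2483 [0, 1, 2, 3, 5] [1, 0, 1, 1, 3], .ref 2484 [0, 1, 2, 3, 5, 4] [1, 1, 1, 1, 1, 1], .ref 2485 [0, 1, 2, 3, 5] [1, 0, 1, 1, 1, 3], .ref 2021 [0, 2, 3, 5] [2, 1, 3, 3], .ref 2486 [0, 2, 3, 4, 5] [1, 1, 3, 1, 1], .ref 2485 [0, 1, 2, 3, 5] [1, 0, 1, 1, 3, 1], .ref 2021 [0, 2, 3, 5]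 [2, 1, 5, 1]]),
([p 2 0, g, m 4 1, g, p 3 2, g, p 0 3, g, m 1 0, g, s 0 4, g], .leaf [10, 7, 9, 7, 7, 5, 3, 1]),
([p 2 0, g, m 5 1, p 4 2, g, s 0 3, g, p 3 4, g, s 0 5, g, s 1 0, g], .leaf [4, 11, 8, 4, 7, 1, 6, 2, 1]),
([p 2 0, g, m 5 1, p 3 2, g, p 4 3, g, s 0 4, g, s 0 5, g, s 1 0, g], .leaf [1, 3, 1, 8, 5, 1, 3, 4, 1]),
([p 2 0, g, m 4 1, p 3 2, g, p 0 3, g, s 0 4, g, s 1 0, g], .inner (.lo 5) [.cyc [0, 5, 3], .ref 2479 [0, 5, 3, 4] [1, 1, 1, 1, 3], .ref 1451 [0, 5] [1, 4, 5], .ref 1452 [0, 5, 2] [1, 2, 1, 5], .ref 2489 [0, 1, 2, 5, 3, 4] [1, 1, 1, 1, 1, 1], .ref 1451 [0, 5] [4, 1, 5], .ref 2008 [0, 2, 5, 3] [2, 1, 1, 5], .ref 2490 [0, 1, 2, 3, 5, 4] [1, 1, 1, 1, 1, 1], .ref 2482 [0, 1, 2, 3, 5] [1, 0, 1, 1, 3, 1],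 .ref 2021 [0, 2, 3, 5] [2, 1, 1, 5], .ref 2486 [0, 2, 3, 4, 5] [1, 1, 1, 1, 3], .ref 2482 [0, 1, 2, 3, 5] [1, 0, 1, 3, 1, 1], .ref 2021 [0, 2, 3, 5] [2, 1, 3, 3], .ref 2486 [0, 2, 3, 4, 5] [1, 1, 1, 1, 1], .ref 2486 [0, 2, 3, 4, 5] [1, 1, 1, 3, 1], .ref 2485 [0, 1, 2, 3, 5] [1, 0, 1, 3, 1, 1], .ref 2021 [0, 2, 3, 5] [2, 1, 5, 1]]),
([p 2 0, g, m 4 1, g, p 3 2, g, p 0 3, g, s 0 4, g, m 1 0, g], .leaf [1, 8, 5, 8, 2, 5, 5, 3]),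
([p 1 0, g, m 3 0, p 2 1, g, p 0 2, g, s 0 3, g], .inner (.hi 2) [.ref 2476 [0, 4, 1, 2, 3] [1, 1, 1, 1, 1], .ref 1494 [0, 4, 1] [1, 1, 0, 5], .ref 1463 [0, 4] [1, 1, 6], .ref 2477 [0, 4, 1, 2, 3] [1, 1, 1, 1, 1], .ref 1452 [0, 4, 1] [1, 0, 1, 5], .ref 2478 [0, 4, 1, 2, 3] [1, 0, 1, 1, 1, 1], .ref 1452 [0, 4, 1] [1, 0, 1, 3], .ref 2487 [0, 4, 1, 2, 3] [1, 1, 1, 1, 1], .ref 1452 [0, 4, 1] [1, 0, 3, 3], .ref 2488 [0, 4, 1, 2, 3] [1, 0, 1, 1, 1, 1], .cyc [2, 7], .ref 2491 [0, 4, 1, 2, 3] [1, 1, 1, 1, 1], .ref 1452 [0, 4, 1] [1, 0, 5, 1], .ref 2492 [0, 4, 1, 2, 3] [1, 0, 1, 1, 1, 1]]),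
([p 1 0, g, m 0 0, p 2 1, g, p 0 2, g], .inner (.lo 2) [.ref 1343 [0, 3] [1, 4], .ref 2461 [0, 3, 1, 2] [1, 1, 1, 1], .ref 1488 [0, 3] [1, 1, 4], .ref 2467 [0, 3, 1, 2] [1, 1, 1, 1], .cyc [2], .ref 2475 [0, 1, 3, 2] [1, 1, 1, 1], .ref 1477 [0, 3] [1, 2, 3], .ref 1463 [0, 3] [1, 2, 3], .ref 2493 [0, 1, 2, 3] [1, 1, 1, 1], .ref 1477 [0, 3] [1, 4, 1], .ref 1463 [0, 3] [1, 4, 1]]),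
([p 1 0, g, p 2 1, g, p 0 2, g], .inner (.bot 1) [.ref 2067 [0, 1, 2] [1, 1], .ref 2413 [0, 1, 2] [1, 1, 1], .ref 2454 [0, 1, 2] [1, 1, 1], .ref 2494 [0, 1, 2] [1, 1, 1]])]

def d09_3 : List (List Item × Pf) := [
([p 1 0, g, p 2 1, g, m 0 2, g], .leaf [1, 2, 0, 1]),
([p 1 0, g, p 0 1, g], .inner (.lo 2) [.cyc [0, 2], .ref 1571 [0, 2, 1] [1, 1, 1], .ref 1451 [0, 2] [1, 1, 1], .ref 1572 [0, 2, 1] [1, 1, 1], .ref 1994 [0, 1, 2] [1, 1, 1], .ref 2495 [0, 1, 2] [1, 1, 1], .ref 2496 [0, 1, 2] [1, 1, 1]]),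
([p 1 0, g, m 0 1, g], .leaf [1]),
([p 0 0, g], .inner (.lo 0) [.cyc [0], .ref 1340 [0, 1] [1, 1], .ref 2497 [0, 1] [1, 1], .ref 2498 [0, 1] [1, 1]]),
([m 0 1, g, s 1 0, g], .leaf [1]),
([m 0 1, g, p 1 0, g], .leaf [1]),
([m 1 0, s 2 0, g, s 0 1, g, m 0 2, g], .leaf [3, 2, 3]),
([m 1 0, g, p 0 1, g], .leaf [2, 1]),
([m 1 0, g, m 0 1, g], .leaf [0, 1]),
([m 2 0, s 1 0, g, m 0 1, g, s 0 2, g], .leaf [5, 4, 1]),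
([m 0 0, s 1 0, g, m 0 1, g], .inner (.lo 0) [.cyc [0], .contra, .ref 2502 [0, 2, 1] [1, 1, 1], .ref 2503 [0, 2] [2, 3], .ref 2504 [0, 2] [2, 3], .ref 2505 [0, 1, 2] [1, 1, 1], .ref 2503 [0, 2] [4, 1], .ref 2504 [0, 2] [4, 1]]),
([m 2 1, g, s 3 0, g, s 0 2, m 1 3, g], .leaf [4, 3, 4, 0, 1]),
([m 0 1, g, s 3 0, g, s 0 2, g, s 2 0, s 4 0, g, s 0 3, m 1 4, g], .leaf [6, 1, 9, 3, 2, 3]),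
([m 0 0, g, p 1 0, g, s 2 0, g, s 0 1, m 0 2, g], .leaf [4, 6, 3]),
([m 0 1, g, m 2 0, g, s 3 0, g, s 0 2, m 1 3, g], .leaf [6, 3, 6, 0, 3]),
([m 0 1, g, s 3 2, g, s 2 0, s 4 0, g, s 0 3, m 1 4, g], .leaf [4, 1, 7, 3, 2, 3]),
([m 0 1, g, s 0 2, g, s 3 0, g, s 2 0, s 4 0, g, s 0 3, m 1 4, g], .leaf [6, 3, 9, 3, 2, 5]),
([m 0 1, g, s 0 2, g, s 2 0, s 4 0, g, s 3 0, g, s 0 3, m 1 4, g], .leaf [4, 1, 9, 5, 4, 1]),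
([m 0 1, g, s 0 2, g, s 4 0, g, p 3 0, g, s 2 3, m 1 4, g], .leaf [5, 1, 7, 4, 6, 4, 1]),
([m 0 1, g, p 0 2, g, s 3 0, g, s 2 0, m 1 3, g], .leaf [6, 3, 6, 0, 3]),
([m 0 0, g, m 0 1, g, s 2 0, g, s 1 0, m 0 2, g], .leaf [4, 6, 3]),
([m 0 0, g, s 2 1, g, s 1 0, m 0 2, g], .leaf [2, 4, 3]),
([m 0 1, g, s 0 2, g, s 2 0, s 4 0, g, s 0 3, g, s 3 0, m 1 4, g], .leaf [4, 1, 9, 5, 4, 1]),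
([m 0 0, g, s 2 0, g, p 0 1, g, s 1 0, m 0 2, g], .leaf [2, 6, 1]),
([m 0 1, g, s 4 0, g, m 0 2, g, p 3 0, g, s 2 3, m 1 4, g], .leaf [7, 9, 1, 6, 1, 4, 1]),
([m 0 1, g, s 4 0, g, p 3 0, g, m 0 2, g, s 2 3, m 1 4, g], .leaf [7, 9, 1, 6, 1, 4, 1]),
([m 0 1, g, s 0 2, g, s 2 0, s 3 0, g, s 4 0, m 1 3, g, s 0 4, g], .leaf [4, 1, 7, 3, 2, 5]),
([m 0 0, g, s 1 0, g, s 2 0, m 0 1, g, p 0 2, g], .leaf [7, 2, 3]),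
([m 0 0, g, s 1 0, g, s 2 0, m 0 1, g, m 0 2, g], .leaf [2, 4, 5]),
([m 0 1, g, s 0 2, g, s 2 0, s 4 0, g, p 3 0, g, s 0 3, m 1 4, g], .inner (.lo 9) [.ref 2514 [0, 1, 5, 3, 4] [1, 4, 1, 1, 1], .ref 2515 [0, 1, 5, 4] [1, 4, 3, 1], .ref 2516 [0, 5, 4] [1, 4, 3, 1], .ref 2514 [0, 1, 5, 3, 4] [3, 2, 1, 1, 1], .ref 2515 [0, 1, 5, 4] [3, 2, 3, 1], .ref 2516 [0, 5, 4] [3, 2, 3, 1], .ref 2514 [0, 1, 5, 3, 4] [3, 0, 1, 1, 1], .ref 2517 [0, 5, 4] [4, 3, 1], .ref 2518 [0, 1, 2, 5, 4] [1, 1, 1, 3, 1], .ref 2519 [0, 5, 4] [4, 1, 3, 1], .ref 2520 [0, 1, 5, 3, 4] [4, 1, 1, 1, 1], .cyc [7, 9], .ref 2518 [0, 1, 2, 5, 4] [1, 1, 3, 1, 1], .ref 2519 [0, 5, 4] [4, 3, 1, 1], .ref 2521 [0, 1, 5, 3, 4] [4, 1, 1, 1, 1], .ref 2522 [0, 1, 2, 4,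 5] [1, 1, 3, 1, 1], .ref 2523 [0, 4, 5] [4, 3, 1, 1], .ref 2524 [0, 4, 5] [4, 3, 1, 1]]),
([m 0 0, g, s 2 0, g, m 1 0, g, s 0 1, m 0 2, g], .leaf [2, 6, 1]),
([m 0 1, g, s 0 2, g, s 2 0, s 4 0, g, s 0 3, m 1 4, g, s 3 0, g], .leaf [4, 1, 7, 3, 2, 5]),
([m 0 0, g, s 2 0, g, s 0 1, m 0 2, g, p 1 0, g], .leaf [2, 4, 5]),
([m 0 0, g, s 2 0, g, s 0 1, m 0 2, g, m 1 0, g], .leaf [7, 2, 3]),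
([m 0 1, g, s 0 2, g, s 2 0, s 3 0, g, s 0 0, m 1 3, g], .inner (.hi 7) [.ref 2507 [0, 1, 4, 3] [4, 1, 1], .ref 2508 [0, 1, 2, 4, 3] [1, 1, 1, 1, 1], .ref 2509 [0, 4, 3] [1, 4, 1, 1], .ref 2510 [0, 1, 4, 3] [1, 4, 1, 1], .ref 2511 [0, 1, 2, 4, 3] [1, 1, 1, 1], .ref 2512 [0, 1, 2, 4, 3] [1, 1, 1, 1, 1], .ref 2509 [0, 4, 3] [3, 2, 1, 1], .ref 2510 [0, 1, 4, 3] [3, 2, 1, 1], .ref 2513 [0, 1, 2, 4, 3] [1, 1, 1, 1, 1], .ref 2525 [0, 1, 2, 4, 3] [1, 1, 1, 1, 1], .ref 2526 [0, 4, 3] [4, 1, 1, 1], .cyc [7], .ref 2527 [0, 1, 2, 4, 3] [1, 1, 1, 1, 1], .ref 2528 [0, 4, 3] [4, 1, 1, 1], .ref 2529 [0, 4, 3] [4, 1, 1, 1]]),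
([m 0 1, g, p 0 2, g, s 2 0, s 3 0, g, m 1 3, g], .leaf [4, 1, 6, 2, 1]),
([m 2 1, g, s 0 2, s 3 0, g, m 1 3, g], .leaf [2, 1, 4, 2, 1]),
([m 0 1, g, s 3 0, g, m 0 2, g, s 2 3, s 4 0, g, m 1 4, g], .leaf [3, 9, 5, 1, 6, 4, 1]),
([m 0 1, g, p 3 0, g, m 0 2, g, s 2 3, s 4 0, g, m 1 4, g], .leaf [5, 9, 3, 6, 1, 4, 1]),
([m 0 1, g, m 2 0, g, s 0 2, s 3 0, g, m 1 3, g], .leaf [4, 1, 6, 2, 1]),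
([m 0 1, g, m 0 2, g, s 3 0, g, s 2 3, s 4 0, g, m 1 4, g], .leaf [5, 9, 3, 6, 1, 4, 1]),
([m 0 1, g, m 0 2, g, p 3 0, g, s 2 3, s 4 0, g, m 1 4, g], .leaf [5, 9, 3, 6, 1, 4, 1]),
([m 0 1, g, m 0 2, g, s 2 3, s 4 0, g, s 3 0, g, m 1 4, g], .leaf [1, 7, 2, 6, 6, 4, 1]),
([m 0 1, g, s 0 2, s 3 0, g, p 2 0, g, m 1 3, g], .leaf [6, 7, 0, 2, 3]),
([m 0 0, g, s 0 1, s 2 0, g, m 1 0, g, m 0 2, g], .leaf [5, 2, 5]),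
([m 0 1, g, m 0 2, g, s 2 3, s 4 0, g, m 1 4, g, s 3 0, g], .leaf [1, 7, 5, 1, 6, 4, 1]),
([m 0 1, g, s 0 2, s 3 0, g, m 1 3, g, p 2 0, g], .leaf [4, 5, 0, 2, 3]),
([m 0 0, g, s 0 1, s 2 0, g, m 0 2, g, m 1 0, g], .leaf [7, 4, 1]),
([m 0 1, g, m 0 2, g, s 2 0, s 3 0, g, m 1 3, g], .inner (.hi 4) [.ref 2532 [0, 1, 4, 3] [3, 1, 1], .ref 2533 [0, 1, 2, 4, 3] [1, 1, 1, 1, 1], .ref 2534 [0, 1, 2, 4, 3] [1, 1, 1, 1, 1], .ref 2535 [0, 1, 4, 3] [1, 3, 1, 1], .cyc [2, 4], .ref 2536 [0, 1, 2, 4, 3] [1, 1, 1, 1, 1], .ref 2537 [0, 1, 2, 4, 3] [1, 1, 1, 1, 1], .ref 2535 [0, 1, 4, 3] [3, 1, 1, 1], .ref 2538 [0, 1, 2, 4, 3] [1, 1, 1, 1, 1], .ref 2539 [0, 1, 4, 3] [3, 1, 1, 1], .ref 2540 [0, 4, 3] [3, 1, 1, 1], .ref 2541 [0, 1, 2, 4,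 3] [1, 1, 1, 1, 1], .ref 2542 [0, 1, 4, 3] [3, 1, 1, 1], .ref 2543 [0, 4, 3] [3, 1, 1, 1]]),
([m 0 1, g, s 0 2, g, s 3 0, s 4 0, g, s 0 3, g, s 2 0, m 1 4, g], .leaf [7, 2, 8, 3, 7, 5]),
([m 0 0, g, s 2 1, s 3 0, g, s 0 2, g, s 1 0, m 0 3, g], .leaf [5, 2, 6, 3]),
([m 0 1, g, s 3 0, s 4 0, g, s 0 2, g, s 0 3, g, s 2 0, m 1 4, g], .leaf [7, 4, 8, 5, 7, 3]),
([m 0 1, g, s 3 0, g, s 2 0, s 4 0, g, s 0 2, g, s 0 3, m 1 4, g], .leaf [7, 2, 8, 3, 7, 5]),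
([m 0 1, g, s 2 0, s 4 0, g, s 3 0, g, s 0 2, g, s 0 3, m 1 4, g], .leaf [7, 4, 8, 5, 7, 3]),
([m 0 1, g, s 2 0, s 4 0, g, s 3 2, g, s 0 3, m 1 4, g], .leaf [7, 1, 7, 0, 2, 3]),
([m 0 1, g, s 2 0, s 4 0, g, s 0 2, g, s 3 0, g, s 0 3, m 1 4, g], .leaf [9, 1, 9, 0, 2, 3]),
([m 0 1, g, s 2 0, s 4 0, g, s 0 2, g, s 0 3, m 1 4, g, s 3 0, g], .leaf [2, 4, 9, 2, 6, 5]),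
([m 0 1, g, s 3 0, s 4 0, g, m 0 2, g, s 0 3, g, s 2 0, m 1 4, g], .inner (.hi 9) [.ref 2507 [0, 1, 5, 4] [2, 5, 1], .ref 2548 [0, 1, 3, 5, 4] [1, 1, 3, 1, 1], .ref 2509 [0, 5, 4] [1, 2, 5, 1], .ref 2510 [0, 1, 5, 4] [1, 2, 5, 1], .ref 2549 [0, 1, 3, 5, 4] [1, 1, 3, 1, 1], .ref 2521 [0, 1, 2, 5, 4] [2, 1, 1, 3, 1], .ref 2526 [0, 5, 4] [2, 1, 5, 1], .cyc [5, 9], .ref 2549 [0, 1, 3, 5, 4] [1, 3, 1, 1, 1], .ref 2520 [0, 1, 2, 5, 4] [2, 1, 1, 3, 1], .ref 2526 [0, 5, 4] [2, 3, 3, 1], .ref 2550 [0, 1, 3, 5, 4] [1, 3, 1, 1], .ref 2551 [0, 1, 3, 5, 4] [1, 3, 1, 1, 1], .ref 2520 [0, 1, 2, 5, 4] [2, 1, 3, 1, 1], .ref 2526 [0, 5, 4] [2, 5, 1, 1], .ref 2552 [0, 1, 3, 5, 4] [1, 3, 1, 1, 1], .ref 2528 [0, 5, 4] [2, 5, 1, 1], .ref 2529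 [0, 5, 4] [2, 5, 1, 1]]),
([m 0 1, g, s 2 0, s 4 0, g, s 0 2, g, s 0 3, g, s 3 0, m 1 4, g], .leaf [9, 1, 9, 0, 2, 3]),
([m 0 1, g, s 2 0, s 4 0, g, s 0 2, g, m 0 3, g, s 3 0, m 1 4, g], .inner (.hi 9) [.ref 2507 [0, 1, 5, 4] [2, 5, 1], .ref 2548 [0, 1, 2, 5, 4] [1, 1, 1, 3, 1], .ref 2509 [0, 5, 4] [1, 2, 5, 1], .ref 2510 [0, 1, 5, 4] [1, 2, 5, 1], .ref 2549 [0, 1, 2, 5, 4] [1, 1, 1, 3, 1], .ref 2521 [0, 1, 3, 5, 4] [2, 1, 3, 1, 1], .ref 2526 [0, 5, 4] [2, 1, 5, 1], .ref 2550 [0, 1, 2, 5, 4] [1, 1, 3, 1], .ref 2551 [0, 1, 2, 5, 4] [1, 1, 1, 3, 1], .ref 2521 [0, 1, 3, 5, 4] [2, 3, 1, 1, 1], .ref 2526 [0, 5, 4] [2, 3, 3, 1], .cyc [7, 9], .ref 2551 [0, 1, 2, 5, 4] [1, 1, 3, 1, 1], .ref 2520 [0, 1, 3, 5, 4] [2, 3, 1, 1, 1],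 .ref 2526 [0, 5, 4] [2, 5, 1, 1], .ref 2552 [0, 1, 2, 5, 4] [1, 1, 3, 1, 1], .ref 2528 [0, 5, 4] [2, 5, 1, 1], .ref 2529 [0, 5, 4] [2, 5, 1, 1]]),
([m 0 1, g, s 2 0, s 3 0, g, s 0 2, g, s 4 0, m 1 3, g, s 0 4, g], .leaf [2, 4, 9, 2, 6, 5]),
([m 0 1, g, s 2 0, s 3 0, g, s 0 2, g, s 0 0, m 1 3, g], .inner (.lo 7) [.ref 2545 [0, 1, 4, 2, 3] [1, 1, 1, 1, 1], .ref 2515 [0, 1, 4, 3] [1, 2, 3, 1], .ref 2516 [0, 4, 3] [1, 2, 3, 1], .ref 2546 [0, 4, 2, 3] [1, 1, 1, 1], .ref 2517 [0, 4, 3] [2, 3, 1], .ref 2547 [0, 1, 4, 2, 3] [1, 1, 1, 1, 1], .ref 2519 [0, 4, 3] [2, 1, 3, 1], .ref 2553 [0, 1, 4, 2, 3] [1, 1, 1, 1, 1], .ref 2554 [0, 1, 2, 4, 3] [1, 1, 1, 1, 1], .ref 2519 [0, 4, 3] [2, 3, 1, 1], .ref 2555 [0, 1, 2, 4, 3] [1, 1, 1,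 1, 1], .cyc [7], .ref 2556 [0, 1, 2, 3, 4] [1, 1, 1, 1, 1], .ref 2523 [0, 3, 4] [2, 3, 1, 1], .ref 2524 [0, 3, 4] [2, 3, 1, 1]]),
([m 0 0, g, s 1 0, s 2 0, g, p 0 1, g, m 0 2, g], .leaf [5, 2, 5]),
([m 0 1, g, s 2 0, s 3 0, g, m 0 2, g, m 1 3, g], .leaf [6, 7, 0, 2, 3])]

def D09 : List (List (List Item × Pf)) := [d09_0, d09_1, d09_2, d09_3]

end Pool.Agent.H63.PU.C138
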