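import Pool.Agent.H63.PU.Short

/-! Certificate data, machine generated. -/

namespace Pool.Agent.H63.PU.C138

open Pool.Agent.H63.PU Pool.Agent.H63.PU.Short

set_option maxRecDepth 20000

def d10_0 : List (List Item × Pf) := [
([m 0 0, g, s 2 0, g, s 1 0, g, s 3 1, s 4 2, g, s 0 3, m 0 4, g], .leaf [2, 6, 1, 5, 6, 1]),
([m 0 0, g, p 2 0, g, s 1 0, g, s 3 1, s 4 2, g, s 0 3, m 0 4, g], .leaf [7, 9, 7, 3, 6, 3]),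
([m 0 0, g, m 2 0, g, s 1 0, g, s 3 1, s 4 2, g, s 0 3, m 0 4, g], .leaf [2, 6, 1, 5, 6, 1]),
([m 0 0, g, s 1 0, g, s 2 0, g, s 3 1, s 4 2, g, s 0 3, m 0 4, g], .leaf [4, 6, 3, 5, 6, 3]),
([m 0 0, g, s 1 0, g, p 2 0, g, s 3 1, s 4 2, g, s 0 3, m 0 4, g], .leaf [7, 9, 7, 1, 6, 3]),
([m 0 0, g, s 1 0, g, m 2 0, g, s 3 1, s 4 2, g, s 0 3, m 0 4, g], .leaf [4, 6, 3, 5, 6, 3]),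
([m 0 0, g, s 1 0, g, s 3 1, s 4 2, g, s 2 0, g, s 0 3, m 0 4, g], .leaf [5, 9, 7, 5, 6, 1]),
([m 0 1, g, s 2 0, g, s 0 2, s 4 3, g, p 3 0, g, m 1 4, g], .leaf [4, 1, 4, 6, 6, 0, 3]),
([m 0 0, g, s 1 0, g, s 3 1, s 4 2, g, m 2 0, g, s 0 3, m 0 4, g], .leaf [5, 9, 7, 5, 6, 1]),
([m 0 1, g, s 2 0, g, s 4 2, s 5 3, g, s 0 4, m 1 5, g, s 3 0, g], .leaf [4, 1, 4, 5, 1, 4, 0, 3]),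
([m 0 1, g, s 2 0, g, s 0 2, s 4 3, g, m 1 4, g, p 3 0, g], .leaf [4, 1, 4, 4, 4, 0, 3]),
([m 0 1, g, s 2 0, g, s 0 2, s 4 3, g, m 1 4, g, m 3 0, g], .leaf [4, 1, 8, 3, 1, 2, 1]),
([m 0 1, g, s 2 0, g, s 3 2, s 4 0, g, s 0 3, m 1 4, g], .inner (.hi 5) [.cyc [0, 8, 5], .ref 2560 [0, 2, 5, 3, 4] [1, 1, 1, 1, 1], .ref 2561 [0, 2, 5, 3, 4] [1, 1, 1, 1, 1], .ref 2562 [0, 2, 5, 3, 4] [1, 1, 1, 1, 1], .ref 2563 [0, 2, 5, 3, 4] [1, 1, 1, 1, 1], .ref 2564 [0, 2, 5, 3, 4] [1, 1, 1, 1, 1], .ref 2565 [0, 2, 5, 3, 4] [1, 1, 1, 1, 1], .ref 2566 [0, 2, 5, 3, 4] [1, 1, 1, 1, 1], .ref 2567 [0, 1, 2, 5, 4] [1, 1, 1, 2, 1], .ref 2568 [0, 2, 5, 3, 4] [1, 1, 1, 1, 1], .ref 2517 [0, 5, 4] [4, 1, 1], .ref 2569 [0, 1, 2, 5, 3, 4] [1, 1, 1, 1, 1],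 .ref 2570 [0, 1, 2, 5, 4] [1, 1, 2, 1, 1], .ref 2571 [0, 1, 2, 5, 4] [1, 1, 2, 1, 1]]),
([m 0 1, g, p 2 0, g, s 3 2, g, s 4 0, g, s 0 3, m 1 4, g], .leaf [3, 9, 5, 6, 4, 2, 3]),
([m 0 0, g, s 2 1, s 3 0, g, s 1 0, g, s 0 2, m 0 3, g], .leaf [5, 2, 6, 3]),
([m 0 0, g, s 2 0, g, s 3 1, s 4 2, g, s 0 3, m 0 4, g, s 1 0, g], .leaf [5, 7, 5, 1, 4, 5]),
([m 0 0, g, p 2 0, g, s 3 1, s 4 2, g, s 0 3, m 0 4, g, s 1 0, g], .leaf [5, 7, 5, 1, 4, 5]),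
([m 0 1, g, m 2 0, g, s 3 0, s 4 2, g, s 0 3, m 1 4, g], .leaf [7, 2, 3, 3, 5, 0, 3]),
([m 0 0, g, s 3 1, s 4 2, g, s 2 0, g, s 0 3, m 0 4, g, s 1 0, g], .leaf [3, 7, 5, 3, 4, 5]),
([m 0 1, g, s 3 0, g, s 4 2, g, p 2 0, g, s 0 3, m 1 4, g], .leaf [3, 4, 4, 7, 3, 2, 3]),
([m 0 0, g, s 3 1, s 4 2, g, m 2 0, g, s 0 3, m 0 4, g, s 1 0, g], .leaf [3, 7, 5, 3, 4, 5]),
([m 0 0, g, s 3 1, s 4 2, g, s 0 3, m 0 4, g, s 2 0, g, s 1 0, g], .leaf [3, 5, 3, 8, 4, 1]),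
([m 0 0, g, s 3 1, s 4 2, g, s 0 3, m 0 4, g, p 2 0, g, s 1 0, g], .leaf [3, 5, 3, 8, 4, 1]),
([m 0 1, g, s 3 0, g, s 4 2, g, s 0 3, m 1 4, g, m 2 0, g], .leaf [3, 7, 3, 2, 3, 5, 3]),
([m 0 0, g, s 3 1, s 4 2, g, s 0 3, m 0 4, g, s 1 0, g, s 2 0, g], .leaf [3, 5, 3, 6, 2, 5]),
([m 0 0, g, s 3 1, s 4 2, g, s 0 3, m 0 4, g, s 1 0, g, p 2 0, g], .leaf [3, 5, 3, 6, 2, 5]),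
([m 0 1, g, s 3 2, s 4 0, g, s 0 3, m 1 4, g, s 2 0, g], .inner (.hi 3) [.cyc [0, 6, 3], .ref 2575 [0, 2, 5, 3, 4] [1, 1, 1, 1, 1], .ref 2576 [0, 2, 5, 3, 4] [1, 1, 1, 1, 1], .ref 2577 [0, 1, 5, 3, 4] [1, 1, 1, 3], .ref 2578 [0, 2, 5, 3, 4] [1, 1, 1, 1, 1], .ref 2579 [0, 1, 5, 3, 4] [1, 0, 1, 1, 3], .ref 2580 [0, 2, 5, 3, 4] [1, 1, 1, 1, 1], .ref 2517 [0, 5, 4] [2, 1, 3], .ref 2581 [0, 2, 5, 3, 4] [1, 1, 1, 1, 1], .ref 2582 [0, 2, 5, 3, 4] [1, 1, 1, 1, 1], .ref 2583 [0, 1, 5, 3, 4] [1, 0, 1, 1, 3], .ref 2584 [0, 2, 5, 3, 4] [1, 1, 1, 1, 1], .ref 2585 [0, 2, 5, 3, 4] [1, 1, 1, 1, 1], .ref 2583 [0, 1, 5, 3, 4] [1, 0, 1, 3, 1]]),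
([m 0 1, g, s 2 0, s 3 0, g, s 0 2, m 1 3, g], .inner (.hi 2) [.ref 2532 [0, 1, 4, 3] [1, 2, 1], .ref 2572 [0, 1, 4, 2, 3] [1, 1, 1, 1], .ref 2573 [0, 1, 4, 2, 3] [1, 1, 0, 1, 1], .ref 2535 [0, 1, 4, 3] [1, 1, 2, 1], .ref 2574 [0, 4, 2, 3] [1, 1, 1, 1], .ref 2539 [0, 1, 4, 3] [1, 1, 2, 1], .ref 2540 [0, 4, 3] [1, 1, 2, 1], .cyc [2, 5], .ref 2586 [0, 1, 4, 2, 3] [1, 1, 1, 1], .ref 2542 [0, 1, 4, 3] [1, 2, 1, 1], .ref 2543 [0, 4, 3] [1, 2, 1, 1]]),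
([m 0 1, g, s 2 0, g, m 1 0, s 0 2, g], .leaf [2, 4, 1]),
([m 0 1, g, s 0 2, g, m 1 0, s 2 0, g], .leaf [2, 4, 1]),
([m 0 1, g, p 0 2, g, m 1 0, s 2 0, g], .leaf [2, 4, 1]),
([m 0 1, g, m 0 2, g, s 3 0, g, m 1 3, s 2 0, g], .leaf [3, 1, 5, 2, 1]),
([m 0 1, g, s 3 0, g, m 0 2, g, m 1 3, s 2 0, g], .leaf [5, 1, 5, 0, 1]),
([m 0 1, g, s 4 0, s 2 0, g, m 1 2, s 3 0, g, s 0 3, g, s 0 4, g], .leaf [10, 7, 1, 8, 6, 1]),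
([m 2 1, g, m 1 0, s 0 2, g], .leaf [0, 2, 1]),
([m 0 1, g, p 3 0, g, s 2 0, g, m 1 2, s 0 3, g], .leaf [3, 1, 5, 2, 1]),
([m 0 1, g, m 2 0, g, m 1 0, s 0 2, g], .leaf [2, 4, 1]),
([m 0 1, g, s 2 0, g, p 3 0, g, m 1 2, s 0 3, g], .leaf [5, 1, 5, 0, 1]),
([m 0 1, g, s 4 0, s 2 0, g, m 1 2, s 0 3, g, s 3 0, g, s 0 4, g], .leaf [10, 7, 1, 8, 6, 1]),
([m 0 1, g, s 4 0, s 2 0, g, m 1 2, s 0 3, g, p 3 0, g, s 0 4, g], .leaf [10, 7, 1, 8, 6, 1]),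
([m 0 1, g, s 2 0, g, m 1 2, s 4 3, g, m 3 0, g, p 0 4, g], .leaf [1, 7, 1, 7, 5, 2, 1]),
([m 0 1, g, s 2 0, g, m 1 2, s 4 3, g, p 0 4, g, m 3 0, g], .leaf [1, 7, 1, 7, 5, 2, 1]),
([m 0 1, g, s 4 0, s 2 0, g, m 1 2, s 0 3, g, s 3 4, g], .leaf [2, 7, 7, 5, 2, 1]),
([m 0 1, g, s 4 0, s 2 0, g, m 1 2, s 0 3, g, s 0 4, g, s 3 0, g], .leaf [2, 7, 9, 7, 2, 1]),
([m 0 1, g, s 4 0, s 2 0, g, m 1 2, s 0 3, g, s 0 4, g, p 3 0, g], .leaf [8, 5, 1, 6, 4, 5]),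
([m 0 1, g, s 4 0, s 2 0, g, m 1 2, s 3 0, g, p 0 3, g, s 0 4, g], .inner (.hi 6) [.ref 2594 [0, 1, 5] [4, 5], .ref 2588 [0, 1, 5] [1, 4, 5], .ref 2595 [0, 1, 2, 5] [1, 2, 1, 5], .ref 2596 [0, 1, 5] [1, 4, 5], .ref 2588 [0, 1, 5] [4, 1, 5], .ref 2597 [0, 1, 2, 5] [2, 1, 1, 5], .ref 2596 [0, 1, 5] [4, 1, 5], .ref 2598 [0, 1, 2, 5, 4] [1, 1, 1, 3, 1], .ref 2599 [0, 1, 2, 5, 4] [1, 1, 1, 3, 1], .ref 2600 [0, 1, 2, 5, 3] [2, 1, 1, 1, 3], .cyc [6, 8], .ref 2598 [0, 1, 2, 5, 4] [1, 1, 3, 1, 1], .ref 2599 [0, 1, 2, 5, 4] [1, 1, 3, 1, 1], .ref 2601 [0, 1, 2, 5, 3] [2, 1, 1, 1, 3], .ref 2602 [0, 1, 2, 5, 4] [1, 1, 3, 1], .ref 2603 [0, 1, 2, 5, 4] [1, 1, 3, 1, 1], .ref 2604 [0, 1, 2, 5, 4] [1, 1, 3, 1, 1], .ref 2601 [0, 1, 2, 5, 3]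 [2, 1, 1, 3, 1]]),
([m 0 1, g, s 4 0, s 2 0, g, m 1 2, s 3 0, g, m 0 3, g, s 0 4, g], .leaf [10, 7, 1, 8, 6, 1]),
([m 0 1, g, s 3 0, s 2 0, g, m 1 2, s 4 0, g, s 0 3, g, s 0 4, g], .leaf [2, 7, 9, 7, 2, 1]),
([m 0 1, g, s 3 0, s 2 0, g, m 1 2, s 4 0, g, s 0 3, g, p 0 4, g], .leaf [2, 7, 9, 7, 2, 1]),
([m 0 1, g, s 3 0, s 2 0, g, m 1 2, s 4 0, g, s 0 3, g, m 0 4, g], .leaf [8, 5, 1, 6, 4, 5]),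
([m 0 1, g, s 3 0, s 2 0, g, m 1 2, s 0 0, g, s 0 3, g], .inner (.lo 6) [.ref 2589 [0, 1, 4] [1, 4, 3], .ref 2590 [0, 1, 4] [1, 4, 3], .ref 2591 [0, 1, 4, 2] [1, 2, 1, 3], .ref 2589 [0, 1, 4] [1, 2, 3], .ref 2589 [0, 1, 4] [2, 1, 3], .ref 2589 [0, 1, 4] [4, 1, 3], .ref 2590 [0, 1, 4] [4, 1, 3], .ref 2592 [0, 1, 4, 2] [2, 1, 1, 3], .cyc [6], .ref 2593 [0, 1, 2, 4, 3] [1, 1, 1, 1, 1], .ref 2605 [0, 1, 2, 4, 3] [1, 1, 1, 1, 1], .ref 2606 [0, 1, 2, 4, 3] [1, 1, 1, 1, 1], .ref 2607 [0, 1, 2, 3, 4] [1, 1, 1, 1, 1], .ref 2608 [0, 1, 2, 3, 4] [1, 1, 1, 1, 1], .ref 2609 [0, 1, 2, 3, 4] [1, 1, 1, 1, 1]]),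
([m 0 1, g, s 0 2, g, m 1 0, p 2 0, g], .leaf [2, 4, 1]),
([m 0 0, g, p 0 1, g, p 1 0, g], .leaf [2, 3]),
([m 0 1, g, m 0 2, g, m 1 0, g, p 2 0, g], .leaf [1, 4, 2, 3]),
([m 0 1, g, s 4 0, s 2 0, g, m 1 2, p 3 0, g, s 0 3, g, s 0 4, g], .leaf [10, 7, 1, 8, 6, 1]),
([m 0 1, g, s 4 0, s 2 0, g, m 1 2, p 3 0, g, p 0 3, g, s 0 4, g], .leaf [4, 6, 7, 6, 0, 2, 5]),
([m 0 1, g, s 3 0, g, m 1 0, p 2 0, g, m 0 2, g, s 0 3, g], .leaf [8, 6, 7, 4, 1]),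
([m 0 1, g, s 3 0, s 2 0, g, m 1 2, p 4 0, g, s 0 3, g, s 0 4, g], .leaf [2, 7, 9, 7, 2, 1]),
([m 0 1, g, s 2 0, g, m 1 0, p 3 0, g, s 0 2, g, p 0 3, g], .leaf [2, 6, 8, 6, 1]),
([m 0 1, g, s 2 0, g, m 1 0, p 3 0, g, s 0 2, g, m 0 3, g], .leaf [6, 4, 5, 2, 5]),
([m 0 1, g, s 3 0, s 2 0, g, m 1 2, p 0 0, g, s 0 3, g], .inner (.lo 6) [.ref 2611 [0, 1, 4] [1, 4, 3], .ref 2612 [0, 4] [1, 5, 3], .ref 2613 [0, 1, 4] [1, 4, 0, 3], .ref 2542 [0, 1, 4, 2] [1, 1, 0, 3], .ref 2611 [0, 1, 4] [2, 1, 3], .ref 2611 [0, 1, 4] [4, 1, 3], .ref 2612 [0, 4] [4, 2, 3], .ref 2613 [0, 1, 4] [4, 1, 0, 3], .cyc [6], .ref 2614 [0, 1, 2, 4, 3] [1, 1, 1, 1, 1], .ref 2615 [0, 1, 2, 4, 3] [1, 1, 1, 1, 1], .ref 2616 [0, 1, 4, 3] [1, 2, 1, 1, 1], .ref 2617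 [0, 1, 2, 3, 4] [1, 1, 1, 1, 1], .ref 2618 [0, 1, 3, 4] [1, 2, 1, 1, 1], .ref 2619 [0, 1, 3, 4] [1, 2, 1, 1, 1]]),
([m 0 1, g, s 2 0, g, m 1 0, m 0 2, g], .leaf [2, 4, 1]),
([m 0 1, g, p 2 0, g, m 1 0, g, m 0 2, g], .leaf [1, 4, 2, 3]),
([m 0 0, g, m 1 0, g, m 0 1, g], .leaf [2, 3])]

def d10_1 : List (List Item × Pf) := [
([m 0 1, g, s 4 0, s 2 0, g, m 1 2, m 0 3, g, s 3 0, g, s 0 4, g], .leaf [10, 7, 1, 8, 6, 1]),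
([m 0 1, g, s 3 0, g, m 1 0, m 0 2, g, p 2 0, g, s 0 3, g], .leaf [8, 6, 7, 4, 1]),
([m 0 1, g, s 4 0, s 2 0, g, m 1 2, m 0 3, g, m 3 0, g, s 0 4, g], .leaf [4, 6, 7, 6, 0, 2, 5]),
([m 0 1, g, s 3 0, g, m 1 0, m 0 2, g, s 2 3, g], .leaf [2, 6, 6, 4, 1]),
([m 0 1, g, s 4 0, s 2 0, g, m 1 2, m 0 3, g, s 0 4, g, s 3 0, g], .leaf [2, 7, 9, 7, 2, 1]),
([m 0 1, g, s 3 0, g, m 1 0, m 0 2, g, s 0 3, g, p 2 0, g], .leaf [6, 4, 5, 2, 5]),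
([m 0 1, g, s 3 0, g, m 1 0, m 0 2, g, s 0 3, g, m 2 0, g], .leaf [2, 6, 8, 6, 1]),
([m 0 1, g, s 3 0, s 2 0, g, m 1 2, m 0 0, g, s 0 3, g], .inner (.hi 6) [.ref 2504 [0, 4] [5, 3], .ref 2621 [0, 1, 4] [1, 4, 3], .ref 2622 [0, 1, 4] [1, 4, 0, 3], .ref 2623 [0, 4] [1, 5, 3], .ref 2621 [0, 1, 4] [4, 1, 3], .ref 2622 [0, 1, 4] [4, 1, 0, 3], .ref 2623 [0, 4] [4, 2, 3], .cyc [6], .ref 2624 [0, 1, 2, 4, 3] [1, 1, 1, 1, 1], .ref 2625 [0, 1, 4, 3] [1, 2, 1, 1, 1], .ref 2626 [0, 1, 2, 4, 3] [1, 1, 1, 1, 1], .ref 2627 [0, 1, 4, 3] [1, 2, 1, 1], .ref 2628 [0, 1, 2, 4, 3] [1, 1, 1, 1, 1], .ref 2629 [0, 1, 4, 3] [1, 2, 1, 1, 1], .ref 2630 [0, 1, 4, 3] [1, 2, 1, 1, 1]]),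
([m 0 1, g, s 3 0, s 2 0, g, m 1 2, g, s 0 3, g], .inner (.top 6) [.ref 2588 [0, 1, 3] [1, 2, 1], .ref 2610 [0, 1, 2, 3] [1, 1, 1, 1], .ref 2620 [0, 1, 2, 3] [1, 1, 1, 1], .ref 2631 [0, 1, 2, 3] [1, 1, 1, 1]]),
([m 0 0, g, s 2 0, s 1 0, g, m 0 1, g, p 0 2, g], .leaf [7, 4, 1]),
([m 0 1, g, s 3 0, s 2 0, g, m 1 2, g, m 0 3, g], .leaf [4, 5, 0, 2, 3]),
([m 0 1, g, s 0 0, s 2 0, g, s 0 0, m 1 2, g], .inner (.lo 2) [.ref 2530 [0, 1, 3, 2] [1, 1, 1, 1], .ref 2531 [0, 1, 3, 2] [1, 1, 2, 1], .ref 2544 [0, 1, 3, 2] [1, 1, 2, 1], .cyc [2], .contra, .ref 2557 [0, 1, 3, 2] [1, 1, 1, 1], .ref 2558 [0, 3, 2] [1, 1, 2, 1], .ref 2559 [0, 1, 3, 2] [1, 1, 2, 1], .ref 2587 [0, 1, 3, 2] [1, 1, 1], .ref 2632 [0, 1, 2, 3] [1, 2, 1, 1], .ref 2633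 [0, 2, 3] [1, 2, 1, 1], .ref 2634 [0, 1, 2, 3] [1, 2, 1, 1]]),
([m 0 0, g, s 1 0, g, s 2 0, g, p 0 1, m 0 2, g], .leaf [4, 6, 3]),
([m 0 0, g, p 1 0, g, s 2 0, g, p 0 1, m 0 2, g], .leaf [4, 6, 3]),
([m 0 0, g, m 1 0, g, p 0 1, g], .leaf [4, 1]),
([m 0 0, g, s 2 0, g, s 1 0, g, p 0 1, m 0 2, g], .leaf [2, 6, 1]),
([m 0 1, g, s 0 2, g, s 4 0, g, p 3 0, g, p 2 3, m 1 4, g], .leaf [7, 9, 1, 2, 4, 2, 3]),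
([m 0 1, g, m 0 2, g, p 2 0, g, m 1 0, g], .leaf [1, 6, 4, 1]),
([m 0 1, g, s 4 2, g, p 3 0, g, p 2 3, m 1 4, g], .leaf [1, 2, 4, 5, 1, 0, 1]),
([m 0 1, g, s 4 0, g, s 0 2, g, p 3 0, g, p 2 3, m 1 4, g], .leaf [1, 4, 6, 7, 3, 2, 3]),
([m 0 1, g, s 4 0, g, p 3 0, g, s 0 2, g, p 2 3, m 1 4, g], .leaf [7, 9, 1, 6, 1, 4, 1]),
([m 0 1, g, s 3 0, g, p 2 0, g, p 4 2, m 1 3, g, s 0 4, g], .leaf [5, 7, 1, 6, 1, 4, 1]),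
([m 0 1, g, s 3 0, g, p 2 0, g, p 4 2, g, m 1 3, g, p 0 4, g], .leaf [1, 8, 6, 5, 7, 5, 5, 3]),
([m 0 1, g, s 3 0, g, p 2 0, g, p 0 2, m 1 3, g], .inner (.lo 6) [.ref 2640 [0, 1, 4, 2, 3] [1, 1, 1, 1, 1], .ref 2612 [0, 4] [1, 5, 2], .ref 2641 [0, 1, 4] [1, 5, 0, 1], .ref 2642 [0, 1, 4, 2, 3] [1, 1, 1, 1], .ref 2643 [0, 1, 4, 2, 3] [1, 1, 1, 1, 1], .ref 2612 [0, 4] [3, 3, 2], .ref 2641 [0, 1, 4] [3, 3, 0, 1], .cyc [4, 6], .ref 2644 [0, 1, 4, 2, 3] [1, 1, 1, 1, 1], .ref 2612 [0, 4] [5, 1, 2], .ref 2641 [0, 1, 4] [5, 1, 0, 1], .ref 2645 [0, 1, 2, 3, 4] [1, 1, 1, 1, 1], .ref 2646 [0, 1, 2, 3, 4] [1, 1, 1, 0, 1, 1], .ref 2622 [0, 1, 4] [5, 0, 1, 1]]),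
([m 0 0, g, s 2 0, g, p 0 1, m 0 2, g, s 1 0, g], .leaf [2, 4, 5]),
([m 0 0, g, p 0 1, g, m 1 0, g], .leaf [4, 1]),
([m 0 1, g, s 2 0, g, p 0 0, m 1 2, g], .inner (.hi 4) [.ref 2503 [0, 3] [3, 2], .ref 2636 [0, 3, 2] [1, 1, 1, 1], .ref 2637 [0, 3, 2] [1, 1, 1, 1], .ref 2638 [0, 3] [1, 3, 2], .ref 2639 [0, 3, 2] [1, 1, 1, 1], .ref 2647 [0, 1, 3, 2] [1, 1, 1, 1], .ref 2638 [0, 3] [3, 1, 2], .cyc [4], .ref 2648 [0, 3, 2] [1, 1, 1, 1], .ref 2612 [0, 3] [3, 2, 1], .ref 2649 [0, 3] [3, 2, 1]]),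
([m 0 0, g, s 0 1, g, s 2 0, g, m 1 0, m 0 2, g], .leaf [4, 6, 3]),
([m 0 0, g, m 0 1, g, s 2 0, g, m 1 0, m 0 2, g], .leaf [4, 6, 3]),
([m 0 0, g, s 2 1, g, m 1 0, m 0 2, g], .leaf [2, 4, 3]),
([m 0 0, g, s 2 0, g, s 0 1, g, m 1 0, m 0 2, g], .leaf [2, 6, 1]),
([m 0 1, g, s 3 0, g, s 4 0, g, m 0 2, g, m 2 3, m 1 4, g], .leaf [7, 9, 1, 2, 4, 2, 3]),
([m 0 1, g, p 2 0, g, m 0 2, g, m 1 0, g], .leaf [1, 6, 4, 1]),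
([m 0 1, g, s 4 0, g, s 3 0, g, m 0 2, g, m 2 3, m 1 4, g], .leaf [1, 4, 6, 7, 3, 2, 3]),
([m 0 1, g, s 4 0, g, m 0 2, g, s 3 0, g, m 2 3, m 1 4, g], .leaf [7, 9, 1, 6, 1, 4, 1]),
([m 0 1, g, s 4 0, g, m 0 2, g, m 2 3, m 1 4, g, s 3 0, g], .leaf [5, 7, 1, 6, 1, 4, 1]),
([m 0 1, g, s 4 0, g, m 0 2, g, m 2 3, g, m 1 4, g, m 3 0, g], .leaf [1, 8, 6, 5, 7, 5, 5, 3]),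
([m 0 1, g, s 3 0, g, m 0 2, g, m 2 0, m 1 3, g], .inner (.hi 6) [.ref 2504 [0, 4] [5, 2], .ref 2655 [0, 1, 2, 4, 3] [1, 1, 1, 1, 1], .ref 2656 [0, 1, 4] [1, 5, 0, 1], .ref 2623 [0, 4] [1, 5, 2], .ref 2657 [0, 1, 2, 4, 3] [1, 1, 1, 1, 1], .ref 2656 [0, 1, 4] [3, 3, 0, 1], .ref 2623 [0, 4] [3, 3, 2], .cyc [4, 6], .ref 2658 [0, 1, 2, 4, 3] [1, 1, 1, 1, 1], .ref 2656 [0, 1, 4] [5, 1, 0, 1], .ref 2623 [0, 4] [5, 1, 2], .ref 2659 [0, 1, 2, 4, 3] [1, 1, 1, 1, 1], .ref 2613 [0, 1, 4] [5, 0, 1, 1], .ref 2660 [0, 1, 2, 4, 3] [1, 1, 1, 0, 1, 1]]),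
([m 0 0, g, s 1 0, g, m 2 0, m 0 1, g, s 0 2, g], .leaf [2, 4, 5]),
([m 0 1, g, s 2 0, g, m 0 0, m 1 2, g], .inner (.lo 4) [.ref 2651 [0, 3, 2] [1, 1, 1, 1], .ref 2649 [0, 3] [1, 3, 2], .ref 2652 [0, 3, 2] [1, 1, 1, 1], .ref 2653 [0, 3, 2] [1, 1, 1], .ref 2654 [0, 3, 2] [1, 1, 1, 1], .ref 2649 [0, 3] [3, 1, 2], .ref 2661 [0, 1, 3, 2] [1, 1, 1, 1], .cyc [4], .ref 2662 [0, 2, 3] [1, 1, 1, 1], .ref 2638 [0, 3] [3, 2, 1], .ref 2623 [0, 3] [3, 2, 1]]),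
([m 0 1, g, s 0 0, s 2 0, g, m 1 2, g], .inner (.bot 4) [.contra, .ref 2635 [0, 1, 2] [1, 1, 1], .ref 2650 [0, 1, 2] [2, 1, 1], .ref 2663 [0, 1, 2] [2, 1, 1]]),
([m 0 1, g, s 2 0, g, p 0 2, s 3 0, g, m 1 3, g], .leaf [4, 1, 6, 2, 1]),
([m 0 1, g, s 2 0, g, p 3 2, g, p 0 3, s 4 0, g, m 1 4, g], .leaf [4, 1, 8, 4, 6, 4, 1]),
([m 0 1, g, s 0 2, g, p 3 0, g, p 4 3, g, p 2 4, g, m 1 0, g], .leaf [1, 10, 8, 5, 5, 3, 3, 1]),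
([m 0 1, g, p 3 0, g, s 0 2, g, p 4 3, g, p 2 4, g, m 1 0, g], .leaf [3, 6, 4, 8, 6, 3, 3, 1]),
([m 0 1, g, p 3 0, g, s 0 2, g, p 2 3, s 4 0, g, m 1 4, g], .leaf [5, 9, 3, 6, 1, 4, 1]),
([m 0 1, g, p 2 0, g, p 3 2, g, p 4 3, g, s 0 4, g, m 1 0, g], .leaf [5, 6, 4, 4, 2, 6, 4, 1]),
([m 0 1, g, p 2 0, g, p 3 2, g, s 4 0, g, p 0 3, g, m 1 4, g], .leaf [5, 8, 6, 6, 4, 6, 4, 3]),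
([m 0 1, g, p 2 0, g, p 4 2, s 3 0, g, m 1 3, g, s 0 4, g], .leaf [3, 7, 3, 6, 1, 4, 1]),
([m 0 1, g, p 2 0, g, p 4 2, g, s 3 0, g, m 1 3, g, p 0 4, g], .leaf [5, 10, 8, 8, 6, 4, 2, 1]),
([m 0 1, g, p 2 0, g, p 3 2, g, p 0 3, s 4 0, g, m 1 4, g], .inner (.lo 6) [.ref 2667 [0, 1, 5, 2, 3] [1, 1, 1, 1, 2, 1], .ref 2612 [0, 5] [1, 5, 4], .ref 2641 [0, 1, 5] [1, 5, 2, 1], .cyc [2, 6, 4], .ref 2668 [0, 1, 5, 2, 3] [1, 1, 1, 1, 2, 1], .ref 2612 [0, 5] [3, 3, 4], .ref 2641 [0, 1, 5] [3, 3, 2, 1], .ref 2669 [0, 1, 5, 3, 4] [3, 1, 1, 1, 1], .ref 2612 [0, 5] [5, 1, 4], .ref 2641 [0, 1, 5] [5, 1, 2, 1], .ref 2670 [0, 1, 2, 3, 5] [1, 1, 1, 0, 1, 1], .ref 2670 [0, 1, 2, 3, 5] [1, 1, 1, 2, 1, 1], .ref 2671 [0, 1, 3, 5, 4] [3, 1, 0, 1, 1,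 1], .ref 2656 [0, 1, 5] [5, 2, 1, 1], .ref 2672 [0, 1, 3, 4, 5] [3, 1, 1, 1, 1], .ref 2673 [0, 1, 3, 4, 5] [3, 1, 0, 1, 1, 1], .ref 2622 [0, 1, 5] [5, 2, 1, 1]]),
([m 2 1, g, p 3 0, g, s 0 2, g, p 0 3, s 4 0, g, m 1 4, g], .leaf [4, 3, 8, 4, 6, 4, 1]),
([m 0 1, g, s 2 0, g, p 3 0, g, s 0 2, g, p 0 3, s 4 0, g, m 1 4, g], .leaf [6, 3, 10, 4, 8, 6, 1]),
([m 0 1, g, p 3 0, g, p 4 2, g, s 2 3, g, p 0 4, g, m 1 0, g], .leaf [1, 10, 8, 3, 5, 3, 3, 1]),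
([m 0 1, g, m 2 0, g, p 3 0, g, s 0 2, g, p 0 3, s 4 0, g, m 1 4, g], .leaf [6, 3, 10, 4, 8, 6, 1]),
([m 0 1, g, p 3 0, g, s 2 0, g, s 0 2, g, p 0 3, s 4 0, g, m 1 4, g], .leaf [5, 11, 5, 8, 1, 4, 1]),
([m 0 1, g, p 3 0, g, p 2 0, g, s 0 2, g, p 0 3, s 4 0, g, m 1 4, g], .leaf [5, 11, 5, 8, 1, 4, 1]),
([m 0 1, g, p 4 2, g, m 3 0, g, s 2 3, g, p 0 4, g, m 1 0, g], .leaf [4, 5, 5, 1, 5, 3, 5, 3]),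
([m 0 1, g, p 3 0, g, s 0 2, g, s 2 0, g, p 0 3, s 4 0, g, m 1 4, g], .leaf [5, 11, 5, 8, 1, 4, 1]),
([m 0 1, g, p 3 0, g, s 0 2, g, p 2 0, g, p 0 3, s 4 0, g, m 1 4, g], .leaf [5, 11, 5, 8, 1, 4, 1]),
([m 0 1, g, p 4 2, g, s 2 3, g, m 3 0, g, p 0 4, g, m 1 0, g], .leaf [2, 3, 5, 1, 5, 3, 5, 3]),
([m 0 0, g, p 3 1, g, s 1 2, g, p 0 3, s 4 0, g, s 2 0, g, m 0 4, g], .leaf [2, 3, 8, 4, 4, 2, 5]),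
([m 0 1, g, p 4 2, g, s 2 3, g, p 0 4, g, p 3 0, g, m 1 0, g], .leaf [4, 1, 5, 3, 3, 3, 5, 3]),
([m 0 0, g, p 2 0, g, s 0 1, g, p 0 2, s 3 0, g, m 1 0, g, m 0 3, g], .leaf [9, 4, 6, 4, 7])]

def d10_2 : List (List Item × Pf) := [
([m 0 1, g, p 3 0, g, s 0 2, g, p 0 3, s 4 0, g, m 1 4, g, s 2 0, g], .leaf [3, 9, 5, 8, 1, 4, 1]),
([m 0 1, g, p 3 0, g, s 0 2, g, p 0 3, s 4 0, g, m 1 4, g, p 2 0, g], .leaf [3, 9, 5, 8, 1, 4, 1]),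
([m 0 0, g, p 2 0, g, s 0 1, g, p 0 2, s 3 0, g, m 0 3, g, m 1 0, g], .leaf [11, 6, 8, 6, 1]),
([m 0 1, g, p 3 2, g, s 2 0, g, p 0 3, s 4 0, g, m 1 4, g], .inner (.hi 4) [.ref 2675 [0, 1, 5, 3, 4] [1, 1, 1, 1, 1], .ref 2676 [0, 1, 5, 3, 4] [1, 1, 1, 1, 1, 1], .ref 2677 [0, 1, 2, 5, 3] [1, 1, 1, 1, 2, 1], .ref 2678 [0, 1, 5, 3, 4] [1, 1, 1, 1, 1, 1], .ref 2679 [0, 1, 5, 3, 4] [1, 1, 1, 1, 1, 1], .ref 2680 [0, 1, 5, 3, 4] [1, 1, 1, 1, 1, 1], .ref 2681 [0, 1, 2, 5, 3] [1, 1, 1, 1, 2, 1], .ref 2682 [0, 1, 5, 3, 4] [1, 1, 1, 1, 1, 1], .ref 2683 [0, 1, 5, 3, 4] [1, 1, 1, 1, 1, 1], .ref 2684 [0, 1, 2, 5, 3] [1, 1, 1, 1, 2, 1], .cyc [2, 4, 6], .ref 2685 [0, 2, 5, 3, 4] [1, 1, 1, 1, 1, 1], .ref 2686 [0, 1, 2, 5, 3] [1, 1, 1, 2, 1,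 1], .ref 2687 [0, 5, 3, 4] [1, 1, 1, 1, 1, 1], .ref 2688 [0, 1, 5, 3, 4] [1, 1, 1, 1, 1, 1], .ref 2689 [0, 1, 5, 3, 4] [1, 1, 1, 1, 1, 1], .ref 2690 [0, 5, 3, 4] [1, 1, 1, 1, 1, 1]]),
([m 0 0, g, p 2 1, g, p 0 2, s 3 0, g, s 1 0, g, m 0 3, g], .leaf [7, 4, 4, 2, 5]),
([m 0 0, g, p 2 1, g, p 0 2, s 3 0, g, m 0 3, g, s 1 0, g], .leaf [9, 6, 6, 4, 1]),
([m 0 1, g, p 2 0, g, p 0 2, s 3 0, g, m 1 3, g], .inner (.hi 2) [.ref 2503 [0, 4] [1, 6], .ref 2666 [0, 1, 4, 2, 3] [1, 1, 1, 1, 1], .ref 2674 [0, 1, 4, 2, 3] [1, 1, 1, 1, 1], .ref 2638 [0, 4] [1, 1, 6], .ref 2691 [0, 1, 4, 2, 3] [1, 1, 1, 1, 1], .ref 2612 [0, 4] [1, 1, 6], .ref 2649 [0, 4] [1, 1, 6], .cyc [2, 4], .ref 2692 [0, 4, 2, 3] [1, 1, 1, 1, 1], .ref 2612 [0, 4] [1, 4,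 3], .ref 2649 [0, 4] [1, 4, 3], .ref 2693 [0, 4, 2, 3] [1, 1, 1, 1, 1], .ref 2612 [0, 4] [1, 6, 1], .ref 2649 [0, 4] [1, 6, 1]]),
([m 0 0, g, p 0 1, s 2 0, g, s 1 0, g, m 0 2, g], .leaf [5, 2, 5]),
([m 0 0, g, p 0 1, s 2 0, g, m 0 2, g, s 1 0, g], .leaf [7, 4, 1]),
([m 0 1, g, p 0 0, s 2 0, g, m 1 2, g], .inner (.hi 2) [.ref 2503 [0, 3] [1, 4], .ref 2665 [0, 1, 3, 2] [1, 1, 1, 1], .ref 2694 [0, 1, 3, 2] [1, 1, 1, 1], .ref 2638 [0, 3] [1, 1, 4], .cyc [2], .ref 2695 [0, 3, 2] [1, 1, 1, 1], .ref 2612 [0, 3] [1, 2, 3], .ref 2649 [0, 3] [1, 2, 3], .ref 2696 [0, 3, 2] [1, 1, 1, 1], .ref 2612 [0, 3] [1, 4, 1], .ref 2649 [0, 3] [1, 4, 1]]),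
([m 0 1, g, s 0 2, g, m 2 0, s 3 0, g, m 1 3, g], .leaf [4, 1, 6, 2, 1]),
([m 0 1, g, s 0 2, g, m 2 3, g, m 3 0, s 4 0, g, m 1 4, g], .leaf [4, 1, 8, 4, 6, 4, 1]),
([m 0 1, g, s 4 0, g, m 0 2, g, m 2 3, g, m 3 4, g, m 1 0, g], .leaf [1, 10, 8, 5, 5, 3, 3, 1]),
([m 0 1, g, m 0 2, g, s 4 0, g, m 2 3, g, m 3 4, g, m 1 0, g], .leaf [3, 6, 4, 8, 6, 3, 3, 1]),
([m 0 1, g, m 0 2, g, s 3 0, g, m 2 3, s 4 0, g, m 1 4, g], .leaf [5, 9, 3, 6, 1, 4, 1]),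
([m 0 1, g, m 0 2, g, m 2 3, g, m 3 4, g, s 4 0, g, m 1 0, g], .leaf [5, 6, 4, 4, 2, 6, 4, 1]),
([m 0 1, g, m 0 2, g, m 2 3, g, s 4 0, g, m 3 0, g, m 1 4, g], .leaf [5, 8, 6, 6, 4, 6, 4, 3]),
([m 0 1, g, m 0 2, g, m 2 3, s 4 0, g, m 1 4, g, s 3 0, g], .leaf [3, 7, 3, 6, 1, 4, 1]),
([m 0 1, g, m 0 2, g, m 2 3, g, s 4 0, g, m 1 4, g, m 3 0, g], .leaf [5, 10, 8, 8, 6, 4, 2, 1]),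
([m 0 1, g, m 0 2, g, m 2 3, g, m 3 0, s 4 0, g, m 1 4, g], .inner (.hi 6) [.ref 2504 [0, 5] [5, 4], .ref 2700 [0, 1, 2, 3, 5] [1, 1, 1, 1, 2, 1], .ref 2656 [0, 1, 5] [1, 5, 2, 1], .ref 2623 [0, 5] [1, 5, 4], .cyc [2, 4, 6], .ref 2701 [0, 1, 2, 3, 5] [1, 1, 1, 1, 2, 1], .ref 2656 [0, 1, 5] [3, 3, 2, 1], .ref 2623 [0, 5] [3, 3, 4], .ref 2702 [0, 1, 3, 5, 4] [3, 1, 1, 1, 1], .ref 2656 [0, 1, 5] [5, 1, 2, 1], .ref 2623 [0, 5] [5, 1, 4], .ref 2703 [0, 1, 2, 3, 5] [1, 1, 1, 2, 1, 1], .ref 2641 [0, 1, 5] [5, 2, 1, 1], .ref 2704 [0, 1, 3, 5, 4] [3, 1, 0, 1, 1, 1], .ref 2705 [0, 1, 3, 5, 4] [3, 1, 1, 1, 1], .ref 2613 [0, 1, 5] [5, 2, 1, 1], .ref 2706 [0, 1, 3, 5, 4] [3, 1, 0, 1, 1, 1]]),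
([m 0 1, g, s 0 2, g, m 0 3, g, s 2 0, g, m 3 0, s 4 0, g, m 1 4, g], .leaf [6, 3, 10, 4, 8, 6, 1]),
([m 0 1, g, p 0 2, g, m 0 3, g, s 2 0, g, m 3 0, s 4 0, g, m 1 4, g], .leaf [6, 3, 10, 4, 8, 6, 1]),
([m 0 1, g, m 0 2, g, m 4 3, g, s 2 4, g, m 3 0, g, m 1 0, g], .leaf [1, 10, 8, 3, 5, 3, 3, 1]),
([m 0 1, g, m 0 2, g, s 0 3, g, s 3 0, g, m 2 0, s 4 0, g, m 1 4, g], .leaf [5, 11, 5, 8, 1, 4, 1]),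
([m 0 1, g, m 4 2, g, p 0 3, g, s 3 4, g, m 2 0, g, m 1 0, g], .leaf [4, 5, 5, 1, 5, 3, 5, 3]),
([m 0 1, g, m 0 2, g, m 0 3, g, s 3 0, g, m 2 0, s 4 0, g, m 1 4, g], .leaf [5, 11, 5, 8, 1, 4, 1]),
([m 0 1, g, m 0 2, g, s 3 0, g, s 0 3, g, m 2 0, s 4 0, g, m 1 4, g], .leaf [5, 11, 5, 8, 1, 4, 1]),
([m 0 1, g, m 3 2, g, s 4 3, g, p 0 4, g, m 2 0, g, m 1 0, g], .leaf [2, 3, 5, 1, 5, 3, 5, 3]),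
([m 0 1, g, m 0 2, g, s 3 0, g, m 0 3, g, m 2 0, s 4 0, g, m 1 4, g], .leaf [5, 11, 5, 8, 1, 4, 1]),
([m 0 0, g, m 0 1, g, s 2 0, g, m 1 0, s 0 2, g], .leaf [4, 6, 3]),
([m 0 0, g, m 2 1, g, s 3 2, g, m 1 0, s 4 0, g, s 0 3, g, m 0 4, g], .leaf [2, 3, 8, 4, 4, 2, 5]),
([m 0 0, g, m 0 1, g, s 2 0, g, m 1 0, s 3 0, g, p 0 2, g, m 0 3, g], .leaf [9, 4, 6, 4, 7]),
([m 0 1, g, m 3 2, g, s 4 3, g, m 2 0, g, m 0 4, g, m 1 0, g], .leaf [4, 1, 5, 3, 3, 3, 5, 3]),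
([m 0 1, g, m 0 2, g, s 4 0, g, m 2 0, s 3 0, g, m 1 3, g, s 0 4, g], .leaf [3, 9, 5, 8, 1, 4, 1]),
([m 0 0, g, m 0 1, g, s 3 0, g, m 1 0, s 2 0, g, m 0 2, g, p 0 3, g], .leaf [11, 6, 8, 6, 1]),
([m 0 1, g, m 0 2, g, s 4 0, g, m 2 0, s 3 0, g, m 1 3, g, m 0 4, g], .leaf [3, 9, 5, 8, 1, 4, 1]),
([m 0 1, g, m 3 2, g, s 0 3, g, m 2 0, s 4 0, g, m 1 4, g], .inner (.lo 4) [.ref 2708 [0, 1, 5, 2, 4] [1, 1, 1, 1, 1, 1], .ref 2709 [0, 1, 5, 2, 4] [1, 1, 1, 1, 1, 1], .ref 2710 [0, 1, 5, 2, 3] [1, 1, 1, 1, 2, 1], .ref 2711 [0, 1, 2, 5, 4] [1, 1, 1, 1, 1, 1], .ref 2712 [0, 1, 2, 5, 3] [1, 1, 1, 1, 2, 1], .ref 2713 [0, 1, 2, 5, 4] [1, 1, 1, 1, 1, 1], .ref 2714 [0, 1, 2, 5, 4] [1, 1, 1, 1, 1, 1], .ref 2715 [0, 1, 2, 3, 5] [1, 1, 1, 1,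 2, 1], .ref 2716 [0, 1, 2, 5, 4] [1, 1, 1, 1, 1, 1], .cyc [2, 6, 4], .ref 2717 [0, 2, 5] [1, 1, 1, 3], .ref 2718 [0, 2, 3, 5, 4] [1, 1, 1, 1, 1, 1], .ref 2719 [0, 2, 5, 4] [1, 1, 1, 1, 1, 1], .ref 2720 [0, 1, 2, 3, 5] [1, 1, 1, 2, 1, 1], .ref 2721 [0, 1, 2, 4, 5] [1, 1, 1, 1, 1, 1], .ref 2722 [0, 2, 4, 5] [1, 1, 1, 1, 1, 1], .ref 2723 [0, 1, 2, 4, 5] [1, 1, 1, 1, 1, 1]]),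
([m 0 0, g, m 2 1, g, m 1 0, s 0 2, g], .leaf [2, 4, 3]),
([m 0 0, g, m 2 1, g, m 1 0, s 3 0, g, s 0 2, g, m 0 3, g], .leaf [7, 4, 4, 2, 5]),
([m 0 0, g, m 3 1, g, m 1 0, s 2 0, g, m 0 2, g, s 0 3, g], .leaf [9, 6, 6, 4, 1]),
([m 0 1, g, m 0 2, g, m 2 0, s 3 0, g, m 1 3, g], .inner (.lo 2) [.ref 2699 [0, 1, 4, 2, 3] [1, 1, 1, 1, 1], .ref 2649 [0, 4] [1, 1, 6], .ref 2707 [0, 1, 4, 2, 3] [1, 1, 1, 1, 1], .ref 2724 [0, 1, 2, 4, 3] [1, 1, 1, 1, 1], .ref 2638 [0, 4] [1, 1, 6], .ref 2623 [0, 4] [1, 1, 6], .cyc [2, 4], .ref 2725 [0, 2, 4] [1, 1, 3], .ref 2726 [0, 2, 4, 3] [1, 1, 1, 1, 1], .ref 2638 [0, 4] [1, 4, 3], .ref 2623 [0, 4] [1, 4, 3], .ref 2727 [0, 2, 3, 4] [1, 1, 1, 1, 1], .ref 2638 [0, 4] [1, 6, 1], .ref 2623 [0, 4] [1,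 6, 1]]),
([m 0 0, g, m 1 0, s 2 0, g, s 0 1, g, m 0 2, g], .leaf [5, 2, 5]),
([m 0 0, g, m 2 0, s 1 0, g, m 0 1, g, s 0 2, g], .leaf [7, 4, 1]),
([m 0 1, g, m 0 0, s 2 0, g, m 1 2, g], .inner (.lo 2) [.ref 2698 [0, 1, 3, 2] [1, 1, 1, 1], .ref 2649 [0, 3] [1, 1, 4], .ref 2728 [0, 1, 3, 2] [1, 1, 1, 1], .cyc [2], .contra, .ref 2729 [0, 3, 2] [1, 1, 1, 1], .ref 2638 [0, 3] [1, 2, 3], .ref 2623 [0, 3] [1, 2, 3], .ref 2730 [0, 2, 3] [1, 1, 1, 1], .ref 2638 [0, 3] [1, 4, 1], .ref 2623 [0, 3] [1, 4, 1]]),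
([m 0 1, g, s 2 0, g, m 1 2, g], .inner (.bot 1) [.ref 2506 [0, 2] [1, 1], .ref 2664 [0, 1, 2] [1, 1, 1], .ref 2697 [0, 1, 2] [1, 1, 1], .ref 2731 [0, 1, 2] [1, 1, 1]]),
([m 0 1, g, p 2 0, g, m 1 2, g], .leaf [1, 4, 2, 1]),
([m 2 0, m 0 1, g, s 0 2, g, s 1 0, g], .leaf [3, 2, 3]),
([m 2 0, m 0 1, g, s 1 0, g, s 0 2, g], .leaf [5, 4, 1]),
([m 0 1, m 1 2, g, s 2 0, g], .inner (.lo 0) [.ref 2734 [0, 2, 3] [1, 1, 1], .ref 2503 [0, 3] [2, 3], .ref 2504 [0, 3] [2, 3], .cyc [0, 1, 3], .ref 2735 [0, 2, 3] [1, 1, 1], .ref 2503 [0, 3] [4, 1], .ref 2504 [0, 3] [4, 1]]),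
([m 0 1, g, p 4 0, g, s 0 2, g, s 2 0, g, m 1 3, s 3 4, g], .leaf [5, 3, 7, 2, 3, 5, 3]),
([m 0 1, g, s 0 2, g, p 4 0, g, s 2 0, g, m 1 3, s 3 4, g], .leaf [5, 1, 7, 2, 3, 5, 3]),
([m 2 1, g, s 0 2, g, m 1 3, s 3 4, g, s 4 0, g], .leaf [2, 1, 6, 1, 2, 0, 1]),
([m 3 1, g, m 1 2, s 2 0, g, s 0 3, g], .leaf [0, 4, 2, 0, 1]),
([m 0 1, g, m 1 2, s 2 3, g, s 3 0, g], .inner (.lo 0) [.ref 2739 [0, 1, 4, 2, 3] [1, 1, 1, 1], .ref 2503 [0, 4] [1, 6], .ref 2504 [0, 4] [1, 6], .ref 2740 [0, 1, 2, 4] [1, 1, 3], .ref 2503 [0, 4] [4, 3], .ref 2504 [0, 4] [4, 3], .cyc [0, 2, 3, 5], .ref 2740 [0, 1, 2, 4] [1, 3, 1], .ref 2503 [0, 4] [6, 1], .ref 2504 [0, 4] [6, 1]]),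
([m 0 1, g, s 0 2, g, s 2 0, m 1 3, g, s 3 4, g, p 4 0, g], .leaf [4, 1, 4, 0, 3, 3, 3]),
([m 0 1, g, s 0 2, g, s 2 0, g, m 1 3, s 3 4, g, m 4 0, g], .leaf [1, 9, 1, 2, 0, 4, 1]),
([m 0 1, g, s 0 2, g, s 2 0, m 1 3, s 3 0, g], .inner (.hi 6) [.cyc [0, 5, 6], .ref 2588 [0, 1, 4] [1, 4, 1], .ref 2737 [0, 1, 2, 3, 4] [1, 1, 1, 0, 1], .ref 2596 [0, 1, 4] [1, 4, 1], .ref 2588 [0, 1, 4] [1, 2, 1], .ref 2588 [0, 1, 4] [3, 2, 1], .ref 2738 [0, 1, 2, 3, 4] [1, 1, 1, 0, 1], .ref 2596 [0, 1, 4] [3, 2, 1], .ref 2741 [0, 1, 3, 4] [4, 1, 1], .ref 2742 [0, 1, 2, 3, 4] [1, 1, 0, 1, 1], .ref 2743 [0, 1, 2, 3, 4] [1, 1, 0, 1, 1]]),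
([m 0 1, g, p 0 2, g, s 2 0, m 1 3, g, s 3 0, g], .leaf [4, 1, 4, 0, 3]),
([m 2 1, g, s 0 2, m 1 3, g, s 3 0, g], .leaf [2, 1, 2, 0, 1]),
([m 0 1, g, s 3 0, g, m 0 2, g, s 2 3, m 1 4, g, s 4 0, g], .leaf [3, 7, 3, 1, 4, 2, 3]),
([m 0 1, g, p 3 0, g, m 0 2, g, s 2 3, m 1 4, g, s 4 0, g], .leaf [5, 7, 1, 4, 1, 2, 3]),
([m 0 1, g, m 2 0, g, s 0 2, m 1 3, g, s 3 0, g], .leaf [4, 1, 4, 0, 3]),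
([m 0 1, g, m 0 2, g, s 3 0, g, s 2 3, m 1 4, g, s 4 0, g], .leaf [5, 7, 1, 2, 6, 4, 1]),
([m 0 1, g, m 0 2, g, p 3 0, g, s 2 3, m 1 4, g, s 4 0, g], .leaf [5, 7, 1, 2, 6, 4, 1])]

def d10_3 : List (List Item × Pf) := [
([m 0 1, g, m 0 2, g, s 2 3, m 1 4, s 4 0, g, s 3 0, g], .leaf [1, 8, 3, 0, 4, 1]),
([m 0 1, g, s 0 2, g, m 1 3, s 3 0, g, p 2 0, g], .leaf [2, 6, 2, 0, 1]),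
([m 0 0, g, s 0 1, m 0 2, g, s 2 0, g, m 1 0, g], .leaf [7, 4, 1]),
([m 0 1, g, m 0 2, g, s 2 0, m 1 3, s 3 0, g], .inner (.hi 4) [.ref 2746 [0, 1, 4, 3] [3, 0, 1], .ref 2747 [0, 1, 2, 4, 3] [1, 1, 1, 0, 1], .ref 2748 [0, 1, 2, 4, 3] [1, 1, 1, 0, 1], .ref 2749 [0, 1, 4, 3] [1, 3, 0, 1], .cyc [2, 4], .ref 2750 [0, 1, 2, 4, 3] [1, 1, 1, 0, 1], .ref 2751 [0, 1, 2, 4, 3] [1, 1, 1, 0, 1], .ref 2749 [0, 1, 4, 3] [3, 1, 0, 1], .ref 2752 [0, 1, 2, 4, 3] [1, 1, 1, 1], .ref 2753 [0, 1, 4, 3] [3, 0, 1, 1], .ref 2754 [0, 4, 3] [3, 0, 1, 1]]),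
([m 2 1, g, s 0 2, g, s 4 0, m 1 3, s 3 0, g, s 0 4, g], .leaf [2, 1, 7, 3, 0, 3]),
([m 0 1, g, s 3 0, m 1 2, s 2 0, g, s 0 3, g], .inner (.lo 0) [.ref 2756 [0, 1, 4, 2, 3] [1, 1, 1, 1], .ref 2503 [0, 4] [1, 7], .ref 2504 [0, 4] [1, 7], .ref 2746 [0, 1, 4, 2] [1, 0, 3], .cyc [0, 3, 4], .ref 2740 [0, 1, 2, 4] [2, 1, 3], .ref 2503 [0, 4] [5, 3], .ref 2504 [0, 4] [5, 3], .ref 2740 [0, 1, 2, 4] [2, 3, 1], .ref 2503 [0, 4] [7, 1], .ref 2504 [0, 4] [7, 1]]),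
([m 0 0, g, s 2 0, m 0 1, g, s 1 0, g, p 0 2, g], .leaf [7, 4, 1]),
([m 0 1, g, s 3 0, g, m 1 2, s 2 0, g, m 0 3, g], .leaf [2, 6, 2, 0, 1]),
([m 0 1, g, s 0 0, m 1 2, s 2 0, g], .inner (.lo 2) [.ref 2744 [0, 1, 3, 2] [1, 1, 1], .ref 2745 [0, 1, 3, 2] [1, 1, 0, 1], .ref 2755 [0, 1, 3, 2] [1, 1, 1], .cyc [2], .ref 2588 [0, 1, 3] [1, 0, 1], .ref 2757 [0, 1, 2, 3] [1, 1, 1], .ref 2758 [0, 2, 3] [1, 0, 1, 1], .ref 2759 [0, 1, 2, 3] [1, 0, 1, 1]]),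
([m 0 1, g, m 0 2, g, m 1 3, s 2 0, g, s 3 0, g], .leaf [3, 1, 3, 0, 3]),
([m 3 1, g, m 1 2, s 4 0, g, s 0 3, s 0 4, g, s 2 0, g], .leaf [7, 5, 6, 5, 2, 3]),
([m 0 1, g, s 3 0, g, m 1 2, s 4 0, g, s 0 3, s 0 4, g, s 2 0, g], .leaf [9, 5, 8, 7, 2, 3]),
([m 0 1, g, s 0 2, g, p 3 0, g, m 1 0, s 4 0, g, s 2 3, s 0 4, g], .leaf [8, 4, 7, 4, 6, 3]),
([m 0 1, g, p 0 2, g, m 1 3, s 4 0, g, s 2 0, s 0 4, g, s 3 0, g], .leaf [9, 5, 8, 7, 2, 3]),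
([m 0 1, g, m 0 2, g, p 3 0, g, m 1 0, s 4 0, g, s 2 3, s 0 4, g], .leaf [8, 4, 7, 4, 6, 3]),
([m 0 1, g, p 3 0, g, s 0 2, g, m 1 0, s 4 0, g, s 2 3, s 0 4, g], .leaf [8, 4, 7, 4, 6, 3]),
([m 0 1, g, p 3 0, g, m 0 2, g, m 1 0, s 4 0, g, s 2 3, s 0 4, g], .leaf [8, 4, 7, 4, 6, 3]),
([m 0 1, g, p 3 0, g, m 1 0, s 4 2, g, s 2 3, s 0 4, g], .leaf [1, 5, 6, 5, 2, 3]),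
([m 0 1, g, p 3 0, g, m 1 0, s 4 0, g, s 0 2, g, s 2 3, s 0 4, g], .leaf [8, 6, 7, 4, 6, 3]),
([m 0 1, g, p 3 0, g, m 1 0, s 4 0, g, p 0 2, g, s 2 3, s 0 4, g], .leaf [8, 6, 7, 4, 6, 3]),
([m 0 1, g, p 3 0, g, m 1 0, g, s 4 0, g, m 0 2, g, s 2 3, s 0 4, g], .leaf [7, 1, 9, 4, 6, 4, 1]),
([m 0 1, g, p 2 0, g, m 1 0, s 3 0, g, s 4 2, s 0 3, g, s 0 4, g], .leaf [6, 4, 5, 2, 4, 5]),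
([m 0 1, g, p 2 0, g, m 1 0, g, s 3 0, g, s 4 2, s 0 3, g, p 0 4, g], .leaf [1, 4, 2, 5, 8, 2, 5]),
([m 0 1, g, p 2 0, g, m 1 0, s 3 0, g, s 4 2, s 0 3, g, m 0 4, g], .leaf [6, 4, 5, 2, 4, 5]),
([m 0 1, g, p 3 0, g, m 1 2, s 4 0, g, s 0 3, s 0 4, g, s 2 0, g], .inner (.lo 7) [.ref 2764 [0, 1, 5, 3, 4] [1, 1, 1, 1, 3], .ref 2765 [0, 1, 5, 2, 4] [1, 3, 1, 1, 1], .ref 2766 [0, 1, 5, 3, 4] [1, 1, 1, 1, 3], .cyc [2, 7], .ref 2767 [0, 1, 5, 3, 4] [1, 1, 1, 1, 3], .ref 2765 [0, 1, 5, 2, 4] [3, 1, 1, 1, 1], .ref 2768 [0, 1, 5, 3, 4] [1, 1, 1, 1, 3], .ref 2769 [0, 1, 5, 3, 4] [1, 1, 1, 3], .ref 2770 [0, 1, 5, 3, 4] [1, 1, 1, 1, 3], .ref 2771 [0, 1, 5, 3, 4] [1, 1, 1, 1, 3], .ref 2772 [0, 1, 5, 3, 4] [1, 1, 0, 1, 1, 3], .ref 2773 [0,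 1, 3, 4, 5] [1, 1, 1, 1, 3], .ref 2774 [0, 1, 3, 4, 5] [1, 1, 0, 1, 1, 3], .ref 2775 [0, 1, 3, 4, 5] [1, 1, 1, 1, 3], .ref 2773 [0, 1, 3, 4, 5] [1, 1, 1, 1, 1], .ref 2773 [0, 1, 3, 4, 5] [1, 1, 1, 3, 1], .ref 2774 [0, 1, 3, 4, 5] [1, 1, 0, 1, 3, 1], .ref 2775 [0, 1, 3, 4, 5] [1, 1, 1, 3, 1]]),
([m 0 1, g, m 3 0, g, m 1 2, s 4 0, g, s 0 3, s 0 4, g, s 2 0, g], .leaf [9, 5, 8, 7, 2, 3]),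
([m 0 1, g, m 1 2, s 4 0, g, s 3 0, g, s 0 3, s 0 4, g, s 2 0, g], .leaf [9, 7, 8, 7, 4, 1]),
([m 0 1, g, p 3 0, g, m 1 2, s 0 3, g, s 2 0, g], .leaf [3, 1, 3, 0, 3]),
([m 0 1, g, s 0 2, g, m 1 3, s 4 0, g, s 2 0, s 0 4, g, s 3 0, g], .leaf [9, 5, 8, 7, 2, 3]),
([m 0 1, g, m 0 2, g, m 1 0, s 0 3, g, s 3 0, g, p 4 0, g, s 2 4, g], .leaf [8, 6, 9, 9, 7, 4, 1]),
([m 0 1, g, m 1 2, s 4 0, g, s 0 3, g, s 3 0, s 0 4, g, s 2 0, g], .leaf [9, 7, 8, 7, 4, 1]),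
([m 0 1, g, m 1 2, s 4 0, g, p 0 3, g, s 3 0, s 0 4, g, s 2 0, g], .leaf [9, 7, 8, 7, 4, 1]),
([m 0 1, g, m 1 2, s 5 3, g, m 0 4, g, s 3 0, g, s 4 0, s 0 5, g, s 2 0, g], .leaf [7, 3, 11, 6, 9, 5, 2, 5]),
([m 0 1, g, m 1 2, s 6 3, g, s 3 0, g, m 0 4, g, p 5 0, g, s 4 5, s 0 6, g, s 2 0, g], .leaf [13, 4, 1, 4, 2, 5, 6, 7, 6, 3]),
([m 0 1, g, m 1 2, s 6 3, g, s 3 0, g, p 5 0, g, m 0 4, g, s 4 5, s 0 6, g, s 2 0, g], .leaf [13, 4, 1, 4, 2, 5, 6, 7, 6, 3]),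
([m 0 1, g, m 1 2, s 3 0, g, s 4 0, s 0 3, g, s 0 4, g, s 2 0, g], .leaf [9, 7, 8, 7, 2, 3]),
([m 0 1, g, m 1 2, s 4 3, g, s 3 0, g, s 5 0, s 0 4, g, p 0 5, g, s 2 0, g], .leaf [1, 5, 1, 8, 2, 5, 0, 5]),
([m 0 1, g, m 1 2, s 3 0, g, s 4 0, s 0 3, g, m 0 4, g, s 2 0, g], .leaf [9, 7, 8, 7, 2, 3]),
([m 0 1, g, m 1 2, s 5 3, g, s 3 0, g, p 4 0, g, s 6 4, s 0 5, g, s 2 6, g], .leaf [11, 4, 1, 10, 8, 3, 4, 5, 4, 1]),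
([m 0 1, g, m 1 2, s 3 0, g, s 4 0, s 0 3, g, s 2 0, g, s 0 4, g], .leaf [7, 5, 6, 5, 2, 5]),
([m 0 1, g, m 1 2, s 4 3, g, s 3 0, g, s 5 0, s 0 4, g, s 2 0, g, p 0 5, g], .leaf [1, 5, 1, 10, 4, 7, 0, 3]),
([m 0 1, g, m 1 2, s 3 0, g, s 4 0, s 0 3, g, s 2 0, g, m 0 4, g], .leaf [7, 5, 6, 5, 2, 5]),
([m 0 1, g, m 1 2, s 5 3, g, s 3 0, g, p 4 0, g, s 0 4, s 0 5, g, s 2 0, g], .inner (.lo 9) [.ref 2780 [0, 1, 6, 2, 5] [1, 1, 5, 1, 1], .ref 2765 [0, 1, 6, 2, 5] [1, 1, 5, 1, 1], .ref 2781 [0, 1, 6, 3, 4] [1, 1, 1, 1, 1, 4], .ref 2782 [0, 1, 2, 6, 5] [1, 1, 5, 1, 1], .ref 2783 [0, 1, 2, 6, 5] [1, 1, 5, 1, 1], .ref 2784 [0, 1, 2, 3, 6, 5] [1, 1, 1, 3, 1, 1], .ref 2782 [0, 1, 2, 6, 5] [1, 1, 3, 1, 1], .ref 2782 [0, 1, 2, 6, 5] [1,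 3, 3, 1, 1], .ref 2783 [0, 1, 2, 6, 5] [1, 3, 3, 1, 1], .ref 2785 [0, 1, 2, 3, 6, 4, 5] [1, 1, 1, 1, 1, 1, 1], .cyc [7, 9], .ref 2782 [0, 1, 2, 6, 5] [1, 5, 1, 1, 1], .ref 2783 [0, 1, 2, 6, 5] [1, 5, 1, 1, 1], .ref 2786 [0, 1, 2, 3, 6, 4, 5] [1, 1, 1, 1, 1, 1, 1], .ref 2787 [0, 1, 2, 5, 6] [1, 5, 1, 1, 1], .ref 2788 [0, 1, 2, 3, 5, 6] [1, 1, 3, 1, 1, 1], .ref 2789 [0, 1, 2, 5, 6] [1, 5, 1, 1, 1], .ref 2790 [0, 1, 2, 3, 4, 5, 6] [1, 1, 1, 1, 1, 1], .ref 2791 [0, 1, 2, 5, 6] [1, 5, 1, 1, 1], .ref 2792 [0, 1, 2, 3, 5, 6] [1, 1, 3, 1, 1, 1], .ref 2793 [0, 1, 2, 5, 6] [1, 5, 1, 1, 1]]),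
([m 0 1, g, m 1 2, s 0 3, g, p 3 0, g, s 2 0, g], .leaf [6, 4, 5, 4, 1]),
([m 0 1, g, m 1 2, s 4 3, g, m 3 0, g, s 0 4, g, s 2 0, g], .leaf [1, 5, 1, 5, 3, 0, 3]),
([m 0 1, g, m 1 2, s 5 3, g, p 4 0, g, s 3 0, g, s 0 4, s 0 5, g, s 2 0, g], .leaf [7, 3, 11, 6, 9, 5, 2, 5]),
([m 0 1, g, m 1 2, s 4 3, g, s 3 0, s 0 4, g, s 2 0, g], .leaf [1, 3, 4, 3, 0, 3]),
([m 0 1, g, m 0 2, g, m 1 0, g, s 4 0, g, p 3 0, g, s 2 3, s 0 4, g], .leaf [7, 1, 9, 4, 6, 4, 1]),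
([m 0 1, g, m 1 2, s 6 3, g, m 0 4, g, p 5 0, g, s 4 5, s 0 6, g, s 3 0, g, s 2 0, g], .leaf [1, 3, 10, 4, 1, 4, 2, 5, 0, 5]),
([m 0 1, g, m 1 2, s 6 3, g, p 5 0, g, m 0 4, g, s 4 5, s 0 6, g, s 3 0, g, s 2 0, g], .leaf [1, 3, 10, 4, 1, 4, 2, 5, 0, 5]),
([m 0 1, g, m 1 2, s 4 3, g, s 5 0, s 0 4, g, p 0 5, g, s 3 0, g, s 2 0, g], .leaf [1, 8, 2, 3, 7, 3, 0, 5]),
([m 0 1, g, m 1 2, s 5 3, g, p 4 0, g, s 6 4, s 0 5, g, s 3 0, g, p 0 6, g, s 2 0, g], .leaf [1, 3, 8, 4, 1, 8, 6, 3, 0, 5]),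
([m 0 1, g, m 1 2, s 5 3, g, p 4 0, g, s 6 4, s 0 5, g, s 3 0, g, s 2 6, g], .leaf [1, 3, 8, 4, 1, 8, 6, 3, 0, 3]),
([m 0 1, g, m 1 2, s 4 0, g, p 3 0, g, s 5 3, s 0 4, g, s 2 0, g, p 0 5, g], .leaf [4, 10, 7, 10, 5, 2, 6, 1]),
([m 0 1, g, m 1 2, s 5 3, g, p 4 0, g, s 0 4, s 0 5, g, s 3 0, g, s 2 0, g], .inner (.lo 7) [.ref 2780 [0, 1, 6, 2, 5] [1, 1, 3, 3, 1], .ref 2765 [0, 1, 6, 2, 5] [1, 1, 3, 3, 1], .ref 2799 [0, 1, 6, 4, 5] [1, 1, 0, 1, 1, 5], .ref 2782 [0, 1, 2, 6, 5] [1, 1, 3, 3, 1], .ref 2783 [0, 1, 2, 6, 5] [1, 1, 3, 3, 1], .ref 2800 [0, 1, 2, 3, 6, 4, 5] [1, 1, 1, 1, 1, 1, 1], .cyc [5, 7], .ref 2782 [0, 1, 2, 6, 5] [1, 3, 1, 3, 1], .ref 2783 [0, 1, 2, 6, 5] [1, 3, 1, 3, 1], .ref 2801 [0, 1, 2, 3, 6, 4, 5] [1, 1,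 1, 1, 1, 1, 1], .ref 2787 [0, 1, 2, 5, 6] [1, 3, 1, 3, 1], .ref 2802 [0, 1, 2, 3, 5, 6] [1, 3, 1, 1, 1, 1], .ref 2789 [0, 1, 2, 5, 6] [1, 3, 1, 3, 1], .ref 2787 [0, 1, 2, 5, 6] [1, 3, 1, 1, 1], .ref 2787 [0, 1, 2, 5, 6] [1, 3, 3, 1, 1], .ref 2803 [0, 1, 2, 3, 4, 5, 6] [1, 1, 1, 1, 1, 1, 1], .ref 2789 [0, 1, 2, 5, 6] [1, 3, 3, 1, 1], .ref 2804 [0, 1, 2, 3, 4, 5, 6] [1, 1, 1, 1, 1, 1], .ref 2791 [0, 1, 2, 5, 6] [1, 3, 3, 1, 1], .ref 2805 [0, 1, 2, 4, 5, 6] [1, 1, 1, 3, 1, 1], .ref 2793 [0, 1, 2, 5, 6] [1, 3, 3, 1, 1]]),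
([m 0 1, g, m 1 2, s 0 3, g, p 4 0, g, s 0 4, g, m 3 0, g, s 2 0, g], .leaf [6, 4, 9, 6, 2, 6, 1]),
([m 0 1, g, m 1 2, s 6 3, g, m 0 4, g, p 5 0, g, s 4 5, s 0 6, g, s 2 0, g, s 3 0, g], .leaf [1, 3, 12, 6, 1, 6, 4, 7, 0, 3]),
([m 0 1, g, m 1 2, s 6 3, g, p 5 0, g, m 0 4, g, s 4 5, s 0 6, g, s 2 0, g, s 3 0, g], .leaf [1, 3, 12, 6, 1, 6, 4, 7, 0, 3]),
([m 0 1, g, m 1 2, s 4 3, g, s 5 0, s 0 4, g, p 0 5, g, s 2 0, g, s 3 0, g], .leaf [1, 8, 2, 3, 9, 5, 0, 1]),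
([m 0 1, g, m 1 2, s 4 3, g, s 5 0, s 0 4, g, s 2 5, g, s 3 0, g], .leaf [1, 8, 2, 3, 7, 3, 0, 3]),
([m 0 1, g, m 1 2, s 5 3, g, p 4 0, g, s 0 4, s 0 5, g, s 2 0, g, s 3 0, g], .inner (.lo 7) [.ref 2780 [0, 1, 6, 2, 5] [1, 1, 3, 1, 3], .ref 2765 [0, 1, 6, 2, 5] [1, 1, 3, 1, 3], .ref 2799 [0, 1, 6, 4, 5] [1, 1, 0, 1, 1, 5], .ref 2782 [0, 1, 2, 6, 5] [1, 1, 3, 1, 3], .ref 2783 [0, 1, 2, 6, 5] [1, 1, 3, 1, 3], .ref 2808 [0, 1, 2, 3, 6, 4, 5] [1, 1, 1, 1, 1, 1, 1], .cyc [5, 7], .ref 2782 [0, 1, 2, 6, 5] [1, 3, 1, 1, 3], .ref 2783 [0, 1, 2, 6, 5] [1, 3, 1, 1, 3], .ref 2809 [0, 1, 2, 3, 6, 4, 5] [1, 1, 1, 1, 1, 1, 1], .ref 2787 [0, 1, 2, 5, 6] [1, 3, 1, 1, 3], .ref 2810 [0, 1, 2, 3, 5, 6] [1, 3, 1, 1, 1, 1], .ref 2789 [0, 1, 2,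 5, 6] [1, 3, 1, 1, 3], .ref 2811 [0, 1, 2, 3, 5, 6] [1, 3, 1, 1, 1], .ref 2791 [0, 1, 2, 5, 6] [1, 3, 1, 1, 3], .ref 2805 [0, 1, 2, 4, 5, 6] [1, 1, 1, 1, 1, 3], .ref 2793 [0, 1, 2, 5, 6] [1, 3, 1, 1, 3], .ref 2791 [0, 1, 2, 5, 6] [1, 3, 1, 1, 1], .ref 2791 [0, 1, 2, 5, 6] [1, 3, 1, 3, 1], .ref 2805 [0, 1, 2, 4, 5, 6] [1, 1, 1, 1, 3, 1], .ref 2793 [0, 1, 2, 5, 6] [1, 3, 1, 3, 1]]),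
([m 0 1, g, m 1 2, s 0 3, g, s 2 0, g, p 3 0, g], .leaf [4, 2, 3, 2, 3]),
([m 0 1, g, m 1 2, s 4 3, g, s 0 4, g, s 2 0, g, m 3 0, g], .leaf [1, 5, 1, 7, 5, 0, 1]),
([m 0 1, g, m 1 2, s 4 0, g, p 3 0, g, s 0 3, s 0 4, g, s 2 0, g], .inner (.hi 3) [.ref 2594 [0, 1, 5] [1, 8], .ref 2588 [0, 1, 5] [1, 1, 8], .ref 2779 [0, 1, 2, 5] [1, 1, 6, 1], .ref 2596 [0, 1, 5] [1, 1, 8], .ref 2794 [0, 1, 2, 5, 3, 4] [1, 1, 1, 1, 1, 1], .ref 2795 [0, 1, 2, 5] [1, 1, 6, 1], .ref 2796 [0, 1, 2, 5, 4] [1, 1, 4, 1, 1], .ref 2797 [0, 1, 2, 5, 3, 4] [1, 1, 1, 1, 1, 1], .ref 2795 [0, 1, 2, 5] [1, 3, 4, 1], .ref 2796 [0, 1, 2, 5, 4] [1, 3, 2, 1, 1], .ref 2798 [0, 1, 2, 5, 4] [1, 3, 1, 1], .cyc [3, 8], .ref 2806 [0, 1, 2, 5, 3, 4] [1, 1, 1, 1, 1, 1],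 .ref 2795 [0, 1, 2, 5] [1, 6, 1, 1], .ref 2807 [0, 1, 2, 5, 3] [1, 1, 1, 2, 1, 1], .ref 2812 [0, 1, 2, 5, 3, 4] [1, 1, 1, 1, 1, 1], .ref 2813 [0, 1, 2, 5] [1, 6, 1, 1], .ref 2814 [0, 1, 2, 5, 4] [1, 4, 1, 1, 1]])]

def D10 : List (List (List Item × Pf)) := [d10_0, d10_1, d10_2, d10_3]

end Pool.Agent.H63.PU.C138
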