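import Pool.Agent.H63.PU.Short

/-! Certificate data, machine generated. -/

namespace Pool.Agent.H63.PU.C138

open Pool.Agent.H63.PU Pool.Agent.H63.PU.Short

set_option maxRecDepth 20000

def d11_0 : List (List Item × Pf) := [
([m 0 1, g, m 1 2, s 4 0, g, m 3 0, g, s 0 3, s 0 4, g, s 2 0, g], .leaf [9, 7, 8, 7, 4, 1]),
([m 0 1, g, m 1 2, s 4 0, g, s 0 3, s 0 4, g, s 3 0, g, s 2 0, g], .leaf [9, 7, 8, 7, 2, 3]),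
([m 0 1, g, m 1 2, s 4 0, g, s 0 3, s 0 4, g, p 3 0, g, s 2 0, g], .leaf [9, 7, 8, 7, 2, 3]),
([m 0 1, g, m 1 2, s 5 3, g, s 3 0, g, s 0 4, s 0 5, g, m 4 0, g, s 2 0, g], .leaf [1, 5, 1, 8, 2, 5, 0, 5]),
([m 2 1, g, s 0 2, g, m 1 0, s 5 3, g, s 0 4, s 0 5, g, s 3 0, g, m 4 0, g], .leaf [5, 9, 6, 1, 9, 5, 2, 5]),
([m 2 1, g, m 1 0, s 4 0, g, s 0 2, g, s 0 3, s 0 4, g, m 3 0, g], .leaf [0, 4, 9, 2, 6, 1]),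
([m 5 1, g, m 1 0, s 4 2, g, s 0 3, s 0 4, g, s 0 5, g, s 2 0, g, m 3 0, g], .leaf [0, 7, 9, 4, 1, 8, 2, 3]),
([m 3 1, g, m 1 0, s 0 2, g, s 2 3, g], .leaf [0, 4, 4, 2, 1]),
([m 5 1, g, m 1 0, s 4 2, g, s 0 3, s 0 4, g, s 2 0, g, s 0 5, g, m 3 0, g], .leaf [12, 6, 7, 3, 8, 8, 6, 1]),
([m 5 1, g, m 1 0, s 4 2, g, s 0 3, s 0 4, g, s 2 0, g, m 3 0, g, s 0 5, g], .leaf [3, 7, 11, 6, 6, 4, 6, 3]),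
([m 0 1, g, m 1 0, s 4 2, g, s 0 3, s 0 4, g, s 2 0, g, m 3 0, g], .inner (.lo 0) [.ref 2820 [0, 1, 5, 2, 3, 4] [1, 1, 1, 1, 1, 1], .ref 2503 [0, 5] [1, 11], .ref 2504 [0, 5] [1, 11], .cyc [0, 2], .ref 2821 [0, 1, 5, 3, 4] [1, 1, 1, 3, 1], .ref 2503 [0, 5] [4, 8], .ref 2504 [0, 5] [4, 8], .ref 2822 [0, 1, 2, 3, 4, 5] [1, 1, 1, 1, 1, 1], .ref 2503 [0, 5] [7, 5], .ref 2504 [0, 5] [7, 5], .ref 2823 [0, 1, 2, 5] [1, 4, 3], .ref 2824 [0, 1, 2, 3, 4, 5] [1, 1, 1, 1, 1, 1], .ref 2503 [0, 5] [9, 3], .ref 2504 [0, 5] [9, 3], .ref 2504 [0, 5] [9, 1], .ref 2825 [0, 1, 2, 3, 4, 5] [1, 1, 1, 1, 1, 1], .ref 2503 [0, 5] [11, 1], .ref 2504 [0, 5] [11, 1]]),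
([m 0 1, g, m 1 2, s 4 3, g, s 0 4, g, m 3 0, g, s 2 0, g], .leaf [1, 5, 1, 5, 3, 0, 3]),
([m 0 1, g, m 1 2, s 5 3, g, s 0 4, s 0 5, g, m 4 0, g, s 3 0, g, s 2 0, g], .leaf [1, 8, 2, 3, 7, 3, 0, 5]),
([m 0 1, g, m 1 2, s 5 3, g, s 0 4, s 0 5, g, m 4 0, g, s 2 0, g, s 3 0, g], .leaf [1, 8, 2, 3, 9, 5, 0, 1]),
([m 0 1, g, m 1 2, s 4 0, g, s 0 3, s 0 4, g, m 3 0, g, s 2 0, g], .inner (.hi 3) [.ref 2594 [0, 1, 5] [1, 8], .ref 2588 [0, 1, 5] [1, 1, 8], .ref 2779 [0, 1, 2, 5] [1, 1, 6, 1], .ref 2596 [0, 1, 5] [1, 1, 8], .ref 2819 [0, 1, 2, 5, 3, 4] [1, 1, 1, 1, 1, 1], .ref 2795 [0, 1, 2, 5] [1, 1, 6, 1], .ref 2796 [0, 1, 2, 5, 4] [1, 1, 2, 3, 1], .ref 2798 [0, 1, 2, 5, 4] [1, 1, 3, 1], .cyc [3, 6], .ref 2826 [0, 1, 5, 3,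 4] [1, 1, 1, 1, 3], .ref 2795 [0, 1, 2, 5] [1, 4, 3, 1], .ref 2827 [0, 1, 2, 5, 4] [1, 2, 1, 3, 1], .ref 2828 [0, 1, 2, 5, 3, 4] [1, 1, 1, 1, 1, 1], .ref 2795 [0, 1, 2, 5] [1, 6, 1, 1], .ref 2827 [0, 1, 2, 5, 4] [1, 2, 3, 1, 1], .ref 2829 [0, 1, 2, 5, 3, 4] [1, 1, 1, 1, 1, 1], .ref 2813 [0, 1, 2, 5] [1, 6, 1, 1], .ref 2814 [0, 1, 2, 5, 4] [1, 2, 3, 1, 1]]),
([m 0 1, g, m 1 2, s 4 0, g, s 0 3, s 0 4, g, s 2 0, g, s 3 0, g], .leaf [7, 5, 6, 5, 2, 5]),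
([m 0 1, g, m 1 2, s 4 0, g, s 0 3, s 0 4, g, s 2 0, g, p 3 0, g], .leaf [7, 5, 6, 5, 2, 5]),
([m 0 1, g, m 1 2, s 5 3, g, s 3 0, g, s 0 4, s 0 5, g, s 2 0, g, m 4 0, g], .leaf [1, 5, 1, 10, 4, 7, 0, 3]),
([m 0 1, g, m 1 2, s 5 3, g, s 0 4, s 0 5, g, s 2 0, g, m 4 0, g, s 3 0, g], .leaf [1, 10, 4, 5, 9, 3, 0, 3]),
([m 0 1, g, m 1 2, s 4 0, g, s 0 3, s 0 4, g, s 2 0, g, m 3 0, g], .inner (.hi 3) [.ref 2594 [0, 1, 5] [1, 8], .ref 2588 [0, 1, 5] [1, 1, 8], .ref 2779 [0, 1, 2, 5] [1, 1, 4, 3], .ref 2596 [0, 1, 5] [1, 1, 8], .ref 2833 [0, 1, 2, 5, 3, 4] [1, 1, 1, 1, 1, 1], .ref 2795 [0, 1, 2, 5] [1, 1, 4, 3], .ref 2796 [0, 1, 2, 5, 4] [1, 1, 2, 1, 3], .ref 2798 [0, 1, 2, 5, 4] [1, 1, 1, 3], .cyc [3, 6], .ref 2826 [0, 1,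 5, 3, 4] [1, 1, 1, 3, 1], .ref 2795 [0, 1, 2, 5] [1, 4, 1, 3], .ref 2827 [0, 1, 2, 5, 4] [1, 2, 1, 1, 3], .ref 2826 [0, 1, 5, 3, 4] [1, 1, 3, 1, 1], .ref 2813 [0, 1, 2, 5] [1, 4, 1, 3], .ref 2814 [0, 1, 2, 5, 4] [1, 2, 1, 1, 3], .ref 2834 [0, 1, 2, 5, 3, 4] [1, 1, 1, 1, 1, 1], .ref 2813 [0, 1, 2, 5] [1, 4, 3, 1], .ref 2814 [0, 1, 2, 5, 4] [1, 2, 1, 3, 1]]),
([m 0 1, g, m 1 2, s 3 0, g, s 0 0, s 0 3, g, s 2 0, g], .inner (.hi 5) [.ref 2762 [0, 1, 2, 4, 3] [1, 1, 1, 1], .ref 2763 [0, 1, 2, 4, 3] [1, 1, 1, 1, 1], .ref 2776 [0, 1, 2, 4, 3] [1, 1, 1, 1, 1], .ref 2777 [0, 1, 2, 4, 3] [1, 1, 1, 1, 1], .ref 2778 [0, 1, 2, 4, 3] [1, 1, 1, 1, 1], .ref 2815 [0, 1, 2, 4, 3] [1, 1, 1, 1, 1], .ref 2816 [0, 1, 2, 4, 3] [1, 1, 1,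 1, 1], .cyc [5], .contra, .ref 2817 [0, 1, 2, 4, 3] [1, 1, 1, 1, 1], .ref 2818 [0, 1, 2, 4, 3] [1, 1, 1, 1, 1], .ref 2830 [0, 1, 2, 4, 3] [1, 1, 1, 1, 1], .ref 2831 [0, 1, 2, 4, 3] [1, 1, 1, 1, 1], .ref 2832 [0, 1, 2, 4, 3] [1, 1, 1, 1, 1], .ref 2835 [0, 1, 2, 4, 3] [1, 1, 1, 1, 1]]),
([m 0 1, g, s 3 0, g, m 1 2, s 4 0, g, p 0 3, s 0 4, g, s 2 0, g], .leaf [9, 5, 8, 7, 2, 3]),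
([m 0 0, g, p 1 0, g, s 2 0, g, p 0 1, s 0 2, g], .leaf [4, 6, 3]),
([m 0 0, g, s 2 0, m 0 1, g, p 0 2, g, s 1 0, g], .leaf [5, 2, 5]),
([m 0 1, g, m 1 2, s 4 0, g, s 3 0, g, p 0 3, s 0 4, g, s 2 0, g], .leaf [9, 7, 8, 7, 4, 1]),
([m 0 1, g, s 0 2, g, m 1 0, s 4 0, g, p 3 0, g, p 2 3, g, s 0 4, g], .leaf [2, 8, 8, 6, 8, 6, 1]),
([m 0 1, g, s 3 0, g, s 0 2, g, s 2 3, m 1 4, s 7 0, g, s 0 5, g, p 6 0, g, p 5 6, s 0 7, g, s 4 0, g], .leaf [13, 7, 9, 15, 6, 12, 1, 7, 2, 6, 1]),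
([m 0 1, g, s 2 0, g, s 0 2, m 1 3, g, m 0 4, g, p 4 0, g, s 3 0, g], .leaf [4, 1, 4, 0, 7, 3, 1]),
([m 0 1, g, s 3 0, g, s 0 2, g, s 2 3, m 1 4, s 7 0, g, p 6 0, g, s 0 5, g, p 5 6, s 0 7, g, s 4 0, g], .leaf [11, 5, 7, 15, 8, 12, 1, 5, 2, 6, 1]),
([m 0 1, g, s 3 0, g, s 0 2, g, s 2 3, m 1 4, s 6 0, g, p 5 0, g, p 7 5, s 0 6, g, s 0 7, g, s 4 0, g], .leaf [11, 5, 7, 15, 8, 12, 1, 7, 4, 6, 3]),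
([m 0 1, g, m 1 2, s 3 0, g, p 4 0, g, s 0 3, g, p 0 4, g, s 2 0, g], .leaf [10, 8, 9, 8, 3, 5, 3]),
([m 0 1, g, s 2 0, g, s 0 2, m 1 3, g, p 4 0, g, m 0 4, g, s 3 0, g], .leaf [4, 1, 4, 0, 7, 3, 1]),
([m 0 1, g, s 2 0, g, s 0 2, m 1 3, g, p 4 0, g, s 3 4, g], .leaf [4, 1, 4, 0, 5, 5, 3]),
([m 0 1, g, s 3 0, g, s 0 2, g, s 2 3, m 1 4, s 6 0, g, p 5 0, g, p 7 5, s 0 6, g, s 4 0, g, s 0 7, g], .leaf [11, 5, 7, 13, 6, 10, 1, 5, 2, 4, 7]),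
([m 0 1, g, s 2 0, g, s 0 2, m 1 3, g, p 4 0, g, s 3 0, g, p 0 4, g], .leaf [4, 1, 4, 0, 5, 7, 5]),
([m 0 1, g, s 2 0, g, s 0 2, m 1 3, g, p 4 0, g, s 3 0, g, m 0 4, g], .leaf [4, 1, 4, 0, 5, 1, 5]),
([m 0 1, g, s 3 0, g, s 0 2, g, s 2 3, m 1 4, s 6 0, g, p 5 0, g, p 0 5, s 0 6, g, s 4 0, g], .inner (.lo 12) [.ref 2841 [0, 1, 7, 5, 6] [1, 6, 1, 1, 0, 3], .ref 2612 [0, 7] [1, 11, 4], .ref 2613 [0, 1, 7] [1, 6, 4, 4], .ref 2841 [0, 1, 7, 5, 6] [1, 4, 1, 1, 0, 3], .ref 2841 [0, 1, 7, 5, 6] [3, 4, 1, 1, 0, 3], .ref 2612 [0, 7] [3, 9, 4], .ref 2613 [0, 1, 7] [3, 4, 4, 4], .ref 2841 [0, 1, 7, 5, 6] [5, 2, 1, 1, 0, 3], .ref 2612 [0, 7] [5, 7, 4], .ref 2613 [0, 1, 7] [5, 2, 4, 4], .ref 2795 [0, 1, 4, 7] [6, 3, 2, 1], .ref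 2842 [0, 1, 2, 3, 4, 7, 5, 6] [1, 1, 1, 1, 1, 1, 1, 1], .ref 2612 [0, 7] [9, 3, 4], .ref 2843 [0, 1, 3, 4, 7] [1, 3, 2, 3, 2, 1], .cyc [10, 12], .ref 2844 [0, 1, 2, 3, 4, 7, 5, 6] [1, 1, 1, 1, 1, 1, 1, 1], .ref 2612 [0, 7] [11, 1, 4], .ref 2843 [0, 1, 3, 4, 7] [1, 3, 4, 1, 2, 1], .ref 2845 [0, 1, 2, 3, 4, 5, 6, 7] [1, 1, 1, 1, 1, 1, 1, 1], .ref 2846 [0, 1, 4, 6, 7] [6, 3, 0, 1, 1, 1], .ref 2847 [0, 1, 3, 4, 7] [1, 3, 4, 2, 1, 1], .ref 2848 [0, 1, 3, 4, 7] [1, 3, 4, 2, 1], .ref 2849 [0, 1, 2, 3, 4, 5, 6, 7] [1, 1, 1, 1, 1, 1, 1, 1], .ref 2850 [0, 1, 3, 4, 7] [1, 3, 4, 2, 1, 1], .ref 2851 [0, 1, 3, 4, 7] [1, 3, 4, 2, 1, 1]]),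
([m 0 1, g, p 3 0, g, s 0 2, g, s 2 3, m 1 4, g, s 4 0, g], .leaf [5, 7, 1, 4, 1, 2, 3]),
([m 0 1, g, s 0 2, g, s 3 0, g, s 2 3, m 1 4, s 7 0, g, s 0 5, g, p 6 0, g, p 5 6, s 0 7, g, s 4 0, g], .leaf [13, 7, 9, 15, 6, 12, 1, 7, 2, 6, 1]),
([m 0 1, g, s 0 2, g, s 3 0, g, s 2 3, m 1 4, s 7 0, g, p 6 0, g, s 0 5, g, p 5 6, s 0 7, g, s 4 0, g], .leaf [11, 5, 7, 15, 8, 12, 1, 5, 2, 6, 1]),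
([m 0 1, g, s 0 2, g, s 3 0, g, s 2 3, m 1 4, s 6 0, g, p 5 0, g, p 7 5, s 0 6, g, s 0 7, g, s 4 0, g], .leaf [11, 5, 7, 15, 8, 12, 1, 7, 4, 6, 3]),
([m 0 1, g, s 0 2, g, s 3 0, g, s 2 3, m 1 4, s 6 0, g, p 5 0, g, p 7 5, s 0 6, g, s 4 0, g, s 0 7, g], .leaf [11, 5, 7, 13, 6, 10, 1, 5, 2, 4, 7]),
([m 0 1, g, s 0 2, g, s 3 0, g, s 2 3, m 1 4, s 6 0, g, p 5 0, g, p 0 5, s 0 6, g, s 4 0, g], .inner (.lo 12) [.ref 2841 [0, 1, 7, 5, 6] [1, 6, 1, 1, 0, 3], .ref 2612 [0, 7] [1, 11, 4], .ref 2613 [0, 1, 7] [1, 6, 4, 4], .ref 2841 [0, 1, 7, 5, 6] [3, 4, 1, 1, 0, 3], .ref 2612 [0, 7] [3, 9, 4], .ref 2613 [0, 1, 7] [3, 4, 4, 4], .ref 2841 [0, 1, 7, 5, 6] [3, 2, 1, 1, 0, 3], .ref 2841 [0, 1, 7, 5, 6] [5, 2, 1, 1, 0, 3], .ref 2612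 [0, 7] [5, 7, 4], .ref 2613 [0, 1, 7] [5, 2, 4, 4], .ref 2795 [0, 1, 4, 7] [6, 3, 2, 1], .ref 2854 [0, 1, 2, 3, 4, 7, 5, 6] [1, 1, 1, 1, 1, 1, 1, 1], .ref 2612 [0, 7] [9, 3, 4], .ref 2843 [0, 1, 3, 4, 7] [3, 1, 2, 3, 2, 1], .cyc [10, 12], .ref 2855 [0, 1, 2, 3, 4, 7, 5, 6] [1, 1, 1, 1, 1, 1, 1, 1], .ref 2612 [0, 7] [11, 1, 4], .ref 2843 [0, 1, 3, 4, 7] [3, 1, 4, 1, 2, 1], .ref 2856 [0, 1, 2, 3, 4, 5, 6, 7] [1, 1, 1, 1, 1, 1, 1, 1], .ref 2846 [0, 1, 4, 6, 7] [6, 3, 0, 1, 1, 1], .ref 2847 [0, 1, 3, 4, 7] [3, 1, 4, 2, 1, 1], .ref 2848 [0, 1, 3, 4, 7] [3, 1, 4, 2, 1], .ref 2857 [0, 1, 2, 3, 4, 5, 6, 7] [1, 1, 1, 1, 1, 1, 1, 1], .ref 2850 [0, 1, 3, 4, 7] [3, 1, 4, 2, 1, 1], .ref 2851 [0, 1, 3, 4, 7] [3, 1, 4, 2, 1, 1]]),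
([m 0 1, g, s 0 2, g, p 3 0, g, s 2 3, m 1 4, g, s 4 0, g], .leaf [3, 7, 3, 1, 4, 2, 3]),
([m 0 1, g, s 0 2, m 1 3, s 4 0, g, s 2 0, g, s 0 4, g, s 3 0, g], .leaf [2, 5, 7, 5, 0, 5]),
([m 0 1, g, s 0 2, m 1 3, g, p 2 0, g, s 3 0, g], .leaf [6, 1, 2, 4, 3]),
([m 0 0, g, s 0 1, m 0 2, g, m 1 0, g, s 2 0, g], .leaf [5, 2, 5]),
([m 0 1, g, s 0 2, m 1 3, s 4 0, g, s 2 4, g, s 3 0, g], .leaf [2, 5, 5, 3, 0, 3]),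
([m 0 1, g, s 0 2, m 1 3, s 4 0, g, s 0 4, g, s 2 0, g, s 3 0, g], .leaf [9, 1, 5, 7, 6, 1]),
([m 0 1, g, s 0 2, m 1 3, s 5 0, g, p 4 0, g, p 0 4, s 0 5, g, s 3 0, g, s 2 0, g], .leaf [6, 11, 7, 11, 1, 5, 2, 5]),
([m 0 1, g, s 0 2, g, s 2 3, m 1 4, g, s 4 0, g, p 3 0, g], .leaf [3, 5, 1, 2, 4, 2, 3]),
([m 0 1, g, s 0 2, g, s 2 0, m 1 3, s 5 0, g, p 4 0, g, p 0 4, s 0 5, g, s 3 0, g], .inner (.hi 4) [.ref 2746 [0, 1, 6, 3] [3, 7, 1], .ref 2852 [0, 1, 2, 6, 3, 4, 5] [1, 1, 1, 1, 1, 1, 1], .ref 2853 [0, 1, 2, 6, 3] [1, 1, 1, 7, 1], .ref 2749 [0, 1, 6, 3] [1, 3, 7, 1], .cyc [2, 4], .ref 2858 [0, 1, 2, 6, 3, 4, 5] [1, 1, 1, 1, 1, 1, 1], .ref 2859 [0, 1, 2, 6, 3] [1, 1, 1, 7, 1], .ref 2749 [0, 1, 6, 3] [3, 1, 7, 1], .ref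 2860 [0, 1, 6, 3, 5] [3, 1, 4, 1, 1], .ref 2861 [0, 1, 6, 3] [3, 2, 6, 1], .ref 2862 [0, 6, 3] [3, 2, 6, 1], .ref 2860 [0, 1, 6, 3, 5] [3, 3, 2, 1, 1], .ref 2861 [0, 1, 6, 3] [3, 4, 4, 1], .ref 2862 [0, 6, 3] [3, 4, 4, 1], .ref 2861 [0, 1, 6, 3] [3, 4, 2, 1], .ref 2863 [0, 1, 6, 3, 5] [3, 4, 1, 1], .ref 2864 [0, 1, 6, 3, 5] [3, 4, 1, 1, 1], .ref 2861 [0, 1, 6, 3] [3, 7, 1, 1], .ref 2862 [0, 6, 3] [3, 7, 1, 1], .ref 2865 [0, 1, 6, 3, 4, 5] [3, 1, 1, 1, 1, 1], .ref 2866 [0, 1, 2, 6, 3] [1, 1, 7, 1, 1], .ref 2754 [0, 6, 3] [3, 7, 1, 1]]),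
([m 0 1, g, m 0 2, g, s 2 3, g, m 1 0, s 4 0, g, s 0 4, g, p 3 0, g], .leaf [3, 4, 9, 6, 7, 4, 1]),
([m 0 1, g, m 0 2, g, s 2 0, m 1 3, s 5 0, g, p 4 0, g, p 0 4, s 0 5, g, s 3 0, g], .inner (.hi 4) [.ref 2746 [0, 1, 6, 3] [3, 7, 1], .ref 2747 [0, 1, 2, 6, 3] [1, 1, 1, 7, 1], .ref 2748 [0, 1, 2, 6, 3] [1, 1, 1, 7, 1], .ref 2749 [0, 1, 6, 3] [1, 3, 7, 1], .cyc [2, 4], .ref 2750 [0, 1, 2, 6, 3] [1, 1, 1, 7, 1], .ref 2751 [0, 1, 2, 6, 3] [1, 1, 1, 7, 1], .ref 2749 [0, 1, 6, 3] [3, 1, 7, 1], .ref 2860 [0, 1, 6, 3, 5] [3, 1, 4, 1, 1], .ref 2861 [0, 1, 6, 3] [3, 2, 6, 1], .ref 2862 [0, 6, 3] [3, 2, 6, 1], .ref 2860 [0, 1, 6, 3, 5] [3, 3, 2, 1, 1], .ref 2861 [0, 1, 6, 3] [3, 4, 4, 1], .ref 2862 [0, 6, 3] [3, 4, 4, 1], .ref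 2861 [0, 1, 6, 3] [3, 4, 2, 1], .ref 2863 [0, 1, 6, 3, 5] [3, 4, 1, 1], .ref 2864 [0, 1, 6, 3, 5] [3, 4, 1, 1, 1], .ref 2868 [0, 1, 2, 6, 5] [1, 1, 0, 4, 1, 3], .ref 2862 [0, 6, 3] [3, 7, 1, 1], .ref 2865 [0, 1, 6, 3, 4, 5] [3, 1, 1, 1, 1, 1], .ref 2868 [0, 1, 2, 6, 5] [1, 1, 0, 4, 3, 1], .ref 2754 [0, 6, 3] [3, 7, 1, 1]]),
([m 0 1, g, s 3 0, m 1 2, s 4 0, g, s 0 3, g, s 0 4, g, s 2 0, g], .leaf [2, 5, 7, 5, 0, 5]),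
([m 0 1, g, s 3 0, m 1 2, g, m 0 3, g, s 2 0, g], .leaf [6, 1, 2, 4, 3]),
([m 0 1, g, s 4 0, m 1 2, s 3 0, g, s 0 3, g, s 0 4, g, s 2 0, g], .leaf [9, 1, 5, 7, 6, 1]),
([m 0 0, g, s 2 0, m 0 1, g, s 1 2, g], .leaf [5, 2, 1]),
([m 0 1, g, s 5 0, m 1 2, s 4 0, g, p 3 0, g, p 0 3, s 0 4, g, s 2 0, g, s 0 5, g], .leaf [6, 11, 7, 11, 1, 5, 2, 5]),
([m 0 1, g, s 5 0, m 1 2, s 4 0, g, p 3 0, g, p 0 3, s 0 4, g, s 2 0, g, m 0 5, g], .leaf [6, 11, 7, 11, 1, 5, 2, 5]),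
([m 0 1, g, s 0 0, m 1 2, s 4 0, g, p 3 0, g, p 0 3, s 0 4, g, s 2 0, g], .inner (.lo 2) [.ref 2867 [0, 1, 5, 2, 3, 4] [1, 1, 1, 1, 1, 1], .ref 2745 [0, 1, 5, 2] [1, 1, 7, 1], .ref 2869 [0, 1, 5, 2, 3, 4] [1, 1, 1, 1, 1, 1], .cyc [2], .ref 2588 [0, 1, 5] [1, 0, 8], .ref 2870 [0, 1, 2, 5, 4] [1, 1, 4, 1, 1], .ref 2839 [0, 2, 5] [1, 2, 6, 1], .ref 2871 [0, 1, 2, 5] [1, 2, 6, 1], .ref 2839 [0, 2, 5] [1, 2, 4, 1], .ref 2870 [0, 1, 2, 5, 4] [1, 3, 2, 1, 1], .ref 2839 [0, 2, 5] [1, 4, 4, 1], .ref 2871 [0, 1, 2, 5] [1, 4, 4, 1], .ref 2872 [0, 1, 2, 4, 5] [1, 4, 1, 1, 1], .ref 2839 [0, 2, 5] [1, 7, 1, 1], .ref 2871 [0, 1, 2, 5] [1, 7, 1, 1], .ref 2873 [0, 2, 5] [1, 7, 1], .ref 2874 [0, 1, 2, 3, 4, 5] [1, 1, 1, 1, 1, 1], .ref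 2758 [0, 2, 5] [1, 7, 1, 1], .ref 2875 [0, 1, 2, 3, 4, 5] [1, 1, 1, 1, 1, 1]]),
([m 0 1, g, m 1 2, s 4 0, g, p 0 3, s 0 4, g, s 3 0, g, s 2 0, g], .leaf [9, 7, 8, 7, 2, 3]),
([m 0 1, g, m 1 2, s 4 0, g, p 0 3, s 0 4, g, s 2 0, g, s 3 0, g], .leaf [7, 5, 6, 5, 2, 5]),
([m 0 1, g, s 0 0, m 1 2, s 3 0, g, p 0 0, s 0 3, g, s 2 0, g], .inner (.hi 6) [.ref 2503 [0, 4] [5, 4], .ref 2837 [0, 1, 2, 4, 3] [1, 2, 1, 1, 1], .ref 2838 [0, 4, 3] [1, 3, 1, 3], .ref 2638 [0, 4] [1, 5, 4], .ref 2839 [0, 2, 4] [1, 2, 2, 1], .ref 2840 [0, 1, 2, 4, 3] [2, 1, 1, 1, 1], .ref 2876 [0, 1, 2, 4, 3] [1, 1, 1, 1, 1], .ref 2638 [0, 4] [5, 1, 4], .cyc [6], .contra, .ref 2877 [0, 1, 2, 4, 3] [2, 1, 1, 1, 1], .ref 2612 [0, 4] [5, 2, 3], .ref 2649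 [0, 4] [5, 2, 3], .ref 2878 [0, 1, 2, 4, 3] [2, 1, 1, 1, 1], .ref 2612 [0, 4] [5, 4, 1], .ref 2649 [0, 4] [5, 4, 1]])]

def d11_1 : List (List Item × Pf) := [
([m 0 1, g, s 0 2, g, m 1 3, s 4 0, g, m 2 0, s 0 4, g, s 3 0, g], .leaf [9, 5, 8, 7, 2, 3]),
([m 0 1, g, m 1 2, s 4 0, g, s 0 3, g, m 3 0, s 0 4, g, s 2 0, g], .leaf [9, 7, 8, 7, 4, 1]),
([m 0 1, g, s 3 0, g, m 1 0, s 4 0, g, m 0 2, g, m 2 3, g, s 0 4, g], .leaf [2, 8, 8, 6, 8, 6, 1]),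
([m 0 1, g, s 3 0, g, s 0 2, g, s 2 3, m 1 4, s 7 0, g, s 6 0, g, m 0 5, g, m 5 6, s 0 7, g, s 4 0, g], .leaf [13, 7, 9, 15, 6, 12, 1, 7, 2, 6, 1]),
([m 0 1, g, s 3 0, g, s 0 2, g, s 2 3, m 1 4, s 7 0, g, m 0 5, g, s 6 0, g, m 5 6, s 0 7, g, s 4 0, g], .leaf [11, 5, 7, 15, 8, 12, 1, 5, 2, 6, 1]),
([m 0 1, g, m 1 2, s 4 0, g, m 0 3, g, s 3 4, g, s 2 0, g], .leaf [6, 4, 7, 4, 2, 4, 1]),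
([m 0 1, g, s 3 0, g, s 0 2, g, s 2 3, m 1 4, s 7 0, g, m 0 5, g, m 5 6, s 0 7, g, s 6 0, g, s 4 0, g], .leaf [11, 5, 7, 15, 8, 12, 1, 7, 4, 6, 3]),
([m 0 1, g, m 1 2, s 4 0, g, m 0 3, g, s 0 4, g, m 3 0, g, s 2 0, g], .leaf [10, 8, 9, 8, 3, 5, 3]),
([m 0 1, g, s 3 0, g, s 0 2, g, s 2 3, m 1 4, s 7 0, g, m 0 5, g, m 5 6, s 0 7, g, s 4 0, g, s 6 0, g], .leaf [11, 5, 7, 13, 6, 10, 1, 5, 2, 4, 7]),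
([m 0 1, g, s 2 0, g, s 0 2, m 1 3, g, m 0 4, g, s 3 0, g, p 4 0, g], .leaf [4, 1, 4, 0, 5, 1, 5]),
([m 0 1, g, s 2 0, g, s 0 2, m 1 3, g, m 0 4, g, s 3 0, g, m 4 0, g], .leaf [4, 1, 4, 0, 5, 7, 5]),
([m 0 1, g, s 3 0, g, s 0 2, g, s 2 3, m 1 4, s 6 0, g, m 0 5, g, m 5 0, s 0 6, g, s 4 0, g], .inner (.hi 12) [.ref 2504 [0, 7] [11, 4], .ref 2882 [0, 1, 5, 7, 6] [1, 6, 1, 1, 0, 3], .ref 2622 [0, 1, 7] [1, 6, 4, 4], .ref 2623 [0, 7] [1, 11, 4], .ref 2882 [0, 1, 5, 7, 6] [3, 4, 1, 1, 0, 3], .ref 2622 [0, 1, 7] [3, 4, 4, 4], .ref 2623 [0, 7] [3, 9, 4], .ref 2882 [0, 1, 5, 7, 6] [3, 2, 1, 1, 0, 3], .ref 2882 [0, 1, 5, 7, 6] [5, 2, 1, 1, 0, 3], .ref 2622 [0, 1, 7] [5, 2, 4, 4], .ref 2623 [0, 7] [5, 7, 4], .ref 2883 [0, 1,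 2, 3, 4, 5, 7, 6] [1, 1, 1, 1, 1, 1, 1, 1], .ref 2847 [0, 1, 3, 4, 7] [1, 3, 2, 3, 2, 1], .ref 2623 [0, 7] [9, 3, 4], .cyc [10, 12], .ref 2884 [0, 1, 2, 3, 4, 5, 7, 6] [1, 1, 1, 1, 1, 1, 1, 1], .ref 2847 [0, 1, 3, 4, 7] [1, 3, 4, 1, 2, 1], .ref 2623 [0, 7] [11, 1, 4], .ref 2885 [0, 1, 4, 7, 6] [6, 3, 0, 1, 1], .ref 2886 [0, 1, 2, 3, 4, 5, 7, 6] [1, 1, 1, 1, 1, 1, 1, 1], .ref 2843 [0, 1, 3, 4, 7] [1, 3, 4, 2, 1, 1], .ref 2887 [0, 1, 4, 7, 6] [6, 3, 0, 1, 1, 1], .ref 2888 [0, 1, 2, 3, 4, 5, 7, 6] [1, 1, 1, 1, 1, 1, 1, 1], .ref 2889 [0, 1, 3, 4, 7] [1, 3, 4, 2, 1, 1], .ref 2890 [0, 1, 3, 4, 7] [1, 3, 4, 2, 1, 1]]),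
([m 0 1, g, s 0 2, g, s 3 0, g, s 2 3, m 1 4, s 7 0, g, s 6 0, g, m 0 5, g, m 5 6, s 0 7, g, s 4 0, g], .leaf [13, 7, 9, 15, 6, 12, 1, 7, 2, 6, 1]),
([m 0 1, g, s 0 2, g, s 3 0, g, s 2 3, m 1 4, s 7 0, g, m 0 5, g, s 6 0, g, m 5 6, s 0 7, g, s 4 0, g], .leaf [11, 5, 7, 15, 8, 12, 1, 5, 2, 6, 1]),
([m 0 1, g, s 0 2, g, s 3 0, g, s 2 3, m 1 4, s 7 0, g, m 0 5, g, m 5 6, s 0 7, g, s 6 0, g, s 4 0, g], .leaf [11, 5, 7, 15, 8, 12, 1, 7, 4, 6, 3]),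
([m 0 1, g, s 0 2, g, s 3 0, g, s 2 3, m 1 4, s 7 0, g, m 0 5, g, m 5 6, s 0 7, g, s 4 0, g, s 6 0, g], .leaf [11, 5, 7, 13, 6, 10, 1, 5, 2, 4, 7]),
([m 0 1, g, s 0 2, g, s 3 0, g, s 2 3, m 1 4, s 6 0, g, m 0 5, g, m 5 0, s 0 6, g, s 4 0, g], .inner (.hi 12) [.ref 2504 [0, 7] [11, 4], .ref 2882 [0, 1, 5, 7, 6] [1, 6, 1, 1, 0, 3], .ref 2622 [0, 1, 7] [1, 6, 4, 4], .ref 2623 [0, 7] [1, 11, 4], .ref 2882 [0, 1, 5, 7, 6] [1, 4, 1, 1, 0, 3], .ref 2882 [0, 1, 5, 7, 6] [3, 4, 1, 1, 0, 3], .ref 2622 [0, 1, 7] [3, 4, 4, 4], .ref 2623 [0, 7] [3, 9, 4], .ref 2882 [0, 1, 5, 7, 6] [5, 2, 1, 1, 0, 3], .ref 2622 [0, 1, 7] [5, 2, 4, 4], .ref 2623 [0, 7] [5, 7, 4], .ref 2892 [0, 1, 2, 3, 4, 5, 7, 6] [1, 1, 1, 1, 1, 1, 1, 1], .ref 2847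 [0, 1, 3, 4, 7] [3, 1, 2, 3, 2, 1], .ref 2623 [0, 7] [9, 3, 4], .cyc [10, 12], .ref 2893 [0, 1, 2, 3, 4, 5, 7, 6] [1, 1, 1, 1, 1, 1, 1, 1], .ref 2847 [0, 1, 3, 4, 7] [3, 1, 4, 1, 2, 1], .ref 2623 [0, 7] [11, 1, 4], .ref 2885 [0, 1, 4, 7, 6] [6, 3, 0, 1, 1], .ref 2894 [0, 1, 2, 3, 4, 5, 7, 6] [1, 1, 1, 1, 1, 1, 1, 1], .ref 2843 [0, 1, 3, 4, 7] [3, 1, 4, 2, 1, 1], .ref 2887 [0, 1, 4, 7, 6] [6, 3, 0, 1, 1, 1], .ref 2895 [0, 1, 2, 3, 4, 5, 7, 6] [1, 1, 1, 1, 1, 1, 1, 1], .ref 2889 [0, 1, 3, 4, 7] [3, 1, 4, 2, 1, 1], .ref 2890 [0, 1, 3, 4, 7] [3, 1, 4, 2, 1, 1]]),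
([m 0 1, g, s 0 2, m 1 3, s 5 0, g, m 0 4, g, m 4 0, s 0 5, g, s 3 0, g, s 2 0, g], .leaf [6, 11, 7, 11, 1, 5, 2, 5]),
([m 0 1, g, s 0 2, g, s 2 0, m 1 3, s 5 0, g, m 0 4, g, m 4 0, s 0 5, g, s 3 0, g], .inner (.hi 4) [.ref 2746 [0, 1, 6, 3] [3, 7, 1], .ref 2891 [0, 1, 2, 6, 3, 4, 5] [1, 1, 1, 1, 1, 1, 1], .ref 2853 [0, 1, 2, 6, 3] [1, 1, 1, 7, 1], .ref 2749 [0, 1, 6, 3] [1, 3, 7, 1], .cyc [2, 4], .ref 2896 [0, 1, 2, 6, 3, 4, 5] [1, 1, 1, 1, 1, 1, 1], .ref 2859 [0, 1, 2, 6, 3] [1, 1, 1, 7, 1], .ref 2749 [0, 1, 6, 3] [3, 1, 7, 1], .ref 2860 [0, 1, 6, 3, 5] [3, 1, 4, 1, 1], .ref 2861 [0, 1, 6, 3] [3, 2, 6, 1], .ref 2862 [0, 6, 3] [3, 2, 6, 1], .ref 2862 [0, 6, 3] [3, 2, 4, 1], .ref 2860 [0, 1, 6, 3, 5] [3, 3, 2, 1, 1],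 .ref 2861 [0, 1, 6, 3] [3, 4, 4, 1], .ref 2862 [0, 6, 3] [3, 4, 4, 1], .ref 2863 [0, 1, 6, 3, 5] [3, 4, 1, 1], .ref 2864 [0, 1, 6, 3, 5] [3, 4, 1, 1, 1], .ref 2861 [0, 1, 6, 3] [3, 7, 1, 1], .ref 2862 [0, 6, 3] [3, 7, 1, 1], .ref 2897 [0, 1, 6, 3, 4, 5] [3, 1, 1, 1, 1, 1], .ref 2866 [0, 1, 2, 6, 3] [1, 1, 7, 1, 1], .ref 2754 [0, 6, 3] [3, 7, 1, 1]]),
([m 0 1, g, m 0 2, g, s 2 0, m 1 3, s 5 0, g, m 0 4, g, m 4 0, s 0 5, g, s 3 0, g], .inner (.hi 4) [.ref 2746 [0, 1, 6, 3] [3, 7, 1], .ref 2747 [0, 1, 2, 6, 3] [1, 1, 1, 7, 1], .ref 2748 [0, 1, 2, 6, 3] [1, 1, 1, 7, 1], .ref 2749 [0, 1, 6, 3] [1, 3, 7, 1], .cyc [2, 4], .ref 2750 [0, 1, 2, 6, 3] [1, 1, 1, 7, 1], .ref 2751 [0, 1, 2, 6, 3] [1, 1, 1, 7, 1], .ref 2749 [0, 1,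 6, 3] [3, 1, 7, 1], .ref 2860 [0, 1, 6, 3, 5] [3, 1, 4, 1, 1], .ref 2861 [0, 1, 6, 3] [3, 2, 6, 1], .ref 2862 [0, 6, 3] [3, 2, 6, 1], .ref 2862 [0, 6, 3] [3, 2, 4, 1], .ref 2860 [0, 1, 6, 3, 5] [3, 3, 2, 1, 1], .ref 2861 [0, 1, 6, 3] [3, 4, 4, 1], .ref 2862 [0, 6, 3] [3, 4, 4, 1], .ref 2863 [0, 1, 6, 3, 5] [3, 4, 1, 1], .ref 2864 [0, 1, 6, 3, 5] [3, 4, 1, 1, 1], .ref 2868 [0, 1, 2, 6, 5] [1, 1, 0, 4, 1, 3], .ref 2862 [0, 6, 3] [3, 7, 1, 1], .ref 2897 [0, 1, 6, 3, 4, 5] [3, 1, 1, 1, 1, 1], .ref 2868 [0, 1, 2, 6, 5] [1, 1, 0, 4, 3, 1], .ref 2754 [0, 6, 3] [3, 7, 1, 1]]),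
([m 0 1, g, s 5 0, m 1 2, s 4 0, g, m 0 3, g, m 3 0, s 0 4, g, s 2 0, g, s 0 5, g], .leaf [6, 11, 7, 11, 1, 5, 2, 5]),
([m 0 1, g, s 5 0, m 1 2, s 4 0, g, m 0 3, g, m 3 0, s 0 4, g, s 2 0, g, m 0 5, g], .leaf [6, 11, 7, 11, 1, 5, 2, 5]),
([m 0 1, g, s 0 0, m 1 2, s 4 0, g, m 0 3, g, m 3 0, s 0 4, g, s 2 0, g], .inner (.lo 2) [.ref 2898 [0, 1, 5, 2, 3, 4] [1, 1, 1, 1, 1, 1], .ref 2745 [0, 1, 5, 2] [1, 1, 7, 1], .ref 2899 [0, 1, 5, 2, 3, 4] [1, 1, 1, 1, 1, 1], .cyc [2], .ref 2588 [0, 1, 5] [1, 0, 8], .ref 2870 [0, 1, 2, 5, 4] [1, 1, 4, 1, 1], .ref 2839 [0, 2, 5] [1, 2, 6, 1], .ref 2871 [0, 1, 2, 5] [1, 2, 6, 1], .ref 2870 [0, 1, 2, 5, 4] [1, 3, 2, 1, 1], .ref 2839 [0, 2, 5] [1, 4, 4, 1], .ref 2871 [0, 1, 2, 5] [1, 4,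 4, 1], .ref 2871 [0, 1, 2, 5] [1, 4, 2, 1], .ref 2872 [0, 1, 2, 4, 5] [1, 4, 1, 1, 1], .ref 2839 [0, 2, 5] [1, 7, 1, 1], .ref 2871 [0, 1, 2, 5] [1, 7, 1, 1], .ref 2873 [0, 2, 5] [1, 7, 1], .ref 2900 [0, 1, 2, 3, 4, 5] [1, 1, 1, 1, 1, 1], .ref 2758 [0, 2, 5] [1, 7, 1, 1], .ref 2901 [0, 1, 2, 3, 4, 5] [1, 1, 1, 1, 1, 1]]),
([m 0 1, g, m 1 2, s 3 0, g, m 4 0, s 0 3, g, s 0 4, g, s 2 0, g], .leaf [9, 7, 8, 7, 2, 3]),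
([m 0 1, g, m 1 2, g, s 3 0, g, m 4 0, s 0 3, g, s 2 4, g], .leaf [3, 9, 7, 7, 5, 2, 3]),
([m 0 1, g, m 1 2, s 3 0, g, m 4 0, s 0 3, g, s 2 0, g, s 0 4, g], .leaf [7, 5, 6, 5, 2, 5]),
([m 0 1, g, s 0 0, m 1 2, s 3 0, g, m 0 0, s 0 3, g, s 2 0, g], .inner (.lo 6) [.ref 2880 [0, 1, 4, 2, 3] [1, 2, 1, 1, 1], .ref 2649 [0, 4] [1, 5, 4], .ref 2717 [0, 4, 3] [1, 3, 1, 3], .ref 2862 [0, 4, 2] [1, 2, 2, 1], .ref 2796 [0, 1, 2, 4, 3] [2, 1, 0, 1, 1], .ref 2881 [0, 1, 2, 4, 3] [2, 1, 1, 1, 1], .ref 2649 [0, 4] [5, 1, 4], .ref 2902 [0, 1, 2, 4, 3] [1, 1, 1, 1, 1], .cyc [6], .ref 2903 [0, 1, 2, 3, 4] [2, 1, 1, 1, 1], .ref 2638 [0, 4] [5, 2, 3], .ref 2623 [0, 4] [5, 2, 3], .ref 2904 [0, 1, 2, 3, 4] [2, 0, 1, 1, 1], .ref 2905 [0,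 1, 2, 3, 4] [2, 1, 1, 1, 1], .ref 2638 [0, 4] [5, 4, 1], .ref 2623 [0, 4] [5, 4, 1]]),
([m 0 1, g, s 0 0, m 1 2, s 3 0, g, s 0 3, g, s 2 0, g], .inner (.bot 5) [.contra, .ref 2836 [0, 1, 2, 3] [2, 1, 1, 1], .ref 2879 [0, 1, 2, 3] [1, 1, 1, 1], .ref 2906 [0, 1, 2, 3] [1, 1, 1, 1]]),
([m 0 1, g, m 1 2, s 4 3, g, s 3 0, g, p 0 4, g, s 2 0, g], .leaf [1, 5, 1, 5, 3, 0, 3]),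
([m 0 1, g, m 1 2, s 4 3, g, m 3 0, g, p 0 4, g, s 2 0, g], .leaf [1, 5, 1, 5, 3, 0, 3]),
([m 0 1, g, m 1 2, s 4 3, g, p 0 4, g, s 3 0, g, s 2 0, g], .leaf [1, 5, 1, 5, 3, 0, 3]),
([m 0 1, g, m 1 2, s 4 3, g, p 0 4, g, m 3 0, g, s 2 0, g], .leaf [1, 5, 1, 5, 3, 0, 3]),
([m 0 1, g, m 1 2, s 4 3, g, p 0 4, g, s 2 0, g, s 3 0, g], .leaf [1, 5, 1, 7, 5, 0, 1]),
([m 0 1, g, m 1 2, s 4 3, g, p 0 4, g, s 2 0, g, m 3 0, g], .leaf [1, 5, 1, 7, 5, 0, 1]),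
([m 0 1, g, m 1 2, s 3 0, g, p 0 3, g, s 2 0, g], .inner (.hi 3) [.ref 2594 [0, 1, 4] [1, 5], .ref 2588 [0, 1, 4] [1, 1, 5], .ref 2779 [0, 1, 2, 4] [1, 1, 3, 1], .ref 2596 [0, 1, 4] [1, 1, 5], .ref 2908 [0, 1, 2, 4, 3] [1, 1, 1, 1, 1], .ref 2795 [0, 1, 2, 4] [1, 1, 3, 1], .ref 2909 [0, 1, 2, 4, 3] [1, 1, 1, 1, 1], .cyc [3, 5], .ref 2910 [0, 1, 2, 4, 3] [1, 1, 1, 1, 1], .ref 2795 [0, 1, 2, 4] [1, 3, 1, 1], .ref 2911 [0, 1, 2, 4, 3] [1, 1, 1, 1, 1], .ref 2912 [0, 1, 2, 4, 3] [1, 1, 1, 1, 1], .ref 2813 [0, 1, 2, 4] [1, 3, 1, 1], .ref 2913 [0, 1, 2, 4, 3] [1, 1, 1, 1, 1]]),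
([m 0 1, g, m 1 2, s 3 0, g, m 0 3, g, s 2 0, g], .leaf [6, 4, 5, 4, 1]),
([m 0 1, g, m 1 2, s 4 3, g, s 3 0, g, s 2 4, g], .leaf [1, 5, 1, 5, 3, 0, 1]),
([m 0 1, g, m 1 2, s 4 3, g, m 3 0, g, s 2 4, g], .leaf [1, 5, 1, 5, 3, 0, 1]),
([m 0 1, g, m 1 2, s 4 3, g, s 2 4, g, s 3 0, g], .leaf [1, 3, 5, 1, 3, 0, 1]),
([m 2 1, g, s 0 2, g, m 1 0, s 4 3, g, s 0 4, g, m 3 0, g], .leaf [2, 1, 6, 1, 6, 4, 1]),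
([m 2 1, g, s 0 2, g, m 1 3, s 4 0, g, s 3 4, g], .inner (.hi 5) [.ref 2588 [0, 1, 5] [1, 3, 3], .ref 2779 [0, 1, 3, 5] [1, 3, 1, 1], .ref 2596 [0, 1, 5] [1, 3, 3], .cyc [0, 4, 7, 5, 2], .ref 2588 [0, 1, 5] [3, 1, 3], .ref 2779 [0, 1, 3, 5] [3, 1, 1, 1], .ref 2596 [0, 1, 5] [3, 1, 3], .ref 2916 [0, 1, 3, 5, 4] [3, 1, 1, 1], .ref 2795 [0, 1, 3, 5] [3, 1, 1, 1], .ref 2917 [0, 1, 3, 5, 4] [3, 1, 1, 1], .ref 2918 [0, 1, 3, 5, 4] [3, 1, 1, 1], .ref 2813 [0, 1, 3, 5] [3, 1, 1, 1], .ref 2919 [0, 1, 2, 5, 4] [1, 1, 1, 1, 1]]),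
([m 3 1, g, m 1 2, s 4 0, g, s 0 3, g, s 2 4, g], .leaf [0, 4, 2, 4, 4, 0, 1]),
([m 4 1, g, m 1 2, s 3 0, g, s 2 3, g, s 0 4, g], .leaf [0, 6, 4, 2, 2, 0, 1]),
([m 0 1, g, m 1 2, s 3 0, g, s 2 3, g], .inner (.lo 0) [.ref 2920 [0, 1, 4, 2, 3] [1, 1, 1, 1], .ref 2503 [0, 4] [1, 6], .ref 2504 [0, 4] [1, 6], .cyc [0, 2, 5, 3], .ref 2921 [0, 1, 2, 4, 3] [1, 1, 1, 1], .ref 2503 [0, 4] [4, 3], .ref 2504 [0, 4] [4, 3], .ref 2922 [0, 1, 2, 3, 4] [1, 1, 1, 1], .ref 2503 [0, 4] [6, 1], .ref 2504 [0, 4] [6, 1]]),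
([m 0 1, g, s 0 2, g, s 2 0, m 1 3, g, s 4 0, s 3 0, g, s 0 4, g], .leaf [4, 1, 4, 0, 4, 5]),
([m 0 1, g, s 0 2, m 1 3, s 4 0, g, s 3 0, g, s 2 0, g, s 0 4, g], .leaf [2, 7, 9, 5, 0, 5]),
([m 0 1, g, s 0 2, m 1 3, s 4 0, g, s 3 0, g, p 2 0, g, s 0 4, g], .leaf [2, 7, 9, 5, 0, 5]),
([m 0 0, g, s 0 1, m 0 2, g, s 3 0, s 2 0, g, s 1 3, g], .leaf [8, 5, 2, 3]),
([m 0 1, g, s 0 2, m 1 3, g, s 4 0, s 3 0, g, s 0 4, g, s 2 0, g], .leaf [5, 7, 9, 4, 6, 5]),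
([m 0 1, g, m 0 2, g, s 2 0, m 1 3, s 4 0, s 3 0, g, s 0 4, g], .inner (.hi 4) [.ref 2746 [0, 1, 5, 3] [3, 1, 3], .ref 2747 [0, 1, 2, 5, 3] [1, 1, 1, 1, 3], .ref 2748 [0, 1, 2, 5, 3] [1, 1, 1, 1, 3], .ref 2749 [0, 1, 5, 3] [1, 3, 1, 3], .cyc [2, 4], .ref 2750 [0, 1, 2, 5, 3] [1, 1, 1, 1, 3], .ref 2751 [0, 1, 2, 5, 3] [1, 1, 1, 1, 3], .ref 2749 [0, 1, 5, 3] [3, 1, 1, 3], .ref 2925 [0, 1, 5, 3, 4] [3, 0, 1, 1, 1], .ref 2926 [0, 1, 5, 3, 4] [3, 0, 1, 1, 1], .ref 2754 [0, 5, 3] [3, 1, 1, 3], .ref 2927 [0, 5, 3, 4] [3, 0, 1, 1], .ref 2928 [0, 1, 5, 3, 4] [3, 0, 1, 1, 1], .ref 2868 [0, 1, 2, 5, 4] [1, 1, 0, 2, 1, 1], .ref 2754 [0, 5, 3] [3, 1, 3, 1]]),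
([m 0 1, g, s 3 0, m 1 2, s 4 0, g, s 2 0, g, s 0 3, g, s 0 4, g], .leaf [2, 7, 9, 5, 0, 5]),
([m 0 1, g, s 3 0, m 1 2, s 4 0, g, s 2 0, g, m 0 3, g, s 0 4, g], .leaf [2, 7, 9, 5, 0, 5]),
([m 0 1, g, s 4 0, m 1 2, g, s 3 0, s 2 0, g, s 0 3, g, s 0 4, g], .leaf [5, 7, 9, 4, 6, 5]),
([m 0 1, g, s 2 0, g, s 0 2, m 1 3, g, s 4 0, s 3 0, g, s 0 4, g], .leaf [4, 1, 4, 0, 4, 5]),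
([m 0 1, g, p 2 0, g, s 4 2, m 1 3, g, s 3 0, g, m 0 4, g], .leaf [3, 5, 1, 6, 3, 4, 1]),
([m 0 1, g, s 4 2, m 1 3, g, s 3 0, g, p 2 0, g, m 0 4, g], .leaf [1, 3, 1, 6, 1, 4, 1]),
([m 0 1, g, s 4 2, m 1 3, g, s 3 0, g, m 0 4, g, p 2 0, g], .leaf [1, 3, 1, 6, 1, 4, 1]),
([m 0 1, g, s 4 0, m 1 2, s 3 0, s 2 0, g, s 0 3, g, m 0 4, g], .inner (.hi 2) [.ref 2746 [0, 1, 5, 2] [1, 1, 5], .ref 2933 [0, 1, 5, 2, 3] [1, 1, 0, 1, 3], .ref 2934 [0, 1, 5, 2, 4] [1, 1, 1, 3, 1], .ref 2749 [0, 1, 5, 2] [1, 1, 1, 5], .ref 2925 [0, 1, 5, 2, 3] [1, 0, 1, 1, 3], .ref 2926 [0, 1, 5, 2, 3] [1, 0, 1, 1, 3], .ref 2754 [0, 5, 2] [1, 1, 1, 5], .ref 2927 [0, 5, 2, 3] [1, 0, 1, 3], .ref 2928 [0, 1, 5, 2, 3] [1, 0, 1, 1, 3], .ref 2935 [0, 1,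 5, 2, 4] [1, 1, 3, 1, 1], .ref 2754 [0, 5, 2] [1, 1, 3, 3], .cyc [2, 9], .ref 2928 [0, 1, 5, 2, 3] [1, 0, 1, 3, 1], .ref 2936 [0, 1, 5, 2, 4] [1, 1, 3, 1, 1], .ref 2754 [0, 5, 2] [1, 1, 5, 1]]),
([m 0 1, g, s 0 0, m 1 2, s 3 0, s 2 0, g, s 0 3, g], .inner (.lo 2) [.ref 2924 [0, 1, 4, 2, 3] [1, 1, 0, 1, 1], .ref 2745 [0, 1, 4, 2] [1, 1, 1, 3], .ref 2929 [0, 1, 4, 2, 3] [1, 1, 1, 1], .cyc [2], .ref 2588 [0, 1, 4] [1, 0, 4], .ref 2873 [0, 2, 4] [1, 1, 3], .ref 2930 [0, 1, 2, 4, 3] [1, 0, 1, 1, 1], .ref 2758 [0, 2, 4] [1, 1, 1, 3], .ref 2931 [0, 1, 2, 4, 3] [1, 0, 1, 1, 1], .ref 2932 [0, 1, 2, 3, 4] [1, 0, 1, 1, 1], .ref 2758 [0, 2, 4] [1, 1, 3, 1], .ref 2937 [0, 1, 2, 3, 4] [1, 1, 1, 1]]),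
([m 0 1, g, s 0 2, g, s 0 3, g, s 3 0, m 1 4, g, s 2 0, s 4 0, g], .leaf [6, 1, 6, 0, 6, 3]),
([m 0 1, g, p 0 2, g, m 1 3, g, s 2 0, s 3 0, g], .leaf [3, 4, 0, 4, 1]),
([m 3 1, g, m 1 2, g, s 0 3, s 2 0, g], .leaf [1, 2, 0, 2, 1]),
([m 0 1, g, s 4 0, g, s 0 2, g, s 2 0, m 1 3, g, s 0 4, s 3 0, g], .leaf [6, 1, 6, 0, 6, 3]),
([m 0 1, g, p 4 0, g, m 0 2, g, m 1 3, g, s 2 4, s 3 0, g], .leaf [1, 6, 4, 5, 1, 4, 1])]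

def d11_2 : List (List Item × Pf) := [
([m 0 1, g, m 3 0, g, m 1 2, g, s 0 3, s 2 0, g], .leaf [3, 4, 0, 4, 1]),
([m 0 1, g, m 0 2, g, p 4 0, g, m 1 3, g, s 2 4, s 3 0, g], .leaf [1, 6, 4, 5, 1, 4, 1]),
([m 0 1, g, s 4 2, g, s 2 0, m 1 3, g, s 0 4, s 3 0, g], .leaf [7, 4, 4, 2, 4, 3]),
([m 0 1, g, s 0 2, g, s 4 0, g, s 2 0, m 1 3, g, s 0 4, s 3 0, g], .leaf [6, 3, 6, 0, 6, 1]),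
([m 0 1, g, s 0 2, g, s 2 0, m 1 3, g, s 4 0, g, s 0 4, s 3 0, g], .leaf [4, 1, 4, 0, 6, 1]),
([m 0 1, g, m 0 2, g, m 1 3, g, p 4 0, g, s 2 4, s 3 0, g], .leaf [7, 5, 6, 3, 3, 4, 1]),
([m 0 1, g, m 1 2, g, m 3 0, g, s 0 3, s 2 0, g], .leaf [1, 2, 0, 4, 1]),
([m 0 1, g, s 0 2, g, s 2 0, m 1 3, g, s 0 4, s 3 0, g, s 4 0, g], .leaf [4, 1, 4, 0, 4, 5]),
([m 0 1, g, m 1 2, g, s 0 3, s 2 0, g, p 3 0, g], .leaf [1, 2, 0, 2, 3]),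
([m 0 1, g, m 0 2, g, m 1 3, g, s 2 4, s 3 0, g, m 4 0, g], .leaf [1, 4, 2, 3, 6, 2, 3]),
([m 0 1, g, m 0 2, g, s 0 3, g, s 3 0, m 1 4, g, s 2 0, s 4 0, g], .inner (.hi 9) [.ref 2941 [0, 1, 4, 5] [6, 1, 1], .ref 2942 [0, 1, 3, 4, 5] [1, 3, 1, 1, 1], .ref 2943 [0, 1, 2, 4, 5] [1, 1, 4, 1, 1], .ref 2944 [0, 1, 4, 5] [1, 6, 1, 1], .cyc [2, 9], .ref 2942 [0, 1, 3, 4, 5] [3, 1, 1, 1, 1], .ref 2945 [0, 1, 2, 4, 5] [1, 1, 4, 1, 1], .ref 2944 [0, 1, 4, 5] [3, 4, 1, 1], .ref 2946 [0, 1, 3, 4, 5] [3, 1, 1, 1], .ref 2947 [0, 1, 3, 4, 5] [3, 1, 1, 1, 1], .ref 2945 [0, 1, 2, 4, 5] [1, 3, 2, 1, 1], .ref 2944 [0, 1, 4, 5] [5, 2, 1, 1], .ref 2948 [0, 1, 3, 4, 5] [3, 1, 1, 1, 1], .ref 2949 [0, 1, 2, 4, 5] [1, 4, 1, 1, 1], .ref 2950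 [0, 1, 4, 5] [6, 1, 1, 1], .ref 2951 [0, 1, 3, 4, 5] [3, 1, 1, 1, 1], .ref 2952 [0, 1, 4, 5] [6, 1, 1, 1], .ref 2953 [0, 1, 2, 4, 5] [1, 4, 1, 1, 1]]),
([m 0 1, g, s 0 2, g, s 0 3, g, s 2 0, m 1 4, g, s 3 0, s 4 0, g], .leaf [6, 3, 6, 0, 6, 1]),
([m 0 1, g, s 0 2, g, m 0 3, g, s 2 0, m 1 4, g, s 3 0, s 4 0, g], .leaf [6, 3, 6, 0, 6, 1]),
([m 0 1, g, s 0 2, m 1 3, s 4 0, g, s 2 0, g, s 3 0, g, s 0 4, g], .leaf [2, 5, 9, 7, 0, 3]),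
([m 0 1, g, s 0 2, g, s 2 0, m 1 3, g, s 0 4, g, s 4 0, s 3 0, g], .leaf [4, 1, 4, 0, 6, 1]),
([m 0 1, g, m 1 2, g, p 0 3, g, s 3 0, s 2 0, g], .leaf [1, 2, 0, 4, 1]),
([m 0 1, g, p 4 0, g, m 1 2, g, m 0 3, g, s 3 4, s 2 0, g], .leaf [7, 5, 6, 3, 3, 4, 1]),
([m 0 1, g, m 1 2, s 6 3, g, s 3 0, g, p 5 0, g, m 0 4, g, s 4 5, s 2 0, g, s 0 6, g], .leaf [1, 3, 12, 6, 3, 6, 8, 0, 4, 1]),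
([m 0 1, g, m 1 2, s 4 3, g, m 3 0, g, s 2 0, g, s 0 4, g], .leaf [1, 5, 1, 7, 5, 0, 1]),
([m 0 1, g, m 1 2, s 5 3, g, p 4 0, g, s 3 0, g, s 0 4, s 2 0, g, s 0 5, g], .leaf [7, 3, 4, 7, 3, 1, 4, 5]),
([m 0 1, g, m 1 2, s 6 3, g, p 5 0, g, m 0 4, g, s 4 5, s 2 0, g, s 3 0, g, s 0 6, g], .leaf [1, 3, 12, 8, 3, 6, 8, 0, 4, 1]),
([m 0 1, g, m 1 2, s 0 3, g, p 4 0, g, s 0 4, s 2 0, g, m 3 0, g], .leaf [1, 5, 9, 6, 0, 2, 5]),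
([m 0 1, g, m 1 2, s 6 3, g, p 5 0, g, m 0 4, g, s 4 5, s 2 0, g, s 0 6, g, s 3 0, g], .leaf [1, 3, 12, 8, 3, 6, 8, 0, 4, 1]),
([m 0 1, g, m 1 2, s 5 0, g, p 4 0, g, m 0 3, g, s 3 4, s 2 0, g, s 0 5, g], .inner (.hi 3) [.ref 2594 [0, 1, 6] [1, 10], .ref 2588 [0, 1, 6] [1, 1, 10], .ref 2779 [0, 1, 2, 6] [1, 1, 6, 3], .ref 2596 [0, 1, 6] [1, 1, 10], .ref 2961 [0, 1, 2, 6, 3, 4, 5] [1, 1, 1, 1, 1, 1, 1], .ref 2795 [0, 1, 2, 6] [1, 1, 6, 3], .ref 2962 [0, 1, 2, 6, 5] [1, 1, 6, 1, 1], .ref 2963 [0, 1, 2, 6, 4, 5] [1, 1, 1, 3, 1, 1], .ref 2795 [0, 1, 2, 6] [1, 3, 4, 3], .ref 2962 [0, 1, 2, 6, 5] [1, 3, 4, 1, 1], .ref 2962 [0, 1, 2, 6, 5] [1, 3, 2, 1, 1], .ref 2963 [0, 1, 2, 6, 4, 5] [1, 1, 3, 1, 1, 1], .ref 2795 [0, 1, 2,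 6] [1, 5, 2, 3], .ref 2962 [0, 1, 2, 6, 5] [1, 5, 2, 1, 1], .ref 2964 [0, 1, 2, 6, 3, 4, 5] [1, 1, 1, 1, 1, 1, 1], .ref 2813 [0, 1, 2, 6] [1, 6, 1, 3], .ref 2965 [0, 1, 2, 6, 4] [1, 1, 3, 1, 3], .cyc [3, 12], .ref 2966 [0, 1, 2, 6, 3, 4, 5] [1, 1, 1, 1, 1, 1, 1], .ref 2813 [0, 1, 2, 6] [1, 6, 3, 1], .ref 2965 [0, 1, 2, 6, 4] [1, 1, 3, 3, 1]]),
([m 0 1, g, m 1 2, s 6 3, g, s 3 0, g, m 0 4, g, p 5 0, g, s 4 5, s 2 0, g, s 0 6, g], .leaf [1, 3, 12, 6, 3, 6, 8, 0, 4, 1]),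
([m 0 1, g, m 1 2, s 5 3, g, m 0 4, g, s 3 0, g, s 4 0, s 2 0, g, s 0 5, g], .leaf [7, 3, 4, 7, 3, 1, 4, 5]),
([m 0 1, g, m 1 2, s 6 3, g, m 0 4, g, p 5 0, g, s 4 5, s 2 0, g, s 3 0, g, s 0 6, g], .leaf [1, 3, 12, 8, 3, 6, 8, 0, 4, 1]),
([m 0 1, g, m 1 2, s 6 3, g, m 0 4, g, p 5 0, g, s 4 5, s 2 0, g, s 0 6, g, s 3 0, g], .leaf [1, 3, 12, 8, 3, 6, 8, 0, 4, 1]),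
([m 0 1, g, m 1 2, s 5 0, g, m 0 3, g, p 4 0, g, s 3 4, s 2 0, g, s 0 5, g], .inner (.hi 3) [.ref 2594 [0, 1, 6] [1, 10], .ref 2588 [0, 1, 6] [1, 1, 10], .ref 2779 [0, 1, 2, 6] [1, 1, 6, 3], .ref 2596 [0, 1, 6] [1, 1, 10], .ref 2968 [0, 1, 2, 6, 3, 4, 5] [1, 1, 1, 1, 1, 1, 1], .ref 2795 [0, 1, 2, 6] [1, 1, 6, 3], .ref 2962 [0, 1, 2, 6, 5] [1, 1, 6, 1, 1], .ref 2962 [0, 1, 2, 6, 5] [1, 1, 4, 1, 1], .ref 2969 [0, 1, 2, 6, 3, 5] [1, 1, 1, 3, 1, 1], .ref 2795 [0, 1, 2, 6] [1, 3, 4, 3], .ref 2962 [0, 1, 2, 6, 5] [1, 3, 4, 1, 1], .ref 2969 [0, 1, 2, 6, 3, 5] [1, 1, 3, 1, 1, 1], .ref 2795 [0, 1, 2, 6] [1, 5, 2, 3], .ref 2962 [0, 1, 2, 6, 5] [1, 5, 2, 1, 1], .ref 2970 [0, 1, 2, 6, 3, 4, 5] [1, 1, 1, 1, 1, 1, 1], .ref 2813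 [0, 1, 2, 6] [1, 6, 1, 3], .ref 2965 [0, 1, 2, 6, 4] [1, 3, 1, 1, 3], .cyc [3, 12], .ref 2971 [0, 1, 2, 6, 3, 4, 5] [1, 1, 1, 1, 1, 1, 1], .ref 2813 [0, 1, 2, 6] [1, 6, 3, 1], .ref 2965 [0, 1, 2, 6, 4] [1, 3, 1, 3, 1]]),
([m 0 1, g, m 1 2, g, m 0 3, g, s 3 4, s 2 0, g, m 4 0, g], .leaf [3, 9, 2, 6, 6, 4, 1]),
([m 0 1, g, s 0 2, g, s 2 0, m 1 3, s 5 0, g, m 0 4, g, s 4 0, s 3 0, g, s 0 5, g], .inner (.hi 10) [.ref 2941 [0, 1, 3, 6] [4, 4, 3], .ref 2942 [0, 1, 2, 3, 6] [1, 1, 1, 4, 3], .ref 2960 [0, 1, 3, 4, 6] [1, 4, 2, 1, 3], .ref 2944 [0, 1, 3, 6] [1, 4, 4, 3], .ref 2946 [0, 1, 2, 3, 6] [1, 1, 4, 3], .ref 2947 [0, 1, 2, 3, 6] [1, 1, 1, 4, 3], .ref 2960 [0, 1, 3, 4, 6] [3, 2, 2, 1, 3], .ref 2944 [0, 1, 3, 6] [3, 2,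 4, 3], .ref 2948 [0, 1, 2, 3, 6] [1, 1, 2, 3, 3], .ref 2967 [0, 1, 3, 4, 6, 5] [4, 1, 1, 1, 1, 1], .ref 2950 [0, 1, 3, 6] [4, 2, 3, 3], .cyc [8, 10], .ref 2948 [0, 1, 2, 3, 6] [1, 1, 4, 1, 3], .ref 2972 [0, 1, 3, 4, 6, 5] [4, 1, 1, 1, 1, 1], .ref 2950 [0, 1, 3, 6] [4, 4, 1, 3], .ref 2951 [0, 1, 2, 3, 6] [1, 1, 4, 1, 3], .ref 2952 [0, 1, 3, 6] [4, 4, 1, 3], .ref 2973 [0, 1, 3, 4, 6] [4, 2, 1, 1, 3], .ref 2951 [0, 1, 2, 3, 6] [1, 1, 4, 1, 1], .ref 2951 [0, 1, 2, 3, 6] [1, 1, 4, 3, 1], .ref 2952 [0, 1, 3, 6] [4, 4, 3, 1], .ref 2973 [0, 1, 3, 4, 6] [4, 2, 1, 3, 1]]),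
([m 0 1, g, s 3 0, g, s 0 2, g, s 2 3, m 1 4, g, s 5 0, s 4 0, g, p 0 5, g], .leaf [5, 7, 1, 4, 9, 2, 4, 5]),
([m 0 1, g, s 0 2, g, s 3 0, g, s 2 3, m 1 4, g, s 5 0, s 4 0, g, p 0 5, g], .leaf [5, 7, 1, 2, 9, 2, 6, 1]),
([m 0 1, g, s 0 2, g, s 2 3, m 1 4, g, s 5 0, s 4 0, g, p 0 5, g, s 3 0, g], .leaf [3, 5, 1, 2, 7, 2, 4, 5]),
([m 0 1, g, s 0 2, g, s 2 0, m 1 3, s 5 0, g, s 4 0, s 3 0, g, p 0 4, g, s 0 5, g], .inner (.hi 4) [.ref 2746 [0, 1, 6, 3] [3, 3, 5], .ref 2975 [0, 1, 2, 6, 3, 4] [1, 1, 1, 2, 1, 3], .ref 2853 [0, 1, 2, 6, 3] [1, 1, 1, 3, 5], .ref 2749 [0, 1, 6, 3] [1, 3, 3, 5], .cyc [2, 4], .ref 2976 [0, 1, 2, 6, 3, 4] [1, 1, 1, 2, 1, 3], .ref 2859 [0, 1, 2, 6, 3] [1, 1, 1, 3, 5], .ref 2749 [0, 1, 6, 3] [3,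 1, 3, 5], .ref 2957 [0, 1, 6, 3, 5] [3, 1, 2, 3, 1], .ref 2861 [0, 1, 6, 3] [3, 2, 2, 5], .ref 2862 [0, 6, 3] [3, 2, 2, 5], .ref 2925 [0, 1, 6, 3, 5] [3, 2, 1, 3, 1], .ref 2866 [0, 1, 2, 6, 3] [1, 1, 3, 1, 5], .ref 2754 [0, 6, 3] [3, 3, 1, 5], .ref 2866 [0, 1, 2, 6, 3] [1, 1, 3, 1, 3], .ref 2977 [0, 1, 2, 6, 3, 4] [1, 1, 2, 1, 1, 3], .ref 2866 [0, 1, 2, 6, 3] [1, 1, 3, 3, 3], .ref 2754 [0, 6, 3] [3, 3, 3, 3], .ref 2977 [0, 1, 2, 6, 3, 4] [1, 1, 2, 1, 1, 1], .ref 2977 [0, 1, 2, 6, 3, 4] [1, 1, 2, 1, 3, 1], .ref 2866 [0, 1, 2, 6, 3] [1, 1, 3, 5, 1], .ref 2754 [0, 6, 3] [3, 3, 5, 1]]),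
([m 0 1, g, m 1 2, g, s 3 0, s 2 0, g, m 0 3, g], .leaf [1, 2, 0, 2, 3]),
([m 0 1, g, s 0 2, g, s 2 3, m 1 4, g, s 5 0, s 4 0, g, s 3 0, g, p 0 5, g], .leaf [3, 5, 1, 2, 9, 4, 6, 3]),
([m 0 1, g, s 0 2, g, s 2 0, m 1 3, s 4 0, g, s 5 0, s 3 0, g, s 0 4, g, p 0 5, g], .inner (.hi 4) [.ref 2746 [0, 1, 6, 3] [3, 3, 5], .ref 2975 [0, 1, 2, 6, 3, 5] [1, 1, 1, 2, 3, 1], .ref 2853 [0, 1, 2, 6, 3] [1, 1, 1, 3, 5], .ref 2749 [0, 1, 6, 3] [1, 3, 3, 5], .cyc [2, 4], .ref 2976 [0, 1, 2, 6, 3, 5] [1, 1, 1, 2, 3, 1], .ref 2859 [0, 1, 2, 6, 3] [1, 1, 1, 3, 5], .ref 2749 [0, 1, 6, 3] [3, 1, 3, 5], .ref 2957 [0, 1, 6, 3, 4] [3, 1, 2, 1, 3], .ref 2861 [0, 1, 6, 3] [3, 2, 2, 5], .ref 2862 [0, 6, 3] [3, 2, 2, 5], .ref 2980 [0, 1, 2, 6,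 3, 5] [1, 1, 2, 1, 3, 1], .ref 2866 [0, 1, 2, 6, 3] [1, 1, 3, 1, 5], .ref 2754 [0, 6, 3] [3, 3, 1, 5], .ref 2980 [0, 1, 2, 6, 3, 5] [1, 1, 2, 1, 1, 1], .ref 2980 [0, 1, 2, 6, 3, 5] [1, 1, 2, 3, 1, 1], .ref 2866 [0, 1, 2, 6, 3] [1, 1, 3, 3, 3], .ref 2754 [0, 6, 3] [3, 3, 3, 3], .ref 2866 [0, 1, 2, 6, 3] [1, 1, 3, 3, 1], .ref 2977 [0, 1, 2, 6, 3, 5] [1, 1, 2, 3, 1, 1], .ref 2866 [0, 1, 2, 6, 3] [1, 1, 3, 5, 1], .ref 2754 [0, 6, 3] [3, 3, 5, 1]]),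
([m 0 1, g, s 0 2, g, s 2 0, m 1 3, s 4 0, g, s 0 0, s 3 0, g, s 0 4, g], .inner (.lo 8) [.ref 2939 [0, 1, 5, 2, 3] [1, 1, 1, 2, 3], .ref 2940 [0, 1, 5, 3] [1, 4, 2, 3], .ref 2954 [0, 1, 5, 2, 3] [1, 1, 1, 2, 3], .ref 2955 [0, 1, 2, 5, 3] [1, 1, 1, 2, 3], .ref 2940 [0, 1, 5, 3] [3, 2, 2, 3], .ref 2956 [0, 1, 2, 5, 3] [1, 1, 1, 2, 3], .ref 2957 [0, 1, 5, 3, 4] [3, 1, 0, 1, 1], .ref 2958 [0, 1, 2, 3, 5] [1, 1, 0, 1, 3], .ref 2958 [0, 1, 2, 3, 5] [1, 1, 2, 1, 3], .ref 2959 [0, 1, 3, 5] [4, 2, 1, 3], .ref 2974 [0, 1, 2, 3, 5, 4] [1, 1, 1, 1, 1, 1], .cyc [8], .contra, .ref 2924 [0, 1, 2, 3, 5] [1, 1, 2, 1, 3], .ref 2978 [0, 1, 2, 3, 5, 4] [1, 1, 1, 1, 1, 1], .ref 2979 [0, 1, 3, 5] [4, 2, 1, 3], .ref 2924 [0, 1, 2, 3, 5]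 [1, 1, 2, 3, 1], .ref 2981 [0, 1, 2, 3, 4, 5] [1, 1, 1, 1, 1, 1], .ref 2979 [0, 1, 3, 5] [4, 2, 3, 1]]),
([m 0 1, g, m 0 2, g, s 2 3, m 1 4, g, s 4 0, g, s 3 0, g], .leaf [1, 5, 3, 1, 6, 4, 1]),
([m 0 1, g, m 0 2, g, s 2 0, m 1 3, s 4 0, g, s 3 0, g, s 0 4, g], .inner (.hi 4) [.ref 2746 [0, 1, 5, 3] [3, 2, 3], .ref 2747 [0, 1, 2, 5, 3] [1, 1, 1, 2, 3], .ref 2748 [0, 1, 2, 5, 3] [1, 1, 1, 2, 3], .ref 2749 [0, 1, 5, 3] [1, 3, 2, 3], .cyc [2, 4], .ref 2750 [0, 1, 2, 5, 3] [1, 1, 1, 2, 3], .ref 2751 [0, 1, 2, 5, 3] [1, 1, 1, 2, 3], .ref 2749 [0, 1, 5, 3] [3, 1, 2, 3], .ref 2957 [0, 1, 5, 3, 4] [3, 1, 1, 1, 1], .ref 2861 [0, 1, 5, 3] [3, 2, 1, 3], .ref 2862 [0, 5, 3] [3, 2, 1, 3], .ref 2983 [0, 1, 2, 5, 3] [1, 1, 2, 1,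 3], .ref 2926 [0, 1, 5, 3, 4] [3, 1, 1, 1, 1], .ref 2754 [0, 5, 3] [3, 2, 1, 3], .ref 2983 [0, 1, 2, 5, 3] [1, 1, 2, 1, 1], .ref 2983 [0, 1, 2, 5, 3] [1, 1, 2, 3, 1], .ref 2868 [0, 1, 2, 5, 4] [1, 1, 0, 3, 1, 1], .ref 2754 [0, 5, 3] [3, 2, 3, 1]]),
([m 0 1, g, s 3 0, m 1 2, s 4 0, g, s 0 3, g, s 2 0, g, s 0 4, g], .leaf [2, 5, 9, 7, 0, 3]),
([m 0 1, g, s 0 2, g, s 4 0, m 1 3, g, s 2 0, s 3 0, g, s 0 4, g], .leaf [7, 4, 9, 7, 4, 3]),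
([m 0 1, g, s 0 2, g, m 2 3, g, s 5 0, m 1 4, g, s 3 0, s 4 0, g, s 0 5, g], .leaf [4, 1, 6, 2, 9, 7, 4, 1]),
([m 0 1, g, m 0 2, g, m 2 3, g, m 1 0, s 4 0, g, s 3 0, g, s 0 4, g], .leaf [8, 4, 7, 4, 7, 1, 3]),
([m 0 0, g, m 2 1, g, s 0 2, g, s 4 0, m 0 3, g, s 1 0, s 3 0, g, s 0 4, g], .leaf [4, 1, 11, 5, 2, 7]),
([m 0 0, g, m 3 1, g, s 4 0, m 0 2, g, s 0 3, g, s 1 0, s 2 0, g, s 0 4, g], .leaf [7, 4, 11, 9, 6, 3]),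
([m 0 0, g, m 2 1, g, s 1 0, s 0 2, g], .leaf [2, 4, 3]),
([m 0 1, g, m 4 2, g, m 1 3, g, s 2 0, s 3 0, g, s 0 4, g], .leaf [1, 9, 6, 1, 5, 2, 3]),
([m 0 1, g, m 0 2, g, s 5 0, m 1 3, s 4 0, g, s 2 0, s 3 0, g, s 0 4, g, s 0 5, g], .inner (.lo 2) [.ref 2987 [0, 1, 6, 2, 3, 5] [1, 1, 1, 2, 3, 1], .ref 2649 [0, 6] [1, 1, 12], .ref 2988 [0, 1, 6, 2, 4] [1, 1, 2, 1, 2, 3], .ref 2989 [0, 2, 6, 3, 5] [1, 1, 1, 2, 3, 1], .ref 2638 [0, 6] [1, 1, 12], .ref 2623 [0, 6] [1, 1, 12], .ref 2749 [0, 1, 6, 3] [1, 1, 3, 5], .ref 2990 [0, 2, 3, 6, 5] [1, 1, 0, 1, 3, 1], .ref 2990 [0, 2, 3, 6, 5] [1, 1, 2, 1, 3, 1], .ref 2638 [0, 6] [1, 5, 8], .ref 2623 [0, 6] [1, 5, 8], .cyc [2, 8], .ref 2991 [0, 2, 6] [1, 5, 5], .ref 2992 [0, 1, 2,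 3, 6] [1, 2, 2, 1, 5], .ref 2638 [0, 6] [1, 8, 5], .ref 2623 [0, 6] [1, 8, 5], .ref 2992 [0, 1, 2, 3, 6] [1, 2, 2, 3, 3], .ref 2638 [0, 6] [1, 10, 3], .ref 2623 [0, 6] [1, 10, 3], .ref 2992 [0, 1, 2, 3, 6] [1, 2, 2, 5, 1], .ref 2638 [0, 6] [1, 12, 1], .ref 2623 [0, 6] [1, 12, 1]]),
([m 0 1, g, m 1 2, s 4 3, g, s 3 0, s 2 0, g, s 0 4, g], .leaf [5, 1, 2, 3, 2, 3]),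
([m 0 1, g, m 1 2, s 4 0, g, s 0 3, g, s 3 0, s 2 0, g, s 0 4, g], .leaf [7, 1, 4, 5, 4, 5]),
([m 0 1, g, s 3 0, g, s 4 0, m 1 2, g, s 0 3, s 2 0, g, s 0 4, g], .leaf [7, 4, 9, 7, 4, 3]),
([m 0 1, g, m 1 2, s 4 0, g, s 3 0, g, s 0 3, s 2 0, g, s 0 4, g], .leaf [7, 1, 4, 5, 4, 5]),
([m 0 1, g, s 4 0, m 1 2, g, s 0 3, s 2 0, g, s 3 0, g, s 0 4, g], .leaf [5, 7, 9, 4, 6, 5]),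
([m 0 0, g, s 3 0, m 0 1, g, s 0 2, s 1 0, g, s 2 3, g], .leaf [8, 5, 2, 3]),
([m 0 1, g, s 5 0, m 1 2, s 4 0, g, s 0 3, s 2 0, g, s 0 4, g, s 0 5, g, s 3 0, g], .leaf [11, 8, 3, 10, 5, 6, 1]),
([m 0 1, g, s 5 0, m 1 2, s 4 0, g, m 0 3, g, s 3 0, s 2 0, g, s 0 4, g, s 0 5, g], .inner (.hi 8) [.ref 2941 [0, 1, 2, 6] [2, 4, 5], .ref 2996 [0, 1, 2, 6, 5] [1, 1, 4, 3, 1], .ref 2960 [0, 1, 2, 3, 6] [1, 2, 2, 1, 5], .ref 2944 [0, 1, 2, 6] [1, 2, 4, 5], .ref 2997 [0, 1, 2, 6, 4] [2, 1, 3, 1, 3], .ref 2967 [0, 1, 2, 3, 6, 4] [2, 1, 1, 1, 1, 3], .ref 2950 [0, 1, 2, 6] [2, 2, 3, 5], .cyc [6, 8], .ref 2997 [0, 1, 2, 6, 4] [2, 3, 1, 1, 3], .ref 2972 [0, 1, 2, 3, 6, 4] [2, 1, 1, 1, 1, 3], .ref 2950 [0, 1, 2, 6] [2, 4, 1, 5], .ref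 2998 [0, 1, 2, 6, 5] [1, 4, 1, 3, 1], .ref 2952 [0, 1, 2, 6] [2, 4, 1, 5], .ref 2973 [0, 1, 2, 3, 6] [2, 2, 1, 1, 5], .ref 2998 [0, 1, 2, 6, 5] [1, 4, 1, 1, 1], .ref 2998 [0, 1, 2, 6, 5] [1, 4, 3, 1, 1], .ref 2952 [0, 1, 2, 6] [2, 4, 3, 3], .ref 2973 [0, 1, 2, 3, 6] [2, 2, 1, 3, 3], .ref 2999 [0, 2, 6, 5] [1, 4, 3, 1], .ref 3000 [0, 1, 2, 6, 4, 5] [1, 3, 1, 1, 1, 1], .ref 2952 [0, 1, 2, 6] [2, 4, 5, 1], .ref 2973 [0, 1, 2, 3, 6] [2, 2, 1, 5, 1]]),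
([m 0 1, g, p 3 0, g, m 1 2, g, s 4 3, s 2 0, g, p 0 4, g], .leaf [1, 4, 2, 3, 6, 2, 3]),
([m 0 1, g, m 1 2, g, p 3 0, g, s 4 3, s 2 0, g, p 0 4, g], .leaf [3, 9, 2, 6, 6, 4, 1]),
([m 0 1, g, m 1 2, g, s 4 3, s 2 0, g, m 3 0, g, p 0 4, g], .leaf [3, 9, 4, 6, 6, 4, 1]),
([m 0 1, g, m 1 2, g, s 4 3, s 2 0, g, p 0 4, g, m 3 0, g], .leaf [3, 9, 4, 6, 6, 4, 1]),
([m 0 1, g, s 5 0, m 1 2, s 4 0, g, s 3 0, s 2 0, g, p 0 3, g, s 0 4, g, s 0 5, g], .inner (.hi 6) [.ref 2941 [0, 1, 2, 6] [2, 2, 7], .ref 2996 [0, 1, 2, 6, 5] [1, 1, 2, 5, 1], .ref 3002 [0, 1, 2, 6, 3] [1, 2, 2, 1, 5], .ref 2944 [0, 1, 2, 6] [1, 2, 2, 7], .ref 2997 [0, 1, 2, 6, 4] [2, 1, 1, 3, 3], .ref 3003 [0, 1, 2, 6, 3] [2, 2, 1, 1, 5], .ref 2950 [0, 1, 2, 6]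 [2, 2, 1, 7], .ref 2998 [0, 1, 2, 6, 5] [1, 2, 1, 5, 1], .ref 2952 [0, 1, 2, 6] [2, 2, 1, 7], .ref 3004 [0, 1, 2, 6, 3] [2, 2, 1, 1, 5], .cyc [6, 9], .ref 2998 [0, 1, 2, 6, 5] [1, 2, 3, 3, 1], .ref 2952 [0, 1, 2, 6] [2, 2, 3, 5], .ref 3005 [0, 1, 2, 6, 3] [2, 2, 1, 1, 5], .ref 2998 [0, 1, 2, 6, 5] [1, 2, 3, 1, 1], .ref 2998 [0, 1, 2, 6, 5] [1, 2, 5, 1, 1], .ref 2952 [0, 1, 2, 6] [2, 2, 5, 3], .ref 3005 [0, 1, 2, 6, 3] [2, 2, 1, 3, 3], .ref 2999 [0, 2, 6, 5] [1, 2, 5, 1], .ref 3000 [0, 1, 2, 6, 4, 5] [1, 1, 3, 1, 1, 1], .ref 2952 [0, 1, 2, 6] [2, 2, 7, 1], .ref 3005 [0, 1, 2, 6, 3] [2, 2, 1, 5, 1]]),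
([m 0 1, g, s 6 0, m 1 2, s 4 3, g, s 3 0, g, s 5 0, s 2 0, g, s 0 4, g, p 0 5, g, s 0 6, g], .leaf [4, 10, 14, 5, 11, 7, 3, 8, 3])]

def d11_3 : List (List Item × Pf) := [
([m 0 1, g, s 6 0, m 1 2, s 4 3, g, s 5 0, s 2 0, g, s 3 0, g, s 0 4, g, p 0 5, g, s 0 6, g], .leaf [4, 10, 14, 5, 9, 5, 3, 6, 7]),
([m 0 1, g, m 1 2, s 4 3, g, s 2 0, g, m 3 0, g, s 0 4, g], .leaf [1, 7, 3, 7, 3, 0, 3]),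
([m 0 1, g, s 6 0, m 1 2, s 4 3, g, s 5 0, s 2 0, g, s 0 4, g, s 3 0, g, p 0 5, g, s 0 6, g], .leaf [4, 8, 14, 7, 11, 5, 3, 8, 1]),
([m 0 1, g, m 1 2, s 4 3, g, s 2 0, g, s 0 4, g, m 3 0, g], .leaf [1, 7, 3, 7, 3, 0, 3]),
([m 0 1, g, m 1 2, s 4 3, g, s 5 0, s 2 0, g, s 0 4, g, p 0 5, g, s 3 0, g], .leaf [1, 3, 10, 3, 8, 0, 2, 3]),
([m 0 1, g, s 4 0, m 1 2, s 0 3, g, s 2 0, g, s 3 4, g], .leaf [2, 7, 7, 3, 0, 3]),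
([m 0 1, g, s 5 0, m 1 2, s 3 0, g, s 4 0, s 2 0, g, s 0 3, g, p 0 4, g, s 0 5, g], .inner (.hi 4) [.ref 2594 [0, 1, 6] [2, 10], .ref 2588 [0, 1, 6] [1, 2, 10], .ref 2779 [0, 1, 2, 6] [1, 2, 2, 7], .ref 2596 [0, 1, 6] [1, 2, 10], .ref 3007 [0, 1, 2, 6, 3, 4, 5] [1, 1, 1, 1, 1, 1, 1], .ref 2795 [0, 1, 2, 6] [2, 1, 2, 7], .ref 2962 [0, 1, 2, 6, 3] [2, 1, 2, 1, 5], .ref 3008 [0, 1, 2, 6, 3, 4, 5] [1, 1, 1, 1, 1, 1, 1], .ref 2813 [0, 1, 2, 6] [2, 2, 1, 7], .ref 3009 [0, 1, 2, 6, 3] [2, 2, 1, 1, 5], .cyc [4, 9], .ref 3010 [0, 1, 2, 6, 3, 4, 5] [1, 1, 1, 1, 1, 1, 1], .ref 2813 [0, 1, 2, 6] [2, 2, 3, 5], .ref 3011 [0, 1, 2, 6, 3] [2, 2, 1, 1, 5], .ref 2813 [0, 1, 2, 6] [2, 2, 3, 3], .ref 3012 [0, 1, 2, 6, 3, 4] [2, 1, 1,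 1, 1, 3], .ref 2813 [0, 1, 2, 6] [2, 2, 5, 3], .ref 3011 [0, 1, 2, 6, 3] [2, 2, 1, 3, 3], .ref 3013 [0, 1, 2, 6, 5] [1, 2, 5, 1], .ref 3012 [0, 1, 2, 6, 3, 4] [2, 1, 1, 1, 3, 1], .ref 2813 [0, 1, 2, 6] [2, 2, 7, 1], .ref 3011 [0, 1, 2, 6, 3] [2, 2, 1, 5, 1]]),
([m 0 1, g, s 4 0, m 1 2, s 3 0, g, s 5 0, s 2 0, g, s 0 3, g, s 0 4, g, s 0 5, g], .leaf [11, 8, 3, 10, 5, 6, 1]),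
([m 0 1, g, s 4 0, m 1 2, s 3 0, g, s 5 0, s 2 0, g, s 0 3, g, s 0 4, g, p 0 5, g], .inner (.hi 6) [.ref 2941 [0, 1, 2, 6] [2, 2, 7], .ref 2996 [0, 1, 2, 6, 4] [1, 1, 2, 3, 3], .ref 3002 [0, 1, 2, 6, 5] [1, 2, 2, 5, 1], .ref 2944 [0, 1, 2, 6] [1, 2, 2, 7], .ref 2997 [0, 1, 2, 6, 3] [2, 1, 1, 1, 5], .ref 3003 [0, 1, 2, 6, 5] [2, 2, 1, 5, 1], .ref 2950 [0, 1, 2, 6] [2, 2, 1, 7], .ref 2998 [0, 1, 2, 6, 4] [1, 2, 1, 3, 3], .ref 2952 [0, 1, 2, 6] [2, 2, 1, 7], .ref 3004 [0, 1, 2, 6, 5] [2, 2, 1, 5, 1], .ref 2998 [0, 1, 2, 6, 4] [1, 2, 1, 1, 3], .ref 2998 [0, 1, 2, 6, 4] [1, 2, 3, 1, 3], .ref 2952 [0, 1, 2, 6] [2, 2, 3, 5], .ref 3004 [0, 1, 2, 6, 5] [2, 2, 3, 3, 1], .ref 2999 [0, 2, 6, 4] [1, 2, 3, 3], .ref 3000 [0, 1, 2,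 6, 3, 4] [1, 1, 1, 1, 1, 3], .ref 2952 [0, 1, 2, 6] [2, 2, 5, 3], .ref 3004 [0, 1, 2, 6, 5] [2, 2, 5, 1, 1], .cyc [6, 13], .ref 3000 [0, 1, 2, 6, 3, 4] [1, 1, 1, 1, 3, 1], .ref 2952 [0, 1, 2, 6] [2, 2, 7, 1], .ref 3005 [0, 1, 2, 6, 5] [2, 2, 5, 1, 1]]),
([m 0 1, g, s 4 0, m 1 2, s 3 0, g, s 0 0, s 2 0, g, s 0 3, g, s 0 4, g], .inner (.lo 6) [.ref 2986 [0, 1, 5, 2, 4] [1, 1, 2, 3, 1], .ref 2940 [0, 1, 5, 2] [1, 2, 2, 5], .ref 2993 [0, 1, 5, 2, 3, 4] [1, 1, 1, 1, 1, 1], .ref 2957 [0, 1, 5, 2, 3] [1, 1, 0, 1, 3], .ref 2994 [0, 1, 2, 5, 3] [2, 1, 1, 3], .ref 2995 [0, 1, 2, 5, 3] [2, 1, 1, 1, 3], .ref 2959 [0, 1, 2, 5] [2, 2, 1, 5], .ref 3001 [0, 1, 2, 5, 3, 4] [1, 1, 1, 1, 1, 1], .cyc [6], .contra, .ref 2932 [0, 1, 2,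 5, 4] [1, 2, 1, 3, 1], .ref 3006 [0, 1, 2, 5, 3, 4] [1, 1, 1, 1, 1, 1], .ref 2979 [0, 1, 2, 5] [2, 2, 1, 5], .ref 2932 [0, 1, 2, 5, 4] [1, 2, 3, 1, 1], .ref 3014 [0, 1, 2, 3, 5, 4] [1, 1, 1, 1, 1, 1], .ref 2979 [0, 1, 2, 5] [2, 2, 3, 3], .ref 3015 [0, 1, 2, 3, 4, 5] [1, 1, 1, 1, 1, 1], .ref 3016 [0, 1, 2, 3, 4, 5] [1, 1, 1, 1, 1, 1], .ref 2979 [0, 1, 2, 5] [2, 2, 5, 1]]),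
([m 0 1, g, s 2 0, g, s 4 2, m 1 3, g, s 3 0, g, m 0 4, g], .leaf [3, 5, 1, 6, 3, 4, 1]),
([m 0 1, g, s 0 2, m 1 3, s 4 0, g, s 3 0, g, s 2 4, g], .leaf [2, 7, 7, 3, 0, 3]),
([m 0 1, g, s 4 2, m 1 3, g, s 3 0, g, s 2 0, g, m 0 4, g], .leaf [1, 3, 1, 6, 1, 4, 1]),
([m 0 1, g, s 4 2, m 1 3, g, s 3 0, g, m 0 4, g, s 2 0, g], .leaf [1, 3, 1, 6, 1, 4, 1]),
([m 0 1, g, s 4 0, m 1 2, s 3 0, g, s 2 0, g, s 0 3, g, m 0 4, g], .inner (.hi 2) [.ref 2746 [0, 1, 5, 2] [1, 2, 5], .ref 3018 [0, 1, 5, 2, 4] [1, 1, 2, 3, 1], .ref 2934 [0, 1, 5, 2, 4] [1, 1, 2, 3, 1], .ref 2749 [0, 1, 5, 2] [1, 1, 2, 5], .ref 2957 [0, 1, 5, 2, 3] [1, 1, 1, 1, 3], .ref 2861 [0, 1, 5, 2] [1, 2, 1, 5], .ref 2862 [0, 5, 2] [1, 2, 1, 5], .ref 2925 [0, 1,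 5, 2, 3] [1, 1, 1, 1, 3], .ref 2926 [0, 1, 5, 2, 3] [1, 1, 1, 1, 3], .ref 2754 [0, 5, 2] [1, 2, 1, 5], .ref 3019 [0, 1, 5, 2, 3] [1, 1, 1, 3], .ref 3020 [0, 1, 5, 2, 4] [1, 2, 3, 1, 1], .ref 2935 [0, 1, 5, 2, 4] [1, 2, 3, 1, 1], .ref 2754 [0, 5, 2] [1, 2, 3, 3], .cyc [2, 10], .ref 3021 [0, 1, 5, 2, 4] [1, 2, 3, 1, 1], .ref 2936 [0, 1, 5, 2, 4] [1, 2, 3, 1, 1], .ref 2754 [0, 5, 2] [1, 2, 5, 1]]),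
([m 0 1, g, s 0 0, m 1 2, s 3 0, g, s 0 0, s 2 0, g, s 0 3, g], .inner (.lo 2) [.ref 2982 [0, 1, 4, 2, 3] [1, 1, 1, 1, 1], .ref 2745 [0, 1, 4, 2] [1, 1, 3, 3], .ref 2984 [0, 1, 4, 2, 3] [1, 1, 2, 1, 1], .cyc [2], .ref 2588 [0, 1, 4] [1, 0, 6], .ref 2985 [0, 1, 2, 4, 3] [1, 1, 2, 1, 1], .ref 2839 [0, 2, 4] [1, 2, 2, 3], .ref 2871 [0, 1, 2, 4] [1, 2, 2, 3], .ref 2985 [0, 1, 2, 4, 3] [1, 1, 0, 1, 1], .ref 2873 [0, 2, 4] [1, 3, 3], .ref 2930 [0, 1, 2, 4, 3] [1, 2, 1, 1, 1], .ref 2758 [0, 2, 4] [1, 3, 1, 3], .ref 2931 [0, 1, 2, 4, 3] [1, 2, 1, 1, 1], .ref 3017 [0, 1, 2, 3, 4] [1, 1, 1, 1, 1], .ref 2758 [0, 2, 4] [1, 3, 3, 1], .ref 3022 [0, 1, 2, 3, 4] [1, 2, 1, 1, 1]]),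
([m 0 1, g, s 3 0, g, m 1 2, g, p 0 3, s 2 0, g], .leaf [3, 4, 0, 4, 1]),
([m 0 1, g, p 3 0, g, m 1 2, s 4 0, g, p 0 3, s 2 0, g, s 0 4, g], .leaf [1, 5, 1, 6, 2, 4, 5]),
([m 0 1, g, m 1 2, g, s 3 0, g, p 0 3, s 2 0, g], .leaf [1, 2, 0, 4, 1]),
([m 0 1, g, m 1 2, s 4 0, g, p 3 0, g, p 0 3, s 2 0, g, s 0 4, g], .leaf [1, 5, 9, 6, 0, 2, 5]),
([m 0 1, g, m 1 2, g, p 0 3, s 2 0, g, s 3 0, g], .leaf [1, 2, 0, 2, 3]),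
([m 0 1, g, m 1 2, s 3 0, g, p 0 0, s 2 0, g, s 0 3, g], .inner (.hi 5) [.ref 2503 [0, 4] [4, 4], .ref 3024 [0, 1, 2, 4] [1, 1, 2, 3], .ref 3025 [0, 1, 2, 4, 3] [1, 1, 1, 1, 1], .ref 2638 [0, 4] [1, 4, 4], .ref 3026 [0, 1, 2, 4] [1, 2, 1, 3], .ref 3027 [0, 1, 2, 4, 3] [1, 1, 1, 1, 1], .ref 2638 [0, 4] [4, 1, 4], .cyc [5], .ref 3028 [0, 1, 2, 4] [1, 2, 1, 3], .ref 2612 [0, 4] [4, 2, 3], .ref 2649 [0, 4] [4, 2, 3], .ref 3028 [0, 1, 2, 4] [1, 2, 1, 1], .ref 3028 [0, 1, 2, 4] [1, 2, 3, 1], .ref 2612 [0, 4] [4, 4, 1], .ref 2649 [0, 4] [4, 4, 1]]),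
([m 0 1, g, s 0 2, g, m 1 3, g, m 2 0, s 3 0, g], .leaf [3, 4, 0, 4, 1]),
([m 0 1, g, m 0 2, g, m 1 3, s 4 0, g, m 2 0, s 3 0, g, s 0 4, g], .leaf [1, 5, 1, 6, 2, 4, 5]),
([m 0 1, g, m 1 2, g, s 0 3, g, m 3 0, s 2 0, g], .leaf [1, 2, 0, 4, 1]),
([m 0 1, g, m 1 2, s 4 0, g, m 0 3, g, m 3 0, s 2 0, g, s 0 4, g], .leaf [1, 5, 9, 6, 0, 2, 5]),
([m 0 1, g, m 1 2, g, m 3 0, s 2 0, g, s 0 3, g], .leaf [1, 2, 0, 2, 3]),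
([m 0 1, g, m 1 2, s 3 0, g, m 0 0, s 2 0, g, s 0 3, g], .inner (.lo 5) [.ref 3030 [0, 1, 4, 2] [1, 1, 2, 3], .ref 2649 [0, 4] [1, 4, 4], .ref 3031 [0, 1, 4, 2, 3] [1, 1, 1, 1, 1], .ref 2962 [0, 1, 2, 4, 3] [1, 1, 0, 1, 1], .ref 3032 [0, 1, 2, 4] [1, 2, 1, 3], .ref 2649 [0, 4] [4, 1, 4], .ref 3033 [0, 1, 2, 4, 3] [1, 1, 1, 1, 1], .cyc [5], .contra, .ref 3034 [0, 1, 2, 4] [1, 2, 1, 3], .ref 2638 [0, 4] [4, 2, 3], .ref 2623 [0, 4] [4, 2, 3], .ref 3034 [0, 1, 2, 4] [1, 2, 3, 1], .ref 2638 [0, 4] [4, 4, 1], .ref 2623 [0, 4] [4, 4, 1]]),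
([m 0 1, g, s 0 0, m 1 2, s 3 0, g, s 2 0, g, s 0 3, g], .inner (.bot 5) [.ref 2938 [0, 1, 2, 3] [1, 1, 1], .ref 3023 [0, 1, 2, 3] [1, 1, 1, 1], .ref 3029 [0, 1, 2, 3] [2, 1, 1, 1], .ref 3035 [0, 1, 2, 3] [2, 1, 1, 1]]),
([m 0 1, g, m 1 2, s 4 3, g, s 3 0, g, s 2 0, g, p 0 4, g], .leaf [1, 5, 1, 7, 5, 0, 1]),
([m 0 1, g, m 1 2, s 4 3, g, m 3 0, g, s 2 0, g, p 0 4, g], .leaf [1, 5, 1, 7, 5, 0, 1]),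
([m 0 1, g, m 1 2, s 4 3, g, s 2 0, g, s 3 0, g, p 0 4, g], .leaf [1, 7, 3, 7, 3, 0, 3]),
([m 0 1, g, m 1 2, s 4 3, g, s 2 0, g, m 3 0, g, p 0 4, g], .leaf [1, 7, 3, 7, 3, 0, 3]),
([m 0 1, g, m 1 2, s 4 3, g, s 2 0, g, p 0 4, g, s 3 0, g], .leaf [1, 7, 3, 7, 3, 0, 3]),
([m 0 1, g, m 1 2, s 4 3, g, s 2 0, g, p 0 4, g, m 3 0, g], .leaf [1, 7, 3, 7, 3, 0, 3]),
([m 0 1, g, m 1 2, s 3 0, g, s 2 0, g, p 0 3, g], .inner (.hi 3) [.ref 2594 [0, 1, 4] [1, 5], .ref 2588 [0, 1, 4] [1, 1, 5], .ref 2779 [0, 1, 2, 4] [1, 1, 1, 3], .ref 2596 [0, 1, 4] [1, 1, 5], .ref 3037 [0, 1, 2, 4, 3] [1, 1, 1, 1, 1], .ref 2795 [0, 1, 2, 4] [1, 1, 1, 3], .ref 3038 [0, 1, 2, 4, 3] [1, 1, 1, 1, 1], .ref 3039 [0, 1, 2, 4, 3] [1, 1, 1, 1, 1], .ref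 2813 [0, 1, 2, 4] [1, 1, 1, 3], .ref 3040 [0, 1, 2, 4, 3] [1, 1, 1, 1, 1], .cyc [3, 7], .ref 3041 [0, 1, 2, 4, 3] [1, 1, 1, 1, 1], .ref 2813 [0, 1, 2, 4] [1, 1, 3, 1], .ref 3042 [0, 1, 2, 4, 3] [1, 1, 1, 1, 1]]),
([m 0 1, g, m 1 2, s 3 0, g, s 2 0, g, m 0 3, g], .leaf [4, 2, 3, 2, 3]),
([m 0 1, g, s 0 0, m 1 2, s 0 0, g, s 2 0, g], .inner (.lo 4) [.ref 2589 [0, 1, 3] [1, 2, 3], .ref 2590 [0, 1, 3] [1, 2, 3], .ref 2761 [0, 1, 3, 2] [1, 2, 1, 1], .ref 2589 [0, 1, 3] [1, 0, 3], .cyc [4], .ref 2907 [0, 1, 2, 3] [1, 1, 1, 1], .ref 2914 [0, 1, 2, 3] [2, 1, 1, 1], .ref 2915 [0, 1, 2, 3] [2, 1, 1, 1], .ref 2923 [0, 1, 2, 3] [2, 1, 1], .ref 3036 [0, 1, 2, 3] [1, 1, 1, 1], .ref 3043 [0, 1, 2, 3] [2, 1, 1, 1], .ref 3044 [0, 1,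 2, 3] [2, 1, 1, 1]]),
([m 0 1, g, m 1 2, p 3 0, g, s 0 3, g, s 2 0, g], .leaf [6, 4, 5, 4, 1]),
([m 0 1, g, s 0 2, g, s 2 0, m 1 3, p 4 0, g, p 0 4, g, s 3 0, g], .leaf [4, 1, 5, 6, 5, 0, 5]),
([m 0 1, g, m 1 2, p 3 0, g, m 0 3, g, s 2 0, g], .leaf [6, 4, 5, 4, 1]),
([m 0 1, g, s 0 2, g, s 2 0, m 1 3, g, p 4 0, g, s 3 4, g], .leaf [4, 1, 4, 0, 5, 5, 3]),
([m 0 1, g, m 1 2, p 3 0, g, s 2 0, g, s 0 3, g], .leaf [4, 2, 3, 2, 3]),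
([m 0 1, g, s 0 2, g, s 2 0, m 1 3, g, p 4 0, g, s 3 0, g, p 0 4, g], .leaf [4, 1, 4, 0, 5, 7, 5]),
([m 0 1, g, m 1 2, p 3 0, g, s 2 0, g, m 0 3, g], .leaf [4, 2, 3, 2, 3]),
([m 0 1, g, s 0 2, g, s 2 0, m 1 3, p 0 0, g, s 3 0, g], .inner (.lo 6) [.ref 2611 [0, 1, 4] [1, 4, 3], .ref 2612 [0, 4] [1, 5, 3], .ref 2613 [0, 1, 4] [1, 4, 0, 3], .ref 2611 [0, 1, 4] [3, 2, 3], .ref 2612 [0, 4] [3, 3, 3], .ref 2613 [0, 1, 4] [3, 2, 0, 3], .ref 2861 [0, 1, 4, 3] [3, 0, 1, 1], .cyc [6], .ref 3046 [0, 1, 3, 4] [4, 1, 1, 1], .ref 3047 [0, 1, 2, 3, 4] [1, 1, 1, 1, 1], .ref 3048 [0, 1, 3, 4] [4, 1, 1, 1], .ref 3049 [0, 1, 2, 3, 4] [1, 1, 0, 1, 1], .ref 3050 [0, 1, 3, 4] [4, 1, 1, 1], .ref 3051 [0, 1, 2, 3, 4] [1, 1, 0, 1, 1, 1], .ref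 3052 [0, 1, 3, 4] [4, 1, 1, 1]]),
([m 0 1, g, m 0 2, g, s 2 3, m 1 4, g, s 3 0, g, s 4 0, g], .leaf [1, 5, 3, 1, 4, 2, 3]),
([m 0 1, g, m 0 2, g, s 2 3, m 1 4, g, s 4 0, g, p 3 0, g], .leaf [3, 5, 1, 2, 4, 2, 3]),
([m 0 1, g, m 0 2, g, s 2 0, m 1 3, g, s 3 0, g], .inner (.hi 4) [.ref 2746 [0, 1, 4, 3] [3, 1, 1], .ref 2747 [0, 1, 2, 4, 3] [1, 1, 1, 1, 1], .ref 2748 [0, 1, 2, 4, 3] [1, 1, 1, 1, 1], .ref 2749 [0, 1, 4, 3] [1, 3, 1, 1], .cyc [2, 4], .ref 2750 [0, 1, 2, 4, 3] [1, 1, 1, 1, 1], .ref 2751 [0, 1, 2, 4, 3] [1, 1, 1, 1, 1], .ref 2749 [0, 1, 4, 3] [3, 1, 1, 1], .ref 3054 [0, 1, 2, 4, 3] [1, 1, 1, 1, 1], .ref 2861 [0, 1, 4, 3] [3, 1, 1, 1], .ref 2862 [0, 4, 3] [3, 1, 1, 1], .ref 2983 [0, 1, 2, 4, 3] [1, 1, 1, 1,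 1], .ref 3055 [0, 1, 2, 4, 3] [1, 1, 1, 1, 1], .ref 2754 [0, 4, 3] [3, 1, 1, 1]]),
([m 0 1, g, s 0 2, g, m 1 0, p 3 0, g, p 2 3, g], .leaf [2, 6, 6, 4, 1]),
([m 0 1, g, s 4 0, g, m 1 0, p 3 0, g, s 0 2, g, p 2 3, g, s 0 4, g], .leaf [8, 6, 9, 4, 2, 4, 1]),
([m 0 1, g, s 4 0, m 1 2, g, m 0 3, g, p 3 0, g, s 0 4, g, s 2 0, g], .leaf [9, 6, 9, 7, 1, 5, 5]),
([m 0 1, g, s 5 0, m 1 2, p 3 0, g, p 4 3, g, s 0 4, g, s 0 5, g, s 2 0, g], .leaf [10, 7, 10, 7, 1, 5, 6, 1]),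
([m 0 1, g, m 1 2, p 3 0, g, p 4 3, g, p 0 4, g, s 2 0, g], .leaf [1, 5, 6, 5, 5, 3, 0, 3]),
([m 0 1, g, s 4 0, m 1 2, g, p 3 0, g, m 0 3, g, s 0 4, g, s 2 0, g], .leaf [9, 6, 9, 7, 1, 5, 5]),
([m 0 1, g, s 3 0, g, m 1 0, p 2 0, g, p 4 2, g, s 0 3, g, s 0 4, g], .leaf [2, 8, 10, 8, 8, 6, 1]),
([m 0 1, g, s 3 0, g, m 1 0, p 2 0, g, p 4 2, g, s 0 3, g, p 0 4, g], .leaf [2, 8, 10, 8, 8, 6, 1]),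
([m 0 1, g, s 3 0, m 1 2, g, p 4 0, g, s 0 3, g, m 0 4, g, s 2 0, g], .leaf [2, 6, 1, 6, 4, 0, 5]),
([m 0 1, g, s 3 0, m 1 2, g, p 4 0, g, s 0 3, g, s 2 0, g, m 0 4, g], .leaf [2, 6, 1, 8, 6, 0, 3]),
([m 0 1, g, s 4 0, m 1 2, p 3 0, g, p 0 3, g, s 0 4, g, s 2 0, g], .inner (.lo 6) [.ref 3057 [0, 1, 5, 3] [1, 2, 1, 5], .ref 2612 [0, 5] [1, 5, 5], .ref 2613 [0, 1, 5] [1, 2, 2, 5], .ref 2861 [0, 1, 5, 2] [1, 2, 3, 1], .cyc [4, 6], .ref 3058 [0, 1, 5, 3, 4] [1, 0, 1, 1, 1, 3], .ref 2612 [0, 5] [5, 1, 5], .ref 3059 [0, 1, 2, 5, 4] [1, 2, 1, 1, 1, 1], .ref 3060 [0, 1, 2, 3, 5, 4] [1, 1, 1, 1, 1, 1], .ref 3061 [0, 1, 2, 3, 5] [2, 1, 1, 3, 1], .ref 3062 [0, 1, 2, 5, 4] [1, 2, 1, 1, 1, 1], .ref 3063 [0, 1, 3, 4, 5] [1, 0, 1,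 1, 1, 3], .ref 3064 [0, 1, 3, 4, 5] [1, 0, 1, 1, 1, 3], .ref 3065 [0, 1, 2, 4, 5] [1, 2, 1, 1, 1, 1], .ref 3063 [0, 1, 3, 4, 5] [1, 0, 1, 1, 1, 1], .ref 3063 [0, 1, 3, 4, 5] [1, 0, 1, 1, 3, 1], .ref 3064 [0, 1, 3, 4, 5] [1, 0, 1, 1, 3, 1], .ref 3066 [0, 1, 2, 4, 5] [1, 2, 1, 1, 1, 1]]),
([m 0 1, g, s 3 0, m 1 2, p 4 0, g, s 0 3, g, s 2 4, g], .leaf [2, 5, 7, 5, 0, 3]),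
([m 0 1, g, s 3 0, m 1 2, p 0 0, g, s 0 3, g, s 2 0, g], .inner (.lo 4) [.ref 2611 [0, 1, 4] [1, 2, 5], .ref 2612 [0, 4] [1, 3, 5], .ref 2613 [0, 1, 4] [1, 2, 0, 5], .ref 2861 [0, 1, 4, 2] [1, 0, 3, 1], .cyc [4], .ref 3046 [0, 1, 2, 4] [2, 1, 3, 1], .ref 3067 [0, 1, 2, 4, 3] [1, 1, 1, 1, 1], .ref 3062 [0, 1, 2, 4, 3] [1, 0, 1, 1, 1, 1], .ref 3046 [0, 1, 2, 4] [2, 3, 1, 1], .ref 2618 [0, 1, 3, 4] [1, 0, 1, 1, 3], .ref 3065 [0, 1, 2, 3, 4] [1, 0, 1, 1, 1, 1], .ref 3068 [0, 1, 2, 3, 4] [1, 1, 1, 1], .ref 3050 [0, 1, 2, 4] [2, 3, 1, 1], .ref 2618 [0, 1, 3, 4] [1, 0, 1, 3, 1], .ref 3066 [0, 1, 2, 3, 4] [1, 0, 1, 1, 1, 1]]),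
([m 0 1, g, m 1 2, p 4 0, g, m 0 3, g, p 3 4, g, s 2 0, g], .leaf [6, 4, 7, 4, 2, 4, 1]),
([m 0 1, g, s 2 0, g, s 0 2, m 1 3, p 4 0, g, p 0 4, g, s 3 0, g], .leaf [4, 1, 5, 6, 5, 0, 5])]

def D11 : List (List (List Item × Pf)) := [d11_0, d11_1, d11_2, d11_3]

end Pool.Agent.H63.PU.C138
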