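import Pool.Agent.H63.PU.Short

/-! Certificate data, machine generated. -/

namespace Pool.Agent.H63.PU.C138

open Pool.Agent.H63.PU Pool.Agent.H63.PU.Short

set_option maxRecDepth 20000

def d12_0 : List (List Item × Pf) := [
([m 0 1, g, p 2 0, g, s 4 2, m 1 3, g, s 3 0, g, s 0 4, g], .leaf [1, 5, 3, 1, 6, 4, 1]),
([m 0 1, g, s 0 2, g, m 1 0, p 3 0, g, s 2 0, g, p 0 3, g], .leaf [2, 6, 8, 6, 1]),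
([m 0 1, g, s 0 2, g, m 1 0, p 3 0, g, p 4 3, g, s 2 0, g, s 0 4, g], .leaf [2, 8, 10, 8, 8, 6, 1]),
([m 0 1, g, s 0 2, g, m 1 0, p 3 0, g, p 4 3, g, s 2 4, g], .leaf [2, 8, 8, 6, 6, 4, 1]),
([m 0 1, g, s 0 2, m 1 3, p 4 0, g, p 5 4, g, s 0 5, g, s 2 0, g, s 3 0, g], .leaf [10, 7, 10, 7, 1, 5, 6, 1]),
([m 0 1, g, s 6 2, m 1 3, p 4 0, g, p 5 4, g, s 0 5, g, s 3 0, g, s 2 0, g, s 0 6, g], .leaf [9, 7, 12, 8, 1, 6, 8, 5, 4, 1]),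
([m 0 1, g, s 4 2, m 1 3, g, s 3 0, g, p 2 0, g, s 0 4, g], .leaf [1, 3, 1, 6, 1, 4, 1]),
([m 0 1, g, s 6 2, m 1 3, p 4 0, g, p 5 4, g, s 0 5, g, s 3 0, g, s 0 6, g, s 2 0, g], .leaf [9, 7, 12, 8, 1, 6, 8, 5, 4, 1]),
([m 0 1, g, s 4 2, m 1 3, g, s 3 0, g, s 0 4, g, p 2 0, g], .leaf [1, 3, 1, 6, 1, 4, 1]),
([m 0 1, g, s 5 0, m 1 2, p 3 0, g, p 4 3, g, s 0 4, g, s 2 0, g, s 0 5, g], .inner (.hi 2) [.ref 2746 [0, 1, 6, 2] [1, 6, 3], .ref 3071 [0, 1, 6, 2, 3] [1, 1, 1, 3, 3], .ref 3072 [0, 1, 6, 2, 5] [1, 1, 6, 1, 1], .ref 2749 [0, 1, 6, 2] [1, 1, 6, 3], .ref 3073 [0, 1, 6, 3] [1, 0, 1, 1, 7], .ref 2861 [0, 1, 6, 2] [1, 2, 5, 3], .ref 2862 [0, 6, 2] [1, 2, 5, 3], .ref 3074 [0, 1, 6, 3, 4] [1, 0, 1, 1, 1, 5], .ref 2861 [0,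 1, 6, 2] [1, 4, 3, 3], .ref 2862 [0, 6, 2] [1, 4, 3, 3], .ref 3075 [0, 1, 6, 3, 4] [1, 0, 1, 1, 5], .ref 3076 [0, 1, 6, 2, 3, 4] [1, 1, 1, 1, 1, 3], .ref 2861 [0, 1, 6, 2] [1, 6, 1, 3], .ref 2862 [0, 6, 2] [1, 6, 1, 3], .ref 3077 [0, 1, 6, 2, 3, 4, 5] [1, 1, 1, 1, 1, 1, 1], .ref 3078 [0, 1, 6, 2, 5] [1, 6, 1, 1, 1], .ref 2754 [0, 6, 2] [1, 6, 1, 3], .cyc [2, 12], .ref 3079 [0, 1, 6, 2, 3, 4, 5] [1, 1, 1, 1, 1, 1, 1], .ref 3080 [0, 1, 6, 2, 5] [1, 6, 1, 1, 1], .ref 2754 [0, 6, 2] [1, 6, 3, 1]]),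
([m 0 1, g, m 1 2, g, p 3 0, g, p 4 3, g, m 0 4, g, s 2 0, g], .leaf [5, 6, 4, 8, 6, 6, 4, 1]),
([m 0 0, g, s 4 0, m 0 1, g, p 2 0, g, p 3 2, g, s 1 3, g, s 0 4, g], .leaf [11, 8, 5, 5, 3, 3, 1]),
([m 0 1, g, s 5 0, m 1 2, p 3 0, g, p 4 3, g, s 2 0, g, s 0 4, g, s 0 5, g], .leaf [7, 1, 8, 10, 5, 7, 6, 1]),
([m 0 0, g, s 4 0, m 0 1, g, p 2 0, g, p 3 2, g, s 1 0, g, p 0 3, g, s 0 4, g], .leaf [13, 10, 5, 7, 5, 5, 3]),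
([m 0 1, g, s 4 0, m 1 2, g, p 3 0, g, s 2 0, g, m 0 3, g, s 0 4, g], .leaf [6, 1, 7, 9, 4, 6, 5]),
([m 0 1, g, s 3 0, m 1 2, g, p 4 0, g, s 2 0, g, s 0 3, g, m 0 4, g], .leaf [2, 8, 3, 8, 4, 0, 3]),
([m 0 1, g, s 4 0, m 1 2, p 3 0, g, p 0 3, g, s 2 0, g, s 0 4, g], .inner (.lo 6) [.ref 3057 [0, 1, 5, 3] [1, 2, 1, 5], .ref 2612 [0, 5] [1, 5, 5], .ref 2613 [0, 1, 5] [1, 2, 2, 5], .ref 2861 [0, 1, 5, 2] [1, 2, 1, 3], .cyc [4, 6], .ref 3058 [0, 1, 5, 3, 4] [1, 0, 1, 1, 3, 1], .ref 2612 [0, 5] [5, 1, 5], .ref 3070 [0, 1, 2, 5, 3] [2, 1, 1, 1, 3], .ref 3081 [0, 1, 2, 3, 5, 4] [1, 1, 1, 1, 1, 1], .ref 3061 [0, 1, 2, 3, 5] [2, 1, 1, 1, 3], .ref 3082 [0, 1, 2, 3, 5] [2, 0, 1, 1, 1, 3], .ref 3083 [0, 2, 3, 5, 4] [1, 0, 1, 1, 1,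 1], .ref 3084 [0, 1, 2, 3, 5, 4] [1, 1, 1, 1, 1, 1], .ref 3085 [0, 2, 3, 5, 4] [1, 0, 1, 1, 1, 1, 1], .ref 3086 [0, 1, 2, 5, 4] [1, 2, 1, 1, 1, 1], .ref 3063 [0, 1, 3, 4, 5] [1, 0, 1, 3, 1, 1], .ref 3064 [0, 1, 3, 4, 5] [1, 0, 1, 3, 1, 1], .ref 3087 [0, 1, 2, 4, 5] [1, 2, 1, 1, 1, 1]]),
([m 0 1, g, s 4 0, g, m 1 2, p 3 0, g, s 2 3, g, s 0 4, g], .leaf [2, 8, 4, 2, 2, 0, 1]),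
([m 0 1, g, s 4 0, g, m 1 2, p 3 0, g, s 2 0, g, p 0 3, g, s 0 4, g], .leaf [2, 10, 6, 2, 4, 2, 3]),
([m 0 1, g, s 3 0, m 1 2, p 0 0, g, s 2 0, g, s 0 3, g], .inner (.lo 4) [.ref 2611 [0, 1, 4] [1, 2, 5], .ref 2612 [0, 4] [1, 3, 5], .ref 2613 [0, 1, 4] [1, 2, 0, 5], .ref 2861 [0, 1, 4, 2] [1, 0, 1, 3], .cyc [4], .ref 3046 [0, 1, 2, 4] [2, 1, 1, 3], .ref 3088 [0, 1, 2, 4, 3] [1, 1, 1, 1, 1], .ref 2616 [0, 1, 4, 3] [1, 0, 1, 3, 1], .ref 3089 [0, 1, 2, 4, 3] [1, 0, 1, 1, 1], .ref 3050 [0, 1, 2, 4] [2, 1, 1, 3], .ref 3090 [0, 1, 2, 4, 3] [1, 0, 1, 1, 1, 1], .ref 3086 [0, 1, 2, 4, 3] [1, 0, 1, 1, 1, 1], .ref 3050 [0, 1, 2, 4] [2, 1, 3, 1], .ref 2618 [0, 1, 3, 4] [1, 0, 3, 1, 1], .ref 3087 [0, 1, 2, 3, 4] [1, 0, 1, 1, 1, 1]]),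
([m 0 1, g, s 4 2, m 1 3, g, s 2 0, g, s 3 0, g, m 0 4, g], .leaf [1, 3, 1, 6, 3, 4, 1]),
([m 0 1, g, s 3 0, m 1 2, g, s 2 0, g, m 0 3, g], .inner (.hi 2) [.ref 2746 [0, 1, 4, 2] [1, 1, 3], .ref 3018 [0, 1, 4, 2, 3] [1, 1, 1, 1, 1], .ref 2934 [0, 1, 4, 2, 3] [1, 1, 1, 1, 1], .ref 2749 [0, 1, 4, 2] [1, 1, 1, 3], .ref 3092 [0, 1, 4, 2, 3] [1, 1, 1, 1, 1], .ref 2861 [0, 1, 4, 2] [1, 1, 1, 3], .ref 2862 [0, 4, 2] [1, 1, 1, 3], .ref 3020 [0, 1, 4, 2, 3] [1, 1, 1, 1, 1], .ref 2935 [0, 1, 4, 2, 3] [1, 1, 1, 1, 1], .ref 2754 [0, 4, 2] [1, 1, 1, 3], .cyc [2, 7], .ref 3021 [0, 1, 4, 2, 3] [1, 1, 1, 1, 1], .ref 2936 [0, 1, 4, 2, 3] [1, 1, 1, 1, 1], .ref 2754 [0, 4, 2] [1, 1, 3, 1]]),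
([m 0 1, g, s 0 0, m 1 2, p 0 0, g, s 2 0, g], .inner (.lo 2) [.ref 3053 [0, 1, 3, 2] [1, 1, 1, 1], .ref 2745 [0, 1, 3, 2] [1, 1, 2, 1], .ref 3056 [0, 1, 3, 2] [1, 1, 2, 1], .cyc [2], .ref 2839 [0, 2, 3] [1, 0, 1, 1], .ref 3069 [0, 1, 2, 3] [1, 1, 1, 1], .ref 2839 [0, 2, 3] [1, 2, 1, 1], .ref 2871 [0, 1, 2, 3] [1, 2, 1, 1], .ref 2873 [0, 2, 3] [1, 2, 1], .ref 3091 [0, 1, 2, 3] [1, 1, 1, 1], .ref 2758 [0, 2, 3] [1, 2, 1, 1], .ref 3093 [0, 1, 2, 3] [1, 2, 1, 1]]),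
([m 0 1, g, m 1 2, m 0 3, g, s 3 0, g, s 2 0, g], .leaf [6, 4, 5, 4, 1]),
([m 0 1, g, m 1 2, m 0 3, g, p 3 0, g, s 2 0, g], .leaf [6, 4, 5, 4, 1]),
([m 0 1, g, s 0 2, g, s 2 0, m 1 3, m 0 4, g, m 4 0, g, s 3 0, g], .leaf [4, 1, 5, 6, 5, 0, 5]),
([m 0 1, g, m 1 2, m 0 3, g, s 2 0, g, s 3 0, g], .leaf [4, 2, 3, 2, 3]),
([m 0 1, g, m 1 2, m 0 3, g, s 2 0, g, p 3 0, g], .leaf [4, 2, 3, 2, 3]),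
([m 0 1, g, s 0 2, g, s 2 0, m 1 3, g, m 0 4, g, s 3 0, g, m 4 0, g], .leaf [4, 1, 4, 0, 5, 7, 5]),
([m 0 1, g, s 0 2, g, s 2 0, m 1 3, m 0 0, g, s 3 0, g], .inner (.hi 6) [.ref 2504 [0, 4] [5, 3], .ref 2621 [0, 1, 4] [1, 4, 3], .ref 2622 [0, 1, 4] [1, 4, 0, 3], .ref 2623 [0, 4] [1, 5, 3], .ref 2621 [0, 1, 4] [1, 2, 3], .ref 2621 [0, 1, 4] [3, 2, 3], .ref 2622 [0, 1, 4] [3, 2, 0, 3], .ref 2623 [0, 4] [3, 3, 3], .cyc [6], .ref 3095 [0, 1, 3, 4] [4, 1, 1, 1], .ref 3096 [0, 1, 3, 4] [4, 1, 1, 1], .ref 3097 [0, 1, 2, 3, 4] [1, 1, 1, 1, 1], .ref 3098 [0, 1, 3, 4] [4, 1, 1, 1], .ref 3099 [0, 1, 3, 4] [4, 1, 1, 1], .ref 3100 [0, 1, 2, 3, 4] [1, 1, 0, 1, 1, 1]]),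
([m 0 1, g, s 3 0, g, m 1 0, m 0 2, g, m 2 3, g], .leaf [2, 6, 6, 4, 1]),
([m 0 1, g, s 4 0, g, m 1 0, m 0 2, g, s 3 0, g, m 2 3, g, s 0 4, g], .leaf [8, 6, 9, 4, 2, 4, 1]),
([m 0 1, g, s 4 0, g, m 1 0, m 0 2, g, p 3 0, g, m 2 3, g, s 0 4, g], .leaf [8, 6, 9, 4, 2, 4, 1]),
([m 0 1, g, s 5 0, m 1 2, m 0 3, g, m 3 4, g, s 4 0, g, s 0 5, g, s 2 0, g], .leaf [10, 7, 10, 7, 1, 5, 6, 1]),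
([m 0 1, g, m 1 2, m 0 3, g, m 3 4, g, m 4 0, g, s 2 0, g], .leaf [1, 5, 6, 5, 5, 3, 0, 3]),
([m 0 1, g, s 4 0, g, m 1 0, m 0 2, g, m 2 3, g, s 3 4, g], .leaf [2, 8, 8, 6, 6, 4, 1]),
([m 0 1, g, s 4 0, g, m 1 0, m 0 2, g, m 2 3, g, s 0 4, g, s 3 0, g], .leaf [2, 8, 10, 8, 8, 6, 1]),
([m 0 1, g, s 4 0, m 1 2, g, m 0 3, g, s 0 4, g, p 3 0, g, s 2 0, g], .leaf [2, 6, 1, 6, 4, 0, 5]),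
([m 0 1, g, s 4 0, g, m 1 0, m 0 2, g, m 2 3, g, s 0 4, g, m 3 0, g], .leaf [2, 8, 10, 8, 8, 6, 1]),
([m 0 1, g, s 4 0, m 1 2, g, m 0 3, g, s 0 4, g, s 2 0, g, p 3 0, g], .leaf [2, 6, 1, 8, 6, 0, 3]),
([m 0 1, g, s 4 0, m 1 2, m 0 3, g, m 3 0, g, s 0 4, g, s 2 0, g], .inner (.hi 6) [.ref 2504 [0, 5] [5, 5], .ref 3102 [0, 1, 3, 5] [1, 2, 1, 5], .ref 2622 [0, 1, 5] [1, 2, 2, 5], .ref 2623 [0, 5] [1, 5, 5], .cyc [4, 6], .ref 3103 [0, 1, 3, 5, 4] [1, 0, 1, 1, 1, 3], .ref 3104 [0, 1, 3, 5, 4] [1, 0, 1, 1, 1, 3], .ref 2623 [0, 5] [5, 1, 5], .ref 3105 [0, 1, 2, 3, 5, 4] [1, 1, 1, 1, 1, 1], .ref 3059 [0, 1, 2, 5, 4] [1, 2, 1, 1, 1, 1], .ref 3106 [0, 1, 2, 3, 5] [2, 1, 1, 3, 1], .ref 3107 [0, 1, 3, 5, 4] [1, 0, 1, 1, 3], .ref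 3108 [0, 1, 3, 5, 4] [1, 0, 1, 1, 1, 3], .ref 3109 [0, 1, 2, 5, 4] [1, 2, 1, 1, 1, 1], .ref 3110 [0, 1, 3, 5, 4] [1, 0, 1, 1, 1, 3], .ref 3108 [0, 1, 3, 5, 4] [1, 0, 1, 1, 3, 1], .ref 3111 [0, 1, 2, 5, 4] [1, 2, 1, 1, 1, 1], .ref 3110 [0, 1, 3, 5, 4] [1, 0, 1, 1, 3, 1]]),
([m 0 1, g, s 3 0, m 1 2, m 0 0, g, s 0 3, g, s 2 0, g], .inner (.hi 4) [.ref 2504 [0, 4] [3, 5], .ref 2621 [0, 1, 4] [1, 2, 5], .ref 2622 [0, 1, 4] [1, 2, 0, 5], .ref 2623 [0, 4] [1, 3, 5], .cyc [4], .ref 3095 [0, 1, 2, 4] [2, 1, 3, 1], .ref 3059 [0, 1, 2, 4, 3] [1, 0, 1, 1, 1, 1], .ref 3112 [0, 1, 2, 4, 3] [1, 1, 1, 1, 1], .ref 2627 [0, 1, 4, 3] [1, 0, 1, 3], .ref 3095 [0, 1, 2, 4] [2, 3, 1, 1], .ref 3109 [0, 1, 2, 4, 3] [1, 0, 1, 1, 1, 1], .ref 2630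 [0, 1, 4, 3] [1, 0, 1, 1, 3], .ref 3098 [0, 1, 2, 4] [2, 3, 1, 1], .ref 3111 [0, 1, 2, 4, 3] [1, 0, 1, 1, 1, 1], .ref 2630 [0, 1, 4, 3] [1, 0, 1, 3, 1]]),
([m 0 1, g, s 2 0, g, s 0 2, m 1 3, m 0 4, g, m 4 0, g, s 3 0, g], .leaf [4, 1, 5, 6, 5, 0, 5]),
([m 0 1, g, s 0 2, g, m 1 0, m 0 3, g, s 2 0, g, m 3 0, g], .leaf [2, 6, 8, 6, 1]),
([m 0 1, g, s 0 2, g, m 1 0, m 0 3, g, m 3 4, g, s 2 0, g, s 4 0, g], .leaf [2, 8, 10, 8, 8, 6, 1]),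
([m 0 1, g, s 0 2, m 1 3, m 0 4, g, m 4 5, g, s 5 0, g, s 2 0, g, s 3 0, g], .leaf [10, 7, 10, 7, 1, 5, 6, 1]),
([m 0 1, g, s 6 2, m 1 3, m 0 4, g, m 4 5, g, s 5 0, g, s 3 0, g, s 2 0, g, s 0 6, g], .leaf [9, 7, 12, 8, 1, 6, 8, 5, 4, 1]),
([m 0 1, g, s 6 2, m 1 3, m 0 4, g, m 4 5, g, s 5 0, g, s 3 0, g, s 0 6, g, s 2 0, g], .leaf [9, 7, 12, 8, 1, 6, 8, 5, 4, 1]),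
([m 0 1, g, s 5 0, m 1 2, m 0 3, g, m 3 4, g, s 4 0, g, s 2 0, g, s 0 5, g], .inner (.hi 2) [.ref 2746 [0, 1, 6, 2] [1, 6, 3], .ref 3114 [0, 1, 6, 2, 3] [1, 1, 1, 3, 3], .ref 3072 [0, 1, 6, 2, 5] [1, 1, 6, 1, 1], .ref 2749 [0, 1, 6, 2] [1, 1, 6, 3], .ref 2862 [0, 6, 2] [1, 0, 5, 3], .ref 3115 [0, 1, 6, 3] [1, 0, 1, 1, 7], .ref 2861 [0, 1, 6, 2] [1, 2, 5, 3], .ref 2862 [0, 6, 2] [1, 2, 5, 3], .ref 3116 [0, 1, 6, 3, 4] [1, 0, 1, 1, 1, 5], .ref 2861 [0, 1, 6, 2] [1, 4, 3, 3], .ref 2862 [0, 6, 2] [1, 4, 3, 3], .ref 3117 [0, 1, 6, 2, 3, 4] [1, 1, 1, 1, 1, 3], .ref 2861 [0, 1, 6, 2] [1, 6, 1, 3], .ref 2862 [0, 6, 2] [1, 6, 1, 3], .ref 3118 [0, 1, 6, 2, 3, 4, 5] [1, 1, 1, 1, 1, 1, 1], .ref 3078 [0, 1, 6, 2, 5] [1, 6, 1, 1, 1],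 .ref 2754 [0, 6, 2] [1, 6, 1, 3], .cyc [2, 12], .ref 3119 [0, 1, 6, 2, 3, 4, 5] [1, 1, 1, 1, 1, 1, 1], .ref 3080 [0, 1, 6, 2, 5] [1, 6, 1, 1, 1], .ref 2754 [0, 6, 2] [1, 6, 3, 1]]),
([m 0 1, g, m 1 2, g, m 0 3, g, m 3 4, g, p 4 0, g, s 2 0, g], .leaf [5, 6, 4, 8, 6, 6, 4, 1]),
([m 0 1, g, s 5 0, m 1 2, m 0 3, g, m 3 4, g, s 2 0, g, s 4 0, g, s 0 5, g], .leaf [7, 1, 8, 10, 5, 7, 6, 1]),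
([m 0 1, g, s 4 0, m 1 2, g, m 0 3, g, s 2 0, g, p 3 0, g, s 0 4, g], .leaf [6, 1, 7, 9, 4, 6, 5]),
([m 0 0, g, s 4 0, m 0 1, g, m 0 2, g, m 2 3, g, s 1 0, g, m 3 0, g, s 0 4, g], .leaf [13, 10, 5, 7, 5, 5, 3]),
([m 0 1, g, s 4 0, m 1 2, g, m 0 3, g, s 2 0, g, s 0 4, g, p 3 0, g], .leaf [2, 8, 3, 8, 4, 0, 3]),
([m 0 1, g, s 4 0, m 1 2, m 0 3, g, m 3 0, g, s 2 0, g, s 0 4, g], .inner (.hi 6) [.ref 2504 [0, 5] [5, 5], .ref 3102 [0, 1, 3, 5] [1, 2, 1, 5], .ref 2622 [0, 1, 5] [1, 2, 2, 5], .ref 2623 [0, 5] [1, 5, 5], .cyc [4, 6], .ref 3103 [0, 1, 3, 5, 4] [1, 0, 1, 1, 3, 1], .ref 3104 [0, 1, 3, 5, 4] [1, 0, 1, 1, 3, 1], .ref 2623 [0, 5] [5, 1, 5], .ref 3120 [0, 1, 2, 3, 5, 4] [1, 1, 1, 1, 1, 1], .ref 3121 [0, 1, 2, 3, 5]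 [2, 0, 1, 1, 1, 3], .ref 3106 [0, 1, 2, 3, 5] [2, 1, 1, 1, 3], .ref 3122 [0, 1, 2, 3, 5, 4] [1, 1, 1, 1, 1, 1], .ref 3123 [0, 1, 2, 5, 4] [1, 2, 1, 1, 1, 1], .ref 3124 [0, 2, 3, 5, 4] [1, 0, 1, 1, 1, 1, 1], .ref 3107 [0, 1, 3, 5, 4] [1, 0, 1, 3, 1], .ref 3108 [0, 1, 3, 5, 4] [1, 0, 1, 3, 1, 1], .ref 3125 [0, 1, 2, 5, 4] [1, 2, 1, 1, 1, 1], .ref 3110 [0, 1, 3, 5, 4] [1, 0, 1, 3, 1, 1]]),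
([m 0 1, g, s 4 0, g, m 1 2, m 0 3, g, s 2 0, g, m 3 0, g, s 0 4, g], .leaf [2, 10, 6, 2, 4, 2, 3]),
([m 0 1, g, s 3 0, m 1 2, m 0 0, g, s 2 0, g, s 0 3, g], .inner (.hi 4) [.ref 2504 [0, 4] [3, 5], .ref 2621 [0, 1, 4] [1, 2, 5], .ref 2622 [0, 1, 4] [1, 2, 0, 5], .ref 2623 [0, 4] [1, 3, 5], .cyc [4], .ref 3095 [0, 1, 2, 4] [2, 1, 1, 3], .ref 2625 [0, 1, 4, 3] [1, 0, 1, 3, 1], .ref 3126 [0, 1, 2, 4, 3] [1, 1, 1, 1, 1], .ref 3098 [0, 1, 2, 4] [2, 1, 1, 3], .ref 3123 [0, 1, 2, 4, 3] [1, 0, 1, 1, 1, 1], .ref 3127 [0, 1, 2, 4, 3] [1, 0, 1, 1, 1, 1], .ref 2627 [0, 1, 4, 3] [1, 0, 3, 1], .ref 3098 [0, 1, 2, 4] [2, 1, 3, 1], .ref 3125 [0, 1, 2, 4, 3] [1, 0, 1, 1, 1, 1], .ref 2630 [0, 1, 4, 3] [1, 0, 3, 1, 1]]),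
([m 0 1, g, s 0 0, m 1 2, m 0 0, g, s 2 0, g], .inner (.lo 2) [.ref 3101 [0, 1, 3, 2] [1, 1, 1, 1], .ref 2745 [0, 1, 3, 2] [1, 1, 2, 1], .ref 3056 [0, 1, 3, 2] [1, 1, 2, 1], .cyc [2], .ref 2871 [0, 1, 2, 3] [1, 0, 1, 1], .ref 3113 [0, 1, 2, 3] [1, 1, 1, 1], .ref 2839 [0, 2, 3] [1, 2, 1, 1], .ref 2871 [0, 1, 2, 3] [1, 2, 1, 1], .ref 2873 [0, 2, 3] [1, 2, 1], .ref 3128 [0, 1, 2, 3] [1, 1, 1, 1], .ref 2758 [0, 2, 3] [1, 2, 1, 1], .ref 3093 [0, 1, 2, 3] [1, 2, 1, 1]]),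
([m 0 1, g, s 0 0, m 1 2, g, s 2 0, g], .inner (.top 4) [.ref 2760 [0, 1, 2] [1, 1], .ref 3045 [0, 1, 2] [1, 1, 1], .ref 3094 [0, 1, 2] [1, 1, 1], .ref 3129 [0, 1, 2] [1, 1, 1]]),
([m 0 1, g, s 2 0, g, p 0 2, m 1 3, g, s 3 0, g], .leaf [4, 1, 4, 0, 3]),
([m 0 1, g, s 0 2, g, p 3 0, g, p 2 3, m 1 4, g, s 4 0, g], .leaf [5, 7, 1, 2, 6, 4, 1]),
([m 0 1, g, p 3 0, g, s 0 2, g, p 2 3, m 1 4, g, s 4 0, g], .leaf [5, 7, 1, 4, 1, 2, 3]),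
([m 0 1, g, p 2 0, g, p 4 2, m 1 3, g, s 0 4, g, s 3 0, g], .leaf [3, 5, 1, 4, 1, 2, 3]),
([m 0 1, g, p 2 0, g, p 4 2, g, m 1 3, g, p 0 4, g, s 3 0, g], .leaf [5, 8, 6, 6, 4, 2, 0, 3])]

def d12_1 : List (List Item × Pf) := [
([m 0 1, g, p 2 0, g, p 4 2, m 1 3, g, s 3 4, g], .leaf [3, 5, 1, 4, 4, 0, 1]),
([m 0 1, g, p 2 0, g, p 4 2, m 1 3, g, s 3 0, g, s 0 4, g], .leaf [3, 5, 1, 6, 3, 4, 1]),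
([m 0 1, g, p 2 0, g, p 4 2, m 1 3, g, s 3 0, g, p 0 4, g], .leaf [6, 9, 6, 7, 3, 2, 3]),
([m 0 1, g, p 2 0, g, p 0 2, m 1 3, g, s 3 0, g], .inner (.lo 4) [.ref 3132 [0, 1, 4, 2, 3] [1, 1, 1, 1, 1], .ref 2612 [0, 4] [1, 3, 4], .ref 2641 [0, 1, 4] [1, 3, 0, 3], .cyc [2, 4], .ref 3133 [0, 1, 4, 2, 3] [1, 1, 1, 1, 1], .ref 2612 [0, 4] [3, 1, 4], .ref 2641 [0, 1, 4] [3, 1, 0, 3], .ref 3134 [0, 1, 2, 3, 4] [1, 1, 1, 1, 1], .ref 3135 [0, 1, 2, 3, 4] [1, 1, 0, 1, 1, 1], .ref 2622 [0, 1, 4] [3, 0, 1, 3], .ref 3136 [0, 1, 2, 3, 4] [1, 1, 1, 1], .ref 3137 [0, 1, 2, 3, 4] [1, 1, 1, 1, 1], .ref 3138 [0, 1, 2, 3, 4] [1, 1, 1, 1, 1], .ref 2622 [0, 1, 4] [3, 0, 3, 1]]),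
([m 0 0, g, p 0 1, m 0 2, g, s 1 0, g, s 2 0, g], .leaf [5, 2, 5]),
([m 0 0, g, p 0 1, m 0 2, g, s 2 0, g, s 1 0, g], .leaf [7, 4, 1]),
([m 0 1, g, p 0 0, m 1 2, g, s 2 0, g], .inner (.hi 2) [.ref 2503 [0, 3] [1, 4], .ref 3131 [0, 1, 3, 2] [1, 1, 1, 1], .ref 3139 [0, 1, 3, 2] [1, 1, 1, 1], .ref 2638 [0, 3] [1, 1, 4], .cyc [2], .ref 3140 [0, 3, 2] [1, 1, 1, 1], .ref 2612 [0, 3] [1, 2, 3], .ref 2649 [0, 3] [1, 2, 3], .ref 3141 [0, 3, 2] [1, 1, 1, 1], .ref 2612 [0, 3] [1, 4, 1], .ref 2649 [0, 3] [1, 4, 1]]),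
([m 0 1, g, s 0 2, g, m 2 0, m 1 3, g, s 3 0, g], .leaf [4, 1, 4, 0, 3]),
([m 0 1, g, s 3 0, g, m 0 2, g, m 2 3, m 1 4, g, s 4 0, g], .leaf [5, 7, 1, 2, 6, 4, 1]),
([m 0 1, g, m 0 2, g, s 3 0, g, m 2 3, m 1 4, g, s 4 0, g], .leaf [5, 7, 1, 4, 1, 2, 3]),
([m 0 1, g, m 0 2, g, m 2 3, m 1 4, g, s 3 0, g, s 4 0, g], .leaf [3, 5, 1, 4, 1, 2, 3]),
([m 0 1, g, m 0 2, g, m 2 3, g, m 1 4, g, m 3 0, g, s 4 0, g], .leaf [5, 8, 6, 6, 4, 2, 0, 3]),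
([m 0 1, g, m 0 2, g, m 2 3, m 1 4, g, s 4 0, g, s 3 0, g], .leaf [3, 5, 1, 6, 3, 4, 1]),
([m 0 1, g, m 0 2, g, m 2 3, m 1 4, g, s 4 0, g, m 3 0, g], .leaf [6, 9, 6, 7, 3, 2, 3]),
([m 0 1, g, m 0 2, g, m 2 0, m 1 3, g, s 3 0, g], .inner (.hi 4) [.ref 2504 [0, 4] [3, 4], .ref 3144 [0, 1, 2, 4, 3] [1, 1, 1, 1, 1], .ref 2656 [0, 1, 4] [1, 3, 0, 3], .ref 2623 [0, 4] [1, 3, 4], .cyc [2, 4], .ref 3145 [0, 1, 2, 4, 3] [1, 1, 1, 1, 1], .ref 2656 [0, 1, 4] [3, 1, 0, 3], .ref 2623 [0, 4] [3, 1, 4], .ref 3146 [0, 1, 2, 4, 3] [1, 1, 1, 1, 1], .ref 2613 [0, 1, 4] [3, 0, 1, 3], .ref 3147 [0, 1, 2, 4, 3] [1, 1, 0, 1, 1, 1], .ref 3148 [0, 1, 2, 4, 3] [1, 1, 1, 1, 1], .ref 2613 [0, 1, 4] [3, 0, 3, 1], .ref 3149 [0, 1, 2, 4, 3] [1, 1,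 1, 1, 1]]),
([m 0 0, g, m 2 0, m 0 1, g, s 0 2, g, s 1 0, g], .leaf [5, 2, 5]),
([m 0 0, g, m 2 0, m 0 1, g, s 1 2, g], .leaf [5, 2, 1]),
([m 0 0, g, m 2 0, m 0 1, g, s 1 0, g, s 0 2, g], .leaf [7, 4, 1]),
([m 0 1, g, m 0 0, m 1 2, g, s 2 0, g], .inner (.lo 2) [.ref 3143 [0, 1, 3, 2] [1, 1, 1, 1], .ref 2649 [0, 3] [1, 1, 4], .ref 3150 [0, 1, 3, 2] [1, 1, 1, 1], .cyc [2], .ref 3151 [0, 2, 3] [1, 1, 1, 1], .ref 2638 [0, 3] [1, 2, 3], .ref 2623 [0, 3] [1, 2, 3], .ref 3152 [0, 2, 3] [1, 1, 1], .ref 3153 [0, 2, 3] [1, 1, 1, 1], .ref 2638 [0, 3] [1, 4, 1], .ref 2623 [0, 3] [1, 4, 1]]),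
([m 0 1, g, m 1 2, g, s 2 0, g], .inner (.bot 1) [.ref 2736 [0, 1, 2] [1, 1], .ref 3130 [0, 1, 2] [1, 1, 1], .ref 3142 [0, 1, 2] [1, 1, 1], .ref 3154 [0, 1, 2] [1, 1, 1]]),
([m 0 1, g, m 1 2, g, p 2 0, g], .leaf [1, 2, 0, 1]),
([m 4 1, m 1 2, g, s 3 0, g, s 5 3, g, s 0 4, g, m 2 5, g], .leaf [2, 9, 7, 4, 1, 4, 4, 2, 1]),
([m 0 1, g, m 1 2, g, p 3 0, g, s 4 3, g, m 2 4, g], .leaf [3, 6, 6, 6, 4, 4, 2, 1]),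
([m 3 0, m 0 1, g, m 2 0, g, s 0 2, g, s 0 3, g, m 1 0, g], .leaf [5, 1, 8, 4, 1]),
([m 3 0, m 0 1, g, s 4 2, g, s 2 0, g, s 0 3, g, m 1 4, g], .leaf [3, 8, 3, 6, 6, 4, 1]),
([m 3 0, m 0 1, g, s 4 2, g, p 2 0, g, s 0 3, g, m 1 4, g], .leaf [3, 8, 3, 6, 6, 4, 1]),
([m 3 0, m 0 1, g, s 0 2, g, m 2 0, g, s 0 3, g, m 1 0, g], .leaf [5, 1, 8, 4, 1]),
([m 3 0, m 0 1, g, s 4 2, g, s 0 3, g, s 2 0, g, m 1 4, g], .leaf [3, 8, 1, 6, 6, 4, 1]),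
([m 3 0, m 0 1, g, s 4 2, g, s 0 3, g, p 2 0, g, m 1 4, g], .leaf [3, 8, 1, 6, 6, 4, 1]),
([m 3 0, m 0 1, g, s 0 2, g, s 0 3, g, m 2 0, g, m 1 0, g], .leaf [7, 3, 8, 2, 5]),
([m 3 0, m 0 1, g, s 4 2, g, s 0 3, g, m 1 4, g, s 2 0, g], .leaf [9, 5, 1, 6, 3, 3, 1]),
([m 0 1, g, m 1 2, g, s 4 3, g, m 2 4, g, p 3 0, g], .leaf [3, 4, 4, 4, 2, 2, 0, 1]),
([m 3 0, m 0 1, g, s 0 2, g, s 0 3, g, m 1 0, g, m 2 0, g], .leaf [9, 5, 1, 6, 3]),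
([m 3 1, m 1 2, g, s 4 0, g, s 0 3, g, m 2 4, g], .inner (.hi 3) [.ref 3157 [0, 1, 2, 5, 3, 4] [1, 1, 1, 1, 1], .ref 3158 [0, 1, 2, 5, 4] [0, 1, 1, 3, 1], .ref 3159 [0, 2, 5, 3] [1, 1, 1, 1, 1], .ref 3160 [0, 2, 5, 3, 4] [1, 1, 1, 1, 1], .ref 3161 [0, 2, 5, 3, 4] [1, 1, 1, 1, 1], .ref 3162 [0, 2, 5, 3] [1, 1, 1, 1, 1], .cyc [0, 1, 7, 3, 5], .ref 3163 [0, 2, 5, 3, 4] [1, 1, 1, 1, 1], .ref 3164 [0, 2, 5, 3, 4] [1, 1, 1, 1, 1], .ref 3165 [0, 2, 5, 3] [1, 1, 1, 1, 1], .ref 3166 [0, 2, 5, 3, 4] [1, 1, 1, 1, 1], .ref 3167 [0, 1, 2, 5, 4] [0, 1, 3, 1, 1], .ref 3168 [0, 2, 5, 3] [1, 1, 1, 1, 1]]),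
([m 0 1, g, m 1 2, g, p 3 0, g, m 2 3, g], .leaf [3, 6, 4, 4, 2, 1]),
([m 3 1, m 1 2, g, s 4 0, g, s 0 3, g, s 5 4, g, m 2 5, g], .leaf [6, 9, 3, 6, 1, 3, 1, 2, 1]),
([m 2 0, m 0 1, g, m 3 0, g, s 0 2, g, s 0 3, g, m 1 0, g], .leaf [7, 3, 8, 2, 5]),
([m 2 0, m 0 1, g, s 0 2, g, s 3 0, g, s 4 3, g, m 1 4, g], .leaf [7, 1, 8, 2, 3, 5, 3]),
([m 2 0, m 0 1, g, s 0 2, g, m 3 0, g, s 0 3, g, m 1 0, g], .leaf [7, 1, 8, 2, 3]),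
([m 2 0, m 0 1, g, s 0 2, g, s 4 3, g, s 3 0, g, m 1 4, g], .leaf [5, 8, 1, 6, 6, 2, 3]),
([m 2 0, m 0 1, g, s 0 2, g, s 4 3, g, p 3 0, g, m 1 4, g], .leaf [5, 8, 1, 6, 6, 2, 3]),
([m 2 0, m 0 1, g, s 0 2, g, s 0 3, g, m 3 0, g, m 1 0, g], .leaf [7, 1, 8, 2, 3]),
([m 2 0, m 0 1, g, s 0 2, g, s 4 3, g, m 1 4, g, s 3 0, g], .leaf [5, 8, 1, 6, 1, 2, 3]),
([m 3 1, m 1 2, g, s 0 3, g, s 0 4, g, m 2 0, g, m 4 0, g], .leaf [0, 2, 8, 3, 6, 0, 3]),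
([m 3 1, m 1 2, g, s 0 3, g, s 4 0, g, m 2 4, g], .inner (.hi 5) [.ref 3171 [0, 1, 2, 3, 5, 4] [1, 1, 1, 1, 1], .ref 3158 [0, 1, 2, 5, 4] [0, 1, 3, 1, 1], .ref 3172 [0, 2, 3, 5] [1, 1, 1, 1, 1], .cyc [0, 1, 7, 5, 3], .ref 3173 [0, 2, 3, 5, 4] [1, 1, 1, 1, 1], .ref 3158 [0, 1, 2, 5, 4] [0, 3, 1, 1, 1], .ref 3174 [0, 2, 3, 5] [1, 1, 1, 1, 1], .ref 3175 [0, 2, 3, 5, 4] [1, 1, 1, 1, 1], .ref 3176 [0, 2, 3, 5, 4] [1, 1, 1, 1, 1], .ref 3177 [0, 2, 3, 5] [1, 1, 1, 1, 1], .ref 3178 [0, 2, 3, 5, 4] [1, 1, 1, 1, 1], .ref 3167 [0, 1, 2, 5, 4] [0, 3, 1, 1, 1], .ref 3179 [0, 1, 2, 3, 5] [1, 1, 1, 1, 1]]),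
([m 3 1, m 1 2, g, s 0 3, g, m 2 4, g, s 4 0, g], .leaf [6, 3, 4, 1, 1, 2, 1]),
([m 0 1, g, m 1 2, g, m 2 3, g, p 3 0, g], .leaf [3, 4, 2, 2, 0, 1]),
([m 3 1, m 1 2, g, s 0 3, g, m 2 4, g, m 4 0, g], .leaf [5, 2, 4, 1, 5, 3, 3, 1]),
([m 3 1, m 1 2, g, s 0 3, g, m 2 0, g], .inner (.hi 5) [.ref 3169 [0, 1, 2, 3, 4] [1, 1, 1, 1], .ref 3170 [0, 1, 2, 4] [0, 1, 3, 1], .ref 2623 [0, 4] [2, 3, 1], .cyc [0, 1, 5, 3], .ref 3180 [0, 1, 2, 3, 4] [1, 1, 1, 1], .ref 3170 [0, 1, 2, 4] [0, 3, 1, 1], .ref 2623 [0, 4] [4, 1, 1], .ref 3181 [0, 1, 2, 3, 4] [1, 1, 1, 1], .ref 3182 [0, 1, 2, 4] [0, 3, 1, 1], .ref 3183 [0, 1, 2, 3, 4] [1, 1, 1, 1]]),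
([m 5 1, m 1 2, g, s 3 0, g, s 4 3, g, m 2 4, g, s 0 5, g], .leaf [2, 7, 5, 6, 3, 1, 1, 2, 1]),
([m 3 0, m 0 1, g, m 2 0, g, s 0 2, g, m 1 0, g, s 0 3, g], .leaf [5, 1, 6, 2, 5]),
([m 4 0, m 0 1, g, s 3 2, g, s 2 0, g, m 1 3, g, s 0 4, g], .leaf [3, 6, 1, 4, 4, 2, 3]),
([m 4 0, m 0 1, g, s 3 2, g, p 2 0, g, m 1 3, g, s 0 4, g], .leaf [3, 6, 1, 4, 4, 2, 3]),
([m 3 0, m 0 1, g, s 0 2, g, m 2 0, g, m 1 0, g, s 0 3, g], .leaf [5, 1, 6, 2, 5]),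
([m 5 1, m 1 2, g, s 4 3, g, m 2 4, g, s 3 0, g, s 0 5, g], .leaf [2, 5, 3, 6, 1, 3, 1, 2, 1]),
([m 0 1, g, m 1 2, g, s 4 3, g, m 2 4, g, m 3 0, g], .leaf [3, 6, 4, 6, 3, 1, 2, 1]),
([m 4 1, m 1 2, g, s 0 3, g, m 2 0, g, s 0 4, g, s 3 0, g], .leaf [0, 6, 3, 6, 2, 0, 1]),
([m 4 1, m 1 2, g, s 3 0, g, m 2 3, g, s 0 4, g], .inner (.hi 3) [.ref 3185 [0, 1, 2, 5, 3, 4] [1, 1, 1, 1, 1], .ref 3158 [0, 1, 2, 5, 3] [0, 1, 1, 1, 3], .ref 3186 [0, 2, 5, 4] [1, 1, 1, 1, 1], .ref 3187 [0, 2, 5, 3, 4] [1, 1, 1, 1, 1], .ref 3188 [0, 2, 5, 3, 4] [1, 1, 1, 1, 1], .ref 3189 [0, 2, 5, 4] [1, 1, 1, 1, 1], .ref 3190 [0, 1, 2, 5, 3, 4] [1, 1, 1, 1, 1], .ref 3167 [0, 1, 2, 5, 3] [0, 1, 1, 1, 3], .ref 3191 [0, 1, 2, 5, 3] [0, 1, 1, 1, 3], .cyc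 [0, 1, 5, 3, 7], .ref 3192 [0, 1, 2, 5, 4] [1, 1, 1, 1, 1], .ref 3167 [0, 1, 2, 5, 3] [0, 1, 1, 3, 1], .ref 3191 [0, 1, 2, 5, 3] [0, 1, 1, 3, 1]]),
([m 5 1, m 1 2, g, s 0 3, g, m 2 4, g, s 4 0, g, s 3 5, g], .leaf [6, 3, 7, 7, 4, 1, 1, 2, 1]),
([m 4 1, g, m 1 2, g, p 0 3, g, m 2 0, g, s 3 4, g], .leaf [4, 7, 7, 3, 3, 1, 3, 1]),
([m 4 1, m 1 2, g, m 0 3, g, m 2 0, g, s 3 4, g], .leaf [2, 5, 3, 4, 1, 3, 0, 1]),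
([m 5 1, m 1 2, g, m 2 3, g, s 0 4, g, s 3 0, g, s 4 5, g], .leaf [0, 8, 8, 4, 1, 4, 2, 0, 1]),
([m 4 1, g, m 1 2, g, m 2 0, g, p 0 3, g, s 3 4, g], .leaf [6, 7, 7, 5, 5, 3, 3, 1]),
([m 4 1, m 1 2, g, m 2 0, g, m 0 3, g, s 3 4, g], .leaf [0, 6, 1, 3, 5, 1, 0, 1])]

def d12_2 : List (List Item × Pf) := [
([m 4 0, m 0 1, g, m 1 2, g, s 2 0, g, s 0 3, g, s 3 4, g], .leaf [9, 1, 5, 1, 3, 4, 1]),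
([m 4 1, m 1 2, g, m 2 3, g, s 3 0, g, s 5 4, g, s 0 5, g], .leaf [2, 3, 1, 4, 6, 1, 2, 0, 1]),
([m 3 1, g, m 1 2, g, m 2 0, g, s 4 3, g, p 0 4, g], .leaf [8, 1, 1, 5, 5, 3, 3, 1]),
([m 3 0, m 0 1, g, s 0 2, g, s 2 0, g, m 1 0, g, s 4 3, g, m 0 4, g], .leaf [5, 1, 6, 2, 5, 5, 5]),
([m 3 0, m 0 1, g, p 0 2, g, s 2 0, g, m 1 0, g, s 0 3, g], .leaf [5, 1, 6, 2, 5]),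
([m 0 1, g, m 1 2, g, m 0 3, g, s 3 4, g, m 2 0, g, m 4 0, g], .leaf [3, 8, 6, 6, 4, 1, 5, 3]),
([m 4 0, m 0 1, g, s 3 2, g, s 0 3, g, m 1 0, g, s 0 4, g, m 2 0, g], .leaf [5, 1, 6, 2, 5, 7, 5]),
([m 3 0, m 0 1, g, s 2 0, g, p 0 2, g, m 1 0, g, s 0 3, g], .leaf [5, 1, 6, 2, 5]),
([m 0 1, g, m 1 2, g, s 4 3, g, m 0 4, g, m 2 0, g, m 3 0, g], .leaf [3, 8, 6, 8, 5, 3, 4, 1]),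
([m 5 1, m 1 2, g, s 4 3, g, m 2 0, g, s 0 4, g, s 0 5, g, m 3 0, g], .leaf [0, 8, 10, 4, 8, 3, 6, 0, 3]),
([m 0 1, g, m 1 2, g, s 4 3, g, m 2 0, g, p 0 4, g, m 3 0, g], .leaf [3, 6, 4, 6, 3, 6, 2, 3]),
([m 5 1, m 1 2, g, s 4 3, g, m 2 0, g, m 0 4, g, s 0 5, g, m 3 0, g], .leaf [2, 5, 3, 6, 1, 3, 6, 2, 3]),
([m 3 1, m 1 2, g, s 4 0, g, m 2 0, g, s 0 3, g, s 0 4, g], .leaf [0, 6, 3, 6, 2, 0, 1]),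
([m 3 1, m 1 2, g, s 4 0, g, m 2 0, g, s 0 3, g, m 0 4, g], .leaf [0, 6, 3, 6, 2, 0, 1]),
([m 0 1, g, m 1 2, g, s 4 3, g, m 2 0, g, m 3 0, g, p 0 4, g], .leaf [3, 6, 4, 6, 3, 6, 2, 3]),
([m 4 1, m 1 2, g, s 0 3, g, m 2 0, g, s 5 4, g, m 3 5, g], .inner (.lo 3) [.ref 3203 [0, 2, 6, 4, 5] [1, 1, 1, 1, 1, 1], .ref 3204 [0, 2, 6, 4] [1, 1, 1, 1, 3], .ref 3205 [0, 1, 2, 6, 3] [0, 1, 1, 1, 3, 1], .ref 3206 [0, 2, 3, 6, 4] [1, 1, 1, 1, 1, 1], .ref 3207 [0, 2, 6, 4] [1, 1, 1, 1, 3], .ref 3208 [0, 1, 2, 3, 6] [0, 1, 1, 1, 3, 1], .cyc [0, 1, 5, 3, 9, 7], .ref 3209 [0, 1, 2, 3, 6, 4] [1, 1, 1, 1, 1, 1], .ref 3210 [0, 1, 2, 3, 6] [0, 1, 1, 1, 3, 1], .ref 3211 [0, 1, 2, 3, 6, 4] [1, 1, 1, 1, 1, 1], .ref 3212 [0, 1, 2, 4, 6] [1, 1,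 1, 1, 3], .ref 3210 [0, 1, 2, 3, 6] [0, 1, 1, 3, 1, 1], .ref 3213 [0, 1, 2, 4, 6] [1, 1, 1, 1, 3], .ref 3212 [0, 1, 2, 4, 6] [1, 1, 1, 3, 1], .ref 3214 [0, 1, 2, 3, 6] [0, 1, 1, 3, 1, 1], .ref 3213 [0, 1, 2, 4, 6] [1, 1, 1, 3, 1]]),
([m 0 1, g, m 1 2, g, m 0 3, g, m 2 4, g, s 4 0, g, m 3 0, g], .leaf [5, 6, 2, 2, 0, 3, 5, 3]),
([m 5 1, m 1 2, g, m 2 3, g, s 0 4, g, s 3 0, g, s 0 5, g, m 4 0, g], .leaf [0, 8, 10, 6, 1, 6, 4, 0, 3]),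
([m 3 0, m 0 1, g, m 1 0, g, m 0 2, g, s 4 3, g, m 2 4, g], .leaf [1, 3, 2, 5, 5, 5, 5, 3]),
([m 4 0, m 0 1, g, m 1 2, g, s 2 0, g, s 0 3, g, s 0 4, g, m 3 0, g], .leaf [11, 3, 7, 1, 5, 6, 1]),
([m 3 0, m 0 1, g, m 1 2, g, s 2 0, g, s 0 3, g, s 0 4, g, m 4 0, g], .leaf [11, 1, 7, 1, 3, 6, 3]),
([m 2 0, m 0 1, g, m 1 0, g, s 4 2, g, m 0 3, g, m 3 4, g], .leaf [1, 3, 2, 3, 3, 5, 5, 3]),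
([m 3 0, m 0 1, g, m 1 2, g, s 2 0, g, s 0 3, g, m 4 0, g, s 0 4, g], .leaf [11, 1, 7, 1, 3, 6, 3]),
([m 4 1, m 1 2, g, m 2 3, g, s 3 0, g, s 5 4, g, m 0 5, g], .inner (.lo 9) [.ref 3215 [0, 1, 2, 6, 4, 5] [1, 1, 3, 1, 1], .ref 2649 [0, 6] [2, 7, 1], .ref 3216 [0, 1, 2, 6, 3] [0, 1, 1, 1, 3, 1], .ref 3217 [0, 1, 2, 3, 6, 4] [1, 1, 1, 1, 1, 1], .ref 2649 [0, 6] [4, 5, 1], .ref 3218 [0, 2, 6, 4, 5] [1, 1, 3, 1, 1], .cyc [0, 1, 3, 5, 9, 7], .ref 3219 [0, 2, 3, 6, 4] [1, 1, 1, 1, 1, 1], .ref 2649 [0, 6] [6, 3, 1], .ref 3218 [0, 2, 6, 4, 5] [1, 3, 1, 1, 1], .ref 3220 [0, 2, 3, 4, 6] [1, 1, 1, 1, 1, 1], .ref 2649 [0, 6] [8, 1, 1], .ref 3221 [0, 2, 4, 6, 5] [1, 3, 1, 1, 1], .ref 3222 [0, 2, 3, 4, 6] [1, 1, 1, 1, 1, 1], .ref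 2638 [0, 6] [8, 1, 1], .ref 2623 [0, 6] [8, 1, 1]]),
([m 4 1, m 1 2, g, m 2 3, g, s 3 0, g, s 0 4, g], .inner (.lo 7) [.ref 3194 [0, 1, 2, 5, 3, 4] [1, 1, 1, 1, 1], .ref 3195 [0, 1, 2, 5, 4] [0, 1, 1, 3, 1], .ref 3196 [0, 1, 2, 5, 4] [1, 1, 3, 1], .ref 3197 [0, 1, 2, 3, 5, 4] [1, 1, 1, 1, 1], .ref 3198 [0, 1, 2, 5, 4] [0, 1, 1, 3, 1], .ref 3199 [0, 1, 2, 5, 4] [1, 1, 3, 1], .cyc [0, 1, 3, 5, 7], .ref 3200 [0, 2, 3, 5, 4] [1, 1, 1, 1, 1], .ref 3198 [0, 1, 2, 5, 4] [0, 1, 3, 1, 1], .ref 3199 [0, 1, 2, 5, 4] [1, 3, 1, 1], .ref 3201 [0, 1, 2, 3, 4, 5] [1, 1, 1, 1, 1], .ref 3202 [0, 1, 2, 4, 5] [0, 1, 3, 1, 1], .ref 3223 [0, 1, 2, 3, 4, 5] [1, 1, 1, 1, 1]]),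
([m 4 1, g, m 1 2, g, m 2 3, g, m 3 0, g, s 0 4, g], .leaf [8, 7, 7, 5, 5, 3, 3, 1]),
([m 4 1, m 1 2, g, m 2 3, g, s 0 4, g, s 3 0, g], .leaf [0, 4, 1, 4, 2, 0, 1]),
([m 4 1, g, m 1 2, g, m 2 3, g, s 0 4, g, m 3 0, g], .leaf [6, 5, 5, 3, 3, 1, 3, 1]),
([m 3 1, m 1 2, g, m 2 0, g, s 0 3, g], .inner (.hi 3) [.ref 3193 [0, 1, 2, 4, 3] [1, 1, 1, 1], .ref 3170 [0, 1, 2, 4] [0, 1, 1, 3], .ref 2623 [0, 4] [2, 1, 3], .ref 3224 [0, 1, 2, 4, 3] [1, 1, 1, 1], .ref 3182 [0, 1, 2, 4] [0, 1, 1, 3], .ref 3225 [0, 1, 2, 4, 3] [0, 1, 1, 1, 1], .cyc [0, 1, 3, 5], .ref 3226 [0, 1, 2, 4, 3] [1, 1, 1, 1], .ref 3182 [0, 1, 2, 4] [0, 1, 3, 1], .ref 3227 [0, 1, 2, 4, 3] [0, 1, 1, 1, 1]]),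
([m 0 1, m 1 2, g, m 2 0, g], .inner (.lo 0) [.ref 3184 [0, 1, 2, 3] [1, 1, 1], .ref 2503 [0, 3] [2, 3], .ref 2504 [0, 3] [2, 3], .cyc [0, 1, 3], .ref 3228 [0, 1, 2, 3] [1, 1, 1], .ref 2503 [0, 3] [4, 1], .ref 2504 [0, 3] [4, 1]]),
([m 0 1, g, s 4 0, g, s 0 2, g, s 2 0, m 1 3, g, m 3 4, g], .leaf [1, 7, 5, 6, 6, 4, 1]),
([m 0 0, g, s 3 1, g, s 1 0, m 0 2, g, m 2 3, g], .leaf [2, 6, 6, 4, 3]),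
([m 0 1, g, s 0 2, g, s 4 0, g, s 2 0, m 1 3, g, m 3 4, g], .leaf [3, 7, 3, 6, 6, 2, 3]),
([m 0 1, g, s 0 2, g, s 2 0, m 1 3, g, s 4 0, g, m 3 4, g], .leaf [6, 9, 7, 1, 6, 2, 1]),
([m 0 1, g, s 0 2, g, s 2 0, m 1 3, g, m 3 4, g, s 4 0, g], .leaf [6, 7, 5, 1, 4, 0, 3]),
([m 2 1, g, s 0 2, m 1 3, g, m 3 4, g, m 4 0, g], .leaf [5, 7, 6, 6, 4, 1, 3, 1]),
([m 0 1, g, s 3 0, g, s 0 2, g, s 2 3, m 1 4, g, m 4 0, g], .leaf [5, 7, 1, 4, 6, 2, 3]),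
([m 0 1, g, p 3 0, g, s 0 2, g, s 2 3, m 1 4, g, m 4 0, g], .leaf [5, 7, 1, 4, 6, 2, 3]),
([m 0 1, g, m 2 0, g, s 0 2, m 1 3, g, m 3 4, g, m 4 0, g], .leaf [7, 9, 8, 8, 6, 1, 5, 1]),
([m 0 1, g, s 0 2, g, s 3 0, g, s 2 3, m 1 4, g, m 4 0, g], .leaf [5, 7, 1, 2, 6, 4, 1]),
([m 0 1, g, s 0 2, g, p 3 0, g, s 2 3, m 1 4, g, m 4 0, g], .leaf [5, 7, 1, 2, 6, 4, 1]),
([m 0 1, g, s 0 2, g, s 2 3, m 1 4, g, s 3 0, g, m 4 0, g], .leaf [3, 5, 1, 2, 6, 4, 1]),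
([m 0 1, g, s 0 2, g, s 2 3, m 1 4, g, p 3 0, g, m 4 0, g], .leaf [3, 5, 1, 2, 6, 4, 1]),
([m 0 1, g, s 4 0, g, s 0 2, g, s 2 0, m 1 3, g, m 0 4, g, m 3 0, g], .leaf [1, 7, 5, 6, 8, 6, 1]),
([m 0 1, g, s 0 2, g, s 4 0, g, s 2 0, m 1 3, g, m 0 4, g, m 3 0, g], .leaf [3, 7, 3, 6, 8, 4, 5]),
([m 0 1, g, s 0 2, g, s 2 0, m 1 3, g, s 4 0, g, m 0 4, g, m 3 0, g], .leaf [6, 11, 9, 1, 8, 4, 1]),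
([m 0 1, g, m 1 2, g, p 3 0, g, m 0 3, g, m 2 0, g], .leaf [3, 8, 6, 6, 4, 1]),
([m 0 1, g, s 0 2, g, s 2 0, m 1 3, g, m 0 4, g, s 4 0, g, m 3 0, g], .leaf [6, 11, 9, 1, 8, 4, 1]),
([m 0 1, g, m 1 2, g, m 0 3, g, p 3 0, g, m 2 0, g], .leaf [3, 8, 6, 6, 4, 1]),
([m 0 1, g, s 0 2, g, m 1 3, g, m 2 4, g, m 4 0, g, m 3 0, g], .leaf [6, 3, 5, 3, 7, 3, 5, 3]),
([m 0 1, g, s 0 2, g, s 2 0, m 1 3, g, m 0 4, g, m 3 0, g, s 4 0, g], .leaf [6, 9, 7, 1, 6, 2, 5]),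
([m 0 1, g, m 1 2, g, m 0 3, g, m 2 0, g, p 3 0, g], .leaf [3, 6, 4, 4, 2, 3]),
([m 0 1, g, s 0 2, g, m 1 3, g, m 2 4, g, m 3 0, g, m 4 0, g], .leaf [6, 3, 5, 3, 5, 1, 5, 1]),
([m 0 1, g, s 0 2, g, s 2 3, m 1 4, g, m 3 0, g, m 4 0, g], .inner (.hi 7) [.ref 2504 [0, 5] [6, 3], .ref 3243 [0, 1, 2, 4, 5] [1, 1, 1, 1, 1, 1], .ref 2622 [0, 1, 5] [1, 4, 1, 3], .ref 2623 [0, 5] [1, 6, 3], .cyc [2, 4, 7], .ref 3244 [0, 1, 2, 4, 5] [1, 1, 1, 1, 1, 1], .ref 2622 [0, 1, 5] [3, 2, 1, 3], .ref 2623 [0, 5] [3, 4, 3], .ref 3245 [0, 1, 2, 4, 5] [1, 1, 1, 1, 1, 1], .ref 3246 [0, 1, 4, 5] [4, 1, 1, 1, 1], .ref 2623 [0, 5] [6, 1, 3], .ref 3247 [0, 1, 2, 4, 5] [1, 1, 1, 1, 1, 1], .ref 3248 [0, 1, 4, 5] [4, 1, 1, 1, 1], .ref 3249 [0, 1, 3,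 4, 5] [3, 0, 1, 1, 1, 1], .ref 3250 [0, 1, 2, 4, 5] [1, 1, 1, 1, 1, 1], .ref 3251 [0, 1, 4, 5] [4, 1, 1, 1, 1], .ref 3252 [0, 1, 3, 4, 5] [3, 0, 1, 1, 1, 1]]),
([m 0 1, g, s 0 2, g, s 2 3, m 1 4, g, m 4 0, g, s 3 0, g], .leaf [3, 5, 1, 2, 4, 2, 3]),
([m 0 1, g, s 0 2, g, s 2 3, m 1 4, g, m 4 0, g, p 3 0, g], .leaf [3, 5, 1, 2, 4, 2, 3]),
([m 0 1, g, s 0 2, g, m 1 3, g, m 3 4, g, m 2 0, g, m 4 0, g], .leaf [8, 5, 7, 5, 5, 3, 5, 1]),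
([m 0 1, g, s 0 2, g, m 1 3, g, m 3 4, g, m 4 0, g, m 2 0, g], .leaf [10, 7, 9, 7, 7, 5, 5, 3]),
([m 0 1, g, s 0 2, g, s 2 0, m 1 3, g, m 3 4, g, m 4 0, g], .inner (.hi 4) [.ref 3235 [0, 1, 5, 3, 4] [3, 1, 1, 1], .ref 3236 [0, 1, 2, 5, 3] [1, 1, 1, 1, 3], .ref 3237 [0, 1, 2, 5, 3] [1, 1, 1, 1, 3], .ref 3238 [0, 1, 5, 3, 4] [1, 3, 1, 1, 1], .cyc [2, 4], .ref 3239 [0, 1, 2, 5, 3] [1, 1, 1, 1, 3], .ref 3240 [0, 1, 2, 5, 3] [1, 1, 1, 1, 3], .ref 3238 [0, 1, 5, 3, 4] [3, 1, 1, 1, 1], .ref 3241 [0, 1, 2, 5, 3] [1, 1, 1, 1, 3], .ref 3242 [0, 1, 2, 5, 3] [1, 1, 1, 1, 3], .ref 3253 [0, 1, 2, 5, 3] [1, 1, 1, 1, 3], .ref 3254 [0, 1, 2, 5, 3] [1, 1, 1, 1, 3], .ref 3255 [0, 1, 2, 5, 3] [1, 1, 1, 1, 3], .ref 3256 [0, 1, 5, 3, 4] [3,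 0, 1, 1, 1, 1], .ref 3254 [0, 1, 2, 5, 3] [1, 1, 1, 3, 1], .ref 3255 [0, 1, 2, 5, 3] [1, 1, 1, 3, 1], .ref 3257 [0, 1, 5, 3, 4] [3, 0, 1, 1, 1, 1]]),
([m 0 1, g, s 0 2, g, s 2 0, m 1 3, g, m 3 0, g], .inner (.hi 7) [.cyc [0, 5, 7], .ref 3230 [0, 1, 2, 3, 4] [1, 1, 1, 1, 1], .ref 2622 [0, 1, 4] [1, 4, 1, 1], .ref 2623 [0, 4] [1, 6, 1], .ref 3231 [0, 2, 3, 4] [1, 1, 1, 1], .ref 3232 [0, 1, 2, 3, 4] [1, 1, 1, 1, 1], .ref 2622 [0, 1, 4] [3, 2, 1, 1], .ref 2623 [0, 4] [3, 4, 1], .ref 3233 [0, 1, 2, 3, 4] [1, 1, 1, 1, 1], .ref 3170 [0, 1, 3, 4] [4, 1, 1, 1], .ref 2623 [0, 4] [6, 1, 1], .ref 3234 [0, 1, 2, 3, 4] [1, 1, 1, 1, 1], .ref 3182 [0, 1, 3, 4] [4, 1, 1, 1], .ref 3258 [0, 1, 2, 3, 4] [1, 1, 1, 1, 1]]),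
([m 0 0, g, s 3 0, g, p 0 1, g, s 1 0, m 0 2, g, m 2 3, g], .leaf [2, 8, 8, 6, 1]),
([m 0 1, g, p 0 2, g, s 4 0, g, s 2 0, m 1 3, g, m 3 4, g], .leaf [8, 9, 7, 3, 6, 0, 3]),
([m 0 1, g, p 0 2, g, s 2 0, m 1 3, g, s 4 0, g, m 3 4, g], .leaf [6, 9, 7, 1, 6, 2, 1]),
([m 0 1, g, p 0 2, g, s 2 0, m 1 3, g, m 3 4, g, s 4 0, g], .leaf [6, 7, 5, 1, 4, 0, 3])]

def d12_3 : List (List Item × Pf) := [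
([m 0 1, g, p 0 2, g, s 2 0, m 1 3, g, m 3 4, g, m 4 0, g], .leaf [7, 9, 8, 8, 6, 1, 5, 1]),
([m 0 1, g, p 0 2, g, s 2 0, m 1 3, g, m 3 0, g], .inner (.hi 7) [.cyc [0, 5, 7], .ref 3260 [0, 2, 3, 4] [1, 1, 1, 1, 1], .ref 2622 [0, 1, 4] [1, 4, 1, 1], .ref 2623 [0, 4] [1, 6, 1], .ref 2622 [0, 1, 4] [1, 2, 1, 1], .ref 3261 [0, 1, 2, 3, 4] [1, 1, 1, 1, 1], .ref 2622 [0, 1, 4] [3, 2, 1, 1], .ref 2623 [0, 4] [3, 4, 1], .ref 3262 [0, 1, 2, 3, 4] [1, 1, 1, 1, 1], .ref 3170 [0, 1, 3, 4] [4, 1, 1, 1], .ref 2623 [0, 4] [6, 1, 1], .ref 3263 [0, 1, 2, 3, 4] [1, 1, 1, 1, 1], .ref 3182 [0, 1, 3, 4] [4, 1, 1, 1], .ref 3264 [0, 1, 2, 3, 4] [1, 1, 1, 1, 1]]),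
([m 3 1, g, m 0 2, g, s 2 3, g, m 1 4, g, m 4 0, g], .leaf [4, 3, 5, 1, 3, 1, 3, 1]),
([m 0 1, g, s 3 0, g, m 0 2, g, s 2 3, m 1 4, g, m 4 0, g], .leaf [5, 7, 1, 4, 6, 2, 3]),
([m 0 1, g, p 3 0, g, m 0 2, g, s 2 3, m 1 4, g, m 4 0, g], .leaf [5, 7, 1, 4, 6, 2, 3]),
([m 0 1, g, m 3 0, g, m 0 2, g, s 2 3, g, m 1 4, g, m 4 0, g], .leaf [6, 3, 7, 1, 5, 1, 5, 1]),
([m 0 1, g, m 0 2, g, s 3 0, g, s 2 3, m 1 4, g, m 4 0, g], .leaf [5, 7, 1, 2, 6, 4, 1]),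
([m 0 1, g, m 0 2, g, p 3 0, g, s 2 3, m 1 4, g, m 4 0, g], .leaf [5, 7, 1, 2, 6, 4, 1]),
([m 0 1, g, m 0 2, g, m 3 0, g, s 2 3, m 1 4, g, m 4 0, g], .leaf [5, 1, 6, 1, 2, 6, 4, 1]),
([m 0 1, g, m 0 2, g, s 2 3, m 1 4, g, s 3 0, g, m 4 0, g], .leaf [3, 5, 1, 2, 6, 4, 1]),
([m 0 1, g, m 0 2, g, s 2 3, m 1 4, g, p 3 0, g, m 4 0, g], .leaf [3, 5, 1, 2, 6, 4, 1]),
([m 0 1, g, m 0 2, g, s 2 3, g, m 1 4, g, m 3 0, g, m 4 0, g], .leaf [3, 8, 3, 1, 2, 3, 5, 3]),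
([m 0 1, g, m 0 2, g, s 2 3, m 1 4, g, m 4 0, g, s 3 0, g], .leaf [3, 5, 1, 2, 4, 2, 3]),
([m 0 1, g, m 0 2, g, s 2 3, m 1 4, g, m 4 0, g, p 3 0, g], .leaf [3, 5, 1, 2, 4, 2, 3]),
([m 0 1, g, m 0 2, g, s 2 3, g, m 1 4, g, m 4 0, g, m 3 0, g], .leaf [3, 10, 5, 1, 4, 5, 3, 1]),
([m 0 1, g, m 0 2, g, s 2 0, m 1 3, g, m 3 0, g], .inner (.hi 4) [.ref 3266 [0, 1, 2, 4, 3] [1, 1, 0, 1, 1], .ref 3267 [0, 1, 2, 4, 3] [1, 1, 1, 1, 1], .ref 3268 [0, 1, 2, 4, 3] [1, 1, 1, 1, 1], .ref 3269 [0, 1, 2, 4, 3] [1, 1, 1, 0, 1, 1], .cyc [2, 4], .ref 3270 [0, 1, 2, 4, 3] [1, 1, 1, 1, 1], .ref 3271 [0, 1, 2, 4, 3] [1, 1, 1, 1, 1], .ref 3272 [0, 1, 2, 4, 3] [1, 1, 1, 1, 1], .ref 3273 [0, 1, 2, 4, 3] [1, 1, 1, 1, 1], .ref 3274 [0, 1, 2, 4, 3]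 [1, 1, 1, 1, 1], .ref 3275 [0, 1, 2, 4, 3] [1, 1, 0, 1, 1, 1], .ref 3276 [0, 1, 2, 4, 3] [1, 1, 1, 1, 1], .ref 3277 [0, 1, 2, 4, 3] [1, 1, 1, 1, 1], .ref 3278 [0, 1, 2, 4, 3] [1, 1, 0, 1, 1, 1]]),
([m 2 1, g, s 4 0, g, s 0 2, m 1 3, g, m 3 4, g], .leaf [6, 7, 5, 3, 4, 0, 1]),
([m 2 1, g, s 0 2, m 1 3, g, s 4 0, g, m 3 4, g], .leaf [4, 7, 5, 1, 4, 2, 1]),
([m 2 1, g, s 0 2, m 1 3, g, m 3 4, g, s 4 0, g], .leaf [4, 5, 3, 1, 2, 0, 1]),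
([m 2 1, g, s 0 2, m 1 3, g, m 3 0, g], .inner (.hi 5) [.ref 3280 [0, 1, 2, 3, 4] [1, 1, 1, 1], .ref 2622 [0, 1, 4] [1, 2, 1, 1], .ref 2623 [0, 4] [1, 4, 1], .cyc [0, 3, 5, 2], .ref 3281 [0, 1, 2, 3, 4] [1, 1, 1, 1], .ref 3170 [0, 1, 3, 4] [2, 1, 1, 1], .ref 2623 [0, 4] [4, 1, 1], .ref 3282 [0, 1, 2, 3, 4] [1, 1, 1, 1], .ref 3182 [0, 1, 3, 4] [2, 1, 1, 1], .ref 3235 [0, 1, 2, 3, 4] [1, 1, 1, 1]]),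
([m 0 1, g, s 2 0, g, s 4 2, m 1 3, g, s 0 4, g, m 3 0, g], .leaf [3, 5, 1, 4, 6, 2, 3]),
([m 0 1, g, p 2 0, g, s 4 2, m 1 3, g, s 0 4, g, m 3 0, g], .leaf [3, 5, 1, 4, 6, 2, 3]),
([m 0 1, g, s 2 0, g, m 3 2, g, s 0 3, m 1 4, g, m 4 0, g], .leaf [3, 7, 3, 4, 6, 4, 1]),
([m 0 1, g, m 0 2, g, s 2 0, g, s 4 0, m 1 3, g, s 0 4, g, m 3 0, g], .leaf [3, 7, 3, 4, 8, 6, 3]),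
([m 0 1, g, m 3 2, g, m 2 0, g, s 0 3, m 1 4, g, m 4 0, g], .leaf [6, 3, 6, 0, 1, 6, 4, 1]),
([m 0 1, g, m 3 2, g, s 0 3, m 1 4, g, s 2 0, g, m 4 0, g], .leaf [1, 5, 3, 4, 6, 4, 1]),
([m 0 1, g, m 3 2, g, s 0 3, m 1 4, g, m 2 0, g, m 4 0, g], .leaf [5, 2, 7, 3, 7, 2, 2, 3]),
([m 0 1, g, m 0 2, g, s 4 0, m 1 3, g, s 0 4, g, m 3 0, g, s 2 0, g], .leaf [1, 5, 3, 8, 3, 4, 1]),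
([m 0 1, g, m 3 2, g, s 0 3, m 1 4, g, m 4 0, g, m 2 0, g], .leaf [5, 7, 6, 1, 7, 5, 3, 1]),
([m 0 1, g, m 2 0, g, s 4 2, m 1 3, g, s 0 4, g, m 3 0, g], .inner (.hi 2) [.ref 2504 [0, 5] [1, 8], .ref 3286 [0, 1, 5, 2, 3] [1, 1, 1, 3, 1], .ref 2656 [0, 1, 5] [1, 1, 2, 5], .ref 2623 [0, 5] [1, 1, 8], .ref 3287 [0, 1, 5, 3, 4] [1, 1, 1, 1, 1, 1], .ref 2641 [0, 1, 5] [1, 1, 2, 5], .ref 3288 [0, 1, 5, 2, 3] [1, 1, 1, 3, 1], .ref 3289 [0, 1, 5, 2, 3] [1, 1, 1, 3, 1], .ref 2613 [0, 1, 5] [1, 2, 1, 5], .ref 3290 [0, 1, 5, 2, 3] [1, 1, 1, 3, 1], .cyc [2, 7, 4], .ref 3289 [0, 1, 5, 2, 3] [1, 1, 3, 1, 1], .ref 2613 [0, 1, 5] [1, 2, 3, 3], .ref 3290 [0, 1, 5, 2, 3] [1, 1, 3, 1, 1], .ref 3291 [0, 1, 5, 3, 4] [1, 1, 1, 1, 1, 1], .ref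 2613 [0, 1, 5] [1, 2, 5, 1], .ref 3292 [0, 1, 5, 2, 3] [1, 1, 3, 1, 1]]),
([m 0 1, g, s 4 2, m 1 3, g, s 2 0, g, s 0 4, g, m 3 0, g], .leaf [1, 3, 1, 4, 6, 2, 3]),
([m 0 1, g, s 4 2, m 1 3, g, p 2 0, g, s 0 4, g, m 3 0, g], .leaf [1, 3, 1, 4, 6, 2, 3]),
([m 0 1, g, s 4 2, m 1 3, g, m 2 0, g, s 0 4, g, m 3 0, g], .leaf [6, 4, 5, 3, 6, 2, 3]),
([m 0 1, g, s 4 2, m 1 3, g, s 0 4, g, s 2 0, g, m 3 0, g], .leaf [1, 3, 1, 2, 6, 4, 1]),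
([m 0 1, g, s 4 2, m 1 3, g, s 0 4, g, p 2 0, g, m 3 0, g], .leaf [1, 3, 1, 2, 6, 4, 1]),
([m 0 1, g, s 4 0, g, s 3 0, m 1 2, g, s 0 3, g, m 0 4, g, m 2 0, g], .leaf [1, 5, 3, 6, 8, 4, 5]),
([m 0 1, g, s 4 2, m 1 3, g, s 5 0, g, s 0 4, g, m 2 5, g, m 3 0, g], .leaf [8, 9, 2, 3, 1, 2, 6, 4, 1]),
([m 0 1, g, s 4 2, m 1 3, g, s 0 4, g, s 5 0, g, m 2 5, g, m 3 0, g], .leaf [8, 9, 2, 3, 1, 4, 6, 2, 3]),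
([m 0 1, g, s 4 2, m 1 3, g, s 0 4, g, m 2 5, g, s 5 0, g, m 3 0, g], .leaf [6, 7, 2, 3, 1, 4, 6, 2, 3]),
([m 0 1, g, s 3 0, m 1 2, g, s 0 3, g, m 0 4, g, m 2 0, g, s 4 0, g], .leaf [10, 5, 6, 1, 3, 6, 3]),
([m 0 1, g, s 4 2, m 1 3, g, s 0 4, g, m 2 0, g, m 3 0, g], .inner (.hi 7) [.ref 2504 [0, 5] [6, 3], .ref 3299 [0, 1, 3, 4, 5] [1, 1, 1, 1, 1, 1], .ref 2622 [0, 1, 5] [1, 2, 3, 3], .ref 2623 [0, 5] [1, 6, 3], .ref 3300 [0, 1, 2, 3, 4, 5] [1, 1, 1, 1, 1, 1], .ref 3246 [0, 1, 3, 5] [2, 1, 3, 1, 1], .ref 2623 [0, 5] [4, 3, 3], .cyc [2, 7, 5], .ref 3301 [0, 1, 2, 3, 4, 5] [1, 1, 1, 1, 1, 1], .ref 3246 [0, 1, 3, 5] [2, 3, 1, 1, 1], .ref 2623 [0, 5] [6, 1, 3], .ref 3302 [0, 1, 2, 3, 4, 5] [1, 1, 1, 1, 1, 1], .ref 3248 [0,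 1, 3, 5] [2, 3, 1, 1, 1], .ref 3249 [0, 1, 2, 3, 5] [1, 0, 3, 1, 1, 1], .ref 3303 [0, 1, 3, 4, 5] [1, 1, 1, 1, 1, 1], .ref 3251 [0, 1, 3, 5] [2, 3, 1, 1, 1], .ref 3252 [0, 1, 2, 3, 5] [1, 0, 3, 1, 1, 1]]),
([m 0 1, g, s 4 2, m 1 3, g, s 0 4, g, m 3 0, g, s 2 0, g], .leaf [1, 3, 1, 2, 4, 2, 3]),
([m 0 1, g, s 4 2, m 1 3, g, s 0 4, g, m 3 0, g, p 2 0, g], .leaf [1, 3, 1, 2, 4, 2, 3]),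
([m 0 1, g, s 4 0, g, s 3 0, m 1 2, g, s 0 3, g, m 2 4, g], .leaf [1, 5, 3, 6, 6, 2, 3]),
([m 0 1, g, s 4 2, m 1 3, g, s 5 0, g, s 0 4, g, m 3 5, g, m 2 0, g], .leaf [4, 11, 8, 9, 7, 3, 3, 4, 1]),
([m 0 1, g, s 4 2, m 1 3, g, s 5 4, g, m 3 5, g, m 2 0, g], .leaf [4, 9, 6, 7, 5, 1, 1, 2, 1]),
([m 0 1, g, s 4 2, m 1 3, g, s 0 4, g, s 5 0, g, m 3 5, g, m 2 0, g], .leaf [6, 11, 6, 7, 5, 1, 1, 2, 3]),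
([m 0 1, g, s 3 0, m 1 2, g, s 0 3, g, m 2 4, g, s 4 0, g], .leaf [8, 3, 4, 1, 1, 4, 3]),
([m 0 1, g, s 4 2, m 1 3, g, s 0 4, g, m 3 0, g, m 2 0, g], .inner (.hi 7) [.cyc [0, 3, 7], .ref 3307 [0, 1, 3, 4, 5] [1, 1, 1, 1, 3], .ref 2622 [0, 1, 5] [1, 2, 3, 3], .ref 2623 [0, 5] [1, 6, 3], .ref 3308 [0, 1, 2, 3, 4, 5] [1, 1, 1, 1, 1, 1], .ref 3170 [0, 1, 3, 5] [2, 1, 3, 3], .ref 2623 [0, 5] [4, 3, 3], .ref 3309 [0, 1, 2, 3, 4, 5] [1, 1, 1, 1, 1], .ref 3310 [0, 1, 2, 3, 4, 5] [1, 1, 1, 1, 1, 1], .ref 3170 [0, 1, 3, 5] [2, 3, 1, 3], .ref 2623 [0, 5] [6, 1, 3], .ref 3311 [0, 1, 3, 4, 5] [1, 1, 1, 1, 3], .ref 3182 [0, 1, 3, 5] [2, 3, 1, 3], .ref 3257 [0, 1, 2, 3, 5] [1, 0, 3, 1, 1, 1], .ref 3311 [0, 1, 3, 4, 5] [1, 1, 1, 3, 1],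 .ref 3182 [0, 1, 3, 5] [2, 3, 3, 1], .ref 3256 [0, 1, 2, 3, 5] [1, 0, 3, 1, 1, 1]]),
([m 0 1, g, s 3 0, m 1 2, g, s 0 3, g, m 2 0, g], .inner (.hi 2) [.ref 3283 [0, 1, 4, 2] [1, 3, 1], .ref 3284 [0, 1, 4, 2, 3] [1, 1, 1, 1, 1], .ref 3285 [0, 1, 4, 2, 3] [1, 1, 1, 1, 1], .ref 3293 [0, 1, 4, 2, 3] [1, 1, 1, 1, 1], .ref 3294 [0, 1, 4, 2, 3] [1, 1, 1, 1, 1], .ref 3295 [0, 1, 4, 2, 3] [1, 1, 1, 1, 1], .ref 3296 [0, 1, 4, 2, 3] [1, 1, 1, 1, 1], .cyc [2, 5], .ref 3297 [0, 1, 4, 2, 3] [1, 1, 1, 1, 1], .ref 3298 [0, 1, 4, 2, 3] [1, 1, 1, 1, 1], .ref 3304 [0, 1, 4, 2, 3] [1, 1, 1, 1, 1], .ref 3305 [0, 1, 4, 2, 3] [1, 1, 1, 1, 1], .ref 3306 [0, 1, 4, 2, 3] [1, 1, 1, 1, 1], .ref 3312 [0, 1, 4, 2, 3] [1, 1, 1, 1, 1]]),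
([m 0 1, g, s 0 2, g, s 3 0, g, s 0 3, m 1 4, g, p 2 0, g, m 4 0, g], .leaf [1, 7, 5, 6, 8, 6, 1]),
([m 0 1, g, s 3 0, g, s 0 2, g, s 0 3, m 1 4, g, p 2 0, g, m 4 0, g], .leaf [3, 7, 3, 6, 8, 4, 5]),
([m 0 1, g, s 2 0, g, s 0 2, m 1 3, g, s 0 4, g, p 4 0, g, m 3 0, g], .leaf [6, 11, 9, 1, 8, 4, 1]),
([m 0 1, g, s 2 0, g, s 0 2, m 1 3, g, p 4 0, g, s 0 4, g, m 3 0, g], .leaf [6, 11, 9, 1, 8, 4, 1]),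
([m 0 1, g, s 3 0, g, m 1 2, g, p 4 3, g, p 0 4, g, m 2 0, g], .leaf [6, 3, 5, 3, 7, 3, 5, 3]),
([m 0 1, g, s 2 0, g, s 0 2, m 1 3, g, p 4 0, g, m 3 0, g, s 0 4, g], .leaf [6, 9, 7, 1, 6, 2, 5]),
([m 0 1, g, s 3 0, g, m 1 2, g, p 4 3, g, m 2 0, g, p 0 4, g], .leaf [6, 3, 5, 3, 5, 1, 5, 1]),
([m 0 1, g, m 1 2, g, p 3 0, g, m 2 0, g, m 0 3, g], .leaf [3, 6, 4, 4, 2, 3]),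
([m 0 1, g, s 2 0, g, s 4 2, m 1 3, g, p 0 4, g, m 3 0, g], .inner (.lo 7) [.ref 3314 [0, 1, 5, 2, 3] [1, 1, 1, 1, 1, 1], .ref 2612 [0, 5] [1, 6, 3], .ref 2613 [0, 1, 5] [1, 4, 1, 3], .cyc [2, 7, 4], .ref 3315 [0, 1, 5, 2, 3] [1, 1, 1, 1, 1, 1], .ref 2612 [0, 5] [3, 4, 3], .ref 2613 [0, 1, 5] [3, 2, 1, 3], .ref 3316 [0, 1, 2, 3, 5] [1, 1, 1, 1, 1, 1], .ref 2612 [0, 5] [6, 1, 3], .ref 3248 [0, 1, 3, 5] [4, 1, 1, 1, 1], .ref 3317 [0, 1, 2, 3, 5] [1, 1, 1, 1, 1, 1], .ref 3318 [0, 1, 3, 4, 5] [3, 0, 1, 1, 1, 1], .ref 3246 [0, 1, 3, 5] [4, 1, 1, 1, 1], .ref 3170 [0, 1, 3, 5] [4, 1, 1, 1], .ref 3319 [0, 1, 2, 3, 5] [1, 1, 1, 1, 1, 1], .ref 3320 [0, 1, 3, 4, 5] [3, 0, 1, 1, 1, 1], .ref 3321 [0, 1, 3, 5] [4, 1, 1, 1, 1]]),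
([m 0 1, g, p 2 0, g, s 4 2, g, m 1 3, g, p 0 4, g, m 3 0, g], .leaf [3, 8, 3, 1, 2, 3, 5, 3]),
([m 0 1, g, m 2 0, g, s 4 2, g, m 1 3, g, p 0 4, g, m 3 0, g], .leaf [2, 3, 7, 3, 5, 3, 5, 1]),
([m 0 1, g, s 0 2, g, s 0 3, m 1 4, g, s 3 0, g, p 2 0, g, m 4 0, g], .leaf [1, 5, 3, 6, 8, 4, 5]),
([m 0 1, g, s 5 2, m 1 3, g, s 0 4, g, s 2 0, g, p 4 5, g, m 3 0, g], .leaf [8, 9, 2, 3, 1, 2, 6, 4, 1]),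
([m 0 1, g, s 5 2, m 1 3, g, s 2 0, g, s 0 4, g, p 4 5, g, m 3 0, g], .leaf [8, 9, 2, 3, 1, 4, 6, 2, 3])]

def D12 : List (List (List Item × Pf)) := [d12_0, d12_1, d12_2, d12_3]

end Pool.Agent.H63.PU.C138
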