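import Pool.Agent.H63.PU.Short

/-! Certificate data, machine generated. -/

namespace Pool.Agent.H63.PU.C138

open Pool.Agent.H63.PU Pool.Agent.H63.PU.Short

set_option maxRecDepth 20000

def d13_0 : List (List Item × Pf) := [
([m 0 1, g, s 4 2, m 1 3, g, s 2 0, g, p 5 4, g, s 0 5, g, m 3 0, g], .leaf [6, 7, 2, 3, 1, 4, 6, 2, 3]),
([m 0 1, g, s 0 2, m 1 3, g, s 2 0, g, p 4 0, g, m 3 0, g, s 0 4, g], .leaf [10, 5, 6, 1, 3, 6, 3]),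
([m 0 1, g, s 4 2, m 1 3, g, s 2 0, g, p 0 4, g, m 3 0, g], .inner (.lo 7) [.ref 3325 [0, 1, 5, 2, 3] [1, 1, 1, 1, 1, 1], .ref 2612 [0, 5] [1, 6, 3], .ref 2613 [0, 1, 5] [1, 2, 3, 3], .ref 3326 [0, 1, 2, 3, 5, 4] [1, 1, 1, 1, 1, 1], .ref 2612 [0, 5] [4, 3, 3], .ref 3248 [0, 1, 3, 5] [2, 1, 3, 1, 1], .cyc [2, 5, 7], .ref 3327 [0, 1, 2, 3, 5, 4] [1, 1, 1, 1, 1, 1], .ref 2612 [0, 5] [6, 1, 3], .ref 3248 [0, 1, 3, 5] [2, 3, 1, 1, 1], .ref 3328 [0, 1, 2, 3, 4, 5] [1, 1, 1, 1, 1, 1], .ref 3318 [0, 1, 3, 4, 5] [1, 0, 3, 1, 1, 1], .ref 3246 [0, 1, 3, 5] [2, 3, 1, 1, 1], .ref 3170 [0, 1, 3, 5] [2, 3, 1, 1], .ref 3329 [0, 1, 2, 3, 5] [1, 1, 1, 1, 1, 1], .ref 3320 [0, 1, 3, 4, 5] [1, 0, 3, 1, 1, 1], .ref 3321 [0, 1, 3, 5] [2,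 3, 1, 1, 1]]),
([m 0 0, g, s 0 1, g, s 0 2, m 0 3, g, p 2 0, g, p 1 0, g, m 3 0, g], .leaf [2, 8, 10, 6, 7]),
([m 0 1, g, s 5 2, m 1 3, g, s 0 4, g, p 2 0, g, p 4 5, g, m 3 0, g], .leaf [8, 9, 2, 3, 1, 2, 6, 4, 1]),
([m 0 1, g, s 5 2, m 1 3, g, p 2 0, g, s 0 4, g, p 4 5, g, m 3 0, g], .leaf [8, 9, 2, 3, 1, 4, 6, 2, 3]),
([m 0 1, g, s 4 2, m 1 3, g, p 2 0, g, p 5 4, g, s 0 5, g, m 3 0, g], .leaf [6, 7, 2, 3, 1, 4, 6, 2, 3]),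
([m 0 1, g, s 0 2, m 1 3, g, p 2 0, g, p 4 0, g, m 3 0, g, s 0 4, g], .leaf [10, 5, 6, 1, 3, 6, 3]),
([m 0 1, g, s 4 2, m 1 3, g, p 2 0, g, p 0 4, g, m 3 0, g], .inner (.lo 7) [.ref 3331 [0, 5, 2, 3] [1, 1, 1, 1, 1, 1], .ref 2612 [0, 5] [1, 6, 3], .ref 2613 [0, 1, 5] [1, 2, 3, 3], .ref 3332 [0, 1, 2, 3, 5, 4] [1, 1, 1, 1, 1, 1], .ref 2612 [0, 5] [4, 3, 3], .ref 3248 [0, 1, 3, 5] [2, 1, 3, 1, 1], .cyc [2, 5, 7], .ref 3333 [0, 1, 2, 3, 5, 4] [1, 1, 1, 1, 1, 1], .ref 2612 [0, 5] [6, 1, 3], .ref 3248 [0, 1, 3, 5] [2, 3, 1, 1, 1], .ref 3334 [0, 1, 2, 3, 4, 5] [1, 1, 1, 1, 1, 1], .ref 3318 [0, 1, 3, 4, 5] [1, 0, 3, 1, 1, 1], .ref 3246 [0, 1, 3, 5] [2, 3, 1, 1, 1], .ref 3170 [0, 1, 3, 5] [2, 3, 1, 1], .ref 3335 [0, 1, 2, 3,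 5] [1, 1, 1, 1, 1, 1], .ref 3320 [0, 1, 3, 4, 5] [1, 0, 3, 1, 1, 1], .ref 3321 [0, 1, 3, 5] [2, 3, 1, 1, 1]]),
([m 0 1, g, s 4 2, g, m 1 3, g, m 2 0, g, p 0 4, g, m 3 0, g], .leaf [1, 6, 3, 6, 2, 3, 5, 1]),
([m 0 1, g, s 4 2, m 1 3, g, p 0 4, g, s 2 0, g, m 3 0, g], .leaf [6, 4, 5, 3, 6, 2, 3]),
([m 0 1, g, s 4 2, m 1 3, g, p 0 4, g, p 2 0, g, m 3 0, g], .leaf [6, 4, 5, 3, 6, 2, 3]),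
([m 0 1, g, s 4 2, g, m 1 3, g, p 0 4, g, m 2 0, g, m 3 0, g], .leaf [1, 6, 3, 6, 2, 3, 5, 1]),
([m 0 1, g, s 4 2, m 1 3, g, p 0 4, g, m 3 0, g, s 2 0, g], .leaf [8, 6, 7, 5, 1, 4, 1]),
([m 0 1, g, s 4 2, m 1 3, g, p 0 4, g, m 3 0, g, p 2 0, g], .leaf [8, 6, 7, 5, 1, 4, 1]),
([m 0 1, g, s 4 2, g, m 1 3, g, p 0 4, g, m 3 0, g, m 2 0, g], .leaf [1, 10, 7, 1, 6, 3, 1, 3]),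
([m 0 1, g, s 3 0, m 1 2, g, p 0 3, g, m 2 0, g], .inner (.hi 2) [.ref 3283 [0, 1, 4, 2] [1, 3, 1], .ref 3322 [0, 1, 4, 2, 3] [1, 1, 1, 1, 1], .ref 3323 [0, 1, 4, 2, 3] [1, 1, 0, 1, 1, 1], .ref 3324 [0, 1, 4, 2, 3] [1, 1, 0, 1, 1, 1], .ref 3330 [0, 1, 4, 2, 3] [1, 1, 1, 1, 1], .ref 3336 [0, 1, 4, 2, 3] [1, 1, 1, 1, 1], .ref 3337 [0, 1, 4, 2, 3] [1, 0, 1, 1, 1, 1], .cyc [2, 5], .ref 3338 [0, 1, 4, 2, 3] [1, 1, 1, 1, 1], .ref 3339 [0, 1, 4, 2, 3] [1, 1, 1, 1, 1], .ref 3340 [0, 1, 4, 2, 3] [1, 0, 1, 1, 1, 1], .ref 3341 [0, 1, 4, 2, 3] [1, 1, 1, 1, 1], .ref 3342 [0, 1, 4, 2, 3] [1, 1, 1, 1, 1], .ref 3343 [0, 1, 4, 2, 3] [1, 0, 1, 1, 1, 1]]),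
([m 0 1, g, s 2 0, g, s 4 2, m 1 3, g, m 0 4, g, m 3 0, g], .leaf [3, 5, 1, 4, 6, 2, 3]),
([m 0 1, g, p 2 0, g, s 4 2, m 1 3, g, m 0 4, g, m 3 0, g], .leaf [3, 5, 1, 4, 6, 2, 3]),
([m 0 1, g, m 2 0, g, s 4 2, m 1 3, g, m 0 4, g, m 3 0, g], .leaf [3, 1, 4, 1, 4, 6, 2, 3]),
([m 0 1, g, s 4 2, m 1 3, g, s 2 0, g, m 0 4, g, m 3 0, g], .leaf [1, 3, 1, 4, 6, 2, 3]),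
([m 0 1, g, s 4 2, m 1 3, g, p 2 0, g, m 0 4, g, m 3 0, g], .leaf [1, 3, 1, 4, 6, 2, 3]),
([m 0 1, g, s 4 2, m 1 3, g, m 2 0, g, m 0 4, g, m 3 0, g], .leaf [6, 4, 5, 3, 6, 2, 3]),
([m 0 1, g, s 4 2, m 1 3, g, m 0 4, g, s 2 0, g, m 3 0, g], .leaf [1, 3, 1, 2, 6, 4, 1]),
([m 0 1, g, s 4 2, m 1 3, g, m 0 4, g, p 2 0, g, m 3 0, g], .leaf [1, 3, 1, 2, 6, 4, 1]),
([m 0 0, g, s 3 0, g, s 2 0, m 0 1, g, m 0 2, g, m 0 3, g, m 1 0, g], .leaf [2, 8, 10, 6, 7]),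
([m 0 1, g, s 4 2, m 1 3, g, s 5 0, g, m 0 4, g, m 2 5, g, m 3 0, g], .leaf [8, 9, 2, 3, 1, 2, 6, 4, 1]),
([m 0 1, g, s 4 2, m 1 3, g, m 0 4, g, s 5 0, g, m 2 5, g, m 3 0, g], .leaf [8, 9, 2, 3, 1, 4, 6, 2, 3]),
([m 0 1, g, s 4 2, m 1 3, g, m 0 4, g, m 2 5, g, s 5 0, g, m 3 0, g], .leaf [6, 7, 2, 3, 1, 4, 6, 2, 3]),
([m 0 1, g, s 3 0, m 1 2, g, m 0 3, g, m 0 4, g, m 2 0, g, s 4 0, g], .leaf [10, 5, 6, 1, 3, 6, 3]),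
([m 0 1, g, s 4 2, m 1 3, g, m 0 4, g, m 2 0, g, m 3 0, g], .inner (.hi 7) [.ref 2504 [0, 5] [6, 3], .ref 3353 [0, 3, 4, 5] [1, 1, 1, 1, 1, 1], .ref 2622 [0, 1, 5] [1, 2, 3, 3], .ref 2623 [0, 5] [1, 6, 3], .ref 3354 [0, 1, 2, 3, 4, 5] [1, 1, 1, 1, 1, 1], .ref 3246 [0, 1, 3, 5] [2, 1, 3, 1, 1], .ref 2623 [0, 5] [4, 3, 3], .cyc [2, 7, 5], .ref 3355 [0, 1, 2, 3, 4, 5] [1, 1, 1, 1, 1, 1], .ref 3246 [0, 1, 3, 5] [2, 3, 1, 1, 1], .ref 2623 [0, 5] [6, 1, 3], .ref 3356 [0, 1, 2, 3, 4, 5] [1, 1, 1, 1, 1, 1], .ref 3248 [0, 1, 3, 5] [2, 3, 1, 1, 1], .ref 3249 [0, 1, 2, 3, 5] [1, 0, 3, 1, 1, 1], .ref 3357 [0, 1, 3, 4, 5] [1, 1, 1, 1, 1, 1], .ref 3251 [0, 1, 3, 5] [2, 3, 1, 1, 1], .ref 3252 [0, 1, 2, 3, 5] [1, 0, 3, 1, 1, 1]]),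
([m 0 1, g, s 4 2, m 1 3, g, m 0 4, g, m 3 0, g, s 2 0, g], .leaf [1, 3, 1, 2, 4, 2, 3]),
([m 0 1, g, s 4 2, m 1 3, g, m 0 4, g, m 3 0, g, p 2 0, g], .leaf [1, 3, 1, 2, 4, 2, 3]),
([m 0 1, g, s 4 2, g, m 1 3, g, m 0 4, g, m 3 0, g, m 2 0, g], .leaf [5, 8, 6, 6, 2, 3, 5, 1]),
([m 0 1, g, s 3 0, m 1 2, g, m 0 3, g, m 2 0, g], .inner (.hi 2) [.ref 3283 [0, 1, 4, 2] [1, 3, 1], .ref 3345 [0, 1, 4, 2, 3] [1, 1, 1, 1, 1], .ref 3346 [0, 1, 4, 2, 3] [1, 1, 1, 1, 1], .ref 3347 [0, 1, 4, 2, 3] [1, 1, 1, 1, 1], .ref 3348 [0, 1, 4, 2, 3] [1, 1, 1, 1, 1], .ref 3349 [0, 1, 4, 2, 3] [1, 1, 1, 1, 1], .ref 3350 [0, 1, 4, 2, 3] [1, 1, 1, 1, 1], .cyc [2, 5], .ref 3351 [0, 1, 4, 2, 3] [1, 1, 1, 1, 1], .ref 3352 [0, 1, 4, 2, 3] [1, 1, 1,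 1, 1], .ref 3358 [0, 1, 4, 2, 3] [1, 1, 1, 1, 1], .ref 3359 [0, 1, 4, 2, 3] [1, 1, 1, 1, 1], .ref 3360 [0, 1, 4, 2, 3] [1, 1, 1, 1, 1], .ref 3361 [0, 1, 4, 2, 3] [1, 0, 1, 1, 1, 1]]),
([m 0 1, g, s 2 0, g, s 4 2, m 1 3, g, m 3 4, g], .leaf [3, 5, 1, 4, 4, 0, 1]),
([m 0 1, g, p 2 0, g, s 4 2, m 1 3, g, m 3 4, g], .leaf [3, 5, 1, 4, 4, 0, 1]),
([m 0 1, g, m 2 0, g, s 4 2, m 1 3, g, m 3 4, g], .leaf [3, 1, 4, 1, 4, 4, 0, 1]),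
([m 0 1, g, s 4 2, m 1 3, g, s 2 0, g, m 3 4, g], .leaf [1, 3, 1, 4, 4, 0, 1]),
([m 0 1, g, s 4 2, m 1 3, g, p 2 0, g, m 3 4, g], .leaf [1, 3, 1, 4, 4, 0, 1]),
([m 0 1, g, s 4 2, m 1 3, g, m 2 0, g, m 3 4, g], .leaf [6, 4, 5, 3, 4, 0, 1]),
([m 0 1, g, s 4 2, m 1 3, g, m 3 4, g, s 2 0, g], .leaf [1, 3, 1, 2, 2, 0, 1]),
([m 0 1, g, s 4 2, m 1 3, g, m 3 4, g, p 2 0, g], .leaf [1, 3, 1, 2, 2, 0, 1]),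
([m 0 1, g, s 4 2, g, m 1 3, g, m 3 4, g, m 2 0, g], .leaf [5, 6, 4, 4, 0, 1, 3, 1]),
([m 0 1, g, s 3 0, m 1 2, g, m 2 3, g], .inner (.hi 2) [.cyc [0, 3, 5, 2], .ref 3363 [0, 1, 4, 2, 3] [1, 1, 1, 1], .ref 3364 [0, 1, 4, 2, 3] [1, 1, 1, 1], .ref 3365 [0, 1, 4, 2, 3] [1, 1, 1, 1], .ref 3366 [0, 1, 4, 2, 3] [1, 1, 1, 1], .ref 3367 [0, 1, 4, 2, 3] [1, 1, 1, 1], .ref 3368 [0, 1, 4, 2, 3] [1, 1, 1, 1], .ref 3369 [0, 1, 4, 2, 3] [1, 1, 1, 1], .ref 3370 [0, 1, 4, 2, 3] [1, 1, 1, 1], .ref 3371 [0, 1, 4, 2, 3] [1, 0, 1, 1, 1]]),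
([m 0 1, g, s 2 0, g, s 0 2, m 1 3, g, m 3 4, g, s 4 0, g], .leaf [6, 7, 5, 1, 4, 0, 3]),
([m 0 1, g, p 2 0, g, s 4 2, m 1 3, g, m 3 0, g, s 0 4, g], .leaf [3, 5, 1, 6, 3, 4, 1]),
([m 0 1, g, m 2 0, g, s 0 2, m 1 3, g, m 3 4, g, s 4 0, g], .leaf [6, 7, 5, 1, 4, 0, 3]),
([m 0 1, g, s 0 2, m 1 3, g, m 3 4, g, s 2 0, g, s 4 0, g], .leaf [2, 6, 1, 6, 4, 0, 3]),
([m 0 1, g, s 0 2, g, m 1 0, m 0 3, g, p 2 0, g, s 3 0, g], .leaf [2, 6, 8, 6, 1]),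
([m 0 1, g, s 0 2, g, m 1 0, m 0 3, g, m 2 0, g, s 3 0, g], .leaf [7, 4, 6, 4, 5]),
([m 0 1, g, s 5 2, m 1 3, m 3 4, g, s 4 0, g, s 2 0, g, s 0 5, g], .leaf [9, 7, 8, 6, 1, 3, 4, 1]),
([m 0 1, g, s 0 2, g, m 1 0, m 0 3, g, s 3 0, g, p 2 0, g], .leaf [8, 6, 7, 4, 1]),
([m 0 1, g, s 0 2, g, m 1 0, m 0 3, g, s 3 0, g, m 2 0, g], .leaf [9, 6, 8, 6, 1]),
([m 0 1, g, s 5 2, m 1 3, m 3 4, g, s 4 0, g, s 0 5, g, s 2 0, g], .leaf [9, 7, 8, 6, 1, 3, 4, 1]),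
([m 0 1, g, s 4 0, m 1 2, m 2 3, g, s 3 0, g, s 0 4, g], .inner (.hi 2) [.ref 3283 [0, 1, 5, 2] [1, 0, 5], .ref 3373 [0, 1, 5, 2, 3] [1, 1, 0, 1, 3], .ref 3374 [0, 1, 5, 2, 4] [1, 1, 0, 3, 1], .ref 3375 [0, 1, 5, 2, 3] [1, 1, 0, 1, 3], .ref 3376 [0, 1, 5, 2, 3] [1, 0, 1, 1, 3], .ref 3377 [0, 1, 5, 3] [1, 0, 1, 1, 3], .ref 3378 [0, 1, 5, 3] [1, 0, 1, 1, 3], .ref 3379 [0, 1, 5, 2, 3, 4] [1, 1, 1, 1, 1], .ref 3380 [0, 1, 5, 3] [1, 0, 1, 1, 3], .ref 3381 [0, 1, 5, 3] [1, 0, 1, 1, 3], .cyc [2, 8], .ref 3382 [0, 1, 5, 2, 3, 4] [1, 1, 1, 1, 1], .ref 3380 [0, 1, 5, 3] [1, 0, 1, 3, 1], .ref 3381 [0, 1, 5, 3] [1, 0, 1, 3, 1]]),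
([m 0 1, g, m 1 2, g, m 2 3, g, m 3 4, g, s 4 0, g], .leaf [5, 6, 4, 4, 2, 2, 0, 1]),
([m 0 1, g, m 1 2, g, m 2 3, g, m 3 4, g, p 4 0, g], .leaf [5, 6, 4, 4, 2, 2, 0, 1]),
([m 2 1, g, s 0 2, g, m 1 0, m 0 3, g, m 3 4, g, m 4 0, g], .leaf [2, 1, 6, 7, 6, 6, 4, 1]),
([m 2 1, g, s 0 2, g, s 5 0, g, m 1 3, m 3 4, g, m 4 0, g, s 0 5, g], .inner (.hi 9) [.ref 3102 [0, 1, 4, 6] [1, 5, 1, 3], .ref 2622 [0, 1, 6] [1, 5, 2, 3], .ref 2623 [0, 6] [1, 8, 3], .cyc [0, 6, 7, 9, 2], .ref 3102 [0, 1, 4, 6] [3, 3, 1, 3], .ref 2622 [0, 1, 6] [3, 3, 2, 3], .ref 2623 [0, 6] [3, 6, 3], .ref 3102 [0, 1, 4, 6] [5, 1, 1, 3], .ref 2622 [0, 1, 6] [5, 1, 2, 3], .ref 2623 [0, 6] [5, 4, 3], .ref 3103 [0, 1, 4, 6, 5] [3, 1, 1, 1, 1, 1], .ref 3104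 [0, 1, 4, 6, 5] [3, 1, 1, 1, 1, 1], .ref 2623 [0, 6] [8, 1, 3], .ref 3384 [0, 1, 3, 4, 6] [5, 0, 1, 1, 3], .ref 3385 [0, 1, 3, 4, 6] [5, 0, 1, 1, 3], .ref 3386 [0, 1, 2, 4, 6] [1, 3, 1, 1, 3], .ref 3107 [0, 1, 4, 6, 5] [3, 1, 1, 1, 1], .ref 3108 [0, 1, 4, 6, 5] [3, 1, 1, 1, 1, 1], .ref 3385 [0, 1, 3, 4, 6] [5, 0, 1, 3, 1], .ref 3386 [0, 1, 2, 4, 6] [1, 3, 1, 3, 1]]),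
([m 0 1, g, s 4 0, m 1 2, m 2 3, g, m 3 0, g, s 0 4, g], .inner (.lo 0) [.ref 3387 [0, 1, 5, 2, 3, 4] [1, 1, 0, 1, 1, 1], .ref 2503 [0, 5] [1, 9], .ref 2504 [0, 5] [1, 9], .ref 3283 [0, 1, 5, 2] [1, 0, 5], .ref 3227 [0, 1, 2, 3, 5] [2, 0, 1, 1, 3], .ref 2503 [0, 5] [5, 5], .ref 2504 [0, 5] [5, 5], .cyc [0, 3, 4, 6], .ref 3225 [0, 1, 2, 3, 5] [2, 0, 1, 1, 3], .ref 2503 [0, 5] [7, 3], .ref 2504 [0, 5] [7, 3], .ref 3225 [0, 1, 2, 3, 5] [2, 0, 1, 3, 1], .ref 2503 [0, 5] [9, 1], .ref 2504 [0, 5] [9, 1]]),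
([m 0 1, g, s 4 0, m 1 2, g, m 2 3, g, s 0 4, g, s 3 0, g], .leaf [2, 6, 1, 6, 4, 0, 3]),
([m 0 1, g, s 3 0, m 1 2, m 2 0, g, s 0 3, g], .inner (.hi 4) [.cyc [0, 3, 4], .ref 2621 [0, 1, 4] [1, 2, 3], .ref 2622 [0, 1, 4] [1, 2, 0, 3], .ref 2623 [0, 4] [1, 3, 3], .ref 3383 [0, 1, 2, 4, 3] [1, 1, 1, 1], .ref 2625 [0, 1, 4, 3] [1, 0, 1, 1, 1], .ref 3388 [0, 1, 2, 4, 3] [1, 1, 1, 1], .ref 2627 [0, 1, 4, 3] [1, 0, 1, 1], .ref 3389 [0, 1, 2, 4, 3] [1, 0, 1, 1, 1], .ref 2629 [0, 1, 4, 3] [1, 0, 1, 1, 1], .ref 2630 [0, 1, 4, 3] [1, 0, 1, 1, 1]]),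
([m 0 1, g, m 0 2, g, s 4 0, m 1 3, g, s 2 0, g, m 3 0, g, s 0 4, g], .leaf [1, 5, 3, 4, 6, 4, 5])]

def d13_1 : List (List Item × Pf) := [
([m 0 1, g, s 4 2, m 1 3, g, s 2 0, g, m 3 0, g, s 0 4, g], .leaf [1, 3, 1, 6, 3, 4, 1]),
([m 2 1, g, p 3 0, g, s 0 2, g, m 1 0, s 4 3, g, s 0 4, g], .leaf [4, 3, 8, 1, 6, 4, 1]),
([m 2 1, g, s 0 2, g, p 3 0, g, m 1 0, s 4 3, g, s 0 4, g], .leaf [2, 1, 8, 1, 4, 2, 3]),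
([m 0 1, g, s 5 0, m 1 2, s 4 3, g, s 3 0, g, s 0 4, g, m 2 0, g, s 0 5, g], .leaf [5, 10, 7, 9, 4, 2, 4, 1]),
([m 2 1, g, s 0 2, g, m 1 0, s 4 3, g, p 3 0, g, s 0 4, g], .leaf [2, 1, 4, 6, 1, 4, 1]),
([m 2 1, g, s 0 2, g, m 1 0, s 4 3, g, m 3 0, g, s 0 4, g], .leaf [2, 1, 6, 1, 6, 4, 1]),
([m 0 1, g, s 5 0, m 1 2, s 4 3, g, s 0 4, g, s 3 0, g, m 2 0, g, s 0 5, g], .leaf [5, 10, 7, 9, 4, 2, 4, 1]),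
([m 2 1, g, s 0 2, g, m 1 0, s 4 3, g, s 0 4, g, p 3 0, g], .leaf [2, 1, 4, 6, 1, 4, 1]),
([m 0 1, g, m 1 2, s 4 3, g, s 0 4, g, m 2 0, g, s 3 0, g], .leaf [1, 3, 7, 3, 5, 0, 1]),
([m 0 1, g, s 4 0, m 1 2, s 0 3, g, m 2 0, g, s 3 4, g], .leaf [2, 7, 1, 6, 3, 0, 3]),
([m 2 1, g, s 0 2, g, s 5 0, m 1 3, s 4 0, g, s 0 4, g, m 3 0, g, s 0 5, g], .inner (.hi 6) [.ref 2588 [0, 1, 6] [1, 4, 7], .ref 3393 [0, 1, 2, 6, 4] [1, 1, 2, 1, 5], .ref 2596 [0, 1, 6] [1, 4, 7], .ref 2588 [0, 1, 6] [1, 2, 7], .ref 2588 [0, 1, 6] [3, 2, 7], .ref 3394 [0, 1, 2, 6, 4] [1, 1, 2, 1, 5], .ref 2596 [0, 1, 6] [3, 2, 7], .ref 3395 [0, 1, 3, 6, 4, 5] [3, 1, 1, 1, 1, 1], .ref 3396 [0, 1, 2, 6, 4] [1, 2, 1, 1, 5], .ref 3397 [0, 1, 2, 6, 4] [1, 2,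 1, 1, 5], .cyc [6, 8], .ref 3398 [0, 1, 3, 6, 4, 5] [3, 1, 1, 1, 1, 1], .ref 3399 [0, 1, 2, 6, 4] [1, 2, 1, 1, 5], .ref 2919 [0, 1, 2, 6, 4] [1, 2, 1, 1, 5], .ref 3400 [0, 1, 3, 6, 4] [4, 1, 1, 1, 3], .ref 3399 [0, 1, 2, 6, 4] [1, 2, 1, 3, 3], .ref 2919 [0, 1, 2, 6, 4] [1, 2, 1, 3, 3], .ref 3401 [0, 1, 3, 6, 5] [3, 3, 1, 1], .ref 3400 [0, 1, 3, 6, 4] [4, 1, 1, 3, 1], .ref 3399 [0, 1, 2, 6, 4] [1, 2, 1, 5, 1], .ref 2919 [0, 1, 2, 6, 4] [1, 2, 1, 5, 1]]),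
([m 3 1, g, m 1 2, s 4 0, g, s 0 3, g, s 0 4, g, m 2 0, g], .leaf [0, 4, 8, 5, 3, 4, 1]),
([m 4 1, g, m 1 2, s 3 0, g, s 0 3, g, s 0 4, g, m 2 0, g], .leaf [7, 6, 6, 4, 1, 5, 1]),
([m 4 1, g, m 1 2, s 3 0, g, s 0 3, g, m 2 0, g, s 0 4, g], .leaf [9, 8, 8, 6, 1, 5, 1]),
([m 0 1, g, s 4 0, m 1 2, s 3 0, g, s 0 3, g, m 2 0, g, s 0 4, g], .inner (.lo 0) [.ref 3402 [0, 1, 5, 2, 3, 4] [1, 1, 1, 1, 1, 1], .ref 2503 [0, 5] [1, 11], .ref 2504 [0, 5] [1, 11], .ref 3283 [0, 1, 5, 2] [1, 4, 3], .ref 2594 [0, 1, 5] [2, 7], .ref 3403 [0, 1, 2, 5, 3] [2, 1, 1, 1, 3], .ref 2503 [0, 5] [5, 7], .ref 2504 [0, 5] [5, 7], .ref 3404 [0, 1, 2, 3, 5] [2, 1, 1, 1, 3], .ref 2503 [0, 5] [7, 5], .ref 2504 [0, 5] [7, 5], .cyc [0, 3, 8], .ref 3405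 [0, 1, 2, 3, 5] [2, 1, 1, 1, 3], .ref 2503 [0, 5] [9, 3], .ref 2504 [0, 5] [9, 3], .ref 3405 [0, 1, 2, 3, 5] [2, 1, 1, 3, 1], .ref 2503 [0, 5] [11, 1], .ref 2504 [0, 5] [11, 1]]),
([m 0 1, g, s 2 0, g, s 0 2, m 1 3, g, s 4 0, g, p 0 4, g, m 3 0, g], .leaf [9, 1, 10, 6, 1, 5, 1]),
([m 0 0, g, m 1 0, g, s 0 1, m 0 2, g, s 3 0, g, p 0 3, g, m 2 0, g], .leaf [9, 1, 10, 6, 1]),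
([m 0 1, g, s 0 2, g, m 1 0, s 3 0, g, p 2 0, g, p 0 3, g], .leaf [2, 6, 8, 6, 1]),
([m 0 1, g, s 4 2, m 1 3, g, m 2 0, g, m 3 0, g, s 0 4, g], .leaf [8, 6, 7, 5, 1, 4, 1]),
([m 0 1, g, s 0 2, g, m 1 0, s 3 0, g, p 2 3, g], .leaf [2, 6, 6, 4, 1]),
([m 0 0, g, s 0 1, m 0 2, g, s 3 0, g, p 0 3, g, p 1 0, g, m 2 0, g], .leaf [7, 1, 10, 6, 3]),
([m 0 1, g, p 3 0, g, m 1 2, s 4 3, g, p 0 4, g, m 2 0, g], .leaf [7, 1, 8, 5, 1, 4, 1]),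
([m 2 1, g, s 0 2, g, m 1 0, s 4 3, g, s 3 0, g, p 0 4, g], .leaf [2, 1, 6, 1, 6, 4, 1]),
([m 2 1, g, m 1 0, s 3 0, g, s 0 2, g, p 0 3, g], .leaf [0, 4, 6, 4, 1]),
([m 4 1, g, m 1 2, s 0 3, g, s 3 0, g, s 0 4, g, m 2 0, g], .leaf [7, 6, 6, 4, 1, 5, 1]),
([m 4 1, g, m 1 2, s 0 3, g, s 3 0, g, m 2 0, g, s 0 4, g], .leaf [9, 8, 8, 6, 1, 5, 1]),
([m 0 1, g, m 1 2, s 4 3, g, s 3 0, g, p 0 4, g, m 2 0, g], .inner (.lo 0) [.ref 3414 [0, 1, 5, 3, 4] [1, 1, 1, 1, 3], .ref 2503 [0, 5] [1, 10], .ref 2504 [0, 5] [1, 10], .ref 3415 [0, 1, 5, 4] [1, 1, 3, 3], .ref 2503 [0, 5] [4, 7], .ref 2504 [0, 5] [4, 7], .ref 2823 [0, 1, 3, 5] [1, 1, 5], .ref 3416 [0, 1, 2, 3, 5] [1, 1, 1, 3, 1], .ref 2503 [0, 5] [6, 5], .ref 2504 [0, 5] [6,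 5], .ref 3416 [0, 1, 2, 3, 5] [1, 1, 3, 1, 1], .ref 2503 [0, 5] [8, 3], .ref 2504 [0, 5] [8, 3], .cyc [0, 2, 9], .ref 3417 [0, 1, 2, 3, 5] [1, 1, 3, 1, 1], .ref 2503 [0, 5] [10, 1], .ref 2504 [0, 5] [10, 1]]),
([m 0 1, g, s 0 2, g, m 1 3, s 0 4, g, p 4 0, g, m 3 0, g, s 2 0, g], .leaf [10, 8, 9, 6, 1, 5, 1]),
([m 0 1, g, s 0 2, g, m 1 0, s 4 3, g, m 3 0, g, p 0 4, g, s 2 0, g], .leaf [1, 7, 1, 7, 5, 2, 5]),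
([m 0 1, g, s 0 2, m 1 3, s 5 4, g, p 0 5, g, s 4 0, g, m 3 0, g, s 2 0, g], .leaf [6, 1, 9, 6, 8, 4, 2, 3]),
([m 0 1, g, s 0 2, g, m 1 0, s 4 3, g, p 0 4, g, p 3 0, g, s 2 0, g], .leaf [10, 1, 3, 6, 7, 4, 1]),
([m 0 1, g, s 0 2, g, m 1 0, s 4 3, g, p 0 4, g, m 3 0, g, s 2 0, g], .leaf [1, 7, 1, 7, 5, 2, 5]),
([m 0 1, g, s 5 2, m 1 3, s 0 4, g, m 3 0, g, s 4 0, g, s 2 0, g, s 0 5, g], .leaf [11, 9, 10, 8, 3, 5, 6, 1]),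
([m 0 1, g, s 0 2, m 1 3, s 5 4, g, p 0 5, g, m 3 0, g, s 2 0, g, s 4 0, g], .leaf [6, 1, 7, 4, 6, 8, 6, 1]),
([m 0 1, g, s 0 2, m 1 3, g, s 0 4, g, m 3 0, g, s 2 0, g, p 4 0, g], .leaf [2, 8, 3, 8, 4, 0, 3]),
([m 0 1, g, s 0 2, g, m 1 0, s 4 3, g, p 0 4, g, s 2 0, g, m 3 0, g], .leaf [1, 7, 1, 9, 7, 2, 3]),
([m 0 1, g, s 5 2, m 1 3, s 4 0, g, p 0 4, g, m 3 0, g, s 2 0, g, s 0 5, g], .inner (.hi 4) [.ref 2594 [0, 1, 6] [2, 9], .ref 2588 [0, 1, 6] [1, 2, 9], .ref 3413 [0, 1, 3, 6, 4] [1, 2, 1, 1, 5], .ref 2596 [0, 1, 6] [1, 2, 9], .ref 3418 [0, 1, 3, 6, 4] [2, 1, 1, 1, 5], .ref 3419 [0, 1, 2, 3, 6] [1, 0, 1, 3, 1, 3], .ref 3420 [0, 1, 2, 6, 4] [1, 0, 1, 1, 3, 3], .cyc [4, 6], .ref 3421 [0, 1, 2, 3, 6, 4] [1, 1, 1, 1,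 1, 3], .ref 3422 [0, 1, 2, 6, 4] [1, 0, 1, 1, 3, 3], .ref 3423 [0, 1, 2, 6, 4] [1, 0, 1, 1, 3, 3], .ref 3424 [0, 1, 2, 3, 6, 5] [1, 3, 1, 1, 1, 1], .ref 3422 [0, 1, 2, 6, 4] [1, 0, 1, 3, 1, 3], .ref 3423 [0, 1, 2, 6, 4] [1, 0, 1, 3, 1, 3], .ref 3425 [0, 1, 2, 3, 6, 4] [1, 1, 1, 1, 1, 3], .ref 3426 [0, 1, 2, 3, 6] [1, 0, 3, 1, 1, 3], .ref 3427 [0, 1, 2, 6, 4] [1, 0, 1, 3, 1, 3], .ref 3425 [0, 1, 2, 3, 6, 4] [1, 1, 1, 1, 1, 1], .ref 3425 [0, 1, 2, 3, 6, 4] [1, 1, 1, 1, 3, 1], .ref 3426 [0, 1, 2, 3, 6] [1, 0, 3, 1, 3, 1], .ref 3427 [0, 1, 2, 6, 4] [1, 0, 1, 3, 3, 1]]),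
([m 0 0, g, s 0 1, m 0 2, g, s 3 0, g, p 0 3, g, m 2 0, g, p 1 0, g], .leaf [7, 1, 8, 4, 7]),
([m 0 0, g, s 4 1, m 0 2, g, s 3 0, g, p 0 3, g, m 2 0, g, m 1 0, g, s 0 4, g], .leaf [7, 1, 10, 5, 3, 4, 7]),
([m 0 1, g, s 5 2, m 1 3, s 0 4, g, m 3 0, g, s 4 0, g, s 0 5, g, s 2 0, g], .leaf [11, 9, 10, 8, 3, 5, 6, 1]),
([m 0 1, g, s 5 0, m 1 2, s 4 3, g, p 0 4, g, m 2 0, g, s 0 5, g, s 3 0, g], .leaf [6, 1, 7, 4, 6, 8, 6, 1]),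
([m 0 1, g, s 5 2, m 1 3, s 4 0, g, p 0 4, g, m 3 0, g, s 0 5, g, s 2 0, g], .inner (.hi 4) [.ref 2594 [0, 1, 6] [2, 9], .ref 2588 [0, 1, 6] [1, 2, 9], .ref 3413 [0, 1, 3, 6, 4] [1, 2, 1, 1, 5], .ref 2596 [0, 1, 6] [1, 2, 9], .ref 3418 [0, 1, 3, 6, 4] [2, 1, 1, 1, 5], .ref 3419 [0, 1, 2, 3, 6] [1, 0, 1, 3, 3, 1], .ref 3420 [0, 1, 2, 6, 4] [1, 0, 1, 1, 5, 1], .cyc [4, 6], .ref 3421 [0, 1, 2, 3, 6, 4] [1, 1, 1, 1, 3, 1], .ref 3422 [0, 1, 2, 6, 4] [1, 0, 1, 1, 5, 1], .ref 3423 [0, 1, 2, 6, 4] [1, 0, 1, 1, 5, 1], .ref 3431 [0, 1, 2, 3, 6, 5] [1, 3, 1, 1, 1, 1], .ref 3422 [0, 1, 2, 6, 4] [1, 0, 1, 3, 3, 1], .ref 3423 [0, 1, 2, 6, 4] [1, 0, 1, 3, 3, 1], .ref 3401 [0, 1, 3, 6, 5] [1, 3, 1, 3], .ref 3432 [0, 1, 3, 6, 4, 5]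 [1, 1, 1, 1, 1, 3], .ref 3422 [0, 1, 2, 6, 4] [1, 0, 1, 5, 1, 1], .ref 3423 [0, 1, 2, 6, 4] [1, 0, 1, 5, 1, 1], .ref 3432 [0, 1, 3, 6, 4, 5] [1, 1, 1, 1, 3, 1], .ref 3426 [0, 1, 2, 3, 6] [1, 0, 3, 3, 1, 1], .ref 3427 [0, 1, 2, 6, 4] [1, 0, 1, 5, 1, 1]]),
([m 0 0, g, s 4 1, m 0 2, g, s 3 0, g, p 0 3, g, m 2 0, g, s 0 4, g, m 1 0, g], .leaf [7, 1, 10, 5, 10, 4, 5]),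
([m 0 1, g, s 4 0, m 1 2, s 3 0, g, p 0 3, g, m 2 0, g, s 0 4, g], .inner (.hi 2) [.ref 3283 [0, 1, 5, 2] [1, 4, 3], .ref 3407 [0, 1, 5, 2, 3] [1, 1, 0, 1, 1, 3], .ref 3374 [0, 1, 5, 2, 4] [1, 1, 4, 1, 1], .ref 3408 [0, 5, 2, 3] [1, 1, 0, 1, 1, 3], .ref 3392 [0, 1, 5, 2, 4] [1, 2, 3, 1, 1], .ref 3409 [0, 1, 5, 3] [1, 0, 1, 1, 5], .ref 3410 [0, 1, 5, 2, 4] [1, 2, 3, 1, 1], .ref 3411 [0, 1, 5, 3] [1, 0, 1, 5], .ref 3392 [0, 1, 5, 2, 4] [1, 4, 1, 1, 1], .ref 3412 [0, 5, 2, 3] [1, 0, 1, 1, 1, 3], .ref 3410 [0, 1, 5, 2, 4] [1, 4, 1, 1, 1], .ref 3428 [0, 1, 5, 2, 3, 4] [1, 1, 1, 1, 1, 1], .ref 3429 [0, 5, 2, 3] [1, 0, 1, 1, 1, 3], .ref 3430 [0, 5, 2, 3, 4] [1, 0, 1, 1, 1, 1, 1], .cyc [2, 10], .ref 3433 [0, 1, 5, 2, 3, 4]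 [1, 1, 1, 1, 1, 1], .ref 3429 [0, 5, 2, 3] [1, 0, 1, 1, 3, 1], .ref 3434 [0, 5, 2, 3, 4] [1, 0, 1, 1, 1, 1, 1]]),
([m 0 1, g, s 4 0, g, m 1 2, s 3 0, g, m 0 3, g, m 2 0, g, s 0 4, g], .leaf [10, 8, 9, 6, 1, 5, 1]),
([m 0 1, g, s 4 0, g, m 1 2, s 3 0, g, m 2 3, g, s 0 4, g], .leaf [8, 6, 7, 4, 1, 3, 1]),
([m 0 1, g, m 1 2, s 4 3, g, s 3 0, g, m 2 0, g, s 0 4, g], .leaf [1, 3, 7, 3, 5, 0, 1]),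
([m 0 1, g, m 1 2, s 4 3, g, m 2 0, g, s 3 0, g, s 0 4, g], .leaf [1, 7, 3, 7, 3, 0, 3]),
([m 0 1, g, m 1 2, s 4 3, g, m 2 0, g, s 0 4, g, s 3 0, g], .leaf [1, 7, 3, 7, 3, 0, 3]),
([m 2 1, g, s 0 2, g, m 1 3, s 4 0, g, m 3 0, g, s 0 4, g], .inner (.hi 5) [.ref 2588 [0, 1, 5] [1, 3, 5], .ref 3393 [0, 1, 2, 5, 4] [1, 1, 1, 3, 1], .ref 2596 [0, 1, 5] [1, 3, 5], .ref 2588 [0, 1, 5] [1, 1, 5], .ref 2588 [0, 1, 5] [3, 1, 5], .ref 3394 [0, 1, 2, 5, 4] [1, 1, 1, 3, 1], .ref 2596 [0, 1, 5] [3, 1, 5], .ref 3438 [0, 1, 3, 5, 4] [3, 1, 1, 1, 1], .ref 3396 [0, 1, 2, 5, 4] [1, 1, 1, 3, 1], .ref 3397 [0, 1, 2, 5, 4] [1, 1, 1, 3, 1], .ref 3439 [0, 1, 3, 5, 4] [3, 1, 1, 1, 1], .ref 3396 [0, 1, 2, 5, 4] [1, 1, 3, 1, 1], .ref 3397 [0,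 1, 2, 5, 4] [1, 1, 3, 1, 1], .cyc [5, 9], .ref 3440 [0, 1, 3, 5, 4] [3, 1, 1, 1, 1], .ref 3399 [0, 1, 2, 5, 4] [1, 1, 3, 1, 1], .ref 2919 [0, 1, 2, 5, 4] [1, 1, 3, 1, 1]]),
([m 3 1, g, s 4 0, m 1 2, g, s 0 3, g, m 2 0, g, s 0 4, g], .leaf [5, 4, 4, 1, 4, 2, 3]),
([m 3 1, g, s 5 0, m 1 2, s 4 0, g, m 2 0, g, s 0 3, g, s 0 4, g, s 0 5, g], .leaf [8, 7, 7, 4, 6, 8, 6, 1]),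
([m 3 1, g, p 2 0, g, m 1 0, s 0 2, g, s 0 3, g], .leaf [0, 6, 4, 2, 3]),
([m 3 1, g, m 1 0, s 0 2, g, p 2 0, g, s 0 3, g], .leaf [7, 6, 6, 4, 1]),
([m 5 1, g, m 1 2, s 4 3, g, m 3 0, g, m 2 0, g, s 0 4, g, s 0 5, g], .leaf [11, 10, 4, 1, 4, 1, 6, 4, 1]),
([m 0 1, g, m 1 2, s 4 3, g, m 2 0, g, m 3 0, g, s 0 4, g], .leaf [1, 7, 3, 7, 3, 0, 3]),
([m 0 1, g, m 1 2, s 4 3, g, m 2 0, g, s 0 4, g, m 3 0, g], .leaf [1, 7, 3, 7, 3, 0, 3]),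
([m 3 1, g, m 1 0, s 0 2, g, s 0 3, g, p 2 0, g], .leaf [5, 4, 4, 2, 3]),
([m 4 1, g, m 1 2, s 3 0, g, m 2 0, g, s 0 3, g, s 0 4, g], .inner (.hi 3) [.ref 2588 [0, 1, 5] [1, 1, 7], .ref 3444 [0, 1, 5, 4] [1, 1, 5, 1], .ref 2596 [0, 1, 5] [1, 1, 7], .ref 3438 [0, 1, 2, 5, 3] [1, 1, 1, 1, 3], .ref 3445 [0, 1, 5, 4] [1, 1, 5, 1], .ref 3446 [0, 1, 2, 5, 3, 4] [1, 1, 1, 1, 1, 1], .ref 3439 [0, 1, 2, 5, 3] [1, 1, 1, 1, 3], .ref 3445 [0, 1, 5, 4] [1, 3, 3, 1], .ref 3447 [0, 1, 2, 5, 3] [1, 1, 1, 1, 3], .cyc [3, 7], .ref 3440 [0, 1, 2, 5, 3] [1, 1, 1, 1, 3], .ref 3445 [0, 1, 5, 4] [1, 5, 1, 1], .ref 3448 [0, 1, 2, 5, 3] [1, 1, 1, 1, 3], .ref 3440 [0, 1, 2, 5, 3] [1, 1, 1, 1, 1], .ref 3440 [0, 1, 2, 5, 3] [1, 1, 1, 3, 1], .ref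 3449 [0, 1, 5, 4] [1, 5, 1, 1], .ref 3448 [0, 1, 2, 5, 3] [1, 1, 1, 3, 1]]),
([m 0 1, g, s 4 0, m 1 2, s 3 0, g, m 2 0, g, s 0 3, g, s 0 4, g], .inner (.lo 0) [.ref 3441 [0, 1, 5, 2, 3] [1, 2, 1, 1, 3], .ref 2503 [0, 5] [1, 11], .ref 2504 [0, 5] [1, 11], .ref 3283 [0, 1, 5, 2] [1, 2, 5], .ref 3442 [0, 1, 2, 5, 4] [1, 0, 1, 3, 1], .ref 3442 [0, 1, 2, 5, 4] [1, 2, 1, 3, 1], .ref 2503 [0, 5] [5, 7], .ref 2504 [0, 5] [5, 7], .cyc [0, 3, 6], .ref 3443 [0, 1, 2, 5, 3, 4] [1, 1, 1, 1, 1, 1], .ref 2503 [0, 5] [7, 5], .ref 2504 [0, 5] [7, 5], .ref 3450 [0, 1, 2, 3, 5] [2, 1, 1, 1, 3], .ref 2503 [0, 5] [9, 3], .ref 2504 [0, 5] [9, 3], .ref 3450 [0, 1, 2, 3, 5] [2, 1, 1, 3, 1], .ref 2503 [0, 5] [11, 1], .ref 2504 [0, 5] [11, 1]]),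
([m 0 1, g, p 3 0, g, s 4 0, m 1 2, g, s 0 3, g, m 2 0, g, s 0 4, g], .leaf [1, 5, 3, 4, 6, 4, 5]),
([m 0 1, g, m 1 2, s 4 3, g, s 3 0, g, m 2 0, g, p 0 4, g], .inner (.lo 0) [.ref 3414 [0, 1, 5, 3, 4] [1, 1, 1, 3, 1], .ref 2503 [0, 5] [1, 10], .ref 2504 [0, 5] [1, 10], .ref 3415 [0, 1, 5, 4] [1, 1, 5, 1], .ref 2503 [0, 5] [4, 7], .ref 2504 [0, 5] [4, 7], .ref 2823 [0, 1, 3, 5] [1, 1, 5], .ref 3416 [0, 1, 2, 3, 5] [1, 1, 1, 1, 3], .ref 2503 [0, 5] [6, 5], .ref 2504 [0, 5] [6, 5], .cyc [0, 2, 7], .ref 3417 [0, 1, 2, 3, 5] [1, 1, 1, 1, 3], .ref 2503 [0, 5] [8, 3], .ref 2504 [0, 5] [8, 3], .ref 3417 [0, 1, 2, 3, 5] [1, 1, 1, 3, 1], .ref 2503 [0, 5] [10, 1], .ref 2504 [0, 5] [10, 1]]),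
([m 0 1, g, s 4 0, g, m 1 2, s 0 3, g, p 3 0, g, m 2 0, g, s 0 4, g], .leaf [10, 8, 9, 6, 1, 5, 1]),
([m 0 1, g, s 4 0, g, m 1 0, s 3 2, g, m 2 0, g, p 0 3, g, s 0 4, g], .leaf [1, 7, 1, 7, 5, 2, 5])]

def d13_2 : List (List Item × Pf) := [
([m 0 1, g, m 1 2, s 4 3, g, m 2 0, g, s 3 0, g, p 0 4, g], .leaf [1, 7, 3, 7, 3, 0, 3]),
([m 0 1, g, m 1 2, s 4 3, g, m 2 0, g, p 3 0, g, p 0 4, g], .leaf [1, 7, 0, 3, 7, 3, 0, 3]),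
([m 0 1, g, m 1 2, s 4 3, g, m 2 0, g, p 0 4, g, s 3 0, g], .leaf [1, 7, 3, 7, 3, 0, 3]),
([m 0 1, g, s 4 0, g, m 1 0, s 3 2, g, p 0 3, g, p 2 0, g, s 0 4, g], .leaf [10, 1, 3, 6, 7, 4, 1]),
([m 0 1, g, s 4 0, m 1 2, g, s 0 3, g, m 2 0, g, s 0 4, g, p 3 0, g], .leaf [2, 8, 3, 8, 4, 0, 3]),
([m 0 1, g, s 4 0, m 1 2, s 3 0, g, m 2 0, g, p 0 3, g, s 0 4, g], .inner (.hi 4) [.ref 3442 [0, 1, 2, 5, 4] [1, 0, 1, 3, 1], .ref 2588 [0, 1, 5] [1, 2, 7], .ref 3452 [0, 1, 2, 5, 4] [1, 1, 0, 1, 3, 1], .ref 2596 [0, 1, 5] [1, 2, 7], .ref 3453 [0, 1, 2, 5, 3] [2, 1, 1, 1, 3], .ref 3454 [0, 1, 2, 5, 4] [1, 0, 1, 1, 3, 1], .ref 3455 [0, 1, 5, 3, 4] [1, 0, 1, 3, 1, 1], .ref 3456 [0, 1, 2, 5, 3] [2, 1, 1, 1, 3], .ref 3457 [0, 1, 2, 5,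 3] [2, 1, 1, 1, 3], .ref 3455 [0, 1, 5, 3, 4] [1, 0, 3, 1, 1, 1], .cyc [4, 8], .ref 3458 [0, 1, 2, 5, 3] [2, 1, 1, 1, 3], .ref 3459 [0, 1, 5, 3, 4] [1, 0, 3, 1, 1, 1], .ref 3210 [0, 1, 2, 5, 3] [2, 0, 1, 1, 1, 3], .ref 3401 [0, 1, 2, 5, 4] [1, 1, 3, 1], .ref 3458 [0, 1, 2, 5, 3] [2, 1, 1, 3, 1], .ref 3460 [0, 1, 2, 5, 4] [1, 0, 1, 3, 1, 1], .ref 3210 [0, 1, 2, 5, 3] [2, 0, 1, 1, 3, 1]]),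
([m 0 1, g, s 2 0, g, s 0 2, m 1 3, g, s 4 0, g, m 3 0, g, m 0 4, g], .leaf [6, 9, 7, 1, 6, 2, 5]),
([m 0 1, g, m 2 0, g, s 0 2, m 1 3, g, s 4 0, g, m 3 0, g, m 0 4, g], .leaf [6, 9, 7, 1, 6, 2, 5]),
([m 0 1, g, s 0 2, g, m 1 0, s 3 0, g, p 2 0, g, m 0 3, g], .leaf [6, 4, 5, 2, 5]),
([m 0 1, g, s 0 2, m 1 3, g, s 4 0, g, m 3 0, g, s 2 0, g, m 0 4, g], .leaf [2, 8, 3, 8, 4, 0, 3]),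
([m 0 1, g, s 0 2, g, m 1 0, s 3 0, g, m 2 0, g, m 0 3, g], .leaf [7, 4, 6, 4, 5]),
([m 0 1, g, s 0 2, g, m 1 0, s 3 0, g, m 2 3, g], .leaf [7, 4, 6, 4, 1]),
([m 0 1, g, s 5 2, m 1 3, s 4 0, g, m 3 0, g, m 0 4, g, s 2 0, g, s 0 5, g], .leaf [11, 9, 10, 8, 3, 5, 6, 1]),
([m 0 1, g, s 0 2, g, m 1 0, s 3 0, g, m 0 3, g, p 2 0, g], .leaf [8, 6, 7, 4, 1]),
([m 0 1, g, s 0 2, g, m 1 0, s 3 0, g, m 0 3, g, m 2 0, g], .leaf [9, 6, 8, 6, 1]),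
([m 0 1, g, s 5 2, m 1 3, s 4 0, g, m 3 0, g, m 0 4, g, s 0 5, g, s 2 0, g], .leaf [11, 9, 10, 8, 3, 5, 6, 1]),
([m 0 1, g, s 4 0, m 1 2, s 3 0, g, m 2 0, g, m 0 3, g, s 0 4, g], .inner (.hi 2) [.ref 3283 [0, 1, 5, 2] [1, 2, 5], .ref 3462 [0, 1, 5, 2, 3] [1, 1, 0, 1, 1, 3], .ref 3374 [0, 1, 5, 2, 4] [1, 1, 2, 3, 1], .ref 3463 [0, 1, 5, 2, 3] [1, 1, 0, 1, 1, 3], .ref 3392 [0, 1, 5, 2, 4] [1, 2, 1, 3, 1], .ref 3464 [0, 1, 5, 3] [1, 0, 1, 3, 3], .ref 3410 [0, 1, 5, 2, 4] [1, 2, 1, 3, 1], .ref 3465 [0, 1, 5, 2, 3] [1, 0, 1, 1, 1, 3], .ref 3464 [0, 1, 5, 3] [1, 0, 3, 1, 3], .ref 3466 [0, 1, 5, 3] [1, 0, 3, 1, 3], .ref 3467 [0, 1, 5, 3] [1, 0, 3, 3], .ref 3468 [0, 1, 5, 2, 3, 4] [1, 1, 1, 1, 1, 1], .ref 3469 [0, 1, 5, 3]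 [1, 0, 3, 1, 3], .ref 3470 [0, 1, 5, 3] [1, 0, 3, 1, 3], .cyc [2, 10], .ref 3471 [0, 1, 5, 2, 3, 4] [1, 1, 1, 1, 1, 1], .ref 3469 [0, 1, 5, 3] [1, 0, 3, 3, 1], .ref 3470 [0, 1, 5, 3] [1, 0, 3, 3, 1]]),
([m 0 1, g, s 4 0, m 1 2, s 5 3, g, m 3 0, g, m 2 0, g, s 0 4, g, s 0 5, g], .leaf [6, 1, 7, 4, 6, 8, 6, 1]),
([m 0 1, g, s 4 0, m 1 2, s 5 3, g, m 2 0, g, p 3 0, g, s 0 4, g, s 0 5, g], .leaf [2, 9, 1, 3, 9, 5, 0, 5]),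
([m 0 1, g, s 3 0, m 1 2, s 4 0, g, m 2 0, g, s 0 3, g, s 0 4, g], .inner (.hi 4) [.ref 3442 [0, 1, 2, 5, 3] [1, 0, 1, 1, 3], .ref 2588 [0, 1, 5] [1, 2, 7], .ref 3452 [0, 1, 2, 5, 3] [1, 1, 0, 1, 1, 3], .ref 2596 [0, 1, 5] [1, 2, 7], .ref 3438 [0, 1, 2, 5, 4] [2, 1, 1, 3, 1], .ref 3454 [0, 1, 2, 5, 3] [1, 0, 1, 1, 1, 3], .ref 3473 [0, 1, 2, 5, 3, 4] [1, 1, 1, 1, 1, 1], .ref 3439 [0, 1, 2, 5, 4] [2, 1, 1, 3, 1], .ref 3474 [0, 1, 2, 5, 3, 4] [1, 1, 1, 1, 1, 1], .ref 3447 [0, 1, 2, 5, 4] [2, 1, 1, 3, 1], .ref 3401 [0, 1, 2, 5, 3] [1, 1, 1, 3], .ref 3439 [0, 1, 2, 5, 4] [2, 1, 3, 1, 1], .ref 3460 [0, 1, 2, 5, 3] [1, 0, 1, 1, 1, 3], .ref 3447 [0, 1, 2, 5, 4] [2, 1, 3, 1, 1], .cyc [4, 10], .ref 3440 [0, 1, 2, 5, 4] [2, 1,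 3, 1, 1], .ref 3460 [0, 1, 2, 5, 3] [1, 0, 1, 1, 3, 1], .ref 3448 [0, 1, 2, 5, 4] [2, 1, 3, 1, 1]]),
([m 0 1, g, s 3 0, m 1 2, s 4 0, g, m 2 0, g, s 0 3, g, p 0 4, g], .leaf [2, 7, 1, 8, 5, 0, 5]),
([m 0 1, g, s 3 0, m 1 2, g, s 4 0, g, m 2 0, g, s 0 3, g, m 0 4, g], .leaf [2, 8, 3, 8, 4, 0, 3]),
([m 0 1, g, s 3 0, m 1 2, s 0 0, g, m 2 0, g, s 0 3, g], .inner (.lo 4) [.ref 2589 [0, 1, 4] [1, 2, 5], .ref 2590 [0, 1, 4] [1, 2, 5], .ref 3391 [0, 1, 4, 2, 3] [1, 1, 0, 1, 1, 1], .ref 3392 [0, 1, 4, 2, 3] [1, 0, 1, 1, 1], .cyc [4], .ref 3406 [0, 1, 2, 4, 3] [1, 1, 1, 1, 1], .ref 3435 [0, 1, 2, 4, 3] [1, 1, 1, 1, 1], .ref 3436 [0, 1, 2, 4, 3] [1, 0, 1, 1, 1, 1], .ref 3437 [0, 1, 2, 4, 3] [1, 0, 1, 1, 1], .ref 3451 [0, 1, 2,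 4, 3] [1, 1, 1, 1, 1], .ref 3461 [0, 1, 2, 4, 3] [1, 1, 1, 1, 1], .ref 3472 [0, 1, 2, 4, 3] [1, 1, 1, 1, 1], .ref 3475 [0, 1, 2, 3, 4] [1, 1, 1, 1, 1], .ref 3476 [0, 1, 2, 3, 4] [1, 1, 1, 1, 1], .ref 3477 [0, 1, 2, 3, 4] [1, 0, 1, 1, 1, 1]]),
([m 0 1, g, s 4 0, g, m 1 2, p 3 0, g, s 0 3, g, m 2 0, g, s 0 4, g], .leaf [10, 8, 9, 6, 1, 5, 1]),
([m 2 1, g, s 0 2, g, m 1 3, p 4 0, g, p 0 4, g, m 3 0, g], .leaf [2, 1, 4, 7, 5, 3, 4, 1]),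
([m 4 1, g, m 1 2, p 3 0, g, p 0 3, g, m 2 0, g, s 0 4, g], .leaf [1, 3, 8, 5, 1, 5, 0, 1]),
([m 0 1, g, s 4 0, m 1 2, p 3 0, g, p 0 3, g, m 2 0, g, s 0 4, g], .inner (.lo 0) [.ref 3480 [0, 1, 5, 2, 3] [1, 2, 1, 1, 3], .ref 2503 [0, 5] [1, 11], .ref 2504 [0, 5] [1, 11], .ref 3283 [0, 1, 5, 2] [1, 4, 3], .ref 2503 [0, 5] [3, 7], .ref 3442 [0, 1, 2, 5, 4] [1, 2, 3, 1, 1], .ref 2503 [0, 5] [5, 7], .ref 2504 [0, 5] [5, 7], .ref 3442 [0, 1, 2, 5, 4] [1, 4, 1, 1, 1], .ref 2503 [0, 5] [7, 5], .ref 2504 [0, 5] [7, 5], .cyc [0, 3, 8], .ref 3481 [0, 1, 2, 3, 5] [2, 1, 1, 1, 3], .ref 2503 [0, 5] [9, 3], .ref 2504 [0, 5] [9, 3], .ref 3481 [0, 1, 2, 3, 5] [2, 1, 1, 3, 1], .ref 2503 [0, 5] [11, 1], .ref 2504 [0, 5] [11, 1]]),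
([m 0 1, g, m 2 0, g, s 0 2, m 1 3, g, p 4 0, g, m 3 0, g, s 0 4, g], .leaf [6, 9, 7, 1, 6, 2, 5]),
([m 0 1, g, s 0 2, g, m 1 0, p 3 0, g, p 2 0, g, s 0 3, g], .leaf [2, 6, 8, 6, 1]),
([m 0 1, g, s 0 2, m 1 3, g, p 4 0, g, m 3 0, g, s 2 0, g, s 0 4, g], .leaf [2, 8, 3, 8, 4, 0, 3]),
([m 0 1, g, s 0 2, g, m 1 0, p 3 0, g, m 2 0, g, s 0 3, g], .leaf [7, 4, 6, 4, 5]),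
([m 0 1, g, s 0 2, g, m 1 0, p 3 0, g, s 2 3, g], .leaf [2, 6, 6, 4, 1]),
([m 0 1, g, s 5 2, m 1 3, p 4 0, g, m 3 0, g, s 0 4, g, s 2 0, g, s 0 5, g], .leaf [11, 9, 10, 8, 3, 5, 6, 1]),
([m 0 1, g, s 0 2, g, m 1 0, p 3 0, g, s 0 3, g, p 2 0, g], .leaf [8, 6, 7, 4, 1]),
([m 0 1, g, s 0 2, g, m 1 0, p 3 0, g, s 0 3, g, m 2 0, g], .leaf [9, 6, 8, 6, 1]),
([m 0 1, g, s 5 2, m 1 3, p 4 0, g, m 3 0, g, s 0 4, g, s 0 5, g, s 2 0, g], .leaf [11, 9, 10, 8, 3, 5, 6, 1]),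
([m 0 1, g, s 4 0, m 1 2, p 3 0, g, m 2 0, g, s 0 3, g, s 0 4, g], .inner (.hi 2) [.ref 3283 [0, 1, 5, 2] [1, 2, 5], .ref 3319 [0, 1, 5, 2, 3] [1, 1, 0, 1, 1, 3], .ref 3374 [0, 1, 5, 2, 4] [1, 1, 2, 3, 1], .ref 3483 [0, 1, 5, 2, 3] [1, 1, 0, 1, 1, 3], .ref 3392 [0, 1, 5, 2, 4] [1, 2, 1, 3, 1], .ref 3484 [0, 1, 5, 3] [1, 0, 1, 3, 3], .ref 3410 [0, 1, 5, 2, 4] [1, 2, 1, 3, 1], .ref 3485 [0, 1, 5, 2, 3] [1, 0, 1, 1, 1, 3], .ref 3484 [0, 1, 5, 3] [1, 0, 3, 1, 3], .ref 3486 [0, 1, 5, 3] [1, 0, 3, 1, 3], .ref 3487 [0, 1, 5, 3] [1, 0, 3, 3], .ref 3488 [0, 1, 5, 2, 3, 4] [1, 1, 1, 1, 1, 1], .ref 3489 [0, 1, 5, 3] [1, 0, 3, 1, 3], .ref 3490 [0, 1, 5, 3] [1, 0, 3, 1, 3], .cyc [2, 10], .ref 3491 [0, 1, 5, 2, 3, 4] [1, 1, 1, 1,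 1, 1], .ref 3489 [0, 1, 5, 3] [1, 0, 3, 3, 1], .ref 3490 [0, 1, 5, 3] [1, 0, 3, 3, 1]]),
([m 0 1, g, s 2 0, g, s 4 2, m 1 3, g, m 3 0, g, s 0 4, g], .leaf [3, 5, 1, 6, 3, 4, 1]),
([m 0 1, g, m 2 0, g, s 0 2, m 1 3, g, p 4 0, g, m 3 0, g, p 0 4, g], .leaf [7, 11, 10, 8, 6, 1, 5, 1]),
([m 0 1, g, s 0 2, g, m 1 0, p 3 0, g, p 2 0, g, p 0 3, g], .leaf [2, 6, 8, 6, 1]),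
([m 0 1, g, s 4 2, g, m 1 0, p 3 0, g, m 2 0, g, p 0 3, g, s 0 4, g], .leaf [1, 7, 4, 9, 4, 6, 3]),
([m 0 1, g, s 5 2, m 1 3, p 4 0, g, m 3 0, g, p 0 4, g, s 2 0, g, s 0 5, g], .leaf [4, 10, 7, 3, 6, 8, 6, 4, 1]),
([m 0 1, g, s 0 2, g, m 1 3, g, p 4 0, g, m 3 0, g, p 0 4, g, p 2 0, g], .leaf [11, 9, 10, 7, 7, 3, 5, 3]),
([m 0 1, g, s 0 2, g, m 1 3, g, p 4 0, g, m 3 0, g, p 0 4, g, m 2 0, g], .leaf [12, 9, 11, 9, 9, 5, 7, 5]),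
([m 0 1, g, s 5 2, m 1 3, p 4 0, g, m 3 0, g, p 0 4, g, s 0 5, g, s 2 0, g], .leaf [4, 10, 7, 3, 6, 8, 6, 4, 1]),
([m 0 1, g, s 4 0, m 1 2, p 3 0, g, m 2 0, g, p 0 3, g, s 0 4, g], .inner (.hi 2) [.ref 3283 [0, 1, 5, 2] [1, 2, 5], .ref 3493 [0, 1, 5, 2, 4] [1, 1, 2, 3, 1], .ref 3374 [0, 1, 5, 2, 4] [1, 1, 2, 3, 1], .ref 3494 [0, 1, 5, 2, 3] [1, 1, 0, 1, 1, 3], .ref 3392 [0, 1, 5, 2, 4] [1, 2, 1, 3, 1], .ref 3495 [0, 1, 5, 3] [1, 0, 1, 3, 3], .ref 3410 [0, 1, 5, 2, 4] [1, 2, 1, 3, 1], .ref 3073 [0, 1, 5, 3] [1, 0, 3, 1, 3], .ref 3495 [0, 1, 5, 3] [1, 0, 3, 1, 3], .ref 3496 [0, 1, 5, 3, 4] [1, 0, 3, 1, 1, 1], .ref 3057 [0, 1, 5, 3] [1, 0, 3, 3], .ref 3497 [0, 1, 5, 2, 3, 4] [1, 1, 1, 1, 1, 1], .ref 3498 [0, 1, 5, 2, 3]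 [1, 0, 0, 1, 1, 1, 3], .ref 3499 [0, 1, 5, 2, 3] [1, 0, 0, 1, 1, 1, 3], .cyc [2, 10], .ref 3500 [0, 1, 5, 2, 3, 4] [1, 1, 1, 1, 1, 1], .ref 3498 [0, 1, 5, 2, 3] [1, 0, 0, 1, 1, 3, 1], .ref 3499 [0, 1, 5, 2, 3] [1, 0, 0, 1, 1, 3, 1]]),
([m 0 1, g, s 3 0, m 1 2, g, p 4 0, g, m 2 0, g, s 0 3, g, s 0 4, g], .leaf [2, 8, 3, 8, 4, 0, 3]),
([m 0 1, g, s 3 0, m 1 2, p 0 0, g, m 2 0, g, s 0 3, g], .inner (.lo 4) [.ref 2611 [0, 1, 4] [1, 2, 5], .ref 2612 [0, 4] [1, 3, 5], .ref 2613 [0, 1, 4] [1, 2, 0, 5], .ref 2611 [0, 1, 4] [1, 0, 5], .cyc [4], .ref 3479 [0, 1, 2, 4, 3] [1, 0, 1, 1, 1, 1], .ref 3482 [0, 1, 2, 4, 3] [1, 1, 1, 1, 1], .ref 2616 [0, 1, 4, 3] [1, 0, 1, 3, 1], .ref 2616 [0, 1, 4, 3] [1, 0, 1, 1, 1], .ref 3492 [0,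 1, 2, 4, 3] [1, 1, 1, 1, 1], .ref 3501 [0, 1, 2, 4, 3] [1, 1, 1, 1, 1], .ref 2616 [0, 1, 4, 3] [1, 0, 3, 1, 1], .ref 3502 [0, 1, 2, 3, 4] [1, 0, 1, 1, 1, 1], .ref 2618 [0, 1, 3, 4] [1, 0, 3, 1, 1], .ref 2619 [0, 1, 3, 4] [1, 0, 3, 1, 1]]),
([m 0 1, g, s 4 0, g, m 1 2, m 0 3, g, s 3 0, g, m 2 0, g, s 0 4, g], .leaf [10, 8, 9, 6, 1, 5, 1]),
([m 2 1, g, s 0 2, g, m 1 3, m 0 4, g, m 4 0, g, m 3 0, g], .leaf [2, 1, 4, 7, 5, 3, 4, 1]),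
([m 4 1, g, m 1 2, m 0 3, g, m 3 0, g, m 2 0, g, s 0 4, g], .leaf [1, 3, 8, 5, 1, 5, 0, 1]),
([m 0 1, g, s 4 0, m 1 2, m 0 3, g, m 3 0, g, m 2 0, g, s 0 4, g], .inner (.lo 0) [.ref 3505 [0, 1, 5, 2, 3] [1, 2, 1, 1, 3], .ref 2503 [0, 5] [1, 11], .ref 2504 [0, 5] [1, 11], .ref 3283 [0, 1, 5, 2] [1, 4, 3], .ref 3442 [0, 1, 2, 5, 4] [1, 2, 3, 1, 1], .ref 2503 [0, 5] [5, 7], .ref 2504 [0, 5] [5, 7], .ref 2504 [0, 5] [5, 5], .ref 3442 [0, 1, 2, 5, 4] [1, 4, 1, 1, 1], .ref 2503 [0, 5] [7, 5], .ref 2504 [0, 5] [7, 5], .cyc [0, 3, 8], .ref 3506 [0, 1, 2, 3, 5] [2, 1, 1, 1, 3], .ref 2503 [0, 5] [9, 3], .ref 2504 [0, 5] [9, 3], .ref 3506 [0, 1, 2, 3, 5] [2, 1, 1, 3, 1], .ref 2503 [0, 5] [11, 1], .ref 2504 [0, 5] [11, 1]]),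
([m 0 1, g, s 2 0, g, s 0 2, m 1 3, g, m 0 4, g, m 3 0, g, s 4 0, g], .leaf [6, 9, 7, 1, 6, 2, 5]),
([m 0 1, g, m 2 0, g, s 0 2, m 1 3, g, m 0 4, g, m 3 0, g, s 4 0, g], .leaf [6, 9, 7, 1, 6, 2, 5]),
([m 0 1, g, s 0 2, m 1 3, g, m 0 4, g, m 3 0, g, s 2 0, g, s 4 0, g], .leaf [2, 8, 3, 8, 4, 0, 3]),
([m 0 1, g, s 5 2, m 1 3, m 0 4, g, m 3 0, g, s 4 0, g, s 2 0, g, s 0 5, g], .leaf [11, 9, 10, 8, 3, 5, 6, 1]),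
([m 0 1, g, s 5 2, m 1 3, m 0 4, g, m 3 0, g, s 4 0, g, s 0 5, g, s 2 0, g], .leaf [11, 9, 10, 8, 3, 5, 6, 1]),
([m 0 1, g, s 4 0, m 1 2, m 0 3, g, m 2 0, g, s 3 0, g, s 0 4, g], .inner (.hi 2) [.ref 3283 [0, 1, 5, 2] [1, 2, 5], .ref 3508 [0, 1, 5, 2, 3] [1, 1, 0, 1, 1, 3], .ref 3374 [0, 1, 5, 2, 4] [1, 1, 2, 3, 1], .ref 3509 [0, 1, 5, 2, 3] [1, 1, 0, 1, 1, 3], .ref 3410 [0, 1, 5, 2, 4] [1, 0, 1, 3, 1], .ref 3392 [0, 1, 5, 2, 4] [1, 2, 1, 3, 1], .ref 3377 [0, 1, 5, 3] [1, 0, 1, 3, 3], .ref 3410 [0, 1, 5, 2, 4] [1, 2, 1, 3, 1], .ref 3510 [0, 1, 5, 2, 3] [1, 0, 1, 1, 1, 3], .ref 3377 [0, 1, 5, 3] [1, 0, 3, 1, 3], .ref 3378 [0, 1, 5, 3] [1, 0, 3, 1, 3], .ref 3511 [0, 1, 5, 2, 3, 4] [1, 1, 1, 1, 1, 1], .ref 3380 [0, 1,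 5, 3] [1, 0, 3, 1, 3], .ref 3381 [0, 1, 5, 3] [1, 0, 3, 1, 3], .cyc [2, 10], .ref 3512 [0, 1, 5, 2, 3, 4] [1, 1, 1, 1, 1, 1], .ref 3380 [0, 1, 5, 3] [1, 0, 3, 3, 1], .ref 3381 [0, 1, 5, 3] [1, 0, 3, 3, 1]]),
([m 0 1, g, m 2 0, g, s 0 2, m 1 3, g, m 0 4, g, m 3 0, g, m 4 0, g], .leaf [7, 11, 10, 8, 6, 1, 5, 1]),
([m 0 1, g, s 0 2, g, m 1 0, m 0 3, g, p 2 0, g, m 3 0, g], .leaf [2, 6, 8, 6, 1]),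
([m 0 1, g, s 4 2, g, m 1 0, m 0 3, g, m 2 0, g, m 3 0, g, s 0 4, g], .leaf [1, 7, 4, 9, 4, 6, 3]),
([m 0 1, g, s 5 2, m 1 3, m 0 4, g, m 3 0, g, m 4 0, g, s 2 0, g, s 0 5, g], .leaf [4, 10, 7, 3, 6, 8, 6, 4, 1]),
([m 0 1, g, s 0 2, g, m 1 3, g, m 0 4, g, m 3 0, g, m 4 0, g, p 2 0, g], .leaf [11, 9, 10, 7, 7, 3, 5, 3]),
([m 0 1, g, s 0 2, g, m 1 3, g, m 0 4, g, m 3 0, g, m 4 0, g, m 2 0, g], .leaf [12, 9, 11, 9, 9, 5, 7, 5])]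

def d13_3 : List (List Item × Pf) := [
([m 0 1, g, s 5 2, m 1 3, m 0 4, g, m 3 0, g, m 4 0, g, s 0 5, g, s 2 0, g], .leaf [4, 10, 7, 3, 6, 8, 6, 4, 1]),
([m 0 1, g, s 4 0, m 1 2, m 0 3, g, m 2 0, g, m 3 0, g, s 0 4, g], .inner (.hi 2) [.ref 3283 [0, 1, 5, 2] [1, 2, 5], .ref 3493 [0, 1, 5, 2, 4] [1, 1, 2, 3, 1], .ref 3374 [0, 1, 5, 2, 4] [1, 1, 2, 3, 1], .ref 3514 [0, 1, 5, 2, 3] [1, 1, 0, 1, 1, 3], .ref 3410 [0, 1, 5, 2, 4] [1, 0, 1, 3, 1], .ref 3392 [0, 1, 5, 2, 4] [1, 2, 1, 3, 1], .ref 3515 [0, 1, 5, 3] [1, 0, 1, 3, 3], .ref 3410 [0, 1, 5, 2, 4] [1, 2, 1, 3, 1], .ref 3115 [0, 1, 5, 3] [1, 0, 3, 1, 3], .ref 3515 [0, 1, 5, 3] [1, 0, 3, 1, 3], .ref 3516 [0, 1, 5, 3, 4] [1, 0, 3, 1, 1, 1], .ref 3517 [0, 1, 5, 2, 3, 4]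 [1, 1, 1, 1, 1, 1], .ref 3518 [0, 1, 5, 2, 3] [1, 0, 0, 1, 1, 1, 3], .ref 3519 [0, 1, 5, 2, 3] [1, 0, 0, 1, 1, 1, 3], .cyc [2, 10], .ref 3520 [0, 1, 5, 2, 3, 4] [1, 1, 1, 1, 1, 1], .ref 3518 [0, 1, 5, 2, 3] [1, 0, 0, 1, 1, 3, 1], .ref 3519 [0, 1, 5, 2, 3] [1, 0, 0, 1, 1, 3, 1]]),
([m 0 1, g, s 4 0, m 1 2, g, m 0 3, g, m 2 0, g, s 0 4, g, s 3 0, g], .leaf [2, 8, 3, 8, 4, 0, 3]),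
([m 0 1, g, s 3 0, m 1 2, m 0 0, g, m 2 0, g, s 0 3, g], .inner (.hi 4) [.ref 2504 [0, 4] [3, 5], .ref 2621 [0, 1, 4] [1, 2, 5], .ref 2622 [0, 1, 4] [1, 2, 0, 5], .ref 2623 [0, 4] [1, 3, 5], .cyc [4], .ref 3504 [0, 1, 2, 4, 3] [1, 0, 1, 1, 1, 1], .ref 2625 [0, 1, 4, 3] [1, 0, 1, 3, 1], .ref 3507 [0, 1, 2, 4, 3] [1, 1, 1, 1, 1], .ref 3513 [0, 1, 2, 4, 3] [1, 1, 1, 1, 1], .ref 2625 [0, 1, 4, 3] [1, 0, 3, 1, 1], .ref 3521 [0, 1, 2, 4, 3] [1, 1, 1, 1, 1], .ref 2627 [0, 1, 4, 3] [1, 0, 3, 1], .ref 3522 [0, 1, 2, 4, 3] [1, 0, 1, 1, 1, 1], .ref 2629 [0, 1, 4, 3] [1, 0, 3, 1, 1], .ref 2630 [0, 1, 4, 3] [1, 0, 3, 1, 1]]),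
([m 0 1, g, s 3 0, m 1 2, g, m 2 0, g, s 0 3, g], .inner (.top 4) [.ref 3390 [0, 1, 2, 3] [1, 1, 1], .ref 3478 [0, 1, 2, 3] [1, 1, 1, 1], .ref 3503 [0, 1, 2, 3] [1, 1, 1, 1], .ref 3523 [0, 1, 2, 3] [1, 1, 1, 1]]),
([m 0 1, g, s 4 0, g, s 2 0, g, s 0 2, m 1 3, g, m 3 4, g], .leaf [1, 7, 5, 6, 6, 4, 1]),
([m 0 1, g, s 2 0, g, s 4 0, g, s 0 2, m 1 3, g, m 3 4, g], .leaf [3, 7, 3, 6, 6, 2, 3]),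
([m 0 1, g, s 2 0, g, s 0 2, m 1 3, g, s 4 0, g, m 3 4, g], .leaf [6, 9, 7, 1, 6, 2, 1]),
([m 0 1, g, s 4 0, g, m 1 2, g, m 2 3, g, m 3 0, g, p 0 4, g], .leaf [10, 7, 9, 7, 7, 5, 5, 3]),
([m 0 1, g, s 4 0, g, m 1 2, g, m 2 3, g, p 0 4, g, m 3 0, g], .leaf [8, 5, 7, 5, 5, 3, 5, 1]),
([m 0 1, g, s 2 0, g, s 4 2, m 1 3, g, m 3 0, g, p 0 4, g], .inner (.hi 7) [.cyc [0, 5, 7], .ref 3525 [0, 1, 2, 3, 5] [1, 1, 1, 1, 3], .ref 2622 [0, 1, 5] [1, 4, 1, 3], .ref 2623 [0, 5] [1, 6, 3], .ref 3526 [0, 1, 2, 3, 5] [1, 1, 1, 1, 3], .ref 2622 [0, 1, 5] [3, 2, 1, 3], .ref 2623 [0, 5] [3, 4, 3], .ref 3527 [0, 1, 2, 3, 5] [1, 1, 1, 1, 3], .ref 3170 [0, 1, 3, 5] [4, 1, 1, 3], .ref 2623 [0, 5] [6, 1, 3], .ref 3373 [0, 1, 2, 3, 5] [1, 1,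 1, 1, 3], .ref 3182 [0, 1, 3, 5] [4, 1, 1, 3], .ref 3528 [0, 1, 3, 5, 4] [3, 0, 1, 1, 1, 1], .ref 3182 [0, 1, 3, 5] [4, 1, 1, 1], .ref 3373 [0, 1, 2, 3, 5] [1, 1, 1, 3, 1], .ref 3182 [0, 1, 3, 5] [4, 1, 3, 1], .ref 3529 [0, 1, 3, 5, 4] [3, 0, 1, 1, 1, 1]]),
([m 0 1, g, p 2 0, g, s 4 2, g, m 1 3, g, m 3 0, g, p 0 4, g], .leaf [3, 10, 5, 1, 4, 5, 3, 1]),
([m 0 1, g, m 2 0, g, s 4 2, g, m 1 3, g, m 3 0, g, p 0 4, g], .leaf [2, 3, 9, 5, 7, 5, 5, 3]),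
([m 0 1, g, s 4 0, g, s 0 2, m 1 3, g, s 2 0, g, m 3 4, g], .leaf [1, 5, 3, 6, 6, 2, 3]),
([m 0 1, g, s 5 2, m 1 3, g, s 4 0, g, s 2 0, g, m 3 4, g, p 0 5, g], .leaf [4, 11, 8, 9, 7, 3, 3, 4, 1]),
([m 0 1, g, s 5 2, m 1 3, g, s 2 0, g, s 4 0, g, m 3 4, g, p 0 5, g], .leaf [6, 11, 6, 7, 5, 1, 1, 2, 3]),
([m 0 1, g, s 0 2, m 1 3, g, s 2 0, g, m 3 4, g, s 4 0, g], .leaf [8, 3, 4, 1, 1, 4, 3]),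
([m 0 1, g, s 4 2, m 1 3, g, s 2 0, g, m 3 0, g, p 0 4, g], .inner (.hi 7) [.cyc [0, 3, 7], .ref 3533 [0, 1, 2, 3, 5] [1, 1, 1, 1, 3], .ref 2622 [0, 1, 5] [1, 2, 3, 3], .ref 2623 [0, 5] [1, 6, 3], .ref 3534 [0, 1, 2, 3, 5, 4] [1, 1, 1, 1, 1, 1], .ref 3170 [0, 1, 3, 5] [2, 1, 3, 3], .ref 2623 [0, 5] [4, 3, 3], .ref 3535 [0, 1, 2, 3, 5, 4] [1, 1, 1, 1, 1, 1], .ref 3170 [0, 1, 3, 5] [2, 3, 1, 3], .ref 2623 [0, 5] [6, 1, 3], .ref 3536 [0, 1, 2, 3, 5] [1, 1, 1, 1, 3], .ref 3182 [0, 1, 3, 5] [2, 3, 1, 3], .ref 3528 [0, 1, 3, 5, 4] [1, 0, 3, 1, 1, 1], .ref 3182 [0, 1, 3, 5] [2, 3, 1, 1], .ref 3536 [0, 1, 2, 3, 5] [1, 1, 1, 3, 1], .ref 3182 [0, 1, 3, 5] [2, 3, 3, 1], .ref 3529 [0, 1, 3, 5, 4] [1, 0, 3, 1, 1, 1]]),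
([m 0 1, g, s 4 2, g, m 1 3, g, p 2 0, g, m 3 0, g, p 0 4, g], .leaf [5, 8, 6, 6, 2, 3, 5, 1]),
([m 0 1, g, s 4 2, g, m 1 3, g, m 2 0, g, m 3 0, g, p 0 4, g], .leaf [1, 10, 7, 1, 6, 3, 1, 3]),
([m 0 1, g, s 4 0, g, s 0 2, m 1 3, g, m 3 4, g, s 2 0, g], .leaf [1, 5, 3, 4, 4, 2, 3]),
([m 0 1, g, s 5 2, m 1 3, g, s 4 0, g, m 3 4, g, s 2 0, g, p 0 5, g], .leaf [4, 9, 6, 7, 5, 1, 6, 2, 3]),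
([m 0 1, g, s 5 2, m 1 3, g, m 3 4, g, s 4 0, g, s 2 0, g, p 0 5, g], .leaf [4, 11, 8, 2, 7, 1, 6, 0, 1]),
([m 0 1, g, s 4 2, m 1 3, g, m 3 0, g, s 2 0, g, p 0 4, g], .inner (.hi 5) [.cyc [0, 3, 5], .ref 3540 [0, 1, 2, 3, 5] [1, 1, 1, 1, 3], .ref 2622 [0, 1, 5] [1, 2, 1, 5], .ref 2623 [0, 5] [1, 4, 5], .ref 3541 [0, 1, 2, 3, 5, 4] [1, 1, 1, 1, 1, 1], .ref 3170 [0, 1, 3, 5] [2, 1, 1, 5], .ref 2623 [0, 5] [4, 1, 5], .ref 3542 [0, 1, 2, 3, 5, 4] [1, 1, 1, 1, 1, 1], .ref 3182 [0, 1, 3, 5] [2, 1, 1, 5], .ref 3528 [0, 1, 3, 5, 4] [1, 0, 1, 1, 3, 1], .ref 3376 [0, 1, 2, 3, 5] [1, 1, 1, 1, 3], .ref 3182 [0, 1, 3, 5] [2, 1, 3, 3], .ref 3528 [0, 1, 3, 5, 4] [1, 0, 1, 3, 1, 1], .ref 3182 [0, 1, 3, 5] [2, 1, 3, 1], .ref 3376 [0,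 1, 2, 3, 5] [1, 1, 1, 3, 1], .ref 3182 [0, 1, 3, 5] [2, 1, 5, 1], .ref 3529 [0, 1, 3, 5, 4] [1, 0, 1, 3, 1, 1]]),
([m 0 1, g, s 4 2, m 1 3, g, m 3 0, g, p 2 0, g, p 0 4, g], .leaf [6, 4, 5, 3, 4, 5, 4, 1]),
([m 0 1, g, s 4 2, g, m 1 3, g, m 3 0, g, m 2 0, g, p 0 4, g], .leaf [1, 8, 5, 8, 2, 5, 5, 3]),
([m 0 1, g, s 5 2, m 1 3, g, s 4 0, g, m 3 4, g, p 0 5, g, s 2 0, g], .leaf [4, 9, 6, 7, 5, 1, 1, 2, 3]),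
([m 0 1, g, s 5 2, m 1 3, g, m 3 4, g, s 4 0, g, p 0 5, g, s 2 0, g], .leaf [1, 3, 1, 8, 5, 1, 3, 4, 1]),
([m 0 1, g, s 5 2, m 1 3, g, m 3 4, g, p 0 5, g, s 4 0, g, s 2 0, g], .leaf [4, 11, 8, 2, 7, 3, 6, 0, 3]),
([m 0 1, g, s 4 2, m 1 3, g, m 3 0, g, p 0 4, g, s 2 0, g], .inner (.hi 5) [.cyc [0, 3, 5], .ref 3540 [0, 1, 2, 3, 5] [1, 1, 1, 3, 1], .ref 2622 [0, 1, 5] [1, 2, 1, 5], .ref 2623 [0, 5] [1, 4, 5], .ref 3546 [0, 1, 2, 3, 5, 4] [1, 1, 1, 1, 1, 1], .ref 3170 [0, 1, 3, 5] [2, 1, 1, 5], .ref 2623 [0, 5] [4, 1, 5], .ref 3547 [0, 1, 2, 3, 5, 4] [1, 1, 1, 1, 1, 1], .ref 3182 [0, 1, 3, 5] [2, 1, 1, 5], .ref 3528 [0, 1, 3, 5, 4] [1, 0, 1, 1, 1, 3], .ref 3182 [0, 1, 3, 5] [2, 1, 1, 3], .ref 3548 [0, 1, 2, 3, 5, 4] [1,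 1, 1, 1, 1, 1], .ref 3182 [0, 1, 3, 5] [2, 1, 3, 3], .ref 3529 [0, 1, 3, 5, 4] [1, 0, 1, 1, 1, 3], .ref 3376 [0, 1, 2, 3, 5] [1, 1, 3, 1, 1], .ref 3182 [0, 1, 3, 5] [2, 1, 5, 1], .ref 3529 [0, 1, 3, 5, 4] [1, 0, 1, 1, 3, 1]]),
([m 0 1, g, s 4 2, g, m 1 3, g, m 3 0, g, p 0 4, g, p 2 0, g], .leaf [1, 8, 5, 1, 4, 5, 3, 1]),
([m 0 1, g, s 4 2, g, m 1 3, g, m 3 0, g, p 0 4, g, m 2 0, g], .leaf [1, 8, 5, 8, 2, 5, 5, 3]),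
([m 0 1, g, s 3 0, m 1 2, g, m 2 0, g, p 0 3, g], .inner (.hi 2) [.ref 3283 [0, 1, 4, 2] [1, 1, 3], .ref 3530 [0, 1, 4, 2, 3] [1, 1, 1, 1, 1], .ref 3531 [0, 1, 4, 2, 3] [1, 1, 0, 1, 1, 1], .ref 3532 [0, 1, 4, 2, 3] [1, 1, 0, 1, 1, 1], .ref 3537 [0, 1, 4, 2, 3] [1, 1, 1, 1, 1], .ref 3538 [0, 1, 4, 2, 3] [1, 0, 1, 1, 1, 1], .ref 3539 [0, 1, 4, 2, 3] [1, 0, 1, 1, 1, 1], .ref 3543 [0, 1, 4, 2, 3] [1, 1, 1, 1, 1], .ref 3544 [0, 1, 4, 2, 3] [1, 1, 1, 1, 1], .ref 3545 [0, 1, 4, 2, 3] [1, 0, 1, 1, 1, 1], .cyc [2, 7], .ref 3549 [0, 1, 4, 2, 3] [1, 1, 1, 1, 1], .ref 3550 [0, 1, 4, 2, 3] [1, 0, 1, 1, 1, 1], .ref 3551 [0, 1, 4, 2, 3] [1, 0, 1, 1, 1, 1]]),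
([m 0 1, g, s 2 0, g, s 4 2, m 1 3, g, m 3 0, g, m 0 4, g], .leaf [3, 5, 1, 6, 3, 4, 1]),
([m 0 1, g, p 2 0, g, s 4 2, m 1 3, g, m 3 0, g, m 0 4, g], .leaf [3, 5, 1, 6, 3, 4, 1]),
([m 0 1, g, m 2 0, g, s 4 2, m 1 3, g, m 3 0, g, m 0 4, g], .leaf [3, 1, 4, 1, 6, 3, 4, 1]),
([m 0 1, g, s 4 2, m 1 3, g, s 2 0, g, m 3 0, g, m 0 4, g], .leaf [1, 3, 1, 6, 3, 4, 1]),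
([m 0 1, g, s 4 2, m 1 3, g, p 2 0, g, m 3 0, g, m 0 4, g], .leaf [1, 3, 1, 6, 3, 4, 1]),
([m 0 1, g, s 4 2, m 1 3, g, m 2 0, g, m 3 0, g, m 0 4, g], .leaf [8, 6, 7, 5, 1, 4, 1]),
([m 0 0, g, s 2 0, g, s 3 0, m 0 1, g, m 1 2, g, m 0 3, g], .leaf [2, 6, 6, 4, 5]),
([m 0 1, g, s 5 2, m 1 3, g, s 4 0, g, m 3 4, g, s 2 0, g, m 0 5, g], .leaf [4, 7, 5, 8, 1, 6, 4, 2, 1]),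
([m 0 1, g, s 5 2, m 1 3, g, m 3 4, g, s 4 0, g, s 2 0, g, m 0 5, g], .leaf [1, 3, 1, 8, 5, 1, 3, 4, 1]),
([m 0 1, g, s 4 0, g, m 1 2, g, m 2 3, g, m 3 0, g, m 0 4, g], .leaf [9, 7, 8, 5, 5, 3, 3, 1]),
([m 0 1, g, s 4 0, g, m 1 2, g, m 2 3, g, m 3 4, g], .leaf [1, 4, 2, 5, 5, 3, 3, 1]),
([m 0 1, g, s 4 0, g, m 1 2, g, m 2 3, g, m 0 4, g, m 3 0, g], .leaf [1, 4, 2, 5, 7, 5, 5, 3]),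
([m 0 1, g, s 4 2, m 1 3, g, m 3 0, g, s 2 0, g, m 0 4, g], .inner (.hi 5) [.cyc [0, 3, 5], .ref 3559 [0, 3, 5, 4] [1, 1, 1, 3, 1], .ref 2622 [0, 1, 5] [1, 2, 1, 5], .ref 2623 [0, 5] [1, 4, 5], .ref 3560 [0, 1, 2, 3, 5, 4] [1, 1, 1, 1, 1, 1], .ref 3170 [0, 1, 3, 5] [2, 1, 1, 5], .ref 2623 [0, 5] [4, 1, 5], .ref 3561 [0, 1, 2, 3, 5, 4] [1, 1, 1, 1, 1, 1], .ref 3182 [0, 1, 3, 5] [2, 1, 1, 5], .ref 3562 [0, 1, 3, 5, 4] [1, 0, 1, 1, 3, 1], .ref 3376 [0, 1, 2, 3, 5] [1, 1, 1, 1, 3], .ref 3182 [0, 1, 3, 5] [2, 1, 3, 3], .ref 3562 [0, 1, 3, 5, 4] [1, 0, 1, 3, 1, 1], .ref 3563 [0, 1, 3, 5, 4] [1, 0, 1, 3, 1], .ref 3376 [0, 1, 2, 3, 5] [1, 1, 1, 3, 1], .ref 3182 [0, 1, 3, 5] [2, 1, 5, 1], .ref 3564 [0, 1, 3, 5, 4] [1, 0, 1,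 3, 1, 1]]),
([m 0 1, g, s 4 2, m 1 3, g, m 3 0, g, p 2 0, g, m 0 4, g], .leaf [3, 5, 4, 7, 1, 5, 3, 1]),
([m 0 1, g, s 4 2, g, m 1 3, g, m 3 0, g, m 2 0, g, m 0 4, g], .leaf [1, 8, 5, 1, 4, 5, 3, 1]),
([m 0 1, g, s 5 2, m 1 3, g, s 4 0, g, m 3 4, g, m 0 5, g, s 2 0, g], .leaf [4, 7, 5, 8, 1, 6, 4, 2, 1]),
([m 0 1, g, s 5 2, m 1 3, g, m 3 4, g, s 4 0, g, m 0 5, g, s 2 0, g], .leaf [4, 5, 3, 8, 1, 6, 2, 0, 1]),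
([m 0 1, g, s 4 0, m 1 2, g, m 2 3, g, m 0 4, g, s 3 0, g], .leaf [2, 6, 1, 6, 4, 0, 3]),
([m 0 1, g, s 4 2, m 1 3, g, m 3 0, g, m 0 4, g, s 2 0, g], .inner (.hi 5) [.cyc [0, 3, 5], .ref 3559 [0, 3, 5, 4] [1, 1, 1, 1, 3], .ref 2622 [0, 1, 5] [1, 2, 1, 5], .ref 2623 [0, 5] [1, 4, 5], .ref 3568 [0, 1, 2, 3, 5, 4] [1, 1, 1, 1, 1, 1], .ref 3170 [0, 1, 3, 5] [2, 1, 1, 5], .ref 2623 [0, 5] [4, 1, 5], .ref 3569 [0, 1, 2, 3, 5, 4] [1, 1, 1, 1, 1, 1], .ref 3182 [0, 1, 3, 5] [2, 1, 1, 5], .ref 3562 [0, 1, 3, 5, 4] [1, 0, 1, 1, 1, 3], .ref 3563 [0, 1, 3, 5, 4] [1, 0, 1, 1, 3], .ref 3570 [0, 1, 3, 5, 4] [1, 1, 1, 1, 3], .ref 3182 [0, 1, 3, 5] [2, 1, 3, 3], .ref 3564 [0, 1, 3, 5, 4] [1, 0, 1, 1, 1, 3], .ref 3570 [0, 1, 3, 5, 4]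 [1, 1, 1, 3, 1], .ref 3182 [0, 1, 3, 5] [2, 1, 5, 1], .ref 3564 [0, 1, 3, 5, 4] [1, 0, 1, 1, 3, 1]]),
([m 0 1, g, s 4 2, m 1 3, g, m 3 0, g, m 0 4, g, p 2 0, g], .leaf [3, 5, 4, 7, 1, 5, 3, 1]),
([m 0 1, g, s 4 2, m 1 3, g, m 3 0, g, m 0 4, g, m 2 0, g], .leaf [6, 4, 5, 3, 4, 5, 4, 1]),
([m 0 1, g, s 3 0, m 1 2, g, m 2 0, g, m 0 3, g], .inner (.hi 2) [.ref 3283 [0, 1, 4, 2] [1, 1, 3], .ref 3553 [0, 1, 4, 2, 3] [1, 1, 1, 1, 1], .ref 3554 [0, 1, 4, 2, 3] [1, 1, 1, 1, 1], .ref 3555 [0, 1, 4, 2, 3] [1, 1, 1, 1, 1], .ref 3556 [0, 1, 4, 2, 3] [1, 1, 1, 1, 1], .ref 3557 [0, 1, 4, 2, 3] [1, 1, 1, 1, 1], .ref 3558 [0, 1, 4, 2, 3] [1, 1, 1, 1, 1], .ref 3565 [0, 1, 4, 2, 3] [1, 1, 1, 1, 1], .ref 3566 [0, 1, 4, 2, 3] [1, 1, 1,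 1, 1], .ref 3567 [0, 1, 4, 2, 3] [1, 0, 1, 1, 1, 1], .cyc [2, 7], .ref 3571 [0, 1, 4, 2, 3] [1, 1, 1, 1, 1], .ref 3572 [0, 1, 4, 2, 3] [1, 1, 1, 1, 1], .ref 3573 [0, 1, 4, 2, 3] [1, 1, 1, 1, 1]]),
([m 0 1, g, s 0 0, m 1 2, g, m 2 0, g], .inner (.lo 2) [.ref 3259 [0, 1, 3, 2] [1, 1, 1, 1], .ref 3265 [0, 1, 3, 2] [1, 1, 1, 1], .ref 3279 [0, 1, 3, 2] [1, 1, 1, 1], .cyc [2], .ref 3313 [0, 1, 2, 3] [1, 1, 1, 1], .ref 3344 [0, 1, 2, 3] [1, 1, 1, 1], .ref 3362 [0, 1, 2, 3] [1, 1, 1, 1], .ref 3372 [0, 1, 2, 3] [1, 1, 1], .ref 3524 [0, 1, 2, 3] [1, 1, 1, 1], .ref 3552 [0, 1, 2, 3] [1, 1, 1, 1], .ref 3574 [0, 1, 2, 3] [1, 1, 1, 1]]),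
([m 0 1, g, s 0 2, g, s 3 0, g, p 2 3, m 1 4, g, m 4 0, g], .leaf [5, 7, 1, 2, 6, 4, 1]),
([m 0 1, g, s 3 0, g, s 0 2, g, p 2 3, m 1 4, g, m 4 0, g], .leaf [5, 7, 1, 4, 6, 2, 3]),
([m 0 1, g, s 2 0, g, p 4 2, m 1 3, g, s 0 4, g, m 3 0, g], .leaf [3, 5, 1, 4, 6, 2, 3]),
([m 0 1, g, s 2 0, g, p 4 2, g, m 1 3, g, p 0 4, g, m 3 0, g], .leaf [4, 1, 5, 1, 5, 1, 5, 1]),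
([m 0 1, g, s 2 0, g, p 4 2, m 1 3, g, m 3 0, g, s 0 4, g], .leaf [3, 5, 1, 6, 3, 4, 1]),
([m 0 1, g, s 2 0, g, p 4 2, g, m 1 3, g, m 3 0, g, p 0 4, g], .leaf [4, 1, 5, 1, 7, 3, 5, 3]),
([m 0 1, g, s 2 0, g, p 0 2, m 1 3, g, m 3 0, g], .inner (.lo 4) [.ref 3576 [0, 1, 4, 2, 3] [1, 1, 1, 1, 1], .ref 2612 [0, 4] [1, 3, 4], .ref 2641 [0, 1, 4] [1, 3, 0, 3], .cyc [2, 4], .ref 3577 [0, 1, 4, 2, 3] [1, 1, 1, 1, 1], .ref 2612 [0, 4] [3, 1, 4], .ref 2641 [0, 1, 4] [3, 1, 0, 3], .ref 3578 [0, 1, 2, 3, 4] [1, 1, 1, 1, 1], .ref 3579 [0, 1, 2, 3, 4] [1, 1, 0, 1, 1, 1], .ref 2622 [0, 1, 4] [3, 0, 1, 3], .ref 2622 [0, 1, 4] [3, 0, 1, 1], .ref 3580 [0, 1, 2, 3, 4] [1, 1, 1, 1, 1], .ref 3581 [0, 1, 2, 3, 4] [1, 1, 0, 1, 1, 1], .ref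 2622 [0, 1, 4] [3, 0, 3, 1]]),
([m 0 1, g, s 2 0, g, p 3 2, g, p 0 3, m 1 4, g, m 4 0, g], .leaf [2, 7, 4, 1, 4, 6, 4, 1])]

def D13 : List (List (List Item × Pf)) := [d13_0, d13_1, d13_2, d13_3]

end Pool.Agent.H63.PU.C138
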