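import Pool.Agent.H63.PU.C138.D00
import Pool.Agent.H63.PU.C138.D01
import Pool.Agent.H63.PU.C138.D02
import Pool.Agent.H63.PU.C138.D03
import Pool.Agent.H63.PU.C138.D04
import Pool.Agent.H63.PU.C138.D05
import Pool.Agent.H63.PU.C138.D06
import Pool.Agent.H63.PU.C138.D07
import Pool.Agent.H63.PU.C138.D08
import Pool.Agent.H63.PU.C138.D09
import Pool.Agent.H63.PU.C138.D10
import Pool.Agent.H63.PU.C138.D11
import Pool.Agent.H63.PU.C138.D12
import Pool.Agent.H63.PU.C138.D13
import Pool.Agent.H63.PU.C138.D14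

/-! The certificate. -/

namespace Pool.Agent.H63.PU.C138

open Pool.Agent.H63.PU

def chunks : List (List (List (List Item × Pf))) := [D00, D01, D02, D03, D04, D05, D06, D07, D08, D09, D10, D11, D12, D13, D14]

def cert : Cert := fun j =>
  (((chunks.getD (j / 256) []).getD ((j % 256) / 64) []).getD (j % 64) ([], .leaf []))

def W : Wts := ⟨13, 17, 8⟩

end Pool.Agent.H63.PU.C138
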