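import Pool.Agent.H63.PU.Short

/-! Certificate data, machine generated. -/

namespace Pool.Agent.H63.PU.C138

open Pool.Agent.H63.PU Pool.Agent.H63.PU.Short

set_option maxRecDepth 20000

def d00_0 : List (List Item × Pf) := [
([s 0 1, g, s 1 0, g], .leaf [1]),
([s 0 1, g, p 1 0, g], .leaf [1]),
([s 1 0, g, s 0 1, g], .leaf [1]),
([s 1 0, g, s 2 0, g, p 0 1, m 0 2, g], .leaf [2, 4, 1]),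
([s 2 0, g, s 0 1, g, p 3 0, g, p 1 2, m 0 3, g], .leaf [2, 5, 1, 4, 1]),
([s 0 0, g, p 0 1, g, p 1 0, g], .leaf [2, 3]),
([s 2 0, g, m 0 1, g, p 3 0, g, p 1 2, m 0 3, g], .leaf [5, 1, 5, 0, 1]),
([s 2 0, g, p 3 0, g, s 0 1, g, p 1 2, m 0 3, g], .leaf [3, 1, 5, 2, 1]),
([s 2 0, g, p 3 0, g, m 0 1, g, p 1 2, m 0 3, g], .leaf [3, 1, 5, 2, 1]),
([s 1 0, g, p 2 0, g, p 3 1, m 0 2, g, s 0 3, g], .leaf [3, 1, 3, 0, 3]),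
([s 2 1, g, p 3 0, g, p 4 2, g, m 1 3, g, p 0 4, g], .leaf [1, 4, 2, 3, 5, 3, 3, 1]),
([s 1 0, g, p 2 0, g, p 3 1, m 0 2, g, m 0 3, g], .leaf [3, 1, 3, 0, 3]),
([s 2 1, g, p 3 0, g, p 0 2, m 1 3, g], .inner (.lo 4) [.ref 4 [0, 4, 2, 3] [1, 1, 1, 1], .ref 5 [0, 4] [1, 3, 2], .ref 6 [0, 4, 2, 3] [1, 1, 1, 1], .cyc [0, 5, 2, 4], .ref 7 [0, 4, 2, 3] [1, 1, 1, 1], .ref 5 [0, 4] [3, 1, 2], .ref 8 [0, 4, 2, 3] [1, 1, 1, 1], .ref 9 [0, 2, 3, 4] [1, 1, 1, 1], .ref 10 [0, 1, 2, 3, 4] [1, 1, 0, 1, 1], .ref 11 [0, 2, 3, 4] [1, 1, 1, 1]]),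
([s 0 0, g, m 1 0, g, m 0 1, g], .leaf [2, 3]),
([s 2 1, g, p 0 2, m 1 3, g, s 3 0, g], .leaf [2, 1, 2, 0, 1]),
([s 2 1, g, p 0 2, m 1 3, g, p 3 0, g], .leaf [2, 1, 2, 0, 1]),
([s 1 0, g, s 3 0, g, p 0 1, m 0 2, g, m 2 3, g], .leaf [2, 6, 6, 4, 1]),
([s 2 1, g, p 4 0, g, p 0 2, m 1 3, g, m 3 4, g], .leaf [2, 0, 6, 6, 4, 1, 3, 1]),
([s 2 1, g, p 0 2, m 1 3, g, s 4 0, g, m 3 4, g], .leaf [4, 7, 5, 1, 4, 2, 1]),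
([s 2 1, g, p 0 2, m 1 3, g, p 4 0, g, m 3 4, g], .leaf [4, 7, 5, 1, 4, 2, 1]),
([s 2 1, g, p 0 2, m 1 3, g, m 3 4, g, s 4 0, g], .leaf [4, 5, 3, 1, 2, 0, 1]),
([s 2 1, g, p 0 2, m 1 3, g, m 3 4, g, p 4 0, g], .leaf [4, 5, 3, 1, 2, 0, 1]),
([s 2 1, g, p 0 2, m 1 3, g, m 3 4, g, m 4 0, g], .leaf [5, 7, 6, 6, 4, 1, 3, 1]),
([s 2 1, g, p 0 2, m 1 3, g, m 3 0, g], .inner (.hi 5) [.ref 16 [0, 2, 3, 4] [1, 1, 1, 1], .ref 17 [0, 1, 2, 3, 4] [1, 1, 1, 1], .ref 13 [0, 4] [1, 4, 1], .cyc [0, 3, 5, 2], .ref 18 [0, 1, 2, 3, 4] [1, 1, 1, 1], .ref 19 [0, 1, 2, 3, 4] [1, 1, 1, 1], .ref 13 [0, 4] [4, 1, 1], .ref 20 [0, 1, 2, 3, 4] [1, 1, 1, 1], .ref 21 [0, 1, 2, 3, 4] [1, 1, 1, 1], .ref 22 [0, 1, 2, 3, 4] [1, 1, 1, 1]]),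
([s 2 1, g, p 0 2, m 1 0, g], .inner (.hi 3) [.ref 3 [0, 2, 3] [1, 1, 1], .ref 12 [0, 1, 2, 3] [1, 1, 1], .ref 13 [0, 3] [1, 2, 1], .cyc [0, 3, 2], .ref 14 [0, 1, 2, 3] [1, 1, 1], .ref 15 [0, 1, 2, 3] [1, 1, 1], .ref 23 [0, 1, 2, 3] [1, 1, 1]]),
([s 4 1, s 3 2, g, s 0 3, g, p 0 4, s 2 0, g, m 1 0, g], .leaf [1, 5, 3, 6, 2, 3]),
([s 4 1, s 3 2, g, p 0 3, g, p 0 4, s 2 0, g, m 1 0, g], .leaf [1, 5, 3, 6, 2, 3]),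
([s 2 0, s 1 0, g, m 0 1, g, p 0 2, g], .leaf [5, 4, 1]),
([s 3 1, s 4 2, g, p 0 3, s 2 0, g, s 0 4, g, m 1 0, g], .leaf [1, 5, 7, 2, 4, 1]),
([s 3 1, s 4 2, g, p 0 3, g, s 2 0, g, p 0 4, g, m 1 0, g], .leaf [5, 3, 8, 3, 1, 2, 3]),
([s 1 0, s 2 0, g, p 0 1, g, m 0 2, g], .leaf [3, 2, 3]),
([s 3 1, s 4 2, g, p 0 3, s 2 0, g, m 1 0, g, s 0 4, g], .leaf [1, 3, 1, 4, 2, 3]),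
([s 3 1, g, s 4 2, g, p 0 3, s 2 0, g, m 1 0, g, p 0 4, g], .leaf [4, 3, 6, 2, 3, 5, 1]),
([s 3 1, s 0 2, g, p 0 3, s 2 0, g, m 1 0, g], .inner (.lo 1) [.ref 25 [0, 1, 2, 4, 3] [1, 1, 1, 1], .ref 26 [0, 1, 2, 4, 3] [1, 1, 1, 1], .ref 27 [0, 4, 3] [1, 1, 4], .cyc [1, 4], .ref 28 [0, 1, 2, 3, 4] [1, 1, 1, 1], .ref 29 [0, 1, 2, 3, 4] [1, 0, 1, 1, 1], .ref 30 [0, 3, 4] [1, 2, 3], .ref 30 [0, 3, 4] [1, 2, 1], .ref 31 [0, 1, 2, 3, 4] [1, 1, 1, 1], .ref 32 [0, 1, 2, 3, 4] [0, 1, 1, 1, 1], .ref 30 [0, 3, 4] [1, 4, 1]]),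
([s 4 1, s 0 2, g, s 2 0, g, s 0 3, g, p 0 4, s 3 0, g, m 1 0, g], .leaf [2, 10, 7, 7, 2, 3]),
([s 0 1, s 0 2, g, p 2 0, g, m 1 0, g], .leaf [5, 4, 1]),
([s 4 0, s 2 1, g, s 0 2, g, m 1 0, g, s 0 3, g, p 0 4, s 3 0, g], .leaf [5, 3, 6, 7, 4, 1]),
([s 4 0, s 2 1, g, p 0 2, g, m 1 0, g, s 0 3, g, p 0 4, s 3 0, g], .leaf [5, 3, 6, 7, 4, 1]),
([s 4 0, s 2 1, g, m 1 0, g, s 0 2, g, s 0 3, g, p 0 4, s 3 0, g], .leaf [3, 1, 6, 7, 2, 3]),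
([s 4 0, s 2 1, g, m 1 0, g, p 0 2, g, s 0 3, g, p 0 4, s 3 0, g], .leaf [5, 3, 6, 7, 4, 1]),
([s 4 0, s 3 1, g, m 1 0, g, s 0 2, g, s 0 3, g, p 0 4, s 2 0, g], .leaf [3, 1, 4, 7, 4, 1]),
([s 4 1, s 3 0, g, s 0 2, g, p 0 3, g, p 0 4, s 2 0, g, m 1 0, g], .leaf [3, 7, 3, 8, 4, 5]),
([s 3 0, s 4 1, g, m 1 0, g, s 0 2, g, p 0 3, s 2 4, g], .leaf [8, 6, 3, 4, 4, 1]),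
([s 3 0, s 4 1, g, m 1 0, g, s 0 2, g, p 0 3, s 2 0, g, s 0 4, g], .leaf [3, 1, 4, 5, 2, 5]),
([s 3 0, s 4 1, g, m 1 0, g, s 0 2, g, p 0 3, s 2 0, g, p 0 4, g], .leaf [10, 8, 3, 4, 6, 3]),
([s 4 1, s 0 2, g, m 2 0, g, s 0 3, g, p 0 4, s 3 0, g, m 1 0, g], .inner (.lo 1) [.ref 36 [0, 2, 5, 3, 4] [1, 1, 1, 1, 3], .ref 37 [0, 2, 5, 3, 4] [1, 1, 1, 1, 3], .ref 27 [0, 5, 4] [1, 5, 4], .cyc [1, 3], .ref 38 [0, 2, 5, 3, 4] [1, 1, 1, 1, 3], .ref 39 [0, 2, 5, 3, 4] [1, 1, 1, 1, 3], .ref 27 [0, 5, 4] [3, 3, 4], .ref 40 [0, 2, 3, 5, 4] [1, 1, 1, 1, 3], .ref 41 [0, 1, 3, 5, 4] [3, 1, 1, 1, 1], .ref 27 [0, 5, 4] [5, 1, 4], .ref 42 [0, 2, 3, 4, 5] [1, 1, 1, 3], .ref 43 [0, 2, 3, 4, 5] [1, 1, 1, 1, 3], .ref 44 [0, 2, 3, 4, 5] [1, 1,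 1, 1, 3], .ref 30 [0, 4, 5] [5, 2, 3], .ref 30 [0, 4, 5] [5, 2, 1], .ref 43 [0, 2, 3, 4, 5] [1, 1, 1, 3, 1], .ref 44 [0, 2, 3, 4, 5] [1, 1, 1, 3, 1], .ref 30 [0, 4, 5] [5, 4, 1]]),
([s 4 1, s 0 2, g, s 2 3, g, p 0 4, s 3 0, g, m 1 0, g], .leaf [2, 8, 5, 5, 2, 3]),
([s 4 1, s 0 2, g, s 0 3, g, s 2 0, g, p 0 4, s 3 0, g, m 1 0, g], .leaf [3, 7, 3, 8, 4, 5]),
([s 4 1, s 0 2, g, s 0 3, g, m 2 0, g, p 0 4, s 3 0, g, m 1 0, g], .leaf [3, 7, 3, 8, 4, 5]),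
([s 2 0, s 0 1, g, p 1 2, g], .leaf [3, 2, 1]),
([s 4 1, s 0 2, g, s 0 3, g, p 0 4, s 3 0, g, s 2 0, g, m 1 0, g], .leaf [3, 5, 1, 8, 6, 3]),
([s 4 0, s 2 1, g, s 0 2, g, s 0 3, g, p 0 4, s 3 0, g, m 1 0, g], .leaf [10, 8, 3, 4, 6, 3]),
([s 4 0, s 2 1, g, p 0 2, g, s 0 3, g, p 0 4, s 3 0, g, m 1 0, g], .leaf [10, 8, 3, 4, 6, 3]),
([s 4 0, s 3 1, g, s 0 2, g, s 0 3, g, p 0 4, s 2 0, g, m 1 0, g], .leaf [10, 8, 1, 4, 6, 3]),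
([s 3 0, s 4 1, g, s 0 2, g, p 0 3, s 2 4, g, m 1 0, g], .leaf [6, 2, 7, 2, 4, 1]),
([s 3 0, s 4 1, g, s 0 2, g, p 0 3, s 2 0, g, s 0 4, g, m 1 0, g], .leaf [8, 6, 9, 2, 4, 5]),
([s 2 0, s 3 1, g, p 0 2, g, p 0 3, g, m 1 0, g], .leaf [5, 3, 6, 2, 3]),
([s 3 0, s 4 1, g, s 0 2, g, p 0 3, s 2 0, g, m 1 0, g, s 0 4, g], .leaf [8, 6, 1, 2, 4, 5]),
([s 2 0, s 3 1, g, p 0 2, g, m 1 0, g, p 0 3, g], .leaf [5, 3, 6, 2, 3]),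
([s 4 1, s 0 2, g, s 0 3, g, p 0 4, s 3 0, g, m 2 0, g, m 1 0, g], .inner (.lo 1) [.ref 51 [0, 2, 5, 3, 4] [1, 1, 1, 1, 3], .ref 52 [0, 2, 5, 3, 4] [1, 1, 1, 1, 3], .ref 27 [0, 5, 4] [1, 3, 6], .ref 53 [0, 2, 3, 5, 4] [1, 1, 1, 1, 3], .ref 41 [0, 1, 3, 5, 4] [1, 1, 1, 3, 1], .ref 27 [0, 5, 4] [3, 1, 6], .ref 54 [0, 2, 3, 4, 5] [1, 1, 1, 3], .ref 55 [0, 2, 3, 4, 5] [1, 1, 1, 1, 3], .ref 56 [0, 2, 4, 5] [3, 2, 1, 3], .ref 30 [0, 4, 5] [3, 2, 5], .cyc [1, 8], .ref 57 [0, 2, 3, 4, 5] [1, 1, 1, 1, 3], .ref 58 [0, 2, 4, 5] [3, 2, 1, 3], .ref 30 [0, 4, 5] [3, 4, 3], .ref 30 [0, 4, 5] [3, 4, 1], .ref 57 [0, 2, 3, 4, 5] [1, 1, 1, 3, 1], .ref 58 [0, 2, 4, 5] [3, 2, 3, 1], .ref 30 [0, 4, 5] [3, 6, 1]]),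
([s 4 1, s 0 2, g, s 0 3, g, p 0 4, s 3 0, g, m 1 0, g, s 2 0, g], .leaf [3, 5, 1, 6, 4, 5]),
([s 0 1, s 0 2, g, m 1 0, g, p 2 0, g], .leaf [3, 2, 3]),
([s 4 1, s 0 2, g, s 0 3, g, p 0 4, s 3 0, g, m 1 0, g, m 2 0, g], .inner (.lo 1) [.ref 51 [0, 2, 5, 3, 4] [1, 1, 1, 3, 1], .ref 52 [0, 2, 5, 3, 4] [1, 1, 1, 3, 1], .ref 27 [0, 5, 4] [1, 3, 6], .ref 53 [0, 2, 3, 5, 4] [1, 1, 1, 3, 1], .ref 41 [0, 1, 3, 5, 4] [1, 1, 1, 1, 3], .ref 27 [0, 5, 4] [3, 1, 6], .ref 54 [0, 2, 3, 4, 5] [1, 1, 3, 1], .ref 55 [0, 2, 3, 4, 5] [1, 1, 1, 3, 1], .ref 56 [0, 2, 4, 5] [3, 2, 3, 1], .ref 30 [0, 4, 5] [3, 2, 5], .ref 30 [0, 4, 5] [3, 2, 3], .ref 55 [0, 2, 3, 4, 5] [1, 1, 3, 1, 1], .ref 56 [0, 2, 4, 5] [3, 4, 1, 1], .ref 30 [0, 4, 5] [3,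 4, 3], .cyc [1, 10], .ref 57 [0, 2, 3, 4, 5] [1, 1, 3, 1, 1], .ref 58 [0, 2, 4, 5] [3, 4, 1, 1], .ref 30 [0, 4, 5] [3, 6, 1]]),
([s 3 1, s 0 0, g, s 0 2, g, p 0 3, s 2 0, g, m 1 0, g], .inner (.hi 1) [.cyc [1], .ref 34 [0, 1, 4, 2, 3] [1, 1, 1, 1, 1], .ref 35 [0, 1, 4] [1, 6, 1], .ref 45 [0, 1, 4, 2, 3] [1, 1, 1, 1, 1], .ref 46 [0, 1, 4, 2, 3] [1, 1, 1, 1], .ref 47 [0, 1, 4, 2, 3] [1, 1, 1, 1, 1], .ref 35 [0, 1, 4] [3, 4, 1], .ref 48 [0, 1, 4, 2, 3] [1, 1, 1, 1, 1], .ref 49 [0, 4, 3] [3, 4], .ref 50 [0, 1, 4, 2, 3] [1, 1, 1, 1, 1], .ref 35 [0, 1, 4] [6, 1, 1], .ref 59 [0, 1, 4, 2, 3] [1, 1, 1, 1, 1], .ref 60 [0, 1, 4, 2, 3] [1, 1, 1, 1, 1], .ref 61 [0, 1, 4] [6, 1, 1], .ref 62 [0, 1, 4, 2, 3] [1, 1, 1, 1, 1]])]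

def d00_1 : List (List Item × Pf) := [
([s 2 0, p 1 0, g, s 0 1, g, p 0 2, g], .leaf [5, 4, 1]),
([s 4 1, p 2 0, g, p 0 2, g, s 0 3, g, p 0 4, s 3 0, g, m 1 0, g], .leaf [1, 10, 8, 1, 7, 2, 3]),
([s 2 0, p 1 0, g, m 0 1, g, p 0 2, g], .leaf [5, 4, 1]),
([s 4 1, p 3 0, g, s 0 2, g, p 0 3, g, p 0 4, s 2 0, g, m 1 0, g], .leaf [3, 7, 3, 8, 4, 5]),
([s 1 0, p 2 0, g, p 0 1, g, s 0 2, g], .leaf [3, 2, 3]),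
([s 3 1, p 4 0, g, s 0 2, g, p 0 3, g, s 2 0, g, p 0 4, g, m 1 0, g], .leaf [2, 11, 8, 3, 5, 6, 1]),
([s 1 0, p 2 0, g, p 0 1, g, m 0 2, g], .leaf [3, 2, 3]),
([s 3 1, g, p 4 0, g, s 0 2, g, p 0 3, s 2 0, g, m 1 0, g, p 0 4, g], .leaf [6, 5, 8, 2, 3, 7, 1]),
([s 3 1, p 0 0, g, s 0 2, g, p 0 3, s 2 0, g, m 1 0, g], .inner (.lo 1) [.cyc [1], .ref 64 [0, 4, 3] [1, 3, 4], .ref 65 [0, 1, 4, 2, 3] [1, 1, 1, 1, 1], .ref 66 [0, 4, 3] [1, 3, 4], .ref 64 [0, 4, 3] [3, 1, 4], .ref 67 [0, 1, 2, 4, 3] [1, 1, 1, 1, 1], .ref 66 [0, 4, 3] [3, 1, 4], .ref 68 [0, 3, 4] [3, 0, 3], .ref 68 [0, 3, 4] [3, 2, 3], .ref 69 [0, 1, 2, 3, 4] [1, 1, 0, 1, 1, 1], .ref 70 [0, 3, 4] [3, 2, 3], .ref 70 [0, 3, 4] [3, 2, 1], .ref 68 [0, 3, 4] [3, 4, 1],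 .ref 71 [0, 1, 2, 3, 4] [0, 1, 1, 1, 1, 1], .ref 70 [0, 3, 4] [3, 4, 1]]),
([s 0 1, m 0 2, g, s 2 0, g, m 1 0, g], .leaf [5, 4, 1]),
([s 0 1, m 0 2, g, p 2 0, g, m 1 0, g], .leaf [5, 4, 1]),
([s 4 1, m 0 2, g, m 2 0, g, s 0 3, g, p 0 4, s 3 0, g, m 1 0, g], .leaf [1, 10, 8, 1, 7, 2, 3]),
([s 4 1, m 0 2, g, s 0 3, g, m 2 0, g, p 0 4, s 3 0, g, m 1 0, g], .leaf [3, 7, 3, 8, 4, 5]),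
([s 2 0, m 0 1, g, p 1 2, g], .leaf [3, 2, 1]),
([s 4 1, m 0 2, g, s 0 3, g, p 0 4, g, s 3 0, g, m 2 0, g, m 1 0, g], .leaf [2, 11, 8, 3, 5, 6, 1]),
([s 0 1, m 0 2, g, m 1 0, g, s 2 0, g], .leaf [3, 2, 3]),
([s 0 1, m 0 2, g, m 1 0, g, p 2 0, g], .leaf [3, 2, 3]),
([s 4 1, g, m 0 2, g, s 0 3, g, p 0 4, s 3 0, g, m 1 0, g, m 2 0, g], .leaf [6, 5, 8, 2, 3, 7, 1]),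
([s 3 1, m 0 0, g, s 0 2, g, p 0 3, s 2 0, g, m 1 0, g], .inner (.hi 1) [.cyc [1], .ref 73 [0, 1, 4] [1, 6, 1], .ref 74 [0, 1, 4] [1, 6, 1], .ref 75 [0, 1, 4, 2, 3] [1, 1, 1, 1, 1], .ref 73 [0, 1, 4] [1, 4, 1], .ref 73 [0, 1, 4] [3, 4, 1], .ref 74 [0, 1, 4] [3, 4, 1], .ref 76 [0, 1, 4, 2, 3] [1, 1, 1, 1, 1], .ref 77 [0, 4, 3] [3, 4], .ref 73 [0, 1, 4] [6, 1, 1], .ref 74 [0, 1, 4] [6, 1, 1], .ref 78 [0, 1, 4, 2, 3] [1, 1, 0, 1, 1, 1], .ref 79 [0, 1, 4] [6, 1, 1], .ref 80 [0, 1, 4] [6, 1, 1], .ref 81 [0, 1, 4, 2, 3] [0, 1, 1, 1, 1, 1]]),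
([s 3 1, g, s 0 2, g, p 0 3, s 2 0, g, m 1 0, g], .inner (.top 1) [.ref 33 [0, 1, 2, 3] [1, 1, 1], .ref 63 [0, 1, 2, 3] [1, 1, 1, 1], .ref 72 [0, 1, 2, 3] [1, 1, 1, 1], .ref 82 [0, 1, 2, 3] [1, 1, 1, 1]]),
([s 2 0, g, p 0 1, g, p 0 2, s 1 0, g], .leaf [2, 4, 1]),
([s 3 1, s 4 2, g, s 2 0, g, p 0 3, s 0 4, g, m 1 0, g], .leaf [1, 5, 3, 6, 2, 3]),
([s 3 1, s 0 2, g, s 4 0, g, s 2 0, g, p 0 3, s 0 4, g, m 1 0, g], .leaf [3, 7, 3, 8, 4, 5]),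
([s 3 1, s 0 2, g, p 4 0, g, s 2 0, g, p 0 3, s 0 4, g, m 1 0, g], .leaf [4, 10, 5, 5, 2, 5]),
([s 1 0, g, m 2 0, g, p 0 1, s 0 2, g], .leaf [2, 4, 1]),
([s 3 1, s 0 2, g, s 2 0, g, s 4 0, g, p 0 3, s 0 4, g, m 1 0, g], .leaf [2, 10, 7, 7, 2, 3]),
([s 4 1, g, s 0 2, g, p 5 0, g, m 2 3, g, p 0 4, s 3 5, g, m 1 0, g], .leaf [6, 3, 10, 4, 6, 3, 6, 2, 3]),
([s 4 1, g, s 0 2, g, m 2 3, g, p 5 0, g, p 0 4, s 3 5, g, m 1 0, g], .leaf [4, 1, 10, 6, 8, 3, 6, 2, 3]),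
([s 4 1, g, s 0 2, g, m 2 3, g, p 5 4, s 3 5, g, m 1 0, g], .leaf [4, 1, 8, 4, 6, 3, 4, 0, 1]),
([s 3 0, s 0 1, g, s 1 0, g, m 0 2, g, p 0 3, s 2 4, g, s 4 0, g], .leaf [10, 1, 4, 2, 6, 1]),
([s 2 1, g, p 0 2, s 0 3, g, p 3 0, g, m 1 0, g], .leaf [2, 1, 6, 4, 1]),
([s 2 0, g, m 0 1, g, p 0 2, s 1 3, g, m 3 0, g], .leaf [7, 1, 4, 2, 3]),
([s 2 1, g, p 0 2, s 0 3, g, m 1 0, g, p 3 0, g], .leaf [2, 1, 4, 2, 3]),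
([s 5 1, s 0 2, g, s 0 3, g, s 2 0, g, m 3 4, g, p 0 5, s 4 0, g, m 1 0, g], .inner (.hi 10) [.ref 85 [0, 1, 2, 5, 6] [3, 3, 1, 1], .ref 86 [0, 1, 2, 5, 6] [1, 3, 3, 1, 1], .ref 87 [0, 1, 2, 5, 6] [1, 3, 3, 1, 1], .ref 88 [0, 5, 6] [2, 7, 3], .cyc [3, 7, 10], .ref 86 [0, 1, 2, 5, 6] [3, 1, 3, 1, 1], .ref 87 [0, 1, 2, 5, 6] [3, 1, 3, 1, 1], .ref 88 [0, 5, 6] [4, 5, 3], .ref 89 [0, 1, 2, 5, 6] [3, 1, 3, 1, 1], .ref 90 [0, 1, 3, 4, 5, 6] [2, 3, 1, 1, 1, 1], .ref 88 [0, 5, 6] [6, 3, 3], .ref 89 [0, 1, 2, 5, 6] [3, 3, 1, 1, 1], .ref 91 [0, 1, 3, 4, 5, 6] [2, 3, 1, 1, 1, 1], .ref 88 [0, 5, 6] [8, 1, 3], .ref 92 [0, 1, 3, 4, 5, 6] [2, 3, 1, 1, 1], .ref 93 [0, 2, 4, 5, 6] [3, 1, 1, 1, 3], .ref 94 [0, 1, 5, 6] [8, 1, 1, 1], .ref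 95 [0, 4, 5, 6] [6, 1, 1, 3], .ref 93 [0, 2, 4, 5, 6] [3, 1, 1, 3, 1], .ref 96 [0, 1, 5, 6] [8, 1, 1, 1], .ref 95 [0, 4, 5, 6] [6, 1, 3, 1]]),
([s 0 0, g, p 0 1, g, m 1 0, g], .leaf [4, 1]),
([s 4 1, s 0 2, g, m 0 3, g, s 2 0, g, m 3 0, g, p 0 4, g, m 1 0, g], .leaf [4, 7, 5, 9, 6, 6, 1]),
([s 4 1, s 0 2, g, s 2 3, g, m 3 0, g, p 0 4, g, m 1 0, g], .leaf [2, 5, 1, 7, 4, 4, 1]),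
([s 3 1, g, p 4 0, g, s 0 2, g, m 2 0, g, p 0 3, s 0 4, g, m 1 0, g], .leaf [6, 1, 3, 6, 1, 7, 5]),
([s 5 1, s 0 2, g, s 2 0, g, s 0 3, g, m 3 4, g, p 0 5, s 4 0, g, m 1 0, g], .inner (.hi 10) [.ref 85 [0, 1, 2, 5, 6] [1, 5, 1, 1], .ref 86 [0, 1, 2, 5, 6] [1, 1, 5, 1, 1], .ref 87 [0, 1, 2, 5, 6] [1, 1, 5, 1, 1], .ref 88 [0, 5, 6] [2, 7, 3], .ref 89 [0, 1, 2, 5, 6] [1, 1, 5, 1, 1], .ref 101 [0, 1, 3, 5, 6] [4, 1, 1, 1, 1, 1], .ref 88 [0, 5, 6] [4, 5, 3], .cyc [5, 7, 10], .ref 89 [0, 1, 2, 5, 6] [1, 3, 3, 1, 1], .ref 90 [0, 1, 3, 4, 5, 6] [4, 1, 1, 1, 1, 1], .ref 88 [0, 5, 6] [6, 3, 3], .ref 89 [0, 1, 2, 5, 6] [1, 5, 1, 1, 1], .ref 91 [0, 1, 3, 4, 5, 6] [4, 1, 1, 1, 1, 1], .ref 88 [0, 5, 6] [8, 1, 3], .ref 92 [0, 1, 3,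 4, 5, 6] [4, 1, 1, 1, 1], .ref 93 [0, 2, 4, 5, 6] [1, 3, 1, 1, 3], .ref 94 [0, 1, 5, 6] [8, 1, 1, 1], .ref 95 [0, 4, 5, 6] [6, 1, 1, 3], .ref 93 [0, 2, 4, 5, 6] [1, 3, 1, 3, 1], .ref 96 [0, 1, 5, 6] [8, 1, 1, 1], .ref 95 [0, 4, 5, 6] [6, 1, 3, 1]]),
([s 4 0, s 0 1, g, s 0 2, g, s 1 0, g, m 0 3, g, p 2 4, s 3 0, g], .leaf [3, 8, 1, 7, 2, 3]),
([s 3 0, g, m 0 1, g, m 0 2, g, p 1 3, s 2 0, g], .leaf [5, 1, 5, 0, 1]),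
([s 4 0, s 0 1, g, s 1 2, g, m 0 3, g, p 2 4, s 3 0, g], .leaf [3, 6, 1, 5, 2, 1]),
([s 4 0, s 0 1, g, s 1 0, g, s 0 2, g, m 0 3, g, p 2 4, s 3 0, g], .leaf [5, 8, 1, 7, 4, 1]),
([s 4 0, g, m 0 1, g, m 1 2, g, s 0 3, g, p 3 4, s 2 0, g], .leaf [7, 3, 7, 0, 3, 1, 3]),
([s 3 0, g, m 0 1, g, m 0 2, g, p 2 3, s 1 0, g], .leaf [3, 1, 5, 2, 1]),
([s 2 1, g, s 4 0, g, p 3 2, s 0 3, g, m 1 4, g], .leaf [2, 6, 2, 0, 1, 3, 1]),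
([s 3 1, s 0 2, g, p 4 0, g, s 2 0, g, p 0 3, g, m 1 4, g], .leaf [2, 9, 6, 5, 3, 4, 1]),
([s 2 0, g, p 4 0, g, m 0 1, g, p 3 2, s 1 3, g, m 0 4, g], .leaf [3, 1, 7, 2, 0, 2, 1]),
([s 2 0, g, m 0 1, g, p 3 0, g, p 0 2, s 1 0, g, m 0 3, g], .leaf [3, 1, 5, 2, 5]),
([s 2 1, g, p 3 2, s 0 3, g, s 4 0, g, m 1 4, g], .leaf [4, 2, 0, 1, 4, 2, 1]),
([s 3 1, s 0 2, g, s 2 0, g, p 0 3, g, p 4 0, g, m 1 4, g], .leaf [6, 9, 2, 1, 6, 4, 1]),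
([s 2 1, g, p 3 2, s 0 3, g, m 1 4, g, s 4 0, g], .leaf [4, 2, 0, 1, 2, 0, 1]),
([s 2 1, g, p 3 2, s 0 3, g, m 1 4, g, p 4 0, g], .leaf [4, 2, 0, 1, 2, 0, 1]),
([s 0 1, g, s 2 0, g, m 1 0, m 0 2, g], .leaf [2, 4, 1]),
([s 3 1, s 0 2, g, s 2 0, g, p 0 3, g, p 4 0, g, m 1 0, m 0 4, g], .leaf [2, 10, 3, 2, 6, 6, 3]),
([s 3 1, g, m 0 2, g, p 4 3, s 2 4, g, m 1 0, m 0 5, g, s 5 0, g], .leaf [1, 8, 4, 0, 5, 4, 4, 2, 3]),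
([s 3 1, s 0 2, g, s 2 0, g, p 0 3, g, m 1 0, m 0 4, g, p 4 0, g], .leaf [9, 6, 4, 7, 2, 6, 1]),
([s 3 1, s 0 2, g, s 2 0, g, p 0 3, g, m 1 0, m 0 4, g, m 4 0, g], .leaf [2, 8, 9, 8, 4, 4, 1]),
([s 4 1, s 0 2, g, s 2 0, g, m 0 3, g, p 5 4, s 3 5, g, m 1 0, m 0 0, g], .inner (.hi 11) [.ref 30 [0, 4, 6] [5, 3, 1], .ref 117 [0, 1, 6] [2, 8, 1], .ref 111 [0, 3, 4, 5, 6] [2, 3, 1, 2, 1], .ref 13 [0, 6] [2, 9, 1], .ref 117 [0, 1, 6] [4, 6, 1], .ref 111 [0, 3, 4, 5, 6] [4, 1, 1, 2, 1], .ref 13 [0, 6] [4, 7, 1], .ref 13 [0, 6] [4, 5, 1], .ref 117 [0, 1, 6] [6, 4, 1], .ref 112 [0, 3, 4, 6] [4, 1, 1, 2, 1], .ref 13 [0, 6] [6, 5, 1], .ref 117 [0, 1, 6] [9, 1, 1], .ref 118 [0, 1, 2, 4, 6] [1, 3, 2, 1, 1], .ref 13 [0, 6] [9, 2, 1],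 .cyc [11], .ref 119 [0, 1, 3, 4, 5, 6] [4, 1, 1, 1, 1], .ref 120 [0, 1, 2, 4, 6] [1, 3, 2, 1, 1], .ref 121 [0, 1, 2, 4, 6] [1, 3, 2, 1, 1]]),
([s 2 1, s 3 0, g, p 0 2, g, m 1 0, s 0 3, g], .leaf [3, 2, 4, 1]),
([s 3 1, s 0 2, g, s 4 0, g, s 2 0, g, p 0 3, g, m 1 0, s 0 4, g], .leaf [2, 7, 4, 7, 2, 3]),
([s 2 1, g, p 3 0, g, p 0 2, g, m 1 0, s 0 3, g], .leaf [1, 4, 2, 4, 1]),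
([s 0 1, g, m 2 0, g, m 1 0, s 0 2, g], .leaf [2, 4, 1]),
([s 3 1, s 0 2, g, s 2 0, g, s 4 0, g, p 0 3, g, m 1 0, s 0 4, g], .leaf [2, 5, 8, 4, 4, 1])]

def d00_2 : List (List Item × Pf) := [
([s 3 1, s 0 2, g, s 2 0, g, p 0 3, g, s 4 0, g, m 1 0, s 0 4, g], .leaf [7, 9, 1, 6, 4, 1]),
([s 2 1, g, p 3 2, s 0 3, g, p 4 0, g, m 1 0, g, s 0 4, g], .leaf [4, 2, 0, 1, 4, 2, 3]),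
([s 4 1, s 0 2, g, s 0 3, g, s 2 0, g, p 0 4, g, m 1 0, s 3 0, g], .leaf [2, 7, 4, 7, 2, 3]),
([s 0 1, g, p 0 2, g, m 1 0, s 2 0, g], .leaf [2, 4, 1]),
([s 3 1, g, m 0 2, g, p 0 3, g, m 1 0, s 2 0, g], .leaf [1, 4, 2, 4, 1]),
([s 4 1, s 0 2, g, s 2 3, g, p 0 4, g, m 1 0, s 3 0, g], .leaf [2, 3, 6, 4, 4, 1]),
([s 4 1, s 0 2, g, s 2 0, g, s 0 3, g, p 0 4, g, m 1 0, s 3 0, g], .leaf [2, 5, 8, 4, 4, 1]),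
([s 0 1, s 0 2, g, s 2 0, g, m 0 3, g, m 1 0, s 3 4, g, s 4 0, g], .leaf [10, 1, 4, 2, 6, 1]),
([s 3 1, s 0 2, g, s 2 0, g, p 0 3, g, s 0 4, g, m 1 0, s 4 0, g], .leaf [7, 9, 1, 6, 4, 1]),
([s 3 1, g, m 0 2, g, p 4 3, s 2 4, g, m 1 0, s 6 5, g, s 0 6, g, s 5 0, g], .leaf [1, 10, 1, 5, 0, 5, 4, 4, 2, 3]),
([s 2 0, s 0 1, g, s 1 0, g, p 3 2, s 0 3, g, s 4 0, g, p 0 4, g], .leaf [10, 1, 4, 0, 6, 1]),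
([s 0 1, s 0 2, g, s 2 0, g, m 1 0, s 4 3, g, m 0 4, g, s 3 0, g], .leaf [6, 9, 1, 7, 4, 1]),
([s 3 1, g, m 0 2, g, p 4 3, s 2 4, g, m 1 0, s 6 5, g, s 5 0, g, s 0 6, g], .leaf [1, 10, 1, 5, 0, 5, 4, 4, 2, 3]),
([s 0 1, s 0 2, g, s 2 0, g, m 1 0, s 4 3, g, s 3 0, g, m 0 4, g], .leaf [6, 9, 1, 7, 4, 1]),
([s 4 1, s 0 2, g, s 2 0, g, m 0 3, g, p 5 4, s 3 5, g, m 1 0, s 0 6, g, s 6 0, g], .inner (.lo 11) [.ref 130 [0, 1, 2, 7, 4] [1, 1, 3, 2, 3], .ref 131 [0, 1, 7] [2, 8, 3], .ref 132 [0, 1, 7, 4] [2, 5, 2, 3], .ref 133 [0, 1, 2, 7, 4] [1, 3, 2, 3], .ref 134 [0, 1, 2, 7, 4] [1, 1, 3, 2, 3], .ref 131 [0, 1, 7] [4, 6, 3], .ref 135 [0, 1, 2, 7, 6] [1, 1, 6, 1, 1], .ref 134 [0, 1, 2, 7, 4] [1, 3, 1, 2, 3], .ref 131 [0, 1, 7]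 [6, 4, 3], .ref 135 [0, 1, 2, 7, 6] [1, 3, 4, 1, 1], .ref 136 [0, 1, 2, 4, 7] [1, 3, 2, 1, 3], .ref 131 [0, 1, 7] [9, 1, 3], .ref 135 [0, 1, 2, 7, 6] [1, 6, 1, 1, 1], .ref 115 [0, 1, 4, 5, 7] [6, 1, 0, 3], .ref 137 [0, 1, 3, 4, 5, 6, 7] [4, 1, 1, 1, 1, 1], .ref 138 [0, 2, 4, 5, 7] [1, 3, 2, 1, 3], .ref 139 [0, 1, 2, 6, 7] [1, 6, 1, 1, 1], .cyc [11, 13], .ref 140 [0, 1, 3, 4, 5, 6, 7] [4, 1, 1, 1, 1, 1], .ref 138 [0, 2, 4, 5, 7] [1, 3, 2, 3, 1], .ref 141 [0, 1, 2, 6, 7] [1, 6, 1, 1, 1]]),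
([s 3 1, g, m 0 2, g, p 4 3, s 2 4, g, m 1 0, s 0 5, g, p 5 0, g], .leaf [1, 8, 4, 0, 5, 4, 4, 2, 3]),
([s 2 0, s 0 1, g, s 1 0, g, p 3 2, s 0 3, g, s 0 4, g, m 4 0, g], .leaf [10, 1, 4, 0, 6, 1]),
([s 4 1, s 0 2, g, s 2 0, g, m 0 3, g, p 5 4, s 3 5, g, m 1 0, s 0 0, g], .inner (.hi 11) [.ref 123 [0, 1, 4, 6] [5, 2, 1], .ref 124 [0, 1, 2, 4, 6] [1, 1, 3, 2, 1], .ref 125 [0, 1, 4, 6] [2, 5, 2, 1], .ref 126 [0, 1, 6] [2, 8, 1], .ref 127 [0, 1, 2, 4, 6] [1, 1, 3, 2, 1], .ref 125 [0, 1, 4, 6] [4, 3, 2, 1], .ref 126 [0, 1, 6] [4, 6, 1], .ref 126 [0, 1, 6] [4, 4, 1], .ref 127 [0, 1, 2, 4, 6] [1, 3, 1, 2, 1], .ref 125 [0, 1, 4, 6] [6, 1, 2, 1], .ref 126 [0, 1, 6] [6, 4, 1], .ref 128 [0, 1, 2, 4, 6] [1, 3, 2, 1, 1], .ref 129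 [0, 1, 4, 5, 6] [6, 1, 1, 0, 1], .ref 126 [0, 1, 6] [9, 1, 1], .cyc [11], .ref 142 [0, 1, 2, 3, 4, 5, 6] [1, 1, 1, 1, 1, 1], .ref 143 [0, 1, 3, 4, 5, 6] [4, 1, 1, 1, 1], .ref 144 [0, 2, 4, 5, 6] [1, 3, 2, 1, 1]]),
([s 0 1, g, s 0 2, g, m 1 0, p 2 0, g], .leaf [2, 4, 1]),
([s 3 1, g, m 0 2, g, p 0 3, g, m 1 0, p 2 0, g], .leaf [1, 4, 2, 4, 1]),
([s 3 1, s 0 2, g, s 2 0, g, p 0 3, g, m 0 4, g, m 1 0, p 4 0, g], .leaf [2, 10, 3, 2, 6, 6, 3]),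
([s 3 1, g, m 0 2, g, p 4 3, s 2 4, g, m 1 0, p 5 0, g, s 0 5, g], .leaf [1, 8, 4, 0, 5, 4, 4, 2, 3]),
([s 3 1, s 0 2, g, s 2 0, g, p 0 3, g, m 1 0, p 4 0, g, p 0 4, g], .leaf [2, 8, 9, 8, 4, 4, 1]),
([s 3 1, s 0 2, g, s 2 0, g, p 0 3, g, m 1 0, p 4 0, g, m 0 4, g], .leaf [9, 6, 4, 7, 2, 6, 1]),
([s 4 1, s 0 2, g, s 2 0, g, m 0 3, g, p 5 4, s 3 5, g, m 1 0, p 0 0, g], .inner (.lo 11) [.ref 146 [0, 1, 6] [2, 8, 1], .ref 5 [0, 6] [2, 9, 1], .ref 147 [0, 1, 6, 4] [2, 5, 2, 1], .ref 146 [0, 1, 6] [2, 6, 1], .ref 146 [0, 1, 6] [4, 6, 1], .ref 5 [0, 6] [4, 7, 1], .ref 147 [0, 1, 6, 4] [4, 3, 2, 1], .ref 146 [0, 1, 6] [6, 4, 1], .ref 5 [0, 6] [6, 5, 1], .ref 147 [0, 1, 6, 4] [6, 1, 2, 1], .ref 146 [0, 1, 6] [9, 1, 1], .ref 5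 [0, 6] [9, 2, 1], .ref 148 [0, 1, 2, 4, 6] [1, 3, 2, 1, 1], .ref 116 [0, 1, 4, 5, 6] [6, 1, 0, 1], .cyc [11], .ref 149 [0, 1, 3, 4, 5, 6] [4, 1, 1, 1, 1], .ref 150 [0, 1, 2, 4, 6] [1, 3, 2, 1, 1], .ref 151 [0, 1, 2, 4, 6] [1, 3, 2, 1, 1]]),
([s 4 1, s 0 2, g, s 2 0, g, m 0 3, g, p 5 4, s 3 5, g, m 1 0, g, m 0 0, g], .inner (.top 11) [.ref 122 [0, 1, 2, 3, 4, 5] [1, 1, 1, 1, 1], .ref 145 [0, 1, 2, 3, 4, 5] [1, 1, 1, 1, 3], .ref 152 [0, 1, 2, 3, 4, 5] [1, 1, 1, 1, 3], .ref 122 [0, 1, 2, 3, 4, 5] [1, 1, 1, 1, 3]]),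
([s 4 1, s 0 2, g, s 2 0, g, m 0 3, g, p 5 4, s 3 5, g, m 1 0, g], .inner (.hi 10) [.ref 30 [0, 4, 6] [5, 2, 1], .ref 109 [0, 1, 4, 5, 6] [2, 5, 1, 1], .ref 110 [0, 1, 2, 4, 6] [1, 1, 3, 2, 1], .ref 13 [0, 6] [2, 8, 1], .ref 109 [0, 1, 4, 5, 6] [4, 3, 1, 1], .ref 111 [0, 3, 4, 5, 6] [4, 1, 1, 1, 1], .ref 13 [0, 6] [4, 6, 1], .cyc [0, 10, 5, 8, 7], .ref 109 [0, 1, 4, 5, 6] [6, 1, 1, 1], .ref 112 [0, 3, 4, 6] [4, 1, 1, 1, 1], .ref 13 [0, 6] [6, 4, 1], .ref 113 [0, 1, 4, 5, 6] [6, 1, 1, 1], .ref 114 [0, 1, 2, 4, 6] [1, 3, 2, 1, 1], .ref 13 [0, 6] [9, 1, 1], .ref 115 [0, 1, 4, 5, 6] [6, 1, 1, 1], .ref 116 [0, 1, 4, 5, 6] [6, 1, 1, 1], .ref 153 [0, 1, 2, 3, 4, 5] [1, 1, 1, 1, 1, 1]]),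
([s 3 0, g, m 0 1, g, m 1 2, g, p 4 3, s 2 0, g, s 0 4, g], .leaf [5, 1, 5, 0, 5, 3, 1]),
([s 3 1, s 0 2, g, s 2 0, g, p 4 3, g, p 0 4, g, m 1 0, g], .leaf [2, 9, 6, 6, 3, 3, 1]),
([s 2 0, g, m 0 1, g, p 3 2, s 1 0, g, m 0 3, g], .leaf [3, 1, 3, 0, 3]),
([s 3 1, s 0 2, g, s 2 0, g, p 4 3, g, m 1 0, g, p 0 4, g], .leaf [2, 7, 4, 4, 1, 5, 3]),
([s 5 1, s 0 2, g, s 2 0, g, m 0 3, g, m 3 4, g, p 0 5, s 4 0, g, m 1 0, g], .inner (.lo 9) [.ref 103 [0, 2, 6, 4, 5] [1, 1, 3, 1, 3], .ref 5 [0, 6] [2, 7, 4], .ref 104 [0, 6, 4, 5] [2, 5, 1, 3], .ref 105 [0, 2, 6, 4, 5] [1, 3, 1, 3], .ref 106 [0, 2, 6, 4, 5] [1, 1, 3, 1, 3], .ref 5 [0, 6] [4, 5, 4], .ref 104 [0, 6, 4, 5] [4, 3, 1, 3], .ref 106 [0, 2, 6, 4, 5] [1, 3, 1, 1, 3], .ref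 5 [0, 6] [6, 3, 4], .ref 104 [0, 6, 4, 5] [6, 1, 1, 3], .ref 107 [0, 3, 4, 6, 5] [4, 1, 1, 1, 3], .ref 5 [0, 6] [8, 1, 4], .ref 108 [0, 4, 6, 5] [6, 1, 1, 3], .ref 154 [0, 1, 2, 4, 5, 6] [1, 3, 1, 1, 1], .ref 155 [0, 3, 4, 5, 6] [4, 1, 1, 1, 3], .ref 156 [0, 1, 2, 5, 6] [1, 5, 2, 1, 1], .ref 157 [0, 4, 5, 6] [6, 1, 1, 3], .cyc [0, 12, 9], .ref 155 [0, 3, 4, 5, 6] [4, 1, 1, 3, 1], .ref 158 [0, 1, 2, 5, 6] [1, 5, 2, 1, 1], .ref 157 [0, 4, 5, 6] [6, 1, 3, 1]]),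
([s 4 1, g, m 3 2, g, s 0 3, g, p 0 4, s 2 0, g, m 1 0, g], .leaf [4, 1, 1, 4, 1, 5, 3]),
([s 0 0, g, m 1 0, g, p 0 1, g], .leaf [4, 1]),
([s 3 1, g, m 4 2, g, p 0 3, s 2 0, g, s 0 4, g, m 1 0, g], .leaf [1, 2, 5, 7, 2, 4, 1]),
([s 3 1, g, m 4 2, g, p 0 3, s 2 0, g, m 1 0, g, s 0 4, g], .leaf [8, 6, 2, 5, 3, 4, 1]),
([s 4 1, s 0 2, g, s 2 0, g, m 0 3, g, p 0 4, s 3 0, g, m 1 0, g], .inner (.lo 5) [.ref 97 [0, 1, 2, 5, 3, 4] [1, 1, 1, 1, 1, 1], .ref 98 [0, 5] [2, 3, 6], .ref 99 [0, 1, 2, 5, 4] [1, 1, 1, 1, 2, 1], .ref 100 [0, 1, 2, 5, 4] [1, 1, 1, 2, 1], .ref 102 [0, 1, 2, 5, 3, 4] [1, 1, 1, 1, 1, 1], .ref 98 [0, 5] [4, 1, 6], .ref 159 [0, 1, 2, 5, 3, 4] [1, 1, 1, 1, 1, 1], .ref 160 [0, 1, 3, 5, 4] [4, 1, 1, 1, 1], .ref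 161 [0, 5] [4, 1, 6], .ref 13 [0, 5] [4, 1, 6], .cyc [5, 8], .ref 162 [0, 1, 3, 4, 5] [4, 1, 1, 1, 1], .ref 161 [0, 5] [4, 4, 3], .ref 13 [0, 5] [4, 4, 3], .ref 13 [0, 5] [4, 4, 1], .ref 163 [0, 1, 3, 4, 5] [4, 1, 1, 1, 1], .ref 161 [0, 5] [4, 6, 1], .ref 13 [0, 5] [4, 6, 1]]),
([s 4 1, s 3 2, g, s 0 3, g, m 2 0, g, p 0 4, g, m 1 0, g], .leaf [3, 1, 6, 3, 6, 2, 3]),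
([s 4 0, s 2 1, g, p 0 2, g, m 1 0, g, m 0 3, g, p 0 4, s 3 0, g], .leaf [5, 3, 6, 0, 7, 4, 1]),
([s 4 1, s 3 2, g, m 2 0, g, s 0 3, g, p 0 4, g, m 1 0, g], .leaf [3, 1, 6, 3, 6, 2, 3]),
([s 4 0, s 2 1, g, m 1 0, g, p 0 2, g, m 0 3, g, p 0 4, s 3 0, g], .leaf [5, 3, 6, 0, 7, 4, 1]),
([s 4 0, s 3 1, g, m 1 0, g, m 0 2, g, p 0 3, g, p 0 4, s 2 0, g], .leaf [3, 1, 6, 2, 7, 2, 3]),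
([s 3 1, s 4 2, g, m 2 0, g, p 0 3, s 0 4, g, m 1 0, g], .leaf [1, 5, 3, 6, 2, 3]),
([s 3 1, s 4 2, g, m 2 0, g, p 0 3, g, s 0 4, g, m 1 0, g], .leaf [3, 1, 4, 1, 6, 4, 1]),
([s 3 0, s 4 1, g, m 1 0, g, m 0 2, g, p 0 3, s 2 0, g, p 0 4, g], .leaf [10, 8, 1, 4, 7, 2, 3]),
([s 3 1, s 4 2, g, m 2 0, g, p 0 3, g, m 1 0, g, s 0 4, g], .leaf [3, 1, 4, 1, 4, 2, 3]),
([s 4 1, s 0 2, g, m 2 0, g, m 0 3, g, p 0 4, s 3 0, g, m 1 0, g], .inner (.lo 1) [.ref 165 [0, 1, 2, 5, 4] [1, 1, 3, 2, 1], .ref 166 [0, 2, 5, 3, 4] [1, 1, 1, 1, 3], .ref 27 [0, 5, 4] [1, 5, 4], .cyc [1, 3], .ref 167 [0, 1, 2, 5, 4] [1, 1, 3, 2, 1], .ref 168 [0, 2, 5, 3, 4] [1, 1, 1, 1, 3], .ref 27 [0, 5, 4] [3, 3, 4], .ref 167 [0, 1, 2, 5, 4] [1, 3, 1, 2, 1], .ref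 169 [0, 2, 3, 5, 4] [1, 1, 1, 1, 3], .ref 27 [0, 5, 4] [5, 1, 4], .ref 170 [0, 1, 2, 4, 5] [1, 3, 1, 1], .ref 171 [0, 1, 2, 4, 5] [1, 3, 2, 1, 1], .ref 172 [0, 2, 3, 4, 5] [1, 1, 1, 1, 3], .ref 30 [0, 4, 5] [5, 2, 3], .ref 30 [0, 4, 5] [5, 2, 1], .ref 173 [0, 1, 2, 4, 5] [1, 3, 2, 1, 1], .ref 172 [0, 2, 3, 4, 5] [1, 1, 1, 3, 1], .ref 30 [0, 4, 5] [5, 4, 1]]),
([s 4 1, s 0 2, g, m 2 3, g, p 0 4, s 3 0, g, m 1 0, g], .leaf [1, 8, 6, 1, 5, 2, 3]),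
([s 4 1, s 0 2, g, m 0 3, g, s 2 0, g, p 0 4, s 3 0, g, m 1 0, g], .leaf [4, 10, 5, 5, 2, 5]),
([s 4 1, s 0 2, g, m 0 3, g, m 2 0, g, p 0 4, s 3 0, g, m 1 0, g], .leaf [1, 10, 8, 3, 7, 2, 3]),
([s 5 1, s 3 2, g, s 0 3, g, m 0 4, g, p 0 5, s 4 0, g, s 2 0, g, m 1 0, g], .leaf [1, 9, 4, 2, 5, 8, 2, 5]),
([s 4 1, s 3 2, g, p 0 3, g, p 0 4, g, s 2 0, g, m 1 0, g], .leaf [3, 1, 4, 1, 6, 4, 1]),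
([s 4 0, s 3 1, g, m 0 2, g, s 0 3, g, p 0 4, s 2 0, g, s 1 0, g], .leaf [1, 4, 1, 5, 2, 5]),
([s 3 1, s 4 2, g, p 0 3, s 0 4, g, s 2 0, g, m 1 0, g], .leaf [1, 3, 1, 6, 4, 1]),
([s 4 1, s 5 2, g, m 0 3, g, p 0 4, s 3 0, g, s 0 5, g, s 2 0, g, m 1 0, g], .leaf [1, 7, 4, 2, 3, 8, 4, 1]),
([s 3 1, g, s 4 0, g, m 0 2, g, p 0 3, s 2 0, g, p 0 4, g, m 1 0, g], .leaf [9, 6, 10, 1, 8, 2, 5]),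
([s 4 1, s 5 2, g, m 0 3, g, p 0 4, s 3 0, g, s 2 0, g, s 0 5, g, m 1 0, g], .leaf [1, 9, 6, 2, 5, 8, 2, 5]),
([s 4 1, s 5 2, g, m 0 3, g, p 0 4, s 3 0, g, s 2 0, g, m 1 0, g, s 0 5, g], .leaf [1, 11, 3, 9, 6, 4, 2, 3]),
([s 3 1, s 4 2, g, p 0 3, g, s 2 0, g, m 1 0, g, p 0 4, g], .leaf [9, 7, 1, 6, 3, 5, 3]),
([s 4 1, s 0 2, g, m 0 3, g, p 0 4, s 3 0, g, s 2 0, g, m 1 0, g], .inner (.lo 1) [.ref 178 [0, 1, 2, 5, 3, 4] [1, 1, 1, 1, 1, 1], .ref 179 [0, 1, 2, 5, 4] [1, 3, 2, 1, 1], .ref 27 [0, 5, 4] [1, 3, 6], .ref 180 [0, 2, 3, 5, 4] [1, 1, 1, 1, 3], .ref 179 [0, 1, 2, 5, 4] [3, 1, 2, 1, 1], .ref 27 [0, 5, 4] [3, 1, 6], .ref 181 [0, 1, 2, 4, 5] [3, 1, 1, 1], .ref 182 [0, 1, 2, 3, 4, 5] [1, 1, 1, 1, 1, 1], .ref 183 [0, 1,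 3, 4, 5] [0, 1, 1, 1, 3, 1], .ref 30 [0, 4, 5] [3, 2, 5], .cyc [1, 8], .ref 184 [0, 1, 2, 3, 4, 5] [1, 1, 1, 1, 1, 1], .ref 29 [0, 1, 2, 4, 5] [3, 2, 1, 1, 1], .ref 30 [0, 4, 5] [3, 4, 3], .ref 30 [0, 4, 5] [3, 4, 1], .ref 185 [0, 1, 2, 3, 4, 5] [1, 1, 1, 1, 1, 1], .ref 186 [0, 1, 2, 4, 5] [3, 2, 1, 1, 1], .ref 30 [0, 4, 5] [3, 6, 1]]),
([s 4 1, g, s 0 2, g, m 0 3, g, p 0 4, s 3 0, g, m 2 0, g, m 1 0, g], .leaf [9, 6, 10, 1, 8, 2, 5]),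
([s 3 1, s 4 2, g, p 0 3, s 0 4, g, m 1 0, g, s 2 0, g], .leaf [1, 3, 1, 4, 2, 3]),
([s 3 1, s 0 2, g, s 4 0, g, p 0 3, s 0 4, g, m 1 0, g, s 2 0, g], .leaf [3, 5, 1, 6, 4, 5]),
([s 3 0, s 0 1, g, m 0 2, g, p 0 3, s 2 4, g, s 4 0, g, s 1 0, g], .leaf [8, 1, 4, 2, 4, 5])]

def d00_3 : List (List Item × Pf) := [
([s 3 0, s 0 1, g, m 0 2, g, p 0 3, s 2 4, g, s 1 0, g, s 4 0, g], .leaf [10, 3, 6, 2, 6, 1]),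
([s 5 1, s 0 2, g, s 0 3, g, m 3 4, g, p 0 5, s 4 0, g, m 1 0, g, s 2 0, g], .inner (.hi 8) [.ref 189 [0, 1, 2, 5, 6] [5, 1, 1, 1], .ref 190 [0, 1, 2, 5, 6] [1, 5, 1, 1, 1], .ref 101 [0, 1, 3, 5, 6] [2, 1, 1, 1, 1, 3], .ref 88 [0, 5, 6] [2, 5, 5], .cyc [3, 5, 8], .ref 190 [0, 1, 2, 5, 6] [3, 3, 1, 1, 1], .ref 90 [0, 1, 3, 4, 5, 6] [2, 1, 1, 1, 1, 3], .ref 88 [0, 5, 6] [4, 3, 5], .ref 190 [0, 1, 2, 5, 6] [5, 1, 1, 1, 1], .ref 91 [0, 1, 3, 4, 5, 6] [2, 1, 1, 1, 1, 3], .ref 88 [0, 5, 6] [6, 1, 5], .ref 92 [0, 1, 3, 4, 5, 6] [2, 1, 1, 1, 3], .ref 191 [0, 2, 4, 5, 6] [3, 1, 1, 3, 1], .ref 94 [0, 1, 5, 6] [6, 1, 1, 3], .ref 95 [0, 4, 5, 6] [4, 1, 1, 5], .ref 191 [0, 2, 4, 5, 6] [3, 1, 3, 1, 1], .ref 96 [0, 1, 5, 6] [6, 1, 1,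 3], .ref 95 [0, 4, 5, 6] [4, 1, 3, 3], .ref 192 [0, 2, 4, 5, 6] [3, 1, 3, 1, 1], .ref 96 [0, 1, 5, 6] [6, 1, 3, 1], .ref 95 [0, 4, 5, 6] [4, 1, 5, 1]]),
([s 4 0, s 2 0, g, s 0 1, g, s 0 2, g, m 0 3, g, p 1 4, s 3 0, g], .leaf [3, 8, 1, 7, 2, 3]),
([s 4 0, s 1 0, g, s 0 1, g, s 0 2, g, m 0 3, g, p 2 4, s 3 0, g], .leaf [5, 8, 1, 7, 4, 1]),
([s 4 1, s 3 0, g, s 2 0, g, s 0 2, s 0 3, g, p 0 4, g, m 1 0, g], .leaf [5, 1, 9, 4, 4, 1]),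
([s 4 0, s 3 0, g, s 0 1, g, p 2 0, g, s 1 2, s 0 3, g, p 0 4, g], .leaf [3, 6, 9, 5, 2, 5]),
([s 3 0, s 2 0, g, p 0 1, g, s 1 0, s 0 2, g, p 0 3, g], .leaf [8, 7, 4, 1]),
([s 5 1, s 4 0, g, m 0 2, g, p 3 0, g, s 2 3, s 0 4, g, p 0 5, g, m 1 0, g], .leaf [4, 1, 5, 10, 7, 2, 6, 1]),
([s 4 1, s 3 0, g, s 0 2, g, s 2 0, s 0 3, g, p 0 4, g, m 1 0, g], .leaf [5, 1, 9, 4, 4, 1]),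
([s 5 1, s 4 0, g, p 3 0, g, m 0 2, g, s 2 3, s 0 4, g, p 0 5, g, m 1 0, g], .leaf [4, 1, 5, 10, 7, 2, 6, 1]),
([s 4 1, s 2 0, g, s 3 0, s 0 2, g, s 0 3, g, p 0 4, g, m 1 0, g], .leaf [3, 5, 9, 6, 6, 1]),
([s 5 1, s 3 0, g, p 2 0, g, s 4 2, s 0 3, g, p 0 4, g, p 0 5, g, m 1 0, g], .leaf [2, 12, 9, 1, 4, 2, 6, 1]),
([s 3 0, s 1 0, g, s 2 0, s 0 1, g, m 0 2, g, p 0 3, g], .leaf [8, 7, 2, 3]),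
([s 3 0, s 2 1, g, s 5 0, s 0 2, g, p 4 3, s 0 4, g, s 0 5, g, s 1 0, g], .leaf [1, 3, 7, 2, 0, 2, 5]),
([s 2 0, g, s 1 0, g, s 4 0, s 0 1, g, p 3 2, s 0 3, g, p 0 4, g], .leaf [10, 5, 6, 4, 0, 5]),
([s 2 0, s 1 0, g, s 3 0, s 0 1, g, p 0 2, g, m 0 3, g], .leaf [6, 5, 2, 5]),
([s 3 0, s 2 1, g, s 4 0, s 0 2, g, p 0 3, g, s 1 4, g], .leaf [6, 5, 2, 5, 5, 1]),
([s 3 0, s 2 1, g, s 5 0, s 0 2, g, p 4 3, s 0 4, g, s 1 0, g, s 0 5, g], .leaf [1, 3, 9, 4, 0, 4, 1]),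
([s 5 1, s 4 2, g, p 3 0, g, s 0 3, s 0 4, g, p 6 5, s 0 6, g, m 1 0, g, s 2 0, g], .inner (.lo 5) [.ref 197 [0, 7, 3, 4, 5] [1, 1, 1, 1, 6], .ref 198 [0, 7, 4, 5] [1, 3, 1, 6], .ref 199 [0, 1, 7, 3, 4, 5] [1, 1, 1, 1, 2, 3], .cyc [3, 5], .ref 200 [0, 1, 7, 4, 5] [3, 1, 1, 2, 3], .ref 198 [0, 7, 4, 5] [3, 1, 1, 6], .ref 201 [0, 1, 7, 3, 4, 5] [1, 1, 1, 1, 2, 3], .ref 202 [0, 1, 4, 7, 5] [3, 1, 1, 2, 3], .ref 203 [0, 1, 3, 4, 7, 5] [1, 1, 1, 1, 2, 3], .ref 204 [0, 4, 7, 5] [3, 1, 1, 6], .ref 205 [0, 2, 4, 5, 6, 7] [3, 1, 1, 3, 1], .ref 206 [0, 4, 5, 6, 7] [0, 3, 1, 1, 5], .ref 207 [0, 4, 5, 7] [3, 1, 2, 5], .ref 207 [0, 4, 5, 7] [3, 1, 2, 3], .ref 205 [0, 2, 4, 5, 6, 7] [3, 1, 3, 1, 1], .ref 206 [0, 4, 5, 6, 7] [0, 3,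 1, 3, 3], .ref 207 [0, 4, 5, 7] [3, 1, 4, 3], .ref 208 [0, 2, 4, 5, 7] [3, 1, 4, 1], .ref 209 [0, 2, 4, 5, 6, 7] [3, 1, 3, 1, 1], .ref 206 [0, 4, 5, 6, 7] [0, 3, 1, 5, 1], .ref 207 [0, 4, 5, 7] [3, 1, 6, 1]]),
([s 3 0, s 2 0, g, m 1 0, g, s 0 1, s 0 2, g, p 0 3, g], .leaf [8, 7, 4, 1]),
([s 4 1, s 3 0, g, s 0 2, s 0 3, g, s 2 0, g, p 0 4, g, m 1 0, g], .leaf [3, 5, 9, 6, 6, 1]),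
([s 3 0, s 2 0, g, s 0 1, s 0 2, g, p 1 0, g, p 0 3, g], .leaf [8, 7, 2, 3]),
([s 5 1, s 4 2, g, s 0 3, s 0 4, g, m 3 0, g, p 0 5, g, m 1 0, g, s 2 0, g], .leaf [6, 2, 3, 6, 1, 6, 4, 5]),
([s 4 0, s 3 1, g, s 0 2, s 0 3, g, p 5 4, s 0 5, g, s 2 0, g, s 1 0, g], .leaf [1, 3, 7, 2, 0, 2, 5]),
([s 3 0, s 2 0, g, s 0 1, s 0 2, g, p 0 3, g, p 1 0, g], .leaf [6, 5, 2, 5]),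
([s 3 0, g, s 2 0, g, s 0 1, s 0 2, g, p 4 3, s 0 4, g, m 1 0, g], .leaf [10, 5, 6, 4, 0, 5]),
([s 4 0, s 3 1, g, s 0 2, s 0 3, g, p 5 4, s 0 5, g, s 1 0, g, s 2 0, g], .leaf [1, 3, 9, 4, 0, 4, 1]),
([s 4 1, s 3 2, g, s 0 0, s 0 3, g, p 5 4, s 0 5, g, m 1 0, g, s 2 0, g], .inner (.hi 3) [.ref 196 [0, 1, 6, 3, 4] [1, 1, 1, 2, 3], .ref 210 [0, 1, 2, 6, 3, 4, 5] [1, 1, 1, 1, 1, 1], .ref 211 [0, 6, 3, 4] [1, 1, 1, 6], .cyc [3], .contra, .ref 212 [0, 1, 6, 3, 4] [1, 1, 1, 2, 3], .ref 213 [0, 6, 3, 4] [1, 1, 1, 6], .ref 214 [0, 1, 2, 6, 3, 4] [1, 1, 1, 2, 1, 1], .ref 63 [0, 1, 6, 4] [1, 2, 1, 3], .ref 215 [0, 2, 6, 3, 4, 5] [1, 1, 1, 3, 1], .ref 216 [0, 6, 3, 4] [1, 1, 2, 5], .ref 217 [0, 6, 3, 4, 5] [0, 1, 1, 1, 5], .ref 215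 [0, 2, 6, 3, 4, 5] [1, 1, 3, 1, 1], .ref 216 [0, 6, 3, 4] [1, 1, 4, 3], .ref 217 [0, 6, 3, 4, 5] [0, 1, 1, 3, 3], .ref 218 [0, 2, 6, 3, 4, 5] [1, 1, 3, 1, 1], .ref 216 [0, 6, 3, 4] [1, 1, 6, 1], .ref 217 [0, 6, 3, 4, 5] [0, 1, 1, 5, 1]]),
([s 3 0, s 2 0, g, s 1 0, g, p 0 1, s 0 2, g, p 0 3, g], .leaf [8, 7, 4, 1]),
([s 4 1, s 3 0, g, p 2 0, g, p 0 2, s 0 3, g, p 0 4, g, m 1 0, g], .leaf [2, 3, 9, 7, 2, 6, 1]),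
([s 3 0, s 2 0, g, p 0 1, s 0 2, g, s 1 0, g, p 0 3, g], .leaf [8, 7, 2, 3]),
([s 3 0, s 2 0, g, p 0 1, s 0 2, g, p 0 3, g, s 1 0, g], .leaf [6, 5, 2, 5]),
([s 3 1, s 2 0, g, p 0 0, s 0 2, g, p 0 3, g, m 1 0, g], .inner (.hi 3) [.ref 220 [0, 4, 2, 3] [1, 1, 1, 3], .ref 221 [0, 1, 4, 2, 3] [1, 1, 1, 1, 1], .ref 161 [0, 4] [2, 1, 6], .cyc [3], .contra, .ref 222 [0, 4, 2, 3] [1, 1, 1, 3], .ref 5 [0, 4] [2, 2, 5], .ref 98 [0, 4] [2, 2, 5], .ref 5 [0, 4] [2, 2, 3], .ref 223 [0, 4, 2, 3] [1, 1, 1, 3], .ref 5 [0, 4] [2, 4, 3], .ref 98 [0, 4] [2, 4, 3], .ref 223 [0, 4, 2, 3] [1, 1, 3, 1], .ref 5 [0, 4] [2, 6, 1], .ref 98 [0, 4] [2, 6, 1]]),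
([s 3 0, s 2 0, g, s 0 1, g, m 1 0, s 0 2, g, p 0 3, g], .leaf [8, 7, 4, 1]),
([s 4 1, s 3 0, g, m 0 2, g, m 2 0, s 0 3, g, p 0 4, g, m 1 0, g], .leaf [2, 3, 9, 7, 2, 6, 1]),
([s 3 0, s 1 0, g, m 2 0, s 0 1, g, s 0 2, g, p 0 3, g], .leaf [8, 7, 2, 3]),
([s 2 0, s 1 0, g, m 3 0, s 0 1, g, p 0 2, g, s 0 3, g], .leaf [6, 5, 2, 5]),
([s 3 1, s 2 0, g, m 0 0, s 0 2, g, p 0 3, g, m 1 0, g], .inner (.lo 3) [.ref 167 [0, 1, 4, 2, 3] [1, 0, 1, 1, 1], .ref 225 [0, 4, 2, 3] [1, 1, 1, 3], .ref 98 [0, 4] [2, 1, 6], .ref 226 [0, 1, 4, 2, 3] [1, 1, 1, 1, 1], .cyc [3], .ref 227 [0, 2, 4, 3] [1, 1, 1, 3], .ref 161 [0, 4] [2, 2, 5], .ref 13 [0, 4] [2, 2, 5], .ref 228 [0, 2, 3, 4] [1, 1, 1, 3], .ref 161 [0, 4] [2, 4, 3], .ref 13 [0, 4]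 [2, 4, 3], .ref 13 [0, 4] [2, 4, 1], .ref 228 [0, 2, 3, 4] [1, 1, 3, 1], .ref 161 [0, 4] [2, 6, 1], .ref 13 [0, 4] [2, 6, 1]]),
([s 4 1, s 3 2, g, s 0 3, g, p 5 4, s 0 5, g, m 1 0, g, s 2 0, g], .inner (.bot 2) [.contra, .ref 219 [0, 1, 2, 3, 4, 5] [1, 1, 1, 1, 1], .ref 224 [0, 1, 3, 4] [1, 1, 2, 3], .ref 229 [0, 1, 3, 4] [1, 1, 2, 3]]),
([s 3 1, s 2 0, g, s 0 2, g, p 4 3, g, p 0 4, g, m 1 0, g], .leaf [2, 9, 6, 6, 3, 3, 1]),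
([s 3 1, s 2 0, g, s 0 2, g, p 4 3, g, m 1 0, g, p 0 4, g], .leaf [2, 7, 4, 4, 1, 5, 3]),
([s 6 1, s 3 2, g, s 0 3, g, m 0 4, g, m 4 5, g, p 0 6, s 5 0, g, m 1 0, g, s 2 0, g], .inner (.lo 9) [.ref 194 [0, 7, 3, 5, 6] [1, 1, 3, 1, 5], .ref 5 [0, 7] [2, 7, 6], .ref 104 [0, 7, 5, 6] [2, 5, 1, 5], .ref 195 [0, 3, 7, 5, 6] [1, 1, 3, 1, 5], .ref 5 [0, 7] [4, 5, 6], .ref 104 [0, 7, 5, 6] [4, 3, 1, 5], .ref 195 [0, 3, 7, 5, 6] [1, 3, 1, 1, 5], .ref 5 [0, 7] [6, 3, 6], .ref 104 [0, 7, 5, 6] [6, 1, 1, 5], .ref 107 [0, 4, 5, 7, 6] [4, 1, 1, 1, 5], .ref 5 [0, 7] [8, 1, 6], .ref 108 [0, 5, 7, 6] [6, 1, 1, 5], .ref 230 [0, 1, 2, 3, 6, 7] [1, 5, 1, 1, 1], .ref 155 [0, 4, 5, 6, 7] [4, 1, 1, 1, 5], .ref 231 [0, 1, 3, 6, 7] [1, 5, 2,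 1, 3], .ref 157 [0, 5, 6, 7] [6, 1, 1, 5], .cyc [0, 12, 9], .ref 155 [0, 4, 5, 6, 7] [4, 1, 1, 3, 3], .ref 232 [0, 1, 3, 6, 7] [1, 5, 2, 1, 3], .ref 157 [0, 5, 6, 7] [6, 1, 3, 3], .ref 155 [0, 4, 5, 6, 7] [4, 1, 1, 3, 1], .ref 155 [0, 4, 5, 6, 7] [4, 1, 1, 5, 1], .ref 232 [0, 1, 3, 6, 7] [1, 5, 2, 3, 1], .ref 157 [0, 5, 6, 7] [6, 1, 5, 1]]),
([s 4 1, s 3 2, g, p 0 3, g, p 0 4, g, m 1 0, g, s 2 0, g], .leaf [3, 1, 4, 1, 4, 2, 3]),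
([s 4 1, s 3 0, g, m 0 2, g, s 0 3, g, m 2 0, g, p 0 4, g, m 1 0, g], .leaf [4, 7, 5, 9, 6, 6, 1]),
([s 4 1, s 5 2, g, m 0 3, g, p 0 4, s 3 0, g, s 0 5, g, m 1 0, g, s 2 0, g], .leaf [1, 7, 4, 2, 3, 6, 2, 5]),
([s 3 0, s 4 0, g, m 0 1, g, m 1 2, g, p 0 3, s 2 0, g, p 0 4, g], .leaf [10, 5, 2, 8, 3, 5, 3]),
([s 3 0, s 4 0, g, s 0 1, g, m 0 2, g, p 1 3, s 2 0, g, s 0 4, g], .leaf [3, 6, 1, 5, 2, 5]),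
([s 4 1, s 6 2, g, m 0 3, g, p 5 4, s 3 5, g, m 1 0, g, s 0 6, g, s 2 0, g], .leaf [9, 6, 2, 6, 8, 4, 1, 4, 2, 3]),
([s 4 1, s 6 2, g, m 0 3, g, p 5 4, s 3 0, g, p 0 5, g, m 1 0, g, s 0 6, g, s 2 0, g], .leaf [11, 8, 2, 8, 10, 6, 3, 6, 2, 5]),
([s 4 1, s 6 2, g, m 0 3, g, p 5 4, s 3 0, g, m 1 0, g, p 0 5, g, s 0 6, g, s 2 0, g], .leaf [12, 10, 6, 9, 10, 8, 3, 6, 2, 3]),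
([s 2 1, s 3 0, g, p 4 2, g, m 1 0, g, s 0 3, g, p 0 4, g], .leaf [3, 2, 5, 7, 3, 5, 1]),
([s 5 1, s 6 2, g, m 0 3, g, m 3 4, g, p 0 5, s 4 0, g, m 1 0, g, s 0 6, g, s 2 0, g], .inner (.lo 7) [.ref 238 [0, 7, 4, 5, 6] [1, 3, 1, 3, 3], .ref 5 [0, 7] [2, 5, 8], .ref 104 [0, 7, 4, 5] [2, 3, 1, 7], .ref 238 [0, 7, 4, 5, 6] [3, 1, 1, 3, 3], .ref 5 [0, 7] [4, 3, 8], .ref 104 [0, 7, 4, 5] [4, 1, 1, 7], .ref 107 [0, 3, 4, 7, 5] [2, 1, 1, 1, 7], .ref 5 [0, 7] [6, 1, 8], .ref 108 [0, 4, 7, 5] [4, 1, 1, 7], .ref 239 [0, 1, 2, 4, 5, 7, 6] [3, 1, 1, 1, 1, 1], .ref 155 [0, 3, 4, 5, 7] [2, 1, 1, 1, 7], .ref 240 [0, 1, 2, 4, 5, 7, 6] [3, 1, 1, 1, 1, 1, 1], .ref 157 [0, 4, 5, 7] [4, 1, 1, 7], .cyc [0, 10, 7], .ref 155 [0, 3, 4, 5, 7]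 [2, 1, 1, 3, 5], .ref 241 [0, 1, 2, 4, 5, 7, 6] [3, 1, 1, 1, 1, 1, 1], .ref 157 [0, 4, 5, 7] [4, 1, 3, 5], .ref 155 [0, 3, 4, 5, 7] [2, 1, 1, 5, 3], .ref 242 [0, 1, 5, 6, 7] [5, 2, 1, 1, 3], .ref 157 [0, 4, 5, 7] [4, 1, 5, 3], .ref 155 [0, 3, 4, 5, 7] [2, 1, 1, 5, 1], .ref 155 [0, 3, 4, 5, 7] [2, 1, 1, 7, 1], .ref 242 [0, 1, 5, 6, 7] [5, 2, 1, 3, 1], .ref 157 [0, 4, 5, 7] [4, 1, 7, 1]]),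
([s 4 1, s 6 2, g, m 0 3, g, p 5 4, s 3 5, g, m 1 0, g, s 2 0, g, s 0 6, g], .leaf [9, 6, 2, 6, 8, 4, 1, 4, 2, 3]),
([s 4 1, s 6 2, g, m 0 3, g, p 5 4, s 3 0, g, p 0 5, g, m 1 0, g, s 2 0, g, s 0 6, g], .leaf [11, 8, 2, 8, 10, 6, 3, 6, 2, 5]),
([s 4 1, s 6 2, g, m 0 3, g, p 5 4, s 3 0, g, m 1 0, g, p 0 5, g, s 2 0, g, s 0 6, g], .leaf [12, 10, 6, 9, 10, 8, 3, 6, 2, 3]),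
([s 3 1, s 0 2, g, p 4 3, g, m 1 0, g, s 2 0, g, p 0 4, g], .leaf [3, 2, 5, 7, 3, 5, 1]),
([s 5 1, s 6 2, g, m 0 3, g, m 3 4, g, p 0 5, s 4 0, g, m 1 0, g, s 2 0, g, s 0 6, g], .inner (.lo 7) [.ref 238 [0, 7, 4, 5, 6] [1, 3, 1, 5, 1], .ref 5 [0, 7] [2, 5, 8], .ref 104 [0, 7, 4, 5] [2, 3, 1, 7], .ref 238 [0, 7, 4, 5, 6] [3, 1, 1, 5, 1], .ref 5 [0, 7] [4, 3, 8], .ref 104 [0, 7, 4, 5] [4, 1, 1, 7], .ref 107 [0, 3, 4, 7, 5] [2, 1, 1, 1, 7], .ref 5 [0, 7] [6, 1, 8], .ref 108 [0, 4, 7, 5] [4, 1, 1, 7], .ref 244 [0, 1, 2, 4, 5, 7, 6] [3, 1, 1, 1, 1, 1], .ref 155 [0, 3, 4, 5, 7] [2, 1, 1, 1, 7], .ref 245 [0, 1, 2, 4, 5, 7, 6] [3, 1, 1, 1, 1, 1, 1], .ref 157 [0, 4, 5, 7] [4, 1, 1, 7], .cyc [0, 10, 7], .ref 155 [0, 3, 4, 5, 7]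 [2, 1, 1, 3, 5], .ref 246 [0, 1, 2, 4, 5, 7, 6] [3, 1, 1, 1, 1, 1, 1], .ref 157 [0, 4, 5, 7] [4, 1, 3, 5], .ref 155 [0, 3, 4, 5, 7] [2, 1, 1, 3, 3], .ref 155 [0, 3, 4, 5, 7] [2, 1, 1, 5, 3], .ref 247 [0, 1, 2, 5, 7] [5, 2, 1, 1, 3], .ref 157 [0, 4, 5, 7] [4, 1, 5, 3], .ref 155 [0, 3, 4, 5, 7] [2, 1, 1, 7, 1], .ref 247 [0, 1, 2, 5, 7] [5, 2, 1, 3, 1], .ref 157 [0, 4, 5, 7] [4, 1, 7, 1]]),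
([s 5 1, s 0 2, g, m 0 3, g, m 3 4, g, p 0 5, s 4 0, g, m 1 0, g, s 2 0, g], .inner (.lo 1) [.ref 233 [0, 1, 2, 6, 3, 4, 5] [1, 1, 1, 1, 1, 1, 1], .ref 234 [0, 1, 2, 6, 5] [1, 5, 2, 1, 1], .ref 27 [0, 6, 5] [1, 5, 6], .ref 235 [0, 1, 3, 6, 5] [1, 1, 1, 1, 2, 3], .ref 234 [0, 1, 2, 6, 5] [3, 3, 2, 1, 1], .ref 27 [0, 6, 5] [3, 3, 6], .ref 180 [0, 2, 4, 6, 5] [3, 1, 1, 3, 1], .ref 234 [0, 1, 2, 6, 5] [5, 1, 2, 1, 1], .ref 27 [0, 6, 5] [5, 1, 6], .ref 189 [0, 1, 2, 5, 6] [5, 1, 1, 1], .ref 236 [0, 1, 2, 4, 5, 6] [3, 1, 1, 1, 1, 1], .ref 237 [0, 3, 4, 5, 6] [1, 1, 1, 1, 5], .ref 30 [0, 5, 6] [5, 2, 5], .ref 30 [0, 5, 6] [5, 2, 3], .ref 243 [0, 1, 2, 3, 4, 5, 6] [1, 1, 1, 1, 1, 1, 1], .ref 237 [0, 3, 4, 5, 6] [1, 1, 1, 3, 3],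 .ref 30 [0, 5, 6] [5, 4, 3], .cyc [1, 12], .ref 248 [0, 1, 2, 3, 4, 5, 6] [1, 1, 1, 1, 1, 1, 1], .ref 237 [0, 3, 4, 5, 6] [1, 1, 1, 5, 1], .ref 30 [0, 5, 6] [5, 6, 1]]),
([s 4 1, s 0 2, g, m 0 3, g, p 0 4, s 3 0, g, m 1 0, g, s 2 0, g], .inner (.lo 3) [.ref 193 [0, 1, 2, 5, 3, 4] [1, 1, 1, 1, 1, 1], .ref 98 [0, 5] [2, 1, 8], .ref 249 [0, 1, 2, 5, 3, 4] [1, 1, 1, 1, 1, 1], .ref 160 [0, 1, 3, 5, 4] [2, 1, 1, 1, 3], .ref 161 [0, 5] [2, 1, 8], .ref 13 [0, 5] [2, 1, 8], .cyc [3, 6], .ref 162 [0, 1, 3, 4, 5] [2, 1, 1, 1, 3], .ref 161 [0, 5] [2, 4, 5], .ref 13 [0, 5] [2, 4, 5], .ref 13 [0, 5] [2, 4, 3], .ref 163 [0, 1, 3, 4, 5] [2, 1, 1, 1, 3], .ref 161 [0, 5] [2, 6, 3], .ref 13 [0, 5] [2, 6, 3], .ref 163 [0, 1, 3, 4, 5] [2,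 1, 1, 1, 1], .ref 163 [0, 1, 3, 4, 5] [2, 1, 1, 3, 1], .ref 161 [0, 5] [2, 8, 1], .ref 13 [0, 5] [2, 8, 1]]),
([s 4 1, s 3 2, g, s 0 3, g, p 0 4, g, m 1 0, g, m 2 0, g], .leaf [2, 7, 4, 4, 1, 5, 1]),
([s 4 0, s 2 1, g, p 0 2, g, m 0 3, g, p 0 4, s 3 0, g, m 1 0, g], .leaf [10, 8, 1, 4, 7, 2, 3]),
([s 4 1, s 3 0, g, m 0 2, g, p 0 3, g, p 0 4, s 2 0, g, m 1 0, g], .leaf [1, 10, 8, 3, 7, 2, 3]),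
([s 3 1, s 4 2, g, p 0 3, g, s 0 4, g, m 1 0, g, m 2 0, g], .leaf [9, 7, 1, 6, 3, 5, 3]),
([s 3 1, s 4 2, g, p 0 3, g, m 1 0, g, s 0 4, g, m 2 0, g], .leaf [7, 5, 6, 4, 6, 2, 3])]

def D00 : List (List (List Item × Pf)) := [d00_0, d00_1, d00_2, d00_3]

end Pool.Agent.H63.PU.C138
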