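import Pool.Agent.H63.PU.Short

/-! Certificate data, machine generated. -/

namespace Pool.Agent.H63.PU.C138

open Pool.Agent.H63.PU Pool.Agent.H63.PU.Short

set_option maxRecDepth 20000

def d14_0 : List (List Item × Pf) := [
([m 0 1, g, p 2 0, g, p 3 2, g, p 0 3, m 1 4, g, m 4 0, g], .leaf [2, 7, 4, 1, 4, 6, 4, 1]),
([m 0 1, g, p 3 2, g, s 2 0, g, p 0 3, g, m 1 4, g, m 4 0, g], .leaf [4, 1, 7, 3, 1, 3, 5, 3]),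
([m 0 0, g, p 2 1, g, p 0 2, m 0 3, g, s 1 0, g, m 3 0, g], .leaf [2, 6, 8, 6, 3]),
([m 0 1, g, p 3 2, g, p 0 3, g, m 1 4, g, m 4 0, g, s 2 0, g], .leaf [10, 7, 7, 5, 7, 5, 5, 3]),
([m 0 1, g, p 2 0, g, p 0 2, m 1 3, g, m 3 0, g], .inner (.hi 2) [.ref 2503 [0, 4] [1, 6], .ref 3583 [0, 1, 4, 2, 3] [1, 1, 1, 1, 1], .ref 3584 [0, 1, 4, 2, 3] [1, 1, 1, 1, 1], .ref 2638 [0, 4] [1, 1, 6], .ref 3585 [0, 1, 4, 2, 3] [1, 1, 1, 0, 1, 1], .ref 2612 [0, 4] [1, 1, 6], .ref 2649 [0, 4] [1, 1, 6], .cyc [2, 4], .ref 3586 [0, 4, 2, 3] [1, 1, 1, 1, 1], .ref 2612 [0, 4] [1, 4, 3], .ref 2649 [0, 4] [1, 4, 3], .ref 3587 [0, 1, 4, 2, 3] [1, 1, 0, 1, 1, 1], .ref 2612 [0, 4] [1, 6, 1], .ref 2649 [0, 4] [1, 6, 1]]),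
([m 0 1, g, s 0 2, g, p 2 3, m 1 4, g, s 3 0, g, m 4 0, g], .leaf [3, 5, 1, 2, 6, 4, 1]),
([m 0 1, g, p 4 2, m 1 3, g, s 0 4, g, s 2 0, g, m 3 0, g], .leaf [1, 3, 1, 2, 6, 4, 1]),
([m 0 1, g, p 4 2, g, m 1 3, g, p 0 4, g, s 2 0, g, m 3 0, g], .leaf [8, 5, 5, 1, 7, 3, 3, 1]),
([m 0 1, g, p 4 2, m 1 3, g, s 2 0, g, s 0 4, g, m 3 0, g], .leaf [1, 3, 1, 4, 6, 2, 3]),
([m 0 1, g, p 4 2, g, m 1 3, g, s 2 0, g, p 0 4, g, m 3 0, g], .leaf [1, 6, 3, 6, 2, 3, 5, 1]),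
([m 0 1, g, p 4 2, m 1 3, g, s 2 0, g, m 3 0, g, s 0 4, g], .leaf [1, 3, 1, 6, 3, 4, 1]),
([m 0 1, g, p 4 2, g, m 1 3, g, s 2 0, g, m 3 0, g, p 0 4, g], .leaf [6, 3, 5, 3, 7, 5, 3, 1]),
([m 0 1, g, p 0 2, m 1 3, g, s 2 0, g, m 3 0, g], .inner (.lo 2) [.ref 3589 [0, 1, 4, 2, 3] [1, 1, 1, 1, 1], .ref 2612 [0, 4] [1, 1, 6], .ref 2641 [0, 1, 4] [1, 1, 0, 5], .ref 3590 [0, 1, 2, 3, 4] [1, 1, 1, 1, 1], .ref 3591 [0, 1, 2, 3, 4] [1, 0, 1, 1, 1, 1], .ref 2622 [0, 1, 4] [1, 0, 1, 5], .cyc [2, 5], .ref 3592 [0, 1, 2, 3, 4] [1, 1, 1, 1, 1], .ref 3593 [0, 1, 2, 3, 4] [1, 0, 1, 1, 1, 1], .ref 2622 [0, 1, 4] [1, 0, 3, 3], .ref 2622 [0, 1, 4] [1, 0, 3, 1], .ref 3594 [0, 1, 2, 3, 4] [1, 1, 1, 1, 1], .ref 3595 [0, 1, 2, 3, 4] [1, 0, 1, 1, 1,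 1], .ref 2622 [0, 1, 4] [1, 0, 5, 1]]),
([m 0 1, g, s 0 2, g, p 2 3, m 1 4, g, m 4 0, g, s 3 0, g], .leaf [3, 5, 1, 2, 4, 2, 3]),
([m 0 1, g, p 4 2, m 1 3, g, s 0 4, g, m 3 0, g, s 2 0, g], .leaf [1, 3, 1, 2, 4, 2, 3]),
([m 0 1, g, p 4 2, g, m 1 3, g, p 0 4, g, m 3 0, g, s 2 0, g], .leaf [1, 10, 7, 1, 6, 3, 1, 3]),
([m 0 0, g, s 3 0, g, p 0 1, m 0 2, g, m 2 3, g, s 1 0, g], .leaf [2, 6, 6, 4, 5]),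
([m 0 1, g, p 5 2, m 1 3, g, s 4 0, g, m 3 4, g, s 0 5, g, s 2 0, g], .leaf [4, 7, 5, 8, 1, 6, 4, 2, 1]),
([m 0 1, g, p 5 2, m 1 3, g, m 3 4, g, s 4 0, g, s 0 5, g, s 2 0, g], .leaf [2, 10, 5, 1, 3, 6, 2, 0, 1]),
([m 0 1, g, p 4 0, g, m 1 2, g, m 2 3, g, m 3 0, g, s 0 4, g], .leaf [9, 7, 8, 5, 5, 3, 3, 1]),
([m 0 1, g, p 4 0, g, m 1 2, g, m 2 3, g, s 3 4, g], .leaf [1, 4, 2, 5, 5, 3, 3, 1]),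
([m 0 1, g, p 5 2, m 1 3, g, m 3 4, g, s 0 5, g, s 4 0, g, s 2 0, g], .leaf [1, 3, 1, 4, 1, 4, 6, 4, 1]),
([m 0 1, g, p 4 0, g, m 1 2, g, m 2 3, g, s 0 4, g, m 3 0, g], .leaf [1, 4, 2, 5, 7, 5, 5, 3]),
([m 0 1, g, p 0 2, m 1 3, g, m 3 4, g, s 2 0, g, s 4 0, g], .leaf [2, 6, 1, 6, 4, 0, 3]),
([m 0 1, g, p 4 2, m 1 3, g, m 3 0, g, s 0 4, g, s 2 0, g], .inner (.hi 5) [.cyc [0, 3, 5], .ref 3600 [0, 2, 3, 5] [1, 1, 1, 3, 1], .ref 2622 [0, 1, 5] [1, 2, 1, 5], .ref 2623 [0, 5] [1, 4, 5], .ref 3601 [0, 1, 2, 3, 5, 4] [1, 1, 1, 1, 1, 1], .ref 3170 [0, 1, 3, 5] [2, 1, 1, 5], .ref 2623 [0, 5] [4, 1, 5], .ref 3602 [0, 1, 2, 3, 5, 4] [1, 1, 1, 1, 1, 1], .ref 3182 [0, 1, 3, 5] [2, 1, 1, 5], .ref 3603 [0, 1, 3, 5, 4] [1, 0, 1, 1, 1, 3], .ref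 3604 [0, 1, 3, 5, 4] [1, 0, 1, 1, 3], .ref 3605 [0, 1, 2, 3, 5, 4] [1, 1, 1, 1, 1, 1], .ref 3182 [0, 1, 3, 5] [2, 1, 3, 3], .ref 3606 [0, 1, 3, 5, 4] [1, 0, 1, 1, 1, 3], .ref 3607 [0, 1, 2, 3, 5] [1, 1, 3, 1, 1], .ref 3182 [0, 1, 3, 5] [2, 1, 5, 1], .ref 3606 [0, 1, 3, 5, 4] [1, 0, 1, 1, 3, 1]]),
([m 0 1, g, p 4 2, g, m 1 3, g, m 3 0, g, p 0 4, g, s 2 0, g], .leaf [10, 7, 9, 7, 7, 5, 3, 1]),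
([m 0 1, g, p 5 2, m 1 3, g, s 4 0, g, m 3 4, g, s 2 0, g, s 0 5, g], .leaf [4, 11, 8, 4, 7, 1, 6, 2, 1]),
([m 0 1, g, p 5 2, m 1 3, g, m 3 4, g, s 4 0, g, s 2 0, g, s 0 5, g], .leaf [1, 3, 1, 8, 5, 1, 3, 4, 1]),
([m 0 1, g, p 4 2, m 1 3, g, m 3 0, g, s 2 0, g, s 0 4, g], .inner (.hi 5) [.cyc [0, 3, 5], .ref 3600 [0, 2, 3, 5] [1, 1, 1, 1, 3], .ref 2622 [0, 1, 5] [1, 2, 1, 5], .ref 2623 [0, 5] [1, 4, 5], .ref 3610 [0, 1, 2, 3, 5, 4] [1, 1, 1, 1, 1, 1], .ref 3170 [0, 1, 3, 5] [2, 1, 1, 5], .ref 2623 [0, 5] [4, 1, 5], .ref 3611 [0, 1, 2, 3, 5, 4] [1, 1, 1, 1, 1, 1], .ref 3182 [0, 1, 3, 5] [2, 1, 1, 5], .ref 3603 [0, 1, 3, 5, 4] [1, 0, 1, 1, 3, 1], .ref 3607 [0, 1, 2, 3, 5] [1, 1, 1, 1, 3], .ref 3182 [0, 1, 3, 5] [2, 1, 3, 3],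 .ref 3603 [0, 1, 3, 5, 4] [1, 0, 1, 3, 1, 1], .ref 3607 [0, 1, 2, 3, 5] [1, 1, 1, 1, 1], .ref 3607 [0, 1, 2, 3, 5] [1, 1, 1, 3, 1], .ref 3182 [0, 1, 3, 5] [2, 1, 5, 1], .ref 3606 [0, 1, 3, 5, 4] [1, 0, 1, 3, 1, 1]]),
([m 0 1, g, p 4 2, g, m 1 3, g, m 3 0, g, s 2 0, g, p 0 4, g], .leaf [1, 8, 5, 8, 2, 5, 5, 3]),
([m 0 1, g, p 0 2, m 1 3, g, m 3 0, g, s 2 0, g], .inner (.lo 2) [.ref 3597 [0, 1, 4, 2, 3] [1, 1, 1, 1, 1], .ref 2612 [0, 4] [1, 1, 6], .ref 2641 [0, 1, 4] [1, 1, 0, 5], .ref 3598 [0, 1, 2, 3, 4] [1, 1, 1, 1, 1], .ref 3599 [0, 1, 2, 3, 4] [1, 0, 1, 1, 1, 1], .ref 2622 [0, 1, 4] [1, 0, 1, 5], .ref 2622 [0, 1, 4] [1, 0, 1, 3], .ref 3608 [0, 1, 2, 3, 4] [1, 1, 1, 1, 1], .ref 3609 [0, 1, 2, 3, 4] [1, 0, 1, 1, 1, 1], .ref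 2622 [0, 1, 4] [1, 0, 3, 3], .cyc [2, 7], .ref 3612 [0, 1, 2, 3, 4] [1, 1, 1, 1, 1], .ref 3613 [0, 1, 2, 3, 4] [1, 0, 1, 1, 1, 1], .ref 2622 [0, 1, 4] [1, 0, 5, 1]]),
([m 0 1, g, p 0 0, m 1 2, g, m 2 0, g], .inner (.hi 2) [.ref 2503 [0, 3] [1, 4], .ref 3582 [0, 1, 3, 2] [1, 1, 1, 1], .ref 3588 [0, 1, 3, 2] [1, 1, 1, 1], .ref 2638 [0, 3] [1, 1, 4], .cyc [2], .ref 3596 [0, 1, 3, 2] [1, 1, 1, 1], .ref 2612 [0, 3] [1, 2, 3], .ref 2649 [0, 3] [1, 2, 3], .ref 3614 [0, 1, 3, 2] [1, 1, 1, 1], .ref 2612 [0, 3] [1, 4, 1], .ref 2649 [0, 3] [1, 4, 1]]),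
([m 0 1, g, s 3 0, g, s 0 2, g, m 2 3, m 1 4, g, m 4 0, g], .leaf [5, 7, 1, 2, 6, 4, 1]),
([m 0 1, g, s 0 2, g, s 3 0, g, m 2 3, m 1 4, g, m 4 0, g], .leaf [5, 7, 1, 4, 6, 2, 3]),
([m 0 1, g, s 0 2, g, m 2 3, m 1 4, g, s 3 0, g, m 4 0, g], .leaf [3, 5, 1, 4, 6, 2, 3]),
([m 0 1, g, s 0 2, g, m 2 3, g, m 1 4, g, m 3 0, g, m 4 0, g], .leaf [4, 1, 5, 1, 5, 1, 5, 1]),
([m 0 1, g, s 0 2, g, m 2 3, m 1 4, g, m 4 0, g, s 3 0, g], .leaf [3, 5, 1, 6, 3, 4, 1]),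
([m 0 1, g, s 0 2, g, m 2 3, g, m 1 4, g, m 4 0, g, m 3 0, g], .leaf [4, 1, 5, 1, 7, 3, 5, 3]),
([m 0 1, g, s 0 2, g, m 2 0, m 1 3, g, m 3 0, g], .inner (.hi 4) [.ref 2504 [0, 4] [3, 4], .ref 3616 [0, 1, 2, 4, 3] [1, 1, 1, 1, 1], .ref 2656 [0, 1, 4] [1, 3, 0, 3], .ref 2623 [0, 4] [1, 3, 4], .cyc [2, 4], .ref 3617 [0, 1, 2, 4, 3] [1, 1, 1, 1, 1], .ref 2656 [0, 1, 4] [3, 1, 0, 3], .ref 2623 [0, 4] [3, 1, 4], .ref 3618 [0, 1, 2, 4, 3] [1, 1, 1, 1, 1], .ref 2613 [0, 1, 4] [3, 0, 1, 3], .ref 3619 [0, 1, 2, 4, 3] [1, 1, 0, 1, 1, 1], .ref 3620 [0, 1, 2, 4, 3] [1, 1, 1, 1, 1], .ref 2613 [0, 1, 4] [3, 0, 3, 1], .ref 3621 [0, 1, 2, 4, 3] [1, 1, 0, 1, 1, 1]]),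
([m 0 1, g, s 0 2, g, m 2 3, g, m 3 0, m 1 4, g, m 4 0, g], .leaf [2, 7, 4, 1, 4, 6, 4, 1]),
([m 0 1, g, m 0 2, g, m 2 3, g, m 3 0, m 1 4, g, m 4 0, g], .leaf [2, 7, 4, 1, 4, 6, 4, 1]),
([m 0 1, g, m 3 2, g, s 0 3, g, m 2 0, g, m 1 4, g, m 4 0, g], .leaf [4, 1, 7, 3, 1, 3, 5, 3]),
([m 0 0, g, m 3 1, g, m 1 0, m 0 2, g, s 0 3, g, m 2 0, g], .leaf [2, 6, 8, 6, 3]),
([m 0 1, g, m 4 2, g, m 2 0, g, m 1 3, g, m 3 0, g, s 0 4, g], .leaf [10, 7, 7, 5, 7, 5, 5, 3]),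
([m 0 1, g, m 0 2, g, m 2 0, m 1 3, g, m 3 0, g], .inner (.lo 2) [.ref 3623 [0, 1, 4, 2, 3] [1, 1, 1, 1, 1], .ref 2649 [0, 4] [1, 1, 6], .ref 3624 [0, 1, 4, 2, 3] [1, 1, 1, 1, 1], .ref 3625 [0, 1, 2, 4, 3] [1, 1, 1, 0, 1, 1], .ref 2638 [0, 4] [1, 1, 6], .ref 2623 [0, 4] [1, 1, 6], .cyc [2, 4], .ref 3626 [0, 2, 3, 4] [1, 1, 1, 1, 1], .ref 2638 [0, 4] [1, 4, 3], .ref 2623 [0, 4] [1, 4, 3], .ref 2623 [0, 4] [1, 4, 1], .ref 3627 [0, 1, 2, 3, 4] [1, 1, 0, 1, 1, 1], .ref 2638 [0, 4] [1, 6, 1], .ref 2623 [0, 4] [1, 6, 1]]),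
([m 0 1, g, s 2 0, g, m 4 2, m 1 3, g, s 0 4, g, m 3 0, g], .leaf [3, 5, 1, 2, 6, 4, 1]),
([m 0 1, g, m 4 2, m 1 3, g, s 2 0, g, s 0 4, g, m 3 0, g], .leaf [1, 3, 1, 2, 6, 4, 1]),
([m 0 1, g, m 4 2, g, m 1 3, g, m 2 0, g, s 0 4, g, m 3 0, g], .leaf [8, 5, 5, 1, 7, 3, 3, 1]),
([m 0 1, g, m 4 2, m 1 3, g, s 0 4, g, s 2 0, g, m 3 0, g], .leaf [1, 3, 1, 4, 6, 2, 3]),
([m 0 1, g, m 4 2, g, m 1 3, g, s 0 4, g, m 2 0, g, m 3 0, g], .leaf [1, 6, 3, 6, 2, 3, 5, 1]),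
([m 0 1, g, m 4 2, m 1 3, g, s 0 4, g, m 3 0, g, s 2 0, g], .leaf [1, 3, 1, 6, 3, 4, 1]),
([m 0 1, g, m 4 2, g, m 1 3, g, s 0 4, g, m 3 0, g, m 2 0, g], .leaf [6, 3, 5, 3, 7, 5, 3, 1]),
([m 0 1, g, m 3 0, m 1 2, g, s 0 3, g, m 2 0, g], .inner (.hi 2) [.ref 2504 [0, 4] [1, 6], .ref 3629 [0, 1, 4, 2, 3] [1, 1, 1, 1, 1], .ref 2656 [0, 1, 4] [1, 1, 0, 5], .ref 2623 [0, 4] [1, 1, 6], .ref 3630 [0, 1, 4, 2, 3] [1, 1, 1, 1, 1], .ref 2613 [0, 1, 4] [1, 0, 1, 5], .ref 3631 [0, 1, 4, 2, 3] [1, 0, 1, 1, 1, 1], .cyc [2, 5], .ref 3632 [0, 1, 4, 2, 3] [1, 1, 1, 1, 1], .ref 2613 [0, 1, 4] [1, 0, 3, 3], .ref 3633 [0, 1, 4, 2, 3] [1, 0, 1, 1, 1, 1], .ref 3634 [0, 1, 4, 2, 3] [1, 1, 1, 1, 1], .ref 2613 [0, 1, 4] [1, 0, 5, 1], .ref 3635 [0, 1,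 4, 2, 3] [1, 0, 1, 1, 1, 1]]),
([m 0 1, g, s 2 0, g, m 4 2, m 1 3, g, m 3 0, g, s 0 4, g], .leaf [3, 5, 1, 2, 4, 2, 3]),
([m 0 1, g, m 4 2, m 1 3, g, s 2 0, g, m 3 0, g, s 0 4, g], .leaf [1, 3, 1, 2, 4, 2, 3]),
([m 0 1, g, m 4 2, g, m 1 3, g, m 2 0, g, m 3 0, g, s 0 4, g], .leaf [1, 10, 7, 1, 6, 3, 1, 3]),
([m 0 0, g, s 2 0, g, m 3 0, m 0 1, g, m 1 2, g, s 0 3, g], .leaf [2, 6, 6, 4, 5]),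
([m 0 1, g, m 5 2, m 1 3, g, s 4 0, g, m 3 4, g, s 2 0, g, s 0 5, g], .leaf [4, 7, 5, 8, 1, 6, 4, 2, 1]),
([m 0 1, g, m 5 2, m 1 3, g, m 3 4, g, s 4 0, g, s 2 0, g, s 0 5, g], .leaf [2, 10, 5, 1, 3, 6, 2, 0, 1]),
([m 0 1, g, m 0 2, g, m 1 3, g, m 3 4, g, m 4 0, g, s 2 0, g], .leaf [9, 7, 8, 5, 5, 3, 3, 1]),
([m 0 1, g, m 5 2, m 1 3, g, m 3 4, g, s 2 0, g, s 4 0, g, s 0 5, g], .leaf [1, 3, 1, 4, 1, 4, 6, 4, 1]),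
([m 0 1, g, m 0 2, g, m 1 3, g, m 3 4, g, s 2 0, g, m 4 0, g], .leaf [1, 4, 2, 5, 7, 5, 5, 3]),
([m 0 1, g, m 5 2, m 1 3, g, m 3 4, g, s 2 0, g, s 4 5, g], .leaf [1, 3, 1, 4, 1, 4, 4, 2, 1]),
([m 0 1, g, m 4 0, m 1 2, g, m 2 3, g, s 0 4, g, s 3 0, g], .leaf [2, 6, 1, 6, 4, 0, 3])]

def d14_1 : List (List Item × Pf) := [
([m 0 1, g, m 4 2, m 1 3, g, m 3 0, g, s 2 0, g, s 0 4, g], .inner (.hi 5) [.cyc [0, 3, 5], .ref 3640 [0, 3, 5, 4] [1, 1, 1, 3, 1], .ref 2622 [0, 1, 5] [1, 2, 1, 5], .ref 2623 [0, 5] [1, 4, 5], .ref 3641 [0, 1, 2, 3, 5, 4] [1, 1, 1, 1, 1, 1], .ref 3170 [0, 1, 3, 5] [2, 1, 1, 5], .ref 2623 [0, 5] [4, 1, 5], .ref 3642 [0, 1, 2, 3, 5, 4] [1, 1, 1, 1, 1, 1], .ref 3182 [0, 1, 3, 5] [2, 1, 1, 5], .ref 3643 [0, 1,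 2, 3, 5] [1, 0, 1, 1, 1, 3], .ref 3644 [0, 1, 2, 3, 5, 4] [1, 1, 1, 1, 1, 1], .ref 3182 [0, 1, 3, 5] [2, 1, 3, 3], .ref 3645 [0, 1, 2, 3, 5] [1, 0, 1, 1, 1, 3], .ref 3646 [0, 1, 2, 3, 5, 4] [1, 1, 1, 1, 1], .ref 3647 [0, 1, 3, 5, 4] [1, 1, 3, 1, 1], .ref 3182 [0, 1, 3, 5] [2, 1, 5, 1], .ref 3645 [0, 1, 2, 3, 5] [1, 0, 1, 1, 3, 1]]),
([m 0 1, g, m 4 2, g, m 1 3, g, m 3 0, g, m 2 0, g, s 0 4, g], .leaf [10, 7, 9, 7, 7, 5, 3, 1]),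
([m 0 1, g, m 5 2, m 1 3, g, s 4 0, g, m 3 4, g, s 0 5, g, s 2 0, g], .leaf [4, 11, 8, 4, 7, 1, 6, 2, 1]),
([m 0 1, g, m 5 2, m 1 3, g, m 3 4, g, s 4 0, g, s 0 5, g, s 2 0, g], .leaf [1, 3, 1, 8, 5, 1, 3, 4, 1]),
([m 0 1, g, m 5 2, m 1 3, g, m 3 4, g, s 4 5, g, s 2 0, g], .leaf [1, 3, 1, 6, 3, 1, 1, 2, 1]),
([m 0 1, g, m 4 2, m 1 3, g, m 3 0, g, s 0 4, g, s 2 0, g], .inner (.hi 5) [.cyc [0, 3, 5], .ref 3640 [0, 3, 5, 4] [1, 1, 1, 1, 3], .ref 2622 [0, 1, 5] [1, 2, 1, 5], .ref 2623 [0, 5] [1, 4, 5], .ref 3650 [0, 1, 2, 3, 5, 4] [1, 1, 1, 1, 1, 1], .ref 3170 [0, 1, 3, 5] [2, 1, 1, 5], .ref 2623 [0, 5] [4, 1, 5], .ref 3651 [0, 1, 2, 3, 5, 4] [1, 1, 1, 1, 1, 1], .ref 3182 [0, 1, 3, 5] [2, 1, 1, 5], .ref 3643 [0, 1, 2, 3, 5] [1,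 0, 1, 1, 3, 1], .ref 3652 [0, 1, 2, 3, 5, 4] [1, 1, 1, 1, 1], .ref 3647 [0, 1, 3, 5, 4] [1, 1, 1, 1, 3], .ref 3182 [0, 1, 3, 5] [2, 1, 3, 3], .ref 3643 [0, 1, 2, 3, 5] [1, 0, 1, 3, 1, 1], .ref 3647 [0, 1, 3, 5, 4] [1, 1, 1, 3, 1], .ref 3182 [0, 1, 3, 5] [2, 1, 5, 1], .ref 3645 [0, 1, 2, 3, 5] [1, 0, 1, 3, 1, 1]]),
([m 0 1, g, m 4 2, g, m 1 3, g, m 3 0, g, s 0 4, g, m 2 0, g], .leaf [1, 8, 5, 8, 2, 5, 5, 3]),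
([m 0 1, g, m 3 0, m 1 2, g, m 2 0, g, s 0 3, g], .inner (.hi 2) [.ref 2504 [0, 4] [1, 6], .ref 3637 [0, 1, 4, 2, 3] [1, 1, 1, 1, 1], .ref 2656 [0, 1, 4] [1, 1, 0, 5], .ref 2623 [0, 4] [1, 1, 6], .ref 3638 [0, 1, 4, 2, 3] [1, 1, 1, 1, 1], .ref 2613 [0, 1, 4] [1, 0, 1, 5], .ref 3639 [0, 1, 4, 2, 3] [1, 0, 1, 1, 1, 1], .ref 3648 [0, 1, 4, 2, 3] [1, 1, 1, 1, 1], .ref 2613 [0, 1, 4] [1, 0, 3, 3], .ref 3649 [0, 1, 4, 2, 3] [1, 0, 1, 1, 1, 1], .cyc [2, 7], .ref 3653 [0, 1, 4, 2, 3] [1, 1, 1, 1, 1], .ref 2613 [0, 1, 4] [1, 0, 5, 1], .ref 3654 [0, 1, 4, 2, 3] [1, 0, 1, 1, 1, 1]]),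
([m 0 1, g, m 0 0, m 1 2, g, m 2 0, g], .inner (.lo 2) [.ref 3622 [0, 1, 3, 2] [1, 1, 1, 1], .ref 2649 [0, 3] [1, 1, 4], .ref 3628 [0, 1, 3, 2] [1, 1, 1, 1], .cyc [2], .ref 3636 [0, 1, 2, 3] [1, 1, 1, 1], .ref 2638 [0, 3] [1, 2, 3], .ref 2623 [0, 3] [1, 2, 3], .ref 2623 [0, 3] [1, 2, 1], .ref 3655 [0, 1, 2, 3] [1, 1, 1, 1], .ref 2638 [0, 3] [1, 4, 1], .ref 2623 [0, 3] [1, 4, 1]]),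
([m 0 1, g, m 1 2, g, m 2 0, g], .inner (.bot 1) [.ref 3229 [0, 1, 2] [1, 1], .ref 3575 [0, 1, 2] [1, 1, 1], .ref 3615 [0, 1, 2] [1, 1, 1], .ref 3656 [0, 1, 2] [1, 1, 1]]),
([m 0 1, g, m 1 0, g], .inner (.hi 2) [.cyc [0, 2], .ref 2732 [0, 1, 2] [1, 1, 1], .ref 2733 [0, 1, 2] [1, 1, 1], .ref 2623 [0, 2] [1, 1, 1], .ref 3155 [0, 1, 2] [1, 1, 1], .ref 3156 [0, 1, 2] [1, 1, 1], .ref 3657 [0, 1, 2] [1, 1, 1]]),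
([m 0 0, g], .inner (.hi 0) [.cyc [0], .ref 2500 [0, 1] [1, 1], .ref 2501 [0, 1] [1, 1], .ref 3658 [0, 1] [1, 1]])]

def D14 : List (List (List Item × Pf)) := [d14_0, d14_1]

end Pool.Agent.H63.PU.C138
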